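import Pool.Agent.Lib.MP_fed790_nt.QP.Defs

section

/-!
# QP A0: elementary facts on `sg`

`sg y m = ∑_{q ∣ m prime, q > y} 1/q`.

* `sg_nonneg`, `sg_one`: trivial.
* `sg_mul_le`: `(m n).primeFactors = m.primeFactors ∪ n.primeFactors` (`Nat.primeFactors_mul`), the
  sum over a union of nonnegative terms is at most the sum of the two sums.
* `sg_pow`: `Nat.primeFactors_pow`.
* `sg_prod_le`: induction with `sg_mul_le`.
* `sg_le_of_dvd`: `Nat.primeFactors_mono`.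
* `cadd_one`, `cadd_pow`, `cadd_prod`: from `f 1 = f (1*1) = f 1 + f 1` and induction.
-/

open Finset

namespace Pool.Agent.Lib.MP_fed790_nt.QP

theorem sg_nonneg (y m : ℕ) : 0 ≤ sg y m := by
  unfold sg
  exact Finset.sum_nonneg (fun q _ => by positivity)

theorem sg_one (y : ℕ) : sg y 1 = 0 := by
  simp [sg]

theorem sg_mul_le (y m n : ℕ) (hm : 0 < m) (hn : 0 < n) : sg y (m * n) ≤ sg y m + sg y n := by
  unfold sg
  rw [Nat.primeFactors_mul hm.ne' hn.ne', Finset.filter_union]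
  rw [← Finset.sum_union_inter]
  exact le_add_of_nonneg_right (Finset.sum_nonneg (fun q _ => by positivity))

theorem sg_pow (y m k : ℕ) (hk : 0 < k) : sg y (m ^ k) = sg y m := by
  unfold sg
  rw [Nat.primeFactors_pow m hk.ne']

theorem sg_le_of_dvd (y m n : ℕ) (hn : 0 < n) (h : m ∣ n) : sg y m ≤ sg y n := by
  unfold sg
  apply Finset.sum_le_sum_of_subset_of_nonneg
  · exact Finset.filter_subset_filter _ (Nat.primeFactors_mono h hn.ne')
  · intro q _ _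
    positivity

theorem sg_prod_le {ι : Type*} (y : ℕ) (s : Finset ι) (g : ι → ℕ) (hg : ∀ i ∈ s, 0 < g i) :
    sg y (∏ i ∈ s, g i) ≤ ∑ i ∈ s, sg y (g i) := by
  classical
  induction s using Finset.induction_on with
  | empty => simp [sg_one]
  | insert a s ha ih =>
    rw [Finset.prod_insert ha, Finset.sum_insert ha]
    have h1 := sg_mul_le y (g a) (∏ i ∈ s, g i) (hg a (Finset.mem_insert_self a s))
      (Finset.prod_pos (fun i hi => hg i (Finset.mem_insert_of_mem hi)))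
    have h2 := ih (fun i hi => hg i (Finset.mem_insert_of_mem hi))
    linarith

theorem cadd_one {G : Type*} [AddCommGroup G] {f : ℕ → G} (hf : CAdd f) : f 1 = 0 := by
  have h := hf 1 1 one_pos one_pos
  simpa using h

theorem cadd_pow {G : Type*} [AddCommGroup G] {f : ℕ → G} (hf : CAdd f) (m k : ℕ) (hm : 0 < m) :
    f (m ^ k) = k • f m := by
  induction k with
  | zero => simpa using cadd_one hf
  | succ k ih =>
    rw [pow_succ, hf (m ^ k) m (pow_pos hm k) hm, ih, succ_nsmul]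

theorem cadd_prod {G : Type*} [AddCommGroup G] {f : ℕ → G} (hf : CAdd f) {ι : Type*}
    (s : Finset ι) (g : ι → ℕ) (hg : ∀ i ∈ s, 0 < g i) :
    f (∏ i ∈ s, g i) = ∑ i ∈ s, f (g i) := by
  classical
  induction s using Finset.induction_on with
  | empty => simpa using cadd_one hf
  | insert a s ha ih =>
    rw [Finset.prod_insert ha, Finset.sum_insert ha]
    rw [hf (g a) (∏ i ∈ s, g i) (hg a (Finset.mem_insert_self a s))
      (Finset.prod_pos (fun i hi => hg i (Finset.mem_insert_of_mem hi)))]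
    rw [ih (fun i hi => hg i (Finset.mem_insert_of_mem hi))]

end Pool.Agent.Lib.MP_fed790_nt.QP
end

section

/-!
# QP B0: trigonometric polynomials on roots of unity

* `norm_rt`: `rt N k = exp(i θ)` with real `θ` (`Complex.norm_exp_ofReal_mul_I`), and `rt_ne_zero`.
* `avC_zpow`: `avC N (z ↦ z^m) = 1` if `N ∣ m`, else `0`: `rt N k ^ m = ζ^k` with
  `ζ = exp(2π i m/N)`; if `N ∣ m`, `ζ = 1`; else `ζ ≠ 1`, `ζ^N = 1` and the geometric sum vanishes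
  (`Complex.exp_eq_one_iff`, `geom_sum_eq` / `mul_neg_geom_sum`).
* `av_nonneg`, `av_mono`, `av_add`, `av_const_mul`, `av_sum`, `ofReal_av`: trivial from the
  definition.
* `av_cs` (Cauchy-Schwarz): `Finset.sum_mul_sq_le_sq_mul_sq` (or `inner_mul_le_norm_mul_norm`).
* `gp`: expand `‖∑ c_i z^(m_i)‖² = ∑_{i,i'} c_i conj(c_{i'}) z^(m_i - m_{i'})` for `|z| = 1`
  (`conj z = z⁻¹`), average with `avC_zpow`: `N ∣ m_i - m_{i'}` iff `m_i = m_{i'}` since both lie in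
  `[lo, lo + N)`; then group by the common value `g`.
-/

open Finset

namespace Pool.Agent.Lib.MP_fed790_nt.QP

theorem norm_rt (N k : ℕ) : ‖rt N k‖ = 1 := by
  unfold rt
  have h : (2 * Real.pi * Complex.I * k / N : ℂ) = ((2 * Real.pi * k / N : ℝ) : ℂ) * Complex.I := by
    push_cast; ring
  rw [h, Complex.norm_exp_ofReal_mul_I]

theorem rt_ne_zero (N k : ℕ) : rt N k ≠ 0 := Complex.exp_ne_zero _

theorem avC_zpow (N : ℕ) (hN : 0 < N) (m : ℤ) :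
    avC N (fun z => z ^ m) = if (N : ℤ) ∣ m then 1 else 0 := by
  have hN' : (N : ℂ) ≠ 0 := by exact_mod_cast hN.ne'
  set ζ : ℂ := Complex.exp (2 * Real.pi * Complex.I * (m / N)) with hζ
  have hk : ∀ k : ℕ, rt N k ^ m = ζ ^ k := by
    intro k
    unfold rt
    rw [hζ, ← Complex.exp_int_mul, ← Complex.exp_nat_mul]
    congr 1
    field_simp
  unfold avC
  simp only [hk]
  split_ifs with hd
  · obtain ⟨c, rfl⟩ := hd
    have : ζ = 1 := by
      rw [hζ, Complex.exp_eq_one_iff]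
      refine ⟨c, ?_⟩
      push_cast
      field_simp
    rw [this]
    simp [hN']
  · have hne : ζ ≠ 1 := by
      intro h1
      rw [hζ, Complex.exp_eq_one_iff] at h1
      obtain ⟨c, hc⟩ := h1
      apply hd
      refine ⟨c, ?_⟩
      have h2 : (2 * Real.pi * Complex.I : ℂ) ≠ 0 := by
        simp [Real.pi_ne_zero]
      have h3 : (m : ℂ) / N = c := by
        apply mul_left_cancel₀ h2
        rw [hc]; ring
      rw [div_eq_iff hN'] at h3
      have h4 : (m : ℂ) = ((N * c : ℤ) : ℂ) := by rw [h3]; push_cast; ring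
      exact_mod_cast h4
    have hpow : ζ ^ N = 1 := by
      rw [hζ, ← Complex.exp_nat_mul, Complex.exp_eq_one_iff]
      refine ⟨m, ?_⟩
      field_simp
    rw [geom_sum_eq hne, hpow]
    simp

theorem av_nonneg (N : ℕ) (φ : ℂ → ℝ) (h : ∀ k, 0 ≤ φ (rt N k)) : 0 ≤ av N φ := by
  unfold av
  exact div_nonneg (sum_nonneg fun k _ => h k) (Nat.cast_nonneg _)

theorem av_mono (N : ℕ) (φ φ' : ℂ → ℝ) (h : ∀ k, φ (rt N k) ≤ φ' (rt N k)) :
    av N φ ≤ av N φ' := by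
  unfold av
  exact div_le_div_of_nonneg_right (sum_le_sum fun k _ => h k) (Nat.cast_nonneg _)

theorem av_add (N : ℕ) (φ φ' : ℂ → ℝ) : av N (fun z => φ z + φ' z) = av N φ + av N φ' := by
  unfold av
  rw [sum_add_distrib, add_div]

theorem av_const_mul (N : ℕ) (c : ℝ) (φ : ℂ → ℝ) : av N (fun z => c * φ z) = c * av N φ := by
  unfold av
  rw [← mul_sum, mul_div_assoc]

theorem av_sum {σ : Type*} (N : ℕ) (s : Finset σ) (φ : σ → ℂ → ℝ) :
    av N (fun z => ∑ i ∈ s, φ i z) = ∑ i ∈ s, av N (φ i) := by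
  unfold av
  rw [sum_comm, sum_div]

theorem ofReal_av (N : ℕ) (φ : ℂ → ℝ) : ((av N φ : ℝ) : ℂ) = avC N (fun z => (φ z : ℂ)) := by
  unfold av avC
  push_cast
  rfl

/-- `|av(F conj G)| ≤ ...` in the form needed: weights `u ≥ 0`. -/
theorem av_cs (N : ℕ) (u φ : ℂ → ℝ) (hu : ∀ k, 0 ≤ u (rt N k)) :
    (av N (fun z => u z * φ z)) ^ 2 ≤ av N u * av N (fun z => u z * φ z ^ 2) := by
  unfold av
  have h := Finset.sum_mul_sq_le_sq_mul_sq (range N) (fun k => Real.sqrt (u (rt N k)))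
    (fun k => Real.sqrt (u (rt N k)) * φ (rt N k))
  have h1 : ∀ k, Real.sqrt (u (rt N k)) * (Real.sqrt (u (rt N k)) * φ (rt N k)) =
      u (rt N k) * φ (rt N k) := fun k => by
    rw [← mul_assoc, Real.mul_self_sqrt (hu k)]
  have h2 : ∀ k, Real.sqrt (u (rt N k)) ^ 2 = u (rt N k) := fun k => Real.sq_sqrt (hu k)
  have h3 : ∀ k, (Real.sqrt (u (rt N k)) * φ (rt N k)) ^ 2 = u (rt N k) * φ (rt N k) ^ 2 :=
    fun k => by rw [mul_pow, h2]
  simp only [h1, h2, h3] at h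
  rw [div_pow, div_mul_div_comm, ← sq]
  exact div_le_div_of_nonneg_right h (by positivity)

theorem gp {σ : Type*} (s : Finset σ) (c : σ → ℂ) (m : σ → ℤ) (B : Finset ℤ) (N : ℕ)
    (hN : 0 < N) (lo : ℤ) (hB : ∀ g ∈ B, lo ≤ g ∧ g < lo + N) (hm : ∀ i ∈ s, m i ∈ B) :
    av N (fun z => ‖∑ i ∈ s, c i * z ^ (m i)‖ ^ 2) =
      ∑ g ∈ B, ‖∑ i ∈ s.filter (fun i => m i = g), c i‖ ^ 2 := by
  have key : ∀ k, ((‖∑ i ∈ s, c i * (rt N k) ^ (m i)‖ ^ 2 : ℝ) : ℂ) =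
      ∑ i ∈ s, ∑ i' ∈ s, c i * starRingEnd ℂ (c i') * (rt N k) ^ (m i - m i') := by
    intro k
    rw [Complex.ofReal_pow, ← Complex.mul_conj', map_sum, sum_mul_sum]
    refine sum_congr rfl fun i _ => sum_congr rfl fun i' _ => ?_
    have hconj : starRingEnd ℂ (rt N k) = (rt N k)⁻¹ := by
      rw [Complex.inv_def, Complex.normSq_eq_norm_sq, norm_rt]
      simp
    rw [map_mul, map_zpow₀, hconj, zpow_sub₀ (rt_ne_zero N k), inv_zpow]
    field_simp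
  apply Complex.ofReal_injective
  rw [ofReal_av]
  have e1 : avC N (fun z => ((‖∑ i ∈ s, c i * z ^ (m i)‖ ^ 2 : ℝ) : ℂ)) =
      ∑ i ∈ s, ∑ i' ∈ s, c i * starRingEnd ℂ (c i') * avC N (fun z => z ^ (m i - m i')) := by
    unfold avC
    simp only [key]
    rw [sum_comm, sum_div]
    refine sum_congr rfl fun i _ => ?_
    rw [sum_comm, sum_div]
    refine sum_congr rfl fun i' _ => ?_
    rw [← mul_sum, mul_div_assoc]
  rw [e1]
  have e2 : ∀ i ∈ s, ∀ i' ∈ s, avC N (fun z => z ^ (m i - m i')) = if m i = m i' then 1 else 0 := by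
    intro i hi i' hi'
    rw [avC_zpow N hN]
    obtain ⟨a1, a2⟩ := hB _ (hm i hi)
    obtain ⟨b1, b2⟩ := hB _ (hm i' hi')
    congr 1
    apply propext
    constructor
    · intro hd
      have := Int.eq_zero_of_abs_lt_dvd hd (by rw [abs_lt]; constructor <;> linarith)
      linarith
    · intro h; rw [h, sub_self]; exact dvd_zero _
  push_cast
  have e3 : ∀ g ∈ B, ((‖∑ i ∈ s.filter (fun i => m i = g), c i‖ : ℂ) ^ 2) =
      ∑ i ∈ s, ∑ i' ∈ s, if m i = g ∧ m i' = g then c i * starRingEnd ℂ (c i') else 0 := by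
    intro g _
    rw [← Complex.mul_conj', map_sum, sum_mul_sum, sum_filter]
    refine sum_congr rfl fun i _ => ?_
    by_cases h : m i = g
    · rw [if_pos h, sum_filter]
      refine sum_congr rfl fun i' _ => ?_
      simp [h]
    · rw [if_neg h]
      symm
      apply sum_eq_zero
      intro i' _
      simp [h]
  refine Eq.trans ?_ (Finset.sum_congr rfl e3).symm
  rw [sum_comm (s := B)]
  refine sum_congr rfl fun i hi => ?_
  rw [sum_comm (s := B)]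
  refine sum_congr rfl fun i' hi' => ?_
  rw [e2 i hi i' hi']
  by_cases h : m i = m i'
  · rw [if_pos h, mul_one]
    symm
    rw [sum_eq_single (m i)]
    · rw [if_pos ⟨rfl, h.symm⟩]
    · intro g _ hg
      rw [if_neg]
      rintro ⟨h1, -⟩
      exact hg h1.symm
    · intro h'; exact absurd (hm i hi) h'
  · rw [if_neg h, mul_zero]
    symm
    apply sum_eq_zero
    intro g _
    rw [if_neg]
    rintro ⟨h1, h2⟩
    exact h (h1.trans h2.symm)

end Pool.Agent.Lib.MP_fed790_nt.QP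
end

section

/-!
# QP B3: counting in residue classes

**`card_class`.** Mathlib: `Int.Ico_filter_modEq_card` (or `Int.Ico_filter_dvd_card`) gives the
count as `max (⌈(hi - a)/m⌉ - ⌈(lo - a)/m⌉) 0`. `⌈x⌉ - ⌈y⌉` differs from `x - y` by less than `1`.

**`card_class_real`.** The elements are `n = a + m i`, `(lo - a)/m ≤ i < (hi - a)/m`, so there are
`⌈(hi - a)/m⌉ - ⌈(lo - a)/m⌉` of them.
-/

open Finset

namespace Pool.Agent.Lib.MP_fed790_nt.QP

private lemma card_class_aux (m : ℕ) (hm : 0 < m) (a : ℤ) (lo hi : ℝ) (h : lo ≤ hi)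
    (s : Finset ℤ)
    (hs : ∀ n : ℤ, n ∈ s ↔ lo ≤ n ∧ (n : ℝ) < hi ∧ (m : ℤ) ∣ n - a) :
    |(s.card : ℝ) - (hi - lo) / m| ≤ 1 := by
  have hm' : (0 : ℝ) < m := by exact_mod_cast hm
  set p : ℤ := ⌈(lo - a) / (m : ℝ)⌉ with hp
  set q : ℤ := ⌈(hi - a) / (m : ℝ)⌉ with hq
  have hpq : p ≤ q := by
    apply Int.ceil_le_ceil
    gcongr
  have hseq : s = (Ico p q).image (fun i : ℤ => a + m * i) := by
    ext n
    rw [hs, mem_image]
    constructor
    · rintro ⟨h1, h2, i, hi'⟩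
      have hn : n = a + m * i := by linarith
      refine ⟨i, ?_, hn.symm⟩
      have hnR : (n : ℝ) = a + m * i := by exact_mod_cast hn
      rw [mem_Ico]
      constructor
      · rw [hp, Int.ceil_le, div_le_iff₀ hm']
        linarith [mul_comm (m : ℝ) (i : ℝ)]
      · rw [hq, Int.lt_ceil, lt_div_iff₀ hm']
        linarith [mul_comm (m : ℝ) (i : ℝ)]
    · rintro ⟨i, hi', rfl⟩
      rw [mem_Ico] at hi'
      obtain ⟨h1, h2⟩ := hi'
      rw [hp, Int.ceil_le, div_le_iff₀ hm'] at h1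
      rw [hq, Int.lt_ceil, lt_div_iff₀ hm'] at h2
      refine ⟨?_, ?_, ⟨i, by ring⟩⟩
      · push_cast
        linarith [mul_comm (m : ℝ) (i : ℝ)]
      · push_cast
        linarith [mul_comm (m : ℝ) (i : ℝ)]
  have hcard : (s.card : ℝ) = (q : ℝ) - p := by
    rw [hseq, card_image_of_injective, Int.card_Ico]
    · have : ((q - p).toNat : ℤ) = q - p := Int.toNat_of_nonneg (by linarith)
      have h2 : (((q - p).toNat : ℤ) : ℝ) = ((q - p : ℤ) : ℝ) := by rw [this]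
      push_cast at h2
      exact_mod_cast h2
    · intro i j hij
      have hmz : (m : ℤ) ≠ 0 := by exact_mod_cast hm.ne'
      have : (m : ℤ) * i = m * j := by simpa using hij
      exact mul_left_cancel₀ hmz this
  have e1 : (hi - lo) / (m : ℝ) = (hi - a) / m - (lo - a) / m := by
    rw [← sub_div]; congr 1; ring
  rw [hcard, e1]
  have a1 := Int.le_ceil ((lo - a) / (m : ℝ))
  have a2 := Int.ceil_lt_add_one ((lo - a) / (m : ℝ))
  have b1 := Int.le_ceil ((hi - a) / (m : ℝ))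
  have b2 := Int.ceil_lt_add_one ((hi - a) / (m : ℝ))
  rw [← hp] at a1 a2
  rw [← hq] at b1 b2
  rw [abs_le]
  constructor <;> linarith

theorem card_class (m : ℕ) (hm : 0 < m) (a lo hi : ℤ) (h : lo ≤ hi) :
    |(((Ico lo hi).filter (fun n => (m : ℤ) ∣ n - a)).card : ℝ) - (hi - lo) / m| ≤ 1 := by
  apply card_class_aux m hm a (lo : ℝ) (hi : ℝ) (by exact_mod_cast h)
  intro n
  rw [mem_filter, mem_Ico]
  constructor
  · rintro ⟨⟨h1, h2⟩, h3⟩
    exact ⟨by exact_mod_cast h1, by exact_mod_cast h2, h3⟩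
  · rintro ⟨h1, h2, h3⟩
    exact ⟨⟨by exact_mod_cast h1, by exact_mod_cast h2⟩, h3⟩

/-- The same for a real interval. -/
theorem card_class_real (m : ℕ) (hm : 0 < m) (a : ℤ) (lo hi : ℝ) (h : lo ≤ hi) (s : Finset ℤ)
    (hs : ∀ n : ℤ, n ∈ s ↔ lo ≤ n ∧ (n : ℝ) < hi ∧ (m : ℤ) ∣ n - a) :
    |(s.card : ℝ) - (hi - lo) / m| ≤ 1 :=
  card_class_aux m hm a lo hi h s hs

end Pool.Agent.Lib.MP_fed790_nt.QP
end

section

/-!
# QP C3: the parametrisation of an edge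

Let `E = 1 - W^(j-i)`, `e(y) = E + W^(j+1) y`, `κ = kk W i j T = (T-1) E / W^(j+1)`; since
`T ≡ 1 mod W^(j+1)` the division is exact: `W^(j+1) κ = (T - 1) E` (`kk_mul`).

**`dvd_iff`.** `e(y) = E + W^(j+1) y = T E + W^(j+1) (y - κ)`. `T` is coprime to `W` (it is
`≡ 1 mod W^(j+1)`), so `T ∣ e(y) ↔ T ∣ y - κ`.

**`ee_eq`.** If `y = κ + T n`, then `e(y) = T (E + W^(j+1) n)`.

**`edge_param`.** Let `y₀` be the first integer `≥ A0` with `T ∣ y₀ - κ` (`y₀ < A0 + T`). As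
`T ∣ X`, the `y ∈ [A0, A0 + X)` with `T ∣ y - κ` are exactly `y₀ + T ν`, `0 ≤ ν < X/T`. Let
`n₀ = (y₀ - κ)/T` and `A = E + W^(j+1) n₀`; `T A = e(y₀) ≥ 1 - W^(j-i) + W^(j+1) > 0` as `y₀ ≥ 1`,
so `A > 0` (take `A.toNat`). `A ≡ E ≡ 1 mod W` (`j > i`), so `A` is coprime to `W`, hence to
`W^(j+1)`. `e(y₀ + T ν) = T (A + W^(j+1) ν) > 0`. Finally
`T (A + W^(j+1) (X/T)) = e(y₀) + W^(j+1) X ≤ W^(j+1) (A0 + T + X)`.
-/

open Finset

namespace Pool.Agent.Lib.MP_fed790_nt.QP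

private theorem c3_dvd (W j T : ℕ) (hT : T ≡ 1 [MOD W ^ (j + 1)]) :
    (W : ℤ) ^ (j + 1) ∣ (T : ℤ) - 1 := by
  have h := (Nat.modEq_iff_dvd.mp hT.symm)
  push_cast at h
  exact h

theorem kk_mul (W i j T : ℕ) (hT : T ≡ 1 [MOD W ^ (j + 1)]) (hW : 0 < W) :
    (W : ℤ) ^ (j + 1) * kk W i j T = ((T : ℤ) - 1) * (1 - (W : ℤ) ^ (j - i)) := by
  unfold kk
  exact Int.mul_ediv_cancel' (Dvd.dvd.mul_right (c3_dvd W j T hT) _)

theorem kk_abs_le (W i j T : ℕ) (hW : 1 ≤ W) (hT1 : 1 ≤ T) (hT : T ≡ 1 [MOD W ^ (j + 1)]) :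
    |kk W i j T| ≤ T := by
  have h := kk_mul W i j T hT hW
  have hWZ : (1 : ℤ) ≤ W := by exact_mod_cast hW
  have hp : (0 : ℤ) < (W : ℤ) ^ (j + 1) := by positivity
  have h1 : (1 : ℤ) ≤ (W : ℤ) ^ (j - i) := one_le_pow₀ hWZ
  have h2 : (W : ℤ) ^ (j - i) ≤ (W : ℤ) ^ (j + 1) := pow_le_pow_right₀ hWZ (by omega)
  have hTZ : (1 : ℤ) ≤ T := by exact_mod_cast hT1
  have h3 : (W : ℤ) ^ (j + 1) * |kk W i j T| ≤ (W : ℤ) ^ (j + 1) * T := by
    have h4 : (W : ℤ) ^ (j + 1) * |kk W i j T| = |(W : ℤ) ^ (j + 1) * kk W i j T| := by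
      rw [abs_mul, abs_of_pos hp]
    rw [h4, h, abs_mul, abs_of_nonneg (by linarith : (0 : ℤ) ≤ (T : ℤ) - 1),
      abs_of_nonpos (by linarith : (1 : ℤ) - (W : ℤ) ^ (j - i) ≤ 0)]
    nlinarith
  exact le_of_mul_le_mul_left h3 hp

theorem kk_sub_abs_le (W i j T T' : ℕ) (hW : 1 ≤ W) (hT : T ≡ 1 [MOD W ^ (j + 1)])
    (hT' : T' ≡ 1 [MOD W ^ (j + 1)]) : |kk W i j T - kk W i j T'| ≤ |(T : ℤ) - T'| := by
  have h := kk_mul W i j T hT hW
  have h' := kk_mul W i j T' hT' hW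
  have hWZ : (1 : ℤ) ≤ W := by exact_mod_cast hW
  have hp : (0 : ℤ) < (W : ℤ) ^ (j + 1) := by positivity
  have h1 : (1 : ℤ) ≤ (W : ℤ) ^ (j - i) := one_le_pow₀ hWZ
  have h2 : (W : ℤ) ^ (j - i) ≤ (W : ℤ) ^ (j + 1) := pow_le_pow_right₀ hWZ (by omega)
  have h3 : (W : ℤ) ^ (j + 1) * |kk W i j T - kk W i j T'| ≤
      (W : ℤ) ^ (j + 1) * |(T : ℤ) - T'| := by
    have h4 : (W : ℤ) ^ (j + 1) * |kk W i j T - kk W i j T'| =
        |((T : ℤ) - T') * (1 - (W : ℤ) ^ (j - i))| := by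
      have h5 : (W : ℤ) ^ (j + 1) * (kk W i j T - kk W i j T') =
          ((T : ℤ) - T') * (1 - (W : ℤ) ^ (j - i)) := by
        rw [mul_sub, h, h']; ring
      rw [← h5, abs_mul, abs_of_pos hp]
    rw [h4, abs_mul, abs_of_nonpos (by linarith : (1 : ℤ) - (W : ℤ) ^ (j - i) ≤ 0)]
    have := abs_nonneg ((T : ℤ) - T')
    nlinarith
  exact le_of_mul_le_mul_left h3 hp

theorem kk_sub_dvd (W i j S T T' : ℕ) (hW : 1 ≤ W) (hj : j + 1 ≤ S)
    (hT : T ≡ 1 [MOD W ^ (j + 1)]) (h : (W : ℤ) ^ (2 * S + 3) ∣ (T : ℤ) - T') :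
    (W : ℤ) ^ (S + 1) ∣ kk W i j T - kk W i j T' := by
  have hWZ : (1 : ℤ) ≤ W := by exact_mod_cast hW
  have hp : (0 : ℤ) < (W : ℤ) ^ (j + 1) := by positivity
  have hT' : T' ≡ 1 [MOD W ^ (j + 1)] := by
    have h1 : ((W ^ (j + 1) : ℕ) : ℤ) ∣ (T : ℤ) - T' := by
      push_cast
      exact dvd_trans (pow_dvd_pow _ (by omega)) h
    have h2 : T' ≡ T [MOD W ^ (j + 1)] := Nat.modEq_iff_dvd.mpr h1
    exact h2.trans hT
  have e := kk_mul W i j T hT hW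
  have e' := kk_mul W i j T' hT' hW
  have h5 : (W : ℤ) ^ (j + 1) * (kk W i j T - kk W i j T') =
      ((T : ℤ) - T') * (1 - (W : ℤ) ^ (j - i)) := by
    rw [mul_sub, e, e']; ring
  have h6 : (W : ℤ) ^ (j + 1) * (W : ℤ) ^ (S + 1) ∣
      (W : ℤ) ^ (j + 1) * (kk W i j T - kk W i j T') := by
    rw [h5, ← pow_add]
    exact dvd_trans (pow_dvd_pow _ (by omega)) (Dvd.dvd.mul_right h _)
  exact (mul_dvd_mul_iff_left hp.ne').mp h6

private theorem c3_eq (W i j T : ℕ) (hW : 1 ≤ W) (hT : T ≡ 1 [MOD W ^ (j + 1)]) (y : ℤ) :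
    1 - (W : ℤ) ^ (j - i) + (W : ℤ) ^ (j + 1) * y =
      T * (1 - (W : ℤ) ^ (j - i)) + (W : ℤ) ^ (j + 1) * (y - kk W i j T) := by
  have e := kk_mul W i j T hT hW
  rw [mul_sub ((W : ℤ) ^ (j + 1)), e]; ring

private theorem c3_coprime (W j T : ℕ) (hT : T ≡ 1 [MOD W ^ (j + 1)]) :
    IsCoprime (T : ℤ) ((W : ℤ) ^ (j + 1)) := by
  obtain ⟨s, hs⟩ := c3_dvd W j T hT
  exact ⟨1, -s, by linarith⟩

theorem dvd_iff (W i j T : ℕ) (hW : 1 ≤ W) (hT : T ≡ 1 [MOD W ^ (j + 1)]) (y : ℤ) :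
    (T : ℤ) ∣ 1 - (W : ℤ) ^ (j - i) + (W : ℤ) ^ (j + 1) * y ↔ (T : ℤ) ∣ y - kk W i j T := by
  rw [c3_eq W i j T hW hT y]
  constructor
  · intro h
    have h1 : (T : ℤ) ∣ (W : ℤ) ^ (j + 1) * (y - kk W i j T) :=
      (dvd_add_right (Dvd.intro _ rfl)).mp h
    exact (c3_coprime W j T hT).dvd_of_dvd_mul_left h1
  · intro h
    exact dvd_add (Dvd.intro _ rfl) (Dvd.dvd.mul_left h _)

theorem ee_eq (W i j T : ℕ) (hW : 1 ≤ W) (hT : T ≡ 1 [MOD W ^ (j + 1)]) (n : ℤ) :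
    1 - (W : ℤ) ^ (j - i) + (W : ℤ) ^ (j + 1) * (kk W i j T + T * n) =
      T * (1 - (W : ℤ) ^ (j - i) + (W : ℤ) ^ (j + 1) * n) := by
  rw [c3_eq W i j T hW hT]; ring

theorem edge_param (W i j T X : ℕ) (A0 : ℤ) (hW : 2 ≤ W) (hij : i < j) (hT0 : 0 < T)
    (hT : T ≡ 1 [MOD W ^ (j + 1)]) (hTX : T ∣ X) (hA0 : 1 ≤ A0) :
    ∃ A : ℕ, 0 < A ∧ A ≡ 1 [MOD W] ∧ A.Coprime (W ^ (j + 1)) ∧
      ((T * (A + W ^ (j + 1) * (X / T)) : ℕ) : ℤ) ≤ (W : ℤ) ^ (j + 1) * (A0 + T + X) ∧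
      ∀ Φ : ℕ → ℝ, ∑ y ∈ Ico A0 (A0 + X), (if (T : ℤ) ∣ y - kk W i j T then
          T * Φ (1 - (W : ℤ) ^ (j - i) + (W : ℤ) ^ (j + 1) * y).natAbs else 0) =
        T * ∑ ν ∈ range (X / T), Φ (T * (A + W ^ (j + 1) * ν)) := by
  have hW1 : 1 ≤ W := by omega
  have hWZ : (1 : ℤ) ≤ W := by exact_mod_cast hW1
  have hTZ : (0 : ℤ) < T := by exact_mod_cast hT0
  have hp : (0 : ℤ) < (W : ℤ) ^ (j + 1) := by positivity
  have h1 : (1 : ℤ) ≤ (W : ℤ) ^ (j - i) := one_le_pow₀ hWZ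
  have h2 : (W : ℤ) ^ (j - i) ≤ (W : ℤ) ^ (j + 1) := pow_le_pow_right₀ hWZ (by omega)
  set κ : ℤ := kk W i j T with hκ
  set y₀ : ℤ := A0 + (κ - A0) % T with hy₀
  have hmod0 : 0 ≤ (κ - A0) % (T : ℤ) := Int.emod_nonneg _ hTZ.ne'
  have hmod1 : (κ - A0) % (T : ℤ) < T := Int.emod_lt_of_pos _ hTZ
  have hy₀d : (T : ℤ) ∣ y₀ - κ := by
    have h3 := Int.emod_add_mul_ediv (κ - A0) T
    refine ⟨-((κ - A0) / T), ?_⟩
    rw [hy₀]; linarith
  obtain ⟨n₀, hn₀⟩ := hy₀d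
  have hy₀n : y₀ = κ + T * n₀ := by linarith
  set A : ℤ := 1 - (W : ℤ) ^ (j - i) + (W : ℤ) ^ (j + 1) * n₀ with hA
  have hee : ∀ ν : ℤ, 1 - (W : ℤ) ^ (j - i) + (W : ℤ) ^ (j + 1) * (y₀ + T * ν) =
      T * (A + (W : ℤ) ^ (j + 1) * ν) := by
    intro ν
    have h4 : y₀ + T * ν = κ + T * (n₀ + ν) := by rw [hy₀n]; ring
    rw [h4, hκ, ee_eq W i j T hW1 hT, hA]; ring
  have hTA : (T : ℤ) * A = 1 - (W : ℤ) ^ (j - i) + (W : ℤ) ^ (j + 1) * y₀ := by
    have := hee 0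
    simp only [mul_zero, add_zero] at this
    exact this.symm
  have hy₀1 : 1 ≤ y₀ := by rw [hy₀]; linarith
  have hApos : 0 < A := by
    have h5 : 0 < (T : ℤ) * A := by
      rw [hTA]
      nlinarith
    exact (mul_pos_iff_of_pos_left hTZ).mp h5
  have hAnat : ((A.toNat : ℕ) : ℤ) = A := Int.toNat_of_nonneg hApos.le
  have hAmod : A.toNat ≡ 1 [MOD W] := by
    apply Nat.ModEq.symm
    rw [Nat.modEq_iff_dvd, hAnat, hA]
    have h6 : (W : ℤ) ∣ (W : ℤ) ^ (j - i) := dvd_pow_self _ (by omega)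
    have h7 : (W : ℤ) ∣ (W : ℤ) ^ (j + 1) * n₀ := Dvd.dvd.mul_right (dvd_pow_self _ (by omega)) _
    have h8 : (1 : ℤ) - (W : ℤ) ^ (j - i) + (W : ℤ) ^ (j + 1) * n₀ - ((1 : ℕ) : ℤ) =
      (W : ℤ) ^ (j + 1) * n₀ - (W : ℤ) ^ (j - i) := by push_cast; ring
    rw [h8]
    exact dvd_sub h7 h6
  have hAcop : A.toNat.Coprime (W ^ (j + 1)) := by
    apply Nat.Coprime.pow_right
    have h9 := hAmod.gcd_eq
    rw [Nat.gcd_one_left] at h9
    exact h9
  refine ⟨A.toNat, by omega, hAmod, hAcop, ?_, ?_⟩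
  · obtain ⟨m, hm⟩ := hTX
    have hXT : X / T = m := by rw [hm]; exact Nat.mul_div_cancel_left m hT0
    rw [hXT]
    push_cast
    rw [hAnat]
    have h10 : (T : ℤ) * (A + (W : ℤ) ^ (j + 1) * m) =
        1 - (W : ℤ) ^ (j - i) + (W : ℤ) ^ (j + 1) * (y₀ + X) := by
      rw [← hee m, hm]; push_cast; ring
    rw [h10]
    have h11 : (W : ℤ) ^ (j + 1) * (y₀ + X) ≤ (W : ℤ) ^ (j + 1) * (A0 + T + X) := by
      apply mul_le_mul_of_nonneg_left _ hp.le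
      rw [hy₀]; linarith
    linarith
  · intro Φ
    obtain ⟨m, hm⟩ := hTX
    have hXT : X / T = m := by rw [hm]; exact Nat.mul_div_cancel_left m hT0
    have hXZ : (X : ℤ) = T * m := by rw [hm]; push_cast; ring
    rw [hXT, ← Finset.sum_filter, Finset.mul_sum]
    symm
    apply Finset.sum_bij (fun (ν : ℕ) _ => y₀ + (T : ℤ) * ν)
    · intro ν hν
      have hν' : (ν : ℤ) + 1 ≤ m := by
        have := Finset.mem_range.mp hν
        exact_mod_cast this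
      have h12 : (T : ℤ) * (ν + 1) ≤ T * m := mul_le_mul_of_nonneg_left hν' hTZ.le
      have h13 : 0 ≤ (T : ℤ) * ν := by positivity
      simp only [Finset.mem_filter, Finset.mem_Ico]
      refine ⟨⟨by rw [hy₀]; linarith, ?_⟩, ?_⟩
      · rw [hXZ, hy₀]; linarith
      · exact ⟨n₀ + ν, by rw [hy₀n]; ring⟩
    · intro ν _ ν' _ heq
      have h14 : (T : ℤ) * ν = T * ν' := by linarith
      have h15 : (ν : ℤ) = ν' := mul_left_cancel₀ hTZ.ne' h14
      exact_mod_cast h15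
    · intro y hy
      simp only [Finset.mem_filter, Finset.mem_Ico] at hy
      obtain ⟨⟨hy1, hy2⟩, n, hn⟩ := hy
      have h16 : y = y₀ + T * (n - n₀) := by rw [hy₀n]; linarith
      have h17 : 0 ≤ n - n₀ := by
        by_contra hcon
        push Not at hcon
        have h18 : n - n₀ ≤ -1 := by omega
        have h19 : (T : ℤ) * (n - n₀) ≤ T * (-1) := mul_le_mul_of_nonneg_left h18 hTZ.le
        rw [hy₀] at h16; linarith
      have h20 : n - n₀ < m := by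
        by_contra hcon
        push Not at hcon
        have h21 : (T : ℤ) * m ≤ T * (n - n₀) := mul_le_mul_of_nonneg_left hcon hTZ.le
        rw [hy₀] at h16; rw [hXZ] at hy2; linarith
      refine ⟨(n - n₀).toNat, ?_, ?_⟩
      · rw [Finset.mem_range]; omega
      · simp only [Int.toNat_of_nonneg h17]; exact h16.symm
    · intro ν hν
      rw [hee ν]
      have h22 : (T : ℤ) * (A + (W : ℤ) ^ (j + 1) * ν) =
          ((T * (A.toNat + W ^ (j + 1) * ν) : ℕ) : ℤ) := by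
        push_cast; rw [hAnat]
      rw [h22, Int.natAbs_natCast]

end Pool.Agent.Lib.MP_fed790_nt.QP
end

section

/-!
# QP: the hypotheses of Part III
-/

open Finset

namespace Pool.Agent.Lib.MP_fed790_nt.QP

/-- Left end points of the box. -/
def loB (S t X : ℕ) (u : Ve S t) : ℤ := 3 * (u.1 : ℕ) * X

/-- The shifts. -/
def kB {S t : ℕ} {η : Type*} (W : ℕ) (T : Ve S t × Ve S t → η → ℕ) (p : Ve S t × Ve S t) (h : η) :
    ℤ := kk W p.1.1 p.2.1 (T p h)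

/-- The hypotheses of Part III. `S` levels, `t` vertices per level, moduli `T p h`. -/
structure HypIII {G : Type*} [AddCommGroup G] (f : ℕ → G) (H : AddSubgroup G) [Fintype H]
    (k y W S t L N' T0 X : ℕ) (δ δ0 εT ε10 ρ c1 : ℝ)
    (T : Ve S t × Ve S t → H → ℕ) : Prop where
  hf : CAdd f
  hG : Nat.card G ≤ k
  hy : 1 ≤ y
  hW : 2 ≤ W
  hWy : ∀ ℓ : ℕ, ℓ.Prime → (ℓ ∣ W ↔ ℓ ≤ y)
  hWt : ∀ ℓ : ℕ, ℓ.Prime → ℓ ≤ y → ℓ ^ t ∣ W
  ht : 1 ≤ t
  hrare : RareAP f H W ρ c1 N'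
  hρ : 0 ≤ ρ
  hc1 : 0 ≤ c1
  hεT : 0 ≤ εT
  hpool : IsPool f H (fun p : Ve S t × Ve S t => (p.1.2 : ℕ)) y W S T0 t δ δ0 εT ε10 (Pr S t) T
  hT0 : 1 ≤ T0
  hδ : 0 ≤ δ
  hδ0 : 0 < δ0
  hδ0' : δ0 ≤ 1 / 8
  hX0 : 0 < X
  hX : ∏ p ∈ Pr S t, ∏ h, T p h ∣ X
  hTX : 2 * T0 ≤ X
  hXN : W ^ S * (4 * S * X) ≤ N'
  hXL : W ^ S * (4 * S * X) < 2 ^ L

section facts

variable {G : Type*} [AddCommGroup G] {f : ℕ → G} {H : AddSubgroup G} [Fintype H]
  {k y W S t L N' T0 X : ℕ} {δ δ0 εT ε10 ρ c1 : ℝ} {T : Ve S t × Ve S t → H → ℕ}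

/-- `T0 ≤ T p h` (from `lo`). -/
theorem HypIII.T_ge (h : HypIII f H k y W S t L N' T0 X δ δ0 εT ε10 ρ c1 T)
    {p : Ve S t × Ve S t} (hp : p ∈ Pr S t) (g : H) : T0 ≤ T p g := by
  have h1 := h.hpool.lo p hp g
  have h2 : (0 : ℝ) ≤ (T0 : ℝ) * (δ0 * (((p.1.2 : ℕ) : ℝ) / t)) := by
    have := h.hδ0.le
    positivity
  have h3 : (T0 : ℝ) ≤ T p g := by nlinarith
  exact_mod_cast h3

/-- `T p h ≤ (1 + δ0) T0` (from `hi`, as `(idx + 1/2)/t ≤ 1`). -/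
theorem HypIII.T_le (h : HypIII f H k y W S t L N' T0 X δ δ0 εT ε10 ρ c1 T)
    {p : Ve S t × Ve S t} (hp : p ∈ Pr S t) (g : H) : (T p g : ℝ) ≤ (1 + δ0) * T0 := by
  have h1 := h.hpool.hi p hp g
  have ht : (0 : ℝ) < t := by exact_mod_cast h.ht
  have h2 : ((((p.1.2 : ℕ) : ℝ)) + 1 / 2) / t ≤ 1 := by
    rw [div_le_one ht]
    have h3 : (p.1.2 : ℕ) + 1 ≤ t := p.1.2.2
    have h4 : (((p.1.2 : ℕ) : ℝ)) + 1 ≤ t := by exact_mod_cast h3
    linarith
  have h5 : δ0 * (((((p.1.2 : ℕ) : ℝ)) + 1 / 2) / t) ≤ δ0 := by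
    have := mul_le_mul_of_nonneg_left h2 h.hδ0.le
    linarith
  calc (T p g : ℝ) ≤ T0 * (1 + δ0 * (((((p.1.2 : ℕ) : ℝ)) + 1 / 2) / t)) := h1
    _ ≤ T0 * (1 + δ0) := mul_le_mul_of_nonneg_left (by linarith) (Nat.cast_nonneg _)
    _ = (1 + δ0) * T0 := mul_comm _ _

/-- `T p h ≤ 2 T0`. -/
theorem HypIII.T_le2 (h : HypIII f H k y W S t L N' T0 X δ δ0 εT ε10 ρ c1 T)
    {p : Ve S t × Ve S t} (hp : p ∈ Pr S t) (g : H) : T p g ≤ 2 * T0 := by
  have h1 := h.T_le hp g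
  have h2 := h.hδ0'
  have h3 : (T p g : ℝ) ≤ 2 * T0 := by
    refine h1.trans (mul_le_mul_of_nonneg_right (by linarith) (Nat.cast_nonneg _))
  exact_mod_cast h3

/-- `T p h ≡ 1 mod W^(j+1)` for every level `j` (as `j + 1 ≤ S`). -/
theorem HypIII.T_cong (h : HypIII f H k y W S t L N' T0 X δ δ0 εT ε10 ρ c1 T)
    {p : Ve S t × Ve S t} (hp : p ∈ Pr S t) (g : H) :
    T p g ≡ 1 [MOD W ^ ((p.2.1 : ℕ) + 1)] := by
  have hS : (p.2.1 : ℕ) + 1 ≤ S := p.2.1.2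
  have h1 := (h.hpool.cong p hp g).of_dvd (pow_dvd_pow W (by omega : (p.2.1 : ℕ) + 1 ≤ 2 * S + 3))
  refine h1.trans ?_
  have h2 : W ^ ((p.2.1 : ℕ) + 1) ∣ W ^ S * (p.1.2 : ℕ) := (pow_dvd_pow W hS).mul_right _
  have h3 : 1 + W ^ S * (p.1.2 : ℕ) ≡ 1 + 0 [MOD W ^ ((p.2.1 : ℕ) + 1)] :=
    Nat.ModEq.add_left 1 ((Nat.modEq_zero_iff_dvd).2 h2)
  exact h3

/-- `T p h ∣ X`. -/
theorem HypIII.T_dvd (h : HypIII f H k y W S t L N' T0 X δ δ0 εT ε10 ρ c1 T)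
    {p : Ve S t × Ve S t} (hp : p ∈ Pr S t) (g : H) : T p g ∣ X := by
  refine Dvd.dvd.trans ?_ h.hX
  refine Dvd.dvd.trans (Finset.dvd_prod_of_mem (fun g => T p g) (Finset.mem_univ g)) ?_
  exact Finset.dvd_prod_of_mem (fun p => ∏ g, T p g) hp

/-- `f (T p h) ∈ H`. -/
theorem HypIII.fT_mem (h : HypIII f H k y W S t L N' T0 X δ δ0 εT ε10 ρ c1 T)
    {p : Ve S t × Ve S t} (hp : p ∈ Pr S t) (g : H) : f (T p g) ∈ H := by
  obtain ⟨g0, hg0, h1⟩ := h.hpool.col p hp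
  rw [h1 g]
  exact H.add_mem hg0 g.2

/-- For `x` in the box and `p ∈ Pr`: `2 X < x_v - x_u + X`, more precisely
`2 X < (x_v - x_u) ≤ 3 S X - 2 X` up to the box width: here `X < x_v - x_u < 3 S X`. -/
theorem diff_mem {S t X : ℕ} {p : Ve S t × Ve S t} (hp : p ∈ Pr S t) (a b : ℤ)
    (ha : a ∈ Ico (loB S t X p.1) (loB S t X p.1 + X))
    (hb : b ∈ Ico (loB S t X p.2) (loB S t X p.2 + X)) : X < b - a ∧ b - a < 3 * S * X := by
  rw [Finset.mem_Ico] at ha hb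
  unfold loB at ha hb
  have h1 : (p.1.1 : ℕ) < (p.2.1 : ℕ) := (Finset.mem_filter.1 hp).2
  have h2 : (p.2.1 : ℕ) + 1 ≤ S := p.2.1.2
  have h3 : (((p.1.1 : ℕ) : ℤ)) + 1 ≤ ((p.2.1 : ℕ) : ℤ) := by exact_mod_cast h1
  have h4 : (((p.2.1 : ℕ) : ℤ)) + 1 ≤ (S : ℤ) := by exact_mod_cast h2
  have hX : (0 : ℤ) ≤ X := Int.natCast_nonneg _
  have h5 : (0 : ℤ) ≤ ((p.1.1 : ℕ) : ℤ) := Int.natCast_nonneg _
  constructor <;> nlinarith

/-- The start of the interval of `b - a`, for fixed `a`. -/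
theorem start_mem {S t X : ℕ} (hX : 0 < X) {p : Ve S t × Ve S t} (hp : p ∈ Pr S t) (a : ℤ)
    (ha : a ∈ Ico (loB S t X p.1) (loB S t X p.1 + X)) :
    1 ≤ loB S t X p.2 - a ∧ loB S t X p.2 - a ≤ 3 * S * X - 3 * X := by
  rw [Finset.mem_Ico] at ha
  unfold loB at *
  have h1 : (p.1.1 : ℕ) < (p.2.1 : ℕ) := (Finset.mem_filter.1 hp).2
  have h2 : (p.2.1 : ℕ) + 1 ≤ S := p.2.1.2
  have h3 : (((p.1.1 : ℕ) : ℤ)) + 1 ≤ ((p.2.1 : ℕ) : ℤ) := by exact_mod_cast h1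
  have h4 : (((p.2.1 : ℕ) : ℤ)) + 1 ≤ (S : ℤ) := by exact_mod_cast h2
  have hX' : (1 : ℤ) ≤ X := by exact_mod_cast hX
  have h5 : (0 : ℤ) ≤ ((p.1.1 : ℕ) : ℤ) := Int.natCast_nonneg _
  constructor <;> nlinarith

/-- The edge numbers are positive. -/
theorem ee_pos {S t X W : ℕ} (hX : 0 < X) (hW : 1 ≤ W) {p : Ve S t × Ve S t} (hp : p ∈ Pr S t)
    {x : Ve S t → ℤ} (hx : x ∈ bx (loB S t X) X) : 0 < ee W p x := by
  unfold bx at hx
  rw [Fintype.mem_piFinset] at hx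
  obtain ⟨h1, -⟩ := diff_mem hp _ _ (hx p.1) (hx p.2)
  have hX' : (1 : ℤ) ≤ X := by exact_mod_cast hX
  have hW' : (1 : ℤ) ≤ W := by exact_mod_cast hW
  unfold ee
  have h2 : (W : ℤ) ^ ((p.2.1 : ℕ) - (p.1.1 : ℕ)) ≤ (W : ℤ) ^ ((p.2.1 : ℕ) + 1) :=
    pow_le_pow_right₀ hW' (by omega)
  have h3 : (0 : ℤ) < (W : ℤ) ^ ((p.2.1 : ℕ) + 1) := by positivity
  have h4 : (W : ℤ) ^ ((p.2.1 : ℕ) + 1) * 1 ≤ (W : ℤ) ^ ((p.2.1 : ℕ) + 1) * (x p.2 - x p.1) :=
    mul_le_mul_of_nonneg_left (by linarith) h3.le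
  linarith

/-- `e_p ≡ 1 mod W`. -/
theorem ee_cong {S t W : ℕ} {p : Ve S t × Ve S t} (hp : p ∈ Pr S t) (x : Ve S t → ℤ) :
    (W : ℤ) ∣ ee W p x - 1 := by
  have h1 : (p.1.1 : ℕ) < (p.2.1 : ℕ) := (Finset.mem_filter.1 hp).2
  unfold ee
  have h2 : (W : ℤ) ∣ (W : ℤ) ^ ((p.2.1 : ℕ) - (p.1.1 : ℕ)) := dvd_pow_self _ (by omega)
  have h3 : (W : ℤ) ∣ (W : ℤ) ^ ((p.2.1 : ℕ) + 1) * (x p.2 - x p.1) :=
    (dvd_pow_self _ (by omega)).mul_right _
  have h4 := dvd_sub h3 h2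
  have h5 : 1 - (W : ℤ) ^ ((p.2.1 : ℕ) - (p.1.1 : ℕ)) +
      (W : ℤ) ^ ((p.2.1 : ℕ) + 1) * (x p.2 - x p.1) - 1 =
      (W : ℤ) ^ ((p.2.1 : ℕ) + 1) * (x p.2 - x p.1) - (W : ℤ) ^ ((p.2.1 : ℕ) - (p.1.1 : ℕ)) := by
    ring
  rw [h5]
  exact h4

/-- Upper bound for the edge numbers. -/
theorem ee_le {S t X W : ℕ} (hX : 0 < X) (hW : 1 ≤ W) {p : Ve S t × Ve S t} (hp : p ∈ Pr S t)
    {x : Ve S t → ℤ} (hx : x ∈ bx (loB S t X) X) : ee W p x ≤ W ^ S * (3 * S * X) := by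
  unfold bx at hx
  rw [Fintype.mem_piFinset] at hx
  obtain ⟨h1, h1'⟩ := diff_mem hp _ _ (hx p.1) (hx p.2)
  have hX' : (1 : ℤ) ≤ X := by exact_mod_cast hX
  have hW' : (1 : ℤ) ≤ W := by exact_mod_cast hW
  have hS : (p.2.1 : ℕ) + 1 ≤ S := p.2.1.2
  unfold ee
  have h2 : (1 : ℤ) ≤ (W : ℤ) ^ ((p.2.1 : ℕ) - (p.1.1 : ℕ)) := one_le_pow₀ hW'
  have h3 : (W : ℤ) ^ ((p.2.1 : ℕ) + 1) ≤ (W : ℤ) ^ S := pow_le_pow_right₀ hW' hS
  have h4 : (W : ℤ) ^ ((p.2.1 : ℕ) + 1) * (x p.2 - x p.1) ≤ (W : ℤ) ^ S * (3 * S * X) :=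
    mul_le_mul h3 h1'.le (by linarith) (by positivity)
  linarith

theorem ww_nonneg {V η : Type*} [Fintype η] (T : V × V → η → ℕ) (κ : V × V → η → ℤ) (p : V × V)
    (x : V → ℤ) : 0 ≤ ww T κ p x := by
  unfold ww
  refine div_nonneg (Finset.sum_nonneg fun h _ => ?_) (Nat.cast_nonneg _)
  split_ifs
  · exact Nat.cast_nonneg _
  · exact le_rfl

/-- The end points of an edge are different. -/
theorem pair_ne {p : Ve S t × Ve S t} (hp : p ∈ Pr S t) : p.1 ≠ p.2 := by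
  intro h
  have h1 : (p.1.1 : ℕ) < (p.2.1 : ℕ) := (Finset.mem_filter.1 hp).2
  rw [h] at h1
  exact lt_irrefl _ h1

end facts

end Pool.Agent.Lib.MP_fed790_nt.QP
end

section

/-!
# QP: the numerical parameters

`a = 2 k`; `S = 4 k` levels, `t = a^100` vertices per level, `y = a^700`, `R = ∏_{ℓ ≤ y} ℓ`,
`W = R^(k t)`, scales `N_r = 2^(a^(900 + 420 r))`, `L = a^(900 + 420 (Ω(k)+1)) + 1`.
-/

open Finset

namespace Pool.Agent.Lib.MP_fed790_nt.QP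

def aN (k : ℕ) : ℕ := 2 * k
def tN (k : ℕ) : ℕ := aN k ^ 100
def SN (k : ℕ) : ℕ := 4 * k
def KN (k : ℕ) : ℕ := aN k ^ 12
def rN (k : ℕ) : ℕ := aN k ^ 430
def yN (k : ℕ) : ℕ := aN k ^ 700
def nPN (k : ℕ) : ℕ := aN k ^ 203
noncomputable def RN (k : ℕ) : ℕ := primorial (yN k)
noncomputable def WN (k : ℕ) : ℕ := RN k ^ (k * tN k)
noncomputable def om (k : ℕ) : ℕ := ArithmeticFunction.cardFactors k
def lN (k r : ℕ) : ℕ := aN k ^ (900 + 420 * r)
noncomputable def LN (k : ℕ) : ℕ := lN k (om k + 1) + 1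
def NN (k r : ℕ) : ℕ := 2 ^ lN k r
def bN (k : ℕ) : ℕ := 2 ^ (aN k ^ 810)
def ΛN (k : ℕ) : ℕ := bN k ^ k
noncomputable def Z1N (k : ℕ) : ℕ := aN k ^ 421 * LN k
def Z2N (k : ℕ) : ℕ := ΛN k ^ 2
def T0N (k r : ℕ) : ℕ := NN k r ^ (k ^ 2) * 2 ^ (aN k ^ 813)
noncomputable def εgN (k : ℕ) : ℝ := 1 / (aN k : ℝ) ^ 420
noncomputable def ε8N (k : ℕ) : ℝ := 1 / (aN k : ℝ) ^ 210
noncomputable def ε10N (k : ℕ) : ℝ := 1 / (aN k : ℝ) ^ 412
noncomputable def δN (k : ℕ) : ℝ := 1 / (aN k : ℝ) ^ 900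
noncomputable def ηN (k : ℕ) : ℝ := 1 / (aN k : ℝ) ^ 903
noncomputable def δ0N (k : ℕ) : ℝ := 1 / (aN k : ℝ) ^ 60
noncomputable def ε4N (k : ℕ) : ℝ := 1 / (aN k : ℝ) ^ 9
noncomputable def εcN (k : ℕ) : ℝ := 1 / (aN k : ℝ) ^ 40
noncomputable def εTN (k : ℕ) : ℝ := ((k : ℝ) ^ 2 + 1) * εgN k
noncomputable def ρN (k : ℕ) : ℝ := k * (1 / (yN k * εgN k) + ε8N k)
noncomputable def c1N (k : ℕ) : ℝ := k * (ΛN k + LN k / εgN k + LN k)

theorem aN_ge {k : ℕ} (hk : 2 ≤ k) : 4 ≤ aN k := by unfold aN; omega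

theorem pow_aN_pos {k : ℕ} (hk : 2 ≤ k) (n : ℕ) : 0 < aN k ^ n :=
  Nat.pow_pos (by have := aN_ge hk; omega)

theorem inv_aN_pos {k : ℕ} (hk : 2 ≤ k) (n : ℕ) : (0 : ℝ) < 1 / (aN k : ℝ) ^ n :=
  one_div_pos.mpr (pow_pos (by exact_mod_cast (by have := aN_ge hk; omega : 0 < aN k)) n)

theorem pos_tN {k : ℕ} (hk : 2 ≤ k) : 1 ≤ tN k := pow_aN_pos hk 100
theorem pos_KN {k : ℕ} (hk : 2 ≤ k) : 0 < KN k := pow_aN_pos hk 12
theorem pos_rN {k : ℕ} (hk : 2 ≤ k) : 0 < rN k := pow_aN_pos hk 430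
theorem pos_yN {k : ℕ} (hk : 2 ≤ k) : 1 ≤ yN k := pow_aN_pos hk 700
theorem pos_nPN {k : ℕ} (hk : 2 ≤ k) : 0 < nPN k := pow_aN_pos hk 203
theorem pos_εgN {k : ℕ} (hk : 2 ≤ k) : 0 < εgN k := inv_aN_pos hk 420
theorem pos_ε8N {k : ℕ} (hk : 2 ≤ k) : 0 < ε8N k := inv_aN_pos hk 210
theorem pos_ε10N {k : ℕ} (hk : 2 ≤ k) : 0 < ε10N k := inv_aN_pos hk 412
theorem pos_δN {k : ℕ} (hk : 2 ≤ k) : 0 < δN k := inv_aN_pos hk 900
theorem pos_ηN {k : ℕ} (hk : 2 ≤ k) : 0 < ηN k := inv_aN_pos hk 903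
theorem pos_δ0N {k : ℕ} (hk : 2 ≤ k) : 0 < δ0N k := inv_aN_pos hk 60
theorem pos_ε4N {k : ℕ} (hk : 2 ≤ k) : 0 < ε4N k := inv_aN_pos hk 9
theorem pos_εcN {k : ℕ} (hk : 2 ≤ k) : 0 < εcN k := inv_aN_pos hk 40

theorem pos_bN (k : ℕ) : 1 ≤ bN k := Nat.one_le_two_pow
theorem pos_ΛN (k : ℕ) : 1 ≤ ΛN k := Nat.one_le_pow _ _ (pos_bN k)
theorem pos_Z2N (k : ℕ) : 1 ≤ Z2N k := Nat.one_le_pow _ _ (pos_ΛN k)
theorem pos_NN (k r : ℕ) : 1 ≤ NN k r := Nat.one_le_two_pow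
theorem pos_T0N (k r : ℕ) : 1 ≤ T0N k r :=
  Nat.mul_pos (Nat.pow_pos (pos_NN k r)) (Nat.two_pow_pos _)

theorem ΛN_eq (k : ℕ) : ΛN k = bN k ^ k := rfl
theorem om_eq (k : ℕ) : om k = ArithmeticFunction.cardFactors k := rfl
theorem εTN_eq (k : ℕ) : εTN k = ((k : ℝ) ^ 2 + 1) * εgN k := rfl
theorem ρN_eq (k : ℕ) : ρN k = k * (1 / (yN k * εgN k) + ε8N k) := rfl
theorem c1N_eq (k : ℕ) : c1N k = k * (ΛN k + LN k / εgN k + LN k) := rfl
theorem SN_eq (k : ℕ) : SN k = 4 * k := rfl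
theorem WN_eq (k : ℕ) : WN k = RN k ^ (k * tN k) := rfl

attribute [irreducible] aN tN SN KN rN yN nPN RN WN om lN LN NN bN ΛN Z1N Z2N T0N εgN ε8N ε10N
  δN ηN δ0N ε4N εcN εTN ρN c1N

end Pool.Agent.Lib.MP_fed790_nt.QP
end

section

/-!
# QP Num1: facts on `W` and `R`

`R = primorial y` (`y = a^700 ≥ 4^700`), `a = 2k ≥ 4`, `W = R^(k t)`.

* A prime `ℓ` divides `R` iff `ℓ ≤ y`, so `ℓ ∣ W ↔ ℓ ≤ y` (`k t ≥ 1`); `2 ≤ R ≤ W`.
* `ℓ ≤ y` prime: `ℓ^t ∣ R^t ∣ R^(k t)`.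
* `k² R ∣ W`: `k ∣ R^k`, because for every prime power `ℓ^e ∣ k` one has `ℓ ≤ k ≤ y`, `ℓ ∣ R` and
  `e < k` (`e < 2^e ≤ ℓ^e ≤ k`), so `ℓ^e ∣ R^k` (`Nat.eq_of_...`/ `Nat.dvd_of_factors`…, e.g.
  `(Nat.dvd_iff_prime_pow_dvd_dvd _ _)`). Hence `k² R ∣ R^(2k+1) ∣ R^(k t)` as `t ≥ 3`.
* `R ≤ 4^y` (`primorial_le_four_pow`/`primorial_le_4_pow`), so `W ≤ 2^(2 y k t) ≤ 2^(a^801)`
  (`2 k = a`), `W^(2S+3) ≤ 2^(a^801 (8k+3)) ≤ 2^(a^804)` (`8k + 3 = 4a+3 ≤ a³` for `a ≥ 4`).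
* `t ≤ 2^t ≤ W`.
-/

open Finset

namespace Pool.Agent.Lib.MP_fed790_nt.QP

private theorem a_le_y (k : ℕ) : aN k ≤ yN k := by
  unfold yN
  exact Nat.le_self_pow (by norm_num) _

private theorem a_le_t (k : ℕ) : aN k ≤ tN k := by
  unfold tN
  exact Nat.le_self_pow (by norm_num) _

private theorem RN_pos' (k : ℕ) : 0 < RN k := by
  unfold RN
  exact primorial_pos _

private theorem prime_RN (k : ℕ) (ℓ : ℕ) (hℓ : ℓ.Prime) : ℓ ∣ RN k ↔ ℓ ≤ yN k := by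
  unfold RN
  exact hℓ.dvd_primorial_iff

private theorem RN_ge (k : ℕ) (hk : 2 ≤ k) : 2 ≤ RN k := by
  have h4 := aN_ge hk
  have hy := a_le_y k
  exact Nat.le_of_dvd (RN_pos' k) ((prime_RN k 2 Nat.prime_two).2 (by omega))

private theorem kt_pos (k : ℕ) (hk : 2 ≤ k) : 0 < k * tN k :=
  Nat.mul_pos (by omega) (pos_tN hk)

private theorem a_eq (k : ℕ) : aN k = 2 * k := by
  unfold aN
  rfl

private theorem t_eq (k : ℕ) : tN k = aN k ^ 100 := by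
  unfold tN
  rfl

private theorem y_eq (k : ℕ) : yN k = aN k ^ 700 := by
  unfold yN
  rfl

theorem WN_ge (k : ℕ) (hk : 2 ≤ k) : 2 ≤ WN k := by
  rw [WN_eq]
  exact (RN_ge k hk).trans (Nat.le_self_pow (kt_pos k hk).ne' _)

theorem RN_pos (k : ℕ) : 0 < RN k := by
  exact RN_pos' k

theorem WN_prime (k : ℕ) (hk : 2 ≤ k) (ℓ : ℕ) (hℓ : ℓ.Prime) : ℓ ∣ WN k ↔ ℓ ≤ yN k := by
  rw [WN_eq, ← prime_RN k ℓ hℓ]
  exact ⟨fun h => hℓ.dvd_of_dvd_pow h, fun h => dvd_pow h (kt_pos k hk).ne'⟩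

theorem WN_pow (k : ℕ) (hk : 2 ≤ k) (ℓ : ℕ) (hℓ : ℓ.Prime) (h : ℓ ≤ yN k) : ℓ ^ tN k ∣ WN k := by
  rw [WN_eq]
  exact (pow_dvd_pow_of_dvd ((prime_RN k ℓ hℓ).2 h) (tN k)).trans
    (pow_dvd_pow _ (Nat.le_mul_of_pos_left _ (by omega)))

theorem WN_sq (k : ℕ) (hk : 2 ≤ k) : k ^ 2 * RN k ∣ WN k := by
  have h4 := aN_ge hk
  have hy := a_le_y k
  have ht := a_le_t k
  have ha := a_eq k
  have h1 : k ∣ RN k ^ k := by
    rw [Nat.dvd_iff_prime_pow_dvd_dvd]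
    intro p e hp hpe
    rcases Nat.eq_zero_or_pos e with rfl | he
    · simp
    · have h2 : p ^ e ≤ k := Nat.le_of_dvd (by omega) hpe
      have h3 : p ∣ k := (dvd_pow_self p he.ne').trans hpe
      have h5 : p ≤ k := Nat.le_of_dvd (by omega) h3
      have h6 : e < 2 ^ e := Nat.lt_two_pow_self
      have h7 : 2 ^ e ≤ p ^ e := Nat.pow_le_pow_left hp.two_le e
      exact (pow_dvd_pow_of_dvd ((prime_RN k p hp).2 (by omega)) e).trans
        (pow_dvd_pow _ (by omega))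
  have h2 : k ^ 2 * RN k ∣ RN k ^ (2 * k + 1) := by
    have : RN k ^ (2 * k + 1) = (RN k ^ k) ^ 2 * RN k := by
      rw [← pow_mul, ← pow_succ, mul_comm k 2]
    rw [this]
    exact mul_dvd_mul (pow_dvd_pow_of_dvd h1 2) dvd_rfl
  rw [WN_eq]
  refine h2.trans (pow_dvd_pow _ ?_)
  calc 2 * k + 1 ≤ k * 4 := by omega
    _ ≤ k * tN k := Nat.mul_le_mul_left _ (by omega)

theorem tN_le (k : ℕ) (hk : 2 ≤ k) : tN k ≤ WN k := by
  rw [WN_eq]
  have h1 : tN k < 2 ^ tN k := Nat.lt_two_pow_self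
  have h2 : 2 ^ tN k ≤ RN k ^ tN k := Nat.pow_le_pow_left (RN_ge k hk) _
  have h3 : RN k ^ tN k ≤ RN k ^ (k * tN k) :=
    Nat.pow_le_pow_right (RN_pos' k) (Nat.le_mul_of_pos_left _ (by omega))
  omega

theorem WN_le (k : ℕ) (hk : 2 ≤ k) : WN k ≤ 2 ^ (aN k ^ 801) := by
  rw [WN_eq]
  have h1 : RN k ≤ 4 ^ yN k := by
    unfold RN
    exact primorial_le_four_pow _
  have h2 : (4 ^ yN k) ^ (k * tN k) = 2 ^ (aN k ^ 801) := by
    have h3 : (4 : ℕ) = 2 ^ 2 := by norm_num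
    rw [h3, ← pow_mul, ← pow_mul]
    congr 1
    rw [t_eq, y_eq]
    have h5 : aN k ^ 801 = aN k * (aN k ^ 700 * aN k ^ 100) := by
      rw [← pow_add, ← pow_succ']
    rw [h5]
    conv_rhs => rw [show aN k * (aN k ^ 700 * aN k ^ 100) =
      (2 * k) * (aN k ^ 700 * aN k ^ 100) by rw [← a_eq k]]
    generalize aN k ^ 700 = u
    generalize aN k ^ 100 = v
    ring
  exact (Nat.pow_le_pow_left h1 _).trans h2.le

theorem WN_pow_le (k : ℕ) (hk : 2 ≤ k) : WN k ^ (2 * SN k + 3) ≤ 2 ^ (aN k ^ 804) := by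
  have h4 := aN_ge hk
  have h1 := Nat.pow_le_pow_left (WN_le k hk) (2 * SN k + 3)
  refine h1.trans ?_
  rw [← pow_mul]
  refine Nat.pow_le_pow_right (by norm_num) ?_
  have h2 : aN k ^ 804 = aN k ^ 801 * aN k ^ 3 := by rw [← pow_add]
  rw [h2]
  refine Nat.mul_le_mul_left _ ?_
  have ha := a_eq k
  have h3 : 2 * SN k + 3 ≤ 5 * aN k := by
    rw [SN_eq]
    omega
  refine h3.trans ?_
  generalize aN k = a at h4
  nlinarith [Nat.mul_le_mul h4 h4]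

end Pool.Agent.Lib.MP_fed790_nt.QP
end

section

/-!
# QP C1: counting with the Chinese remainder theorem; updates of a coordinate

**`crt_count_le`.** By the Chinese remainder theorem all `x` satisfying the congruences lie in one
residue class modulo `P = ∏ m i` (if `x, x'` both satisfy them, each `m i` divides `x - x'`, and the
`m i` are pairwise coprime: `Finset.prod_dvd_of_coprime`). An interval with `X` elements contains at
most `X/P + 1` elements of a class mod `P`.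

**`per_sum`.** It suffices to treat an interval of length exactly `m T` (split `[lo, lo+X)` into
`X/(mT)` intervals; induction). On it, for each class `ρ` mod `m` there is exactly one `x` with
`x ≡ ρ mod m`, `x ≡ c mod T`, so the left side is `T ∑_{ρ mod m} g(ρ)`; and each class mod `m` has
exactly `T` elements, so the right side is the same. (Alternative: let
`F(x) = g x (T [T ∣ x - c] - 1)`; both sides only depend on classes mod `m T`; use
`Nat.chineseRemainder` / `ZMod.chineseRemainder`.)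

**`sum_update`.** For fixed `s` in the interval of `z`… each `x' ∈ bx lo X` is of the form
`Function.update x z s` for exactly `X` pairs `(x, s)` (`s = x' z`, `x` = `x'` with the coordinate
`z` changed arbitrarily). E.g. use `Finset.sum_bij'`/`Finset.sum_comm'` with the pairs
`(x, s) ↦ (update x z s, x z)`, an involution-like bijection of `bx × Ico`.
-/

open Finset

namespace Pool.Agent.Lib.MP_fed790_nt.QP

theorem crt_count_le {σ : Type*} (s : Finset σ) (m : σ → ℕ) (c : σ → ℤ) (hm : ∀ i ∈ s, 0 < m i)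
    (hcop : ∀ i ∈ s, ∀ j ∈ s, i ≠ j → (m i).Coprime (m j)) (lo : ℤ) (X : ℕ) (A : Finset ℤ)
    (hA : ∀ x ∈ A, lo ≤ x ∧ x < lo + X ∧ ∀ i ∈ s, (m i : ℤ) ∣ x - c i) :
    (A.card : ℝ) ≤ X / (∏ i ∈ s, (m i : ℝ)) + 1 := by
  classical
  set P : ℕ := ∏ i ∈ s, m i with hP
  have hPpos : 0 < P := Finset.prod_pos hm
  have hPR : (∏ i ∈ s, (m i : ℝ)) = (P : ℝ) := by rw [hP]; push_cast; rfl
  rw [hPR]
  have hPposR : (0 : ℝ) < P := by exact_mod_cast hPpos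
  rcases A.eq_empty_or_nonempty with hAe | hAn
  · subst hAe
    simp only [Finset.card_empty, Nat.cast_zero]
    positivity
  · set x0 := A.min' hAn with hx0
    have hx0A : x0 ∈ A := A.min'_mem hAn
    have hdiv : ∀ x ∈ A, (P : ℤ) ∣ x - x0 := by
      intro x hx
      have h1 : (∏ i ∈ s, (m i : ℤ)) ∣ x - x0 := by
        apply Finset.prod_dvd_of_coprime
        · intro i hi j hj hij
          exact Nat.isCoprime_iff_coprime.mpr (hcop i hi j hj hij)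
        · intro i hi
          have ha := (hA x hx).2.2 i hi
          have hb := (hA x0 hx0A).2.2 i hi
          have := dvd_sub ha hb
          have he : x - c i - (x0 - c i) = x - x0 := by ring
          rwa [he] at this
      have h2 : (P : ℤ) = ∏ i ∈ s, (m i : ℤ) := by rw [hP]; push_cast; rfl
      rwa [h2]
    have hle : ∀ x ∈ A, 0 ≤ x - x0 := fun x hx => sub_nonneg.mpr (A.min'_le x hx)
    have hlt : ∀ x ∈ A, x - x0 < X := by
      intro x hx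
      have h1 := (hA x hx).2.1
      have h2 := (hA x0 hx0A).1
      linarith
    have hcard : A.card ≤ (Finset.range (X / P + 1)).card := by
      apply Finset.card_le_card_of_injOn (fun x => ((x - x0) / P).toNat)
      · intro x hx
        have hx' : x ∈ A := hx
        simp only [Finset.coe_range, Set.mem_Iio]
        have h1 := hle x hx'
        have h2 := hlt x hx'
        have h3 : (x - x0) / (P : ℤ) ≤ (X : ℤ) / P :=
          Int.ediv_le_ediv (by exact_mod_cast hPpos) (le_of_lt h2)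
        have h4 : ((x - x0) / (P : ℤ)).toNat ≤ X / P := by
          rw [Int.toNat_le]
          push_cast
          exact h3
        omega
      · intro x hx y hy hxy
        have hx' : x ∈ A := hx
        have hy' : y ∈ A := hy
        simp only at hxy
        have h1 : 0 ≤ (x - x0) / (P : ℤ) := Int.ediv_nonneg (hle x hx') (by positivity)
        have h2 : 0 ≤ (y - x0) / (P : ℤ) := Int.ediv_nonneg (hle y hy') (by positivity)
        have h3 : (x - x0) / (P : ℤ) = (y - x0) / (P : ℤ) := by omega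
        have h4 : (P : ℤ) * ((x - x0) / P) = x - x0 := Int.mul_ediv_cancel' (hdiv x hx')
        have h5 : (P : ℤ) * ((y - x0) / P) = y - x0 := Int.mul_ediv_cancel' (hdiv y hy')
        rw [h3] at h4
        linarith
    rw [Finset.card_range] at hcard
    have h6 : (A.card : ℝ) ≤ ((X / P : ℕ) : ℝ) + 1 := by exact_mod_cast hcard
    have h7 : ((X / P : ℕ) : ℝ) ≤ (X : ℝ) / P := Nat.cast_div_le
    linarith

private lemma sum_Ico_zmod (N : ℕ) [NeZero N] (F : ZMod N → ℂ) (lo : ℤ) :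
    ∑ x ∈ Ico lo (lo + N), F ((x : ℤ) : ZMod N) = ∑ a : ZMod N, F a := by
  classical
  apply Finset.sum_nbij (fun x : ℤ => (x : ZMod N))
  · intro x _
    exact Finset.mem_univ _
  · intro x hx y hy hxy
    rw [Finset.coe_Ico, Set.mem_Ico] at hx hy
    simp only at hxy
    have h1 : ((N : ℕ) : ℤ) ∣ y - x := (ZMod.intCast_eq_intCast_iff_dvd_sub x y N).mp hxy
    have h2 : |y - x| < N := by
      rw [abs_lt]
      constructor <;> linarith [hx.1, hx.2, hy.1, hy.2]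
    have h3 := Int.eq_zero_of_abs_lt_dvd h1 h2
    linarith
  · intro a _
    refine ⟨lo + ((a - (lo : ZMod N)).val : ℤ), ?_, ?_⟩
    · rw [Finset.coe_Ico, Set.mem_Ico]
      have := ZMod.val_lt (a - (lo : ZMod N))
      constructor
      · have : (0 : ℤ) ≤ ((a - (lo : ZMod N)).val : ℤ) := by positivity
        linarith
      · have : ((a - (lo : ZMod N)).val : ℤ) < N := by exact_mod_cast this
        linarith
    · simp only
      push_cast
      rw [ZMod.natCast_zmod_val]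
      ring
  · intro x _
    rfl

private lemma sum_Ico_mul (N : ℕ) [NeZero N] (F : ZMod N → ℂ) (lo : ℤ) (k : ℕ) :
    ∑ x ∈ Ico lo (lo + (N * k : ℕ)), F ((x : ℤ) : ZMod N) = k * ∑ a : ZMod N, F a := by
  induction k with
  | zero => simp
  | succ k ih =>
    have h1 : lo ≤ lo + ((N * k : ℕ) : ℤ) := by
      have : (0 : ℤ) ≤ ((N * k : ℕ) : ℤ) := by positivity
      linarith
    have h2 : lo + ((N * k : ℕ) : ℤ) ≤ lo + ((N * (k + 1) : ℕ) : ℤ) := by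
      have : ((N * k : ℕ) : ℤ) ≤ ((N * (k + 1) : ℕ) : ℤ) := by
        exact_mod_cast Nat.mul_le_mul_left N (Nat.le_succ k)
      linarith
    have h3 : Ico lo (lo + ((N * (k + 1) : ℕ) : ℤ)) =
        Ico lo (lo + ((N * k : ℕ) : ℤ)) ∪
          Ico (lo + ((N * k : ℕ) : ℤ)) (lo + ((N * (k + 1) : ℕ) : ℤ)) :=
      (Finset.Ico_union_Ico_eq_Ico h1 h2).symm
    rw [h3, Finset.sum_union (Finset.Ico_disjoint_Ico_consecutive _ _ _), ih]
    have h4 : lo + ((N * (k + 1) : ℕ) : ℤ) = lo + ((N * k : ℕ) : ℤ) + (N : ℤ) := by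
      push_cast
      ring
    rw [h4, sum_Ico_zmod N F (lo + ((N * k : ℕ) : ℤ))]
    push_cast
    ring

theorem per_sum (g : ℤ → ℂ) (m T : ℕ) (hm : 0 < m) (hT : 0 < T) (hcop : m.Coprime T)
    (hg : ∀ x, g (x + m) = g x) (lo c : ℤ) (X : ℕ) (hX : m * T ∣ X) :
    ∑ x ∈ Ico lo (lo + X), g x * (if (T : ℤ) ∣ x - c then (T : ℂ) else 0) =
      ∑ x ∈ Ico lo (lo + X), g x := by
  classical
  obtain ⟨k, rfl⟩ := hX
  have : NeZero m := ⟨hm.ne'⟩
  have : NeZero T := ⟨hT.ne'⟩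
  have : NeZero (m * T) := ⟨(Nat.mul_pos hm hT).ne'⟩
  have hgp : Function.Periodic g (m : ℤ) := hg
  -- `g` factors through `ZMod m`
  set G : ZMod m → ℂ := fun a => g (a.val : ℤ) with hG
  have hgG : ∀ x : ℤ, g x = G (x : ZMod m) := by
    intro x
    rw [hG]
    simp only
    have h1 : (((x : ZMod m).val : ℕ) : ℤ) = x % m := ZMod.val_intCast x
    rw [h1]
    have h2 : x % (m : ℤ) = x - (x / m) * m := by
      have := Int.emod_add_mul_ediv x m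
      linarith
    have h3 := hgp.sub_zsmul_eq (x := x) (x / m)
    rw [smul_eq_mul] at h3
    rw [h2]
    exact h3.symm
  set e := ZMod.chineseRemainder hcop with he
  have he1 : ∀ x : ℤ, (e (x : ZMod (m * T))).1 = (x : ZMod m) := by
    intro x
    rw [map_intCast]
    rfl
  have he2 : ∀ x : ℤ, (e (x : ZMod (m * T))).2 = (x : ZMod T) := by
    intro x
    rw [map_intCast]
    rfl
  have hL : ∀ x : ℤ, g x * (if (T : ℤ) ∣ x - c then (T : ℂ) else 0) =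
      (fun a : ZMod (m * T) => G (e a).1 * (if (e a).2 = (c : ZMod T) then (T : ℂ) else 0))
        (x : ZMod (m * T)) := by
    intro x
    simp only
    rw [he1, he2, hgG]
    congr 1
    have : (T : ℤ) ∣ x - c ↔ ((x : ZMod T) = (c : ZMod T)) := by
      rw [eq_comm, ZMod.intCast_eq_intCast_iff_dvd_sub]
    simp only [this]
  have hR : ∀ x : ℤ, g x = (fun a : ZMod (m * T) => G (e a).1) (x : ZMod (m * T)) := by
    intro x
    simp only
    rw [he1, hgG]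
  rw [Finset.sum_congr rfl (fun x _ => hL x), Finset.sum_congr rfl (fun x _ => hR x)]
  rw [sum_Ico_mul (m * T) (fun a : ZMod (m * T) =>
      G (e a).1 * (if (e a).2 = (c : ZMod T) then (T : ℂ) else 0)) lo k,
    sum_Ico_mul (m * T) (fun a : ZMod (m * T) => G (e a).1) lo k]
  congr 1
  have s1 : ∑ a : ZMod (m * T), (G (e a).1 * (if (e a).2 = (c : ZMod T) then (T : ℂ) else 0)) =
      ∑ b : ZMod m × ZMod T, (G b.1 * (if b.2 = (c : ZMod T) then (T : ℂ) else 0)) :=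
    Equiv.sum_comp e.toEquiv
      (fun b : ZMod m × ZMod T => (G b.1 * (if b.2 = (c : ZMod T) then (T : ℂ) else 0)))
  have s2 : ∑ a : ZMod (m * T), G (e a).1 = ∑ b : ZMod m × ZMod T, G b.1 :=
    Equiv.sum_comp e.toEquiv (fun b : ZMod m × ZMod T => G b.1)
  rw [s1, s2, Fintype.sum_prod_type, Fintype.sum_prod_type]
  apply Finset.sum_congr rfl
  intro a _
  simp only
  rw [← Finset.mul_sum, Finset.sum_ite_eq' Finset.univ (c : ZMod T)]
  simp only [Finset.mem_univ, if_true, Finset.sum_const, Finset.card_univ, ZMod.card, nsmul_eq_mul]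
  ring

private lemma sum_update_aux {V : Type*} [Fintype V] [DecidableEq V] {R : Type*} [CommRing R]
    (lo : V → ℤ) (X : ℕ) (z : V) (F : (V → ℤ) → R) :
    ∑ x ∈ bx lo X, ∑ s ∈ Ico (lo z) (lo z + X), F (Function.update x z s) =
      X * ∑ x ∈ bx lo X, F x := by
  classical
  rw [← Finset.sum_product']
  have h1 : ∑ p ∈ bx lo X ×ˢ Ico (lo z) (lo z + X), F (Function.update p.1 z p.2) =
      ∑ p ∈ bx lo X ×ˢ Ico (lo z) (lo z + X), F p.1 := by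
    refine Finset.sum_bij' (fun p _ => (Function.update p.1 z p.2, p.1 z))
      (fun p _ => (Function.update p.1 z p.2, p.1 z)) ?_ ?_ ?_ ?_ ?_
    · intro p hp
      rw [Finset.mem_product] at hp ⊢
      unfold bx at hp ⊢
      rw [Fintype.mem_piFinset] at hp ⊢
      refine ⟨?_, hp.1 z⟩
      intro u
      by_cases hu : u = z
      · subst hu
        simp only [Function.update_self]
        exact hp.2
      · simp only [Function.update_of_ne hu]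
        exact hp.1 u
    · intro p hp
      rw [Finset.mem_product] at hp ⊢
      unfold bx at hp ⊢
      rw [Fintype.mem_piFinset] at hp ⊢
      refine ⟨?_, hp.1 z⟩
      intro u
      by_cases hu : u = z
      · subst hu
        simp only [Function.update_self]
        exact hp.2
      · simp only [Function.update_of_ne hu]
        exact hp.1 u
    · intro p hp
      simp
    · intro p hp
      simp
    · intro p hp
      simp
  rw [h1, Finset.sum_product, Finset.mul_sum]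
  apply Finset.sum_congr rfl
  intro x _
  simp only [Finset.sum_const, Int.card_Ico, nsmul_eq_mul]
  congr 2
  omega

theorem sum_update {V : Type*} [Fintype V] [DecidableEq V] (lo : V → ℤ) (X : ℕ) (z : V)
    (F : (V → ℤ) → ℂ) :
    ∑ x ∈ bx lo X, ∑ s ∈ Ico (lo z) (lo z + X), F (Function.update x z s) =
      X * ∑ x ∈ bx lo X, F x :=
  sum_update_aux lo X z F

theorem sum_update_real {V : Type*} [Fintype V] [DecidableEq V] (lo : V → ℤ) (X : ℕ) (z : V)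
    (F : (V → ℤ) → ℝ) :
    ∑ x ∈ bx lo X, ∑ s ∈ Ico (lo z) (lo z + X), F (Function.update x z s) =
      X * ∑ x ∈ bx lo X, F x :=
  sum_update_aux lo X z F

theorem card_bx {V : Type*} [Fintype V] [DecidableEq V] (lo : V → ℤ) (X : ℕ) :
    (bx lo X).card = X ^ Fintype.card V := by
  unfold bx
  rw [Fintype.card_piFinset]
  have : ∀ u ∈ (Finset.univ : Finset V), (Ico (lo u) (lo u + X)).card = X := by
    intro u _
    rw [Int.card_Ico]
    omega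
  rw [Finset.prod_congr rfl this, Finset.prod_const, Finset.card_univ]

end Pool.Agent.Lib.MP_fed790_nt.QP
end
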