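import Pool.Agent.Lib.MP_fed790_nt.QP.Defs
import Pool.Agent.Lib.MP_fed790_nt.QP.C1

section

/-!
# QP D2: pigeonhole and Fourier

**`pigeonhole`.** Average over `ν < Z` of `#{u : g ν u ∉ H}` is at most `(∑_u (Z/4))/Z = S t/4`; so
some `ν < Z` has at most `S t/4` bad vertices, i.e. at least `3 S t/4` good ones. Call `(i,c)`
(`i : Fin S`, `c ∈ H`) popular if `t ≤ 4 k #{a : g ν (i,a) = c}`. For each `i` the unpopular colours
`c ∈ H` cover fewer than `k * t/(4k) = t/4` of the vertices of the level `i` (at most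
`Nat.card H ≤ k` colours). So the popular pairs cover at least `3St/4 - St/4 = St/2` vertices, each
at most `t`; hence there are at least `S/2 = 2k > k ≥ Nat.card H` popular pairs (`S = 4k`), and two
of them have the same colour `c`, with levels `i < j`.
-/

open Finset

namespace Pool.Agent.Lib.MP_fed790_nt.QP

open Classical in
theorem pigeonhole {G : Type*} [AddCommGroup G] [Finite G] (H : AddSubgroup G) {k S t Z : ℕ}
    (hk : Nat.card G ≤ k) (hk0 : 0 < k) (hS : S = 4 * k) (ht : 0 < t) (hZ : 0 < Z)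
    (g : ℕ → Ve S t → G)
    (hg : ∀ u, (((range Z).filter (fun ν => g ν u ∉ H)).card : ℝ) ≤ Z / 4) :
    ∃ ν < Z, ∃ c ∈ H, ∃ i j : Fin S, i < j ∧
      t ≤ 4 * k * ((univ : Finset (Fin t)).filter (fun a => g ν (i, a) = c)).card ∧
      t ≤ 4 * k * ((univ : Finset (Fin t)).filter (fun a => g ν (j, a) = c)).card := by
  classical
  have : Fintype G := Fintype.ofFinite G
  have hsum : ∑ ν ∈ range Z, (((univ : Finset (Ve S t)).filter (fun u => g ν u ∉ H)).card : ℝ) ≤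
      ∑ ν ∈ range Z, ((S : ℝ) * t / 4) := by
    have h1 : ∑ ν ∈ range Z, (((univ : Finset (Ve S t)).filter (fun u => g ν u ∉ H)).card : ℝ) =
        ∑ u : Ve S t, (((range Z).filter (fun ν => g ν u ∉ H)).card : ℝ) := by
      simp only [Finset.card_filter, Nat.cast_sum]
      rw [Finset.sum_comm]
    rw [h1]
    calc ∑ u : Ve S t, (((range Z).filter (fun ν => g ν u ∉ H)).card : ℝ)
        ≤ ∑ u : Ve S t, ((Z : ℝ) / 4) := Finset.sum_le_sum (fun u _ => hg u)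
      _ = ∑ ν ∈ range Z, ((S : ℝ) * t / 4) := by
        simp only [Finset.sum_const, Finset.card_univ, Fintype.card_prod, Fintype.card_fin,
          Finset.card_range, nsmul_eq_mul, Nat.cast_mul]
        ring
  obtain ⟨ν, hν, hbad⟩ := Finset.exists_le_of_sum_le
    (Finset.nonempty_range_iff.mpr hZ.ne') hsum
  rw [Finset.mem_range] at hν
  refine ⟨ν, hν, ?_⟩
  by_contra hcon
  have hcon' : ∀ c ∈ H, ∀ i j : Fin S,
      t ≤ 4 * k * ((univ : Finset (Fin t)).filter (fun a => g ν (i, a) = c)).card →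
      t ≤ 4 * k * ((univ : Finset (Fin t)).filter (fun a => g ν (j, a) = c)).card → i = j := by
    intro c hc i j hi hj
    rcases lt_trichotomy i j with h | h | h
    · exact absurd ⟨c, hc, i, j, h, hi, hj⟩ hcon
    · exact h
    · exact absurd ⟨c, hc, j, i, h, hj, hi⟩ hcon
  set Hf : Finset G := univ.filter (fun x => x ∈ H) with hHf
  have hHfc : Hf.card ≤ k := by
    refine le_trans (Finset.card_le_univ _) ?_
    rw [← Nat.card_eq_fintype_card]; exact hk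
  -- number of good vertices
  have hgood : (univ.filter (fun u : Ve S t => g ν u ∈ H)).card =
      ∑ c ∈ Hf, ∑ i : Fin S, (univ.filter (fun a : Fin t => g ν (i, a) = c)).card := by
    rw [Finset.card_eq_sum_card_fiberwise (f := fun u => g ν u) (t := Hf)]
    · refine Finset.sum_congr rfl (fun c hc => ?_)
      rw [hHf, Finset.mem_filter] at hc
      have : (univ.filter (fun u : Ve S t => g ν u ∈ H)).filter (fun u => g ν u = c) =
          univ.filter (fun u : Ve S t => g ν u = c) := by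
        ext u
        simp only [Finset.mem_filter, Finset.mem_univ, true_and]
        constructor
        · exact fun h => h.2
        · intro h
          exact ⟨by rw [h]; exact hc.2, h⟩
      rw [this, Finset.card_filter, Fintype.sum_prod_type]
      refine Finset.sum_congr rfl (fun i _ => ?_)
      rw [Finset.card_filter]
    · intro u hu
      simp only [Finset.coe_filter, Finset.mem_univ, true_and, Set.mem_ofPred_eq] at hu
      simp only [hHf, Finset.coe_filter, Finset.mem_univ, true_and, Set.mem_ofPred_eq]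
      exact hu
  have hrow : ∀ c ∈ Hf, ∑ i : Fin S, (univ.filter (fun a : Fin t => g ν (i, a) = c)).card ≤
      2 * t := by
    intro c hc
    have hcH : c ∈ H := by
      rw [hHf, Finset.mem_filter] at hc; exact hc.2
    have hle : ∀ i : Fin S, (univ.filter (fun a : Fin t => g ν (i, a) = c)).card ≤ t := by
      intro i
      refine le_trans (Finset.card_le_univ _) ?_
      simp
    have h1 : ∑ i : Fin S, 4 * k * (univ.filter (fun a : Fin t => g ν (i, a) = c)).card ≤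
        ∑ i : Fin S, (t + if t ≤ 4 * k * (univ.filter (fun a : Fin t => g ν (i, a) = c)).card
          then 4 * k * t else 0) := by
      refine Finset.sum_le_sum (fun i _ => ?_)
      split_ifs with h
      · have := Nat.mul_le_mul_left (4 * k) (hle i)
        omega
      · omega
    have h2 : ∑ i : Fin S, (if t ≤ 4 * k * (univ.filter (fun a : Fin t => g ν (i, a) = c)).card
          then 4 * k * t else 0) ≤ 4 * k * t := by
      rw [← Finset.sum_filter, Finset.sum_const, smul_eq_mul]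
      have : (univ.filter (fun i : Fin S =>
          t ≤ 4 * k * (univ.filter (fun a : Fin t => g ν (i, a) = c)).card)).card ≤ 1 := by
        rw [Finset.card_le_one]
        intro i hi j hj
        rw [Finset.mem_filter] at hi hj
        exact hcon' c hcH i j hi.2 hj.2
      calc _ ≤ 1 * (4 * k * t) := Nat.mul_le_mul_right _ this
        _ = 4 * k * t := one_mul _
    rw [Finset.sum_add_distrib, Finset.sum_const, Finset.card_univ, Fintype.card_fin, smul_eq_mul,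
      ← Finset.mul_sum] at h1
    have h3 : 4 * k * ∑ i : Fin S, (univ.filter (fun a : Fin t => g ν (i, a) = c)).card ≤
        4 * k * (2 * t) := by
      have h4 : S * t = 4 * k * t := congrArg (· * t) hS
      calc _ ≤ _ := h1
        _ ≤ S * t + 4 * k * t := Nat.add_le_add_left h2 _
        _ = 4 * k * (2 * t) := by rw [h4]; ring
    exact Nat.le_of_mul_le_mul_left h3 (by omega)
  have hM : (univ.filter (fun u : Ve S t => g ν u ∈ H)).card ≤ k * (2 * t) := by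
    rw [hgood]
    calc _ ≤ ∑ c ∈ Hf, 2 * t := Finset.sum_le_sum hrow
      _ = Hf.card * (2 * t) := by rw [Finset.sum_const, smul_eq_mul]
      _ ≤ k * (2 * t) := Nat.mul_le_mul_right _ hHfc
  have hsplit : (univ.filter (fun u : Ve S t => g ν u ∈ H)).card +
      (univ.filter (fun u : Ve S t => g ν u ∉ H)).card = S * t := by
    rw [Finset.card_filter_add_card_filter_not, Finset.card_univ, Fintype.card_prod,
      Fintype.card_fin, Fintype.card_fin]
  have hk1 : (0 : ℝ) < k := by exact_mod_cast hk0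
  have ht1 : (0 : ℝ) < t := by exact_mod_cast ht
  have hM' : ((univ.filter (fun u : Ve S t => g ν u ∈ H)).card : ℝ) ≤ k * (2 * t) := by
    exact_mod_cast hM
  have hsplit' : ((univ.filter (fun u : Ve S t => g ν u ∈ H)).card : ℝ) +
      ((univ.filter (fun u : Ve S t => g ν u ∉ H)).card : ℝ) = 4 * k * t := by
    have h4 : S * t = 4 * k * t := congrArg (· * t) hS
    rw [h4] at hsplit
    exact_mod_cast hsplit
  have hS' : (S : ℝ) = 4 * k := by
    have : ((S : ℕ) : ℝ) = ((4 * k : ℕ) : ℝ) := congrArg _ hS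
    rw [this]; push_cast; ring
  rw [hS'] at hbad
  nlinarith [mul_pos hk1 ht1]

end Pool.Agent.Lib.MP_fed790_nt.QP
end

section

/-!
# QP D2s: Fourier analysis on the edges

**`fourier_edge`.** Suppose `g a b ≠ c` for all `a ∈ A`, `b ∈ B`. Then, by orthogonality of the
characters of `G` (`AddChar.sum_apply_eq_ite` or similar),
`0 = ∑_{(a,b) ∈ A×B} ∑_ψ ψ(g a b - c) = ∑_ψ ψ(-c) Σ_ψ`, `Σ_ψ = ∑_{(a,b) ∈ A × B} ψ(g a b)`. For the
characters `ψ` trivial on `H` (`ψ h = 1` for all `h ∈ H`): `ψ(-c) Σ_ψ = |A||B|` (a nonnegative real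
number; the trivial character is one of them). For the others,
`|Σ_ψ|² ≤ |B| ∑_{b} |∑_{a ∈ A} ψ(g a b)|² = |B| ∑_{a,a' ∈ A} ∑_b ψ(g a b) conj ψ(g a' b)` (sum over
all `b : Fin t`), so `|Σ_ψ|⁴ ≤ |B|² |A|² ∑_{a,a'} |∑_b ψ(g a b) conj ψ(g a' b)|² ≤
|A|² |B|² ε4 t⁴`. Therefore `|A||B| ≤ k max |Σ_ψ|` (there are `card G ≤ k` characters), i.e.
`(|A||B|)⁴ ≤ k⁴ |A|² |B|² ε4 t⁴`, `(|A||B|)² ≤ k⁴ ε4 t⁴`, and `|A|, |B| ≥ t/(4k)` gives
`t⁴/(4k)⁴ ≤ k⁴ ε4 t⁴`, i.e. `1 ≤ 256 k⁸ ε4`, a contradiction.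
-/

open Finset

namespace Pool.Agent.Lib.MP_fed790_nt.QP

private theorem d2s_fourth {t : ℕ} (u : Fin t → Fin t → ℂ) (A B : Finset (Fin t)) (E : ℝ)
    (hE : ∑ a : Fin t, ∑ a' : Fin t, ‖∑ b : Fin t, u a b * starRingEnd ℂ (u a' b)‖ ^ 2 ≤ E) :
    ‖∑ a ∈ A, ∑ b ∈ B, u a b‖ ^ 4 ≤ (A.card : ℝ) ^ 2 * (B.card : ℝ) ^ 2 * E := by
  -- first Cauchy
  have h1 : ‖∑ a ∈ A, ∑ b ∈ B, u a b‖ ^ 2 ≤ (B.card : ℝ) * ∑ b : Fin t, ‖∑ a ∈ A, u a b‖ ^ 2 := by
    rw [Finset.sum_comm]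
    calc ‖∑ b ∈ B, ∑ a ∈ A, u a b‖ ^ 2 ≤ (∑ b ∈ B, ‖∑ a ∈ A, u a b‖) ^ 2 := by
          gcongr
          exact norm_sum_le _ _
      _ ≤ (B.card : ℝ) * ∑ b ∈ B, ‖∑ a ∈ A, u a b‖ ^ 2 := sq_sum_le_card_mul_sum_sq
      _ ≤ (B.card : ℝ) * ∑ b : Fin t, ‖∑ a ∈ A, u a b‖ ^ 2 := by
          gcongr
          exact Finset.subset_univ _
  -- expansion
  have h2 : ((∑ b : Fin t, ‖∑ a ∈ A, u a b‖ ^ 2 : ℝ) : ℂ) =
      ∑ p ∈ A ×ˢ A, ∑ b : Fin t, u p.1 b * starRingEnd ℂ (u p.2 b) := by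
    rw [Finset.sum_product, Complex.ofReal_sum]
    have h3 : ∀ b : Fin t, ((‖∑ a ∈ A, u a b‖ ^ 2 : ℝ) : ℂ) =
        ∑ a ∈ A, ∑ a' ∈ A, u a b * starRingEnd ℂ (u a' b) := by
      intro b
      rw [Complex.ofReal_pow, ← Complex.mul_conj', map_sum, Finset.sum_mul_sum]
    simp_rw [h3]
    rw [Finset.sum_comm]
    refine Finset.sum_congr rfl (fun a _ => ?_)
    rw [Finset.sum_comm]
  have h4 : ∑ b : Fin t, ‖∑ a ∈ A, u a b‖ ^ 2 ≤
      ∑ p ∈ A ×ˢ A, ‖∑ b : Fin t, u p.1 b * starRingEnd ℂ (u p.2 b)‖ := by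
    have h5 : 0 ≤ ∑ b : Fin t, ‖∑ a ∈ A, u a b‖ ^ 2 := by positivity
    have h6 : ∑ b : Fin t, ‖∑ a ∈ A, u a b‖ ^ 2 =
        ‖((∑ b : Fin t, ‖∑ a ∈ A, u a b‖ ^ 2 : ℝ) : ℂ)‖ := by
      rw [Complex.norm_real, Real.norm_of_nonneg h5]
    rw [h6, h2]
    exact norm_sum_le _ _
  have h5 : (∑ p ∈ A ×ˢ A, ‖∑ b : Fin t, u p.1 b * starRingEnd ℂ (u p.2 b)‖) ^ 2 ≤
      (A.card : ℝ) ^ 2 * E := by
    refine le_trans sq_sum_le_card_mul_sum_sq ?_
    rw [Finset.card_product]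
    push_cast
    rw [← pow_two]
    have h6 : ∑ p ∈ A ×ˢ A, ‖∑ b : Fin t, u p.1 b * starRingEnd ℂ (u p.2 b)‖ ^ 2 ≤ E := by
      refine le_trans ?_ hE
      rw [← Finset.sum_product']
      exact Finset.sum_le_sum_of_subset_of_nonneg
        (Finset.product_subset_product (Finset.subset_univ _) (Finset.subset_univ _))
        (fun _ _ _ => by positivity)
    gcongr
  calc ‖∑ a ∈ A, ∑ b ∈ B, u a b‖ ^ 4 = (‖∑ a ∈ A, ∑ b ∈ B, u a b‖ ^ 2) ^ 2 := by ring
    _ ≤ ((B.card : ℝ) * ∑ b : Fin t, ‖∑ a ∈ A, u a b‖ ^ 2) ^ 2 := by gcongr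
    _ ≤ ((B.card : ℝ) * ∑ p ∈ A ×ˢ A,
          ‖∑ b : Fin t, u p.1 b * starRingEnd ℂ (u p.2 b)‖) ^ 2 := by gcongr
    _ = (B.card : ℝ) ^ 2 * (∑ p ∈ A ×ˢ A,
          ‖∑ b : Fin t, u p.1 b * starRingEnd ℂ (u p.2 b)‖) ^ 2 := by ring
    _ ≤ (B.card : ℝ) ^ 2 * ((A.card : ℝ) ^ 2 * E) := by gcongr
    _ = (A.card : ℝ) ^ 2 * (B.card : ℝ) ^ 2 * E := by ring

theorem fourier_edge {G : Type*} [AddCommGroup G] [Finite G] (H : AddSubgroup G) {k t : ℕ}
    (hk : Nat.card G ≤ k) (hk0 : 0 < k) (ht : 0 < t) (g : Fin t → Fin t → G)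
    (hg : ∀ a b, g a b ∈ H) (A B : Finset (Fin t)) (hA : t ≤ 4 * k * A.card)
    (hB : t ≤ 4 * k * B.card) (c : G) (hc : c ∈ H) (ε4 : ℝ) (hε4 : 256 * (k : ℝ) ^ 8 * ε4 < 1)
    (hC4 : ∀ ψ : AddChar G ℂ, (∃ h ∈ H, ψ h ≠ 1) →
      ∑ a : Fin t, ∑ a' : Fin t, ‖∑ b : Fin t, ψ (g a b) * starRingEnd ℂ (ψ (g a' b))‖ ^ 2 ≤
        ε4 * t ^ 4) :
    ∃ a ∈ A, ∃ b ∈ B, g a b = c := by
  classical
  have : Fintype G := Fintype.ofFinite G
  by_contra hcon
  push Not at hcon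
  have hA0 : 0 < A.card := by
    rcases Nat.eq_zero_or_pos A.card with h | h
    · rw [h] at hA
      omega
    · exact h
  have hB0 : 0 < B.card := by
    rcases Nat.eq_zero_or_pos B.card with h | h
    · rw [h] at hB
      omega
    · exact h
  have hAR : (0 : ℝ) < A.card := by exact_mod_cast hA0
  have hBR : (0 : ℝ) < B.card := by exact_mod_cast hB0
  have hkR : (0 : ℝ) < k := by exact_mod_cast hk0
  have htR : (0 : ℝ) < t := by exact_mod_cast ht
  set X : AddChar G ℂ → ℂ := fun ψ => ∑ a ∈ A, ∑ b ∈ B, ψ (g a b - c) with hX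
  have hsum : ∑ ψ : AddChar G ℂ, X ψ = 0 := by
    rw [hX]
    simp only
    rw [Finset.sum_comm]
    refine Finset.sum_eq_zero (fun a ha => ?_)
    rw [Finset.sum_comm]
    refine Finset.sum_eq_zero (fun b hb => ?_)
    rw [AddChar.sum_apply_eq_ite, if_neg]
    exact sub_ne_zero.2 (hcon a ha b hb)
  have htriv : ∀ ψ : AddChar G ℂ, (¬ ∃ h ∈ H, ψ h ≠ 1) → X ψ = A.card * B.card := by
    intro ψ hψ
    push Not at hψ
    rw [hX]
    simp only
    have h1 : ∀ a b, ψ (g a b - c) = 1 := fun a b => hψ _ (H.sub_mem (hg a b) hc)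
    simp [h1]
  -- a character with a large sum
  have hex : ∃ ψ : AddChar G ℂ, (∃ h ∈ H, ψ h ≠ 1) ∧ (A.card : ℝ) * B.card ≤ k * ‖X ψ‖ := by
    by_contra hno
    push Not at hno
    set P : Finset (AddChar G ℂ) := univ.filter (fun ψ => ∃ h ∈ H, ψ h ≠ 1) with hP
    set Q : Finset (AddChar G ℂ) := univ.filter (fun ψ => ¬ ∃ h ∈ H, ψ h ≠ 1) with hQ
    have h1 : ∑ ψ ∈ P, X ψ + ∑ ψ ∈ Q, X ψ = 0 := by
      rw [← hsum, hP, hQ, Finset.sum_filter_add_sum_filter_not]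
    have h2 : ∑ ψ ∈ Q, X ψ = Q.card * (A.card * B.card) := by
      rw [Finset.sum_congr rfl (fun ψ hψ => htriv ψ (Finset.mem_filter.1 hψ).2),
        Finset.sum_const, nsmul_eq_mul]
    have h3 : ((Q.card * (A.card * B.card) : ℕ) : ℝ) ≤ ∑ ψ ∈ P, ‖X ψ‖ := by
      have h4 : ((Q.card * (A.card * B.card) : ℕ) : ℂ) = - ∑ ψ ∈ P, X ψ := by
        push_cast
        rw [← h2]
        linear_combination h1
      have h5 : ((Q.card * (A.card * B.card) : ℕ) : ℝ) =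
          ‖((Q.card * (A.card * B.card) : ℕ) : ℂ)‖ := by
        rw [Complex.norm_natCast]
      rw [h5, h4, norm_neg]
      exact norm_sum_le _ _
    have h4 : k * ∑ ψ ∈ P, ‖X ψ‖ ≤ P.card * ((A.card : ℝ) * B.card) := by
      rw [Finset.mul_sum, ← nsmul_eq_mul, ← Finset.sum_const]
      refine Finset.sum_le_sum (fun ψ hψ => ?_)
      exact (hno ψ (Finset.mem_filter.1 hψ).2).le
    have h5 : P.card + Q.card = Nat.card G := by
      rw [hP, hQ, Finset.card_filter_add_card_filter_not, Finset.card_univ, AddChar.card_eq,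
        Nat.card_eq_fintype_card]
    have h6 : 0 < Q.card := by
      rw [Finset.card_pos]
      refine ⟨0, ?_⟩
      rw [hQ, Finset.mem_filter]
      refine ⟨Finset.mem_univ _, ?_⟩
      push Not
      intro h _
      simp
    have h7 : (P.card : ℝ) + 1 ≤ k := by
      have : P.card + 1 ≤ k := by omega
      exact_mod_cast this
    have h8 : (1 : ℝ) ≤ Q.card := by exact_mod_cast h6
    have h9 : (0 : ℝ) < A.card * B.card := by positivity
    push_cast at h3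
    have h10 : (k : ℝ) * (A.card * B.card) ≤ P.card * ((A.card : ℝ) * B.card) := by
      refine le_trans ?_ h4
      have : (A.card : ℝ) * B.card ≤ ∑ ψ ∈ P, ‖X ψ‖ := by
        refine le_trans ?_ h3
        exact le_mul_of_one_le_left h9.le h8
      gcongr
    nlinarith
  obtain ⟨ψ, hψ, hbig⟩ := hex
  have h1 : ‖X ψ‖ = ‖∑ a ∈ A, ∑ b ∈ B, ψ (g a b)‖ := by
    have h2 : X ψ = (∑ a ∈ A, ∑ b ∈ B, ψ (g a b)) * ψ (-c) := by
      rw [hX]
      simp only
      rw [Finset.sum_mul]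
      refine Finset.sum_congr rfl (fun a _ => ?_)
      rw [Finset.sum_mul]
      refine Finset.sum_congr rfl (fun b _ => ?_)
      rw [sub_eq_add_neg, AddChar.map_add_eq_mul]
    rw [h2, norm_mul, AddChar.norm_apply, mul_one]
  have h2 := d2s_fourth (fun a b => ψ (g a b)) A B _ (hC4 ψ hψ)
  rw [← h1] at h2
  set a : ℝ := (A.card : ℝ) with ha
  set b : ℝ := (B.card : ℝ) with hb
  have h3 : (a * b) ^ 4 ≤ k ^ 4 * (a ^ 2 * b ^ 2 * (ε4 * t ^ 4)) := by
    calc (a * b) ^ 4 ≤ (k * ‖X ψ‖) ^ 4 := by gcongr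
      _ = k ^ 4 * ‖X ψ‖ ^ 4 := by ring
      _ ≤ k ^ 4 * (a ^ 2 * b ^ 2 * (ε4 * t ^ 4)) := by gcongr
  have h4 : (a * b) ^ 2 ≤ k ^ 4 * (ε4 * t ^ 4) := by
    have h5 : (a * b) ^ 2 * (a * b) ^ 2 ≤ (k ^ 4 * (ε4 * t ^ 4)) * (a * b) ^ 2 := by
      calc (a * b) ^ 2 * (a * b) ^ 2 = (a * b) ^ 4 := by ring
        _ ≤ k ^ 4 * (a ^ 2 * b ^ 2 * (ε4 * t ^ 4)) := h3
        _ = (k ^ 4 * (ε4 * t ^ 4)) * (a * b) ^ 2 := by ring
    exact le_of_mul_le_mul_right h5 (by positivity)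
  have h5 : (t : ℝ) ≤ 4 * k * a := by
    rw [ha]
    exact_mod_cast hA
  have h6 : (t : ℝ) ≤ 4 * k * b := by
    rw [hb]
    exact_mod_cast hB
  have h7 : (t : ℝ) ^ 4 ≤ 256 * k ^ 8 * ε4 * t ^ 4 := by
    calc (t : ℝ) ^ 4 = (t * t) ^ 2 := by ring
      _ ≤ ((4 * k * a) * (4 * k * b)) ^ 2 := by gcongr
      _ = 256 * k ^ 4 * (a * b) ^ 2 := by ring
      _ ≤ 256 * k ^ 4 * (k ^ 4 * (ε4 * t ^ 4)) := by gcongr
      _ = 256 * k ^ 8 * ε4 * t ^ 4 := by ring
  have h8 : (0 : ℝ) < (t : ℝ) ^ 4 := by positivity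
  nlinarith

end Pool.Agent.Lib.MP_fed790_nt.QP
end

section

/-!
# QP C2: summing out edges

Induction on `Q` (`Finset.induction_on`), for all `Φ`… keep `Φ` fixed. `Q = insert p Q'`. Let `z` be
an endpoint of `p` not in `U` (`z = p.1` or `z = p.2`, `p.1 ≠ p.2`). By `sum_update`
`X ∑_x Φ(x) ww_p(x) ∏_{Q'} ww = ∑_x ∑_s Φ(x') ww_p(x') ∏_{Q'} ww(x')`, `x' = update x z s`.
`Φ(x') = Φ(x)`. As a function of `s`: `g(s) = ∏_{p' ∈ Q'} ww_{p'}(update x z s)` is periodic modulo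
`m = ∏_{p' ∈ Q'} ∏_h T p' h` (each `T p' h` divides `m`; changing one coordinate by a multiple of
`T p' h` does not change the divisibility), and
`ww_p(update x z s) = (∑_h if T p h ∣ s - c_h then T p h else 0)/q` with `c_h = x p.1 + κ p h` (if
`z = p.2`) or `c_h = x p.2 - κ p h` (if `z = p.1`: `T ∣ x p.2 - s - κ ↔ T ∣ s - (x p.2 - κ)`).
`m` is coprime to each `T p h` and `m * T p h ∣ ∏_{p' ∈ Q} ∏_h T p' h ∣ X`, so `per_sum` gives
`∑_s g(s) ww_p(…) = ∑_s g(s)` (average over `h`). Hence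
`X ∑_x Φ ∏_Q ww = ∑_x ∑_s Φ(x') ∏_{Q'} ww(x') = X ∑_x Φ ∏_{Q'} ww` (`sum_update` again), and the
induction hypothesis applies (`∏_{p' ∈ Q'} ∏_h T p' h ∣ X`). (`X > 0` may be assumed: if `X = 0`
the box is empty unless `V` is empty; then `Q` is empty.) Note `0 < T p h` is assumed.

`sum_out_real` follows by casting to `ℂ`.
-/

open Finset

namespace Pool.Agent.Lib.MP_fed790_nt.QP


private theorem c2_ww_update {V η : Type*} [DecidableEq V] [Fintype η]
    (T : V × V → η → ℕ) (κ : V × V → η → ℤ) (p : V × V) (hp : p.1 ≠ p.2) (z : V)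
    (hz : z = p.1 ∨ z = p.2) (x : V → ℤ) :
    ∃ c : η → ℤ, ∀ s : ℤ, ww T κ p (Function.update x z s) =
      (∑ h, if (T p h : ℤ) ∣ s - c h then (T p h : ℝ) else 0) / Fintype.card η := by
  rcases hz with hz | hz
  · refine ⟨fun h => x p.2 - κ p h, fun s => ?_⟩
    unfold ww
    congr 1
    apply sum_congr rfl
    intro h _
    rw [hz, Function.update_self, Function.update_of_ne hp.symm]
    have : x p.2 - s - κ p h = -(s - (x p.2 - κ p h)) := by ring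
    rw [this]
    simp only [dvd_neg]
  · refine ⟨fun h => x p.1 + κ p h, fun s => ?_⟩
    unfold ww
    congr 1
    apply sum_congr rfl
    intro h _
    rw [hz, Function.update_self, Function.update_of_ne hp]
    have : s - x p.1 - κ p h = s - (x p.1 + κ p h) := by ring
    rw [this]

private theorem c2_ww_periodic {V η : Type*} [DecidableEq V] [Fintype η]
    (T : V × V → η → ℕ) (κ : V × V → η → ℤ) (p : V × V) (z : V) (x : V → ℤ) (m : ℕ)
    (hm : ∀ h, T p h ∣ m) (s : ℤ) :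
    ww T κ p (Function.update x z (s + m)) = ww T κ p (Function.update x z s) := by
  unfold ww
  congr 1
  apply sum_congr rfl
  intro h _
  have hd : ∀ u : V, (T p h : ℤ) ∣ Function.update x z (s + m) u - Function.update x z s u := by
    intro u
    by_cases hu : u = z
    · subst hu
      rw [Function.update_self, Function.update_self]
      have : s + (m : ℤ) - s = m := by ring
      rw [this]
      exact Int.natCast_dvd_natCast.2 (hm h)
    · rw [Function.update_of_ne hu, Function.update_of_ne hu, sub_self]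
      exact dvd_zero _
  have hdd : (T p h : ℤ) ∣ (Function.update x z (s + m) p.2 - Function.update x z (s + m) p.1 - κ p h)
      - (Function.update x z s p.2 - Function.update x z s p.1 - κ p h) := by
    have h1 := dvd_sub (hd p.2) (hd p.1)
    have h2 : (Function.update x z (s + m) p.2 - Function.update x z (s + m) p.1 - κ p h)
      - (Function.update x z s p.2 - Function.update x z s p.1 - κ p h) =
      (Function.update x z (s + m) p.2 - Function.update x z s p.2) -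
        (Function.update x z (s + m) p.1 - Function.update x z s p.1) := by ring
    rw [h2]
    exact h1
  have hiff : (T p h : ℤ) ∣ (Function.update x z (s + m) p.2 - Function.update x z (s + m) p.1 - κ p h)
      ↔ (T p h : ℤ) ∣ (Function.update x z s p.2 - Function.update x z s p.1 - κ p h) := by
    constructor
    · intro h1
      have := dvd_sub h1 hdd
      rwa [sub_sub_cancel] at this
    · intro h1
      have := dvd_add hdd h1
      rwa [sub_add_cancel] at this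
  simp only [hiff]

private theorem c2_step {V η : Type*} [Fintype V] [DecidableEq V] [Fintype η] [Nonempty η]
    (T : V × V → η → ℕ) (κ : V × V → η → ℤ) (lo : V → ℤ) (X : ℕ) (hX0 : 0 < X) (p : V × V)
    (hp : p.1 ≠ p.2) (z : V) (hz : z = p.1 ∨ z = p.2) (m : ℕ) (hm : 0 < m)
    (hT : ∀ h, 0 < T p h) (hcop : ∀ h, m.Coprime (T p h)) (hX : ∀ h, m * T p h ∣ X)
    (G : (V → ℤ) → ℂ)
    (hG : ∀ x s, G (Function.update x z (s + m)) = G (Function.update x z s)) :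
    ∑ x ∈ bx lo X, G x * ((ww T κ p x : ℝ) : ℂ) = ∑ x ∈ bx lo X, G x := by
  have hXc : (X : ℂ) ≠ 0 := Nat.cast_ne_zero.2 hX0.ne'
  have hη : (Fintype.card η : ℂ) ≠ 0 := Nat.cast_ne_zero.2 Fintype.card_ne_zero
  have key : ∀ x : V → ℤ, ∑ s ∈ Ico (lo z) (lo z + X),
      G (Function.update x z s) * ((ww T κ p (Function.update x z s) : ℝ) : ℂ) =
      ∑ s ∈ Ico (lo z) (lo z + X), G (Function.update x z s) := by
    intro x
    obtain ⟨c, hc⟩ := c2_ww_update T κ p hp z hz x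
    have h1 : ∀ h : η, ∑ s ∈ Ico (lo z) (lo z + X), G (Function.update x z s) *
        (if (T p h : ℤ) ∣ s - c h then (T p h : ℂ) else 0) =
        ∑ s ∈ Ico (lo z) (lo z + X), G (Function.update x z s) := fun h =>
      per_sum (fun s => G (Function.update x z s)) m (T p h) hm (hT h) (hcop h) (hG x) (lo z)
        (c h) X (hX h)
    have h2 : ∀ s : ℤ, ((ww T κ p (Function.update x z s) : ℝ) : ℂ) =
        (∑ h, if (T p h : ℤ) ∣ s - c h then (T p h : ℂ) else 0) / Fintype.card η := by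
      intro s
      rw [hc s]
      push_cast
      congr 1
      apply sum_congr rfl
      intro h _
      split_ifs <;> simp
    calc ∑ s ∈ Ico (lo z) (lo z + X),
        G (Function.update x z s) * ((ww T κ p (Function.update x z s) : ℝ) : ℂ)
        = ∑ s ∈ Ico (lo z) (lo z + X), ∑ h : η, (G (Function.update x z s) *
          (if (T p h : ℤ) ∣ s - c h then (T p h : ℂ) else 0)) / Fintype.card η := by
          apply sum_congr rfl
          intro s _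
          rw [h2 s, ← sum_div, ← mul_sum, mul_div_assoc]
      _ = ∑ h : η, (∑ s ∈ Ico (lo z) (lo z + X), G (Function.update x z s) *
          (if (T p h : ℤ) ∣ s - c h then (T p h : ℂ) else 0)) / Fintype.card η := by
          rw [sum_comm]
          apply sum_congr rfl
          intro h _
          rw [sum_div]
      _ = ∑ h : η, (∑ s ∈ Ico (lo z) (lo z + X), G (Function.update x z s)) / Fintype.card η := by
          apply sum_congr rfl
          intro h _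
          rw [h1 h]
      _ = ∑ s ∈ Ico (lo z) (lo z + X), G (Function.update x z s) := by
          rw [sum_const, card_univ, nsmul_eq_mul]
          field_simp
  have e1 := sum_update lo X z (fun x => G x * ((ww T κ p x : ℝ) : ℂ))
  have e2 := sum_update lo X z G
  have e3 : (X : ℂ) * ∑ x ∈ bx lo X, G x * ((ww T κ p x : ℝ) : ℂ) =
      (X : ℂ) * ∑ x ∈ bx lo X, G x := by
    rw [← e1, ← e2]
    apply sum_congr rfl
    intro x _
    exact key x
  exact mul_left_cancel₀ hXc e3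

theorem sum_out {V η : Type*} [Fintype V] [DecidableEq V] [Fintype η] [Nonempty η]
    (T : V × V → η → ℕ) (κ : V × V → η → ℤ) (lo : V → ℤ) (X : ℕ) (Q : Finset (V × V))
    (U : Finset V) (hT : ∀ p ∈ Q, ∀ h, 0 < T p h)
    (hQ : ∀ p ∈ Q, p.1 ≠ p.2 ∧ (p.1 ∉ U ∨ p.2 ∉ U))
    (hcop : ∀ p ∈ Q, ∀ p' ∈ Q, p ≠ p' → ∀ h h', (T p h).Coprime (T p' h'))
    (hX : ∏ p ∈ Q, ∏ h, T p h ∣ X) (Φ : (V → ℤ) → ℂ)
    (hΦ : ∀ x x' : V → ℤ, (∀ u ∈ U, x u = x' u) → Φ x = Φ x') :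
    ∑ x ∈ bx lo X, Φ x * ∏ p ∈ Q, ((ww T κ p x : ℝ) : ℂ) = ∑ x ∈ bx lo X, Φ x := by
  classical
  induction Q using Finset.induction_on with
  | empty => simp
  | insert p Q' hpQ ih =>
    have ih' := ih (fun p' hp' => hT p' (mem_insert_of_mem hp'))
      (fun p' hp' => hQ p' (mem_insert_of_mem hp'))
      (fun p' hp' p'' hp'' => hcop p' (mem_insert_of_mem hp') p'' (mem_insert_of_mem hp''))
      (by
        rw [prod_insert hpQ] at hX
        exact dvd_of_mul_left_dvd hX)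
    rw [← ih']
    rcases Nat.eq_zero_or_pos X with hX0 | hX0
    · subst hX0
      have hem : bx lo 0 = ∅ := by
        apply Finset.eq_empty_of_forall_notMem
        intro f hf
        unfold bx at hf
        rw [Fintype.mem_piFinset] at hf
        have := hf p.1
        simp at this
      rw [hem]
      simp
    have hp := (hQ p (mem_insert_self _ _)).1
    obtain ⟨z, hz, hzU⟩ : ∃ z, (z = p.1 ∨ z = p.2) ∧ z ∉ U := by
      rcases (hQ p (mem_insert_self _ _)).2 with h | h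
      · exact ⟨p.1, Or.inl rfl, h⟩
      · exact ⟨p.2, Or.inr rfl, h⟩
    set m : ℕ := ∏ p' ∈ Q', ∏ h, T p' h with hm
    have hmpos : 0 < m := prod_pos fun p' hp' => prod_pos fun h _ =>
      hT p' (mem_insert_of_mem hp') h
    have hcopm : ∀ h, m.Coprime (T p h) := by
      intro h
      apply Nat.Coprime.prod_left
      intro p' hp'
      apply Nat.Coprime.prod_left
      intro h' _
      apply hcop p' (mem_insert_of_mem hp') p (mem_insert_self _ _)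
      rintro rfl
      exact hpQ hp'
    have hXm : ∀ h, m * T p h ∣ X := by
      intro h
      refine dvd_trans ?_ hX
      rw [prod_insert hpQ, mul_comm m]
      exact Nat.mul_dvd_mul (dvd_prod_of_mem _ (mem_univ h)) dvd_rfl
    have hst := c2_step T κ lo X hX0 p hp z hz m hmpos (hT p (mem_insert_self _ _)) hcopm hXm
      (fun x => Φ x * ∏ p' ∈ Q', ((ww T κ p' x : ℝ) : ℂ)) (by
        intro x s
        have h1 : Φ (Function.update x z (s + m)) = Φ (Function.update x z s) := by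
          apply hΦ
          intro u hu
          have huz : u ≠ z := by
            rintro rfl
            exact hzU hu
          rw [Function.update_of_ne huz, Function.update_of_ne huz]
        have h2 : ∀ p' ∈ Q', ww T κ p' (Function.update x z (s + m)) =
            ww T κ p' (Function.update x z s) := by
          intro p' hp'
          apply c2_ww_periodic
          intro h
          exact dvd_trans (dvd_prod_of_mem (fun h => T p' h) (mem_univ h))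
            (dvd_prod_of_mem (fun p' => ∏ h, T p' h) hp')
        show Φ (Function.update x z (s + m)) *
            ∏ p' ∈ Q', ((ww T κ p' (Function.update x z (s + m)) : ℝ) : ℂ) =
          Φ (Function.update x z s) *
            ∏ p' ∈ Q', ((ww T κ p' (Function.update x z s) : ℝ) : ℂ)
        rw [h1]
        congr 1
        apply prod_congr rfl
        intro p' hp'
        rw [h2 p' hp'])
    rw [← hst]
    apply sum_congr rfl
    intro x _
    rw [prod_insert hpQ]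
    ring

theorem sum_out_real {V η : Type*} [Fintype V] [DecidableEq V] [Fintype η] [Nonempty η]
    (T : V × V → η → ℕ) (κ : V × V → η → ℤ) (lo : V → ℤ) (X : ℕ) (Q : Finset (V × V))
    (U : Finset V) (hT : ∀ p ∈ Q, ∀ h, 0 < T p h)
    (hQ : ∀ p ∈ Q, p.1 ≠ p.2 ∧ (p.1 ∉ U ∨ p.2 ∉ U))
    (hcop : ∀ p ∈ Q, ∀ p' ∈ Q, p ≠ p' → ∀ h h', (T p h).Coprime (T p' h'))
    (hX : ∏ p ∈ Q, ∏ h, T p h ∣ X) (Φ : (V → ℤ) → ℝ)
    (hΦ : ∀ x x' : V → ℤ, (∀ u ∈ U, x u = x' u) → Φ x = Φ x') :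
    ∑ x ∈ bx lo X, Φ x * ∏ p ∈ Q, ww T κ p x = ∑ x ∈ bx lo X, Φ x := by
  have h := sum_out T κ lo X Q U hT hQ hcop hX (fun x => ((Φ x : ℝ) : ℂ)) (by
    intro x x' hxx
    simp only [hΦ x x' hxx])
  have h2 : ((∑ x ∈ bx lo X, Φ x * ∏ p ∈ Q, ww T κ p x : ℝ) : ℂ) =
      ((∑ x ∈ bx lo X, Φ x : ℝ) : ℂ) := by
    push_cast
    exact h
  exact Complex.ofReal_injective h2

end Pool.Agent.Lib.MP_fed790_nt.QP
end

section

/-!
# QP D1: the choice of `n`

`x` is a point of the box; `e_p = ee W p x > 0`; `aV u = W^(S-1-i) + W^S x_u` (`u = (i,·)`).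

**`aV_sub`.** For `p = (u,v) ∈ Pr`, `i < j`: `aV v - aV u = W^(S-1-j) e_p`: indeed
`(S-1-j) + (j-i) = S-1-i` and `(S-1-j) + (j+1) = S`.

**`exists_n0`** (Chinese remainder). The moduli `W^S` and `|e_p|` (`p ∈ Pr`) are pairwise coprime
(`e_p ≡ 1 mod W`). So there is `n0 : ℕ`, `n0 < W^S ∏ |e_p|`, with `n0 ≡ 0 mod W^S` and
`n0 ≡ - aV (p.1) mod e_p` for all `p ∈ Pr` (e.g. `Nat.chineseRemainderOfFinset` on
`Option`-indexed moduli, or induction over the finset with `Int`/`Nat` CRT; then reduce modulo the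
product). As `aV p.2 - aV p.1` is divisible by `e_p`, also `e_p ∣ n0 + aV p.2`.
-/

open Finset

namespace Pool.Agent.Lib.MP_fed790_nt.QP

/-- The numbers `a_u`. -/
def aV {S t : ℕ} (W : ℕ) (x : Ve S t → ℤ) (u : Ve S t) : ℤ :=
  (W : ℤ) ^ (S - 1 - (u.1 : ℕ)) + (W : ℤ) ^ S * x u

theorem aV_sub {S t : ℕ} (W : ℕ) (x : Ve S t → ℤ) {p : Ve S t × Ve S t} (hp : p ∈ Pr S t) :
    aV W x p.2 - aV W x p.1 = (W : ℤ) ^ (S - 1 - (p.2.1 : ℕ)) * ee W p x := by
  have hp' : p.1.1 < p.2.1 := by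
    rw [Pr, Finset.mem_filter] at hp
    exact hp.2
  have h1 : (p.1.1 : ℕ) < (p.2.1 : ℕ) := hp'
  have h2 : (p.2.1 : ℕ) < S := p.2.1.isLt
  have e1 : (W : ℤ) ^ (S - 1 - (p.1.1 : ℕ)) =
      (W : ℤ) ^ (S - 1 - (p.2.1 : ℕ)) * (W : ℤ) ^ ((p.2.1 : ℕ) - (p.1.1 : ℕ)) := by
    rw [← pow_add]
    congr 1
    omega
  have e2 : (W : ℤ) ^ S =
      (W : ℤ) ^ (S - 1 - (p.2.1 : ℕ)) * (W : ℤ) ^ ((p.2.1 : ℕ) + 1) := by
    rw [← pow_add]
    congr 1
    omega
  simp only [aV, ee]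
  rw [e1, e2]
  ring

private theorem d1_cop {S t W : ℕ} (x : Ve S t → ℤ) {p : Ve S t × Ve S t} (hp : p ∈ Pr S t) :
    Nat.Coprime (W ^ S) (ee W p x).natAbs := by
  apply Nat.Coprime.pow_left
  have hp' : p.1.1 < p.2.1 := by
    rw [Pr, Finset.mem_filter] at hp
    exact hp.2
  have h1 : (p.1.1 : ℕ) < (p.2.1 : ℕ) := hp'
  have h2 : IsCoprime (W : ℤ) (ee W p x) := by
    refine ⟨(W : ℤ) ^ ((p.2.1 : ℕ) - p.1.1 - 1) - (W : ℤ) ^ (p.2.1 : ℕ) * (x p.2 - x p.1), 1, ?_⟩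
    have e1 : (W : ℤ) ^ ((p.2.1 : ℕ) - (p.1.1 : ℕ)) =
        (W : ℤ) ^ ((p.2.1 : ℕ) - (p.1.1 : ℕ) - 1) * W := by
      rw [← pow_succ]
      congr 1
      omega
    simp only [ee]
    rw [e1]
    ring
  have h3 := Int.isCoprime_iff_gcd_eq_one.mp h2
  rw [Int.gcd, Int.natAbs_natCast] at h3
  exact h3

theorem exists_n0 {S t W : ℕ} (hW : 2 ≤ W) (x : Ve S t → ℤ)
    (hpos : ∀ p ∈ Pr S t, 0 < ee W p x)
    (hcop : ∀ p ∈ Pr S t, ∀ p' ∈ Pr S t, p ≠ p' →
      (ee W p x).natAbs.Coprime (ee W p' x).natAbs) :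
    ∃ n0 : ℕ, n0 < W ^ S * ∏ p ∈ Pr S t, (ee W p x).natAbs ∧ W ^ S ∣ n0 ∧
      ∀ p ∈ Pr S t, ee W p x ∣ n0 + aV W x p.1 ∧ ee W p x ∣ n0 + aV W x p.2 := by
  classical
  have hne : ∀ p ∈ Pr S t, (ee W p x).natAbs ≠ 0 := by
    intro p hp h
    have := hpos p hp
    omega
  obtain ⟨n1, hn1⟩ := Nat.chineseRemainderOfFinset
    (fun p : Ve S t × Ve S t => ((-aV W x p.1) % (ee W p x)).toNat)
    (fun p => (ee W p x).natAbs) (Pr S t) hne
    (fun p hp p' hp' h => hcop p hp p' hp' h)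
  have hprod : (∏ p ∈ Pr S t, (ee W p x).natAbs) ≠ 0 := Finset.prod_ne_zero_iff.mpr hne
  have hW0 : W ^ S ≠ 0 := pow_ne_zero _ (by omega)
  have hco : Nat.Coprime (W ^ S) (∏ p ∈ Pr S t, (ee W p x).natAbs) :=
    Nat.Coprime.prod_right fun p hp => d1_cop x hp
  have hlt := Nat.chineseRemainder_lt_mul hco 0 n1 hW0 hprod
  obtain ⟨n0, hn0⟩ : ∃ n0 : ℕ, n0 = (Nat.chineseRemainder hco 0 n1 : ℕ) := ⟨_, rfl⟩
  have ha := (Nat.chineseRemainder hco 0 n1).2.1
  have hb := (Nat.chineseRemainder hco 0 n1).2.2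
  rw [← hn0] at hlt
  have ha' : n0 ≡ 0 [MOD W ^ S] := by rw [hn0]; exact ha
  have hb' : n0 ≡ n1 [MOD ∏ p ∈ Pr S t, (ee W p x).natAbs] := by rw [hn0]; exact hb
  refine ⟨n0, hlt, (Nat.modEq_zero_iff_dvd).mp ha', fun p hp => ?_⟩
  have h1 : n0 ≡ n1 [MOD (ee W p x).natAbs] :=
    hb'.of_dvd (Finset.dvd_prod_of_mem (fun p => (ee W p x).natAbs) hp)
  have h2 := h1.trans (hn1 p hp)
  have hp0 := hpos p hp
  have h3 : ee W p x ∣ (n0 : ℤ) - ((-aV W x p.1) % (ee W p x)) := by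
    have h4 := (Nat.modEq_iff_dvd.mp h2.symm)
    have h5 : (((ee W p x).natAbs : ℕ) : ℤ) = ee W p x := Int.natAbs_of_nonneg hp0.le
    rw [h5] at h4
    have h6 : ((((-aV W x p.1) % (ee W p x)).toNat : ℕ) : ℤ) = (-aV W x p.1) % (ee W p x) :=
      Int.toNat_of_nonneg (Int.emod_nonneg _ hp0.ne')
    rw [h6] at h4
    exact h4
  have h7 : ee W p x ∣ (n0 : ℤ) + aV W x p.1 := by
    have h8 : ee W p x ∣ (-aV W x p.1) - ((-aV W x p.1) % (ee W p x)) :=
      Int.dvd_self_sub_emod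
    have h9 := dvd_sub h3 h8
    have : (n0 : ℤ) + aV W x p.1 = (n0 : ℤ) - ((-aV W x p.1) % (ee W p x)) -
        ((-aV W x p.1) - ((-aV W x p.1) % (ee W p x))) := by ring
    rw [this]
    exact h9
  refine ⟨h7, ?_⟩
  have h10 : ee W p x ∣ aV W x p.2 - aV W x p.1 := by
    rw [aV_sub W x hp]
    exact Dvd.intro_left _ rfl
  have : (n0 : ℤ) + aV W x p.2 = ((n0 : ℤ) + aV W x p.1) + (aV W x p.2 - aV W x p.1) := by ring
  rw [this]
  exact dvd_add h7 h10

end Pool.Agent.Lib.MP_fed790_nt.QP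
end

section

/-!
# QP D1s: the progressions

**`progression`.** For each vertex `u` let `D_u = W^(S-1-i) ∏_{p ∈ Pr, u ∈ p} |e_p|` (`u ∈ p` means
`p.1 = u ∨ p.2 = u`), `E' = W^S ∏_{p ∈ Pr} |e_p|`. `D_u ∣ n0 + aV u` (pairwise coprime factors; the
power of `W`: `W^S ∣ n0`, and `W^(S-1-i) ∣ aV u`), `D_u ∣ E'`. Put `A_u = (n0 + aV u)/D_u > 0`,
`B_u = E'/D_u = W^(i+1) ∏_{p ∌ u} |e_p|`. Then `n0 + E' ν + aV u = D_u (A_u + B_u ν)`.
* `A_u ≡ 1 mod W`: `(n0 + aV u)/W^(S-1-i) = 1 + W^(i+1) (x_u + n0/W^S) ≡ 1 mod W` and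
  `∏ |e_p| ≡ 1 mod W`.
* `gcd(A_u, B_u) = 1`: let the prime `ℓ` divide both. If `ℓ ∣ W`: contradiction to
  `A_u ≡ 1 mod W`. Otherwise `ℓ ∣ e_p` for some `p = (u',v') ∌ u`, so `ℓ ∣ n0 + aV u'`,
  `ℓ ∣ n0 + aV v'` and `ℓ ∣ n0 + aV u` (as `ℓ ∣ A_u`). One of `u', v'` is on a level different from
  that of `u`, say `w'`; then `ℓ ∣ aV u - aV w' = ± W^(..) e_{p'}`, where `p' ∈ Pr` is the edge
  joining `u` and `w'`, `p' ≠ p` (as `u ∉ p`); `ℓ ∤ W`, so `ℓ ∣ e_{p'}` and `ℓ ∣ e_p`, contradicting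
  the coprimality.
* `f (n0 + E' ν + aV u) = f (D_u) + f (A_u + B_u ν)`, and `f (D_u) = (S-1-i) • f W + ∑ f |e_p| ∈ H`
  (`f W = 0`). So `f (n0 + E' ν + aV u) ∉ H ↔ f (A_u + B_u ν) ∉ H`, and `RareAP` (with `A_u`, `B_u`,
  `W ∣ B_u`; `A_u + B_u Z ≤ n0 + aV u + E' Z ≤ N'`) bounds the number of such `ν`.
-/

open Finset

namespace Pool.Agent.Lib.MP_fed790_nt.QP

private theorem ee_modEq {S t W : ℕ} (x : Ve S t → ℤ) {p : Ve S t × Ve S t} (hp : p ∈ Pr S t) :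
    ee W p x ≡ 1 [ZMOD W] := by
  have h1 : p.1.1 < p.2.1 := by
    unfold Pr at hp
    exact (mem_filter.1 hp).2
  have h1' : (p.1.1 : ℕ) < p.2.1 := h1
  have h2 : (W : ℤ) ∣ (W : ℤ) ^ ((p.2.1 : ℕ) - p.1.1) := dvd_pow_self _ (by omega)
  have h3 : (W : ℤ) ∣ (W : ℤ) ^ ((p.2.1 : ℕ) + 1) * (x p.2 - x p.1) :=
    Dvd.dvd.mul_right (dvd_pow_self _ (by omega)) _
  rw [Int.modEq_comm, Int.modEq_iff_dvd]
  unfold ee
  have h4 : (1 - (W : ℤ) ^ ((p.2.1 : ℕ) - p.1.1) + (W : ℤ) ^ ((p.2.1 : ℕ) + 1) *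
      (x p.2 - x p.1)) - 1 = (W : ℤ) ^ ((p.2.1 : ℕ) + 1) * (x p.2 - x p.1) -
      (W : ℤ) ^ ((p.2.1 : ℕ) - p.1.1) := by ring
  rw [h4]
  exact dvd_sub h3 h2

private theorem prod_modEq_one {ι : Type*} (s : Finset ι) (g : ι → ℤ) (W : ℕ)
    (h : ∀ i ∈ s, g i ≡ 1 [ZMOD W]) : ∏ i ∈ s, g i ≡ 1 [ZMOD W] := by
  classical
  induction s using Finset.induction_on with
  | empty => exact Int.ModEq.refl _
  | insert a s ha ih =>
    rw [prod_insert ha]
    have h1 := (h a (mem_insert_self _ _)).mul (ih fun i hi => h i (mem_insert_of_mem hi))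
    rwa [mul_one] at h1

open Classical in
/-- `progression` with the filter over the natural numbers `ν < Z`. -/
theorem progression_nat {G : Type*} [AddCommGroup G] {f : ℕ → G} (hf : CAdd f) {H : AddSubgroup G}
    {S t W N' Z n0 : ℕ} {ρ c1 : ℝ} (hS : 1 ≤ S) (hW : 2 ≤ W) (hfW : f W = 0)
    (hrare : RareAP f H W ρ c1 N') (x : Ve S t → ℤ) (hx : ∀ u, 0 ≤ x u)
    (hpos : ∀ p ∈ Pr S t, 0 < ee W p x) (hfe : ∀ p ∈ Pr S t, f (ee W p x).natAbs ∈ H)
    (hcop : ∀ p ∈ Pr S t, ∀ p' ∈ Pr S t, p ≠ p' →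
      (ee W p x).natAbs.Coprime (ee W p' x).natAbs)
    (hn0 : W ^ S ∣ n0)
    (hn0' : ∀ p ∈ Pr S t, ee W p x ∣ n0 + aV W x p.1 ∧ ee W p x ∣ n0 + aV W x p.2)
    (u : Ve S t)
    (hN : (n0 : ℤ) + aV W x u + (W ^ S * ∏ p ∈ Pr S t, (ee W p x).natAbs : ℕ) * Z ≤ N') :
    (((range Z).filter (fun ν : ℕ => f ((n0 : ℤ) + aV W x u +
      (W ^ S * ∏ p ∈ Pr S t, (ee W p x).natAbs : ℕ) * ν).natAbs ∉ H)).card : ℝ) ≤
      ρ * Z + c1 := by
  obtain ⟨i, hi⟩ : ∃ i : ℕ, i = (u.1 : ℕ) := ⟨_, rfl⟩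
  have hiS : i < S := by rw [hi]; exact u.1.2
  obtain ⟨E, hE⟩ : ∃ E : Ve S t × Ve S t → ℕ, E = fun p => (ee W p x).natAbs := ⟨_, rfl⟩
  have hEp : ∀ p, (ee W p x).natAbs = E p := fun p => by rw [hE]
  simp only [hEp] at hfe hcop hN ⊢
  have hEZ : ∀ p ∈ Pr S t, (E p : ℤ) = ee W p x := by
    intro p hp
    rw [hE]
    exact Int.natAbs_of_nonneg (hpos p hp).le
  have hE0 : ∀ p ∈ Pr S t, 0 < E p := by
    intro p hp
    have h1 := hpos p hp
    rw [← hEZ p hp] at h1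
    exact_mod_cast h1
  obtain ⟨P1, hP1⟩ : ∃ P1, P1 = (Pr S t).filter (fun p => p.1 = u ∨ p.2 = u) := ⟨_, rfl⟩
  obtain ⟨P0, hP0⟩ : ∃ P0, P0 = (Pr S t).filter (fun p => ¬ (p.1 = u ∨ p.2 = u)) := ⟨_, rfl⟩
  have hP1s : ∀ p ∈ P1, p ∈ Pr S t ∧ (p.1 = u ∨ p.2 = u) := by
    intro p hp
    rw [hP1] at hp
    exact mem_filter.1 hp
  have hP0s : ∀ p ∈ P0, p ∈ Pr S t ∧ ¬ (p.1 = u ∨ p.2 = u) := by
    intro p hp
    rw [hP0] at hp
    exact mem_filter.1 hp
  have hprod : ∏ p ∈ Pr S t, E p = (∏ p ∈ P1, E p) * ∏ p ∈ P0, E p := by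
    rw [hP1, hP0, prod_filter_mul_prod_filter_not]
  obtain ⟨R₁, hR₁⟩ : ∃ a, a = ∏ p ∈ P1, E p := ⟨_, rfl⟩
  obtain ⟨R₀, hR₀⟩ : ∃ a, a = ∏ p ∈ P0, E p := ⟨_, rfl⟩
  rw [← hR₁, ← hR₀] at hprod
  have hW0 : 0 < W := by omega
  obtain ⟨D, hD⟩ : ∃ D, D = W ^ (S - 1 - i) * R₁ := ⟨_, rfl⟩
  obtain ⟨B, hB⟩ : ∃ B, B = W ^ (i + 1) * R₀ := ⟨_, rfl⟩
  have hpowS : W ^ S = W ^ (S - 1 - i) * W ^ (i + 1) := by
    rw [← pow_add]
    congr 1
    omega
  have hDB : W ^ S * ∏ p ∈ Pr S t, E p = D * B := by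
    rw [hprod, hpowS, hD, hB]
    ring
  rw [hDB] at hN ⊢
  have hR₁0 : 0 < R₁ := by
    rw [hR₁]
    exact prod_pos fun p hp => hE0 p (hP1s p hp).1
  have hR₀0 : 0 < R₀ := by
    rw [hR₀]
    exact prod_pos fun p hp => hE0 p (hP0s p hp).1
  have hD0 : 0 < D := by rw [hD]; positivity
  have hB0 : 0 < B := by rw [hB]; positivity
  -- `nu = n0 + aV u`
  have haV : aV W x u = (W : ℤ) ^ (S - 1 - i) + (W : ℤ) ^ S * x u := by
    rw [hi]
    rfl
  have haV0 : 0 < aV W x u := by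
    rw [haV]
    have h1 : (0 : ℤ) < (W : ℤ) ^ (S - 1 - i) := by positivity
    have h2 : (0 : ℤ) ≤ (W : ℤ) ^ S * x u := mul_nonneg (by positivity) (hx u)
    linarith
  obtain ⟨nu, hnu⟩ : ∃ nu : ℕ, (nu : ℤ) = (n0 : ℤ) + aV W x u := by
    refine ⟨((n0 : ℤ) + aV W x u).toNat, Int.toNat_of_nonneg ?_⟩
    have : (0 : ℤ) ≤ n0 := Int.natCast_nonneg _
    linarith
  obtain ⟨n1, hn1⟩ := hn0
  -- the quotient by the power of `W`
  have hc : (nu : ℤ) = (W : ℤ) ^ (S - 1 - i) * (1 + (W : ℤ) ^ (i + 1) * (n1 + x u)) := by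
    rw [hnu, haV, hn1]
    have h1 : ((W ^ S : ℕ) : ℤ) = (W : ℤ) ^ (S - 1 - i) * (W : ℤ) ^ (i + 1) := by
      rw [hpowS]
      push_cast
      ring
    have h2 : (W : ℤ) ^ S = (W : ℤ) ^ (S - 1 - i) * (W : ℤ) ^ (i + 1) := by
      rw [← h1]
      push_cast
      ring
    rw [Nat.cast_mul, h1, h2]
    ring
  -- the edges at `u`
  have hcW : ∀ p ∈ Pr S t, (E p).Coprime W := by
    intro p hp
    have h1 := ee_modEq (W := W) x hp
    rw [← hEZ p hp] at h1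
    have h2 : E p ≡ 1 [MOD W] := by
      have h3 : ((E p : ℕ) : ℤ) ≡ ((1 : ℕ) : ℤ) [ZMOD W] := by exact_mod_cast h1
      exact (Int.natCast_modEq_iff).1 h3
    have h3 := h2.gcd_eq
    rw [Nat.gcd_one_left] at h3
    exact h3
  have hR₁W : R₁.Coprime W := by
    rw [hR₁]
    exact Nat.Coprime.prod_left fun p hp => hcW p (hP1s p hp).1
  have hR₁nu : R₁ ∣ nu := by
    rw [hR₁]
    refine Finset.prod_dvd_of_isRelPrime ?_ ?_
    · intro p hp q hq hne
      exact Nat.coprime_iff_isRelPrime.1 (hcop p (hP1s p hp).1 q (hP1s q hq).1 hne)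
    · intro p hp
      obtain ⟨hp1, hp2⟩ := hP1s p hp
      have h1 : (E p : ℤ) ∣ nu := by
        rw [hEZ p hp1, hnu]
        rcases hp2 with h | h
        · rw [← h]; exact (hn0' p hp1).1
        · rw [← h]; exact (hn0' p hp1).2
      exact_mod_cast h1
  have hDnu : D ∣ nu := by
    rw [hD]
    refine Nat.Coprime.mul_dvd_of_dvd_of_dvd (Nat.Coprime.pow_left _ hR₁W.symm) ?_ hR₁nu
    have h1 : ((W ^ (S - 1 - i) : ℕ) : ℤ) ∣ nu := by
      rw [hc]
      push_cast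
      exact dvd_mul_right _ _
    exact_mod_cast h1
  obtain ⟨A, hA⟩ := hDnu
  have hnu0 : 0 < nu := by
    have h1 : (0 : ℤ) < nu := by
      rw [hnu]
      have : (0 : ℤ) ≤ n0 := Int.natCast_nonneg _
      linarith
    exact_mod_cast h1
  have hA0 : 0 < A := by
    rcases Nat.eq_zero_or_pos A with h | h
    · rw [h, mul_zero] at hA
      omega
    · exact h
  -- `A ≡ 1 mod W`
  have hRA : (R₁ : ℤ) * A = 1 + (W : ℤ) ^ (i + 1) * (n1 + x u) := by
    have h1 : (W : ℤ) ^ (S - 1 - i) * ((R₁ : ℤ) * A) =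
        (W : ℤ) ^ (S - 1 - i) * (1 + (W : ℤ) ^ (i + 1) * (n1 + x u)) := by
      rw [← hc, hA, hD]
      push_cast
      ring
    exact mul_left_cancel₀ (by positivity) h1
  have hAW : A ≡ 1 [MOD W] := by
    have h1 : (R₁ : ℤ) ≡ 1 [ZMOD W] := by
      rw [hR₁, Nat.cast_prod]
      refine prod_modEq_one _ _ _ fun p hp => ?_
      rw [hEZ p (hP1s p hp).1]
      exact ee_modEq x (hP1s p hp).1
    have h2 : (R₁ : ℤ) * A ≡ 1 * A [ZMOD W] := h1.mul_right _
    rw [hRA, one_mul] at h2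
    have h3 : 1 + (W : ℤ) ^ (i + 1) * (n1 + x u) ≡ 1 [ZMOD W] := by
      rw [Int.modEq_comm, Int.modEq_iff_dvd, add_sub_cancel_left]
      exact Dvd.dvd.mul_right (dvd_pow_self _ (by omega)) _
    have h4 : (A : ℤ) ≡ ((1 : ℕ) : ℤ) [ZMOD W] := by
      rw [Nat.cast_one]
      exact h2.symm.trans h3
    exact (Int.natCast_modEq_iff).1 h4
  have hcAW : A.Coprime W := by
    have h3 := hAW.gcd_eq
    rw [Nat.gcd_one_left] at h3
    exact h3
  -- coprimality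
  have hcAB : A.Coprime B := by
    rw [hB]
    refine Nat.Coprime.mul_right (hcAW.pow_right _) ?_
    rw [hR₀]
    refine Nat.Coprime.prod_right fun p hp => ?_
    obtain ⟨hp1, hp2⟩ := hP0s p hp
    refine Nat.coprime_of_dvd fun ℓ hℓ hℓA hℓE => ?_
    have hℓW : ¬ ℓ ∣ W := by
      intro h
      have h1 := Nat.dvd_gcd hℓA h
      rw [hcAW] at h1
      exact hℓ.one_lt.ne' (Nat.dvd_one.1 h1)
    have hℓu : (ℓ : ℤ) ∣ (n0 : ℤ) + aV W x u := by
      rw [← hnu]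
      have h1 : ℓ ∣ nu := by rw [hA]; exact Dvd.dvd.mul_left hℓA _
      exact_mod_cast h1
    have hℓe : (ℓ : ℤ) ∣ ee W p x := by
      rw [← hEZ p hp1]
      exact_mod_cast hℓE
    have hlev : (p.1.1 : ℕ) < p.2.1 := by
      have hp1' := hp1
      unfold Pr at hp1'
      exact (mem_filter.1 hp1').2
    -- a vertex of `p` on another level
    obtain ⟨w, hw1, hw2⟩ : ∃ w : Ve S t, (ℓ : ℤ) ∣ (n0 : ℤ) + aV W x w ∧ (w.1 : ℕ) ≠ u.1 := by
      by_cases h : (p.1.1 : ℕ) = u.1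
      · exact ⟨p.2, hℓe.trans (hn0' p hp1).2, by omega⟩
      · exact ⟨p.1, hℓe.trans (hn0' p hp1).1, h⟩
    obtain ⟨p', hp', hu', hdiv⟩ : ∃ p' ∈ Pr S t, (p'.1 = u ∨ p'.2 = u) ∧
        (ℓ : ℤ) ∣ aV W x p'.2 - aV W x p'.1 := by
      rcases Nat.lt_or_gt_of_ne hw2 with h | h
      · refine ⟨(w, u), ?_, Or.inr rfl, ?_⟩
        · unfold Pr
          exact mem_filter.2 ⟨mem_univ _, h⟩
        · have h1 := dvd_sub hℓu hw1
          have h2 : (n0 : ℤ) + aV W x u - (n0 + aV W x w) = aV W x u - aV W x w := by ring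
          rwa [h2] at h1
      · refine ⟨(u, w), ?_, Or.inl rfl, ?_⟩
        · unfold Pr
          exact mem_filter.2 ⟨mem_univ _, h⟩
        · have h1 := dvd_sub hw1 hℓu
          have h2 : (n0 : ℤ) + aV W x w - (n0 + aV W x u) = aV W x w - aV W x u := by ring
          rwa [h2] at h1
    rw [aV_sub W x hp'] at hdiv
    have hℓZ : Prime (ℓ : ℤ) := Nat.prime_iff_prime_int.1 hℓ
    have hℓe' : (ℓ : ℤ) ∣ ee W p' x := by
      rcases hℓZ.dvd_or_dvd hdiv with h | h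
      · exfalso
        apply hℓW
        have h1 := hℓZ.dvd_of_dvd_pow h
        exact_mod_cast h1
      · exact h
    have hne : p ≠ p' := by
      rintro rfl
      exact hp2 hu'
    have h1 := hcop p hp1 p' hp' hne
    have h2 : ℓ ∣ E p' := by
      rw [← hEZ p' hp'] at hℓe'
      exact_mod_cast hℓe'
    have h3 := Nat.dvd_gcd hℓE h2
    rw [h1] at h3
    exact hℓ.one_lt.ne' (Nat.dvd_one.1 h3)
  have hWB : W ∣ B := by
    rw [hB]
    exact Dvd.dvd.mul_right (dvd_pow_self _ (by omega)) _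
  -- the size
  have hAB : A + B * Z ≤ N' := by
    have h1 : D * (A + B * Z) ≤ N' := by
      have h2 : ((D * (A + B * Z) : ℕ) : ℤ) ≤ N' := by
        have h3 : ((D * (A + B * Z) : ℕ) : ℤ) = (n0 : ℤ) + aV W x u + (D * B : ℕ) * Z := by
          rw [← hnu, hA]
          push_cast
          ring
        rw [h3]
        exact hN
      exact_mod_cast h2
    exact (Nat.le_mul_of_pos_left _ hD0).trans h1
  -- the colours
  have hfD : f D ∈ H := by
    rw [hD, hf _ _ (by positivity) hR₁0, cadd_pow hf W _ hW0, hfW, smul_zero, zero_add, hR₁,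
      cadd_prod hf P1 E fun p hp => hE0 p (hP1s p hp).1]
    exact H.sum_mem fun p hp => hfe p (hP1s p hp).1
  have hrw : ∀ ν : ℕ, f ((n0 : ℤ) + aV W x u + (D * B : ℕ) * ν).natAbs ∉ H ↔
      f (A + B * ν) ∉ H := by
    intro ν
    have h1 : ((n0 : ℤ) + aV W x u + (D * B : ℕ) * ν).natAbs = D * (A + B * ν) := by
      have h2 : (n0 : ℤ) + aV W x u + (D * B : ℕ) * ν = ((D * (A + B * ν) : ℕ) : ℤ) := by
        rw [← hnu, hA]
        push_cast
        ring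
      rw [h2, Int.natAbs_natCast]
    rw [h1, hf D _ hD0 (by omega), not_iff_not]
    exact H.add_mem_cancel_left hfD
  have hfil : (range Z).filter (fun ν : ℕ => f ((n0 : ℤ) + aV W x u +
      (D * B : ℕ) * ν).natAbs ∉ H) = (range Z).filter (fun ν => f (A + B * ν) ∉ H) :=
    filter_congr fun ν _ => hrw ν
  rw [hfil]
  have hfinal := hrare A B Z hB0 hcAB hWB hAW hAB
  convert hfinal

open Classical in
theorem progression {G : Type*} [AddCommGroup G] {f : ℕ → G} (hf : CAdd f) {H : AddSubgroup G}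
    {S t W N' Z n0 : ℕ} {ρ c1 : ℝ} (hS : 1 ≤ S) (hW : 2 ≤ W) (hfW : f W = 0)
    (hrare : RareAP f H W ρ c1 N') (x : Ve S t → ℤ) (hx : ∀ u, 0 ≤ x u)
    (hpos : ∀ p ∈ Pr S t, 0 < ee W p x) (hfe : ∀ p ∈ Pr S t, f (ee W p x).natAbs ∈ H)
    (hcop : ∀ p ∈ Pr S t, ∀ p' ∈ Pr S t, p ≠ p' →
      (ee W p x).natAbs.Coprime (ee W p' x).natAbs)
    (hn0 : W ^ S ∣ n0)
    (hn0' : ∀ p ∈ Pr S t, ee W p x ∣ n0 + aV W x p.1 ∧ ee W p x ∣ n0 + aV W x p.2)
    (u : Ve S t)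
    (hN : (n0 : ℤ) + aV W x u + (W ^ S * ∏ p ∈ Pr S t, (ee W p x).natAbs : ℕ) * Z ≤ N') :
    (((range Z).filter (fun ν => f ((n0 : ℤ) + aV W x u +
      (W ^ S * ∏ p ∈ Pr S t, (ee W p x).natAbs : ℕ) * ν).natAbs ∉ H)).card : ℝ) ≤
      ρ * Z + c1 := by
  have h1 := progression_nat hf hS hW hfW hrare x hx hpos hfe hcop hn0 hn0' u hN
  refine le_trans (le_of_eq ?_) h1
  congr 1
  have h2 : (do let a ← range Z; pure (a : ℤ) : Finset ℤ) = (range Z).image (fun a : ℕ => (a : ℤ)) := by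
    ext z
    have h3 : z ∈ (do let a ← range Z; pure (a : ℤ) : Finset ℤ) ↔
        ∃ a ∈ range Z, z ∈ (pure (a : ℤ) : Finset ℤ) :=
      @Finset.mem_sup _ _ (fun a b => propDecidable (a = b)) _ _ _
    rw [h3, mem_image]
    simp only [Finset.pure_def, mem_singleton]
    constructor
    · rintro ⟨a, ha, rfl⟩
      exact ⟨a, ha, rfl⟩
    · rintro ⟨a, ha, rfl⟩
      exact ⟨a, ha, rfl⟩
  rw [h2, Finset.filter_image, Finset.card_image_of_injective _ Nat.cast_injective]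

end Pool.Agent.Lib.MP_fed790_nt.QP
end

section

/-!
# QP D3: Part IV, from a good point `x` to the solution

Take `n0` from `exists_n0`, `E' = W^S ∏ |e_p|`, and `g ν u = f |n0 + aV u + E' ν|`. By `progression`
the hypothesis of `pigeonhole` holds (`ρ Z + c1 ≤ Z/4`). Get `ν`, `c ∈ H`, `i < j` and the sets
`A = {a : g ν (i,a) = c}`, `B = {b : g ν (j,b) = c}`. By `fourier_edge` (with
`g a b = f |ee W ((i,a),(j,b)) x| ∈ H`) there are `a ∈ A`, `b ∈ B` with `f |e_p| = c`,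
`p = ((i,a),(j,b))`. Put `n = n0 + E' ν ≥ 0`, `m = W^(S-1-j) e_p`. `m ∣ n + aV u` and `m ∣ n + aV v`
(`u = (i,a)`, `v = (j,b)`): `e_p` divides both (`exists_n0`, `e_p ∣ E'`), `W^(S-1-j)` divides both
(`W^S ∣ n`; `W^(S-1-j) ∣ aV u, aV v` as `S-1-i ≥ S-1-j`), and they are coprime. Let
`n + aV u = m N₀`; `aV v - aV u = m` (`aV_sub`), so `n + aV v = m (N₀ + 1)`. `N₀ > 0` since
`n + aV u > 0`. Then `c = f (n + aV u) = f m + f N₀`, `f m = (S-1-j) • f W + f e_p = c`, so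
`f N₀ = 0`; likewise `c = f (n + aV v) = c + f (N₀ + 1)`. `N₀ + 1 ≤ n + aV v ≤ N'`.
-/

open Finset

namespace Pool.Agent.Lib.MP_fed790_nt.QP

theorem d3_pow {G : Type*} [AddCommGroup G] {f : ℕ → G} (hf : CAdd f) {W : ℕ} (hW : 2 ≤ W)
    (hfW : f W = 0) (w : ℕ) : f (W ^ w) = 0 := by
  have h1 : f 1 = 0 := by
    have := hf 1 1 one_pos one_pos
    simpa using this
  induction w with
  | zero => simpa using h1
  | succ w ih =>
    rw [pow_succ, hf _ _ (pow_pos (by omega) _) (by omega), ih, hfW, add_zero]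

theorem d3_coprime {S t W : ℕ} (x : Ve S t → ℤ) {p : Ve S t × Ve S t} (hp : p.1.1 < p.2.1)
    (w : ℕ) : IsCoprime ((W : ℤ) ^ w) (ee W p x) := by
  apply IsCoprime.pow_left
  refine ⟨(W : ℤ) ^ ((p.2.1 : ℕ) - p.1.1 - 1) - (W : ℤ) ^ (p.2.1 : ℕ) * (x p.2 - x p.1), 1, ?_⟩
  have hlt : (p.1.1 : ℕ) < (p.2.1 : ℕ) := hp
  have h1 : (p.2.1 : ℕ) - p.1.1 = ((p.2.1 : ℕ) - p.1.1 - 1) + 1 := by omega
  unfold ee
  rw [h1, pow_succ, pow_succ]
  simp only [Nat.add_sub_cancel]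
  ring

open Classical in
theorem partIV {G : Type*} [AddCommGroup G] [Finite G] {f : ℕ → G} (hf : CAdd f)
    {H : AddSubgroup G} {k S t W N' Z : ℕ} {ρ c1 ε4 : ℝ} (hk : Nat.card G ≤ k) (hk0 : 0 < k)
    (hS : S = 4 * k) (ht : 0 < t) (hW : 2 ≤ W) (hfW : f W = 0)
    (hrare : RareAP f H W ρ c1 N') (x : Ve S t → ℤ) (hx : ∀ u, 0 ≤ x u)
    (hpos : ∀ p ∈ Pr S t, 0 < ee W p x) (hfe : ∀ p ∈ Pr S t, f (ee W p x).natAbs ∈ H)
    (hcop : ∀ p ∈ Pr S t, ∀ p' ∈ Pr S t, p ≠ p' →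
      (ee W p x).natAbs.Coprime (ee W p' x).natAbs)
    (hε4 : 256 * (k : ℝ) ^ 8 * ε4 < 1)
    (hC4 : ∀ i j : Fin S, i < j → ∀ ψ : AddChar G ℂ, (∃ g ∈ H, ψ g ≠ 1) →
        C4 f W ψ i j x ≤ ε4 * t ^ 4)
    (hZ : 0 < Z) (hρ : ρ * Z + c1 ≤ Z / 4)
    (hN : ∀ u : Ve S t, aV W x u + (W ^ S * ∏ p ∈ Pr S t, (ee W p x).natAbs : ℕ) * (Z + 1) ≤ N') :
    ∃ n : ℕ, 0 < n ∧ n < N' ∧ f n = 0 ∧ f (n + 1) = 0 := by
  obtain ⟨n0, hn0lt, hn0d, hn0e⟩ := exists_n0 hW x hpos hcop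
  set E : ℕ := W ^ S * ∏ p ∈ Pr S t, (ee W p x).natAbs with hE
  have hE0 : 0 ≤ (E : ℤ) := Int.natCast_nonneg E
  have hn0lt' : (n0 : ℤ) < E := by exact_mod_cast hn0lt
  have hW0 : 0 < W := by omega
  have hWz : (0 : ℤ) < W := by exact_mod_cast hW0
  set g : ℕ → Ve S t → G := fun ν u => f ((n0 : ℤ) + aV W x u + (E : ℕ) * ν).natAbs with hg
  have hpig : ∀ u, (((range Z).filter (fun ν => g ν u ∉ H)).card : ℝ) ≤ Z / 4 := by
    intro u
    refine le_trans ?_ hρ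
    refine progression_nat hf (by omega) hW hfW hrare x hx hpos hfe hcop hn0d hn0e u ?_
    have h1 := hN u
    have h2 : ((E : ℕ) : ℤ) * ((Z : ℤ) + 1) = E * Z + E := by ring
    rw [h2] at h1
    linarith
  obtain ⟨ν, hν, c, hc, i, j, hij, hA, hB⟩ := pigeonhole H hk hk0 hS ht hZ g hpig
  have hmem : ∀ a b : Fin t, (((i, a), (j, b)) : Ve S t × Ve S t) ∈ Pr S t := by
    intro a b
    simp only [Pr, Finset.mem_filter, Finset.mem_univ, true_and]
    exact hij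
  obtain ⟨a, ha, b, hb, hab⟩ := fourier_edge H hk hk0 ht
    (fun a b => f (ee W ((i, a), (j, b)) x).natAbs) (fun a b => hfe _ (hmem a b))
    _ _ hA hB c hc ε4 hε4 (fun ψ hψ => hC4 i j hij ψ hψ)
  simp only [Finset.mem_filter, Finset.mem_univ, true_and] at ha hb
  -- notation
  set p : Ve S t × Ve S t := ((i, a), (j, b)) with hp
  have hpm : p ∈ Pr S t := hmem a b
  have hplt : p.1.1 < p.2.1 := hij
  set e : ℤ := ee W p x with he
  have hepos : 0 < e := hpos p hpm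
  set w : ℕ := S - 1 - (j : ℕ) with hw
  set m : ℤ := (W : ℤ) ^ w * e with hm
  have hmpos : 0 < m := by positivity
  have hsub : aV W x (j, b) - aV W x (i, a) = m := aV_sub W x hpm
  -- divisibility by `e`
  have heE : e ∣ (E : ℤ) := by
    have h1 : e.natAbs ∣ E := by
      rw [hE]
      exact Dvd.dvd.mul_left (Finset.dvd_prod_of_mem (fun q => (ee W q x).natAbs) hpm) _
    exact Int.natAbs_dvd.1 (by exact_mod_cast h1)
  have hd1 : e ∣ (n0 : ℤ) + aV W x (i, a) + (E : ℤ) * ν :=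
    dvd_add (hn0e p hpm).1 (Dvd.dvd.mul_right heE _)
  -- divisibility by `W ^ w`
  have hWS : (W : ℤ) ^ w ∣ (W : ℤ) ^ S := pow_dvd_pow _ (by omega)
  have hd2 : (W : ℤ) ^ w ∣ (n0 : ℤ) + aV W x (i, a) + (E : ℤ) * ν := by
    have h1 : (W : ℤ) ^ w ∣ (n0 : ℤ) := hWS.trans (by exact_mod_cast hn0d)
    have h2 : (W : ℤ) ^ w ∣ (E : ℤ) := by
      refine hWS.trans ?_
      rw [hE]; push_cast; exact dvd_mul_right _ _
    have h3 : (W : ℤ) ^ w ∣ aV W x (i, a) := by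
      unfold aV
      refine dvd_add (pow_dvd_pow _ ?_) (Dvd.dvd.mul_right hWS _)
      have : (i : ℕ) < (j : ℕ) := hij
      simp only
      omega
    exact dvd_add (dvd_add h1 h3) (Dvd.dvd.mul_right h2 _)
  have hd : m ∣ (n0 : ℤ) + aV W x (i, a) + (E : ℤ) * ν :=
    IsCoprime.mul_dvd (d3_coprime x hplt w) hd2 hd1
  obtain ⟨N0, hN0⟩ := hd
  have haVpos : ∀ u : Ve S t, 0 < aV W x u := by
    intro u
    unfold aV
    have h1 : (0 : ℤ) < (W : ℤ) ^ (S - 1 - (u.1 : ℕ)) := pow_pos hWz _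
    have h2 : (0 : ℤ) ≤ (W : ℤ) ^ S * x u := mul_nonneg (pow_nonneg hWz.le _) (hx u)
    linarith
  have hpos1 : 0 < (n0 : ℤ) + aV W x (i, a) + (E : ℤ) * ν := by
    have := haVpos (i, a)
    have h3 : (0 : ℤ) ≤ (E : ℤ) * ν := mul_nonneg hE0 (Int.natCast_nonneg _)
    have h4 : (0 : ℤ) ≤ (n0 : ℤ) := Int.natCast_nonneg _
    linarith
  have hN0pos : 0 < N0 := by
    rw [hN0] at hpos1
    exact (pos_iff_pos_of_mul_pos hpos1).1 hmpos
  obtain ⟨N1, rfl⟩ : ∃ N1 : ℕ, N0 = N1 := ⟨N0.toNat, (Int.toNat_of_nonneg hN0pos.le).symm⟩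
  have hN1pos : 0 < N1 := by exact_mod_cast hN0pos
  have hv : (n0 : ℤ) + aV W x (j, b) + (E : ℤ) * ν = m * ((N1 : ℤ) + 1) := by
    have h1 : (n0 : ℤ) + aV W x (j, b) + (E : ℤ) * ν =
      ((n0 : ℤ) + aV W x (i, a) + (E : ℤ) * ν) + (aV W x (j, b) - aV W x (i, a)) := by ring
    rw [h1, hN0, hsub]; ring
  -- the colours
  have hfm : f m.natAbs = c := by
    have h1 : m.natAbs = W ^ w * e.natAbs := by
      rw [hm, Int.natAbs_mul, Int.natAbs_pow, Int.natAbs_natCast]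
    rw [h1, hf _ _ (pow_pos hW0 _) (Int.natAbs_pos.2 hepos.ne'), d3_pow hf hW hfW, zero_add]
    exact hab
  have hmn : 0 < m.natAbs := Int.natAbs_pos.2 hmpos.ne'
  have c1' : f N1 = 0 := by
    have h1 : f ((n0 : ℤ) + aV W x (i, a) + (E : ℤ) * ν).natAbs = c := ha
    rw [hN0, Int.natAbs_mul, Int.natAbs_natCast, hf _ _ hmn hN1pos, hfm] at h1
    exact left_eq_add.1 h1.symm
  have c2' : f (N1 + 1) = 0 := by
    have h1 : f ((n0 : ℤ) + aV W x (j, b) + (E : ℤ) * ν).natAbs = c := hb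
    have h2 : ((N1 : ℤ) + 1).natAbs = N1 + 1 := by
      have : ((N1 : ℤ) + 1) = ((N1 + 1 : ℕ) : ℤ) := by push_cast; rfl
      rw [this, Int.natAbs_natCast]
    rw [hv, Int.natAbs_mul, h2, hf _ _ hmn (Nat.succ_pos _), hfm] at h1
    exact left_eq_add.1 h1.symm
  refine ⟨N1, hN1pos, ?_, c1', c2'⟩
  have hup : (n0 : ℤ) + aV W x (j, b) + (E : ℤ) * ν ≤ N' := by
    have h1 := hN (j, b)
    have h2 : (E : ℤ) * ν ≤ (E : ℤ) * Z :=
      mul_le_mul_of_nonneg_left (by exact_mod_cast hν.le) hE0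
    have h3 : ((E : ℕ) : ℤ) * ((Z : ℤ) + 1) = E * Z + E := by ring
    rw [h3] at h1
    linarith
  have h4 : (N1 : ℤ) + 1 ≤ m * ((N1 : ℤ) + 1) := by
    have : (1 : ℤ) ≤ m := hmpos
    nlinarith
  have h5 : (N1 : ℤ) < N' := by linarith
  exact_mod_cast h5

end Pool.Agent.Lib.MP_fed790_nt.QP
end
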