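import Pool.Agent.Lib.MP_fed790_nt.QP.C1

section

/-!
# QP A1: counting in progressions (integers `α + β ν`, `ν < Z`)

**`card_dvd_le`.** As `q ∤ β`, the set of `ν` with `q ∣ α + β ν` is contained in one residue class
mod `q` (if `ν₁, ν₂` both qualify, `q ∣ β (ν₁ - ν₂)`, hence `q ∣ ν₁ - ν₂`), and a residue class mod
`q` has at most `⌈Z/q⌉ ≤ Z/q + 1` elements in `range Z` (e.g. the map `ν ↦ ν / q` is injective on
the class and maps into `range (Z/q + 1)`; note `ν ≤ Z - 1`, so `ν / q ≤ Z / q`).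

**`card_gcd_le`.** The set is the union over the primes `q ∈ D.primeFactors` with `y < q` of
`{ν : q ∣ α + β ν}`. If `q ∣ β`, then `q ∤ α` (hypothesis `h`) and the set for `q` is empty; else
it has at most `Z/q + 1` elements by `card_dvd_le`. Summing, the total is at most
`Z * sg y D + #D.primeFactors`, and `2 ^ #D.primeFactors ≤ ∏_{q ∣ D} q ≤ D < 2 ^ L`, so
`#D.primeFactors ≤ L`.
-/

open Finset

namespace Pool.Agent.Lib.MP_fed790_nt.QP

theorem card_dvd_le (α β : ℤ) (Z q : ℕ) (hq : q.Prime) (hqβ : ¬ (q : ℤ) ∣ β) :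
    (((range Z).filter (fun ν : ℕ => (q : ℤ) ∣ α + β * ν)).card : ℝ) ≤ Z / q + 1 := by
  have hqp : Prime (q : ℤ) := Nat.prime_iff_prime_int.1 hq
  have hq0 : 0 < q := hq.pos
  have h1 : ((range Z).filter (fun ν : ℕ => (q : ℤ) ∣ α + β * ν)).card
      ≤ (range (Z / q + 1)).card := by
    apply Finset.card_le_card_of_injOn (fun ν => ν / q)
    · intro ν hν
      rw [mem_coe, mem_filter, mem_range] at hν
      rw [mem_coe, mem_range]
      exact Nat.lt_succ_of_le (Nat.div_le_div_right hν.1.le)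
    · intro ν₁ h₁ ν₂ h₂ h12
      rw [mem_coe, mem_filter, mem_range] at h₁ h₂
      change ν₁ / q = ν₂ / q at h12
      have h3 : (q : ℤ) ∣ β * ((ν₁ : ℤ) - ν₂) := by
        have := dvd_sub h₁.2 h₂.2
        have h4 : α + β * (ν₁ : ℤ) - (α + β * (ν₂ : ℤ)) = β * ((ν₁ : ℤ) - ν₂) := by ring
        rwa [h4] at this
      have h5 : (q : ℤ) ∣ (ν₁ : ℤ) - ν₂ := (hqp.dvd_or_dvd h3).resolve_left hqβ
      have h6 : ν₂ % q = ν₁ % q := (Nat.modEq_iff_dvd).2 h5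
      rw [← Nat.div_add_mod ν₁ q, ← Nat.div_add_mod ν₂ q, h12, h6]
  rw [card_range] at h1
  have h2 : (((range Z).filter (fun ν : ℕ => (q : ℤ) ∣ α + β * ν)).card : ℝ)
      ≤ ((Z / q + 1 : ℕ) : ℝ) := by exact_mod_cast h1
  refine h2.trans ?_
  push_cast
  have h3 : ((Z / q : ℕ) : ℝ) ≤ (Z : ℝ) / q := Nat.cast_div_le
  linarith

open Classical in
theorem card_gcd_le (y : ℕ) (α β : ℤ) (Z D L : ℕ) (hD : 0 < D) (hDL : D < 2 ^ L)
    (h : ∀ q : ℕ, q.Prime → y < q → (q : ℤ) ∣ β → ¬ (q : ℤ) ∣ α) :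
    (((range Z).filter (fun ν : ℕ =>
      ∃ q : ℕ, q.Prime ∧ y < q ∧ q ∣ D ∧ (q : ℤ) ∣ α + β * ν)).card : ℝ) ≤ Z * sg y D + L := by
  have hsub : (range Z).filter (fun ν : ℕ =>
      ∃ q : ℕ, q.Prime ∧ y < q ∧ q ∣ D ∧ (q : ℤ) ∣ α + β * ν) ⊆
      (D.primeFactors.filter (fun q => y < q)).biUnion
        (fun q => (range Z).filter (fun ν : ℕ => (q : ℤ) ∣ α + β * ν)) := by
    intro ν hν
    rw [mem_filter] at hν
    obtain ⟨hZ, q, hq, hyq, hqD, hdiv⟩ := hν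
    rw [mem_biUnion]
    refine ⟨q, ?_, ?_⟩
    · rw [mem_filter, Nat.mem_primeFactors]
      exact ⟨⟨hq, hqD, hD.ne'⟩, hyq⟩
    · rw [mem_filter]
      exact ⟨hZ, hdiv⟩
  have h1 : (((range Z).filter (fun ν : ℕ =>
      ∃ q : ℕ, q.Prime ∧ y < q ∧ q ∣ D ∧ (q : ℤ) ∣ α + β * ν)).card : ℝ) ≤
      ∑ q ∈ D.primeFactors.filter (fun q => y < q),
        (((range Z).filter (fun ν : ℕ => (q : ℤ) ∣ α + β * ν)).card : ℝ) := by
    exact_mod_cast (Finset.card_le_card hsub).trans Finset.card_biUnion_le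
  have h2 : ∀ q ∈ D.primeFactors.filter (fun q => y < q),
      (((range Z).filter (fun ν : ℕ => (q : ℤ) ∣ α + β * ν)).card : ℝ) ≤ (Z : ℝ) / q + 1 := by
    intro q hq
    rw [mem_filter, Nat.mem_primeFactors] at hq
    obtain ⟨⟨hqp, hqD, _⟩, hyq⟩ := hq
    by_cases hβ : (q : ℤ) ∣ β
    · have hα := h q hqp hyq hβ
      have he : (range Z).filter (fun ν : ℕ => (q : ℤ) ∣ α + β * ν) = ∅ := by
        rw [filter_eq_empty_iff]
        intro ν _ hdiv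
        exact hα ((dvd_add_left (hβ.mul_right _)).1 hdiv)
      rw [he, card_empty, Nat.cast_zero]
      positivity
    · exact card_dvd_le α β Z q hqp hβ
  have h3 := Finset.sum_le_sum h2
  have h4 : ∑ q ∈ D.primeFactors.filter (fun q => y < q), ((Z : ℝ) / q + 1) =
      Z * sg y D + (D.primeFactors.filter (fun q => y < q)).card := by
    rw [Finset.sum_add_distrib, Finset.sum_const, nsmul_eq_mul, mul_one]
    unfold sg
    rw [Finset.mul_sum]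
    congr 1
    apply Finset.sum_congr rfl
    intro q _
    ring
  have h5 : (D.primeFactors.filter (fun q => y < q)).card ≤ L := by
    refine (Finset.card_le_card (filter_subset _ _)).trans ?_
    have h6 : 2 ^ D.primeFactors.card ≤ ∏ q ∈ D.primeFactors, q := by
      have := Finset.pow_card_le_prod D.primeFactors (fun q => q) 2
        (fun q hq => (Nat.prime_of_mem_primeFactors hq).two_le)
      simpa using this
    have h7 : ∏ q ∈ D.primeFactors, q ≤ D := Nat.le_of_dvd hD (Nat.prod_primeFactors_dvd D)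
    have h8 : 2 ^ D.primeFactors.card < 2 ^ L := (h6.trans h7).trans_lt hDL
    exact ((Nat.pow_lt_pow_iff_right (by norm_num)).1 h8).le
  have h9 : ((D.primeFactors.filter (fun q => y < q)).card : ℝ) ≤ L := by exact_mod_cast h5
  linarith

end Pool.Agent.Lib.MP_fed790_nt.QP
end

section

/-!
# QP B1: the correlation identity for coprime dilations

**`norm_Rr_le`.** For fixed `d` the pairs `(n, n - d)` are determined by `n ∈ A`: at most `#A`
terms of absolute value `≤ b²`.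

**`avC_Rr`.** For `|z| = 1`, `‖tp A b z‖² z^(-d) = ∑_{n,m ∈ A} b n conj(b m) z^(n - m - d)`.
Average: `n - m = d` or `N ∣ n - m - d`, the latter only if `n - m - d = 0` as
`|n - m - d| < ℓ + |d| ≤ N`.

**`av_corr`.** `‖tp A α (z^T)‖² ‖tp A' α' (z^T')‖² =
∑_{n,m ∈ A, n',m' ∈ A'} α n conj(α m) α' n' conj(α' m') z^(T (n-m) + T' (n'-m'))`. The exponent is
`< T ℓ + T' ℓ' ≤ N` in absolute value, so the average is the sum over the quadruples with
`T (n - m) = - T' (n' - m')`. As `gcd(T,T') = 1`, `T' ∣ n - m`; write `n - m = T' j`, then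
`n' - m' = -T j`; `|T' j| < ℓ`, `|T j| < ℓ'`, so `j ∈ J` by `hJ`. Group the quadruples by `j`.

**`av_corr_le`** (trivial bound). By `av_corr` with `J = {j : |j| T' < ℓ}`, of cardinality at most
`2ℓ/T' + 1`, and `norm_Rr_le`.
-/

open Finset

namespace Pool.Agent.Lib.MP_fed790_nt.QP

private theorem B1_normsq (A : Finset ℤ) (α : ℤ → ℂ) (w : ℂ) (hw : ‖w‖ = 1) :
    ((‖tp A α w‖ ^ 2 : ℝ) : ℂ) =
      ∑ n ∈ A, ∑ m ∈ A, α n * starRingEnd ℂ (α m) * w ^ (n - m) := by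
  have hw0 : w ≠ 0 := by
    intro h
    rw [h, norm_zero] at hw
    exact zero_ne_one hw
  rw [Complex.ofReal_pow, ← Complex.mul_conj']
  unfold tp
  rw [map_sum, sum_mul_sum]
  refine sum_congr rfl fun n _ => sum_congr rfl fun m _ => ?_
  have hconj : starRingEnd ℂ w = w⁻¹ := by
    rw [Complex.inv_def, Complex.normSq_eq_norm_sq, hw]
    simp
  rw [map_mul, map_zpow₀, hconj, zpow_sub₀ hw0, inv_zpow]
  field_simp

private theorem B1_avC_sum {σ : Type*} (N : ℕ) (s : Finset σ) (c : σ → ℂ) (m : σ → ℤ) (hN : 0 < N) :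
    avC N (fun z => ∑ i ∈ s, c i * z ^ (m i)) =
      ∑ i ∈ s, c i * (if (N : ℤ) ∣ m i then 1 else 0) := by
  have h : ∀ i, avC N (fun z => z ^ (m i)) = if (N : ℤ) ∣ m i then 1 else 0 := fun i =>
    avC_zpow N hN (m i)
  simp only [← h]
  unfold avC
  rw [sum_comm, sum_div]
  refine sum_congr rfl fun i _ => ?_
  rw [← mul_sum, mul_div_assoc]

private theorem B1_dvd (N : ℕ) (x : ℤ) (hx : |x| < N) : (N : ℤ) ∣ x ↔ x = 0 := by
  constructor
  · intro hd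
    exact Int.eq_zero_of_abs_lt_dvd hd hx
  · intro h; rw [h]; exact dvd_zero _

private theorem B1_rr (A : Finset ℤ) (α : ℤ → ℂ) (d : ℤ) :
    Rr A α d = ∑ n ∈ A, ∑ m ∈ A, α n * starRingEnd ℂ (α m) * (if n - m = d then 1 else 0) := by
  unfold Rr
  rw [sum_filter, sum_product]
  refine sum_congr rfl fun n _ => sum_congr rfl fun m _ => ?_
  by_cases h : n - m = d
  · simp [h]
  · simp [h]

private theorem B1_diff {A : Finset ℤ} {a : ℤ} {ℓ : ℕ} (hA : A ⊆ Ico a (a + ℓ)) {n m : ℤ}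
    (hn : n ∈ A) (hm : m ∈ A) : |n - m| < ℓ := by
  have h1 := mem_Ico.1 (hA hn)
  have h2 := mem_Ico.1 (hA hm)
  rw [abs_lt]
  constructor <;> linarith [h1.1, h1.2, h2.1, h2.2]

theorem norm_Rr_le (A : Finset ℤ) (α : ℤ → ℂ) (b : ℝ) (hα : ∀ n ∈ A, ‖α n‖ ≤ b) (d : ℤ) :
    ‖Rr A α d‖ ≤ b ^ 2 * A.card := by
  unfold Rr
  by_cases hA : A = ∅
  · subst hA
    simp
  obtain ⟨n0, hn0⟩ := Finset.nonempty_iff_ne_empty.2 hA
  have hb : 0 ≤ b := (norm_nonneg _).trans (hα n0 hn0)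
  have hcard : ((A ×ˢ A).filter (fun p => p.1 - p.2 = d)).card ≤ A.card := by
    apply Finset.card_le_card_of_injOn (fun p => p.1)
    · intro p hp
      have hp' := (mem_filter.1 (mem_coe.1 hp)).1
      exact mem_coe.2 (mem_product.1 hp').1
    · intro p hp p' hp' hpp
      have h1 := (mem_filter.1 (mem_coe.1 hp)).2
      have h2 := (mem_filter.1 (mem_coe.1 hp')).2
      have h3 : p.1 = p'.1 := hpp
      apply Prod.ext h3
      linarith
  calc ‖∑ p ∈ (A ×ˢ A).filter (fun p => p.1 - p.2 = d), α p.1 * starRingEnd ℂ (α p.2)‖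
      ≤ ∑ p ∈ (A ×ˢ A).filter (fun p => p.1 - p.2 = d), ‖α p.1 * starRingEnd ℂ (α p.2)‖ :=
        norm_sum_le _ _
    _ ≤ ∑ _p ∈ (A ×ˢ A).filter (fun p => p.1 - p.2 = d), b ^ 2 := by
        refine sum_le_sum fun p hp => ?_
        have hp' := mem_product.1 (mem_filter.1 hp).1
        rw [norm_mul, RCLike.norm_conj, sq]
        exact mul_le_mul (hα _ hp'.1) (hα _ hp'.2) (norm_nonneg _) hb
    _ = (((A ×ˢ A).filter (fun p => p.1 - p.2 = d)).card : ℝ) * b ^ 2 := by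
        rw [sum_const, nsmul_eq_mul]
    _ ≤ (A.card : ℝ) * b ^ 2 := by
        apply mul_le_mul_of_nonneg_right _ (sq_nonneg b)
        exact_mod_cast hcard
    _ = b ^ 2 * A.card := mul_comm _ _

theorem avC_Rr (N : ℕ) (hN : 0 < N) (A : Finset ℤ) (b : ℤ → ℂ) (a : ℤ) (ℓ : ℕ)
    (hA : A ⊆ Ico a (a + ℓ)) (d : ℤ) (hd : |d| + ℓ ≤ N) :
    avC N (fun z => ((‖tp A b z‖ ^ 2 : ℝ) : ℂ) * z ^ (-d)) = Rr A b d := by
  have h1 : avC N (fun z => ((‖tp A b z‖ ^ 2 : ℝ) : ℂ) * z ^ (-d)) =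
      avC N (fun z => ∑ p ∈ A ×ˢ A, (b p.1 * starRingEnd ℂ (b p.2)) * z ^ (p.1 - p.2 - d)) := by
    unfold avC
    congr 1
    refine sum_congr rfl fun k _ => ?_
    beta_reduce
    rw [B1_normsq A b _ (norm_rt N k), sum_mul, sum_product]
    refine sum_congr rfl fun n _ => ?_
    rw [sum_mul]
    refine sum_congr rfl fun m _ => ?_
    rw [mul_assoc, ← zpow_add₀ (rt_ne_zero N k), ← sub_eq_add_neg]
  rw [h1, B1_avC_sum N _ _ _ hN, sum_product, B1_rr]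
  refine sum_congr rfl fun n hn => sum_congr rfl fun m hm => ?_
  congr 1
  have h2 : |n - m - d| < N := by
    have h3 := B1_diff hA hn hm
    have h4 : |n - m - d| ≤ |n - m| + |d| := abs_sub _ _
    linarith
  have h5 := B1_dvd N _ h2
  by_cases h : n - m = d
  · rw [if_pos h, if_pos (h5.2 (by linarith))]
  · rw [if_neg h, if_neg (fun hc => h (by have := h5.1 hc; linarith))]

theorem av_corr (N T T' : ℕ) (hN : 0 < N) (hT : 0 < T) (hT' : 0 < T') (hcop : T.Coprime T')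
    (A A' : Finset ℤ) (α α' : ℤ → ℂ) (a a' : ℤ) (ℓ ℓ' : ℕ) (hA : A ⊆ Ico a (a + ℓ))
    (hA' : A' ⊆ Ico a' (a' + ℓ')) (hN' : T * ℓ + T' * ℓ' ≤ N) (J : Finset ℤ)
    (hJ : ∀ j : ℤ, |j| * T' < ℓ → |j| * T < ℓ' → j ∈ J) :
    ((av N (fun z => ‖tp A α (z ^ T)‖ ^ 2 * ‖tp A' α' (z ^ T')‖ ^ 2) : ℝ) : ℂ) =
      ∑ j ∈ J, Rr A α (T' * j) * Rr A' α' (-(T * j)) := by
  rw [ofReal_av]
  have h1 : avC N (fun z => ((‖tp A α (z ^ T)‖ ^ 2 * ‖tp A' α' (z ^ T')‖ ^ 2 : ℝ) : ℂ)) =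
      avC N (fun z => ∑ p ∈ (A ×ˢ A) ×ˢ (A' ×ˢ A'),
        ((α p.1.1 * starRingEnd ℂ (α p.1.2)) * (α' p.2.1 * starRingEnd ℂ (α' p.2.2))) *
          z ^ ((T : ℤ) * (p.1.1 - p.1.2) + (T' : ℤ) * (p.2.1 - p.2.2))) := by
    unfold avC
    congr 1
    refine sum_congr rfl fun k _ => ?_
    have hz := rt_ne_zero N k
    beta_reduce
    rw [Complex.ofReal_mul, B1_normsq A α _ (by rw [norm_pow, norm_rt, one_pow]),
      B1_normsq A' α' _ (by rw [norm_pow, norm_rt, one_pow]), sum_product, ← sum_product',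
      ← sum_product' (s := A') (t := A'), sum_mul_sum]
    refine sum_congr rfl fun p _ => sum_congr rfl fun p' _ => ?_
    rw [zpow_add₀ hz, zpow_mul, zpow_mul, zpow_natCast, zpow_natCast]
    ring
  rw [h1, B1_avC_sum N _ _ _ hN]
  have h2 : ∀ j ∈ J, Rr A α (T' * j) * Rr A' α' (-(T * j)) =
      ∑ p ∈ (A ×ˢ A) ×ˢ (A' ×ˢ A'),
        ((α p.1.1 * starRingEnd ℂ (α p.1.2)) * (α' p.2.1 * starRingEnd ℂ (α' p.2.2))) *
          (if p.1.1 - p.1.2 = (T' : ℤ) * j ∧ p.2.1 - p.2.2 = -((T : ℤ) * j) then 1 else 0) := by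
    intro j _
    rw [B1_rr, B1_rr, sum_product, ← sum_product', ← sum_product' (s := A') (t := A'), sum_mul_sum]
    refine sum_congr rfl fun p _ => sum_congr rfl fun p' _ => ?_
    by_cases ha : p.1 - p.2 = (T' : ℤ) * j
    · by_cases hb : p'.1 - p'.2 = -((T : ℤ) * j)
      · rw [if_pos ha, if_pos hb, if_pos ⟨ha, hb⟩]; ring
      · simp [hb]
    · simp [ha]
  rw [sum_congr rfl h2, sum_comm]
  refine sum_congr rfl fun p hp => ?_
  rw [← mul_sum]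
  congr 1
  have hp1 := mem_product.1 (mem_product.1 hp).1
  have hp2 := mem_product.1 (mem_product.1 hp).2
  have d1 := B1_diff hA hp1.1 hp1.2
  have d2 := B1_diff hA' hp2.1 hp2.2
  have hTz : (0 : ℤ) < T := by exact_mod_cast hT
  have hTz' : (0 : ℤ) < T' := by exact_mod_cast hT'
  have hlt : |(T : ℤ) * (p.1.1 - p.1.2) + (T' : ℤ) * (p.2.1 - p.2.2)| < N := by
    have e1 : |(T : ℤ) * (p.1.1 - p.1.2) + (T' : ℤ) * (p.2.1 - p.2.2)| ≤
        (T : ℤ) * |p.1.1 - p.1.2| + (T' : ℤ) * |p.2.1 - p.2.2| := by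
      refine (abs_add_le _ _).trans ?_
      rw [abs_mul, abs_mul, abs_of_pos hTz, abs_of_pos hTz']
    have e2 : (T : ℤ) * |p.1.1 - p.1.2| < T * ℓ := mul_lt_mul_of_pos_left d1 hTz
    have e3 : (T' : ℤ) * |p.2.1 - p.2.2| < T' * ℓ' := mul_lt_mul_of_pos_left d2 hTz'
    have e4 : (T : ℤ) * ℓ + T' * ℓ' ≤ N := by exact_mod_cast hN'
    linarith
  have hdv := B1_dvd N _ hlt
  by_cases h0 : (T : ℤ) * (p.1.1 - p.1.2) + (T' : ℤ) * (p.2.1 - p.2.2) = 0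
  · rw [if_pos (hdv.2 h0)]
    have hdiv : (T' : ℤ) ∣ p.1.1 - p.1.2 := by
      have e1 : (T' : ℤ) ∣ (T : ℤ) * (p.1.1 - p.1.2) := by
        refine ⟨-(p.2.1 - p.2.2), ?_⟩
        linarith
      have hc : IsCoprime (T' : ℤ) (T : ℤ) := (Nat.isCoprime_iff_coprime.2 hcop).symm
      exact hc.dvd_of_dvd_mul_left e1
    obtain ⟨j, hj⟩ := hdiv
    have hj2 : p.2.1 - p.2.2 = -((T : ℤ) * j) := by
      have e1 : (T' : ℤ) * (p.2.1 - p.2.2 + T * j) = 0 := by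
        rw [hj] at h0
        linarith
      rcases mul_eq_zero.1 e1 with h | h
      · exact absurd h hTz'.ne'
      · linarith
    have hjJ : j ∈ J := by
      apply hJ
      · have e1 : |p.1.1 - p.1.2| = |j| * T' := by
          rw [hj, abs_mul, abs_of_pos hTz', mul_comm]
        rw [← e1]
        exact d1
      · have e1 : |p.2.1 - p.2.2| = |j| * T := by
          rw [hj2, abs_neg, abs_mul, abs_of_pos hTz, mul_comm]
        rw [← e1]
        exact d2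
    symm
    rw [sum_eq_single j]
    · rw [if_pos ⟨hj, hj2⟩]
    · intro j' _ hne
      rw [if_neg]
      rintro ⟨h3, -⟩
      apply hne
      rw [hj] at h3
      exact (mul_left_cancel₀ hTz'.ne' h3).symm
    · intro h; exact absurd hjJ h
  · rw [if_neg (fun h => h0 (hdv.1 h))]
    symm
    apply sum_eq_zero
    intro j _
    rw [if_neg]
    rintro ⟨h3, h4⟩
    apply h0
    rw [h3, h4]
    ring

theorem av_corr_le (N T T' : ℕ) (hN : 0 < N) (hT : 0 < T) (hT' : 0 < T') (hcop : T.Coprime T')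
    (A A' : Finset ℤ) (α α' : ℤ → ℂ) (a a' : ℤ) (ℓ ℓ' : ℕ) (hA : A ⊆ Ico a (a + ℓ))
    (hA' : A' ⊆ Ico a' (a' + ℓ')) (hN' : T * ℓ + T' * ℓ' ≤ N) (b b' : ℝ)
    (hα : ∀ n ∈ A, ‖α n‖ ≤ b) (hα' : ∀ n ∈ A', ‖α' n‖ ≤ b') :
    av N (fun z => ‖tp A α (z ^ T)‖ ^ 2 * ‖tp A' α' (z ^ T')‖ ^ 2) ≤
      (b ^ 2 * A.card) * (b' ^ 2 * A'.card) * (2 * ℓ / T' + 1) := by
  by_cases hA0 : A = ∅
  · subst hA0
    have : av N (fun z => ‖tp (∅ : Finset ℤ) α (z ^ T)‖ ^ 2 * ‖tp A' α' (z ^ T')‖ ^ 2) = 0 := by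
      unfold av tp
      simp
    rw [this]
    simp
  by_cases hA0' : A' = ∅
  · subst hA0'
    have : av N (fun z => ‖tp A α (z ^ T)‖ ^ 2 * ‖tp (∅ : Finset ℤ) α' (z ^ T')‖ ^ 2) = 0 := by
      unfold av tp
      simp
    rw [this]
    simp
  set J : Finset ℤ := Icc (-((ℓ / T' : ℕ) : ℤ)) ((ℓ / T' : ℕ) : ℤ) with hJdef
  have hJ : ∀ j : ℤ, |j| * T' < ℓ → |j| * T < ℓ' → j ∈ J := by
    intro j h1 _
    have h2 : j.natAbs ≤ ℓ / T' := by
      rw [Nat.le_div_iff_mul_le hT']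
      have h3 : ((j.natAbs : ℕ) : ℤ) * T' < ℓ := by
        rw [Int.natCast_natAbs]
        exact h1
      exact_mod_cast h3.le
    rw [hJdef, mem_Icc]
    omega
  have h := av_corr N T T' hN hT hT' hcop A A' α α' a a' ℓ ℓ' hA hA' hN' J hJ
  have h1 : av N (fun z => ‖tp A α (z ^ T)‖ ^ 2 * ‖tp A' α' (z ^ T')‖ ^ 2) ≤
      ‖((av N (fun z => ‖tp A α (z ^ T)‖ ^ 2 * ‖tp A' α' (z ^ T')‖ ^ 2) : ℝ) : ℂ)‖ := by
    rw [Complex.norm_real]
    exact le_abs_self _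
  refine h1.trans ?_
  rw [h]
  have hcardJ : (J.card : ℝ) ≤ 2 * ℓ / T' + 1 := by
    have e1 : J.card = 2 * (ℓ / T') + 1 := by
      rw [hJdef, Int.card_Icc]
      omega
    rw [e1]
    push_cast
    have e2 : (((ℓ / T' : ℕ)) : ℝ) ≤ (ℓ : ℝ) / T' := Nat.cast_div_le
    have e3 : 2 * (ℓ : ℝ) / T' = 2 * ((ℓ : ℝ) / T') := by ring
    rw [e3]
    linarith
  have hnn : 0 ≤ (b ^ 2 * (A.card : ℝ)) * (b' ^ 2 * A'.card) := by positivity
  calc ‖∑ j ∈ J, Rr A α (T' * j) * Rr A' α' (-(T * j))‖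
      ≤ ∑ j ∈ J, ‖Rr A α (T' * j) * Rr A' α' (-(T * j))‖ := norm_sum_le _ _
    _ ≤ ∑ _j ∈ J, (b ^ 2 * (A.card : ℝ)) * (b' ^ 2 * A'.card) := by
        refine sum_le_sum fun j _ => ?_
        rw [norm_mul]
        exact mul_le_mul (norm_Rr_le A α b hα _) (norm_Rr_le A' α' b' hα' _) (norm_nonneg _)
          (by positivity)
    _ = (J.card : ℝ) * ((b ^ 2 * (A.card : ℝ)) * (b' ^ 2 * A'.card)) := by
        rw [sum_const, nsmul_eq_mul]
    _ ≤ (2 * ℓ / T' + 1) * ((b ^ 2 * (A.card : ℝ)) * (b' ^ 2 * A'.card)) :=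
        mul_le_mul_of_nonneg_right hcardJ hnn
    _ = (b ^ 2 * A.card) * (b' ^ 2 * A'.card) * (2 * ℓ / T' + 1) := by ring

end Pool.Agent.Lib.MP_fed790_nt.QP
end

section

/-!
# QP A1s: the sum of `sg` in a progression

Put `F ν = (α + β ν).natAbs`, `0 < F ν < 2 ^ L`. Then
`∑_ν sg y (F ν) = ∑_{q prime, y < q < 2^L} (1/q) #{ν < Z : q ∣ F ν}` (interchange the sums; a prime
factor of `F ν` is `≤ F ν < 2^L`). Each count is `0` (if `q ∣ β`, hence `q ∤ α`) or at most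
`Z/q + 1` (`card_dvd_le`). So the sum is at most `Z ∑_{q > y} 1/q² + ∑_{2 ≤ q < 2^L} 1/q`. Here
`∑_{q > y} 1/q² ≤ ∑_{q>y} (1/(q-1) - 1/q) ≤ 1/y` (finite sums over `y < q < 2^L`), and
`∑_{2 ≤ n < 2^L} 1/n ≤ log (2^L) ≤ L` (or split into the dyadic blocks `2^i ≤ n < 2^{i+1}`,
`1 ≤ i < L`, each of which contributes at most `1`).
-/

open Finset

namespace Pool.Agent.Lib.MP_fed790_nt.QP

theorem sum_sg_le (y L : ℕ) (hy : 1 ≤ y) (α β : ℤ) (Z : ℕ)
    (h : ∀ q : ℕ, q.Prime → y < q → (q : ℤ) ∣ β → ¬ (q : ℤ) ∣ α)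
    (hne : ∀ ν : ℕ, ν < Z → α + β * ν ≠ 0)
    (hL : ∀ ν : ℕ, ν < Z → (α + β * ν).natAbs < 2 ^ L) :
    ∑ ν ∈ range Z, sg y (α + β * ν).natAbs ≤ Z / y + L := by
  classical
  -- the primes
  set Q : Finset ℕ := (range (2 ^ L)).filter (fun q => q.Prime ∧ y < q) with hQ
  have h1 : ∀ ν ∈ range Z, sg y (α + β * ν).natAbs =
      ∑ q ∈ Q, (if (q : ℤ) ∣ α + β * ν then (1 : ℝ) / q else 0) := by
    intro ν hν
    rw [mem_range] at hν
    rw [← Finset.sum_filter]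
    unfold sg
    apply Finset.sum_congr _ (fun _ _ => rfl)
    ext q
    simp only [hQ, mem_filter, mem_range, Nat.mem_primeFactors]
    have hn0 : (α + β * ν).natAbs ≠ 0 := by
      rw [Ne, Int.natAbs_eq_zero]; exact hne ν hν
    constructor
    · rintro ⟨⟨hq, hd, _⟩, hy⟩
      refine ⟨⟨?_, hq, hy⟩, Int.natCast_dvd.2 hd⟩
      exact (Nat.le_of_dvd (Nat.pos_of_ne_zero hn0) hd).trans_lt (hL ν hν)
    · rintro ⟨⟨_, hq, hy⟩, hd⟩
      exact ⟨⟨hq, Int.natCast_dvd.1 hd, hn0⟩, hy⟩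
  rw [Finset.sum_congr rfl h1, Finset.sum_comm]
  have h2 : ∀ q ∈ Q, ∑ ν ∈ range Z, (if (q : ℤ) ∣ α + β * ν then (1 : ℝ) / q else 0) ≤
      Z * ((q : ℝ) ^ 2)⁻¹ + (1 : ℝ) / q := by
    intro q hq
    simp only [hQ, mem_filter, mem_range] at hq
    obtain ⟨_, hqp, hyq⟩ := hq
    rw [← Finset.sum_filter, Finset.sum_const, nsmul_eq_mul]
    have hq0 : (0 : ℝ) < q := by exact_mod_cast hqp.pos
    have hc : (((range Z).filter (fun ν : ℕ => (q : ℤ) ∣ α + β * ν)).card : ℝ) ≤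
        (Z : ℝ) / q + 1 := by
      by_cases hβ : (q : ℤ) ∣ β
      · have hα := h q hqp hyq hβ
        have he : (range Z).filter (fun ν : ℕ => (q : ℤ) ∣ α + β * ν) = ∅ := by
          rw [filter_eq_empty_iff]
          intro ν _ hdiv
          exact hα ((dvd_add_left (hβ.mul_right _)).1 hdiv)
        rw [he, card_empty, Nat.cast_zero]
        positivity
      · exact card_dvd_le α β Z q hqp hβ
    calc (((range Z).filter (fun ν : ℕ => (q : ℤ) ∣ α + β * ν)).card : ℝ) * (1 / q)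
        ≤ ((Z : ℝ) / q + 1) * (1 / q) := by
          apply mul_le_mul_of_nonneg_right hc; positivity
      _ = Z * ((q : ℝ) ^ 2)⁻¹ + (1 : ℝ) / q := by
          field_simp
  refine (Finset.sum_le_sum h2).trans ?_
  rw [Finset.sum_add_distrib, ← Finset.mul_sum]
  have hZ0 : (0 : ℝ) ≤ Z := Nat.cast_nonneg _
  have hy0 : (0 : ℝ) < y := by exact_mod_cast hy
  have h3 : ∑ q ∈ Q, ((q : ℝ) ^ 2)⁻¹ ≤ (y : ℝ)⁻¹ := by
    have hsub : Q ⊆ Ioc y (max y (2 ^ L)) := by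
      intro q hq
      simp only [hQ, mem_filter, mem_range] at hq
      rw [mem_Ioc]
      exact ⟨hq.2.2, hq.1.le.trans (le_max_right _ _)⟩
    have h4 : ∑ q ∈ Q, ((q : ℝ) ^ 2)⁻¹ ≤ ∑ q ∈ Ioc y (max y (2 ^ L)), ((q : ℝ) ^ 2)⁻¹ :=
      Finset.sum_le_sum_of_subset_of_nonneg hsub (fun i _ _ => by positivity)
    have h5 := sum_Ioc_inv_sq_le_sub (α := ℝ) (k := y) (n := max y (2 ^ L)) (by omega)
      (le_max_left _ _)
    have h6 : (0 : ℝ) ≤ ((max y (2 ^ L) : ℕ) : ℝ)⁻¹ := by positivity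
    linarith
  have h4 : ∑ q ∈ Q, (1 : ℝ) / q ≤ L := by
    have hsub : Q ⊆ (Icc 1 (2 ^ L)).erase 1 := by
      intro q hq
      simp only [hQ, mem_filter, mem_range] at hq
      rw [mem_erase, mem_Icc]
      have := hq.2.1.two_le
      exact ⟨by omega, by omega, hq.1.le⟩
    have h5 : ∑ q ∈ Q, (1 : ℝ) / q ≤ ∑ q ∈ (Icc (1 : ℕ) (2 ^ L)).erase 1, (1 : ℝ) / (q : ℝ) :=
      Finset.sum_le_sum_of_subset_of_nonneg hsub (fun i _ _ => by positivity)
    have hmem : 1 ∈ Icc 1 (2 ^ L) := by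
      rw [mem_Icc]
      exact ⟨le_refl _, Nat.one_le_two_pow⟩
    have h6 := Finset.add_sum_erase (Icc 1 (2 ^ L)) (fun q : ℕ => (1 : ℝ) / q) hmem
    have h7 : ((harmonic (2 ^ L) : ℚ) : ℝ) = ∑ q ∈ Icc (1 : ℕ) (2 ^ L), (1 : ℝ) / (q : ℝ) := by
      rw [harmonic_eq_sum_Icc]
      push_cast
      apply Finset.sum_congr rfl
      intro q _
      rw [one_div]
    have h8 := harmonic_le_one_add_log (2 ^ L)
    have h9 : Real.log ((2 ^ L : ℕ) : ℝ) = L * Real.log 2 := by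
      push_cast
      rw [Real.log_pow]
    have h10 : Real.log 2 ≤ 1 := by
      have := Real.log_two_lt_d9
      linarith
    have h11 : (L : ℝ) * Real.log 2 ≤ L := by
      have hL0 : (0 : ℝ) ≤ L := Nat.cast_nonneg _
      nlinarith
    rw [h7, h9] at h8
    simp only [Nat.cast_one, div_one] at h6
    linarith
  have h5 : (Z : ℝ) * ∑ q ∈ Q, ((q : ℝ) ^ 2)⁻¹ ≤ Z / y := by
    rw [div_eq_mul_inv]
    exact mul_le_mul_of_nonneg_left h3 hZ0
  linarith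

end Pool.Agent.Lib.MP_fed790_nt.QP
end

section

/-!
# QP Num2r: the sums of small real numbers, Part I

`a = aN k = 2k ≥ 4`; all definitions of `NumDefs` are irreducible: use `unfold`.

* `lemmaZ_num2`: `Z1 = a^421 L`, `y = a^700`, `1/εg = a^420`: the left side is
  `Z1 a^(420-700) + L a^420 + Z1/a^210 + L`. `L a^420 = Z1/a ≤ Z1/4`, `L ≤ Z1/a^421`,
  so the sum is `≤ Z1 (a^(-280) + 1/4 + a^(-210) + a^(-421)) < Z1` (`Z1 > 0`).
* `hsD_num`: `a^203 k (k²+1) a^(-420) ≤ a^(-210)` as `k (k²+1) ≤ a³`.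
* `small_num`: `k² ≤ a²`, `8 k² ≤ a³`; `δ = a^(-900) ≤ a^(-60)/(8 a^100)` as `8 ≤ a^2`;
  `256 k^8 = a^8`.
* `card_Pr_le`: `Pr ⊆ univ`; a crude bound suffices? `#univ = (S t)² = 4 a² t² = 4 a^202 ≤ a^203`
  (as `S = 4k = 2a`, `a ≥ 4`). Yes.
* `IV_num`, `hnumI`: `Z2 = Λ²`, `Λ = 2^(k a^810)`. First `L a^900 ≤ Λ`: `L ≤ 2 a^(900 + 420(Ω+1)) ≤
  a^(1321 + 420 k)` (`Ω(k) ≤ k`; e.g. `2^Ω(k) ≤ k`), so
  `L a^900 ≤ a^(2221 + 420 k) ≤ 2^(a (2221 + 420 k)) ≤ 2^(k a^810)`.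
  `ρ = k (a^(-280) + a^(-210)) ≤ a^(-209)`, `c1 = k (Λ + L a^420 + L) ≤ 3 k Λ ≤ 2 a Λ`.
  `IV_num`: `ρ Z2 ≤ Z2/16`, `c1 ≤ 2 a Λ ≤ Λ²/16`.
  `hnumI`: the coefficients of `Z2` are `a^(-280)`, `a^(-210)`, `a^(-209)`,
  `k² a^203 a^(412-700) ≤ a^(-83)`, `k³ a^406 a^(-412) ≤ a^(-3)/8` (as `8k³ = a³`), sum `≤ 1/4`.
  The constants are `L a^420 + L + c1 + k² a^203 L a^412 + k³ a^406 L ≤ a^617 L * 5 + 2 a Λ ≤ Z2/4`.
-/

open Finset

namespace Pool.Agent.Lib.MP_fed790_nt.QP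

private lemma nr_a_ge {k : ℕ} (hk : 2 ≤ k) : (4 : ℝ) ≤ (aN k : ℝ) := by
  exact_mod_cast aN_ge hk

private lemma nr_a_eq (k : ℕ) : (aN k : ℝ) = 2 * k := by
  unfold aN; push_cast; ring

private lemma nr_L_pos (k : ℕ) : (1 : ℝ) ≤ (LN k : ℝ) := by
  have : 1 ≤ LN k := by unfold LN; omega
  exact_mod_cast this

private lemma nr_pow_le {a : ℝ} (ha : 4 ≤ a) {m n : ℕ} (h : m ≤ n) : a ^ m ≤ a ^ n :=
  pow_le_pow_right₀ (by linarith) h

theorem lemmaZ_num2 (k : ℕ) (hk : 2 ≤ k) :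
    ((Z1N k : ℝ) / yN k + LN k) / εgN k + (Z1N k * ε8N k + LN k) < Z1N k := by
  have ha := nr_a_ge hk
  have hL := nr_L_pos k
  unfold Z1N yN εgN ε8N
  push_cast
  generalize (aN k : ℝ) = a at *
  generalize (LN k : ℝ) = L at *
  have ha0 : 0 < a := by linarith
  have e1 : (a ^ 421 * L / a ^ 700 + L) / (1 / a ^ 420) = L * a ^ 141 + L * a ^ 420 := by
    rw [div_div_eq_mul_div, div_one, add_mul]
    congr 1
    rw [div_mul_eq_mul_div, div_eq_iff (by positivity)]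
    ring
  have e2 : a ^ 421 * L * (1 / a ^ 210) = L * a ^ 211 := by
    rw [mul_one_div, div_eq_iff (by positivity)]
    ring
  rw [e1, e2]
  have h1 : a ^ 141 ≤ a ^ 420 := nr_pow_le ha (by norm_num)
  have h2 : a ^ 211 ≤ a ^ 420 := nr_pow_le ha (by norm_num)
  have h3 : a ^ 141 < a ^ 420 := pow_lt_pow_right₀ (by linarith) (by norm_num)
  have h4 : 1 ≤ a ^ 420 := one_le_pow₀ (by linarith)
  have h5 : 4 * a ^ 420 ≤ a ^ 421 := by
    rw [pow_succ a 420, mul_comm (a ^ 420) a]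
    exact mul_le_mul_of_nonneg_right ha (by positivity)
  have h6 : a ^ 141 + a ^ 420 + a ^ 211 + 1 < a ^ 421 := by linarith
  have h7 : L * (a ^ 141 + a ^ 420 + a ^ 211 + 1) < L * a ^ 421 :=
    mul_lt_mul_of_pos_left h6 (by linarith)
  linarith

theorem hsD_num (k : ℕ) (hk : 2 ≤ k) : (nPN k : ℝ) * k * εTN k ≤ ε8N k := by
  have ha := nr_a_ge hk
  have hak := nr_a_eq k
  unfold nPN εTN εgN ε8N
  push_cast
  generalize (aN k : ℝ) = a at *
  have ha0 : 0 < a := by linarith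
  have hk0 : (k : ℝ) = a / 2 := by linarith
  rw [hk0]
  have h1 : a ^ 203 * (a / 2) * (((a / 2) ^ 2 + 1) * (1 / a ^ 420)) =
      (a / 2 * ((a / 2) ^ 2 + 1)) * (1 / a ^ 217) := by
    field_simp
  rw [h1, mul_one_div, div_le_div_iff₀ (by positivity) (by positivity)]
  have h2 : a / 2 * ((a / 2) ^ 2 + 1) ≤ a ^ 7 := by
    have h3 : a ^ 3 ≤ a ^ 7 := nr_pow_le ha (by norm_num)
    nlinarith [mul_pos ha0 ha0]
  calc a / 2 * ((a / 2) ^ 2 + 1) * a ^ 210 ≤ a ^ 7 * a ^ 210 :=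
        mul_le_mul_of_nonneg_right h2 (by positivity)
    _ = 1 * a ^ 217 := by ring

theorem small_num (k : ℕ) (hk : 2 ≤ k) :
    (k : ℝ) ^ 2 * ηN k ≤ 1 / 4 ∧ 8 * (k : ℝ) ^ 2 * ηN k ≤ δN k ∧
      δN k ≤ δ0N k / (8 * tN k) ∧ δ0N k ≤ 1 / 8 ∧ 256 * (k : ℝ) ^ 8 * ε4N k < 1 := by
  have ha := nr_a_ge hk
  have hak := nr_a_eq k
  unfold ηN δN δ0N tN ε4N
  push_cast
  generalize (aN k : ℝ) = a at *
  have ha0 : 0 < a := by linarith
  have hk0 : (k : ℝ) = a / 2 := by linarith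
  rw [hk0]
  refine ⟨?_, ?_, ?_, ?_, ?_⟩
  · rw [mul_one_div, div_le_div_iff₀ (by positivity) (by norm_num)]
    have h1 : a ^ 2 ≤ a ^ 903 := nr_pow_le ha (by norm_num)
    nlinarith
  · rw [mul_one_div, div_le_div_iff₀ (by positivity) (by positivity)]
    have h1 : 8 * (a / 2) ^ 2 ≤ a ^ 3 := by nlinarith [mul_pos ha0 ha0]
    calc 8 * (a / 2) ^ 2 * a ^ 900 ≤ a ^ 3 * a ^ 900 :=
          mul_le_mul_of_nonneg_right h1 (by positivity)
      _ = 1 * a ^ 903 := by ring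
  · rw [div_div, div_le_div_iff₀ (by positivity) (by positivity)]
    have h1 : (8 : ℝ) ≤ a ^ 2 := by nlinarith
    calc 1 * (a ^ 60 * (8 * a ^ 100)) = 8 * a ^ 160 := by ring
      _ ≤ a ^ 2 * a ^ 160 := mul_le_mul_of_nonneg_right h1 (by positivity)
      _ = a ^ 162 := by ring
      _ ≤ a ^ 900 := nr_pow_le ha (by norm_num)
      _ = 1 * a ^ 900 := by ring
  · rw [div_le_div_iff₀ (by positivity) (by norm_num)]
    have h1 : a ^ 2 ≤ a ^ 60 := nr_pow_le ha (by norm_num)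
    nlinarith
  · rw [mul_one_div, div_lt_one (by positivity)]
    have h1 : 256 * (a / 2) ^ 8 = a ^ 8 := by ring
    rw [h1]
    exact pow_lt_pow_right₀ (by linarith) (by norm_num)

theorem card_Pr_le (k : ℕ) (hk : 2 ≤ k) : (Pr (SN k) (tN k)).card ≤ nPN k := by
  have ha := aN_ge hk
  have hS : SN k = 2 * aN k := by unfold SN aN; ring
  have h1 : (Pr (SN k) (tN k)).card ≤ (SN k * tN k) * (SN k * tN k) := by
    unfold Pr
    refine (Finset.card_filter_le _ _).trans ?_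
    simp [Fintype.card_prod, Fintype.card_fin]
  refine h1.trans ?_
  rw [hS]
  unfold tN nPN
  calc 2 * aN k * aN k ^ 100 * (2 * aN k * aN k ^ 100) = 4 * aN k ^ 202 := by ring
    _ ≤ aN k * aN k ^ 202 := Nat.mul_le_mul_right _ ha
    _ = aN k ^ 203 := by ring

private lemma nr_om_le (k : ℕ) (hk : 2 ≤ k) : om k ≤ k := by
  unfold om
  rw [ArithmeticFunction.cardFactors_apply]
  have h1 : 2 ^ k.primeFactorsList.length ≤ k.primeFactorsList.prod :=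
    List.pow_card_le_prod _ _ fun x hx => (Nat.prime_of_mem_primeFactorsList hx).two_le
  rw [Nat.prod_primeFactorsList (by omega)] at h1
  exact (Nat.lt_two_pow_self.le).trans h1

/-- `L a^900 ≤ Λ`. -/
theorem LN_le_ΛN (k : ℕ) (hk : 2 ≤ k) : LN k * aN k ^ 900 ≤ ΛN k := by
  have ha := aN_ge hk
  have hom := nr_om_le k hk
  have h1 : LN k ≤ aN k ^ (1321 + 420 * k) := by
    unfold LN lN
    have h2 : 1 ≤ aN k ^ (900 + 420 * (om k + 1)) := Nat.one_le_pow _ _ (by omega)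
    calc aN k ^ (900 + 420 * (om k + 1)) + 1 ≤ 2 * aN k ^ (900 + 420 * (om k + 1)) := by omega
      _ ≤ aN k * aN k ^ (900 + 420 * (om k + 1)) := Nat.mul_le_mul_right _ (by omega)
      _ = aN k ^ (901 + 420 * (om k + 1)) := by
          rw [← pow_succ', show 900 + 420 * (om k + 1) + 1 = 901 + 420 * (om k + 1) by omega]
      _ ≤ aN k ^ (1321 + 420 * k) := Nat.pow_le_pow_right (by omega) (by omega)
  have h3 : LN k * aN k ^ 900 ≤ aN k ^ (2221 + 420 * k) := by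
    calc LN k * aN k ^ 900 ≤ aN k ^ (1321 + 420 * k) * aN k ^ 900 := Nat.mul_le_mul_right _ h1
      _ = aN k ^ (2221 + 420 * k) := by rw [← pow_add]; congr 1; omega
  refine h3.trans ?_
  unfold ΛN bN
  have h4 : aN k ^ (2221 + 420 * k) ≤ 2 ^ (aN k * (2221 + 420 * k)) := by
    rw [pow_mul]
    exact Nat.pow_le_pow_left Nat.lt_two_pow_self.le _
  refine h4.trans ?_
  rw [← pow_mul]
  refine Nat.pow_le_pow_right (by norm_num) ?_
  have h5 : 2221 + 420 * k ≤ k * aN k ^ 6 := by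
    have h6 : 4 ^ 6 ≤ aN k ^ 6 := Nat.pow_le_pow_left ha 6
    nlinarith
  calc aN k * (2221 + 420 * k) ≤ aN k * (k * aN k ^ 6) := Nat.mul_le_mul_left _ h5
    _ = aN k ^ 7 * k := by ring
    _ ≤ aN k ^ 810 * k := Nat.mul_le_mul_right _ (Nat.pow_le_pow_right (by omega) (by norm_num))

theorem ρN_le (k : ℕ) (hk : 2 ≤ k) : ρN k ≤ 1 / (aN k : ℝ) ^ 209 := by
  have ha := nr_a_ge hk
  have hak := nr_a_eq k
  unfold ρN yN εgN ε8N
  push_cast
  generalize (aN k : ℝ) = a at *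
  have ha0 : 0 < a := by linarith
  have hk0 : (k : ℝ) = a / 2 := by linarith
  rw [hk0]
  have h1 : 1 / (a ^ 700 * (1 / a ^ 420)) ≤ 1 / a ^ 210 := by
    have h2 : a ^ 700 * (1 / a ^ 420) = a ^ 280 := by
      rw [mul_one_div, div_eq_iff (by positivity)]; ring
    rw [h2]
    exact one_div_le_one_div_of_le (by positivity) (nr_pow_le ha (by norm_num))
  calc a / 2 * (1 / (a ^ 700 * (1 / a ^ 420)) + 1 / a ^ 210)
      ≤ a / 2 * (1 / a ^ 210 + 1 / a ^ 210) :=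
        mul_le_mul_of_nonneg_left (by linarith) (by positivity)
    _ = 1 / a ^ 209 := by
        field_simp
        norm_num

private lemma nr_La {k : ℕ} (hk : 2 ≤ k) : (LN k : ℝ) * (aN k : ℝ) ^ 900 ≤ ΛN k := by
  exact_mod_cast LN_le_ΛN k hk

theorem c1N_le (k : ℕ) (hk : 2 ≤ k) : c1N k ≤ 2 * aN k * ΛN k := by
  have ha := nr_a_ge hk
  have hak := nr_a_eq k
  have hL := nr_L_pos k
  have hLa := nr_La hk
  unfold c1N εgN
  generalize (aN k : ℝ) = a at *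
  generalize (LN k : ℝ) = L at *
  generalize (ΛN k : ℝ) = Λ at *
  have ha0 : 0 < a := by linarith
  have hk0 : (k : ℝ) = a / 2 := by linarith
  rw [hk0]
  have h1 : L / (1 / a ^ 420) = L * a ^ 420 := by
    rw [div_div_eq_mul_div, div_one]
  have h2 : L * a ^ 420 ≤ Λ :=
    (mul_le_mul_of_nonneg_left (nr_pow_le ha (by norm_num)) (by linarith)).trans hLa
  have h3 : L ≤ Λ := by
    refine le_trans ?_ hLa
    exact le_mul_of_one_le_right (by linarith) (one_le_pow₀ (by linarith))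
  rw [h1]
  have h4 : a / 2 * (Λ + L * a ^ 420 + L) ≤ a / 2 * (Λ + Λ + Λ) :=
    mul_le_mul_of_nonneg_left (by linarith) (by linarith)
  have h5 : 0 ≤ a * Λ := mul_nonneg ha0.le (by linarith)
  linarith

private lemma nr_Λ_ge {k : ℕ} (hk : 2 ≤ k) : 32 * (aN k : ℝ) ≤ ΛN k := by
  have ha := nr_a_ge hk
  have hL := nr_L_pos k
  have hLa := nr_La hk
  generalize (aN k : ℝ) = a at *
  generalize (LN k : ℝ) = L at *
  have h1 : a ^ 4 ≤ a ^ 900 := nr_pow_le ha (by norm_num)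
  have h2 : a ^ 900 ≤ L * a ^ 900 := le_mul_of_one_le_left (by positivity) hL
  have h3 : (32 : ℝ) ≤ a ^ 3 := by
    have : (4 : ℝ) ^ 3 ≤ a ^ 3 := pow_le_pow_left₀ (by norm_num) ha 3
    linarith
  have h4 : 32 * a ≤ a ^ 4 := by
    calc 32 * a ≤ a ^ 3 * a := mul_le_mul_of_nonneg_right h3 (by linarith)
      _ = a ^ 4 := by ring
  linarith

/-- `ρ Z + c1 ≤ Z/4` for `Z = Λ²`. -/
theorem IV_num (k : ℕ) (hk : 2 ≤ k) : ρN k * Z2N k + c1N k ≤ (Z2N k : ℝ) / 4 := by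
  have ha := nr_a_ge hk
  have h1 := ρN_le k hk
  have h2 := c1N_le k hk
  have h3 := nr_Λ_ge hk
  have hZ : (Z2N k : ℝ) = (ΛN k : ℝ) ^ 2 := by unfold Z2N; push_cast; ring
  rw [hZ]
  generalize (aN k : ℝ) = a at *
  generalize (ΛN k : ℝ) = Λ at *
  generalize ρN k = ρ at *
  generalize c1N k = c at *
  have h4 : 1 / a ^ 209 ≤ 1 / 16 := by
    refine one_div_le_one_div_of_le (by norm_num) ?_
    have : a ^ 2 ≤ a ^ 209 := nr_pow_le ha (by norm_num)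
    nlinarith
  have h5 : ρ * Λ ^ 2 ≤ 1 / 16 * Λ ^ 2 :=
    mul_le_mul_of_nonneg_right (h1.trans h4) (by positivity)
  have h6 : 32 * a * Λ ≤ Λ * Λ := mul_le_mul_of_nonneg_right h3 (by linarith)
  nlinarith

private lemma nr_final {a L Z c κ : ℝ} (ha : 4 ≤ a) (hκ : κ = a / 2) (hL : 1 ≤ L)
    (hLa : L * a ^ 900 ≤ c) (hc : 32 * a ≤ c) (hZ : Z = c ^ 2) :
    (Z / a ^ 700 + L) / (1 / a ^ 420) + (Z * (1 / a ^ 210) + L) + Z / 4 +
      κ * (a ^ 203 * κ) * ((Z / a ^ 700 + L) / (1 / a ^ 412)) +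
      κ * (a ^ 203 * κ) ^ 2 * (Z * (1 / a ^ 412) + L) < Z := by
  have ha0 : 0 < a := by linarith
  have hc0 : 0 < c := by linarith
  have hZ0 : 0 < Z := by rw [hZ]; positivity
  subst hκ
  have i3 : 0 < 1 / a ^ 3 := by positivity
  have i3' : 1 / a ^ 3 ≤ 1 / 64 := by
    refine one_div_le_one_div_of_le (by norm_num) ?_
    have : (4 : ℝ) ^ 3 ≤ a ^ 3 := pow_le_pow_left₀ (by norm_num) ha 3
    linarith
  have inv : ∀ n : ℕ, 3 ≤ n → 1 / a ^ n ≤ 1 / 64 := fun n hn =>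
    (one_div_le_one_div_of_le (by positivity) (nr_pow_le ha hn)).trans i3'
  have up : ∀ n : ℕ, n ≤ 617 → L * a ^ n ≤ L * a ^ 617 := fun n hn =>
    mul_le_mul_of_nonneg_left (nr_pow_le ha hn) (by linarith)
  have e1 : (Z / a ^ 700 + L) / (1 / a ^ 420) = Z * (1 / a ^ 280) + L * a ^ 420 := by
    rw [div_div_eq_mul_div, div_one, add_mul]
    congr 1
    rw [div_mul_eq_mul_div, div_eq_iff (by positivity), mul_one_div, div_mul_eq_mul_div,
      eq_div_iff (by positivity)]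
    ring
  have e2 : a / 2 * (a ^ 203 * (a / 2)) * ((Z / a ^ 700 + L) / (1 / a ^ 412)) =
      Z * (1 / a ^ 83) / 4 + L * a ^ 617 / 4 := by
    rw [div_div_eq_mul_div, div_one, add_mul, mul_add]
    congr 1
    · field_simp
      norm_num
    · ring
  have e3 : a / 2 * (a ^ 203 * (a / 2)) ^ 2 * (Z * (1 / a ^ 412) + L) =
      Z * (1 / a ^ 3) / 8 + L * a ^ 409 / 8 := by
    rw [mul_add]
    congr 1
    · field_simp
      norm_num
    · ring
  rw [e1, e2, e3]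
  have m1 : Z * (1 / a ^ 280) ≤ Z * (1 / 64) :=
    mul_le_mul_of_nonneg_left (inv 280 (by norm_num)) hZ0.le
  have m2 : Z * (1 / a ^ 210) ≤ Z * (1 / 64) :=
    mul_le_mul_of_nonneg_left (inv 210 (by norm_num)) hZ0.le
  have m3 : Z * (1 / a ^ 83) ≤ Z * (1 / 64) :=
    mul_le_mul_of_nonneg_left (inv 83 (by norm_num)) hZ0.le
  have m4 : Z * (1 / a ^ 3) ≤ Z * (1 / 64) :=
    mul_le_mul_of_nonneg_left i3' hZ0.le
  have u1 := up 420 (by norm_num)
  have u2 := up 409 (by norm_num)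
  have u3 : L ≤ L * a ^ 617 := le_mul_of_one_le_right (by linarith) (one_le_pow₀ (by linarith))
  have u0 : 0 < L * a ^ 617 := by positivity
  have v1 : 4 * (L * a ^ 617) ≤ c := by
    refine le_trans ?_ hLa
    have : 4 * a ^ 617 ≤ a ^ 900 := by
      calc 4 * a ^ 617 ≤ a * a ^ 617 := mul_le_mul_of_nonneg_right ha (by positivity)
        _ = a ^ 618 := by ring
        _ ≤ a ^ 900 := nr_pow_le ha (by norm_num)
    nlinarith
  have v2 : c ≤ Z / 16 := by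
    rw [hZ]
    nlinarith
  linarith

theorem hnumI (k : ℕ) (hk : 2 ≤ k) :
    ((Z2N k : ℝ) / yN k + LN k) / εgN k + (Z2N k * ε8N k + LN k) + (ρN k * Z2N k + c1N k) +
      k * ((nPN k : ℝ) * k) * (((Z2N k : ℝ) / yN k + LN k) / ε10N k) +
      k * ((nPN k : ℝ) * k) ^ 2 * (Z2N k * ε10N k + LN k) < Z2N k := by
  have hIV := IV_num k hk
  have ha := nr_a_ge hk
  have hak := nr_a_eq k
  have hZ : (Z2N k : ℝ) = (ΛN k : ℝ) ^ 2 := by unfold Z2N; push_cast; ring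
  have key := nr_final (κ := (k : ℝ)) ha (by linarith) (nr_L_pos k) (nr_La hk) (nr_Λ_ge hk) hZ
  unfold yN εgN ε8N nPN ε10N
  push_cast
  linarith

end Pool.Agent.Lib.MP_fed790_nt.QP
end

section

/-!
# QP Num3: size comparisons (powers of 2), Parts III and IV

`Pa` is the product of all moduli: `T0 ≤ Pa ≤ (2 T0)^(nP k)`. `a = aN k = 2k ≥ 4`,
`ℓ = lN k r = a^(900+420r)`, `N_(r+1) = 2^(a^420 ℓ)`. Unfold the definitions of `NumDefs`.
`T0 = 2^(k² ℓ + a^813) ≤ 2^(a² ℓ)` (even `2 T0 ≤ 2^(a² ℓ)`), `Pa ≤ 2^(a² ℓ a^204) = 2^(a^206 ℓ)`,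
`W^S ≤ W^(S+1) ≤ W^(2S+3) ≤ 2^(a^804) ≤ 2^ℓ`, `r_N = a^430 ≤ 2^(430 a) ≤ 2^ℓ`, `K = a^12 ≤ 2^ℓ`,
so `X = K² r W^(S+1) T0² Pa ≤ 2^(2ℓ + ℓ + ℓ + 2a²ℓ + a^206 ℓ) ≤ 2^(a^207 ℓ)`.

* `XN_num`: `W^S * 4 S X ≤ 2^(ℓ + ℓ + a^207 ℓ) ≤ 2^(a^420 ℓ)` (`4S = 8a ≤ 2^ℓ`).
* `IV_num2`: `E1 = W^S (3 S X) ≤ 2^(a^208 ℓ)`; `E1^(a^203) ≤ 2^(a^411 ℓ)`;
  `W^S E1^(nP) (Z2 + 1) ≤ 2^(ℓ + a^411 ℓ + ℓ)` (`Z2 + 1 ≤ 2^(2 k a^810 + 1) ≤ 2^ℓ`); the sum of the
  three terms is at most `3 * 2^(a^412 ℓ) ≤ 2^(a^420 ℓ)`.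
* `final_num`: `lN k (r+1) ≤ a^(900 + 420 (Ω+1)) ≤ a^(1320 (Ω+1))`.
-/

open Finset

namespace Pool.Agent.Lib.MP_fed790_nt.QP

/-- `Z'`. -/
noncomputable def ZzN (k r Pa : ℕ) : ℕ := rN k * WN k ^ (SN k + 1) * T0N k r ^ 2 * Pa
/-- `Y = K Z'`. -/
noncomputable def YyN (k r Pa : ℕ) : ℕ := KN k * ZzN k r Pa
/-- `X = K Y`. -/
noncomputable def XxN (k r Pa : ℕ) : ℕ := KN k * YyN k r Pa
/-- `w`. -/
noncomputable def wwN (k r Pa : ℕ) : ℕ := KN k * WN k ^ (SN k + 1) * T0N k r * Pa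
/-- `M = r w`. -/
noncomputable def MmN (k r Pa : ℕ) : ℕ := rN k * wwN k r Pa

private theorem n3_lN_succ (k r : ℕ) : lN k (r + 1) = aN k ^ 420 * lN k r := by
  unfold lN
  rw [← pow_add]
  congr 1
  ring

private theorem n3_lN_ge (k r m : ℕ) (hk : 2 ≤ k) (hm : m ≤ 900) : aN k ^ m ≤ lN k r := by
  unfold lN
  exact Nat.pow_le_pow_right (by have := aN_ge hk; omega) (by omega)

private theorem n3_k_le (k : ℕ) : k ≤ aN k := by unfold aN; omega

private theorem n3_T0 (k r : ℕ) (hk : 2 ≤ k) : 2 * T0N k r ≤ 2 ^ (aN k ^ 2 * lN k r) := by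
  have ha := aN_ge hk
  have h1 : 2 * T0N k r = 2 ^ (lN k r * k ^ 2 + aN k ^ 813 + 1) := by
    unfold T0N NN
    rw [← pow_mul, ← pow_add, pow_succ]
    ring
  rw [h1]
  apply Nat.pow_le_pow_right (by norm_num)
  have h2 : aN k ^ 814 ≤ lN k r := n3_lN_ge k r 814 hk (by norm_num)
  have h3 : aN k ^ 814 = aN k * aN k ^ 813 := by ring
  have h4 : 1 ≤ aN k ^ 813 := pow_aN_pos hk 813
  have h5 : aN k ^ 813 + 1 ≤ lN k r := by nlinarith
  have h6 : k ^ 2 + 1 ≤ aN k ^ 2 := by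
    have : aN k = 2 * k := by unfold aN; rfl
    rw [this]; nlinarith
  nlinarith

private theorem n3_Pa (k r Pa : ℕ) (hk : 2 ≤ k) (hPa : Pa ≤ (2 * T0N k r) ^ (nPN k * k)) :
    Pa ≤ 2 ^ (aN k ^ 206 * lN k r) := by
  have ha := aN_ge hk
  have h1 : nPN k * k ≤ aN k ^ 204 := by
    have h : nPN k = aN k ^ 203 := by unfold nPN; rfl
    rw [h, pow_succ (aN k) 203]
    exact Nat.mul_le_mul_left _ (n3_k_le k)
  calc Pa ≤ (2 * T0N k r) ^ (nPN k * k) := hPa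
    _ ≤ (2 ^ (aN k ^ 2 * lN k r)) ^ (nPN k * k) := Nat.pow_le_pow_left (n3_T0 k r hk) _
    _ ≤ (2 ^ (aN k ^ 2 * lN k r)) ^ (aN k ^ 204) := Nat.pow_le_pow_right (Nat.two_pow_pos _) h1
    _ = 2 ^ (aN k ^ 206 * lN k r) := by
        rw [← pow_mul]
        congr 1
        ring

private theorem n3_powle (k r : ℕ) (hk : 2 ≤ k) (m : ℕ) (hm : m ≤ 1000) :
    aN k ^ m ≤ 2 ^ lN k r := by
  have ha := aN_ge hk
  have h1 : aN k ≤ 2 ^ aN k := (Nat.lt_two_pow_self).le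
  calc aN k ^ m ≤ (2 ^ aN k) ^ m := Nat.pow_le_pow_left h1 m
    _ = 2 ^ (aN k * m) := by rw [← pow_mul]
    _ ≤ 2 ^ lN k r := by
        apply Nat.pow_le_pow_right (by norm_num)
        have h2 : aN k ^ 6 ≤ lN k r := n3_lN_ge k r 6 hk (by norm_num)
        have h3 : m ≤ aN k ^ 5 := by
          calc m ≤ 4 ^ 5 := by norm_num; omega
            _ ≤ aN k ^ 5 := Nat.pow_le_pow_left ha 5
        calc aN k * m ≤ aN k * aN k ^ 5 := Nat.mul_le_mul_left _ h3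
          _ = aN k ^ 6 := by ring
          _ ≤ lN k r := h2

private theorem n3_WN (k r m : ℕ) (hk : 2 ≤ k) (hm : m ≤ 2 * SN k + 3) :
    WN k ^ m ≤ 2 ^ lN k r := by
  have h1 := WN_pow_le k hk
  have h2 := WN_ge k hk
  calc WN k ^ m ≤ WN k ^ (2 * SN k + 3) := Nat.pow_le_pow_right (by omega) hm
    _ ≤ 2 ^ (aN k ^ 804) := h1
    _ ≤ 2 ^ lN k r := Nat.pow_le_pow_right (by norm_num) (n3_lN_ge k r 804 hk (by norm_num))

private theorem n3_X (k r Pa : ℕ) (hk : 2 ≤ k) (hPa : Pa ≤ (2 * T0N k r) ^ (nPN k * k)) :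
    XxN k r Pa ≤ 2 ^ (aN k ^ 207 * lN k r) := by
  have ha := aN_ge hk
  have hK : KN k ≤ 2 ^ lN k r := by
    have : KN k = aN k ^ 12 := by unfold KN; rfl
    rw [this]; exact n3_powle k r hk 12 (by norm_num)
  have hr : rN k ≤ 2 ^ lN k r := by
    have : rN k = aN k ^ 430 := by unfold rN; rfl
    rw [this]; exact n3_powle k r hk 430 (by norm_num)
  have hW := n3_WN k r (SN k + 1) hk (by omega)
  have hT : T0N k r ≤ 2 ^ (aN k ^ 2 * lN k r) := le_trans (by omega) (n3_T0 k r hk)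
  have hT2 : T0N k r ^ 2 ≤ 2 ^ (2 * (aN k ^ 2 * lN k r)) := by
    calc T0N k r ^ 2 ≤ (2 ^ (aN k ^ 2 * lN k r)) ^ 2 := Nat.pow_le_pow_left hT 2
      _ = 2 ^ (2 * (aN k ^ 2 * lN k r)) := by rw [← pow_mul, mul_comm]
  have hP := n3_Pa k r Pa hk hPa
  unfold XxN YyN ZzN
  calc KN k * (KN k * (rN k * WN k ^ (SN k + 1) * T0N k r ^ 2 * Pa))
      ≤ 2 ^ lN k r * (2 ^ lN k r * (2 ^ lN k r * 2 ^ lN k r * 2 ^ (2 * (aN k ^ 2 * lN k r)) *
          2 ^ (aN k ^ 206 * lN k r))) := by gcongr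
    _ = 2 ^ (4 * lN k r + 2 * (aN k ^ 2 * lN k r) + aN k ^ 206 * lN k r) := by
        rw [← pow_add, ← pow_add, ← pow_add, ← pow_add, ← pow_add]
        congr 1
        ring
    _ ≤ 2 ^ (aN k ^ 207 * lN k r) := by
        apply Nat.pow_le_pow_right (by norm_num)
        have h1 : 4 + 2 * aN k ^ 2 ≤ 3 * aN k ^ 206 := by
          have h2 : aN k ^ 206 = aN k ^ 2 * aN k ^ 204 := by ring
          have h3 : 1 ≤ aN k ^ 204 := pow_aN_pos hk 204
          have h4 : 16 ≤ aN k ^ 2 := by nlinarith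
          nlinarith
        have h5 : 4 + 2 * aN k ^ 2 + aN k ^ 206 ≤ aN k ^ 207 := by
          have h6 : aN k ^ 207 = aN k * aN k ^ 206 := by ring
          have h7 : 4 * aN k ^ 206 ≤ aN k * aN k ^ 206 := Nat.mul_le_mul_right _ ha
          omega
        calc 4 * lN k r + 2 * (aN k ^ 2 * lN k r) + aN k ^ 206 * lN k r
            = (4 + 2 * aN k ^ 2 + aN k ^ 206) * lN k r := by ring
          _ ≤ aN k ^ 207 * lN k r := Nat.mul_le_mul_right _ h5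

private theorem n3_SX (k r Pa : ℕ) (hk : 2 ≤ k) (hPa : Pa ≤ (2 * T0N k r) ^ (nPN k * k)) :
    WN k ^ SN k * (4 * SN k * XxN k r Pa) ≤ 2 ^ (aN k ^ 208 * lN k r) := by
  have ha := aN_ge hk
  have hW := n3_WN k r (SN k) hk (by omega)
  have hX := n3_X k r Pa hk hPa
  have hS : 4 * SN k ≤ 2 ^ lN k r := by
    have h1 : 4 * SN k = 8 * aN k := by unfold SN aN; ring
    rw [h1]
    calc 8 * aN k ≤ aN k ^ 3 := by
          have : 16 ≤ aN k ^ 2 := by nlinarith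
          nlinarith
      _ ≤ 2 ^ lN k r := n3_powle k r hk 3 (by norm_num)
  calc WN k ^ SN k * (4 * SN k * XxN k r Pa)
      ≤ 2 ^ lN k r * (2 ^ lN k r * 2 ^ (aN k ^ 207 * lN k r)) := by gcongr
    _ = 2 ^ ((2 + aN k ^ 207) * lN k r) := by
        rw [← pow_add, ← pow_add]
        congr 1
        ring
    _ ≤ 2 ^ (aN k ^ 208 * lN k r) := by
        apply Nat.pow_le_pow_right (by norm_num)
        apply Nat.mul_le_mul_right
        have h6 : aN k ^ 208 = aN k * aN k ^ 207 := by ring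
        have h7 : 4 * aN k ^ 207 ≤ aN k * aN k ^ 207 := Nat.mul_le_mul_right _ ha
        have h8 : 1 ≤ aN k ^ 207 := pow_aN_pos hk 207
        omega

private theorem n3_le (k r m : ℕ) (hk : 2 ≤ k) (hm : m ≤ 412) :
    2 ^ (aN k ^ m * lN k r) * 4 ≤ NN k (r + 1) := by
  have ha := aN_ge hk
  have h0 : NN k (r + 1) = 2 ^ lN k (r + 1) := by unfold NN; rfl
  rw [h0, n3_lN_succ]
  have h1 : 2 ^ (aN k ^ m * lN k r) * 4 = 2 ^ (aN k ^ m * lN k r + 2) := by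
    rw [pow_add _ _ 2]
    norm_num
  rw [h1]
  apply Nat.pow_le_pow_right (by norm_num)
  have h2 : aN k ^ m ≤ aN k ^ 412 := Nat.pow_le_pow_right (by omega) hm
  have h3 : 1 ≤ lN k r := le_trans (pow_aN_pos hk 0) (n3_lN_ge k r 0 hk (by norm_num))
  have h4 : aN k ^ 412 + 2 ≤ aN k ^ 420 := by
    have h6 : aN k ^ 420 = aN k ^ 8 * aN k ^ 412 := by ring
    have h7 : 4 ^ 8 ≤ aN k ^ 8 := Nat.pow_le_pow_left ha 8
    have h8 : 1 ≤ aN k ^ 412 := pow_aN_pos hk 412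
    have h9 : 4 ^ 8 * aN k ^ 412 ≤ aN k ^ 8 * aN k ^ 412 := Nat.mul_le_mul_right _ h7
    have h10 : 4 ^ 8 * aN k ^ 412 = 65536 * aN k ^ 412 := by norm_num
    omega
  calc aN k ^ m * lN k r + 2 ≤ aN k ^ 412 * lN k r + 2 * lN k r := by
        have := Nat.mul_le_mul_right (lN k r) h2
        omega
    _ = (aN k ^ 412 + 2) * lN k r := by ring
    _ ≤ aN k ^ 420 * lN k r := Nat.mul_le_mul_right _ h4

theorem XN_num (k r Pa : ℕ) (hk : 2 ≤ k) (hPa : Pa ≤ (2 * T0N k r) ^ (nPN k * k)) :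
    WN k ^ SN k * (4 * SN k * XxN k r Pa) ≤ NN k (r + 1) := by
  have h1 := n3_SX k r Pa hk hPa
  have h2 := n3_le k r 208 hk (by norm_num)
  omega

/-- The size of the final progression. -/
theorem IV_num2 (k r Pa : ℕ) (hk : 2 ≤ k) (hPa : Pa ≤ (2 * T0N k r) ^ (nPN k * k)) :
    WN k ^ SN k + WN k ^ SN k * (3 * SN k * XxN k r Pa) +
      WN k ^ SN k * (WN k ^ SN k * (3 * SN k * XxN k r Pa)) ^ nPN k * (Z2N k + 1) ≤
      NN k (r + 1) := by
  have ha := aN_ge hk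
  have hl : 1 ≤ lN k r := le_trans (pow_aN_pos hk 0) (n3_lN_ge k r 0 hk (by norm_num))
  have hW := n3_WN k r (SN k) hk (by omega)
  have hE : WN k ^ SN k * (3 * SN k * XxN k r Pa) ≤ 2 ^ (aN k ^ 208 * lN k r) := by
    refine le_trans ?_ (n3_SX k r Pa hk hPa)
    gcongr
    norm_num
  have hZ : Z2N k + 1 ≤ 2 ^ lN k r := by
    have h1 : Z2N k = 2 ^ (aN k ^ 811) := by
      unfold Z2N ΛN bN
      rw [← pow_mul, ← pow_mul]
      congr 1
      have : aN k = 2 * k := by unfold aN; rfl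
      rw [pow_succ (aN k) 810]
      nth_rewrite 3 [this]
      ring
    have h2 : 1 ≤ 2 ^ (aN k ^ 811) := Nat.one_le_two_pow
    calc Z2N k + 1 ≤ 2 ^ (aN k ^ 811) * 2 := by rw [h1]; omega
      _ = 2 ^ (aN k ^ 811 + 1) := (pow_succ 2 (aN k ^ 811)).symm
      _ ≤ 2 ^ lN k r := by
          apply Nat.pow_le_pow_right (by norm_num)
          have h3 := n3_lN_ge k r 812 hk (by norm_num)
          have h4 : aN k ^ 812 = aN k * aN k ^ 811 := by ring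
          have h5 : 4 * aN k ^ 811 ≤ aN k * aN k ^ 811 := Nat.mul_le_mul_right _ ha
          have h6 : 1 ≤ aN k ^ 811 := pow_aN_pos hk 811
          omega
  have hnP : nPN k = aN k ^ 203 := by unfold nPN; rfl
  have h3 : WN k ^ SN k * (WN k ^ SN k * (3 * SN k * XxN k r Pa)) ^ nPN k * (Z2N k + 1) ≤
      2 ^ (aN k ^ 412 * lN k r) := by
    calc WN k ^ SN k * (WN k ^ SN k * (3 * SN k * XxN k r Pa)) ^ nPN k * (Z2N k + 1)
        ≤ 2 ^ lN k r * (2 ^ (aN k ^ 208 * lN k r)) ^ nPN k * 2 ^ lN k r := by gcongr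
      _ = 2 ^ ((2 + aN k ^ 411) * lN k r) := by
          rw [← pow_mul, ← pow_add, ← pow_add, hnP]
          congr 1
          ring
      _ ≤ 2 ^ (aN k ^ 412 * lN k r) := by
          apply Nat.pow_le_pow_right (by norm_num)
          apply Nat.mul_le_mul_right
          have h6 : aN k ^ 412 = aN k * aN k ^ 411 := by ring
          have h7 : 4 * aN k ^ 411 ≤ aN k * aN k ^ 411 := Nat.mul_le_mul_right _ ha
          have h8 : 1 ≤ aN k ^ 411 := pow_aN_pos hk 411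
          omega
  have h1 : WN k ^ SN k ≤ 2 ^ (aN k ^ 412 * lN k r) := by
    refine le_trans hW (Nat.pow_le_pow_right (by norm_num) ?_)
    exact Nat.le_mul_of_pos_left _ (pow_aN_pos hk 412)
  have h2 : WN k ^ SN k * (3 * SN k * XxN k r Pa) ≤ 2 ^ (aN k ^ 412 * lN k r) := by
    refine le_trans hE (Nat.pow_le_pow_right (by norm_num) ?_)
    exact Nat.mul_le_mul_right _ (Nat.pow_le_pow_right (by omega) (by norm_num))
  have h4 := n3_le k r 412 hk le_rfl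
  omega

theorem final_num (k r : ℕ) (hk : 2 ≤ k) (hr : r ≤ om k) :
    NN k (r + 1) ≤ 2 ^ ((2 * k) ^ (1320 * (om k + 1))) := by
  have h0 : NN k (r + 1) = 2 ^ ((2 * k) ^ (900 + 420 * (r + 1))) := by
    unfold NN lN aN; rfl
  rw [h0]
  apply Nat.pow_le_pow_right (by norm_num)
  apply Nat.pow_le_pow_right (by omega)
  omega

end Pool.Agent.Lib.MP_fed790_nt.QP
end

section

/-!
# QP A2: good elements of a progression of natural numbers

`A + B ν`, `gcd(A,B) = 1`, every prime `≤ y` divides `B`.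

**`card_sg_gt_le`** (Markov). By `sum_sg_le` with `α = A`, `β = B` (a prime dividing `B` does not
divide `A`; `A + B ν > 0` as `A > 0`), `εg * #{ν : εg < sg y (A + B ν)} ≤ ∑ sg ≤ Z / y + L`.

**`card_not_cop_le`.** If `gcd(A + B ν, D) > 1`, there is a prime `q` dividing both; `q ≤ y` is
impossible (then `q ∣ B`, hence `q ∣ A`, contradiction to `gcd(A,B) = 1`). So `y < q` and
`card_gcd_le` applies.

**`exists_good`.** The number of bad `ν` is at most `(Z/y + L)/εg + (Z ε8 + L) < Z`.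
-/

open Finset

namespace Pool.Agent.Lib.MP_fed790_nt.QP

private theorem natAbs_cast (A B ν : ℕ) : ((A : ℤ) + (B : ℤ) * (ν : ℤ)).natAbs = A + B * ν := by
  have h : (A : ℤ) + (B : ℤ) * (ν : ℤ) = ((A + B * ν : ℕ) : ℤ) := by push_cast; ring
  rw [h, Int.natAbs_natCast]

private theorem cop_aux {A B : ℕ} (hcop : A.Coprime B) {q : ℕ} (hq : q.Prime)
    (h : (q : ℤ) ∣ (B : ℤ)) : ¬ (q : ℤ) ∣ (A : ℤ) := by
  intro h2
  rw [Int.natCast_dvd_natCast] at h h2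
  exact Nat.not_coprime_of_dvd_of_dvd hq.one_lt h2 h hcop

theorem card_sg_gt_le (y A B Z L : ℕ) (εg : ℝ) (hεg : 0 < εg) (hy : 1 ≤ y) (hA : 0 < A)
    (hcop : A.Coprime B) (hAB : A + B * Z < 2 ^ L) :
    (((range Z).filter (fun ν : ℕ => εg < sg y (A + B * ν))).card : ℝ) ≤ (Z / y + L) / εg := by
  rw [le_div_iff₀ hεg]
  have h1 := sum_sg_le y L hy (A : ℤ) (B : ℤ) Z (fun q hq _ h => cop_aux hcop hq h)
    (by
      intro ν _
      have : (0 : ℤ) < (A : ℤ) := by exact_mod_cast hA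
      positivity)
    (by
      intro ν hν
      rw [natAbs_cast]
      have := Nat.mul_le_mul_left B hν.le
      omega)
  simp only [natAbs_cast] at h1
  refine le_trans ?_ h1
  have h2 : ∑ ν ∈ (range Z).filter (fun ν : ℕ => εg < sg y (A + B * ν)), sg y (A + B * ν) ≤
      ∑ ν ∈ range Z, sg y (A + B * ν) := by
    apply Finset.sum_le_sum_of_subset_of_nonneg (filter_subset _ _)
    intro i _ _
    unfold sg
    positivity
  refine le_trans ?_ h2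
  rw [← nsmul_eq_mul]
  apply Finset.card_nsmul_le_sum
  intro ν hν
  exact (mem_filter.1 hν).2.le

theorem card_not_cop_le (y A B Z D L : ℕ) (hcop : A.Coprime B)
    (hyB : ∀ ℓ : ℕ, ℓ.Prime → ℓ ≤ y → ℓ ∣ B) (hD : 0 < D) (hDL : D < 2 ^ L) :
    (((range Z).filter (fun ν : ℕ => ¬ (A + B * ν).Coprime D)).card : ℝ) ≤ Z * sg y D + L := by
  classical
  have h1 := card_gcd_le y (A : ℤ) (B : ℤ) Z D L hD hDL (fun q hq _ h => cop_aux hcop hq h)
  refine le_trans ?_ h1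
  have h2 : (range Z).filter (fun ν : ℕ => ¬ (A + B * ν).Coprime D) ⊆
      (range Z).filter (fun ν : ℕ =>
        ∃ q : ℕ, q.Prime ∧ y < q ∧ q ∣ D ∧ (q : ℤ) ∣ (A : ℤ) + (B : ℤ) * ν) := by
    intro ν hν
    rw [mem_filter] at hν ⊢
    refine ⟨hν.1, ?_⟩
    obtain ⟨q, hq, hq1, hq2⟩ := Nat.Prime.not_coprime_iff_dvd.1 hν.2
    refine ⟨q, hq, ?_, hq2, ?_⟩
    · by_contra hlt
      have h3 := hyB q hq (by omega)
      have h4 : q ∣ A := (Nat.dvd_add_left (h3.mul_right ν)).1 hq1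
      exact Nat.not_coprime_of_dvd_of_dvd hq.one_lt h4 h3 hcop
    · have : ((q : ℕ) : ℤ) ∣ ((A + B * ν : ℕ) : ℤ) := Int.natCast_dvd_natCast.2 hq1
      push_cast at this
      exact this
  exact_mod_cast Finset.card_le_card h2

theorem exists_good (y A B Z D L : ℕ) (εg ε8 : ℝ) (hεg : 0 < εg) (hy : 1 ≤ y) (hA : 0 < A)
    (hcop : A.Coprime B) (hyB : ∀ ℓ : ℕ, ℓ.Prime → ℓ ≤ y → ℓ ∣ B) (hAB : A + B * Z < 2 ^ L)
    (hD : 0 < D) (hDL : D < 2 ^ L) (hsD : sg y D ≤ ε8)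
    (hnum : ((Z : ℝ) / y + L) / εg + (Z * ε8 + L) < Z) :
    ∃ ν < Z, sg y (A + B * ν) ≤ εg ∧ (A + B * ν).Coprime D := by
  classical
  by_contra hcon
  push Not at hcon
  have h1 := card_sg_gt_le y A B Z L εg hεg hy hA hcop hAB
  have h2 := card_not_cop_le y A B Z D L hcop hyB hD hDL
  have h3 : range Z ⊆ (range Z).filter (fun ν : ℕ => εg < sg y (A + B * ν)) ∪
      (range Z).filter (fun ν : ℕ => ¬ (A + B * ν).Coprime D) := by
    intro ν hν
    rw [mem_union, mem_filter, mem_filter]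
    by_cases h : εg < sg y (A + B * ν)
    · exact Or.inl ⟨hν, h⟩
    · exact Or.inr ⟨hν, hcon ν (mem_range.1 hν) (not_lt.1 h)⟩
  have h4 := (Finset.card_le_card h3).trans (Finset.card_union_le _ _)
  rw [card_range] at h4
  have h5 : (Z : ℝ) ≤ (((range Z).filter (fun ν : ℕ => εg < sg y (A + B * ν))).card : ℝ) +
      (((range Z).filter (fun ν : ℕ => ¬ (A + B * ν).Coprime D)).card : ℝ) := by
    exact_mod_cast h4
  have h6 : (Z : ℝ) * sg y D ≤ Z * ε8 := mul_le_mul_of_nonneg_left hsD (Nat.cast_nonneg _)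
  linarith

end Pool.Agent.Lib.MP_fed790_nt.QP
end

section

/-!
# QP Num3r: the sums of small real numbers, Part III

`a = aN k = 2k ≥ 4`, `S = 4k = 2a`, `K = a^12`, `r_N = a^430`, `t = a^100`, `δ = a^(-900)`,
`δ0 = a^(-60)`, `M = r_N w`, `w = K W^(S+1) T0 Pa`, `X = K² r_N W^(S+1) T0² Pa`, `T0 ≤ Pa`.
Simple facts: `T0 ≥ 2^(a^813) ≥ a^1000` (e.g. `a^1000 ≤ 2^(1000 a) ≤ 2^(a^813)`), `M ≥ T0`.

* `hrt_num`: `(a^(-60)/(2 a^100))² a^430 = a^110/4 ≥ a^100`.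
* `hMt_num`: `M = r_N K W^(S+1) T0 Pa ≥ 4 t T0 Pa ≥ 4 t T0²` (`r_N ≥ 4t`).
* `hδK_num`: `δ0 (4 S K M) = 8 a^13 a^(-60) M ≤ M/2`, `2 ≤ M/2`.
* `hεc_num`: with `S = 2a`: `24 (2 δ0 4 S K M + 4)/M = 24 (16 a^(-47) + 4/M) ≤ 24 * 17 a^(-47) ≤
  a^(-42)` (`M ≥ 4 a^47`, `408 ≤ 1024 ≤ a^5`); `220/√t = 220 a^(-50) ≤ a^(-46)` (`√(a^100) = a^50`);
  `r² (2 (4 S K M) + 2) δ/M = a^860 (16 a^13 + 2/M) a^(-900) ≤ 17 a^(-27)`,
  `4 r² W^(S+1) T0/M = 4 a^860/(a^442 Pa) ≤ a^(-27)` (`Pa ≥ T0 ≥ a^1000`), so the last term is at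
  most `16 (18 a^(-27))² = 5184 a^(-54) ≤ a^(-47)` (`5184 ≤ 4^7`). `5 (a^(-42) + a^(-46) + a^(-47)) ≤
  a^(-40)` (`15 ≤ a²`).
* `sel_num`: `X ≥ T0² ≥ T0 Λ² …`: first `2 T0 c1/X ≤ a^(-1000)`: `c1 ≤ 2 a Λ` (`c1N_le`),
  `X ≥ T0² Pa ≥ T0³`, `T0 ≥ 2^(a^813) ≥ 4 a^1001 Λ` (`Λ = 2^(k a^810)`); `2 T0 L/X ≤ a^(-1000)`
  (`L ≤ Λ` by `LN_le_ΛN`) and `L Pa/X ≤ L/T0² ≤ a^(-1000)`. Then (`nP = a^203`, `ρ ≤ a^(-209)`,
  `εT = (k²+1) a^(-420) ≤ a^(-418)`, `1/y = a^(-700)`):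
  term 1 `≤ a^203 * 2 a^(-209) = 2 a^(-6)`; term 2 `≤ a^406 k * 2 a^(-418) ≤ a^(-10)`; term 3
  `≤ a^406 * 4 a^(-418) ≤ a^(-11)`; term 4: `S² k = 16 k³ = 2 a³`, the quotient is
  `(2/t + 32/K² + 2 K εc)/ε4 = a^9 (2 a^(-100) + 32 a^(-24) + 2 a^(-28)) ≤ a^9 * 36 a^(-24)`, so
  term 4 `≤ 72 a^(-12)`. The sum is `< 1`.
-/

open Finset

namespace Pool.Agent.Lib.MP_fed790_nt.QP

private lemma q_a_ge {k : ℕ} (hk : 2 ≤ k) : (4 : ℝ) ≤ (aN k : ℝ) := by
  exact_mod_cast aN_ge hk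

private lemma q_a_eq (k : ℕ) : (aN k : ℝ) = 2 * k := by
  unfold aN; push_cast; ring

private lemma q_pow_le {a : ℝ} (ha : 4 ≤ a) {m n : ℕ} (h : m ≤ n) : a ^ m ≤ a ^ n :=
  pow_le_pow_right₀ (by linarith) h

private lemma q_four_pow {a : ℝ} (ha : 4 ≤ a) (n : ℕ) : (4 : ℝ) ^ n ≤ a ^ n :=
  pow_le_pow_left₀ (by norm_num) ha n

/-- `4 a^1003 Λ ≤ T0`. -/
private lemma q_T0 (k r : ℕ) (hk : 2 ≤ k) : 4 * aN k ^ 1003 * ΛN k ≤ T0N k r := by
  have ha := aN_ge hk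
  have hka : k ≤ aN k := by unfold aN; omega
  have h1 : aN k ≤ 2 ^ aN k := (Nat.lt_two_pow_self).le
  have h2 : aN k ^ 1003 ≤ 2 ^ (aN k * 1003) := by
    rw [pow_mul]; exact Nat.pow_le_pow_left h1 _
  have h3 : ΛN k = 2 ^ (aN k ^ 810 * k) := by
    unfold ΛN bN; rw [← pow_mul]
  have h4 : 2 ^ (aN k ^ 813) ≤ T0N k r := by
    unfold T0N
    exact Nat.le_mul_of_pos_left _ (Nat.pow_pos (pos_NN k r))
  refine le_trans ?_ h4
  calc 4 * aN k ^ 1003 * ΛN k ≤ 2 ^ 2 * 2 ^ (aN k * 1003) * 2 ^ (aN k ^ 810 * k) := by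
        rw [h3]; gcongr; norm_num
    _ = 2 ^ (2 + aN k * 1003 + aN k ^ 810 * k) := by rw [← pow_add, ← pow_add]
    _ ≤ 2 ^ (aN k ^ 813) := by
        apply Nat.pow_le_pow_right (by norm_num)
        have h5 : aN k ^ 810 * k ≤ aN k ^ 811 := by
          rw [pow_succ (aN k) 810]; exact Nat.mul_le_mul_left _ hka
        have h6 : 1003 ≤ aN k ^ 5 := le_trans (by norm_num) (Nat.pow_le_pow_left ha 5)
        have h7 : aN k * 1003 ≤ aN k ^ 811 := by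
          calc aN k * 1003 ≤ aN k * aN k ^ 5 := Nat.mul_le_mul_left _ h6
            _ = aN k ^ 6 := by ring
            _ ≤ aN k ^ 811 := Nat.pow_le_pow_right (by omega) (by norm_num)
        have h8 : 2 ≤ aN k ^ 811 := by
          calc 2 ≤ aN k := by omega
            _ = aN k ^ 1 := (pow_one _).symm
            _ ≤ aN k ^ 811 := Nat.pow_le_pow_right (by omega) (by norm_num)
        have h9 : 4 * aN k ^ 811 ≤ aN k ^ 812 := by
          rw [pow_succ (aN k) 811, mul_comm 4]; exact Nat.mul_le_mul_left _ ha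
        have h10 : aN k ^ 812 ≤ aN k ^ 813 := Nat.pow_le_pow_right (by omega) (by norm_num)
        omega

private lemma q_T0r (k r : ℕ) (hk : 2 ≤ k) :
    4 * (aN k : ℝ) ^ 1003 * ΛN k ≤ T0N k r := by
  exact_mod_cast q_T0 k r hk

private lemma q_T0a (k r : ℕ) (hk : 2 ≤ k) : 4 * (aN k : ℝ) ^ 1003 ≤ T0N k r := by
  have h1 := q_T0r k r hk
  have h2 : (1 : ℝ) ≤ ΛN k := by exact_mod_cast pos_ΛN k
  have ha := q_a_ge hk
  have h3 : 4 * (aN k : ℝ) ^ 1003 ≤ 4 * (aN k : ℝ) ^ 1003 * ΛN k :=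
    le_mul_of_one_le_right (by positivity) h2
  linarith

private lemma q_M_eq (k r Pa : ℕ) : (MmN k r Pa : ℝ) =
    (aN k : ℝ) ^ 442 * ((WN k : ℝ) ^ (SN k + 1) * T0N k r) * Pa := by
  unfold MmN wwN
  have h1 : rN k = aN k ^ 430 := by unfold rN; rfl
  have h2 : KN k = aN k ^ 12 := by unfold KN; rfl
  rw [h1, h2]
  push_cast
  ring

private lemma q_W1 (k : ℕ) (hk : 2 ≤ k) (m : ℕ) : (1 : ℝ) ≤ (WN k : ℝ) ^ m := by
  have h : (1 : ℝ) ≤ WN k := by exact_mod_cast (by have := WN_ge k hk; omega : 1 ≤ WN k)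
  exact one_le_pow₀ h

private lemma q_M_ge (k r Pa : ℕ) (hk : 2 ≤ k) (hPa : T0N k r ≤ Pa) :
    4 * (aN k : ℝ) ^ 442 ≤ MmN k r Pa := by
  rw [q_M_eq]
  have ha := q_a_ge hk
  have hW := q_W1 k hk (SN k + 1)
  have hT : (1 : ℝ) ≤ T0N k r := by exact_mod_cast pos_T0N k r
  have hT4 := q_T0a k r hk
  have hP : (T0N k r : ℝ) ≤ Pa := by exact_mod_cast hPa
  have h1 : (1 : ℝ) ≤ (aN k : ℝ) ^ 1003 := one_le_pow₀ (by linarith)
  have h4 : (4 : ℝ) ≤ Pa := by linarith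
  have h2 : (1 : ℝ) ≤ (WN k : ℝ) ^ (SN k + 1) * T0N k r := one_le_mul_of_one_le_of_one_le hW hT
  calc 4 * (aN k : ℝ) ^ 442 = (aN k : ℝ) ^ 442 * 1 * 4 := by ring
    _ ≤ (aN k : ℝ) ^ 442 * ((WN k : ℝ) ^ (SN k + 1) * T0N k r) * Pa := by gcongr

theorem hrt_num (k : ℕ) (hk : 2 ≤ k) : (tN k : ℝ) ≤ (δ0N k / (2 * tN k)) ^ 2 * rN k := by
  have ha := q_a_ge hk
  unfold tN δ0N rN
  push_cast
  generalize (aN k : ℝ) = a at *
  have ha0 : 0 < a := by linarith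
  have h1 : (1 / a ^ 60 / (2 * a ^ 100)) ^ 2 * a ^ 430 = a ^ 110 / 4 := by
    field_simp
    norm_num
  rw [h1, le_div_iff₀ (by norm_num)]
  have h2 : (4 : ℝ) ≤ a ^ 10 := by
    have := q_pow_le ha (show 1 ≤ 10 by norm_num)
    linarith
  calc a ^ 100 * 4 ≤ a ^ 100 * a ^ 10 := mul_le_mul_of_nonneg_left h2 (by positivity)
    _ = a ^ 110 := by ring

theorem hMt_num (k r Pa : ℕ) (hk : 2 ≤ k) (hPa : T0N k r ≤ Pa) :
    4 * tN k * T0N k r ^ 2 ≤ MmN k r Pa := by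
  have ha := aN_ge hk
  have h1 : rN k = aN k ^ 430 := by unfold rN; rfl
  have h2 : tN k = aN k ^ 100 := by unfold tN; rfl
  have hK := pos_KN hk
  have hW : 1 ≤ WN k ^ (SN k + 1) := Nat.one_le_pow _ _ (by have := WN_ge k hk; omega)
  unfold MmN wwN
  rw [h1, h2]
  have h3 : 4 * aN k ^ 100 ≤ aN k ^ 430 := by
    calc 4 * aN k ^ 100 ≤ aN k * aN k ^ 100 := Nat.mul_le_mul_right _ ha
      _ = aN k ^ 101 := by ring
      _ ≤ aN k ^ 430 := Nat.pow_le_pow_right (by omega) (by norm_num)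
  calc 4 * aN k ^ 100 * T0N k r ^ 2 = 4 * aN k ^ 100 * (1 * 1 * T0N k r * T0N k r) := by ring
    _ ≤ aN k ^ 430 * (KN k * WN k ^ (SN k + 1) * T0N k r * Pa) := by gcongr; omega

theorem hδK_num (k r Pa : ℕ) (hk : 2 ≤ k) (hPa : T0N k r ≤ Pa) :
    δ0N k * (4 * SN k * KN k * MmN k r Pa) + 2 ≤ MmN k r Pa := by
  have ha := q_a_ge hk
  have hak := q_a_eq k
  have hM := q_M_ge k r Pa hk hPa
  have hS : (SN k : ℝ) = 2 * aN k := by rw [hak]; unfold SN; push_cast; ring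
  have h1 : (KN k : ℝ) = (aN k : ℝ) ^ 12 := by unfold KN; push_cast; rfl
  rw [hS, h1]
  unfold δ0N
  generalize (MmN k r Pa : ℝ) = M at *
  generalize (aN k : ℝ) = a at *
  have ha0 : 0 < a := by linarith
  have h2 : (1 : ℝ) ≤ a ^ 442 := one_le_pow₀ (by linarith)
  have h4 : 4 ≤ M := by linarith
  have h3 : 1 / a ^ 60 * (4 * (2 * a) * a ^ 12 * M) = 8 / a ^ 47 * M := by
    field_simp
    norm_num
  have h5 : 8 / a ^ 47 ≤ 1 / 2 := by
    rw [div_le_div_iff₀ (by positivity) (by norm_num)]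
    have := q_four_pow ha 2
    have h6 := q_pow_le ha (show 2 ≤ 47 by norm_num)
    linarith
  have h6 : 8 / a ^ 47 * M ≤ 1 / 2 * M := mul_le_mul_of_nonneg_right h5 (by linarith)
  rw [h3]
  linarith

theorem hεc_num (k r Pa : ℕ) (hk : 2 ≤ k) (hPa : T0N k r ≤ Pa) :
    5 * (24 * (2 * δ0N k * (4 * SN k * KN k * MmN k r Pa) + 4) / MmN k r Pa +
      220 / Real.sqrt (tN k) +
        16 * ((rN k : ℝ) ^ 2 * (2 * (4 * SN k * KN k * MmN k r Pa) + 2) * δN k / MmN k r Pa +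
          4 * (rN k : ℝ) ^ 2 * (WN k : ℝ) ^ (SN k + 1) * T0N k r / MmN k r Pa) ^ 2) ≤ εcN k := by
  have ha := q_a_ge hk
  have hak := q_a_eq k
  have hM := q_M_ge k r Pa hk hPa
  have hS : (SN k : ℝ) = 2 * aN k := by rw [hak]; unfold SN; push_cast; ring
  have h1 : (KN k : ℝ) = (aN k : ℝ) ^ 12 := by unfold KN; push_cast; rfl
  have h2 : (rN k : ℝ) = (aN k : ℝ) ^ 430 := by unfold rN; push_cast; rfl
  have hsq : Real.sqrt (tN k) = (aN k : ℝ) ^ 50 := by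
    have : (tN k : ℝ) = ((aN k : ℝ) ^ 50) ^ 2 := by unfold tN; push_cast; ring
    rw [this, Real.sqrt_sq (by positivity)]
  have hWT : (WN k : ℝ) ^ (SN k + 1) * T0N k r ≤ MmN k r Pa / (4 * (aN k : ℝ) ^ 887) := by
    rw [q_M_eq, le_div_iff₀ (by positivity)]
    have hP : (T0N k r : ℝ) ≤ Pa := by exact_mod_cast hPa
    have hT4 := q_T0a k r hk
    have hW := q_W1 k hk (SN k + 1)
    have h3 : 4 * (aN k : ℝ) ^ 887 ≤ (aN k : ℝ) ^ 442 * Pa := by
      have h4 : (aN k : ℝ) ^ 887 ≤ (aN k : ℝ) ^ 1003 := q_pow_le ha (by norm_num)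
      have h5 : (1 : ℝ) ≤ (aN k : ℝ) ^ 442 := one_le_pow₀ (by linarith)
      have h6 : (0 : ℝ) ≤ Pa := Nat.cast_nonneg _
      have h7 : (Pa : ℝ) ≤ (aN k : ℝ) ^ 442 * Pa := le_mul_of_one_le_left h6 h5
      linarith
    calc (WN k : ℝ) ^ (SN k + 1) * T0N k r * (4 * (aN k : ℝ) ^ 887)
        ≤ (WN k : ℝ) ^ (SN k + 1) * T0N k r * ((aN k : ℝ) ^ 442 * Pa) := by gcongr
      _ = _ := by ring
  have hWT0 : 0 ≤ (WN k : ℝ) ^ (SN k + 1) * T0N k r := by positivity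
  rw [hsq, h2, h1, hS, mul_assoc (4 * ((aN k : ℝ) ^ 430) ^ 2)]
  unfold δ0N εcN δN
  generalize (WN k : ℝ) ^ (SN k + 1) * (T0N k r : ℝ) = V at *
  generalize (MmN k r Pa : ℝ) = M at *
  generalize (aN k : ℝ) = a at *
  have ha0 : 0 < a := by linarith
  have hM0 : 0 < M := lt_of_lt_of_le (by positivity) hM
  have e47 : 4 * a ^ 47 ≤ M := by
    have := q_pow_le ha (show 47 ≤ 442 by norm_num)
    linarith
  -- term 1
  have t1 : 24 * (2 * (1 / a ^ 60) * (4 * (2 * a) * a ^ 12 * M) + 4) / M ≤ 1 / a ^ 42 := by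
    have e1 : 24 * (2 * (1 / a ^ 60) * (4 * (2 * a) * a ^ 12 * M) + 4) / M =
        24 * (16 / a ^ 47 + 4 / M) := by
      field_simp
      ring
    have e2 : 4 / M ≤ 1 / a ^ 47 := by
      rw [div_le_div_iff₀ hM0 (by positivity)]
      linarith
    have e3 : 24 * (16 / a ^ 47 + 1 / a ^ 47) = 408 / a ^ 47 := by ring
    have e4 : 408 / a ^ 47 ≤ 1 / a ^ 42 := by
      rw [div_le_div_iff₀ (by positivity) (by positivity)]
      have h5 := q_four_pow ha 5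
      have h6 : (408 : ℝ) ≤ a ^ 5 := by linarith
      calc 408 * a ^ 42 ≤ a ^ 5 * a ^ 42 := mul_le_mul_of_nonneg_right h6 (by positivity)
        _ = 1 * a ^ 47 := by ring
    rw [e1]
    linarith
  -- term 2
  have t2 : 220 / a ^ 50 ≤ 1 / a ^ 42 := by
    rw [div_le_div_iff₀ (by positivity) (by positivity)]
    have h5 := q_four_pow ha 4
    have h6 : (220 : ℝ) ≤ a ^ 8 := by
      have := q_pow_le ha (show 4 ≤ 8 by norm_num)
      linarith
    calc 220 * a ^ 42 ≤ a ^ 8 * a ^ 42 := mul_le_mul_of_nonneg_right h6 (by positivity)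
      _ = 1 * a ^ 50 := by ring
  -- term 3
  have t3a : (a ^ 430) ^ 2 * (2 * (4 * (2 * a) * a ^ 12 * M) + 2) * (1 / a ^ 900) / M ≤
      17 / a ^ 27 := by
    have e1 : (a ^ 430) ^ 2 * (2 * (4 * (2 * a) * a ^ 12 * M) + 2) * (1 / a ^ 900) / M =
        16 / a ^ 27 + 2 / M * (1 / a ^ 40) := by
      field_simp
      ring
    have e2 : 2 / M * (1 / a ^ 40) ≤ 1 * (1 / a ^ 27) := by
      have h3 : 2 / M ≤ 1 := by
        rw [div_le_one hM0]
        have : (1 : ℝ) ≤ a ^ 47 := one_le_pow₀ (by linarith)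
        linarith
      have h4 : 1 / a ^ 40 ≤ 1 / a ^ 27 :=
        one_div_le_one_div_of_le (by positivity) (q_pow_le ha (by norm_num))
      exact mul_le_mul h3 h4 (by positivity) (by norm_num)
    rw [e1]
    have e3 : 17 / a ^ 27 = 16 / a ^ 27 + 1 * (1 / a ^ 27) := by ring
    linarith
  have t3b : 4 * (a ^ 430) ^ 2 * V / M ≤ 1 / a ^ 27 := by
    have e1 : 4 * (a ^ 430) ^ 2 * V ≤ 4 * (a ^ 430) ^ 2 * (M / (4 * a ^ 887)) := by gcongr
    have e2 : 4 * (a ^ 430) ^ 2 * (M / (4 * a ^ 887)) = M * (1 / a ^ 27) := by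
      field_simp
    rw [div_le_iff₀ hM0]
    rw [e2] at e1
    linarith
  have t3a0 : 0 ≤ (a ^ 430) ^ 2 * (2 * (4 * (2 * a) * a ^ 12 * M) + 2) * (1 / a ^ 900) / M := by
    positivity
  have t3b0 : 0 ≤ 4 * (a ^ 430) ^ 2 * V / M := by positivity
  have t3 : 16 * ((a ^ 430) ^ 2 * (2 * (4 * (2 * a) * a ^ 12 * M) + 2) * (1 / a ^ 900) / M +
      4 * (a ^ 430) ^ 2 * V / M) ^ 2 ≤ 1 / a ^ 42 := by
    have e1 : (a ^ 430) ^ 2 * (2 * (4 * (2 * a) * a ^ 12 * M) + 2) * (1 / a ^ 900) / M +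
      4 * (a ^ 430) ^ 2 * V / M ≤ 18 / a ^ 27 := by
      have : 18 / a ^ 27 = 17 / a ^ 27 + 1 / a ^ 27 := by ring
      linarith
    have e2 := pow_le_pow_left₀ (add_nonneg t3a0 t3b0) e1 2
    have e3 : 16 * (18 / a ^ 27) ^ 2 = 5184 / a ^ 54 := by
      rw [div_pow]; ring
    have e4 : 5184 / a ^ 54 ≤ 1 / a ^ 42 := by
      rw [div_le_div_iff₀ (by positivity) (by positivity)]
      have h5 := q_four_pow ha 12
      have h6 : (5184 : ℝ) ≤ a ^ 12 := by linarith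
      calc 5184 * a ^ 42 ≤ a ^ 12 * a ^ 42 := mul_le_mul_of_nonneg_right h6 (by positivity)
        _ = 1 * a ^ 54 := by ring
    linarith
  have e5 : 15 / a ^ 42 ≤ 1 / a ^ 40 := by
    rw [div_le_div_iff₀ (by positivity) (by positivity)]
    have h5 := q_four_pow ha 2
    have h6 : (15 : ℝ) ≤ a ^ 2 := by linarith
    calc 15 * a ^ 40 ≤ a ^ 2 * a ^ 40 := mul_le_mul_of_nonneg_right h6 (by positivity)
      _ = 1 * a ^ 42 := by ring
  have e6 : 15 / a ^ 42 = 5 * (1 / a ^ 42 + 1 / a ^ 42 + 1 / a ^ 42) := by ring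
  linarith

private lemma q_X_eq (k r Pa : ℕ) : (XxN k r Pa : ℝ) =
    (aN k : ℝ) ^ 454 * (WN k : ℝ) ^ (SN k + 1) * ((T0N k r : ℝ) ^ 2 * Pa) := by
  unfold XxN YyN ZzN
  have h1 : rN k = aN k ^ 430 := by unfold rN; rfl
  have h2 : KN k = aN k ^ 12 := by unfold KN; rfl
  rw [h1, h2]
  push_cast
  ring

theorem sel_num (k r Pa : ℕ) (hk : 2 ≤ k) (hPa : T0N k r ≤ Pa) :
    (nPN k : ℝ) * (ρN k + 2 * T0N k r * c1N k / XxN k r Pa) +
      (nPN k : ℝ) ^ 2 * k * (εTN k + 2 * T0N k r * LN k / XxN k r Pa) +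
      (nPN k : ℝ) ^ 2 * (εTN k + 1 / yN k + 2 * T0N k r * LN k / XxN k r Pa +
        LN k * (Pa : ℝ) / XxN k r Pa) +
      (SN k : ℝ) ^ 2 * k * ((2 * (tN k : ℝ) ^ 3 + (tN k : ℝ) ^ 4 * (32 / (KN k : ℝ) ^ 2 +
        2 * KN k * εcN k)) / (ε4N k * (tN k : ℝ) ^ 4)) < 1 := by
  have ha := q_a_ge hk
  have hak := q_a_eq k
  have hρ := ρN_le k hk
  have hc := c1N_le k hk
  have hT4 := q_T0r k r hk
  have hΛ1 : (1 : ℝ) ≤ ΛN k := by exact_mod_cast pos_ΛN k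
  have hLΛ : (LN k : ℝ) ≤ ΛN k := by
    have h1 : (LN k : ℝ) * (aN k : ℝ) ^ 900 ≤ ΛN k := by exact_mod_cast LN_le_ΛN k hk
    have h2 : (LN k : ℝ) ≤ LN k * (aN k : ℝ) ^ 900 :=
      le_mul_of_one_le_right (Nat.cast_nonneg _) (one_le_pow₀ (by linarith))
    linarith
  have hL0 : (0 : ℝ) ≤ LN k := Nat.cast_nonneg _
  have hP : (T0N k r : ℝ) ≤ Pa := by exact_mod_cast hPa
  have hT1 : (1 : ℝ) ≤ T0N k r := by exact_mod_cast pos_T0N k r
  have hX : (T0N k r : ℝ) ^ 2 * Pa ≤ XxN k r Pa := by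
    rw [q_X_eq]
    have h1 : (1 : ℝ) ≤ (aN k : ℝ) ^ 454 := one_le_pow₀ (by linarith)
    have h2 := q_W1 k hk (SN k + 1)
    exact le_mul_of_one_le_left (by positivity) (one_le_mul_of_one_le_of_one_le h1 h2)
  have hS : (SN k : ℝ) = 2 * aN k := by rw [hak]; unfold SN; push_cast; ring
  have hK : (KN k : ℝ) = (aN k : ℝ) ^ 12 := by unfold KN; push_cast; rfl
  have ht : (tN k : ℝ) = (aN k : ℝ) ^ 100 := by unfold tN; push_cast; rfl
  have hn : (nPN k : ℝ) = (aN k : ℝ) ^ 203 := by unfold nPN; push_cast; rfl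
  have hy : (yN k : ℝ) = (aN k : ℝ) ^ 700 := by unfold yN; push_cast; rfl
  have hk0 : (k : ℝ) = aN k / 2 := by linarith
  rw [hS, hK, ht, hn, hy, hk0]
  unfold εTN εgN εcN ε4N
  rw [hk0]
  generalize ρN k = ρ at *
  generalize c1N k = c at *
  generalize (XxN k r Pa : ℝ) = X at *
  generalize (T0N k r : ℝ) = T at *
  generalize (LN k : ℝ) = L at *
  generalize (ΛN k : ℝ) = Λ at *
  generalize (Pa : ℝ) = P at *
  generalize (aN k : ℝ) = a at *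
  have ha0 : 0 < a := by linarith
  have hP1 : 1 ≤ P := by linarith
  have hT0 : 0 < T := by linarith
  have hTX : T ^ 2 ≤ X := le_trans (le_mul_of_one_le_right (by positivity) hP1) hX
  have hX0 : 0 < X := lt_of_lt_of_le (by positivity) hTX
  have hΛ0 : 0 < Λ := by linarith
  -- small quotients
  have hTΛ : Λ / T ≤ 1 / (4 * a ^ 1003) := by
    rw [div_le_div_iff₀ hT0 (by positivity)]
    linarith
  have s1 : 2 * T * c / X ≤ 1 / a ^ 1000 := by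
    have e1 : 2 * T * c ≤ 2 * T * (2 * a * Λ) := mul_le_mul_of_nonneg_left hc (by positivity)
    have e2 : 2 * T * (2 * a * Λ) / X ≤ 2 * T * (2 * a * Λ) / T ^ 2 :=
      div_le_div_of_nonneg_left (by positivity) (by positivity) hTX
    have e3 : 2 * T * (2 * a * Λ) / T ^ 2 = 4 * a * (Λ / T) := by
      field_simp
      norm_num
    have e4 : 4 * a * (Λ / T) ≤ 4 * a * (1 / (4 * a ^ 1003)) :=
      mul_le_mul_of_nonneg_left hTΛ (by positivity)
    have e5 : 4 * a * (1 / (4 * a ^ 1003)) = 1 / a ^ 1002 := by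
      field_simp
    have e6 : 1 / a ^ 1002 ≤ 1 / a ^ 1000 :=
      one_div_le_one_div_of_le (by positivity) (q_pow_le ha (by norm_num))
    have e7 : 2 * T * c / X ≤ 2 * T * (2 * a * Λ) / X := div_le_div_of_nonneg_right e1 hX0.le
    linarith
  have s2 : 2 * T * L / X ≤ 1 / a ^ 1000 := by
    have e1 : 2 * T * L ≤ 2 * T * Λ := mul_le_mul_of_nonneg_left hLΛ (by positivity)
    have e2 : 2 * T * Λ / X ≤ 2 * T * Λ / T ^ 2 :=
      div_le_div_of_nonneg_left (by positivity) (by positivity) hTX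
    have e3 : 2 * T * Λ / T ^ 2 = 2 * (Λ / T) := by
      field_simp
    have e5 : 2 * (1 / (4 * a ^ 1003)) ≤ 1 / a ^ 1000 := by
      rw [mul_one_div, div_le_div_iff₀ (by positivity) (by positivity)]
      have := q_pow_le ha (show 1000 ≤ 1003 by norm_num)
      have h0 : 0 < a ^ 1003 := by positivity
      linarith
    have e7 : 2 * T * L / X ≤ 2 * T * Λ / X := div_le_div_of_nonneg_right e1 hX0.le
    linarith
  have s3 : L * P / X ≤ 1 / a ^ 1000 := by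
    have e0 : L * P ≤ Λ * P := mul_le_mul_of_nonneg_right hLΛ (by linarith)
    have e1 : L * P / X ≤ Λ * P / X := div_le_div_of_nonneg_right e0 hX0.le
    have e2 : Λ * P / X ≤ Λ * P / (T ^ 2 * P) :=
      div_le_div_of_nonneg_left (by positivity) (by positivity) hX
    have hP0 : 0 < P := by linarith
    have e3 : Λ * P / (T ^ 2 * P) = Λ / T * (1 / T) := by
      field_simp
    have e4 : Λ / T * (1 / T) ≤ Λ / T * 1 := by
      apply mul_le_mul_of_nonneg_left _ (by positivity)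
      rw [div_le_one hT0]; exact hT1
    have e5 : 1 / (4 * a ^ 1003) ≤ 1 / a ^ 1000 := by
      apply one_div_le_one_div_of_le (by positivity)
      have := q_pow_le ha (show 1000 ≤ 1003 by norm_num)
      have h0 : 0 < a ^ 1003 := by positivity
      linarith
    linarith
  have p1 : 1 / a ^ 1000 ≤ 1 / a ^ 418 :=
    one_div_le_one_div_of_le (by positivity) (q_pow_le ha (by norm_num))
  have p2 : 1 / a ^ 1000 ≤ 1 / a ^ 209 :=
    one_div_le_one_div_of_le (by positivity) (q_pow_le ha (by norm_num))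
  have p3 : 1 / a ^ 700 ≤ 1 / a ^ 418 :=
    one_div_le_one_div_of_le (by positivity) (q_pow_le ha (by norm_num))
  have hT' : ((a / 2) ^ 2 + 1) * (1 / a ^ 420) ≤ 1 / a ^ 418 := by
    have e1 : (a / 2) ^ 2 + 1 ≤ a ^ 2 := by nlinarith
    calc ((a / 2) ^ 2 + 1) * (1 / a ^ 420) ≤ a ^ 2 * (1 / a ^ 420) :=
          mul_le_mul_of_nonneg_right e1 (by positivity)
      _ = 1 / a ^ 418 := by field_simp
  have A : a ^ 203 * (ρ + 2 * T * c / X) ≤ 1 / 8 := by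
    have e1 : a ^ 203 * (ρ + 2 * T * c / X) ≤ a ^ 203 * (1 / a ^ 209 + 1 / a ^ 209) :=
      mul_le_mul_of_nonneg_left (by linarith) (by positivity)
    have e2 : a ^ 203 * (1 / a ^ 209 + 1 / a ^ 209) = 2 / a ^ 6 := by
      field_simp
      norm_num
    have e3 : 2 / a ^ 6 ≤ 1 / 8 := by
      rw [div_le_div_iff₀ (by positivity) (by norm_num)]
      have := q_four_pow ha 6
      linarith
    linarith
  have B : (a ^ 203) ^ 2 * (a / 2) * (((a / 2) ^ 2 + 1) * (1 / a ^ 420) + 2 * T * L / X) ≤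
      1 / 8 := by
    have e1 : (a ^ 203) ^ 2 * (a / 2) * (((a / 2) ^ 2 + 1) * (1 / a ^ 420) + 2 * T * L / X) ≤
        (a ^ 203) ^ 2 * (a / 2) * (1 / a ^ 418 + 1 / a ^ 418) :=
      mul_le_mul_of_nonneg_left (by linarith) (by positivity)
    have e2 : (a ^ 203) ^ 2 * (a / 2) * (1 / a ^ 418 + 1 / a ^ 418) = 1 / a ^ 11 := by
      field_simp
      norm_num
    have e3 : 1 / a ^ 11 ≤ 1 / 8 := by
      apply one_div_le_one_div_of_le (by norm_num)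
      have := q_four_pow ha 11
      linarith
    linarith
  have C : (a ^ 203) ^ 2 * (((a / 2) ^ 2 + 1) * (1 / a ^ 420) + 1 / a ^ 700 + 2 * T * L / X +
      L * P / X) ≤ 1 / 8 := by
    have e1 : (a ^ 203) ^ 2 * (((a / 2) ^ 2 + 1) * (1 / a ^ 420) + 1 / a ^ 700 +
        2 * T * L / X + L * P / X) ≤ (a ^ 203) ^ 2 * (4 * (1 / a ^ 418)) :=
      mul_le_mul_of_nonneg_left (by linarith) (by positivity)
    have e2 : (a ^ 203) ^ 2 * (4 * (1 / a ^ 418)) = 4 / a ^ 12 := by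
      field_simp
    have e3 : 4 / a ^ 12 ≤ 1 / 8 := by
      rw [div_le_div_iff₀ (by positivity) (by norm_num)]
      have := q_four_pow ha 12
      linarith
    linarith
  have D : (2 * a) ^ 2 * (a / 2) * ((2 * (a ^ 100) ^ 3 + (a ^ 100) ^ 4 * (32 / (a ^ 12) ^ 2 +
      2 * a ^ 12 * (1 / a ^ 40))) / (1 / a ^ 9 * (a ^ 100) ^ 4)) ≤ 1 / 8 := by
    have e1 : (2 * a) ^ 2 * (a / 2) * ((2 * (a ^ 100) ^ 3 + (a ^ 100) ^ 4 * (32 / (a ^ 12) ^ 2 +
      2 * a ^ 12 * (1 / a ^ 40))) / (1 / a ^ 9 * (a ^ 100) ^ 4)) =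
        4 / a ^ 88 + 64 / a ^ 12 + 4 / a ^ 16 := by
      field_simp
      ring
    have e2 : 4 / a ^ 88 ≤ 4 / a ^ 12 :=
      div_le_div_of_nonneg_left (by norm_num) (by positivity) (q_pow_le ha (by norm_num))
    have e3 : 4 / a ^ 16 ≤ 4 / a ^ 12 :=
      div_le_div_of_nonneg_left (by norm_num) (by positivity) (q_pow_le ha (by norm_num))
    have e4 : 72 / a ^ 12 = 4 / a ^ 12 + 64 / a ^ 12 + 4 / a ^ 12 := by ring
    have e5 : 72 / a ^ 12 ≤ 1 / 8 := by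
      rw [div_le_div_iff₀ (by positivity) (by norm_num)]
      have := q_four_pow ha 12
      linarith
    rw [e1]
    linarith
  linarith

end Pool.Agent.Lib.MP_fed790_nt.QP
end
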