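import Pool.Agent.Lib.MP_fed790_nt.QP.Defs
import Pool.Agent.Lib.MP_fed790_nt.QP.C1
import Pool.Agent.Lib.MP_fed790_nt.QP.Num3r
import Pool.Agent.Lib.MP_fed790_nt.QP.D3

section

/-!
# QP A10: the gcd of two differences divides `W^(S+1)`

Let `a = T p h - T p' h'`, `b = T p h - T p'' h''` (integers), `g = gcd(a,b)`. By `cong`,
`a = W^S d + W^(2S+3) c` for some integer `c`, where `d = idx p - idx p'`, `0 < |d| < t`.

Every prime `ℓ ∣ g` is `≤ y`: otherwise `ℓ ∣ T p h - T p' h'` and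
`ℓ ∣ b - a = T p' h' - T p'' h''`, contradicting `tri` (the statement of `tri` is applied with
`(p, p', p'')`).

For a prime `ℓ ≤ y` let `w = v_ℓ(W) ≥ t` (`hWt : ℓ^t ∣ W`). `|d| < t < 2^t ≤ ℓ^t` implies
`ℓ^t ∤ d`, so `v_ℓ(d) < t ≤ w` and `v_ℓ(d + W^(S+3) c) = v_ℓ(d)`, so `v_ℓ(a) < (S+1) w`; hence
`v_ℓ(g) ≤ v_ℓ(a) < (S+1) w = v_ℓ(W^(S+1))`. So `g ∣ W^(S+1)` (compare all valuations; note
`a ≠ 0`, `g ≠ 0`). Alternative without valuations: for every prime power `ℓ^e ∣ g` one has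
`ℓ^e ∣ W^(S+1)` (`Nat.dvd_of_factors...`/`Nat.dvd_iff_prime_pow_dvd_dvd`): if
`ℓ^e ∤ W^(S+1)` then, since the divisors of `ℓ^∞` are totally ordered, `ℓ^((S+1) w) ∣ ℓ^e ∣ a`.
-/

open Finset

namespace Pool.Agent.Lib.MP_fed790_nt.QP

theorem gcd_dvd {G : Type*} [AddCommGroup G] {f : ℕ → G} {H : AddSubgroup G} {P : Type*}
    {idx : P → ℕ} {y W S T0 t : ℕ} {δ δ0 εT ε10 : ℝ} {s : Finset P} {T : P → H → ℕ}
    (hT : IsPool f H idx y W S T0 t δ δ0 εT ε10 s T) (hidx : ∀ p, idx p < t) (hW : 0 < W)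
    (hWt : ∀ ℓ : ℕ, ℓ.Prime → ℓ ≤ y → ℓ ^ t ∣ W)
    {p p' p'' : P} (hp : p ∈ s) (hp' : p' ∈ s) (hp'' : p'' ∈ s) (h1 : idx p ≠ idx p')
    (h2 : idx p' ≠ idx p'') (h3 : idx p ≠ idx p'') (h h' h'' : H) :
    Int.gcd ((T p h : ℤ) - T p' h') ((T p h : ℤ) - T p'' h'') ∣ W ^ (S + 1) := by
  set a : ℤ := (T p h : ℤ) - T p' h' with ha
  set b : ℤ := (T p h : ℤ) - T p'' h'' with hb
  set d : ℤ := (idx p : ℤ) - idx p' with hd
  -- the congruence
  have hcong : (W : ℤ) ^ (2 * S + 3) ∣ a - (W : ℤ) ^ S * d := by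
    have c1 := (Nat.modEq_iff_dvd.1 (hT.cong p hp h))
    have c2 := (Nat.modEq_iff_dvd.1 (hT.cong p' hp' h'))
    push_cast at c1 c2
    have c3 := dvd_sub c2 c1
    have e : (1 + (W : ℤ) ^ S * (idx p' : ℤ) - (T p' h' : ℤ)) -
        (1 + (W : ℤ) ^ S * (idx p : ℤ) - (T p h : ℤ)) = a - (W : ℤ) ^ S * d := by
      rw [ha, hd]; ring
    rwa [e] at c3
  rw [Nat.dvd_iff_prime_pow_dvd_dvd]
  intro ℓ e hℓ hdvd
  rcases Nat.eq_zero_or_pos e with rfl | he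
  · simp
  have hℓg : ℓ ∣ Int.gcd a b := (dvd_pow_self ℓ he.ne').trans hdvd
  have hℓa : (ℓ : ℤ) ∣ a := (Int.natCast_dvd_natCast.2 hℓg).trans (Int.gcd_dvd_left ..)
  have hℓb : (ℓ : ℤ) ∣ b := (Int.natCast_dvd_natCast.2 hℓg).trans (Int.gcd_dvd_right ..)
  have hℓy : ℓ ≤ y := by
    by_contra hcon
    push Not at hcon
    refine hT.tri p hp p' hp' p'' hp'' h1 h2 h3 h h' h'' ℓ hℓ hcon ⟨hℓa, ?_⟩
    have e : (T p' h' : ℤ) - T p'' h'' = b - a := by rw [ha, hb]; ring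
    rw [e]
    exact dvd_sub hℓb hℓa
  obtain ⟨w, W', hW', hWe⟩ := Nat.exists_eq_pow_mul_and_not_dvd hW.ne' ℓ hℓ.ne_one
  have hcop : ℓ.Coprime W' := (Nat.Prime.coprime_iff_not_dvd hℓ).2 hW'
  have htw : t ≤ w := by
    have h4 := hWt ℓ hℓ hℓy
    rw [hWe] at h4
    have h5 : ℓ ^ t ∣ ℓ ^ w := (Nat.Coprime.pow_left t hcop).dvd_of_dvd_mul_right h4
    exact (Nat.pow_dvd_pow_iff_le_right hℓ.one_lt).1 h5
  rcases le_total e ((S + 1) * w) with hle | hle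
  · refine (pow_dvd_pow ℓ hle).trans ?_
    rw [hWe, mul_pow, mul_comm (S + 1) w, pow_mul]
    exact dvd_mul_right _ _
  · exfalso
    have hga : ((ℓ ^ ((S + 1) * w) : ℕ) : ℤ) ∣ a :=
      (Int.natCast_dvd_natCast.2 ((pow_dvd_pow ℓ hle).trans hdvd)).trans (Int.gcd_dvd_left ..)
    have hgW : ((ℓ ^ ((S + 1) * w) : ℕ) : ℤ) ∣ (W : ℤ) ^ (2 * S + 3) := by
      have h5 : ℓ ^ ((S + 1) * w) ∣ W ^ (2 * S + 3) := by
        have h6 : (S + 1) * w ≤ w * (2 * S + 3) := by nlinarith [Nat.zero_le w, Nat.zero_le S]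
        refine (pow_dvd_pow ℓ h6).trans ?_
        rw [hWe, mul_pow, pow_mul]
        exact dvd_mul_right _ _
      exact_mod_cast h5
    have h7 : ((ℓ ^ ((S + 1) * w) : ℕ) : ℤ) ∣ (W : ℤ) ^ S * d := by
      have h8 := dvd_sub hga (hgW.trans hcong)
      rwa [sub_sub_cancel] at h8
    have hWz : (W : ℤ) = (ℓ : ℤ) ^ w * (W' : ℤ) := by
      rw [hWe]; push_cast; ring
    have h9 : (ℓ : ℤ) ^ w ∣ (W' : ℤ) ^ S * d := by
      have e1 : ((ℓ ^ ((S + 1) * w) : ℕ) : ℤ) = (ℓ : ℤ) ^ (w * S) * (ℓ : ℤ) ^ w := by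
        push_cast; ring
      have e2 : (W : ℤ) ^ S * d = (ℓ : ℤ) ^ (w * S) * ((W' : ℤ) ^ S * d) := by
        rw [hWz, mul_pow, ← pow_mul]; ring
      rw [e1, e2] at h7
      exact (mul_dvd_mul_iff_left (pow_ne_zero _ (by exact_mod_cast hℓ.ne_zero))).1 h7
    have h10 : (ℓ : ℤ) ^ w ∣ d := by
      have hc : IsCoprime ((ℓ : ℤ) ^ w) ((W' : ℤ) ^ S) :=
        (Nat.isCoprime_iff_coprime.2 hcop).pow
      exact hc.dvd_of_dvd_mul_left h9
    have h11 : (ℓ : ℤ) ^ t ∣ d := (pow_dvd_pow _ htw).trans h10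
    have hd0 : d ≠ 0 := by
      rw [hd]
      intro h0
      exact h1 (by exact_mod_cast sub_eq_zero.1 h0)
    have h12 : (ℓ : ℤ) ^ t ≤ |d| := Int.le_of_dvd (abs_pos.2 hd0) ((dvd_abs _ _).2 h11)
    have h13 : |d| < t := by
      have i1 := hidx p
      have i2 := hidx p'
      rw [hd, abs_lt]
      constructor <;> omega
    have h14 : (t : ℤ) < (ℓ : ℤ) ^ t := by
      have h15 : t < ℓ ^ t := Nat.lt_pow_self hℓ.one_lt
      exact_mod_cast h15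
    linarith

end Pool.Agent.Lib.MP_fed790_nt.QP
end

section

/-!
# QP B9: splitting `β` into a nice part and a part with vanishing cell sums

For `n ∈ I = [n0, n0 + r w)` let `i = ⌊(n - n0)/w⌋` and let `cell n` be the set of the
`m ∈ [n0 + i w, n0 + (i+1) w)` with `q0 ∣ m - n` (`n ∈ cell n`).
Put `βn n = (∑_{m ∈ cell n} β m)/#(cell n)` for `n ∈ I` and `βn n = 0` otherwise,
`βe n = β n - βn n` for `n ∈ I`, `0` otherwise. If `n, n'` lie in the same window and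
`q0 ∣ n - n'`, then `cell n = cell n'`. For a window `i` and a class `a` the filtered set is either
empty or equal to `cell n` for each of its elements `n`, so `∑ βe = ∑ β - #cell * βn = 0`.
-/

open Finset

namespace Pool.Agent.Lib.MP_fed790_nt.QP

private noncomputable def b9cell (n0 : ℤ) (w q0 : ℕ) (i a : ℤ) : Finset ℤ :=
  (Ico (n0 + i * w) (n0 + (i + 1) * w)).filter (fun m => (q0 : ℤ) ∣ m - a)

private lemma b9cell_congr (n0 : ℤ) (w q0 : ℕ) (i a a' : ℤ) (h : (q0 : ℤ) ∣ a - a') :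
    b9cell n0 w q0 i a = b9cell n0 w q0 i a' := by
  unfold b9cell
  refine Finset.filter_congr fun m _ => ?_
  constructor
  · intro h1
    have := dvd_add h1 h
    simpa using this
  · intro h1
    have := dvd_sub h1 h
    simpa using this

private lemma b9win (n0 : ℤ) (w : ℕ) (hw : 0 < w) (i n : ℤ)
    (h : n ∈ Ico (n0 + i * w) (n0 + (i + 1) * w)) : (n - n0) / w = i := by
  have hw' : (0 : ℤ) < w := by exact_mod_cast hw
  rw [mem_Ico] at h
  rw [Int.ediv_eq_iff_of_pos hw']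
  constructor <;> nlinarith [h.1, h.2]

private lemma b9mem (n0 : ℤ) (w r : ℕ) (hw : 0 < w) (i : ℕ) (hi : i < r) (n : ℤ)
    (h : n ∈ Ico (n0 + i * w) (n0 + (i + 1) * w)) : n ∈ Ico n0 (n0 + r * w) := by
  have hw' : (0 : ℤ) < w := by exact_mod_cast hw
  have hi' : (i : ℤ) + 1 ≤ r := by exact_mod_cast hi
  have h0 : (0 : ℤ) ≤ i * w := by positivity
  have h1 : ((i : ℤ) + 1) * w ≤ r * w := by nlinarith
  rw [mem_Ico] at h ⊢
  exact ⟨by linarith [h.1], by linarith [h.2]⟩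

private lemma b9avg (β : ℤ → ℂ) (hβ : ∀ n, ‖β n‖ ≤ 1) (s : Finset ℤ) :
    ‖(∑ m ∈ s, β m) / (s.card : ℂ)‖ ≤ 1 := by
  rw [norm_div, Complex.norm_natCast]
  refine div_le_one_of_le₀ ?_ (Nat.cast_nonneg _)
  calc ‖∑ m ∈ s, β m‖ ≤ ∑ m ∈ s, ‖β m‖ := norm_sum_le _ _
    _ ≤ ∑ m ∈ s, (1 : ℝ) := Finset.sum_le_sum fun m _ => hβ m
    _ = s.card := by simp

theorem split (β : ℤ → ℂ) (hβ : ∀ n, ‖β n‖ ≤ 1) (n0 : ℤ) (w r q0 : ℕ) (hw : 0 < w)
    (hq : q0 ∣ w) :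
    ∃ βn βe : ℤ → ℂ, (∀ n ∈ Ico n0 (n0 + r * w), β n = βn n + βe n) ∧
      (∀ n, n ∉ Ico n0 (n0 + r * w) → βn n = 0 ∧ βe n = 0) ∧ (∀ n, ‖βn n‖ ≤ 1) ∧
      (∀ n, ‖βe n‖ ≤ 2) ∧ Nice n0 w r q0 βn ∧ CellZero n0 w r q0 βe := by
  classical
  set cell : ℤ → Finset ℤ := fun n => b9cell n0 w q0 ((n - n0) / w) n with hcell
  set A : ℤ → ℂ := fun n => (∑ m ∈ cell n, β m) / ((cell n).card : ℂ) with hA
  have hcw : ∀ (i : ℤ) (n : ℤ), n ∈ Ico (n0 + i * w) (n0 + (i + 1) * w) →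
      cell n = b9cell n0 w q0 i n := by
    intro i n hn
    simp only [hcell]
    rw [b9win n0 w hw i n hn]
  have hA1 : ∀ n, ‖A n‖ ≤ 1 := fun n => b9avg β hβ _
  refine ⟨fun n => if n ∈ Ico n0 (n0 + r * w) then A n else 0,
    fun n => if n ∈ Ico n0 (n0 + r * w) then β n - A n else 0, ?_, ?_, ?_, ?_, ?_, ?_⟩
  · intro n hn
    simp only [if_pos hn]
    ring
  · intro n hn
    simp only [if_neg hn, and_self]
  · intro n
    dsimp only
    split_ifs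
    · exact hA1 n
    · simp
  · intro n
    dsimp only
    split_ifs
    · calc ‖β n - A n‖ ≤ ‖β n‖ + ‖A n‖ := norm_sub_le _ _
        _ ≤ 1 + 1 := add_le_add (hβ n) (hA1 n)
        _ = 2 := by norm_num
    · simp
  · intro i hi n hn n' hn' hd
    dsimp only
    rw [if_pos (b9mem n0 w r hw i hi n hn), if_pos (b9mem n0 w r hw i hi n' hn')]
    simp only [hA]
    rw [hcw i n hn, hcw i n' hn', b9cell_congr n0 w q0 i n n' hd]
  · intro i hi a
    have key : ∀ n ∈ b9cell n0 w q0 i a,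
        (if n ∈ Ico n0 (n0 + r * w) then β n - A n else 0) =
          β n - (∑ m ∈ b9cell n0 w q0 i a, β m) / ((b9cell n0 w q0 i a).card : ℂ) := by
      intro n hn
      have hn' := hn
      rw [b9cell, mem_filter] at hn'
      rw [if_pos (b9mem n0 w r hw i hi n hn'.1)]
      simp only [hA]
      rw [hcw i n hn'.1, b9cell_congr n0 w q0 i n a hn'.2]
    change ∑ n ∈ b9cell n0 w q0 i a, (if n ∈ Ico n0 (n0 + r * w) then β n - A n else 0) = 0
    rw [Finset.sum_congr rfl key, Finset.sum_sub_distrib, Finset.sum_const, nsmul_eq_mul]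
    rcases (b9cell n0 w q0 i a).eq_empty_or_nonempty with h0 | h0
    · simp [h0]
    · have : ((b9cell n0 w q0 i a).card : ℂ) ≠ 0 := by
        exact_mod_cast (Finset.card_pos.2 h0).ne'
      field_simp
      ring

end Pool.Agent.Lib.MP_fed790_nt.QP
end

section

/-!
# QP B9h: the normalised sums `HH`

**`mem_Iw`.** `-⌊(κ - c)/T⌋ ≤ n ↔ -n ≤ ⌊(κ-c)/T⌋ ↔ -n T ≤ κ - c` (`Int.le_ediv_iff_mul_le`), and
`n < -⌊(κ - c - ℓ)/T⌋ ↔ ⌊(κ-c-ℓ)/T⌋ < -n ↔ κ - c - ℓ < -n T` (`Int.ediv_lt_iff_lt_mul`).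

**`jensen_av`**: `‖(∑_h x_h)/q‖² ≤ (∑_h ‖x_h‖²)/q` for each of the two
factors (`inner_mul_le_norm_mul_norm` or `sq_sum_le_card_mul_sum_sq`), `‖ψ h‖ ≤ 1`, `‖z^κ‖ = 1`.

**`sum_Ft`**: interchange the sums over `y ∈ [c, c+ℓ)` and `h`; for fixed `h` the `y` with
`T h ∣ y - κ h` are `y = T h n + κ h` with `n ∈ Iw c ℓ (T h) (κ h)`.
-/

open Finset

namespace Pool.Agent.Lib.MP_fed790_nt.QP

/-- The integers `n` with `c ≤ T n + κ < c + ℓ`. -/
noncomputable def Iw (c : ℤ) (ℓ : ℕ) (T : ℕ) (κ : ℤ) : Finset ℤ :=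
  Ico (-((κ - c) / T)) (-((κ - c - ℓ) / T))

theorem mem_Iw (c : ℤ) (ℓ : ℕ) (T : ℕ) (hT : 0 < T) (κ n : ℤ) :
    n ∈ Iw c ℓ T κ ↔ c ≤ T * n + κ ∧ T * n + κ < c + ℓ := by
  have hT' : (0 : ℤ) < T := by exact_mod_cast hT
  unfold Iw
  rw [mem_Ico]
  have h1 : -((κ - c) / (T : ℤ)) ≤ n ↔ c ≤ T * n + κ := by
    rw [neg_le, Int.le_ediv_iff_mul_le hT']
    constructor
    · intro h; nlinarith
    · intro h; nlinarith
  have h2 : n < -((κ - c - ℓ) / (T : ℤ)) ↔ T * n + κ < c + ℓ := by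
    rw [lt_neg, Int.ediv_lt_iff_lt_mul hT']
    constructor
    · intro h; nlinarith
    · intro h; nlinarith
  rw [h1, h2]

/-- The normalised sums over `h`. -/
noncomputable def HH {η : Type*} [Fintype η] (I : η → Finset ℤ) (T : η → ℕ) (κ : η → ℤ)
    (ψ : η → ℂ) (α : η → ℤ → ℂ) (z : ℂ) : ℂ :=
  (∑ h, ψ h * T h * z ^ (κ h) * tp (I h) (α h) (z ^ (T h))) / Fintype.card η

theorem b9h_norm_rt (N k : ℕ) : ‖rt N k‖ = 1 := by
  unfold rt
  have : (2 * Real.pi * Complex.I * k / N : ℂ) = ((2 * Real.pi * k / N : ℝ) : ℂ) * Complex.I := by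
    push_cast
    ring
  rw [this, Complex.norm_exp_ofReal_mul_I]

theorem b9h_one {η : Type*} [Fintype η] [Nonempty η] (I : η → Finset ℤ)
    (T : η → ℕ) (κ : η → ℤ) (ψ : η → ℂ) (α : η → ℤ → ℂ) (hψ : ∀ h, ‖ψ h‖ ≤ 1) (z : ℂ)
    (hz : ‖z‖ = 1) :
    ‖HH I T κ ψ α z‖ ^ 2 ≤
      (∑ h, (T h : ℝ) ^ 2 * ‖tp (I h) (α h) (z ^ (T h))‖ ^ 2) / Fintype.card η := by
  have hq : (0 : ℝ) < Fintype.card η := by exact_mod_cast Fintype.card_pos
  set x : η → ℂ := fun h => ψ h * T h * z ^ (κ h) * tp (I h) (α h) (z ^ (T h)) with hx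
  have hxn : ∀ h, ‖x h‖ ≤ T h * ‖tp (I h) (α h) (z ^ (T h))‖ := by
    intro h
    rw [hx]
    simp only [norm_mul, norm_zpow, hz, one_zpow, mul_one, Complex.norm_natCast]
    have h1 : ‖ψ h‖ * (T h : ℝ) ≤ 1 * (T h : ℝ) :=
      mul_le_mul_of_nonneg_right (hψ h) (Nat.cast_nonneg _)
    rw [one_mul] at h1
    exact mul_le_mul_of_nonneg_right h1 (norm_nonneg _)
  have h1 : ‖∑ h, x h‖ ^ 2 ≤ Fintype.card η * ∑ h, ‖x h‖ ^ 2 := by
    calc ‖∑ h, x h‖ ^ 2 ≤ (∑ h, ‖x h‖) ^ 2 :=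
          pow_le_pow_left₀ (norm_nonneg _) (norm_sum_le _ _) 2
      _ ≤ _ := by
        have := sq_sum_le_card_mul_sum_sq (s := (univ : Finset η)) (f := fun h => ‖x h‖)
        rwa [card_univ] at this
  have h2 : ∑ h, ‖x h‖ ^ 2 ≤ ∑ h, (T h : ℝ) ^ 2 * ‖tp (I h) (α h) (z ^ (T h))‖ ^ 2 :=
    sum_le_sum fun h _ => by
      rw [← mul_pow]
      exact pow_le_pow_left₀ (norm_nonneg _) (hxn h) 2
  have h3 : HH I T κ ψ α z = (∑ h, x h) / Fintype.card η := rfl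
  rw [h3, norm_div, div_pow, Complex.norm_natCast, div_le_div_iff₀ (by positivity) hq]
  calc ‖∑ h, x h‖ ^ 2 * (Fintype.card η : ℝ)
      ≤ (Fintype.card η * ∑ h, (T h : ℝ) ^ 2 * ‖tp (I h) (α h) (z ^ (T h))‖ ^ 2) *
        (Fintype.card η : ℝ) := by
        refine mul_le_mul_of_nonneg_right (h1.trans ?_) hq.le
        exact mul_le_mul_of_nonneg_left h2 hq.le
    _ = _ := by ring

theorem jensen_av {η : Type*} [Fintype η] [Nonempty η] (N : ℕ) (I I' : η → Finset ℤ)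
    (T T' : η → ℕ) (κ κ' : η → ℤ) (ψ ψ' : η → ℂ) (α α' : η → ℤ → ℂ) (hψ : ∀ h, ‖ψ h‖ ≤ 1)
    (hψ' : ∀ h, ‖ψ' h‖ ≤ 1) :
    av N (fun z => ‖HH I T κ ψ α z‖ ^ 2 * ‖HH I' T' κ' ψ' α' z‖ ^ 2) ≤
      (∑ h, ∑ h', (T h : ℝ) ^ 2 * (T' h' : ℝ) ^ 2 *
        av N (fun z => ‖tp (I h) (α h) (z ^ (T h))‖ ^ 2 *
          ‖tp (I' h') (α' h') (z ^ (T' h'))‖ ^ 2)) / (Fintype.card η : ℝ) ^ 2 := by
  have hq : (0 : ℝ) < Fintype.card η := by exact_mod_cast Fintype.card_pos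
  have hpt : ∀ z : ℂ, ‖z‖ = 1 → ‖HH I T κ ψ α z‖ ^ 2 * ‖HH I' T' κ' ψ' α' z‖ ^ 2 ≤
      (∑ h, ∑ h', (T h : ℝ) ^ 2 * (T' h' : ℝ) ^ 2 *
        (‖tp (I h) (α h) (z ^ (T h))‖ ^ 2 * ‖tp (I' h') (α' h') (z ^ (T' h'))‖ ^ 2)) /
          (Fintype.card η : ℝ) ^ 2 := by
    intro z hz
    refine (mul_le_mul (b9h_one I T κ ψ α hψ z hz) (b9h_one I' T' κ' ψ' α' hψ' z hz)
      (by positivity) (by positivity)).trans (le_of_eq ?_)
    rw [div_mul_div_comm, Finset.sum_mul_sum, sq (Fintype.card η : ℝ)]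
    congr 1
    refine sum_congr rfl fun h _ => sum_congr rfl fun h' _ => ?_
    ring
  unfold av
  have h1 : (∑ k ∈ range N, ‖HH I T κ ψ α (rt N k)‖ ^ 2 * ‖HH I' T' κ' ψ' α' (rt N k)‖ ^ 2) ≤
      ∑ k ∈ range N, (∑ h, ∑ h', (T h : ℝ) ^ 2 * (T' h' : ℝ) ^ 2 *
        (‖tp (I h) (α h) (rt N k ^ (T h))‖ ^ 2 * ‖tp (I' h') (α' h') (rt N k ^ (T' h'))‖ ^ 2)) /
          (Fintype.card η : ℝ) ^ 2 :=
    sum_le_sum fun k _ => hpt _ (b9h_norm_rt N k)
  refine (div_le_div_of_nonneg_right h1 (Nat.cast_nonneg _)).trans (le_of_eq ?_)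
  rw [← Finset.sum_div, div_div, mul_comm ((Fintype.card η : ℝ) ^ 2), ← div_div]
  congr 1
  rw [Finset.sum_comm, Finset.sum_div]
  refine sum_congr rfl fun h _ => ?_
  rw [Finset.sum_comm, Finset.sum_div]
  refine sum_congr rfl fun h' _ => ?_
  rw [← Finset.mul_sum, mul_div_assoc]

theorem sum_Ft {η : Type*} [Fintype η] (T : η → ℕ) (hT : ∀ h, 0 < T h) (κ : η → ℤ) (ψ : η → ℂ)
    (β : ℤ → ℂ) (c : ℤ) (ℓ : ℕ) (z : ℂ) (hz : z ≠ 0) :
    tp (Ico c (c + ℓ)) (Ft T κ ψ β) z =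
      HH (fun h => Iw c ℓ (T h) (κ h)) T κ ψ (fun _ => β) z := by
  unfold tp Ft HH
  have h1 : ∀ y ∈ Ico c (c + ℓ), (∑ h, if (T h : ℤ) ∣ y - κ h then
      ψ h * T h * β ((y - κ h) / T h) else 0) / (Fintype.card η : ℂ) * z ^ y =
      (∑ h, if (T h : ℤ) ∣ y - κ h then ψ h * T h * β ((y - κ h) / T h) * z ^ y else 0) /
        (Fintype.card η : ℂ) := by
    intro y _
    rw [div_mul_eq_mul_div, Finset.sum_mul]
    congr 1
    refine sum_congr rfl fun h _ => ?_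
    split_ifs <;> simp
  rw [sum_congr rfl h1, ← Finset.sum_div]
  congr 1
  rw [Finset.sum_comm]
  refine sum_congr rfl fun h _ => ?_
  have hTh : (0 : ℤ) < T h := by exact_mod_cast hT h
  rw [← Finset.sum_filter]
  unfold tp
  rw [Finset.mul_sum]
  refine Finset.sum_nbij' (fun y => (y - κ h) / T h) (fun n => T h * n + κ h) ?_ ?_ ?_ ?_ ?_
  · intro y hy
    rw [mem_filter, mem_Ico] at hy
    rw [mem_Iw _ _ _ (hT h), Int.mul_ediv_cancel' hy.2]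
    omega
  · intro n hn
    rw [mem_Iw _ _ _ (hT h)] at hn
    rw [mem_filter, mem_Ico]
    exact ⟨hn, ⟨n, by ring⟩⟩
  · intro y hy
    rw [mem_filter] at hy
    rw [Int.mul_ediv_cancel' hy.2]
    ring
  · intro n _
    rw [add_sub_cancel_right, Int.mul_ediv_cancel_left _ hTh.ne']
  · intro y hy
    rw [mem_filter] at hy
    have h2 : y = T h * ((y - κ h) / T h) + κ h := by
      rw [Int.mul_ediv_cancel' hy.2]
      ring
    have h3 : z ^ y = (z ^ (T h)) ^ ((y - κ h) / (T h : ℤ)) * z ^ κ h := by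
      conv_lhs => rw [h2]
      rw [zpow_add₀ hz, zpow_mul, zpow_natCast]
    rw [h3]
    ring

end Pool.Agent.Lib.MP_fed790_nt.QP
end

section

/-!
# QP B10: truncation of the windows

**`card_Iw_le`.** `Iw (T0 n1) (T0 M) T κ` is the set of integers in a half open interval of length
`T0 M/T ≤ M`, so it has at most `M` elements (`⌈x + M⌉ - ⌈x⌉ ≤ M`), and it is contained in an
interval `[a, a+M)` of integers.

**`card_symmDiff_le`.** `Iw (T0 n1) (T0 M) T κ = [lo, hi)` with `lo = ⌈(T0 n1 - κ)/T⌉`,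
`hi = ⌈(T0 n1 + T0 M - κ)/T⌉`. `|(T0 n1 - κ)/T - n1| = |(T0 - T) n1 - κ|/T ≤ δ0 K + 1`
(`|T - T0| ≤ δ0 T0 ≤ δ0 T`, `|κ| ≤ T`, `|n1| ≤ K`), so `|lo - n1| ≤ δ0 K + 2`, and similarly
`|hi - (n1 + M)| ≤ δ0 K + 2`. The symmetric difference of `[lo,hi)` and `[n1, n1+M)` has at most
`|lo - n1| + |hi - n1 - M|` elements (this holds for all intervals `[a,b)`, `[a',b')` with
`a' ≤ b'`, `a ≤ b`; note `lo ≤ hi`).

**`trunc_diff`.** `HH (Iw …) β - HH (I) β = HH (symmDiff (Iw …) I) β̃` with `β̃ h n = β n` for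
`n ∈ Iw …` and `-β n` otherwise.
-/

open Finset

namespace Pool.Agent.Lib.MP_fed790_nt.QP

theorem B10_iw_hi (T0 M T : ℕ) (hT0 : 0 < T0) (hT : T0 ≤ T) (n1 κ : ℤ) :
    -((κ - T0 * n1 - (T0 * M : ℕ)) / T) ≤ -((κ - T0 * n1) / (T : ℤ)) + M := by
  have hT' : (0 : ℤ) < T := by exact_mod_cast lt_of_lt_of_le hT0 hT
  have h1 : (κ - T0 * n1) / (T : ℤ) - M ≤ (κ - T0 * n1 - (T0 * M : ℕ)) / T := by
    have h2 : (κ - T0 * n1 + (-(M : ℤ)) * T) / (T : ℤ) = (κ - T0 * n1) / (T : ℤ) + -(M : ℤ) :=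
      Int.add_mul_ediv_right _ _ hT'.ne'
    have h3 : (κ - T0 * n1 + (-(M : ℤ)) * T) / (T : ℤ) ≤ (κ - T0 * n1 - (T0 * M : ℕ)) / T := by
      apply Int.ediv_le_ediv hT'
      have h4 : (T0 : ℤ) * M ≤ T * M := by
        apply mul_le_mul_of_nonneg_right
        · exact_mod_cast hT
        · positivity
      push_cast
      linarith
    linarith
  linarith

theorem card_Iw_le (T0 M T : ℕ) (hT0 : 0 < T0) (hT : T0 ≤ T) (n1 κ : ℤ) :
    (Iw (T0 * n1) (T0 * M) T κ).card ≤ M ∧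
      ∃ a : ℤ, Iw (T0 * n1) (T0 * M) T κ ⊆ Ico a (a + M) := by
  have h := B10_iw_hi T0 M T hT0 hT n1 κ
  have hs : Iw (T0 * n1) (T0 * M) T κ ⊆
      Ico (-((κ - T0 * n1) / (T : ℤ))) (-((κ - T0 * n1) / (T : ℤ)) + M) := by
    unfold Iw
    exact Ico_subset_Ico_right h
  refine ⟨?_, _, hs⟩
  refine (card_le_card hs).trans ?_
  simp

theorem B10_symm (a b a' b' : ℤ) :
    ((symmDiff (Ico a b) (Ico a' b')).card : ℝ) ≤ |(a : ℝ) - a'| + |(b : ℝ) - b'| := by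
  have hs : symmDiff (Ico a b) (Ico a' b') ⊆
      Ico (min a a') (max a a') ∪ Ico (min b b') (max b b') := by
    intro x hx
    simp only [Finset.mem_symmDiff, mem_Ico, mem_union, min_le_iff, lt_max_iff] at hx ⊢
    omega
  have h1 : ∀ c d : ℤ, ((Ico (min c d) (max c d)).card : ℝ) = |(c : ℝ) - d| := by
    intro c d
    rw [Int.card_Ico]
    have h2 : (((max c d - min c d).toNat : ℤ)) = |c - d| := by
      rw [Int.toNat_of_nonneg (by simp [min_le_iff]), max_sub_min_eq_abs]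
      rw [abs_sub_comm]
    have h3 : (((max c d - min c d).toNat : ℤ) : ℝ) = ((|c - d| : ℤ) : ℝ) := by rw [h2]
    push_cast at h3
    exact h3
  calc ((symmDiff (Ico a b) (Ico a' b')).card : ℝ)
      ≤ ((Ico (min a a') (max a a') ∪ Ico (min b b') (max b b')).card : ℝ) := by
        exact_mod_cast card_le_card hs
    _ ≤ ((Ico (min a a') (max a a')).card : ℝ) + ((Ico (min b b') (max b b')).card : ℝ) := by
        exact_mod_cast card_union_le _ _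
    _ = _ := by rw [h1, h1]

theorem B10_lo (T0 T : ℕ) (hT0 : 0 < T0) (hT : T0 ≤ T) (n κ : ℤ) (δ0 K : ℝ)
    (hT1 : (T : ℝ) ≤ (1 + δ0) * T0) (hκ : |κ| ≤ T) (hK : |(n : ℝ)| ≤ K) :
    |((-((κ - T0 * n) / (T : ℤ)) : ℤ) : ℝ) - n| ≤ δ0 * K + 2 := by
  have hT0' : (0 : ℝ) < T0 := by exact_mod_cast hT0
  have hT'' : (T0 : ℝ) ≤ T := by exact_mod_cast hT
  have hTp : (0 : ℝ) < T := lt_of_lt_of_le hT0' hT''
  have hTi : (0 : ℤ) < T := by exact_mod_cast hTp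
  have hδ : 0 ≤ δ0 := by nlinarith
  set q : ℤ := (κ - T0 * n) / (T : ℤ) with hq
  have h1 : q * T ≤ κ - T0 * n := Int.ediv_mul_le _ hTi.ne'
  have h2 : κ - T0 * n < (q + 1) * T := Int.lt_ediv_add_one_mul_self _ hTi
  have h1' : (q : ℝ) * T ≤ κ - T0 * n := by exact_mod_cast h1
  have h2' : (κ : ℝ) - T0 * n < (q + 1) * T := by exact_mod_cast h2
  have hκ' : |(κ : ℝ)| ≤ T := by exact_mod_cast hκ
  have hκ1 := abs_le.1 hκ'
  have h3 : |((T : ℝ) - T0) * n| ≤ δ0 * K * T := by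
    rw [abs_mul, abs_of_nonneg (by linarith : (0 : ℝ) ≤ (T : ℝ) - T0)]
    have h4 : (T : ℝ) - T0 ≤ δ0 * T := by nlinarith
    calc ((T : ℝ) - T0) * |(n : ℝ)| ≤ (δ0 * T) * K := by
          apply mul_le_mul h4 hK (abs_nonneg _) (by positivity)
      _ = δ0 * K * T := by ring
  have h3' := abs_le.1 h3
  push_cast
  rw [abs_le]
  constructor
  · -- -(δ0 K + 2) ≤ -q - n
    have : ((q : ℝ) + n) * T ≤ (δ0 * K + 2) * T := by nlinarith
    have := le_of_mul_le_mul_right this hTp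
    linarith
  · have : (-(q : ℝ) - n) * T ≤ (δ0 * K + 2) * T := by nlinarith
    exact le_of_mul_le_mul_right this hTp

theorem card_symmDiff_le (T0 M T : ℕ) (hT0 : 0 < T0) (hT : T0 ≤ T) (n1 κ : ℤ) (δ0 K : ℝ)
    (hT1 : (T : ℝ) ≤ (1 + δ0) * T0) (hκ : |κ| ≤ T) (hK : |(n1 : ℝ)| + M ≤ K) :
    ((symmDiff (Iw (T0 * n1) (T0 * M) T κ) (Ico n1 (n1 + M))).card : ℝ) ≤ 2 * δ0 * K + 4 := by
  have hM : (0 : ℝ) ≤ M := Nat.cast_nonneg _
  have h1 := B10_lo T0 T hT0 hT n1 κ δ0 K hT1 hκ (by linarith)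
  have h2 := B10_lo T0 T hT0 hT (n1 + M) κ δ0 K hT1 hκ (by
    push_cast
    refine (abs_add_le _ _).trans ?_
    rw [abs_of_nonneg hM]
    exact hK)
  have h3 : κ - T0 * n1 - ((T0 * M : ℕ) : ℤ) = κ - T0 * (n1 + M) := by
    push_cast
    ring
  unfold Iw
  refine (B10_symm _ _ _ _).trans ?_
  rw [h3]
  linarith

theorem B10_tp (I1 I : Finset ℤ) (β : ℤ → ℂ) (w : ℂ) :
    tp I1 β w = tp I β w + tp (symmDiff I1 I) (fun n => if n ∈ I1 then β n else -β n) w := by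
  unfold tp
  have hd : Disjoint (I1 \ I) (I \ I1) := disjoint_sdiff_sdiff
  have hu : symmDiff I1 I = (I1 \ I) ∪ (I \ I1) := by
    ext x
    simp only [Finset.mem_symmDiff, mem_union, mem_sdiff]
  rw [hu, sum_union hd]
  have h1 : ∑ n ∈ I1 \ I, (if n ∈ I1 then β n else -β n) * w ^ n = ∑ n ∈ I1 \ I, β n * w ^ n := by
    refine sum_congr rfl (fun n hn => ?_)
    rw [if_pos (mem_sdiff.1 hn).1]
  have h2 : ∑ n ∈ I \ I1, (if n ∈ I1 then β n else -β n) * w ^ n =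
      -∑ n ∈ I \ I1, β n * w ^ n := by
    rw [← sum_neg_distrib]
    refine sum_congr rfl (fun n hn => ?_)
    rw [if_neg (mem_sdiff.1 hn).2]
    ring
  rw [h1, h2]
  have h3 : ∑ n ∈ I1 ∩ I, β n * w ^ n + ∑ n ∈ I1 \ I, β n * w ^ n = ∑ n ∈ I1, β n * w ^ n :=
    Finset.sum_inter_add_sum_sdiff I1 I (fun n => β n * w ^ n)
  have h4 : ∑ n ∈ I ∩ I1, β n * w ^ n + ∑ n ∈ I \ I1, β n * w ^ n = ∑ n ∈ I, β n * w ^ n :=
    Finset.sum_inter_add_sum_sdiff I I1 (fun n => β n * w ^ n)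
  rw [inter_comm] at h4
  linear_combination h4 - h3

theorem trunc_diff {η : Type*} [Fintype η] (I1 : η → Finset ℤ) (I : Finset ℤ) (T : η → ℕ)
    (κ : η → ℤ) (ψ : η → ℂ) (β : ℤ → ℂ) (z : ℂ) :
    HH I1 T κ ψ (fun _ => β) z = HH (fun _ => I) T κ ψ (fun _ => β) z +
      HH (fun h => symmDiff (I1 h) I) T κ ψ (fun h n => if n ∈ I1 h then β n else -β n) z := by
  unfold HH
  rw [← add_div, ← sum_add_distrib]
  congr 1
  refine sum_congr rfl (fun h _ => ?_)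
  rw [B10_tp (I1 h) I β]
  ring

end Pool.Agent.Lib.MP_fed790_nt.QP
end

section

/-!
# QP C7: the expectation of a 4-cycle

`βf f W ψ i j n = ψ (f |1 - W^(j-i) + W^(j+1) n|)`,
`Fe f W T ψ p = Ft (T p) (kB W T p) (h ↦ ψ (f (T p h))) (βf …)` (the levels of `p`).

**`ww_mul_psi`.** For `x` with `x v - x u ≥ 1`: if `T p h ∣ (x v - x u) - κ`, write
`x v - x u = κ + T n`; by `ee_eq`, `e_p(x) = T (E + W^(j+1) n)`, both factors positive, so
`f |e_p| = f T + f |E + W^(j+1) n|` and `ψ (f |e_p|) = ψ (f T) ψ (f |E + W^(j+1) n|)`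
(`AddChar.map_add_eq_mul`), `n = (x v - x u - κ)/T`. Sum over `h`.
-/

open Finset

namespace Pool.Agent.Lib.MP_fed790_nt.QP

variable {G : Type*} [AddCommGroup G]

/-- The function `β`. -/
noncomputable def βf (f : ℕ → G) (W : ℕ) (ψ : AddChar G ℂ) (i j : ℕ) (n : ℤ) : ℂ :=
  ψ (f (1 - (W : ℤ) ^ (j - i) + (W : ℤ) ^ (j + 1) * n).natAbs)

/-- The edge function of `p`. -/
noncomputable def Fe (f : ℕ → G) {H : AddSubgroup G} [Fintype H] {S t : ℕ} (W : ℕ)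
    (T : Ve S t × Ve S t → H → ℕ) (ψ : AddChar G ℂ) (p : Ve S t × Ve S t) : ℤ → ℂ :=
  Ft (T p) (kB W T p) (fun h => ψ (f (T p h))) (βf f W ψ p.1.1 p.2.1)

/-- The correlation sum. -/
noncomputable def Cv (f : ℕ → G) {H : AddSubgroup G} [Fintype H] {S t : ℕ} (W X : ℕ)
    (T : Ve S t × Ve S t → H → ℕ) (ψ : AddChar G ℂ) (u u' v : Ve S t) (a a' : ℤ) : ℂ :=
  ∑ s ∈ Ico (loB S t X v) (loB S t X v + X),
    Fe f W T ψ (u, v) (s - a) * starRingEnd ℂ (Fe f W T ψ (u', v) (s - a'))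

variable {f : ℕ → G} {H : AddSubgroup G} [Fintype H]
  {k y W S t L N' T0 X : ℕ} {δ δ0 εT ε10 ρ c1 : ℝ} {T : Ve S t × Ve S t → H → ℕ}

theorem ww_mul_psi (h : HypIII f H k y W S t L N' T0 X δ δ0 εT ε10 ρ c1 T)
    (ψ : AddChar G ℂ) {p : Ve S t × Ve S t} (hp : p ∈ Pr S t) (x : Ve S t → ℤ)
    (hx : 1 ≤ x p.2 - x p.1) :
    ((ww T (kB W T) p x : ℝ) : ℂ) * ψ (f (ee W p x).natAbs) = Fe f W T ψ p (x p.2 - x p.1) := by
  have hterm : ∀ g : H, (((if (T p g : ℤ) ∣ x p.2 - x p.1 - kB W T p g then (T p g : ℝ) else 0 :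
      ℝ) : ℝ) : ℂ) * ψ (f (ee W p x).natAbs) =
      if (T p g : ℤ) ∣ x p.2 - x p.1 - kB W T p g then ψ (f (T p g)) * (T p g : ℂ) *
        βf f W ψ p.1.1 p.2.1 ((x p.2 - x p.1 - kB W T p g) / T p g) else 0 := by
    intro g
    by_cases hd : (T p g : ℤ) ∣ x p.2 - x p.1 - kB W T p g
    · rw [if_pos hd, if_pos hd]
      have hW2 := h.hW
      have hW1 : 1 ≤ W := by omega
      have hT1 : 1 ≤ T p g := le_trans h.hT0 (h.T_ge hp g)
      have hTZ : (0 : ℤ) < T p g := by exact_mod_cast hT1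
      obtain ⟨n, hn⟩ := hd
      have hdiv : (x p.2 - x p.1 - kB W T p g) / (T p g : ℤ) = n := by
        rw [hn]
        exact Int.mul_ediv_cancel_left n hTZ.ne'
      rw [hdiv]
      have hy : x p.2 - x p.1 = kk W p.1.1 p.2.1 (T p g) + T p g * n := by
        have : kB W T p g = kk W p.1.1 p.2.1 (T p g) := rfl
        rw [← this]
        linarith
      have hee : ee W p x = T p g *
          (1 - (W : ℤ) ^ ((p.2.1 : ℕ) - p.1.1) + (W : ℤ) ^ ((p.2.1 : ℕ) + 1) * n) := by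
        rw [← ee_eq W p.1.1 p.2.1 (T p g) hW1 (h.T_cong hp g) n, ← hy]
        rfl
      have hWZ : (1 : ℤ) ≤ W := by exact_mod_cast hW1
      have hpos : 0 < ee W p x := by
        have h1 : (W : ℤ) ^ ((p.2.1 : ℕ) - p.1.1) ≤ (W : ℤ) ^ ((p.2.1 : ℕ) + 1) :=
          pow_le_pow_right₀ hWZ (by omega)
        have h2 : (0 : ℤ) < (W : ℤ) ^ ((p.2.1 : ℕ) + 1) := by positivity
        simp only [ee]
        nlinarith
      have hpos2 : 0 < 1 - (W : ℤ) ^ ((p.2.1 : ℕ) - p.1.1) +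
          (W : ℤ) ^ ((p.2.1 : ℕ) + 1) * n := by
        rw [hee] at hpos
        exact (mul_pos_iff_of_pos_left hTZ).mp hpos
      have hnat : (ee W p x).natAbs = T p g *
          (1 - (W : ℤ) ^ ((p.2.1 : ℕ) - p.1.1) + (W : ℤ) ^ ((p.2.1 : ℕ) + 1) * n).natAbs := by
        rw [hee, Int.natAbs_mul, Int.natAbs_natCast]
      rw [hnat, h.hf _ _ (by omega) (Int.natAbs_pos.mpr hpos2.ne'), AddChar.map_add_eq_mul]
      simp only [βf]
      push_cast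
      ring
    · rw [if_neg hd, if_neg hd]
      simp
  simp only [ww, Fe, Ft]
  push_cast
  rw [div_mul_eq_mul_div, Finset.sum_mul]
  congr 1
  refine Finset.sum_congr rfl fun g _ => ?_
  have := hterm g
  push_cast at this
  exact this

end Pool.Agent.Lib.MP_fed790_nt.QP
end

section

/-!
# QP Num2: size comparisons (powers of 2), Part I

`a = aN k = 2k ≥ 4`. All definitions of `NumDefs` are irreducible: use `unfold`. Everything is a
comparison of exponents of `2`; useful: `a ≤ 2^a` hence `a^n ≤ 2^(a n)`; `W ≤ 2^(a^801)`,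
`W^(2S+3) ≤ 2^(a^804)` (`Num1`); `2k = a`, so `k ≤ a`, `2 k² ≤ a²`; `om k ≤ k ≤ a`
(`Ω(k) ≤ log₂ k < k`; e.g. `2 ^ Ω(k) ≤ k`). Write `ℓ = lN k r = a^(900+420r) ≥ a^900`,
`l(r+1) = a^420 ℓ`, `LN k = l(Ω+1) + 1`, `ΛN k = 2^(k a^810)`, `Z2N = 2^(2 k a^810)`,
`T0N = 2^(k² ℓ + a^813)`.

* `NN_lt`, `two_NN_lt`: `l r ≤ l (Ω+1) < LN`; for `r ≤ Ω`: `l r + 1 < l(r+1) + 1 ≤ LN`.
* `lemmaZ_num`: multiply by `a^903`: to show `4k a^903 W^(2S+3) (Z1 + 1) ≤ 2^(a^810)`.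
  `Z1 + 1 ≤ a^422 L ≤ a^422 * 2 a^(900+420(Ω+1)) ≤ a^(1323 + 420 (Ω+1)) ≤ a^(1743 + 420 a)`
  (`2 ≤ a`), `4k ≤ a²`; so the product is at most
  `2^(a^804) a^(2648+420a) ≤ 2^(a^804 + a (2648 + 420 a)) ≤ 2^(a^804 + a^9) ≤ 2^(a^810)`
  (`2648 + 420 a ≤ 4^6 + 420 a ≤ a^6 + a^6 ≤ a^7`, since `420 ≤ 4^5 ≤ a^5`).
* `zero_num`: `2 (1 + 2WΛ) ≤ 8 W Λ ≤ 2^(3 + a^801 + k a^810) ≤ 2^(a^900)`.
* `hT0_num`: cancel `N_r^(k²)`: to show
  `W^(2S+3) (Z2 + 1) + 1 ≤ (δ0/(16 t)) 2^(a^813)`, i.e.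
  `16 a^160 (W^(2S+3)(Z2+1)+1) ≤ 2^(a^813)`; the left side is at most
  `2^(160 a + 4 + a^804 + 2 k a^810 + 2)`.
* `hTL_num`: `(k² ℓ + a^813 + 1)(a^203 k + 2) < l (Ω+1) + 1`, and `a^420 ℓ = l(r+1) ≤ l(Ω+1)`:
  `k² ℓ + a^813 + 1 ≤ a² ℓ`, `a^203 k + 2 ≤ a^204`.
* `hTN_num`: `2 + k² ℓ + a^813 ≤ a^420 ℓ`.
-/

open Finset

namespace Pool.Agent.Lib.MP_fed790_nt.QP

private lemma n2_om_le (k : ℕ) (hk : 2 ≤ k) : om k ≤ k := by
  unfold om
  rw [ArithmeticFunction.cardFactors_apply]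
  have h1 : 2 ^ k.primeFactorsList.length ≤ k.primeFactorsList.prod :=
    List.pow_card_le_prod _ _ fun x hx => (Nat.prime_of_mem_primeFactorsList hx).two_le
  rw [Nat.prod_primeFactorsList (by omega)] at h1
  exact (Nat.lt_two_pow_self.le).trans h1

private lemma n2_a (k : ℕ) : aN k = 2 * k := by
  unfold aN
  rfl

private lemma n2_l_mono (k r s : ℕ) (hk : 2 ≤ k) (h : r ≤ s) : lN k r ≤ lN k s := by
  have ha := aN_ge hk
  unfold lN
  exact Nat.pow_le_pow_right (by omega) (by omega)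

private lemma n2_l_succ (k r : ℕ) : lN k (r + 1) = aN k ^ 420 * lN k r := by
  unfold lN
  rw [← pow_add]
  congr 1
  omega

private lemma n2_l_ge (k r : ℕ) (hk : 2 ≤ k) : aN k ^ 900 ≤ lN k r := by
  have ha := aN_ge hk
  unfold lN
  exact Nat.pow_le_pow_right (by omega) (by omega)

theorem NN_lt (k r : ℕ) (hk : 2 ≤ k) (hr : r ≤ om k + 1) : NN k r < 2 ^ LN k := by
  unfold NN LN
  refine Nat.pow_lt_pow_right (by norm_num) ?_
  have := n2_l_mono k r (om k + 1) hk hr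
  omega

theorem two_NN_lt (k r : ℕ) (hk : 2 ≤ k) (hr : r ≤ om k) : 2 * NN k r < 2 ^ LN k := by
  have ha := aN_ge hk
  unfold NN LN
  rw [← pow_succ']
  refine Nat.pow_lt_pow_right (by norm_num) ?_
  have h1 := n2_l_mono k (r + 1) (om k + 1) hk (by omega)
  rw [n2_l_succ] at h1
  have h2 : 1 ≤ lN k r := (Nat.one_le_pow _ _ (by omega)).trans (n2_l_ge k r hk)
  have h3 : 2 ≤ aN k ^ 420 := by
    calc 2 ≤ aN k := by omega
      _ ≤ aN k ^ 420 := Nat.le_self_pow (by norm_num) _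
  have h4 : 2 * lN k r ≤ aN k ^ 420 * lN k r := Nat.mul_le_mul_right _ h3
  omega

private lemma n2_pow_two (a n : ℕ) : a ^ n ≤ 2 ^ (a * n) := by
  rw [pow_mul]
  exact Nat.pow_le_pow_left Nat.lt_two_pow_self.le n

/-- `420 ≤ a^5`, `2648 ≤ a^6`. -/
private lemma n2_poly (a : ℕ) (ha : 4 ≤ a) : 2648 + 420 * a ≤ a ^ 7 := by
  have h5 : 4 ^ 5 ≤ a ^ 5 := Nat.pow_le_pow_left ha 5
  have h6 : 4 ^ 6 ≤ a ^ 6 := Nat.pow_le_pow_left ha 6
  have h7 : a ^ 7 = a ^ 6 * a := pow_succ a 6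
  have h8 : a ^ 6 = a ^ 5 * a := pow_succ a 5
  have h9 : 420 * a ≤ a ^ 5 * a := Nat.mul_le_mul_right _ (by omega)
  have h10 : a ^ 6 * 4 ≤ a ^ 6 * a := Nat.mul_le_mul_left _ ha
  omega

theorem lemmaZ_num (k : ℕ) (hk : 2 ≤ k) :
    4 * (k : ℝ) * ((WN k ^ (2 * SN k + 3) : ℕ) * (Z1N k + 1)) ≤ ηN k * bN k := by
  have ha := aN_ge hk
  have hom := n2_om_le k hk
  have hak := n2_a k
  have hW := WN_pow_le k hk
  have hL : Z1N k + 1 ≤ aN k ^ (1743 + 420 * aN k) := by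
    unfold Z1N LN lN
    have h2 : 1 ≤ aN k ^ (900 + 420 * (om k + 1)) := Nat.one_le_pow _ _ (by omega)
    have h3 : aN k ^ (900 + 420 * (om k + 1)) + 1 ≤ aN k ^ (901 + 420 * (om k + 1)) := by
      calc aN k ^ (900 + 420 * (om k + 1)) + 1 ≤ 2 * aN k ^ (900 + 420 * (om k + 1)) := by omega
        _ ≤ aN k * aN k ^ (900 + 420 * (om k + 1)) := Nat.mul_le_mul_right _ (by omega)
        _ = aN k ^ (901 + 420 * (om k + 1)) := by
          rw [← pow_succ', show 900 + 420 * (om k + 1) + 1 = 901 + 420 * (om k + 1) by omega]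
    have h4 : aN k ^ 421 * (aN k ^ (900 + 420 * (om k + 1)) + 1) ≤
        aN k ^ (1322 + 420 * (om k + 1)) := by
      calc aN k ^ 421 * (aN k ^ (900 + 420 * (om k + 1)) + 1)
          ≤ aN k ^ 421 * aN k ^ (901 + 420 * (om k + 1)) := Nat.mul_le_mul_left _ h3
        _ = aN k ^ (1322 + 420 * (om k + 1)) := by
            rw [← pow_add,
              show 421 + (901 + 420 * (om k + 1)) = 1322 + 420 * (om k + 1) by omega]
    have h5 : 1 ≤ aN k ^ (1322 + 420 * (om k + 1)) := Nat.one_le_pow _ _ (by omega)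
    calc aN k ^ 421 * (aN k ^ (900 + 420 * (om k + 1)) + 1) + 1
        ≤ 2 * aN k ^ (1322 + 420 * (om k + 1)) := by omega
      _ ≤ aN k * aN k ^ (1322 + 420 * (om k + 1)) := Nat.mul_le_mul_right _ (by omega)
      _ = aN k ^ (1323 + 420 * (om k + 1)) := by
          rw [← pow_succ', show 1322 + 420 * (om k + 1) + 1 = 1323 + 420 * (om k + 1) by omega]
      _ ≤ aN k ^ (1743 + 420 * aN k) := Nat.pow_le_pow_right (by omega) (by omega)
  have hmain : 4 * k * (WN k ^ (2 * SN k + 3) * (Z1N k + 1)) * aN k ^ 903 ≤ bN k := by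
    unfold bN
    have h1 : 4 * k ≤ aN k ^ 2 := by
      rw [pow_two]
      have : 2 * aN k ≤ aN k * aN k := Nat.mul_le_mul_right _ (by omega)
      omega
    calc 4 * k * (WN k ^ (2 * SN k + 3) * (Z1N k + 1)) * aN k ^ 903
        ≤ aN k ^ 2 * (2 ^ (aN k ^ 804) * aN k ^ (1743 + 420 * aN k)) * aN k ^ 903 :=
          Nat.mul_le_mul_right _ (Nat.mul_le_mul h1 (Nat.mul_le_mul hW hL))
      _ = 2 ^ (aN k ^ 804) * aN k ^ (2648 + 420 * aN k) := by
          have : aN k ^ (2648 + 420 * aN k) =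
              aN k ^ 2 * aN k ^ (1743 + 420 * aN k) * aN k ^ 903 := by
            rw [← pow_add, ← pow_add]; congr 1; omega
          rw [this]
          ring
      _ ≤ 2 ^ (aN k ^ 804) * 2 ^ (aN k * (2648 + 420 * aN k)) :=
          Nat.mul_le_mul_left _ (n2_pow_two _ _)
      _ = 2 ^ (aN k ^ 804 + aN k * (2648 + 420 * aN k)) := by rw [← pow_add]
      _ ≤ 2 ^ (aN k ^ 810) := by
          refine Nat.pow_le_pow_right (by norm_num) ?_
          have h2 := n2_poly (aN k) ha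
          have h3 : aN k * (2648 + 420 * aN k) ≤ aN k * aN k ^ 7 := Nat.mul_le_mul_left _ h2
          have h4 : aN k * aN k ^ 7 = aN k ^ 8 := (pow_succ' _ _).symm
          have h5 : aN k ^ 8 ≤ aN k ^ 804 := Nat.pow_le_pow_right (by omega) (by norm_num)
          have h6 : aN k ^ 805 ≤ aN k ^ 810 := Nat.pow_le_pow_right (by omega) (by norm_num)
          have h7 : aN k ^ 804 * 4 ≤ aN k ^ 804 * aN k := Nat.mul_le_mul_left _ ha
          have h8 : aN k ^ 804 * aN k = aN k ^ 805 := (pow_succ _ _).symm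
          omega
  have hη : ηN k = 1 / (aN k : ℝ) ^ 903 := by unfold ηN; rfl
  have hapos : (0 : ℝ) < (aN k : ℝ) ^ 903 := by
    have : 0 < aN k := by omega
    positivity
  rw [hη, one_div, inv_mul_eq_div, le_div_iff₀ hapos]
  have := (Nat.cast_le (α := ℝ)).mpr hmain
  push_cast at this ⊢
  linarith

theorem zero_num (k r : ℕ) (hk : 2 ≤ k) : 2 * (1 + WN k * (2 * ΛN k)) ≤ NN k r := by
  have ha := aN_ge hk
  have hak := n2_a k
  have hW := WN_le k hk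
  have hW1 : 1 ≤ WN k := by have := WN_ge k hk; omega
  have hΛ : ΛN k = 2 ^ (aN k ^ 810 * k) := by
    rw [ΛN_eq, pow_mul]
    unfold bN
    rfl
  have h1 : WN k * ΛN k ≤ 2 ^ (aN k ^ 801 + aN k ^ 810 * k) := by
    rw [pow_add, hΛ]
    exact Nat.mul_le_mul_right _ hW
  have h2 : 1 ≤ WN k * ΛN k := Nat.mul_pos hW1 (pos_ΛN k)
  have h3 : 2 * (1 + WN k * (2 * ΛN k)) ≤ 8 * (WN k * ΛN k) := by
    have : WN k * (2 * ΛN k) = 2 * (WN k * ΛN k) := by ring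
    omega
  refine h3.trans ?_
  have h4 : 8 * (WN k * ΛN k) ≤ 2 ^ (3 + (aN k ^ 801 + aN k ^ 810 * k)) := by
    rw [pow_add 2 3]
    exact Nat.mul_le_mul (by norm_num) h1
  refine h4.trans ?_
  unfold NN
  refine Nat.pow_le_pow_right (by norm_num) ?_
  refine le_trans ?_ (n2_l_ge k r hk)
  have h5 : aN k ^ 801 ≤ aN k ^ 810 := Nat.pow_le_pow_right (by omega) (by norm_num)
  have h6 : aN k ^ 810 * k ≤ aN k ^ 811 := by
    rw [pow_succ]
    exact Nat.mul_le_mul_left _ (by omega)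
  have h7 : aN k ^ 810 ≤ aN k ^ 811 := Nat.pow_le_pow_right (by omega) (by norm_num)
  have h8 : aN k ^ 811 * aN k = aN k ^ 812 := (pow_succ _ _).symm
  have h9 : aN k ^ 811 * 4 ≤ aN k ^ 811 * aN k := Nat.mul_le_mul_left _ ha
  have h10 : aN k ^ 812 ≤ aN k ^ 900 := Nat.pow_le_pow_right (by omega) (by norm_num)
  have h11 : aN k ≤ aN k ^ 811 := Nat.le_self_pow (by norm_num) _
  omega

theorem hT0_num (k r : ℕ) (hk : 2 ≤ k) :
    (NN k r : ℝ) ^ (k ^ 2) * ((WN k : ℝ) ^ (2 * SN k + 3) * (Z2N k + 1) + 1) ≤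
      δ0N k / (16 * tN k) * T0N k r := by
  have ha := aN_ge hk
  have hak := n2_a k
  have hW := WN_pow_le k hk
  have hZ : Z2N k = 2 ^ (aN k ^ 810 * k * 2) := by
    unfold Z2N
    rw [ΛN_eq, pow_mul, pow_mul]
    unfold bN
    rfl
  have hmain : 16 * aN k ^ 160 * (WN k ^ (2 * SN k + 3) * (Z2N k + 1) + 1) ≤ 2 ^ (aN k ^ 813) := by
    have h1 : 1 ≤ 2 ^ (aN k ^ 804) * Z2N k :=
      Nat.mul_pos (Nat.two_pow_pos _) (pos_Z2N k)
    have h2 : WN k ^ (2 * SN k + 3) * (Z2N k + 1) + 1 ≤ 4 * (2 ^ (aN k ^ 804) * Z2N k) := by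
      have h3 : WN k ^ (2 * SN k + 3) * (Z2N k + 1) ≤ 2 ^ (aN k ^ 804) * (Z2N k + 1) :=
        Nat.mul_le_mul_right _ hW
      have h4 : 2 ^ (aN k ^ 804) * (Z2N k + 1) ≤ 2 ^ (aN k ^ 804) * (2 * Z2N k) :=
        Nat.mul_le_mul_left _ (by have := pos_Z2N k; omega)
      have h5 : 2 ^ (aN k ^ 804) * (2 * Z2N k) = 2 * (2 ^ (aN k ^ 804) * Z2N k) := by ring
      omega
    calc 16 * aN k ^ 160 * (WN k ^ (2 * SN k + 3) * (Z2N k + 1) + 1)
        ≤ 16 * 2 ^ (aN k * 160) * (4 * (2 ^ (aN k ^ 804) * Z2N k)) :=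
          Nat.mul_le_mul (Nat.mul_le_mul_left _ (n2_pow_two _ _)) h2
      _ = 2 ^ (6 + aN k * 160 + aN k ^ 804 + aN k ^ 810 * k * 2) := by
          rw [hZ, pow_add, pow_add, pow_add]
          norm_num
          ring
      _ ≤ 2 ^ (aN k ^ 813) := by
          refine Nat.pow_le_pow_right (by norm_num) ?_
          have h5 : aN k ^ 810 * k * 2 = aN k ^ 811 := by
            rw [pow_succ (aN k) 810, mul_assoc, mul_comm k 2, ← hak]
          have h6 : aN k ^ 804 ≤ aN k ^ 811 := Nat.pow_le_pow_right (by omega) (by norm_num)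
          have h7 : 4 ^ 4 ≤ aN k ^ 4 := Nat.pow_le_pow_left ha 4
          have h8 : aN k * aN k ^ 4 ≤ aN k ^ 811 := by
            rw [← pow_succ']
            exact Nat.pow_le_pow_right (by omega) (by norm_num)
          have h9 : aN k * 166 ≤ aN k * aN k ^ 4 := Nat.mul_le_mul_left _ (by omega)
          have h10 : aN k ^ 811 * 4 ≤ aN k ^ 811 * aN k := Nat.mul_le_mul_left _ ha
          have h11 : aN k ^ 811 * aN k = aN k ^ 812 := (pow_succ _ _).symm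
          have h12 : aN k ^ 812 ≤ aN k ^ 813 := Nat.pow_le_pow_right (by omega) (by norm_num)
          rw [h5]
          omega
  have hδ : δ0N k = 1 / (aN k : ℝ) ^ 60 := by unfold δ0N; rfl
  have ht : (tN k : ℝ) = (aN k : ℝ) ^ 100 := by unfold tN; push_cast; rfl
  have hT : (T0N k r : ℝ) = (NN k r : ℝ) ^ (k ^ 2) * 2 ^ (aN k ^ 813) := by
    unfold T0N; push_cast; rfl
  have ha0 : (0 : ℝ) < (aN k : ℝ) := by
    have : 0 < aN k := by omega
    exact_mod_cast this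
  rw [hδ, ht, hT]
  have h20 : 1 / (aN k : ℝ) ^ 60 / (16 * (aN k : ℝ) ^ 100) = 1 / (16 * (aN k : ℝ) ^ 160) := by
    rw [div_div]
    congr 1
    ring
  rw [h20, one_div, inv_mul_eq_div, le_div_iff₀ (by positivity)]
  have h21 := (Nat.cast_le (α := ℝ)).mpr hmain
  push_cast at h21
  have h22 : (0 : ℝ) ≤ (NN k r : ℝ) ^ (k ^ 2) := by positivity
  calc (NN k r : ℝ) ^ (k ^ 2) * ((WN k : ℝ) ^ (2 * SN k + 3) * (Z2N k + 1) + 1) *
        (16 * (aN k : ℝ) ^ 160)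
      = (NN k r : ℝ) ^ (k ^ 2) * (16 * (aN k : ℝ) ^ 160 *
        ((WN k : ℝ) ^ (2 * SN k + 3) * (Z2N k + 1) + 1)) := by ring
    _ ≤ (NN k r : ℝ) ^ (k ^ 2) * 2 ^ (aN k ^ 813) := mul_le_mul_of_nonneg_left h21 h22

private lemma n2_T0 (k r : ℕ) : T0N k r = 2 ^ (lN k r * k ^ 2 + aN k ^ 813) := by
  unfold T0N NN
  rw [← pow_mul, ← pow_add]

theorem hTL_num (k r : ℕ) (hk : 2 ≤ k) (hr : r ≤ om k) :
    (2 * T0N k r) ^ (nPN k * k + 2) < 2 ^ LN k := by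
  have ha := aN_ge hk
  have hak := n2_a k
  have hl := n2_l_ge k r hk
  rw [n2_T0, ← pow_succ', ← pow_mul]
  unfold LN
  refine Nat.pow_lt_pow_right (by norm_num) ?_
  have h1 := n2_l_mono k (r + 1) (om k + 1) hk (by omega)
  rw [n2_l_succ] at h1
  have h2 : lN k r * k ^ 2 + aN k ^ 813 + 1 ≤ aN k ^ 2 * lN k r := by
    have h3 : k ^ 2 * 4 = aN k ^ 2 := by rw [hak]; ring
    have h4 : aN k ^ 813 + 1 ≤ 2 * lN k r := by
      have h5 : aN k ^ 813 ≤ aN k ^ 900 := Nat.pow_le_pow_right (by omega) (by norm_num)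
      have h6 : 1 ≤ aN k ^ 900 := Nat.one_le_pow _ _ (by omega)
      omega
    have h7 : 4 ≤ k ^ 2 := by nlinarith
    have h8 : 4 * lN k r ≤ k ^ 2 * lN k r := Nat.mul_le_mul_right _ h7
    have h9 : aN k ^ 2 * lN k r = 4 * (k ^ 2 * lN k r) := by rw [← h3]; ring
    have h10 : lN k r * k ^ 2 = k ^ 2 * lN k r := Nat.mul_comm _ _
    omega
  have h3 : nPN k * k + 2 ≤ aN k ^ 204 := by
    have h4 : nPN k = aN k ^ 203 := by unfold nPN; rfl
    have h5 : aN k ^ 204 = aN k ^ 203 * aN k := pow_succ _ _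
    have h6 : aN k ^ 203 * aN k = 2 * (aN k ^ 203 * k) := by
      conv_lhs => rw [show aN k ^ 203 * aN k = aN k ^ 203 * (2 * k) by rw [← hak]]
      ring
    have h7 : 1 ≤ aN k ^ 203 := Nat.one_le_pow _ _ (by omega)
    have h8 : 1 * 2 ≤ aN k ^ 203 * k := Nat.mul_le_mul h7 hk
    rw [h4]
    omega
  have h4 : (lN k r * k ^ 2 + aN k ^ 813 + 1) * (nPN k * k + 2) ≤
      aN k ^ 420 * lN k r := by
    calc (lN k r * k ^ 2 + aN k ^ 813 + 1) * (nPN k * k + 2)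
        ≤ aN k ^ 2 * lN k r * aN k ^ 204 := Nat.mul_le_mul h2 h3
      _ = aN k ^ 206 * lN k r := by
          have : aN k ^ 206 = aN k ^ 2 * aN k ^ 204 := by rw [← pow_add]
          rw [this]; ring
      _ ≤ aN k ^ 420 * lN k r :=
          Nat.mul_le_mul_right _ (Nat.pow_le_pow_right (by omega) (by norm_num))
  omega

theorem hTN_num (k r : ℕ) (hk : 2 ≤ k) : 4 * T0N k r ≤ NN k (r + 1) := by
  have ha := aN_ge hk
  have hak := n2_a k
  have hl := n2_l_ge k r hk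
  rw [n2_T0]
  unfold NN
  rw [n2_l_succ]
  have h0 : 4 * 2 ^ (lN k r * k ^ 2 + aN k ^ 813) = 2 ^ (2 + (lN k r * k ^ 2 + aN k ^ 813)) := by
    rw [pow_add 2 2, show (2 : ℕ) ^ 2 = 4 from rfl]
  rw [h0]
  refine Nat.pow_le_pow_right (by norm_num) ?_
  have h3 : k ^ 2 * 4 = aN k ^ 2 := by rw [hak]; ring
  have h5 : aN k ^ 813 ≤ aN k ^ 900 := Nat.pow_le_pow_right (by omega) (by norm_num)
  have h6 : 4 ≤ aN k ^ 900 := ha.trans (Nat.le_self_pow (by norm_num) _)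
  have h7 : 4 ≤ k ^ 2 := by nlinarith
  have h8 : 4 * lN k r ≤ k ^ 2 * lN k r := Nat.mul_le_mul_right _ h7
  have h9 : aN k ^ 2 * lN k r = 4 * (k ^ 2 * lN k r) := by rw [← h3]; ring
  have h10 : lN k r * k ^ 2 = k ^ 2 * lN k r := Nat.mul_comm _ _
  have h11 : aN k ^ 2 * lN k r ≤ aN k ^ 420 * lN k r :=
    Nat.mul_le_mul_right _ (Nat.pow_le_pow_right (by omega) (by norm_num))
  omega

end Pool.Agent.Lib.MP_fed790_nt.QP
end

section

/-!
# QP B10s: the truncation terms are small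

By `jensen_av` and, for each `h, h'`, `av_corr_le` with `A = I' h'`, `A' = Δ h` (apply it
to the product in the other order, `mul_comm`; `ℓ = M`, `ℓ' = 3M`): each average is at most
`M * s * (2 M/T + 1) ≤ M s (3M/T0)` as `T0 ≤ M`, `T0 ≤ T`. With `T² ≤ 2 T0²` the total is at most
`4 T0⁴ * 3 M² s/T0 = 12 T0³ M² s`. (`T * 3M + T' * M ≤ 8 T0 M ≤ N`.)
-/

open Finset

namespace Pool.Agent.Lib.MP_fed790_nt.QP

theorem S12_bound {η : Type*} [Fintype η] [Nonempty η] (N T0 M : ℕ) (s : ℝ)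
    (I' Δ : η → Finset ℤ) (T T' : η → ℕ) (κ κ' : η → ℤ) (ψ ψ' : η → ℂ) (α α' : η → ℤ → ℂ)
    (hN : 16 * T0 * M ≤ N) (hT0 : 0 < T0) (hM : T0 ≤ M)
    (hψ : ∀ h, ‖ψ h‖ ≤ 1) (hψ' : ∀ h, ‖ψ' h‖ ≤ 1) (hα : ∀ h n, ‖α h n‖ ≤ 1)
    (hα' : ∀ h n, ‖α' h n‖ ≤ 1) (hT1 : ∀ h, T0 ≤ T h) (hT2 : ∀ h, (T h) ^ 2 ≤ 2 * T0 ^ 2)
    (hT1' : ∀ h, T0 ≤ T' h) (hT2' : ∀ h, (T' h) ^ 2 ≤ 2 * T0 ^ 2)
    (hcop : ∀ h h', (T h).Coprime (T' h'))
    (hI' : ∀ h, (I' h).card ≤ M ∧ ∃ a : ℤ, I' h ⊆ Ico a (a + M))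
    (hΔ : ∀ h, ((Δ h).card : ℝ) ≤ s) (hΔ' : ∀ h, ∃ a : ℤ, Δ h ⊆ Ico a (a + 3 * M)) :
    av N (fun z => ‖HH Δ T κ ψ α z‖ ^ 2 * ‖HH I' T' κ' ψ' α' z‖ ^ 2) ≤
      12 * (T0 : ℝ) ^ 3 * M ^ 2 * s := by
  classical
  have hMpos : 0 < M := lt_of_lt_of_le hT0 hM
  have hNpos : 0 < N := lt_of_lt_of_le (by positivity) hN
  have hT0r : (0 : ℝ) < T0 := by exact_mod_cast hT0
  have hMr : (0 : ℝ) < M := by exact_mod_cast hMpos
  have hT0M : (T0 : ℝ) ≤ M := by exact_mod_cast hM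
  have hs : 0 ≤ s := by
    obtain ⟨h⟩ := (inferInstance : Nonempty η)
    exact (Nat.cast_nonneg _).trans (hΔ h)
  have hTb : ∀ h, T h ≤ 2 * T0 := by
    intro h
    by_contra hc
    push Not at hc
    have := hT2 h
    nlinarith
  have hTb' : ∀ h, T' h ≤ 2 * T0 := by
    intro h
    by_contra hc
    push Not at hc
    have := hT2' h
    nlinarith
  have key : ∀ h h', av N (fun z => ‖tp (Δ h) (α h) (z ^ (T h))‖ ^ 2 *
      ‖tp (I' h') (α' h') (z ^ (T' h'))‖ ^ 2) ≤ M * s * (3 * M / T0) := by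
    intro h h'
    obtain ⟨a, ha⟩ := (hI' h').2
    obtain ⟨b, hb⟩ := hΔ' h
    have hTpos : 0 < T h := lt_of_lt_of_le hT0 (hT1 h)
    have hTpos' : 0 < T' h' := lt_of_lt_of_le hT0 (hT1' h')
    have e : av N (fun z => ‖tp (Δ h) (α h) (z ^ (T h))‖ ^ 2 *
      ‖tp (I' h') (α' h') (z ^ (T' h'))‖ ^ 2) =
      av N (fun z => ‖tp (I' h') (α' h') (z ^ (T' h'))‖ ^ 2 *
        ‖tp (Δ h) (α h) (z ^ (T h))‖ ^ 2) := by
      congr 1
      funext z
      exact mul_comm _ _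
    rw [e]
    have hsz : T' h' * M + T h * (3 * M) ≤ N := by
      have h1 : T' h' * M ≤ 2 * T0 * M := Nat.mul_le_mul_right _ (hTb' h')
      have h2 : T h * (3 * M) ≤ 2 * T0 * (3 * M) := Nat.mul_le_mul_right _ (hTb h)
      nlinarith
    have hmain := av_corr_le N (T' h') (T h) hNpos hTpos' hTpos (hcop h h').symm
      (I' h') (Δ h) (α' h') (α h) a b M (3 * M) ha (by simpa using hb) hsz 1 1
      (fun n _ => hα' h' n) (fun n _ => hα h n)
    refine hmain.trans ?_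
    have hc1 : ((I' h').card : ℝ) ≤ M := by exact_mod_cast (hI' h').1
    have hc2 := hΔ h
    have hTr : (T0 : ℝ) ≤ T h := by exact_mod_cast hT1 h
    have hTr0 : (0 : ℝ) < T h := lt_of_lt_of_le hT0r hTr
    have hq : 2 * (M : ℝ) / T h + 1 ≤ 3 * M / T0 := by
      have h1 : 2 * (M : ℝ) / T h ≤ 2 * M / T0 :=
        div_le_div_of_nonneg_left (by positivity) hT0r hTr
      have h2 : (1 : ℝ) ≤ M / T0 := by
        rw [le_div_iff₀ hT0r]; linarith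
      have h3 : 3 * (M : ℝ) / T0 = 2 * M / T0 + M / T0 := by ring
      rw [h3]
      exact add_le_add h1 h2
    have hq0 : 0 ≤ 2 * (M : ℝ) / T h + 1 := by positivity
    simp only [one_pow, one_mul]
    gcongr
  refine (jensen_av N Δ I' T T' κ κ' ψ ψ' α α' hψ hψ').trans ?_
  have hcard : (0 : ℝ) < Fintype.card η := by exact_mod_cast Fintype.card_pos
  rw [div_le_iff₀ (by positivity)]
  calc _ ≤ ∑ _h : η, ∑ _h' : η, (2 * (T0 : ℝ) ^ 2) * (2 * (T0 : ℝ) ^ 2) * (M * s * (3 * M / T0)) := by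
        refine Finset.sum_le_sum fun h _ => Finset.sum_le_sum fun h' _ => ?_
        have h1 : (T h : ℝ) ^ 2 ≤ 2 * (T0 : ℝ) ^ 2 := by exact_mod_cast hT2 h
        have h2 : (T' h' : ℝ) ^ 2 ≤ 2 * (T0 : ℝ) ^ 2 := by exact_mod_cast hT2' h'
        have h3 := key h h'
        have h4 : 0 ≤ M * s * (3 * M / T0) := by positivity
        have h5 : (T h : ℝ) ^ 2 * (T' h' : ℝ) ^ 2 ≤ (2 * (T0 : ℝ) ^ 2) * (2 * (T0 : ℝ) ^ 2) :=
          mul_le_mul h1 h2 (by positivity) (by positivity)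
        calc _ ≤ (T h : ℝ) ^ 2 * (T' h' : ℝ) ^ 2 * (M * s * (3 * M / T0)) :=
              mul_le_mul_of_nonneg_left h3 (by positivity)
          _ ≤ _ := mul_le_mul_of_nonneg_right h5 h4
    _ = 12 * (T0 : ℝ) ^ 3 * M ^ 2 * s * (Fintype.card η : ℝ) ^ 2 := by
        simp only [Finset.sum_const, Finset.card_univ, nsmul_eq_mul]
        field_simp
        ring
    _ ≤ _ := le_refl _

end Pool.Agent.Lib.MP_fed790_nt.QP
end

section

/-!
# QP A4: `lemmaZ`, a good `k`-th power close to `m` and congruent to `m` modulo `Q`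

Let `X₀` be the largest natural number with `X₀^k ≤ m` (e.g. `Nat.findGreatest`, or `Nat.nthRoot`),
so `X₀^k ≤ m < (X₀+1)^k`, `b ≤ X₀` (as `b^k ≤ m`) and `X₀ ≥ 1` (from `hb`: `η b ≥ 4 > 0`, `η ≤ 1`,
so `b ≥ 4`). Let `A` be the first number `≥ X₀` with `A ≡ ρ mod Q` (`A < X₀ + Q`), and consider
`x = A + Q ν`, `ν < Z`. `gcd(A, Q) = gcd(ρ, Q) = 1`. By `hb`, `Q (Z+1) ≤ η b / (4k) ≤ η X₀/(4k)`, so
`A + Q Z ≤ X₀ + Q (Z+1) ≤ 2 X₀ ≤ 2 m < 2^L`. By `exists_good` (with `B = Q`) there is `ν < Z` such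
that `x = A + Q ν` has `sg y x ≤ εg` and is coprime to `D`. Now `x^k ≡ ρ^k ≡ m mod Q`, and
`X₀ ≤ x ≤ X₀ (1 + η/(4k))`, so (real numbers)
`x^k ≤ X₀^k (1 + η/(4k))^k ≤ m exp(η/4) ≤ m (1 + η)` and
`m ≤ (X₀+1)^k ≤ X₀^k (1 + η/(4k))^k ≤ x^k exp(η/4)` (as `1/X₀ ≤ 1/b ≤ η/(4k)`: from `hb` with
`Q (Z+1) ≥ 1`), so `x^k ≥ m exp(-η/4) ≥ m (1 - η)`.
(Use `(1 + u)^k ≤ exp(k u)`, i.e. `Real.add_one_le_exp`, `exp(u) ≤ 1 + 2u` for `0 ≤ u ≤ 1/2`, and
`exp(-u) ≥ 1 - u`.)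
-/

open Finset

namespace Pool.Agent.Lib.MP_fed790_nt.QP

theorem lemmaZ (k y Q D L Z m b : ℕ) (η εg ε8 : ℝ) (hk : 1 ≤ k) (hy : 1 ≤ y)
    (hQy : ∀ ℓ : ℕ, ℓ.Prime → ℓ ≤ y → ℓ ∣ Q) (hQ : 0 < Q)
    (hρ : ∃ ρ : ℕ, ρ.Coprime Q ∧ ρ ^ k ≡ m [MOD Q]) (hη : 0 < η) (hη1 : η ≤ 1) (hεg : 0 < εg)
    (hD : 0 < D) (hDL : D < 2 ^ L) (hsD : sg y D ≤ ε8) (hmL : 2 * m < 2 ^ L)
    (hb : 4 * (k : ℝ) * (Q * (Z + 1)) ≤ η * b) (hbm : b ^ k ≤ m)
    (hnum : ((Z : ℝ) / y + L) / εg + (Z * ε8 + L) < Z) :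
    ∃ x : ℕ, 0 < x ∧ x ^ k ≡ m [MOD Q] ∧ |(x : ℝ) ^ k - m| ≤ η * m ∧ sg y x ≤ εg ∧
      x.Coprime D := by
  classical
  -- the integer part of the `k`-th root
  have hpow : ∀ x : ℕ, x ≤ x ^ k := fun x => Nat.le_self_pow (by omega) x
  obtain ⟨X₀, hX⟩ : ∃ X₀, X₀ = Nat.findGreatest (fun x => x ^ k ≤ m) m := ⟨_, rfl⟩
  have hX1 : X₀ ^ k ≤ m := by
    rw [hX]
    have h0 : (fun x : ℕ => x ^ k ≤ m) 0 := by
      show 0 ^ k ≤ m
      rw [zero_pow (by omega)]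
      exact Nat.zero_le _
    exact Nat.findGreatest_spec (P := fun x => x ^ k ≤ m) (Nat.zero_le m) h0
  have hgr : ∀ x : ℕ, x ^ k ≤ m → x ≤ X₀ := by
    intro x hx
    by_contra hlt
    push Not at hlt
    rw [hX] at hlt
    exact Nat.findGreatest_is_greatest hlt ((hpow x).trans hx) hx
  have hX2 : m < (X₀ + 1) ^ k := by
    by_contra hcon
    push Not at hcon
    have := hgr _ hcon
    omega
  have hbX : b ≤ X₀ := hgr b hbm
  have hkR : (1 : ℝ) ≤ k := by exact_mod_cast hk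
  have hQR : (1 : ℝ) ≤ Q := by exact_mod_cast hQ
  have hZR : (0 : ℝ) ≤ Z := Nat.cast_nonneg _
  have hu1 : (1 : ℝ) ≤ Q * (Z + 1) := by nlinarith
  have hbR : (b : ℝ) ≤ X₀ := by exact_mod_cast hbX
  have hb0 : (0 : ℝ) ≤ b := Nat.cast_nonneg _
  have hku : (Q * (Z + 1) : ℝ) ≤ k * (Q * (Z + 1)) := by nlinarith
  have hb4 : (4 : ℝ) ≤ b := by nlinarith
  have hX4 : 4 ≤ X₀ := by
    have h1 : (4 : ℝ) ≤ X₀ := hb4.trans hbR
    exact_mod_cast h1
  have hXR : (0 : ℝ) < X₀ := by linarith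
  -- `u = Q (Z + 1) ≤ X₀ η / (4 k)`
  have hu2 : (Q * (Z + 1) : ℝ) ≤ X₀ * (η / (4 * k)) := by
    have h1 : X₀ * (η / (4 * k)) = (η * X₀) / (4 * k) := by ring
    rw [h1, le_div_iff₀ (by linarith)]
    have h2 : η * b ≤ η * X₀ := mul_le_mul_of_nonneg_left hbR hη.le
    linarith
  have hu3 : Q * (Z + 1) ≤ X₀ := by
    have h1 : (Q * (Z + 1) : ℝ) ≤ X₀ := by
      have h2 : η * b ≤ 1 * X₀ := mul_le_mul hη1 hbR hb0 zero_le_one
      linarith
    exact_mod_cast h1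
  -- the first element of the progression
  obtain ⟨ρ, hρ1, hρ2⟩ := hρ
  obtain ⟨A, hA⟩ : ∃ A, A = X₀ + (ρ + (Q - 1) * X₀) % Q := ⟨_, rfl⟩
  have hAlt : A < X₀ + Q := by
    have := Nat.mod_lt (ρ + (Q - 1) * X₀) hQ
    omega
  have hXA : X₀ ≤ A := by omega
  have hAρ : A ≡ ρ [MOD Q] := by
    have h1 : X₀ + (ρ + (Q - 1) * X₀) % Q ≡ X₀ + (ρ + (Q - 1) * X₀) [MOD Q] :=
      Nat.ModEq.add_left _ (Nat.mod_modEq _ _)
    have h2 : X₀ + (ρ + (Q - 1) * X₀) = ρ + Q * X₀ := by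
      obtain ⟨Q', rfl⟩ : ∃ Q', Q = Q' + 1 := ⟨Q - 1, by omega⟩
      rw [Nat.add_sub_cancel]
      ring
    rw [h2] at h1
    rw [hA]
    refine h1.trans ?_
    show (ρ + Q * X₀) % Q = ρ % Q
    rw [Nat.add_mul_mod_self_left]
  have hcop : A.Coprime Q := by
    have h1 := hAρ.gcd_eq
    unfold Nat.Coprime at hρ1 ⊢
    rw [h1, hρ1]
  have hXm : X₀ ≤ m := (hpow X₀).trans hX1
  have hQZ : Q * (Z + 1) = Q * Z + Q := by ring
  obtain ⟨ν, hν, hν1, hν2⟩ := exists_good y A Q Z D L εg ε8 hεg hy (by omega) hcop hQy (by omega)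
    hD hDL hsD hnum
  have hνZ : Q * ν + Q ≤ Q * Z := by
    have h1 : Q * (ν + 1) ≤ Q * Z := Nat.mul_le_mul_left _ hν
    rw [Nat.mul_add, Nat.mul_one] at h1
    exact h1
  obtain ⟨x, hx⟩ : ∃ x, x = A + Q * ν := ⟨_, rfl⟩
  rw [← hx] at hν1 hν2
  have hx1 : X₀ ≤ x := by omega
  have hx2 : x ≤ X₀ + Q * (Z + 1) := by omega
  have hxρ : x ≡ ρ [MOD Q] := by
    rw [hx]
    show (A + Q * ν) % Q = ρ % Q
    rw [Nat.add_mul_mod_self_left]
    exact hAρ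
  refine ⟨x, by omega, (hxρ.pow k).trans hρ2, ?_, hν1, hν2⟩
  -- the size
  have hxR1 : (X₀ : ℝ) ≤ x := by exact_mod_cast hx1
  have hxR2 : (x : ℝ) ≤ X₀ * (1 + η / (4 * k)) := by
    have h1 : (x : ℝ) ≤ X₀ + Q * (Z + 1) := by exact_mod_cast hx2
    linarith
  have hmR1 : (X₀ : ℝ) ^ k ≤ m := by exact_mod_cast hX1
  have hmR2 : (m : ℝ) ≤ (X₀ * (1 + η / (4 * k))) ^ k := by
    have h1 : (m : ℝ) < ((X₀ : ℝ) + 1) ^ k := by exact_mod_cast hX2
    refine h1.le.trans (pow_le_pow_left₀ (by linarith) ?_ k)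
    linarith
  have hE1 : (1 + η / (4 * k)) ^ k ≤ 1 + η := by
    have h1 : (1 + η / (4 * k)) ^ k ≤ Real.exp (η / (4 * k)) ^ k := by
      refine pow_le_pow_left₀ (by positivity) ?_ k
      have := Real.add_one_le_exp (η / (4 * k))
      linarith
    have h2 : Real.exp (η / (4 * k)) ^ k = Real.exp (η / 4) := by
      rw [← Real.exp_nat_mul]
      congr 1
      field_simp
    rw [h2] at h1
    have h3 := Real.exp_bound_div_one_sub_of_interval (x := η / 4) (by linarith) (by linarith)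
    have h4 : 1 / (1 - η / 4) ≤ 1 + η := by
      rw [div_le_iff₀ (by linarith)]
      nlinarith
    linarith
  have hE0 : (0 : ℝ) ≤ 1 + η / (4 * k) := by positivity
  have hXk : (0 : ℝ) ≤ (X₀ : ℝ) ^ k := pow_nonneg hXR.le _
  have hup : (x : ℝ) ^ k ≤ m * (1 + η) := by
    calc (x : ℝ) ^ k ≤ (X₀ * (1 + η / (4 * k))) ^ k :=
          pow_le_pow_left₀ (Nat.cast_nonneg _) hxR2 k
      _ = (X₀ : ℝ) ^ k * (1 + η / (4 * k)) ^ k := mul_pow _ _ _
      _ ≤ m * (1 + η) := mul_le_mul hmR1 hE1 (pow_nonneg hE0 _) (Nat.cast_nonneg _)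
  have hlo : (m : ℝ) ≤ (x : ℝ) ^ k * (1 + η) := by
    calc (m : ℝ) ≤ (X₀ * (1 + η / (4 * k))) ^ k := hmR2
      _ = (X₀ : ℝ) ^ k * (1 + η / (4 * k)) ^ k := mul_pow _ _ _
      _ ≤ (x : ℝ) ^ k * (1 + η) :=
        mul_le_mul (pow_le_pow_left₀ hXR.le hxR1 k) hE1 (pow_nonneg hE0 _)
          (pow_nonneg (Nat.cast_nonneg _) _)
  have hm0 : (0 : ℝ) ≤ m := Nat.cast_nonneg _
  rw [abs_le]
  constructor
  · have h1 : (m : ℝ) * (1 - η) * (1 + η) ≤ (x : ℝ) ^ k * (1 + η) := by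
      have h2 : (m : ℝ) * (1 - η) * (1 + η) = m - m * η ^ 2 := by ring
      have h3 : 0 ≤ (m : ℝ) * η ^ 2 := by positivity
      linarith
    have h2 := le_of_mul_le_mul_right h1 (by linarith)
    linarith
  · linarith

end Pool.Agent.Lib.MP_fed790_nt.QP
end

section

/-!
# QP A5: colours which are not available are rare

**`avail_mono`.** Clear.

**`rare_of_not_avail`.** Let `D` be a witness of `¬ Avail`: `0 < D < 2^L`, `sg y D ≤ ε8`, and no `m`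
with `Λ ≤ m ≤ N`, `m ≡ 1 mod W`, `sg y m ≤ εg`, `gcd(m,D) = 1` has `f m = γ`. For `ν < Z`,
`m = A + B ν ≤ A + B Z ≤ N` and `m ≡ 1 mod W`. So `f (A + B ν) = γ` implies `A + B ν < Λ` or
`εg < sg y (A+Bν)` or `¬ Coprime (A+Bν) D`. The first holds for at most `Λ` values of `ν` (as
`ν ≤ B ν < Λ`), the second for at most `(Z/y + L)/εg` (`card_sg_gt_le`; `A > 0` since `A ≡ 1 mod W`
and `W ≥ 2`; `A + B Z ≤ N < 2^L`), the third for at most `Z sg y D + L ≤ Z ε8 + L`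
(`card_not_cop_le`).

**`rareAP_of_closure`.** If `f (A+Bν) ∉ closure {γ | Avail γ}`, then `f (A + B ν)` is some colour
`γ` which is not available. Sum `rare_of_not_avail` over the (at most `Nat.card G`) colours `γ`.
-/

open Finset

namespace Pool.Agent.Lib.MP_fed790_nt.QP

variable {G : Type*} [AddCommGroup G]

theorem avail_mono {f : ℕ → G} {y W Λ L : ℕ} {εg ε8 : ℝ} {N N' : ℕ} (hN : N ≤ N') {γ : G}
    (h : Avail f y W Λ L εg ε8 N γ) : Avail f y W Λ L εg ε8 N' γ := by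
  intro D hD hDL hs
  obtain ⟨m, h1, h2, h3⟩ := h D hD hDL hs
  exact ⟨m, h1, h2.trans hN, h3⟩

open Classical in
theorem rare_of_not_avail {f : ℕ → G} {y W Λ L : ℕ} {εg ε8 : ℝ} {N : ℕ} {γ : G}
    (hy : 1 ≤ y) (hW : 2 ≤ W) (hWy : ∀ ℓ : ℕ, ℓ.Prime → ℓ ≤ y → ℓ ∣ W) (hεg : 0 < εg)
    (hNL : N < 2 ^ L) (h : ¬ Avail f y W Λ L εg ε8 N γ)
    (A B Z : ℕ) (hB : 0 < B) (hcop : A.Coprime B) (hWB : W ∣ B) (hA : A ≡ 1 [MOD W])
    (hN : A + B * Z ≤ N) :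
    (((range Z).filter (fun ν => f (A + B * ν) = γ)).card : ℝ) ≤
      (1 / (y * εg) + ε8) * Z + (Λ + L / εg + L) := by
  unfold Avail at h
  push Not at h
  obtain ⟨D, hD, hDL, hsD, hm⟩ := h
  have hA0 : 0 < A := by
    rcases Nat.eq_zero_or_pos A with h0 | h0
    · exfalso
      rw [h0] at hA
      have h1 : W ∣ 1 := (Nat.modEq_iff_dvd' (Nat.zero_le 1)).1 hA
      have := Nat.le_of_dvd one_pos h1
      omega
    · exact h0
  have hyB : ∀ ℓ : ℕ, ℓ.Prime → ℓ ≤ y → ℓ ∣ B := fun ℓ h1 h2 => (hWy ℓ h1 h2).trans hWB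
  have h1 := card_sg_gt_le y A B Z L εg hεg hy hA0 hcop (lt_of_le_of_lt hN hNL)
  have h2 := card_not_cop_le y A B Z D L hcop hyB hD hDL
  have hsub : (range Z).filter (fun ν => f (A + B * ν) = γ) ⊆
      range Λ ∪ ((range Z).filter (fun ν : ℕ => εg < sg y (A + B * ν)) ∪
      (range Z).filter (fun ν : ℕ => ¬ (A + B * ν).Coprime D)) := by
    intro ν hν
    rw [mem_filter, mem_range] at hν
    rw [mem_union, mem_union, mem_filter, mem_filter, mem_range, mem_range]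
    by_cases c1 : Λ ≤ A + B * ν
    · right
      by_cases c2 : εg < sg y (A + B * ν)
      · exact Or.inl ⟨hν.1, c2⟩
      · right
        refine ⟨hν.1, fun c3 => hm _ c1 ?_ ?_ (not_lt.1 c2) c3 hν.2⟩
        · have := Nat.mul_le_mul_left B hν.1.le
          omega
        · obtain ⟨b, rfl⟩ := hWB
          have h5 : A + W * b * ν ≡ 1 + 0 [MOD W] := by
            refine Nat.ModEq.add hA ?_
            rw [Nat.modEq_zero_iff_dvd, mul_assoc]
            exact Dvd.intro _ rfl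
          simpa using h5
    · left
      have : ν ≤ B * ν := Nat.le_mul_of_pos_left ν hB
      omega
  have h3 := (Finset.card_le_card hsub).trans
    ((Finset.card_union_le _ _).trans (Nat.add_le_add_left (Finset.card_union_le _ _) _))
  rw [card_range] at h3
  have h4 : (((range Z).filter (fun ν => f (A + B * ν) = γ)).card : ℝ) ≤
      (Λ : ℝ) + ((((range Z).filter (fun ν : ℕ => εg < sg y (A + B * ν))).card : ℝ) +
      (((range Z).filter (fun ν : ℕ => ¬ (A + B * ν).Coprime D)).card : ℝ)) := by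
    exact_mod_cast h3
  have h6 : (Z : ℝ) * sg y D ≤ Z * ε8 := mul_le_mul_of_nonneg_left hsD (Nat.cast_nonneg _)
  have hy0 : (0 : ℝ) < y := by exact_mod_cast hy
  have h7 : ((Z : ℝ) / y + L) / εg = 1 / (y * εg) * Z + L / εg := by
    field_simp
  rw [h7] at h1
  nlinarith

theorem rareAP_of_closure [Finite G] {f : ℕ → G} {y W Λ L : ℕ} {εg ε8 : ℝ} {N : ℕ}
    (hy : 1 ≤ y) (hW : 2 ≤ W) (hWy : ∀ ℓ : ℕ, ℓ.Prime → ℓ ≤ y → ℓ ∣ W) (hεg : 0 < εg)
    (hε8 : 0 ≤ ε8) (hNL : N < 2 ^ L) (k : ℕ) (hk : Nat.card G ≤ k) :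
    RareAP f (AddSubgroup.closure {γ | Avail f y W Λ L εg ε8 N γ}) W
      (k * (1 / (y * εg) + ε8)) (k * (Λ + L / εg + L)) N := by
  classical
  intro A B Z hB hcop hWB hA hN
  have := Fintype.ofFinite G
  have hsub : (range Z).filter (fun ν => f (A + B * ν) ∉
      AddSubgroup.closure {γ | Avail f y W Λ L εg ε8 N γ}) ⊆
      ((Finset.univ : Finset G).filter (fun γ => ¬ Avail f y W Λ L εg ε8 N γ)).biUnion
        (fun γ => (range Z).filter (fun ν => f (A + B * ν) = γ)) := by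
    intro ν hν
    rw [mem_filter] at hν
    rw [mem_biUnion]
    refine ⟨f (A + B * ν), ?_, ?_⟩
    · rw [mem_filter]
      refine ⟨mem_univ _, fun hav => hν.2 ?_⟩
      exact AddSubgroup.subset_closure hav
    · rw [mem_filter]
      exact ⟨hν.1, rfl⟩
  have h1 := (Finset.card_le_card hsub).trans Finset.card_biUnion_le
  have hbd : (0 : ℝ) ≤ (1 / (y * εg) + ε8) * Z + (Λ + L / εg + L) := by positivity
  have h2 : (((range Z).filter (fun ν => f (A + B * ν) ∉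
      AddSubgroup.closure {γ | Avail f y W Λ L εg ε8 N γ})).card : ℝ) ≤
      ∑ γ ∈ (Finset.univ : Finset G).filter (fun γ => ¬ Avail f y W Λ L εg ε8 N γ),
        (((range Z).filter (fun ν => f (A + B * ν) = γ)).card : ℝ) := by
    exact_mod_cast h1
  have h3 : ∑ γ ∈ (Finset.univ : Finset G).filter (fun γ => ¬ Avail f y W Λ L εg ε8 N γ),
        (((range Z).filter (fun ν => f (A + B * ν) = γ)).card : ℝ) ≤
      ∑ _γ ∈ (Finset.univ : Finset G).filter (fun γ => ¬ Avail f y W Λ L εg ε8 N γ),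
        ((1 / (y * εg) + ε8) * Z + (Λ + L / εg + L)) := by
    refine Finset.sum_le_sum fun γ hγ => ?_
    exact rare_of_not_avail hy hW hWy hεg hNL (mem_filter.1 hγ).2 A B Z hB hcop hWB hA hN
  rw [Finset.sum_const, nsmul_eq_mul] at h3
  have h4 : (((Finset.univ : Finset G).filter
      (fun γ => ¬ Avail f y W Λ L εg ε8 N γ)).card : ℝ) ≤ k := by
    have h5 := Finset.card_filter_le (Finset.univ : Finset G)
      (fun γ => ¬ Avail f y W Λ L εg ε8 N γ)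
    rw [Finset.card_univ, ← Nat.card_eq_fintype_card] at h5
    exact_mod_cast h5.trans hk
  have h5 := mul_le_mul_of_nonneg_right h4 hbd
  calc _ ≤ _ := h2.trans h3
    _ ≤ _ := h5
    _ = _ := by ring

end Pool.Agent.Lib.MP_fed790_nt.QP
end

section

/-!
# QP C9: the second moment bound

`HypLoc`: the parameters of the localisation: `X = Kl Y`, `Y = Kl Z'`, `Y = T0 M`, `M = r w`.

**`corr_bd`.** For `p = (u,v)`, `p' = (u',v)`, `u ≠ u'`, and all `a, a', c, ℓ`: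
`|∑_{s ∈ [c,c+ℓ)} Fe_p(s-a) conj Fe_{p'}(s-a')| ≤ q⁻² ∑_{h,h'} T T' #{s : T ∣ s - a - κ,
T' ∣ s - a' - κ'} ≤ ℓ + 4 T0²`, by `crt_count_le` for two coprime moduli (`|ψ| = |β| = 1`), and
`4 T0² ≤ Z'`.
-/

open Finset

namespace Pool.Agent.Lib.MP_fed790_nt.QP

/-- The parameters of the localisation. -/
structure HypLoc (W S t T0 X Kl Y Z' M w r : ℕ) (δ δ0 εc : ℝ) : Prop where
  hXY : X = Kl * Y
  hYZ : Y = Kl * Z'
  hYM : Y = T0 * M
  hM : M = r * w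
  hKl : 0 < Kl
  hZ' : 0 < Z'
  hw : 0 < w
  hr : 0 < r
  hq : W ^ (S + 1) ∣ w
  hTM : T0 ∣ M
  hTZ : T0 ∣ Z'
  hZT : 4 * T0 ^ 2 ≤ Z'
  hMt : 4 * t * T0 ^ 2 ≤ M
  hrt : (t : ℝ) ≤ (δ0 / (2 * t)) ^ 2 * r
  hδK : δ0 * (4 * S * Kl * M) + 2 ≤ M
  hεc : 5 * (24 * (2 * δ0 * (4 * S * Kl * M) + 4) / M + 220 / Real.sqrt t +
        16 * (r ^ 2 * (2 * (4 * S * Kl * M) + 2) * δ / M + 4 * r ^ 2 * W ^ (S + 1) * T0 / M) ^ 2)
        ≤ εc

variable {G : Type*} [AddCommGroup G] {f : ℕ → G} {H : AddSubgroup G} [Fintype H]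
  {k y W S t L N' T0 X : ℕ} {δ δ0 εT ε10 ρ c1 : ℝ} {T : Ve S t × Ve S t → H → ℕ}

private theorem c9_norm_Fe [Finite G] (ψ : AddChar G ℂ) (p : Ve S t × Ve S t) (y : ℤ) :
    ‖Fe f W T ψ p y‖ ≤ (∑ h, if (T p h : ℤ) ∣ y - kB W T p h then (T p h : ℝ) else 0) /
      Fintype.card H := by
  unfold Fe Ft
  rw [norm_div, Complex.norm_natCast]
  refine div_le_div_of_nonneg_right ((norm_sum_le _ _).trans (Finset.sum_le_sum fun h _ => ?_))
    (Nat.cast_nonneg _)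
  split_ifs
  · rw [norm_mul, norm_mul, Complex.norm_natCast]
    unfold βf
    rw [AddChar.norm_apply, AddChar.norm_apply, one_mul, mul_one]
  · rw [norm_zero]

private theorem c9_count (T₁ T₂ : ℕ) (h₁ : 0 < T₁) (h₂ : 0 < T₂) (hc : T₁.Coprime T₂)
    (a b c : ℤ) (ℓ : ℕ) :
    ∑ s ∈ Ico c (c + ℓ), (if (T₁ : ℤ) ∣ s - a then (T₁ : ℝ) else 0) *
      (if (T₂ : ℤ) ∣ s - b then (T₂ : ℝ) else 0) ≤ ℓ + T₁ * T₂ := by
  classical
  set A : Finset ℤ := (Ico c (c + ℓ)).filter fun s => (T₁ : ℤ) ∣ s - a ∧ (T₂ : ℤ) ∣ s - b with hA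
  have hsum : ∑ s ∈ Ico c (c + ℓ), (if (T₁ : ℤ) ∣ s - a then (T₁ : ℝ) else 0) *
      (if (T₂ : ℤ) ∣ s - b then (T₂ : ℝ) else 0) = A.card * ((T₁ : ℝ) * T₂) := by
    rw [hA, Finset.card_eq_sum_ones, Finset.sum_filter]
    push_cast
    rw [Finset.sum_mul]
    refine Finset.sum_congr rfl fun s _ => ?_
    by_cases ha : (T₁ : ℤ) ∣ s - a <;> by_cases hb : (T₂ : ℤ) ∣ s - b <;> simp [ha, hb]
  have hcard := crt_count_le (Finset.univ : Finset Bool) (fun i => if i then T₁ else T₂)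
    (fun i => if i then a else b)
    (by
      intro i _
      cases i
      · simpa using h₂
      · simpa using h₁)
    (by
      intro i _ j _ hij
      cases i <;> cases j
      · exact absurd rfl hij
      · simpa using hc.symm
      · simpa using hc
      · exact absurd rfl hij) c ℓ A
    (by
      intro x hx
      rw [hA, Finset.mem_filter, Finset.mem_Ico] at hx
      refine ⟨hx.1.1, hx.1.2, ?_⟩
      intro i _
      cases i
      · simpa using hx.2.2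
      · simpa using hx.2.1)
  have hprod : (∏ i : Bool, (((fun i : Bool => if i then T₁ else T₂) i : ℕ) : ℝ)) =
      (T₁ : ℝ) * T₂ := by
    simp
  rw [hprod] at hcard
  rw [hsum]
  have h₁' : (0 : ℝ) < T₁ := by exact_mod_cast h₁
  have h₂' : (0 : ℝ) < T₂ := by exact_mod_cast h₂
  have hpos : (0 : ℝ) < (T₁ : ℝ) * T₂ := mul_pos h₁' h₂'
  calc (A.card : ℝ) * ((T₁ : ℝ) * T₂) ≤ (ℓ / ((T₁ : ℝ) * T₂) + 1) * ((T₁ : ℝ) * T₂) :=
        mul_le_mul_of_nonneg_right hcard hpos.le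
    _ = ℓ + T₁ * T₂ := by
        rw [add_mul, one_mul, div_mul_cancel₀ _ hpos.ne']

theorem corr_bd [Finite G] (h : HypIII f H k y W S t L N' T0 X δ δ0 εT ε10 ρ c1 T)
    (ψ : AddChar G ℂ) (u u' v : Ve S t) (hu : (u, v) ∈ Pr S t) (hu' : (u', v) ∈ Pr S t)
    (hne : u ≠ u') (a a' c : ℤ) (ℓ : ℕ) :
    ‖∑ s ∈ Ico c (c + ℓ), Fe f W T ψ (u, v) (s - a) *
      starRingEnd ℂ (Fe f W T ψ (u', v) (s - a'))‖ ≤ ℓ + 4 * T0 ^ 2 := by
  classical
  set q : ℝ := (Fintype.card H : ℝ) with hq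
  have hqpos : 0 < q := by
    rw [hq]
    exact_mod_cast Fintype.card_pos
  have hpne : (u, v) ≠ (u', v) := fun e => hne (congrArg Prod.fst e)
  have hT1 : ∀ g : H, 1 ≤ T (u, v) g := fun g => le_trans h.hT0 (h.T_ge hu g)
  have hT1' : ∀ g : H, 1 ≤ T (u', v) g := fun g => le_trans h.hT0 (h.T_ge hu' g)
  set F : ℤ → H → ℝ := fun s g =>
    if (T (u, v) g : ℤ) ∣ s - (a + kB W T (u, v) g) then (T (u, v) g : ℝ) else 0 with hF
  set F' : ℤ → H → ℝ := fun s g =>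
    if (T (u', v) g : ℤ) ∣ s - (a' + kB W T (u', v) g) then (T (u', v) g : ℝ) else 0 with hF'
  have hF0 : ∀ s g, 0 ≤ F s g := by
    intro s g
    rw [hF]
    dsimp only
    split_ifs
    · exact Nat.cast_nonneg _
    · exact le_rfl
  have hF0' : ∀ s g, 0 ≤ F' s g := by
    intro s g
    rw [hF']
    dsimp only
    split_ifs
    · exact Nat.cast_nonneg _
    · exact le_rfl
  have hb : ∀ s, ‖Fe f W T ψ (u, v) (s - a)‖ ≤ (∑ g, F s g) / q := by
    intro s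
    refine (c9_norm_Fe ψ (u, v) (s - a)).trans (le_of_eq ?_)
    rw [hF, hq]
    dsimp only
    congr 1
    refine Finset.sum_congr rfl fun g _ => ?_
    rw [sub_sub]
  have hb' : ∀ s, ‖Fe f W T ψ (u', v) (s - a')‖ ≤ (∑ g, F' s g) / q := by
    intro s
    refine (c9_norm_Fe ψ (u', v) (s - a')).trans (le_of_eq ?_)
    rw [hF', hq]
    dsimp only
    congr 1
    refine Finset.sum_congr rfl fun g _ => ?_
    rw [sub_sub]
  have hterm : ∀ g g' : H, ∑ s ∈ Ico c (c + ℓ), F s g * F' s g' ≤ ℓ + 4 * T0 ^ 2 := by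
    intro g g'
    have h1 := c9_count (T (u, v) g) (T (u', v) g') (hT1 g) (hT1' g')
      (h.hpool.cop _ hu _ hu' hpne g g') (a + kB W T (u, v) g) (a' + kB W T (u', v) g') c ℓ
    refine h1.trans ?_
    have h2 : (T (u, v) g : ℝ) ≤ 2 * T0 := by exact_mod_cast h.T_le2 hu g
    have h3 : (T (u', v) g' : ℝ) ≤ 2 * T0 := by exact_mod_cast h.T_le2 hu' g'
    have h4 : (T (u, v) g : ℝ) * T (u', v) g' ≤ 2 * T0 * (2 * T0) :=
      mul_le_mul h2 h3 (Nat.cast_nonneg _) (by positivity)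
    linarith
  calc ‖∑ s ∈ Ico c (c + ℓ), Fe f W T ψ (u, v) (s - a) *
      starRingEnd ℂ (Fe f W T ψ (u', v) (s - a'))‖
      ≤ ∑ s ∈ Ico c (c + ℓ), ‖Fe f W T ψ (u, v) (s - a) *
      starRingEnd ℂ (Fe f W T ψ (u', v) (s - a'))‖ := norm_sum_le _ _
    _ ≤ ∑ s ∈ Ico c (c + ℓ), ((∑ g, F s g) / q) * ((∑ g, F' s g) / q) := by
        refine Finset.sum_le_sum fun s _ => ?_
        rw [norm_mul, RCLike.norm_conj]
        exact mul_le_mul (hb s) (hb' s) (norm_nonneg _)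
          (div_nonneg (Finset.sum_nonneg fun g _ => hF0 s g) hqpos.le)
    _ = (∑ g, ∑ g', ∑ s ∈ Ico c (c + ℓ), F s g * F' s g') / q ^ 2 := by
        rw [Finset.sum_div]
        have : ∀ s, ((∑ g, F s g) / q) * ((∑ g, F' s g) / q) =
            (∑ g, ∑ g', F s g * F' s g') / q ^ 2 := by
          intro s
          rw [← Finset.sum_mul_sum]
          field_simp
        simp_rw [this]
        rw [← Finset.sum_div, ← Finset.sum_div]
        congr 1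
        rw [Finset.sum_comm]
        refine Finset.sum_congr rfl fun g _ => ?_
        rw [Finset.sum_comm]
    _ ≤ (∑ _g : H, ∑ _g' : H, ((ℓ : ℝ) + 4 * T0 ^ 2)) / q ^ 2 := by
        refine div_le_div_of_nonneg_right ?_ (by positivity)
        exact Finset.sum_le_sum fun g _ => Finset.sum_le_sum fun g' _ => hterm g g'
    _ = ℓ + 4 * T0 ^ 2 := by
        simp only [Finset.sum_const, Finset.card_univ, nsmul_eq_mul]
        rw [← hq]
        field_simp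

end Pool.Agent.Lib.MP_fed790_nt.QP
end

section

/-!
# QP C7s: the expectation of a 4-cycle

**`four_exp`.** Let `u = (i,a)`, `u' = (i,a')`, `v = (j,b)`, `v' = (j,b')`, `a ≠ a'`, `b ≠ b'`,
`i < j`; `p₁ = (u,v)`, `p₂ = (u',v)`, `p₃ = (u,v')`, `p₄ = (u',v')` are four different elements of
`Pr`. By `sum_out` with `Q = Pr \ {p₁,…,p₄}`, `U = {u,u',v,v'}` (an edge with both end points in `U`
is one of the `p_i`: it joins the level `i` to the level `j`) and `ww_mul_psi` (`ww` is real)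
`∑_x ∏_{Pr} ww (ψ₁ conj ψ₂ conj ψ₃ ψ₄) = ∑_x F₁(x_v - x_u) conj F₂(x_v - x_u')
conj F₃(x_v' - x_u) F₄(x_v' - x_u')`. Apply `sum_update` for `v` and for `v'`: it equals
`X⁻² ∑_x C_v(x_u, x_u') conj(C_v'(x_u, x_u'))`, where
`C_v(a,a') = ∑_{s ∈ Ico (lo v) (lo v + X)} F_{(u,v)}(s - a) conj(F_{(u',v)}(s - a'))`. Use
`|C C'| ≤ (|C|² + |C'|²)/2` and `∑_x |C_v(x_u,x_u')|² = #bx X⁻² ∑_{a,a'} |C_v(a,a')|²`
(`sum_update_real` for `u` and `u'`, all of `u, u', v, v'` being different).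
-/

open Finset

namespace Pool.Agent.Lib.MP_fed790_nt.QP

variable {G : Type*} [AddCommGroup G] {f : ℕ → G} {H : AddSubgroup G} [Fintype H]
  {k y W S t L N' T0 X : ℕ} {δ δ0 εT ε10 ρ c1 : ℝ} {T : Ve S t × Ve S t → H → ℕ}

private theorem c7s_ww_congr {V η : Type*} [Fintype η] (T : V × V → η → ℕ)
    (κ : V × V → η → ℤ) (p : V × V) (x x' : V → ℤ) (h1 : x p.1 = x' p.1) (h2 : x p.2 = x' p.2) :
    ww T κ p x = ww T κ p x' := by
  unfold ww
  rw [h1, h2]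

private theorem c7s_ee_congr {S t : ℕ} (W : ℕ) (p : Ve S t × Ve S t) (x x' : Ve S t → ℤ)
    (h1 : x p.1 = x' p.1) (h2 : x p.2 = x' p.2) : ee W p x = ee W p x' := by
  unfold ee
  rw [h1, h2]

/-- Summing a function of two coordinates over the box. -/
private theorem c7s_two {V : Type*} [Fintype V] [DecidableEq V] (lo : V → ℤ) (X : ℕ) (u u' : V)
    (hu : u ≠ u') (g : ℤ → ℤ → ℝ) :
    (X : ℝ) ^ 2 * ∑ x ∈ bx lo X, g (x u) (x u') =
      (bx lo X).card * ∑ α ∈ Ico (lo u) (lo u + X), ∑ α' ∈ Ico (lo u') (lo u' + X), g α α' := by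
  have e1 := sum_update_real lo X u' (fun x => g (x u) (x u'))
  have e2 := sum_update_real lo X u
    (fun x => ∑ α' ∈ Ico (lo u') (lo u' + X), g (x u) α')
  simp only [Function.update_self, Function.update_of_ne hu] at e1
  simp only [Function.update_self] at e2
  rw [sum_const, nsmul_eq_mul] at e2
  rw [e2, e1]
  ring

/-- The sum over the box of a product of two correlations. -/
private theorem c7s_prod {V : Type*} [Fintype V] [DecidableEq V] (lo : V → ℤ) (X : ℕ)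
    (u u' v v' : V) (h1 : v ≠ u) (h2 : v ≠ u') (h3 : v' ≠ u) (h4 : v' ≠ u') (h5 : v ≠ v')
    (A B : ℤ → ℤ → ℤ → ℂ) :
    (X : ℂ) ^ 2 * ∑ x ∈ bx lo X, A (x v) (x u) (x u') * B (x v') (x u) (x u') =
      ∑ x ∈ bx lo X, (∑ s ∈ Ico (lo v) (lo v + X), A s (x u) (x u')) *
        ∑ s ∈ Ico (lo v') (lo v' + X), B s (x u) (x u') := by
  have e1 := sum_update lo X v (fun x => A (x v) (x u) (x u') * B (x v') (x u) (x u'))
  have e2 := sum_update lo X v' (fun x => (∑ s ∈ Ico (lo v) (lo v + X), A s (x u) (x u')) *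
    B (x v') (x u) (x u'))
  simp only [Function.update_self, Function.update_of_ne h1.symm, Function.update_of_ne h2.symm,
    Function.update_of_ne h5.symm] at e1
  simp only [Function.update_self, Function.update_of_ne h3.symm,
    Function.update_of_ne h4.symm] at e2
  simp only [← sum_mul] at e1
  simp only [← mul_sum] at e2
  rw [e2, e1]
  ring

theorem four_exp [Finite G] (h : HypIII f H k y W S t L N' T0 X δ δ0 εT ε10 ρ c1 T)
    (ψ : AddChar G ℂ) (i j : Fin S) (hij : i < j) (a a' b b' : Fin t) (ha : a ≠ a')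
    (hb : b ≠ b') :
    ‖∑ x ∈ bx (loB S t X) X, ((∏ p ∈ Pr S t, ww T (kB W T) p x : ℝ) : ℂ) *
      (ψ (f (ee W ((i, a), (j, b)) x).natAbs) *
      starRingEnd ℂ (ψ (f (ee W ((i, a'), (j, b)) x).natAbs)) *
      starRingEnd ℂ (ψ (f (ee W ((i, a), (j, b')) x).natAbs) *
      starRingEnd ℂ (ψ (f (ee W ((i, a'), (j, b')) x).natAbs))))‖ ≤
    (bx (loB S t X) X).card / (X : ℝ) ^ 4 * ((
      ∑ α ∈ Ico (loB S t X (i, a)) (loB S t X (i, a) + X),
      ∑ α' ∈ Ico (loB S t X (i, a')) (loB S t X (i, a') + X),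
        ‖Cv f W X T ψ (i, a) (i, a') (j, b) α α'‖ ^ 2 +
      ∑ α ∈ Ico (loB S t X (i, a)) (loB S t X (i, a) + X),
      ∑ α' ∈ Ico (loB S t X (i, a')) (loB S t X (i, a') + X),
        ‖Cv f W X T ψ (i, a) (i, a') (j, b') α α'‖ ^ 2) / 2) := by
  classical
  set lo := loB S t X with hlo
  obtain ⟨u, hu⟩ : ∃ u : Ve S t, u = (i, a) := ⟨_, rfl⟩
  obtain ⟨u', hu'⟩ : ∃ u' : Ve S t, u' = (i, a') := ⟨_, rfl⟩
  obtain ⟨v, hv⟩ : ∃ v : Ve S t, v = (j, b) := ⟨_, rfl⟩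
  obtain ⟨v', hv'⟩ : ∃ v' : Ve S t, v' = (j, b') := ⟨_, rfl⟩
  rw [← hu, ← hu', ← hv, ← hv']
  have huu : u ≠ u' := by
    rw [hu, hu']; intro e; exact ha (congrArg Prod.snd e)
  have hvv : v ≠ v' := by
    rw [hv, hv']; intro e; exact hb (congrArg Prod.snd e)
  have hlev : ∀ w z : Ve S t, (w = u ∨ w = u') → (z = v ∨ z = v') → w.1 < z.1 := by
    intro w z hw hz
    have e1 : w.1 = i := by rcases hw with rfl | rfl <;> simp [hu, hu']
    have e2 : z.1 = j := by rcases hz with rfl | rfl <;> simp [hv, hv']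
    rw [e1, e2]; exact hij
  have hne : ∀ w z : Ve S t, (w = u ∨ w = u') → (z = v ∨ z = v') → z ≠ w := by
    intro w z hw hz e
    have := hlev w z hw hz
    rw [e] at this
    exact lt_irrefl _ this
  have hPr : ∀ w z : Ve S t, (w = u ∨ w = u') → (z = v ∨ z = v') → (w, z) ∈ Pr S t := by
    intro w z hw hz
    unfold Pr
    rw [mem_filter]
    exact ⟨mem_univ _, hlev w z hw hz⟩
  have hp1 := hPr u v (Or.inl rfl) (Or.inl rfl)
  have hp2 := hPr u' v (Or.inr rfl) (Or.inl rfl)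
  have hp3 := hPr u v' (Or.inl rfl) (Or.inr rfl)
  have hp4 := hPr u' v' (Or.inr rfl) (Or.inr rfl)
  obtain ⟨P4, hP4⟩ : ∃ P4 : Finset (Ve S t × Ve S t), P4 = {(u, v), (u', v), (u, v'), (u', v')} :=
    ⟨_, rfl⟩
  have hsub : P4 ⊆ Pr S t := by
    rw [hP4]
    intro p hp
    simp only [mem_insert, mem_singleton] at hp
    rcases hp with rfl | rfl | rfl | rfl
    · exact hp1
    · exact hp2
    · exact hp3
    · exact hp4
  obtain ⟨Q, hQdef⟩ : ∃ Q : Finset (Ve S t × Ve S t), Q = Pr S t \ P4 := ⟨_, rfl⟩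
  have hQsub : Q ⊆ Pr S t := by rw [hQdef]; exact sdiff_subset
  obtain ⟨U, hUdef⟩ : ∃ U : Finset (Ve S t), U = {u, u', v, v'} := ⟨_, rfl⟩
  have hprod4 : ∀ g : Ve S t × Ve S t → ℂ, ∏ p ∈ P4, g p =
      g (u, v) * g (u', v) * g (u, v') * g (u', v') := by
    intro g
    rw [hP4, prod_insert, prod_insert, prod_insert, prod_singleton]
    · ring
    · simp only [mem_singleton, Prod.mk.injEq, not_and]
      intro e; exact absurd e huu
    · simp only [mem_insert, mem_singleton, Prod.mk.injEq, not_or, not_and]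
      exact ⟨fun e => absurd e.symm huu, fun _ => hvv⟩
    · simp only [mem_insert, mem_singleton, Prod.mk.injEq, not_or, not_and]
      exact ⟨fun e => absurd e huu, fun _ => hvv, fun e => absurd e huu⟩
  obtain ⟨Φ, hΦ⟩ : ∃ Φ : (Ve S t → ℤ) → ℂ, Φ = fun x =>
      (∏ p ∈ P4, ((ww T (kB W T) p x : ℝ) : ℂ)) *
      (ψ (f (ee W (u, v) x).natAbs) *
      starRingEnd ℂ (ψ (f (ee W (u', v) x).natAbs)) *
      starRingEnd ℂ (ψ (f (ee W (u, v') x).natAbs) *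
      starRingEnd ℂ (ψ (f (ee W (u', v') x).natAbs)))) := ⟨_, rfl⟩
  have hUmem : u ∈ U ∧ u' ∈ U ∧ v ∈ U ∧ v' ∈ U := by rw [hUdef]; simp
  have hΦdep : ∀ x x' : Ve S t → ℤ, (∀ w ∈ U, x w = x' w) → Φ x = Φ x' := by
    intro x x' hx
    have g1 := hx u hUmem.1
    have g2 := hx u' hUmem.2.1
    have g3 := hx v hUmem.2.2.1
    have g4 := hx v' hUmem.2.2.2
    rw [hΦ]
    simp only
    rw [hprod4, hprod4, c7s_ww_congr T (kB W T) (u, v) x x' g1 g3,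
      c7s_ww_congr T (kB W T) (u', v) x x' g2 g3,
      c7s_ww_congr T (kB W T) (u, v') x x' g1 g4,
      c7s_ww_congr T (kB W T) (u', v') x x' g2 g4,
      c7s_ee_congr W (u, v) x x' g1 g3, c7s_ee_congr W (u', v) x x' g2 g3,
      c7s_ee_congr W (u, v') x x' g1 g4, c7s_ee_congr W (u', v') x x' g2 g4]
  have hso := sum_out T (kB W T) lo X Q U
    (fun p hp g => lt_of_lt_of_le h.hT0 (h.T_ge (hQsub hp) g))
    (by
      intro p hp
      have hpP := hQsub hp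
      refine ⟨pair_ne hpP, ?_⟩
      by_contra hcon
      push Not at hcon
      obtain ⟨c1', c2'⟩ := hcon
      have hlt : p.1.1 < p.2.1 := by
        unfold Pr at hpP
        rw [mem_filter] at hpP
        exact hpP.2
      have hmem : p ∉ P4 := by
        rw [hQdef, mem_sdiff] at hp
        exact hp.2
      apply hmem
      rw [hUdef] at c1' c2'
      simp only [mem_insert, mem_singleton] at c1' c2'
      have l1 : ∀ w : Ve S t, (w = u ∨ w = u') → w.1 = i := by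
        intro w hw
        rcases hw with rfl | rfl <;> simp [hu, hu']
      have l2 : ∀ w : Ve S t, (w = v ∨ w = v') → w.1 = j := by
        intro w hw
        rcases hw with rfl | rfl <;> simp [hv, hv']
      have k1 : p.1 = u ∨ p.1 = u' := by
        rcases c1' with e | e | e | e
        · exact Or.inl e
        · exact Or.inr e
        · exfalso
          have q1 := l2 p.1 (Or.inl e)
          rcases c2' with e' | e' | e' | e'
          · have q2 := l1 p.2 (Or.inl e'); rw [q1, q2] at hlt; exact lt_asymm hij hlt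
          · have q2 := l1 p.2 (Or.inr e'); rw [q1, q2] at hlt; exact lt_asymm hij hlt
          · have q2 := l2 p.2 (Or.inl e'); rw [q1, q2] at hlt; exact lt_irrefl _ hlt
          · have q2 := l2 p.2 (Or.inr e'); rw [q1, q2] at hlt; exact lt_irrefl _ hlt
        · exfalso
          have q1 := l2 p.1 (Or.inr e)
          rcases c2' with e' | e' | e' | e'
          · have q2 := l1 p.2 (Or.inl e'); rw [q1, q2] at hlt; exact lt_asymm hij hlt
          · have q2 := l1 p.2 (Or.inr e'); rw [q1, q2] at hlt; exact lt_asymm hij hlt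
          · have q2 := l2 p.2 (Or.inl e'); rw [q1, q2] at hlt; exact lt_irrefl _ hlt
          · have q2 := l2 p.2 (Or.inr e'); rw [q1, q2] at hlt; exact lt_irrefl _ hlt
      have k2 : p.2 = v ∨ p.2 = v' := by
        have q1 := l1 p.1 k1
        rcases c2' with e' | e' | e' | e'
        · have q2 := l1 p.2 (Or.inl e'); rw [q1, q2] at hlt; exact absurd hlt (lt_irrefl _)
        · have q2 := l1 p.2 (Or.inr e'); rw [q1, q2] at hlt; exact absurd hlt (lt_irrefl _)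
        · exact Or.inl e'
        · exact Or.inr e'
      rw [hP4]
      simp only [mem_insert, mem_singleton]
      have hpe : p = (p.1, p.2) := rfl
      rcases k1 with k1 | k1 <;> rcases k2 with k2 | k2 <;> rw [hpe, k1, k2] <;> simp)
    (fun p hp p' hp' => h.hpool.cop p (hQsub hp) p' (hQsub hp'))
    ((prod_dvd_prod_of_subset _ _ _ hQsub).trans h.hX) Φ hΦdep
  obtain ⟨A, hA⟩ : ∃ A : ℤ → ℤ → ℤ → ℂ, A = fun s α α' =>
      Fe f W T ψ (u, v) (s - α) * starRingEnd ℂ (Fe f W T ψ (u', v) (s - α')) := ⟨_, rfl⟩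
  obtain ⟨B, hB⟩ : ∃ B : ℤ → ℤ → ℤ → ℂ, B = fun s α α' =>
      starRingEnd ℂ (Fe f W T ψ (u, v') (s - α) *
        starRingEnd ℂ (Fe f W T ψ (u', v') (s - α'))) := ⟨_, rfl⟩
  have hstart : ∑ x ∈ bx lo X, ((∏ p ∈ Pr S t, ww T (kB W T) p x : ℝ) : ℂ) *
      (ψ (f (ee W (u, v) x).natAbs) *
      starRingEnd ℂ (ψ (f (ee W (u', v) x).natAbs)) *
      starRingEnd ℂ (ψ (f (ee W (u, v') x).natAbs) *
      starRingEnd ℂ (ψ (f (ee W (u', v') x).natAbs)))) =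
      ∑ x ∈ bx lo X, A (x v) (x u) (x u') * B (x v') (x u) (x u') := by
    calc _ = ∑ x ∈ bx lo X, Φ x * ∏ p ∈ Q, ((ww T (kB W T) p x : ℝ) : ℂ) := by
          apply sum_congr rfl
          intro x _
          rw [hΦ]
          simp only
          rw [hQdef]
          have e1 : ((∏ p ∈ Pr S t, ww T (kB W T) p x : ℝ) : ℂ) =
              (∏ p ∈ Pr S t \ P4, ((ww T (kB W T) p x : ℝ) : ℂ)) *
                ∏ p ∈ P4, ((ww T (kB W T) p x : ℝ) : ℂ) := by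
            rw [prod_sdiff hsub]
            push_cast
            rfl
          rw [e1]
          ring
      _ = ∑ x ∈ bx lo X, Φ x := hso
      _ = _ := by
          apply sum_congr rfl
          intro x hx
          have hxm : ∀ w, x w ∈ Ico (lo w) (lo w + X) := by
            unfold bx at hx
            rw [Fintype.mem_piFinset] at hx
            exact hx
          have hpos : ∀ p ∈ Pr S t, 1 ≤ x p.2 - x p.1 := by
            intro p hp
            have := (diff_mem hp (x p.1) (x p.2) (hxm _) (hxm _)).1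
            have hX0 : (0 : ℤ) ≤ X := Int.natCast_nonneg X
            linarith
          have w1 := ww_mul_psi h ψ hp1 x (hpos _ hp1)
          have w2 := ww_mul_psi h ψ hp2 x (hpos _ hp2)
          have w3 := ww_mul_psi h ψ hp3 x (hpos _ hp3)
          have w4 := ww_mul_psi h ψ hp4 x (hpos _ hp4)
          rw [hΦ, hA, hB]
          simp only at w1 w2 w3 w4 ⊢
          rw [hprod4, ← w1, ← w2, ← w3, ← w4]
          simp only [map_mul, Complex.conj_ofReal, Complex.conj_conj]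
          ring
  rw [hstart]
  have hX0 : (0 : ℝ) < X := by exact_mod_cast h.hX0
  have hpr := c7s_prod lo X u u' v v' (hne u v (Or.inl rfl) (Or.inl rfl))
    (hne u' v (Or.inr rfl) (Or.inl rfl)) (hne u v' (Or.inl rfl) (Or.inr rfl))
    (hne u' v' (Or.inr rfl) (Or.inr rfl)) hvv A B
  have hCv : ∀ α α', ∑ s ∈ Ico (lo v) (lo v + X), A s α α' = Cv f W X T ψ u u' v α α' := by
    intro α α'
    rw [hA]
    rfl
  have hCv' : ∀ α α', ∑ s ∈ Ico (lo v') (lo v' + X), B s α α' =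
      starRingEnd ℂ (Cv f W X T ψ u u' v' α α') := by
    intro α α'
    unfold Cv
    rw [map_sum, hB]
  simp only [hCv, hCv'] at hpr
  have hn : (X : ℝ) ^ 2 * ‖∑ x ∈ bx lo X, A (x v) (x u) (x u') * B (x v') (x u) (x u')‖ ≤
      ∑ x ∈ bx lo X, (‖Cv f W X T ψ u u' v (x u) (x u')‖ ^ 2 +
        ‖Cv f W X T ψ u u' v' (x u) (x u')‖ ^ 2) / 2 := by
    have e1 : (X : ℝ) ^ 2 * ‖∑ x ∈ bx lo X, A (x v) (x u) (x u') * B (x v') (x u) (x u')‖ =
        ‖(X : ℂ) ^ 2 * ∑ x ∈ bx lo X, A (x v) (x u) (x u') * B (x v') (x u) (x u')‖ := by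
      rw [norm_mul, norm_pow, Complex.norm_natCast]
    rw [e1, hpr]
    refine (norm_sum_le _ _).trans (sum_le_sum fun x _ => ?_)
    rw [norm_mul, RCLike.norm_conj]
    nlinarith [sq_nonneg (‖Cv f W X T ψ u u' v (x u) (x u')‖ -
      ‖Cv f W X T ψ u u' v' (x u) (x u')‖)]
  have t1 := c7s_two lo X u u' huu (fun α α' => ‖Cv f W X T ψ u u' v α α'‖ ^ 2)
  have t2 := c7s_two lo X u u' huu (fun α α' => ‖Cv f W X T ψ u u' v' α α'‖ ^ 2)
  have hfin : (X : ℝ) ^ 4 * ‖∑ x ∈ bx lo X, A (x v) (x u) (x u') * B (x v') (x u) (x u')‖ ≤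
      (bx lo X).card * ((∑ α ∈ Ico (lo u) (lo u + X), ∑ α' ∈ Ico (lo u') (lo u' + X),
        ‖Cv f W X T ψ u u' v α α'‖ ^ 2 +
        ∑ α ∈ Ico (lo u) (lo u + X), ∑ α' ∈ Ico (lo u') (lo u' + X),
        ‖Cv f W X T ψ u u' v' α α'‖ ^ 2) / 2) := by
    have e1 : (X : ℝ) ^ 4 * ‖∑ x ∈ bx lo X, A (x v) (x u) (x u') * B (x v') (x u) (x u')‖ =
        (X : ℝ) ^ 2 * ((X : ℝ) ^ 2 *
          ‖∑ x ∈ bx lo X, A (x v) (x u) (x u') * B (x v') (x u) (x u')‖) := by ring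
    rw [e1]
    refine (mul_le_mul_of_nonneg_left hn (by positivity)).trans (le_of_eq ?_)
    rw [← sum_div, sum_add_distrib]
    have e2 : ∀ a b c d n x : ℝ, x ^ 2 * a = n * c → x ^ 2 * b = n * d →
        x ^ 2 * ((a + b) / 2) = n * ((c + d) / 2) := by
      intro a b c d n x g1 g2
      linear_combination (g1 + g2) / 2
    exact e2 _ _ _ _ _ _ t1 t2
  rw [div_mul_eq_mul_div, le_div_iff₀ (by positivity)]
  linarith [hfin]

end Pool.Agent.Lib.MP_fed790_nt.QP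
end

section

/-!
# QP A3: `k`-th roots modulo `Q` (elementary Hensel)

**`exists_root`.** Induction on `j`; `j = 0`: `ρ = 1`. Step: let `ρ` be coprime to `R`,
`ρ^k ≡ m mod k² L'` with `L' = R^(j+1)`. Work in `ℤ`: `m - ρ^k = k² L' c`. Choose `b : ℕ` with
`ρ^(k-1) b ≡ c mod R` (`ρ` is invertible mod `R`) and `ρ' = ρ + k L' b`. By the binomial theorem
`ρ'^k = ρ^k + k ρ^(k-1) (k L' b) + (k L')² (…)`, and `R ∣ L'`, so `(k L')²` is divisible by
`k² L' R`. Hence `ρ'^k ≡ ρ^k + k² L' ρ^(k-1) b ≡ ρ^k + k² L' c = m mod k² L' R = k² R^(j+2)`.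
And `ρ' ≡ ρ mod R` (since `R ∣ L'`), so `ρ'` is coprime to `R`.
(For `x^k - y^k` type arguments: `add_pow_two`-like lemma `Commute.add_pow`/`Int.ModEq` or
`Polynomial.binomExpansion` / `add_pow_le`… any method is fine, e.g. prove by induction on `n` that
`(a + d)^n ≡ a^n + n a^(n-1) d mod d²`.)

**`root_mod`.** `Q ∣ R^j ∣ k² R^(j+1)`, `m ≡ 1 mod W` implies `m ≡ 1 mod k² R`; `ρ` is coprime to
`R`, hence to `R^j` and to its divisor `Q`.
-/

open Finset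

namespace Pool.Agent.Lib.MP_fed790_nt.QP

theorem exists_root (k R m j : ℕ) (hk : 0 < k) (hR : 0 < R) (hm : m ≡ 1 [MOD k ^ 2 * R]) :
    ∃ ρ : ℕ, ρ.Coprime R ∧ ρ ^ k ≡ m [MOD k ^ 2 * R ^ (j + 1)] := by
  induction j with
  | zero =>
    refine ⟨1, Nat.coprime_one_left R, ?_⟩
    rw [one_pow, zero_add, pow_one]
    exact hm.symm
  | succ j ih =>
    obtain ⟨ρ, hρ, hρm⟩ := ih
    obtain ⟨c, hc⟩ := (Nat.modEq_iff_dvd).1 hρm
    have hcop : IsCoprime ((ρ : ℤ) ^ (k - 1)) (R : ℤ) :=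
      (Nat.isCoprime_iff_coprime.2 hρ).pow_left
    obtain ⟨u, v, huv⟩ := hcop
    have hR' : (0 : ℤ) < (R : ℤ) := by exact_mod_cast hR
    obtain ⟨b, hb⟩ : ∃ b : ℕ, (b : ℤ) = (c * u) % R :=
      ⟨((c * u) % R).toNat, Int.toNat_of_nonneg (Int.emod_nonneg _ hR'.ne')⟩
    obtain ⟨w, hw⟩ : (R : ℤ) ∣ c * u - b := by
      rw [hb]
      exact Int.dvd_self_sub_emod
    refine ⟨ρ + k * R ^ (j + 1) * b, ?_, ?_⟩
    · have h1 : ρ + k * R ^ (j + 1) * b = ρ + (k * R ^ j * b) * R := by ring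
      rw [h1]
      exact (Nat.coprime_add_mul_right_left ρ R (k * R ^ j * b)).2 hρ
    · obtain ⟨K, hK⟩ := Polynomial.powAddExpansion (ρ : ℤ) ((k : ℤ) * (R : ℤ) ^ (j + 1) * b) k
      rw [Nat.modEq_iff_dvd]
      push_cast at hc ⊢
      rw [hK]
      refine ⟨c * v + (ρ : ℤ) ^ (k - 1) * w - K * (R : ℤ) ^ j * (b : ℤ) ^ 2, ?_⟩
      have h2 : (m : ℤ) = (ρ : ℤ) ^ k + (k : ℤ) ^ 2 * (R : ℤ) ^ (j + 1) * c := by linarith
      have h3 : (b : ℤ) = c * u - R * w := by linarith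
      have h4 : c = c * (u * (ρ : ℤ) ^ (k - 1) + v * R) := by rw [huv, mul_one]
      have h5 : c - (ρ : ℤ) ^ (k - 1) * b = R * (c * v + (ρ : ℤ) ^ (k - 1) * w) := by
        rw [h3]
        linear_combination h4
      rw [h2]
      linear_combination (k : ℤ) ^ 2 * (R : ℤ) ^ (j + 1) * h5

theorem root_mod (k R W Q j m : ℕ) (hk : 0 < k) (hR : 0 < R) (hW : k ^ 2 * R ∣ W)
    (hQ : Q ∣ R ^ j) (hm : m ≡ 1 [MOD W]) :
    ∃ ρ : ℕ, ρ.Coprime Q ∧ ρ ^ k ≡ m [MOD Q] := by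
  obtain ⟨ρ, hρ, h⟩ := exists_root k R m j hk hR (hm.of_dvd hW)
  refine ⟨ρ, Nat.Coprime.coprime_dvd_right hQ (hρ.pow_right j), h.of_dvd ?_⟩
  exact hQ.trans ((pow_dvd_pow R (Nat.le_succ j)).trans (Dvd.intro_left _ rfl))

end Pool.Agent.Lib.MP_fed790_nt.QP
end
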