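import Pool.Agent.Lib.MP_fed790_nt.QP.Defs
import Pool.Agent.Lib.MP_fed790_nt.QP.C1
import Pool.Agent.Lib.MP_fed790_nt.QP.Num3r
import Pool.Agent.Lib.MP_fed790_nt.QP.D3

section

/-!
# QP A6: chains of subgroups, sums of generators

**`chain`.** If `H r < H (r+1)` for all `r ≤ Ω(k)` then `Nat.card (H r) ∣ Nat.card (H (r+1))`
properly (`AddSubgroup.card_dvd_of_le`, and equal cardinality plus `≤` implies equality in a finite
group), so `Ω(card (H (r+1))) ≥ Ω(card (H r)) + 1` and by induction `Ω(card (H r)) ≥ r` for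
`r ≤ Ω(k)+1`; but `card (H (Ω(k)+1)) ∣ Nat.card G ∣ k`, so `Ω ≤ Ω(k)`, contradiction.
(`Ω n = ArithmeticFunction.cardFactors n`; `cardFactors_mul`, `cardFactors` of a number `≥ 2` is
`≥ 1`.)

**`sum_k`.** Let `S ∋ 0` and `S_n = {γ_1 + … + γ_n : γ_i ∈ S}`. Then `S_n ⊆ S_{n+1}` (as `0 ∈ S`),
and if `S_n = S_{n+1}` then `S_n = S_m` for all `m ≥ n`, and `S_n` is closed under addition
(`S_n + S_n = S_{2n} = S_n`), contains `0`, so it is a subgroup (finite group: a nonempty set closed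
under addition is a subgroup; e.g. `-x = (n-1) • x` with `n` the order), hence contains
`closure S`. As `|S_1| ≥ 1` and `|S_n| ≤ card G ≤ k`, the sequence `|S_1| ≤ |S_2| ≤ … ≤ |S_{k+1}|`
has a repetition `|S_n| = |S_{n+1}|` with `n ≤ k`, so `S_k ⊇ closure S`.
-/

open Finset

namespace Pool.Agent.Lib.MP_fed790_nt.QP

private theorem a6_lt {a b : ℕ} (h : a ∣ b) (hb : b ≠ 0) (hne : a ≠ b) :
    ArithmeticFunction.cardFactors a + 1 ≤ ArithmeticFunction.cardFactors b := by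
  obtain ⟨c, rfl⟩ := h
  have ha : a ≠ 0 := fun h => hb (by simp [h])
  have hc : c ≠ 0 := fun h => hb (by simp [h])
  have hc1 : c ≠ 1 := fun h => hne (by simp [h])
  rw [ArithmeticFunction.cardFactors_mul ha hc]
  have : 1 ≤ ArithmeticFunction.cardFactors c := by
    rw [Nat.one_le_iff_ne_zero]
    intro h0
    rw [ArithmeticFunction.cardFactors_eq_zero_iff_eq_zero_or_one] at h0
    tauto
  omega

theorem chain {G : Type*} [AddCommGroup G] [Finite G] (k : ℕ) (hk : 0 < k)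
    (hG : Nat.card G ∣ k) (H : ℕ → AddSubgroup G) (hm : Monotone H) :
    ∃ r ≤ ArithmeticFunction.cardFactors k, H r = H (r + 1) := by
  by_contra hcon
  push Not at hcon
  have hpos : ∀ r, Nat.card (H r) ≠ 0 := fun r => Nat.card_pos.ne'
  have key : ∀ r, r ≤ ArithmeticFunction.cardFactors k + 1 →
      r ≤ ArithmeticFunction.cardFactors (Nat.card (H r)) := by
    intro r
    induction r with
    | zero => intro _; exact Nat.zero_le _
    | succ r ih =>
      intro hr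
      have h1 := ih (by omega)
      have hle : H r ≤ H (r + 1) := hm (Nat.le_succ r)
      have hne := hcon r (by omega)
      have hd : Nat.card (H r) ∣ Nat.card (H (r + 1)) := AddSubgroup.card_dvd_of_le hle
      have hcne : Nat.card (H r) ≠ Nat.card (H (r + 1)) := by
        intro h
        exact hne (AddSubgroup.eq_of_le_of_card_ge hle h.ge)
      have := a6_lt hd (hpos _) hcne
      omega
  have h1 := key (ArithmeticFunction.cardFactors k + 1) le_rfl
  have hd : Nat.card (H (ArithmeticFunction.cardFactors k + 1)) ∣ k :=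
    (AddSubgroup.card_addSubgroup_dvd_card _).trans hG
  obtain ⟨c, hc⟩ := hd
  have hc0 : c ≠ 0 := by
    rintro rfl
    omega
  have h2 : ArithmeticFunction.cardFactors k =
      ArithmeticFunction.cardFactors (Nat.card (H (ArithmeticFunction.cardFactors k + 1))) +
        ArithmeticFunction.cardFactors c := by
    conv_lhs => rw [hc]
    exact ArithmeticFunction.cardFactors_mul (hpos _) hc0
  omega

/-- The set of sums of `n` elements of `S`. -/
private def a6S {G : Type*} [AddCommGroup G] (S : Set G) (n : ℕ) : Set G :=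
  {g | ∃ γ : Fin n → G, (∀ i, γ i ∈ S) ∧ ∑ i, γ i = g}

private theorem a6S_succ {G : Type*} [AddCommGroup G] (S : Set G) (n : ℕ) (g : G) :
    g ∈ a6S S (n + 1) ↔ ∃ s ∈ S, ∃ h ∈ a6S S n, s + h = g := by
  constructor
  · rintro ⟨γ, hγ, rfl⟩
    exact ⟨γ 0, hγ 0, ∑ i : Fin n, γ i.succ, ⟨fun i => γ i.succ, fun i => hγ _, rfl⟩,
      (Fin.sum_univ_succ γ).symm⟩
  · rintro ⟨s, hs, h, ⟨γ, hγ, rfl⟩, rfl⟩
    refine ⟨Fin.cons s γ, ?_, ?_⟩
    · intro i
      refine Fin.cases ?_ ?_ i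
      · simpa using hs
      · intro j; simpa using hγ j
    · rw [Fin.sum_univ_succ]
      simp

private theorem a6S_mono {G : Type*} [AddCommGroup G] (S : Set G) (h0 : (0 : G) ∈ S) (n : ℕ) :
    a6S S n ⊆ a6S S (n + 1) := by
  intro g hg
  rw [a6S_succ]
  exact ⟨0, h0, g, hg, zero_add g⟩

private theorem a6S_step {G : Type*} [AddCommGroup G] (S : Set G) {n : ℕ}
    (h : a6S S (n + 1) = a6S S n) (m : ℕ) : a6S S (n + m) = a6S S n := by
  induction m with
  | zero => rfl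
  | succ m ih =>
    rw [← h]
    ext g
    rw [← add_assoc, a6S_succ, a6S_succ, ih]

theorem sum_k {G : Type*} [AddCommGroup G] [Finite G] (k : ℕ) (hk : 1 ≤ k)
    (hG : Nat.card G ≤ k) (S : Set G) (h0 : (0 : G) ∈ S) (g : G)
    (hg : g ∈ AddSubgroup.closure S) :
    ∃ γ : Fin k → G, (∀ i, γ i ∈ S) ∧ ∑ i, γ i = g := by
  classical
  have hmono : Monotone (a6S S) := monotone_nat_of_le_succ (a6S_mono S h0)
  -- some repetition
  have hrep : ∃ n ≤ k, a6S S (n + 1) = a6S S n := by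
    by_contra hcon
    push Not at hcon
    have key : ∀ n, n ≤ k + 1 → n + 1 ≤ (a6S S n).ncard := by
      intro n
      induction n with
      | zero =>
        intro _
        have : (0 : G) ∈ a6S S 0 := ⟨fun i => 0, fun i => i.elim0, by simp⟩
        have h1 : 0 < (a6S S 0).ncard := (Set.ncard_pos (Set.toFinite _)).2 ⟨0, this⟩
        omega
      | succ n ih =>
        intro hn
        have h1 := ih (by omega)
        have hss : a6S S n ⊂ a6S S (n + 1) :=
          (a6S_mono S h0 n).ssubset_of_ne fun h => hcon n (by omega) h.symm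
        have h2 := Set.ncard_lt_ncard hss (Set.toFinite _)
        omega
    have h1 := key (k + 1) le_rfl
    have h2 : (a6S S (k + 1)).ncard ≤ Nat.card G := Set.ncard_le_card _
    omega
  obtain ⟨n, hn, hrep⟩ := hrep
  have hall := a6S_step S hrep
  have hk' : a6S S k = a6S S n := by
    obtain ⟨m, rfl⟩ := Nat.exists_eq_add_of_le hn
    exact hall m
  -- closed under adding elements of S
  have hadd : ∀ s ∈ S, ∀ h ∈ a6S S k, s + h ∈ a6S S k := by
    intro s hs h hh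
    rw [hk'] at hh ⊢
    rw [← hrep, a6S_succ]
    exact ⟨s, hs, h, hh, rfl⟩
  have hzero : (0 : G) ∈ a6S S k := ⟨fun _ => 0, fun _ => h0, by simp⟩
  have hcl : (AddSubmonoid.closure S : Set G) ⊆ a6S S k := by
    intro x hx
    refine AddSubmonoid.closure_induction_left (s := S) (motive := fun x _ => x ∈ a6S S k)
      hzero ?_ hx
    intro s hs y _ hy
    exact hadd s hs y hy
  have hg' : g ∈ AddSubmonoid.closure S := by
    have h1 : (AddSubgroup.closure S).toAddSubmonoid = AddSubmonoid.closure S :=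
      AddSubgroup.closure_toAddSubmonoid_of_finite
    have h2 : g ∈ (AddSubgroup.closure S).toAddSubmonoid := hg
    rwa [h1] at h2
  exact hcl hg'

end Pool.Agent.Lib.MP_fed790_nt.QP
end

section

/-!
# QP A7: the slots

`H = closure {γ | Avail γ}`. By `sum_k`, for every `h' ∈ H` choose available colours
`γ h' i` (`i : Fin k`) with `∑_i γ h' i = h'`. `Avail` (with the given `D`) gives numbers
`m h' i` with `Λ ≤ m ≤ N`, `m ≡ 1 mod W`, `sg y m ≤ εg`, `gcd(m, D) = 1`, `f m = γ h' i`, and `hZ`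
gives `x h' i`; put `z h' i = (x h' i)^k`, so `z ≡ m mod Q`, `|z - m| ≤ η m`, `sg y z = sg y x ≤ εg`
(`sg_pow`), `gcd(z, D) = 1`, `f z = k • f x = 0` (`cadd_pow`, `hkG`).

Define `Pi = ∏_{h'} ∏_i m h' i` and `c h = ∏_{h'} ∏_i (if h' = h then m h' i else z h' i)`.

* `Pi ≤ N ^ (k |H|) ≤ N ^ (k²)` (`1 ≤ Λ ≤ N`; `|H| ≤ Nat.card G ≤ k`); `Pi ≡ 1 mod W`.
* `c h` is coprime to `D`, positive; `f (c h) = ∑_i γ h i + 0 = h` (`cadd_prod`).
* `c h ≡ Pi mod Q` factor by factor.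
* Each factor of `c h` is between `(1-η)` and `(1+η)` times the corresponding factor of `Pi`, so
  `(1-η)^n Pi ≤ c h ≤ (1+η)^n Pi` with `n = k |H| ≤ k²`, `(1-η)^n ≥ 1 - n η` (Bernoulli),
  `(1+η)^n ≤ exp(n η) ≤ 1 + 2 n η` as `n η ≤ 1/4`. (Here `η ≤ 1` as `k² η ≤ 1/4`.)
* `sg y (c h) ≤ k |H| εg ≤ k² εg` (`sg_prod_le` twice).
-/

open Finset

namespace Pool.Agent.Lib.MP_fed790_nt.QP

theorem a7_prod_bounds {ι : Type*} (s : Finset ι) (a b : ι → ℝ) {η : ℝ}
    (hη1 : η ≤ 1) (hb : ∀ i ∈ s, 0 < b i) (hab : ∀ i ∈ s, |a i - b i| ≤ η * b i) :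
    (1 - η) ^ s.card * ∏ i ∈ s, b i ≤ ∏ i ∈ s, a i ∧
    ∏ i ∈ s, a i ≤ (1 + η) ^ s.card * ∏ i ∈ s, b i := by
  have h1 : (1 - η) ^ s.card * ∏ i ∈ s, b i = ∏ i ∈ s, ((1 - η) * b i) := by
    rw [Finset.prod_mul_distrib, Finset.prod_const]
  have h2 : (1 + η) ^ s.card * ∏ i ∈ s, b i = ∏ i ∈ s, ((1 + η) * b i) := by
    rw [Finset.prod_mul_distrib, Finset.prod_const]
  rw [h1, h2]
  constructor
  · apply Finset.prod_le_prod
    · intro i hi
      exact mul_nonneg (by linarith) (hb i hi).le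
    · intro i hi
      have := (abs_le.1 (hab i hi)).1
      linarith
  · apply Finset.prod_le_prod
    · intro i hi
      have h3 := (abs_le.1 (hab i hi)).1
      have h4 := hb i hi
      have h5 : η * b i ≤ 1 * b i := mul_le_mul_of_nonneg_right hη1 h4.le
      linarith
    · intro i hi
      have := (abs_le.1 (hab i hi)).2
      linarith

theorem a7_prod_close {ι : Type*} (s : Finset ι) (a b : ι → ℝ) {η K : ℝ} (hη : 0 ≤ η)
    (hK : (s.card : ℝ) ≤ K) (hKη : K * η ≤ 1 / 4) (hη1 : η ≤ 1) (hb : ∀ i ∈ s, 0 < b i)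
    (hab : ∀ i ∈ s, |a i - b i| ≤ η * b i) :
    |∏ i ∈ s, a i - ∏ i ∈ s, b i| ≤ 2 * K * η * ∏ i ∈ s, b i := by
  obtain ⟨h1, h2⟩ := a7_prod_bounds s a b hη1 hb hab
  have hB : 0 < ∏ i ∈ s, b i := Finset.prod_pos hb
  set n := s.card with hn
  set B := ∏ i ∈ s, b i with hBdef
  have hnη : (n : ℝ) * η ≤ K * η := mul_le_mul_of_nonneg_right hK hη
  have hnη0 : 0 ≤ (n : ℝ) * η := by positivity
  have h3 : 1 - (n : ℝ) * η ≤ (1 - η) ^ n := by
    have := one_add_mul_le_pow (a := -η) (by linarith) n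
    have h' : (1 : ℝ) + n * -η = 1 - n * η := by ring
    have h'' : (1 : ℝ) + -η = 1 - η := by ring
    rw [h', h''] at this
    exact this
  have h4 : (1 + η) ^ n ≤ 1 + 2 * ((n : ℝ) * η) := by
    have h5 : (1 + η) ^ n ≤ Real.exp ((n : ℝ) * η) := by
      rw [Real.exp_nat_mul]
      apply pow_le_pow_left₀ (by linarith)
      have := Real.add_one_le_exp η
      linarith
    have h6 : Real.exp ((n : ℝ) * η) ≤ 1 + 2 * ((n : ℝ) * η) := by
      have h7 : |(n : ℝ) * η| ≤ 1 := by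
        rw [abs_of_nonneg hnη0]
        linarith
      have h8 := Real.abs_exp_sub_one_sub_id_le h7
      have h9 := (abs_le.1 h8).2
      have h10 : ((n : ℝ) * η) ^ 2 ≤ (n : ℝ) * η := by
        rw [sq]
        calc (n : ℝ) * η * (n * η) ≤ (n : ℝ) * η * 1 := by
              apply mul_le_mul_of_nonneg_left _ hnη0
              linarith
          _ = (n : ℝ) * η := mul_one _
      linarith
    exact h5.trans h6
  have h11 : (1 - (n : ℝ) * η) * B ≤ ∏ i ∈ s, a i :=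
    (mul_le_mul_of_nonneg_right h3 hB.le).trans h1
  have h12 : ∏ i ∈ s, a i ≤ (1 + 2 * ((n : ℝ) * η)) * B :=
    h2.trans (mul_le_mul_of_nonneg_right h4 hB.le)
  have h13 : (n : ℝ) * η * B ≤ K * η * B := mul_le_mul_of_nonneg_right hnη hB.le
  have h14 : 0 ≤ (n : ℝ) * η * B := by positivity
  rw [abs_le]
  constructor
  · nlinarith
  · nlinarith

theorem slots {G : Type*} [AddCommGroup G] [Finite G] {f : ℕ → G} (hf : CAdd f)
    {k y W Q Λ L N D : ℕ} {η εg ε8 : ℝ} (hk : 1 ≤ k) (hG : Nat.card G ≤ k)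
    (hkG : ∀ g : G, k • g = 0) (hΛ : 1 ≤ Λ) (hWQ : W ∣ Q) (hη : 0 ≤ η)
    (hη1 : (k : ℝ) ^ 2 * η ≤ 1 / 4) (hεg : 0 ≤ εg)
    (h0 : Avail f y W Λ L εg ε8 N 0)
    (hZ : ∀ m : ℕ, Λ ≤ m → m ≤ N → m ≡ 1 [MOD W] →
      ∃ x : ℕ, 0 < x ∧ x ^ k ≡ m [MOD Q] ∧ |(x : ℝ) ^ k - m| ≤ η * m ∧ sg y x ≤ εg ∧
        x.Coprime D)
    (hD : 0 < D) (hDL : D < 2 ^ L) (hsD : sg y D ≤ ε8)
    (H : AddSubgroup G) (hH : H = AddSubgroup.closure {γ | Avail f y W Λ L εg ε8 N γ}) :
    ∃ (c : H → ℕ) (Pi : ℕ), 0 < Pi ∧ Pi ≤ N ^ (k ^ 2) ∧ Pi ≡ 1 [MOD W] ∧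
      ∀ h : H, 0 < c h ∧ (c h).Coprime D ∧ f (c h) = h ∧ c h ≡ Pi [MOD Q] ∧
        |(c h : ℝ) - Pi| ≤ 2 * k ^ 2 * η * Pi ∧ sg y (c h) ≤ k ^ 2 * εg := by
  classical
  have : Fintype H := Fintype.ofFinite H
  have hN : 1 ≤ N := by
    obtain ⟨m, hm1, hm2, _⟩ := h0 D hD hDL hsD
    omega
  have hsum : ∀ h : H, ∃ γ : Fin k → G, (∀ i, γ i ∈ {γ | Avail f y W Λ L εg ε8 N γ}) ∧
      ∑ i, γ i = (h : G) := by
    intro h
    apply sum_k k hk hG _ h0 h
    rw [← hH]
    exact h.2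
  choose γ hγ1 hγ2 using hsum
  have hmx : ∀ p : H × Fin k, ∃ m x : ℕ, Λ ≤ m ∧ m ≤ N ∧ m ≡ 1 [MOD W] ∧ sg y m ≤ εg ∧
      m.Coprime D ∧ f m = γ p.1 p.2 ∧ 0 < x ∧ x ^ k ≡ m [MOD Q] ∧ |(x : ℝ) ^ k - m| ≤ η * m ∧
      sg y x ≤ εg ∧ x.Coprime D := by
    intro p
    obtain ⟨m, hm1, hm2, hm3, hm4, hm5, hm6⟩ := hγ1 p.1 p.2 D hD hDL hsD
    obtain ⟨x, hx1, hx2, hx3, hx4, hx5⟩ := hZ m hm1 hm2 hm3
    exact ⟨m, x, hm1, hm2, hm3, hm4, hm5, hm6, hx1, hx2, hx3, hx4, hx5⟩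
  choose m x hm1 hm2 hm3 hm4 hm5 hm6 hx1 hx2 hx3 hx4 hx5 using hmx
  have hm0 : ∀ p, 0 < m p := fun p => lt_of_lt_of_le (by omega) (hm1 p)
  -- the cardinality
  have hcard : Fintype.card (H × Fin k) ≤ k ^ 2 := by
    rw [Fintype.card_prod, Fintype.card_fin, sq]
    apply Nat.mul_le_mul_right
    have h1 : Fintype.card H = Nat.card H := Nat.card_eq_fintype_card.symm
    have h2 : Nat.card H ≤ Nat.card G := Nat.card_le_card_of_injective (Subtype.val : H → G) Subtype.val_injective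
    omega
  have hcardR : ((univ : Finset (H × Fin k)).card : ℝ) ≤ (k : ℝ) ^ 2 := by
    rw [Finset.card_univ]
    exact_mod_cast hcard
  have hη2 : η ≤ 1 := by
    have hk1 : (1 : ℝ) ≤ (k : ℝ) ^ 2 := by
      have : (1 : ℝ) ≤ k := by exact_mod_cast hk
      exact one_le_pow₀ this
    have h3 : 1 * η ≤ (k : ℝ) ^ 2 * η := mul_le_mul_of_nonneg_right hk1 hη
    linarith
  -- the factors
  let w : H → H × Fin k → ℕ := fun h p => if p.1 = h then m p else x p ^ k
  have hw0 : ∀ h p, 0 < w h p := by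
    intro h p
    simp only [w]
    split_ifs
    · exact hm0 p
    · exact pow_pos (hx1 p) k
  refine ⟨fun h => ∏ p, w h p, ∏ p, m p, ?_, ?_, ?_, ?_⟩
  · exact Finset.prod_pos fun p _ => hm0 p
  · calc ∏ p, m p ≤ ∏ _p : H × Fin k, N := Finset.prod_le_prod (fun _ _ => Nat.zero_le _) fun p _ => hm2 p
      _ = N ^ Fintype.card (H × Fin k) := by rw [Finset.prod_const, Finset.card_univ]
      _ ≤ N ^ (k ^ 2) := Nat.pow_le_pow_right hN hcard
  · have : ∀ s : Finset (H × Fin k), ∏ p ∈ s, m p ≡ 1 [MOD W] := by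
      intro s
      induction s using Finset.induction_on with
      | empty => exact Nat.ModEq.refl _
      | insert p s hp ih =>
        rw [Finset.prod_insert hp]
        exact (hm3 p).mul ih
    exact this univ
  · intro h
    refine ⟨Finset.prod_pos fun p _ => hw0 h p, ?_, ?_, ?_, ?_, ?_⟩
    · apply Nat.Coprime.prod_left
      intro p _
      simp only [w]
      split_ifs
      · exact hm5 p
      · exact Nat.Coprime.pow_left k (hx5 p)
    · show f (∏ p, w h p) = h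
      rw [cadd_prod hf univ (w h) fun p _ => hw0 h p]
      have h1 : ∀ p : H × Fin k, f (w h p) = if p.1 = h then γ p.1 p.2 else 0 := by
        intro p
        simp only [w]
        split_ifs
        · exact hm6 p
        · rw [cadd_pow hf _ _ (hx1 p), hkG]
      rw [Finset.sum_congr rfl fun p _ => h1 p, Fintype.sum_prod_type]
      have h2 : ∀ a : H, ∑ i : Fin k, (if (a, i).1 = h then γ (a, i).1 (a, i).2 else 0) =
          if a = h then (h : G) else 0 := by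
        intro a
        by_cases ha : a = h
        · subst ha
          simp [hγ2]
        · simp [ha]
      rw [Finset.sum_congr rfl fun a _ => h2 a]
      simp
    · have : ∀ s : Finset (H × Fin k), ∏ p ∈ s, w h p ≡ ∏ p ∈ s, m p [MOD Q] := by
        intro s
        induction s using Finset.induction_on with
        | empty => exact Nat.ModEq.refl _
        | insert p s hp ih =>
          rw [Finset.prod_insert hp, Finset.prod_insert hp]
          apply Nat.ModEq.mul _ ih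
          simp only [w]
          split_ifs
          · exact Nat.ModEq.refl _
          · exact hx2 p
      exact this univ
    · have h1 := a7_prod_close (univ : Finset (H × Fin k)) (fun p => (w h p : ℝ))
        (fun p => (m p : ℝ)) hη hcardR hη1 hη2 (fun p _ => by exact_mod_cast hm0 p) (by
          intro p _
          simp only [w]
          split_ifs
          · rw [sub_self, abs_zero]
            positivity
          · rw [Nat.cast_pow]
            exact hx3 p)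
      push_cast
      exact h1
    · show sg y (∏ p, w h p) ≤ k ^ 2 * εg
      calc sg y (∏ p, w h p) ≤ ∑ p, sg y (w h p) := sg_prod_le y univ _ fun p _ => hw0 h p
        _ ≤ ∑ _p : H × Fin k, εg := by
            apply Finset.sum_le_sum
            intro p _
            simp only [w]
            split_ifs
            · exact hm4 p
            · rw [sg_pow y (x p) k (by omega)]
              exact hx4 p
        _ = ((univ : Finset (H × Fin k)).card : ℝ) * εg := by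
            rw [Finset.sum_const, nsmul_eq_mul]
        _ ≤ k ^ 2 * εg := mul_le_mul_of_nonneg_right hcardR hεg

end Pool.Agent.Lib.MP_fed790_nt.QP
end

section

/-!
# QP A8: the choice of `Y`

Let `A` be the first number `≥ B` with `A * Pi ≡ a0 mod Q` (`Pi` is invertible mod `Q`), so
`B ≤ A < B + Q`, and `Y = A + Q ν`, `ν < Z`; then `B ≤ Y ≤ B + Q (Z+1)`. `gcd(A, Q) = 1` since
`gcd(a0, Q) = 1`; `A ≡ 1 mod W` (as `W ∣ Q`, `Pi ≡ a0 ≡ 1 mod W`); `A > 0`. Count the bad `ν < Z`: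

1. `εg < sg y Y`: at most `(Z/y + L)/εg` (`card_sg_gt_le` with `B := Q`).
2. `¬ Coprime Y D`: at most `Z ε8 + L` (`card_not_cop_le`).
3. `f Y ∉ H`: at most `ρ Z + c1` (`hrare` with `A`, `Q`, `Z`; `A + Q Z ≤ N`).
4. for each `h` and `e ∈ E`: `ε10 < sg y |Y c_h - e|`: `Y c_h - e = (A c_h - e) + (Q c_h) ν` in `ℤ`.
   If a prime `q > y` divides `Q c_h`, then `q ∤ Q` (primes dividing `Q` are `≤ y`), so `q ∣ c_h`,
   and then `q ∤ e` (coprime), so `q ∤ A c_h - e`. `Y c_h ≠ e` since `Y c_h ≡ Y Pi ≡ a0 mod Q` and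
   `e ≢ a0 mod Q`. `|Y c_h - e| < 2^L`. By `sum_sg_le` and Markov at most `(Z/y + L)/ε10` values.
5. for each `h` and `p ∈ F`: there is a prime `q > y` with `q ∣ p.2`, `q ∣ Y c_h - p.1`: at most
   `Z sg y |p.2| + L ≤ Z ε10 + L` by `card_gcd_le` (with `D := |p.2|`; same remark on `q ∣ Q c_h`).

By `hnum` the sum is `< Z`, so some `ν < Z` is good.
-/

open Finset

namespace Pool.Agent.Lib.MP_fed790_nt.QP

private theorem A8_exists_A (Pi a0 Q B : ℕ) (hQ : 0 < Q) (hPi : Pi.Coprime Q) :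
    ∃ A : ℕ, B ≤ A ∧ A < B + Q ∧ A * Pi ≡ a0 [MOD Q] := by
  have : NeZero Q := ⟨hQ.ne'⟩
  set t : ZMod Q := (a0 : ZMod Q) * ((Pi : ZMod Q))⁻¹ with ht
  refine ⟨B + (t - (B : ZMod Q)).val, Nat.le_add_right _ _, ?_, ?_⟩
  · have := ZMod.val_lt (t - (B : ZMod Q))
    omega
  · rw [← ZMod.natCast_eq_natCast_iff]
    push_cast
    rw [ZMod.natCast_zmod_val, add_sub_cancel, ht, mul_assoc, mul_comm ((Pi : ZMod Q))⁻¹,
      ZMod.coe_mul_inv_eq_one Pi hPi, mul_one]

theorem stepY {G : Type*} [AddCommGroup G] {f : ℕ → G} {H : AddSubgroup G} {η : Type*} [Fintype η]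
    (c : η → ℕ) (Pi a0 y W Q D L Z N B : ℕ) (εg ε8 ε10 ρ c1 : ℝ) (E : Finset ℕ)
    (F : Finset (ℕ × ℤ)) (hrare : RareAP f H W ρ c1 N) (hy : 1 ≤ y)
    (hQy : ∀ ℓ : ℕ, ℓ.Prime → (ℓ ∣ Q ↔ ℓ ≤ y)) (hQ : 0 < Q) (hWQ : W ∣ Q) (hεg : 0 < εg)
    (hε10 : 0 < ε10) (hPi : Pi.Coprime Q) (hPiW : Pi ≡ 1 [MOD W]) (ha0 : a0.Coprime Q)
    (ha0W : a0 ≡ 1 [MOD W]) (hc : ∀ h, 0 < c h ∧ c h ≡ Pi [MOD Q]) (hB : 0 < B)
    (hE : ∀ e ∈ E, ∀ h, e.Coprime (c h)) (hE0 : ∀ e ∈ E, ¬ e ≡ a0 [MOD Q])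
    (hE1 : ∀ e ∈ E, e < 2 ^ L) (hcL : ∀ h, (B + Q * (Z + 1)) * c h < 2 ^ L)
    (hBL : B + Q * (Z + 1) < 2 ^ L)
    (hF : ∀ p ∈ F, p.1 ∈ E ∧ p.2 ≠ 0 ∧ p.2.natAbs < 2 ^ L ∧ sg y p.2.natAbs ≤ ε10)
    (hBN : B + Q * (Z + 1) ≤ N) (hD : 0 < D) (hDL : D < 2 ^ L) (hsD : sg y D ≤ ε8)
    (hnum : ((Z : ℝ) / y + L) / εg + (Z * ε8 + L) + (ρ * Z + c1) +
      Fintype.card η * (E.card : ℝ) * (((Z : ℝ) / y + L) / ε10) +
      Fintype.card η * (F.card : ℝ) * (Z * ε10 + L) < Z) :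
    ∃ Y : ℕ, B ≤ Y ∧ Y ≤ B + Q * (Z + 1) ∧ Y * Pi ≡ a0 [MOD Q] ∧ f Y ∈ H ∧ sg y Y ≤ εg ∧
      Y.Coprime D ∧ (∀ h, ∀ e ∈ E, sg y ((Y * c h : ℤ) - e).natAbs ≤ ε10) ∧
      (∀ h, ∀ p ∈ F, ∀ q : ℕ, q.Prime → y < q → (q : ℤ) ∣ p.2 →
        ¬ (q : ℤ) ∣ (Y * c h : ℤ) - p.1) := by
  classical
  obtain ⟨A, hBA, hAB, hAPi⟩ := A8_exists_A Pi a0 Q B hQ hPi
  have hA : 0 < A := lt_of_lt_of_le hB hBA
  have hAcop : A.Coprime Q := by
    have h1 : (A * Pi).Coprime Q := by
      unfold Nat.Coprime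
      rw [hAPi.gcd_eq]
      exact ha0
    exact Nat.Coprime.coprime_dvd_left (dvd_mul_right A Pi) h1
  have hA1 : A ≡ 1 [MOD W] := by
    have h1 : A * Pi ≡ a0 [MOD W] := hAPi.of_dvd hWQ
    have h2 : A * Pi ≡ A * 1 [MOD W] := hPiW.mul_left A
    rw [mul_one] at h2
    exact (h2.symm.trans h1).trans ha0W
  have hYle : ∀ ν < Z, A + Q * ν ≤ B + Q * (Z + 1) := by
    intro ν hν
    have h1 : Q * ν ≤ Q * Z := Nat.mul_le_mul_left _ hν.le
    have h2 : Q * (Z + 1) = Q * Z + Q := by ring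
    omega
  have hYPi : ∀ ν : ℕ, (A + Q * ν) * Pi ≡ a0 [MOD Q] := by
    intro ν
    have h1 : (A + Q * ν) * Pi ≡ A * Pi [MOD Q] := by
      apply Nat.ModEq.mul_right
      have : A + Q * ν ≡ A + 0 [MOD Q] := Nat.ModEq.add_left A
        ((Nat.modEq_zero_iff_dvd).2 (dvd_mul_right Q ν))
      exact this
    exact h1.trans hAPi
  have hYc : ∀ (ν : ℕ) (h : η), (A + Q * ν) * c h ≡ a0 [MOD Q] := fun ν h =>
    ((hc h).2.mul_left _).trans (hYPi ν)
  have hyB : ∀ ℓ : ℕ, ℓ.Prime → ℓ ≤ y → ℓ ∣ Q := fun ℓ hl hle => (hQy ℓ hl).2 hle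
  have hAQZ : A + Q * Z < 2 ^ L := by
    have h2 : Q * (Z + 1) = Q * Z + Q := by ring
    omega
  -- 1
  have c1' := card_sg_gt_le y A Q Z L εg hεg hy hA hAcop hAQZ
  -- 2
  have c2' := card_not_cop_le y A Q Z D L hAcop hyB hD hDL
  -- 3
  have c3' := hrare A Q Z hQ hAcop hWQ hA1 (by
    have h2 : Q * (Z + 1) = Q * Z + Q := by ring
    omega)
  -- divisibility of the moduli
  have hdiv : ∀ (h : η) (e : ℕ), e ∈ E → ∀ q : ℕ, q.Prime → y < q →
      (q : ℤ) ∣ ((Q * c h : ℕ) : ℤ) → ¬ (q : ℤ) ∣ ((A * c h : ℕ) : ℤ) - (e : ℤ) := by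
    intro h e he q hq hyq hd hd2
    rw [Int.natCast_dvd_natCast] at hd
    have h1 : ¬ q ∣ Q := fun hcon => absurd ((hQy q hq).1 hcon) (by omega)
    have h2 : q ∣ c h := (hq.dvd_mul.1 hd).resolve_left h1
    have h3 : (q : ℤ) ∣ (e : ℤ) := by
      have h4 : (q : ℤ) ∣ ((A * c h : ℕ) : ℤ) := by
        rw [Int.natCast_dvd_natCast]
        exact h2.mul_left A
      have h5 := dvd_sub h4 hd2
      rwa [sub_sub_cancel] at h5
    rw [Int.natCast_dvd_natCast] at h3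
    exact Nat.not_coprime_of_dvd_of_dvd hq.one_lt h3 h2 (hE e he h)
  have hcast : ∀ (h : η) (e : ℤ) (ν : ℕ), ((A * c h : ℕ) : ℤ) - e + ((Q * c h : ℕ) : ℤ) * (ν : ℤ) =
      (((A + Q * ν : ℕ) : ℤ) * (c h : ℤ)) - e := by
    intro h e ν
    push_cast
    ring
  -- 4
  have c4' : ∀ (h : η) (e : ℕ), e ∈ E →
      (((range Z).filter (fun ν : ℕ =>
        ε10 < sg y ((((A + Q * ν : ℕ) : ℤ) * (c h : ℤ)) - e).natAbs)).card : ℝ) ≤
        ((Z : ℝ) / y + L) / ε10 := by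
    intro h e he
    rw [le_div_iff₀ hε10]
    have h1 := sum_sg_le y L hy (((A * c h : ℕ) : ℤ) - (e : ℤ)) ((Q * c h : ℕ) : ℤ) Z
      (hdiv h e he)
      (by
        intro ν _
        rw [hcast]
        intro h0
        have h2 : (A + Q * ν) * c h = e := by
          have h3 : (((A + Q * ν) * c h : ℕ) : ℤ) = (e : ℤ) := by
            push_cast
            push_cast at h0
            linarith
          exact_mod_cast h3
        apply hE0 e he
        rw [← h2]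
        exact hYc ν h)
      (by
        intro ν hν
        rw [hcast]
        have h2 : (A + Q * ν) * c h < 2 ^ L :=
          lt_of_le_of_lt (Nat.mul_le_mul_right _ (hYle ν hν)) (hcL h)
        have h3 := hE1 e he
        have h4 : ((A + Q * ν : ℕ) : ℤ) * (c h : ℤ) = (((A + Q * ν) * c h : ℕ) : ℤ) := by
          push_cast; ring
        rw [h4]
        omega)
    simp only [hcast] at h1
    refine le_trans ?_ h1
    have h2 : ∑ ν ∈ (range Z).filter (fun ν : ℕ =>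
        ε10 < sg y ((((A + Q * ν : ℕ) : ℤ) * (c h : ℤ)) - e).natAbs),
          sg y ((((A + Q * ν : ℕ) : ℤ) * (c h : ℤ)) - e).natAbs ≤
        ∑ ν ∈ range Z, sg y ((((A + Q * ν : ℕ) : ℤ) * (c h : ℤ)) - e).natAbs := by
      apply Finset.sum_le_sum_of_subset_of_nonneg (filter_subset _ _)
      intro i _ _
      unfold sg
      positivity
    refine le_trans ?_ h2
    rw [← nsmul_eq_mul]
    apply Finset.card_nsmul_le_sum
    intro ν hν
    exact (mem_filter.1 hν).2.le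
  -- 5
  have c5' : ∀ (h : η) (p : ℕ × ℤ), p ∈ F →
      (((range Z).filter (fun ν : ℕ => ∃ q : ℕ, q.Prime ∧ y < q ∧ q ∣ p.2.natAbs ∧
        (q : ℤ) ∣ ((A * c h : ℕ) : ℤ) - (p.1 : ℤ) + ((Q * c h : ℕ) : ℤ) * ν)).card : ℝ) ≤
        Z * ε10 + L := by
    intro h p hp
    obtain ⟨hp1, hp2, hp3, hp4⟩ := hF p hp
    have h1 := card_gcd_le y (((A * c h : ℕ) : ℤ) - (p.1 : ℤ)) ((Q * c h : ℕ) : ℤ) Z p.2.natAbs L
      (Int.natAbs_pos.2 hp2) hp3 (hdiv h p.1 hp1)
    refine le_trans h1 ?_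
    have : (Z : ℝ) * sg y p.2.natAbs ≤ Z * ε10 := mul_le_mul_of_nonneg_left hp4 (Nat.cast_nonneg _)
    linarith
  -- the choice
  by_contra hcon
  push Not at hcon
  set S1 := (range Z).filter (fun ν : ℕ => εg < sg y (A + Q * ν)) with hS1
  set S2 := (range Z).filter (fun ν : ℕ => ¬ (A + Q * ν).Coprime D) with hS2
  set S3 := (range Z).filter (fun ν : ℕ => f (A + Q * ν) ∉ H) with hS3
  set S4 : η → ℕ → Finset ℕ := fun h e => (range Z).filter (fun ν : ℕ =>
        ε10 < sg y ((((A + Q * ν : ℕ) : ℤ) * (c h : ℤ)) - e).natAbs) with hS4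
  set S5 : η → (ℕ × ℤ) → Finset ℕ := fun h p => (range Z).filter (fun ν : ℕ => ∃ q : ℕ, q.Prime ∧
        y < q ∧ q ∣ p.2.natAbs ∧
        (q : ℤ) ∣ ((A * c h : ℕ) : ℤ) - (p.1 : ℤ) + ((Q * c h : ℕ) : ℤ) * ν) with hS5
  have hsub : range Z ⊆ (((S1 ∪ S2) ∪ S3) ∪
      (univ : Finset η).biUnion (fun h => E.biUnion (fun e => S4 h e))) ∪
      (univ : Finset η).biUnion (fun h => F.biUnion (fun p => S5 h p)) := by
    intro ν hν
    by_contra hno
    simp only [mem_union, not_or, mem_biUnion, not_exists, not_and] at hno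
    obtain ⟨⟨⟨⟨n1, n2⟩, n3⟩, n4⟩, n5⟩ := hno
    have hνZ := mem_range.1 hν
    have g1 : sg y (A + Q * ν) ≤ εg := by
      by_contra hc1
      exact n1 (by rw [hS1, mem_filter]; exact ⟨hν, not_le.1 hc1⟩)
    have g2 : (A + Q * ν).Coprime D := by
      by_contra hc1
      exact n2 (by rw [hS2, mem_filter]; exact ⟨hν, hc1⟩)
    have g3 : f (A + Q * ν) ∈ H := by
      by_contra hc1
      exact n3 (by rw [hS3, mem_filter]; exact ⟨hν, hc1⟩)
    have g4 : ∀ h, ∀ e ∈ E, sg y ((((A + Q * ν : ℕ) : ℤ) * (c h : ℤ)) - e).natAbs ≤ ε10 := by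
      intro h e he
      by_contra hc1
      exact n4 h (mem_univ _) e he (by rw [hS4, mem_filter]; exact ⟨hν, not_le.1 hc1⟩)
    obtain ⟨h, p, hp, q, hq, hyq, hqp, hqd⟩ := hcon (A + Q * ν) (le_trans hBA (Nat.le_add_right _ _))
      (hYle ν hνZ) (hYPi ν) g3 g1 g2 g4
    refine n5 h (mem_univ _) p hp ?_
    rw [hS5, mem_filter]
    refine ⟨hν, q, hq, hyq, Int.natCast_dvd.1 hqp, ?_⟩
    rw [hcast]
    exact hqd
  have hcard := (Finset.card_le_card hsub).trans (Finset.card_union_le _ _)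
  rw [card_range] at hcard
  have u4 := Finset.card_union_le ((S1 ∪ S2) ∪ S3)
    ((univ : Finset η).biUnion (fun h => E.biUnion (fun e => S4 h e)))
  have u3 := Finset.card_union_le (S1 ∪ S2) S3
  have u2 := Finset.card_union_le S1 S2
  have b4 : (((univ : Finset η).biUnion (fun h => E.biUnion (fun e => S4 h e))).card : ℝ) ≤
      Fintype.card η * (E.card : ℝ) * (((Z : ℝ) / y + L) / ε10) := by
    have t1 : ((univ : Finset η).biUnion (fun h => E.biUnion (fun e => S4 h e))).card ≤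
        ∑ h : η, ∑ e ∈ E, (S4 h e).card :=
      Finset.card_biUnion_le.trans (Finset.sum_le_sum fun h _ => Finset.card_biUnion_le)
    have t2 : ((∑ h : η, ∑ e ∈ E, (S4 h e).card : ℕ) : ℝ) ≤
        ∑ h : η, ∑ e ∈ E, ((Z : ℝ) / y + L) / ε10 := by
      push_cast
      exact Finset.sum_le_sum fun h _ => Finset.sum_le_sum fun e he => c4' h e he
    have t3 : ∑ h : η, ∑ e ∈ E, ((Z : ℝ) / y + L) / ε10 =
        Fintype.card η * (E.card : ℝ) * (((Z : ℝ) / y + L) / ε10) := by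
      simp only [sum_const, nsmul_eq_mul, card_univ]
      ring
    rw [← t3]
    exact le_trans (by exact_mod_cast t1) t2
  have b5 : (((univ : Finset η).biUnion (fun h => F.biUnion (fun p => S5 h p))).card : ℝ) ≤
      Fintype.card η * (F.card : ℝ) * (Z * ε10 + L) := by
    have t1 : ((univ : Finset η).biUnion (fun h => F.biUnion (fun p => S5 h p))).card ≤
        ∑ h : η, ∑ p ∈ F, (S5 h p).card :=
      Finset.card_biUnion_le.trans (Finset.sum_le_sum fun h _ => Finset.card_biUnion_le)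
    have t2 : ((∑ h : η, ∑ p ∈ F, (S5 h p).card : ℕ) : ℝ) ≤
        ∑ h : η, ∑ p ∈ F, ((Z : ℝ) * ε10 + L) := by
      push_cast
      exact Finset.sum_le_sum fun h _ => Finset.sum_le_sum fun p hp => c5' h p hp
    have t3 : ∑ h : η, ∑ p ∈ F, ((Z : ℝ) * ε10 + L) =
        Fintype.card η * (F.card : ℝ) * (Z * ε10 + L) := by
      simp only [sum_const, nsmul_eq_mul, card_univ]
      ring
    rw [← t3]
    exact le_trans (by exact_mod_cast t1) t2
  have k1 : (S1.card : ℝ) ≤ ((Z : ℝ) / y + L) / εg := c1'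
  have k2 : (S2.card : ℝ) ≤ Z * ε8 + L := by
    have : (Z : ℝ) * sg y D ≤ Z * ε8 := mul_le_mul_of_nonneg_left hsD (Nat.cast_nonneg _)
    exact le_trans c2' (by linarith)
  have k3 : (S3.card : ℝ) ≤ ρ * Z + c1 := by
    convert c3'
  have hfin : (Z : ℝ) ≤ (S1.card : ℝ) + S2.card + S3.card +
      (((univ : Finset η).biUnion (fun h => E.biUnion (fun e => S4 h e))).card : ℝ) +
      (((univ : Finset η).biUnion (fun h => F.biUnion (fun p => S5 h p))).card : ℝ) := by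
    have := hcard.trans (Nat.add_le_add_right (u4.trans (Nat.add_le_add_right
      (u3.trans (Nat.add_le_add_right u2 _)) _)) _)
    exact_mod_cast this
  linarith

end Pool.Agent.Lib.MP_fed790_nt.QP
end

section

/-!
# QP C5: expectations of functions of a single edge

`Ω = ∑_{x ∈ bx} 1 = X^(S t)`.

**`mass`.** `sum_out_real` with `Φ = 1`, `U = ∅`, `Q = Pr`.

**`edge_exp`.** Let `p = (u,v) ∈ Pr` and `Φ : ℕ → ℝ`. By `sum_out_real` (with `U = {u, v}`,
`Q = Pr.erase p`, the function `x ↦ Φ(|e_p(x)|) ww_p(x)`; every `p' ≠ p` in `Pr` has an end point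
outside `{u,v}`: otherwise `p' = (u,v)` or `p' = (v,u)`, but the levels are increasing)
`∑_x Φ(|e_p x|) ∏_{p' ∈ Pr} ww_{p'}(x) = ∑_x Φ(|e_p x|) ww_p(x)`. By `sum_update_real` with `z = v`
(`x u` is not changed as `u ≠ v`) this is
`X⁻¹ ∑_x ∑_{s ∈ Ico (lo v) (lo v + X)} Φ(|e(s - x_u)|) ww`, and
`ww = q⁻¹ ∑_h [T ∣ s - x_u - κ] T`. Substituting `y = s - x_u`, `A0 = lo v - x_u`, the hypothesis
`hB` bounds the sum over `s` for each `h` by `B`. So the total is at most `#bx * (B/X)`.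
-/

open Finset

namespace Pool.Agent.Lib.MP_fed790_nt.QP

variable {G : Type*} [AddCommGroup G] {f : ℕ → G} {H : AddSubgroup G} [Fintype H]
  {k y W S t L N' T0 X : ℕ} {δ δ0 εT ε10 ρ c1 : ℝ} {T : Ve S t × Ve S t → H → ℕ}

private theorem c5_T_pos (h : HypIII f H k y W S t L N' T0 X δ δ0 εT ε10 ρ c1 T)
    {p : Ve S t × Ve S t} (hp : p ∈ Pr S t) (g : H) : 0 < T p g :=
  lt_of_lt_of_le h.hT0 (h.T_ge hp g)

/-- The sum over the last coordinate. -/
private theorem c5_inner {η : Type*} [Fintype η] [Nonempty η] (W S t X : ℕ)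
    (T : Ve S t × Ve S t → η → ℕ) {p : Ve S t × Ve S t} (hp : p ∈ Pr S t) (Φ : ℕ → ℝ) (B : ℝ)
    (x : Ve S t → ℤ) (lo : ℤ)
    (hB : ∀ g : η,
      ∑ y' ∈ Ico (lo - x p.1) (lo - x p.1 + X),
        (if (T p g : ℤ) ∣ y' - kk W p.1.1 p.2.1 (T p g) then
          T p g * Φ (1 - (W : ℤ) ^ ((p.2.1 : ℕ) - p.1.1) + (W : ℤ) ^ ((p.2.1 : ℕ) + 1) * y').natAbs
          else 0) ≤ B) :
    ∑ s ∈ Ico lo (lo + X), Φ (ee W p (Function.update x p.2 s)).natAbs *
      ww T (kB W T) p (Function.update x p.2 s) ≤ B := by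
  classical
  have hne : p.1 ≠ p.2 := pair_ne hp
  have hc : (0 : ℝ) < Fintype.card η := by exact_mod_cast Fintype.card_pos
  have e1 : ∑ s ∈ Ico lo (lo + X), Φ (ee W p (Function.update x p.2 s)).natAbs *
      ww T (kB W T) p (Function.update x p.2 s) =
      (∑ g : η, ∑ y' ∈ Ico (lo - x p.1) (lo - x p.1 + X),
        (if (T p g : ℤ) ∣ y' - kk W p.1.1 p.2.1 (T p g) then
          T p g * Φ (1 - (W : ℤ) ^ ((p.2.1 : ℕ) - p.1.1) + (W : ℤ) ^ ((p.2.1 : ℕ) + 1) * y').natAbs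
          else 0)) / Fintype.card η := by
    rw [Finset.sum_comm, Finset.sum_div]
    refine Finset.sum_bij (fun s _ => s - x p.1) ?_ ?_ ?_ ?_
    · intro s hs
      rw [Finset.mem_Ico] at hs ⊢
      constructor <;> linarith [hs.1, hs.2]
    · intro s _ s' _ hss
      exact sub_left_injective hss
    · intro y' hy'
      rw [Finset.mem_Ico] at hy'
      refine ⟨y' + x p.1, ?_, by ring⟩
      rw [Finset.mem_Ico]
      constructor <;> linarith [hy'.1, hy'.2]
    · intro s _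
      have h1 : ee W p (Function.update x p.2 s) =
          1 - (W : ℤ) ^ ((p.2.1 : ℕ) - p.1.1) + (W : ℤ) ^ ((p.2.1 : ℕ) + 1) * (s - x p.1) := by
        unfold ee
        rw [Function.update_self, Function.update_of_ne hne]
      have h2 : ww T (kB W T) p (Function.update x p.2 s) =
          (∑ g : η, if (T p g : ℤ) ∣ s - x p.1 - kk W p.1.1 p.2.1 (T p g) then (T p g : ℝ) else 0) /
            Fintype.card η := by
        unfold ww kB
        rw [Function.update_self, Function.update_of_ne hne]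
      rw [h1, h2, mul_div_assoc', Finset.mul_sum]
      congr 1
      apply Finset.sum_congr rfl
      intro g _
      split_ifs
      · ring
      · ring
  rw [e1, div_le_iff₀ hc]
  calc _ ≤ ∑ _g : η, B := Finset.sum_le_sum fun g _ => hB g
    _ = B * Fintype.card η := by
      rw [Finset.sum_const, Finset.card_univ, nsmul_eq_mul, mul_comm]

theorem mass (h : HypIII f H k y W S t L N' T0 X δ δ0 εT ε10 ρ c1 T) :
    ∑ x ∈ bx (loB S t X) X, ∏ p ∈ Pr S t, ww T (kB W T) p x = (bx (loB S t X) X).card := by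
  have h1 := sum_out_real T (kB W T) (loB S t X) X (Pr S t) (∅ : Finset (Ve S t))
    (fun p hp g => c5_T_pos h hp g)
    (fun p hp => ⟨pair_ne hp, Or.inl (Finset.notMem_empty _)⟩)
    (fun p hp p' hp' hne g g' => h.hpool.cop p hp p' hp' hne g g')
    h.hX (fun _ => (1 : ℝ)) (fun _ _ _ => rfl)
  simp only [one_mul] at h1
  rw [h1, Finset.sum_const, nsmul_eq_mul, mul_one]

/-- `Q ⊆ Pr` contains `p`. -/
theorem edge_exp (h : HypIII f H k y W S t L N' T0 X δ δ0 εT ε10 ρ c1 T)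
    {p : Ve S t × Ve S t} (hp : p ∈ Pr S t) (Q : Finset (Ve S t × Ve S t)) (hQ : Q ⊆ Pr S t)
    (hpQ : p ∈ Q) (Φ : ℕ → ℝ) (B : ℝ)
    (hB : ∀ g : H, ∀ a ∈ Ico (loB S t X p.1) (loB S t X p.1 + X),
      ∑ y' ∈ Ico (loB S t X p.2 - a) (loB S t X p.2 - a + X),
        (if (T p g : ℤ) ∣ y' - kk W p.1.1 p.2.1 (T p g) then
          T p g * Φ (1 - (W : ℤ) ^ ((p.2.1 : ℕ) - p.1.1) + (W : ℤ) ^ ((p.2.1 : ℕ) + 1) * y').natAbs
          else 0) ≤ B) :
    ∑ x ∈ bx (loB S t X) X, Φ (ee W p x).natAbs * ∏ p' ∈ Q, ww T (kB W T) p' x ≤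
      (bx (loB S t X) X).card * (B / X) := by
  classical
  have hX0 : (0 : ℝ) < X := by exact_mod_cast h.hX0
  -- sum out the other edges
  have hlev : ∀ p' ∈ Pr S t, (p'.1.1 : ℕ) < (p'.2.1 : ℕ) := fun p' hp' =>
    (Finset.mem_filter.1 hp').2
  have e1 : ∑ x ∈ bx (loB S t X) X, Φ (ee W p x).natAbs * ∏ p' ∈ Q, ww T (kB W T) p' x =
      ∑ x ∈ bx (loB S t X) X, Φ (ee W p x).natAbs * ww T (kB W T) p x := by
    have h1 := sum_out_real T (kB W T) (loB S t X) X (Q.erase p) ({p.1, p.2} : Finset (Ve S t))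
      (fun p' hp' g => c5_T_pos h (hQ (Finset.mem_of_mem_erase hp')) g)
      (fun p' hp' => by
        have hp'Q := hQ (Finset.mem_of_mem_erase hp')
        refine ⟨pair_ne hp'Q, ?_⟩
        by_contra hcon
        push Not at hcon
        obtain ⟨ha, hb⟩ := hcon
        rw [Finset.mem_insert, Finset.mem_singleton] at ha hb
        have hl := hlev p hp
        have hl' := hlev p' hp'Q
        rcases ha with ha | ha <;> rcases hb with hb | hb
        · exact pair_ne hp'Q (ha.trans hb.symm)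
        · exact Finset.ne_of_mem_erase hp' (Prod.ext ha hb)
        · rw [ha, hb] at hl'
          omega
        · exact pair_ne hp'Q (ha.trans hb.symm))
      (fun p' hp' p'' hp'' hne g g' => h.hpool.cop p' (hQ (Finset.mem_of_mem_erase hp')) p''
        (hQ (Finset.mem_of_mem_erase hp'')) hne g g')
      ((Finset.prod_dvd_prod_of_subset _ _ _ ((Finset.erase_subset _ _).trans hQ)).trans h.hX)
      (fun x => Φ (ee W p x).natAbs * ww T (kB W T) p x)
      (fun x x' hxx => by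
        have h1 : x p.1 = x' p.1 := hxx _ (by simp)
        have h2 : x p.2 = x' p.2 := hxx _ (by simp)
        simp only [ee, ww, h1, h2])
    rw [← h1]
    apply Finset.sum_congr rfl
    intro x _
    rw [← Finset.mul_prod_erase Q _ hpQ]
    ring
  rw [e1]
  have e2 := sum_update_real (loB S t X) X p.2
    (fun x => Φ (ee W p x).natAbs * ww T (kB W T) p x)
  have e3 : ∑ x ∈ bx (loB S t X) X, ∑ s ∈ Ico (loB S t X p.2) (loB S t X p.2 + X),
      (fun x => Φ (ee W p x).natAbs * ww T (kB W T) p x) (Function.update x p.2 s) ≤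
      (bx (loB S t X) X).card * B := by
    calc _ ≤ ∑ _x ∈ bx (loB S t X) X, B := by
          apply Finset.sum_le_sum
          intro x hx
          unfold bx at hx
          rw [Fintype.mem_piFinset] at hx
          exact c5_inner W S t X T hp Φ B x (loB S t X p.2) (fun g => hB g (x p.1) (hx p.1))
      _ = (bx (loB S t X) X).card * B := by
          rw [Finset.sum_const, nsmul_eq_mul]
  rw [e2] at e3
  rw [mul_div_assoc', le_div_iff₀ hX0, mul_comm _ (X : ℝ)]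
  exact e3

end Pool.Agent.Lib.MP_fed790_nt.QP
end

section

/-!
# QP A9: the greedy construction of the pool

`HypI` collects the hypotheses.

**`pool_step`.** Given a pool on `s` and a new `p ∉ s`, construct `T p`.

Put `Q = W^(2S+3)`, `D = ∏_{p' ∈ s} ∏_{h'} T p' h'`. All `T p' h'` are positive and `≤ 2 T0`
(`hi`, `δ0 ≤ 1/8`, `idx p' < t`, so `T ≤ T0 (1 + δ0 (t - 1/2)/t) ≤ 2 T0`), the number of factors is
at most `nP * k`, so `D ≤ (2 T0)^(nP k) < 2^L` and `sg y D ≤ nP k εT ≤ ε8` (`sg_prod_le`), where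
`εT = (k²+1) εg`. `slots` gives `c`, `Pi`. Let `τ = T0 (1 + δ0 (idx p + 1/8)/t)`, `B = ⌈τ / Pi⌉`,
`a0 = 1 + W^S idx p`. Let
`E = {T p' h' : p' ∈ s, idx p' ≠ idx p}` and
`F = {(T p' h', T p' h' - T p'' h'') : p', p'' ∈ s, idx p, idx p', idx p'' pairwise different}`.
`|E| ≤ nP k`, `|F| ≤ (nP k)²`, `Fintype.card H ≤ k`. Apply `stepY`:

* primes dividing `Q` are those dividing `W`, i.e. those `≤ y`; `Pi` and `a0` are `≡ 1 mod W`
  (`S ≥ 1`), hence coprime to `W` and to `Q`.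
* `e ∈ E` divides `D`, so it is coprime to `c h`; `e ≡ 1 + W^S idx p' ≢ a0 mod W^(2S+3)`, because
  `0 < |idx p' - idx p| < t ≤ W`. In the same way the second components of `F` are `≠ 0`.
  `sg y` of them is `≤ ε10` by `sgd`; they are `< 2^L` in absolute value.
* `Pi (Q (Z+1) + 1) ≤ N^(k²) (Q (Z+1) + 1) ≤ (δ0/(16 t)) T0` (`hT0`). So
  `τ ≤ Y Pi ≤ (τ/Pi + 1 + Q(Z+1)) Pi ≤ τ + (δ0/(16t)) T0 ≤ 2 T0` for `B ≤ Y ≤ B + Q (Z+1)`,
  and `Y c_h ≤ Y Pi (1 + 2k²η) ≤ 4 T0 < 2^L`, `B + Q(Z+1) ≤ 4 T0 ≤ N'`.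

Put `T p h = Y * c h`. Then: `|T p h - Y Pi| ≤ 2 k² η Y Pi ≤ 4 k² η T0 ≤ (δ/2) T0` (`hη`:
`8 k² η ≤ δ`), so `tight`; and `lo`, `hi` follow from `τ - (δ/2) T0 ≥ T0 (1 + δ0 idx/t)` and
`τ + (δ0/(16t)) T0 + (δ/2) T0 ≤ T0 (1 + δ0 (idx+1/2)/t)`, using `hδ : δ ≤ δ0/(8t)`.
`cong`: `Y c_h ≡ Y Pi ≡ a0 mod Q`. `col`: `f (Y c_h) = f Y + h`. `sgT`: `sg_mul_le`.
`cop`: `Y` and `c_h` are coprime to `D`. `sgd`, `tri` from `stepY` (`tri` is symmetric: all three
numbers are congruent mod `q`; if one of the three is `p` use the last statement of `stepY` with the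
other two; two of the three cannot both be `p` as the `idx` differ).
For `p' ∈ s` keep `T p'` (define `T' = Function.update T p (fun h => Y * c h)`).

**`pool_exists`.** Induction over the finite set (`Finset.induction_on`), the empty pool being
trivial.
-/

open Finset

namespace Pool.Agent.Lib.MP_fed790_nt.QP

structure HypI {G : Type*} [AddCommGroup G] (f : ℕ → G) (H : AddSubgroup G)
    (k y W S t L Λ N N' Z T0 nP : ℕ) (εg ε8 ε10 η δ δ0 ρ c1 : ℝ) : Prop where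
  hf : CAdd f
  hk : 1 ≤ k
  hG : Nat.card G ≤ k
  hkG : ∀ g : G, k • g = 0
  hy : 1 ≤ y
  hW2 : 2 ≤ W
  hWy : ∀ ℓ : ℕ, ℓ.Prime → (ℓ ∣ W ↔ ℓ ≤ y)
  htW : t ≤ W
  ht : 1 ≤ t
  hS : 1 ≤ S
  hΛ : 1 ≤ Λ
  hH : H = AddSubgroup.closure {γ | Avail f y W Λ L εg ε8 N γ}
  h0 : Avail f y W Λ L εg ε8 N 0
  hZ : ∀ m D : ℕ, Λ ≤ m → m ≤ N → m ≡ 1 [MOD W] → 0 < D → D < 2 ^ L → sg y D ≤ ε8 →
      ∃ x : ℕ, 0 < x ∧ x ^ k ≡ m [MOD W ^ (2 * S + 3)] ∧ |(x : ℝ) ^ k - m| ≤ η * m ∧
        sg y x ≤ εg ∧ x.Coprime D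
  hrare : RareAP f H W ρ c1 N'
  hεg : 0 < εg
  hε10 : 0 < ε10
  hη : 0 ≤ η
  hη1 : (k : ℝ) ^ 2 * η ≤ 1 / 4
  hηδ : 8 * (k : ℝ) ^ 2 * η ≤ δ
  hδ : δ ≤ δ0 / (8 * t)
  hδ0 : δ0 ≤ 1 / 8
  hT1 : 1 ≤ T0
  hT0 : (N : ℝ) ^ (k ^ 2) * (W ^ (2 * S + 3) * (Z + 1) + 1) ≤ δ0 / (16 * t) * T0
  hTL : (2 * T0) ^ (nP * k + 2) < 2 ^ L
  hTN : 4 * T0 ≤ N'
  hsD : (nP : ℝ) * k * ((k ^ 2 + 1) * εg) ≤ ε8
  hnum : ((Z : ℝ) / y + L) / εg + (Z * ε8 + L) + (ρ * Z + c1) +
      k * ((nP : ℝ) * k) * (((Z : ℝ) / y + L) / ε10) +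
      k * ((nP : ℝ) * k) ^ 2 * (Z * ε10 + L) < Z

theorem a9_T0 {G : Type*} [AddCommGroup G] {f : ℕ → G} {H : AddSubgroup G}
    {k y W S t L Λ N N' Z T0 nP : ℕ} {εg ε8 ε10 η δ δ0 ρ c1 : ℝ}
    (hI : HypI f H k y W S t L Λ N N' Z T0 nP εg ε8 ε10 η δ δ0 ρ c1) : 0 ≤ δ ∧ 0 ≤ δ0 := by
  have h1 : 0 ≤ δ := by
    refine le_trans ?_ hI.hηδ
    have := hI.hη
    positivity
  refine ⟨h1, ?_⟩
  have h2 := hI.hδ
  have ht : (0 : ℝ) < 8 * t := by
    have : (0 : ℝ) < t := by exact_mod_cast hI.ht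
    positivity
  by_contra h3
  push Not at h3
  have h4 : δ0 / (8 * t) < 0 := div_neg_of_neg_of_pos h3 ht
  linarith

/-- two residues `1 + W ^ S i` are different. -/
theorem a9_ne {W S t i j : ℕ} (hW2 : 2 ≤ W) (htW : t ≤ W) (hi : i < t) (hj : j < t)
    (h : 1 + W ^ S * i ≡ 1 + W ^ S * j [MOD W ^ (2 * S + 3)]) : i = j := by
  have hW : 0 < W ^ S := pow_pos (by omega) S
  have hb : ∀ a, a < t → 1 + W ^ S * a < W ^ (2 * S + 3) := by
    intro a ha
    calc 1 + W ^ S * a ≤ W ^ S + W ^ S * a := by omega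
      _ = W ^ S * (a + 1) := by ring
      _ ≤ W ^ S * W := Nat.mul_le_mul_left _ (by omega)
      _ = W ^ (S + 1) := by ring
      _ < W ^ (2 * S + 3) := Nat.pow_lt_pow_right (by omega) (by omega)
  have h1 := Nat.ModEq.eq_of_lt_of_lt h (hb i hi) (hb j hj)
  have h2 : W ^ S * i = W ^ S * j := by omega
  exact Nat.eq_of_mul_eq_mul_left hW h2

theorem pool_step {G : Type*} [AddCommGroup G] [Finite G] {f : ℕ → G} {H : AddSubgroup G}
    {k y W S t L Λ N N' Z T0 nP : ℕ} {εg ε8 ε10 η δ δ0 ρ c1 : ℝ}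
    (hI : HypI f H k y W S t L Λ N N' Z T0 nP εg ε8 ε10 η δ δ0 ρ c1)
    {P : Type*} [DecidableEq P] (idx : P → ℕ) (hidx : ∀ p, idx p < t) (s : Finset P)
    (hs : s.card ≤ nP) (T : P → H → ℕ)
    (hT : IsPool f H idx y W S T0 t δ δ0 ((k ^ 2 + 1) * εg) ε10 s T) (p : P) (hp : p ∉ s) :
    ∃ T' : P → H → ℕ, IsPool f H idx y W S T0 t δ δ0 ((k ^ 2 + 1) * εg) ε10 (insert p s) T' := by
  classical
  have hFin : Fintype H := Fintype.ofFinite H
  obtain ⟨hδn, hδ0n⟩ := a9_T0 hI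
  have hW2 := hI.hW2
  have hk := hI.hk
  have htpos : (0 : ℝ) < t := by exact_mod_cast hI.ht
  have hT0pos : (0 : ℝ) < T0 := by exact_mod_cast hI.hT1
  have hT01 : (1 : ℝ) ≤ T0 := by exact_mod_cast hI.hT1
  have hηn := hI.hη
  have hεg := hI.hεg
  have hcardH : Fintype.card H ≤ k := by
    have h1 : Fintype.card H = Nat.card H := Nat.card_eq_fintype_card.symm
    have h2 : Nat.card H ≤ Nat.card G :=
      Nat.card_le_card_of_injective (Subtype.val : H → G) Subtype.val_injective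
    have := hI.hG
    omega
  -- elements of the old pool
  have hTlo : ∀ p' ∈ s, ∀ h', (T0 : ℝ) ≤ T p' h' := by
    intro p' hp' h'
    refine le_trans ?_ (hT.lo p' hp' h')
    have : 0 ≤ δ0 * ((idx p' : ℝ) / t) := by positivity
    nlinarith
  have hTpos : ∀ p' ∈ s, ∀ h', 0 < T p' h' := by
    intro p' hp' h'
    have := hTlo p' hp' h'
    have h2 : (0 : ℝ) < T p' h' := by linarith
    exact_mod_cast h2
  have hidx1 : ∀ p' : P, ((idx p' : ℝ) + 1 / 2) / t ≤ 1 := by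
    intro p'
    rw [div_le_one htpos]
    have h1 : idx p' + 1 ≤ t := hidx p'
    have h2 : ((idx p' : ℝ) + 1) ≤ t := by exact_mod_cast h1
    linarith
  have hThi : ∀ p' ∈ s, ∀ h', T p' h' ≤ 2 * T0 := by
    intro p' hp' h'
    have h1 := hT.hi p' hp' h'
    have h2 : δ0 * (((idx p' : ℝ) + 1 / 2) / t) ≤ 1 / 8 * 1 :=
      mul_le_mul hI.hδ0 (hidx1 p') (by positivity) (by norm_num)
    have h3 : (T p' h' : ℝ) ≤ T0 * 2 := h1.trans (mul_le_mul_of_nonneg_left (by linarith) hT0pos.le)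
    have h4 : (T p' h' : ℝ) ≤ ((2 * T0 : ℕ) : ℝ) := by push_cast; linarith
    exact_mod_cast h4
  have hTL := hI.hTL
  have h2T0 : 2 ≤ 2 * T0 := by have := hI.hT1; omega
  have h4T : 4 * T0 < 2 ^ L := by
    refine lt_of_le_of_lt ?_ hTL
    calc 4 * T0 ≤ (2 * T0) ^ 2 := by have := hI.hT1; nlinarith
      _ ≤ (2 * T0) ^ (nP * k + 2) := Nat.pow_le_pow_right (by omega) (by omega)
  -- the product D
  set D : ℕ := ∏ p' ∈ s, ∏ h' : H, T p' h' with hDdef
  have hD : 0 < D := Finset.prod_pos fun p' hp' => Finset.prod_pos fun h' _ => hTpos p' hp' h'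
  have hDL : D < 2 ^ L := by
    refine lt_of_le_of_lt ?_ hTL
    calc D ≤ ∏ p' ∈ s, ∏ h' : H, (2 * T0) := by
          refine Finset.prod_le_prod' fun p' hp' => Finset.prod_le_prod' fun h' _ => hThi p' hp' h'
      _ = (2 * T0) ^ (s.card * Fintype.card H) := by
          rw [Finset.prod_const, Finset.prod_const, Finset.card_univ, ← pow_mul,
            Nat.mul_comm (Fintype.card H)]
      _ ≤ (2 * T0) ^ (nP * k + 2) :=
          Nat.pow_le_pow_right (by omega)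
            (le_trans (Nat.mul_le_mul hs hcardH) (by omega))
  have hcardsH : ((s.card : ℝ) * Fintype.card H) ≤ (nP : ℝ) * k := by
    exact_mod_cast Nat.mul_le_mul hs hcardH
  have hεTn : 0 ≤ ((k : ℝ) ^ 2 + 1) * εg := by positivity
  have hsD : sg y D ≤ ε8 := by
    refine le_trans ?_ hI.hsD
    calc sg y D ≤ ∑ p' ∈ s, sg y (∏ h' : H, T p' h') :=
          sg_prod_le y s _ fun p' hp' => Finset.prod_pos fun h' _ => hTpos p' hp' h'
      _ ≤ ∑ p' ∈ s, ∑ h' : H, sg y (T p' h') :=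
          Finset.sum_le_sum fun p' hp' => sg_prod_le y univ _ fun h' _ => hTpos p' hp' h'
      _ ≤ ∑ p' ∈ s, ∑ _h' : H, (((k : ℝ) ^ 2 + 1) * εg) :=
          Finset.sum_le_sum fun p' hp' => Finset.sum_le_sum fun h' _ => hT.sgT p' hp' h'
      _ = ((s.card : ℝ) * Fintype.card H) * (((k : ℝ) ^ 2 + 1) * εg) := by
          simp only [Finset.sum_const, Finset.card_univ, nsmul_eq_mul]
          ring
      _ ≤ (nP : ℝ) * k * (((k : ℝ) ^ 2 + 1) * εg) := mul_le_mul_of_nonneg_right hcardsH hεTn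
  have hTD : ∀ p' ∈ s, ∀ h', T p' h' ∣ D := by
    intro p' hp' h'
    exact dvd_trans (Finset.dvd_prod_of_mem (fun h' => T p' h') (Finset.mem_univ h'))
      (Finset.dvd_prod_of_mem (fun p' => ∏ h' : H, T p' h') hp')
  -- the slots
  set Q : ℕ := W ^ (2 * S + 3) with hQdef
  have hWQ : W ∣ Q := dvd_pow_self W (by omega)
  have hQ : 0 < Q := pow_pos (by omega) _
  obtain ⟨c, Pi, hPi0, hPiN, hPiW, hc⟩ := slots hI.hf (Q := Q) (D := D) hk hI.hG hI.hkG hI.hΛ hWQ
    hηn hI.hη1 hεg.le hI.h0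
    (fun m hm1 hm2 hm3 => hI.hZ m D hm1 hm2 hm3 hD hDL hsD) hD hDL hsD H hI.hH
  have hPi0R : (0 : ℝ) < Pi := by exact_mod_cast hPi0
  have hPi1R : (1 : ℝ) ≤ Pi := by exact_mod_cast hPi0
  set τ : ℝ := T0 * (1 + δ0 * (((idx p : ℝ) + 1 / 8) / t)) with hτdef
  have hτpos : 0 < τ := by
    have : 0 ≤ δ0 * (((idx p : ℝ) + 1 / 8) / t) := by positivity
    positivity
  have hτle : τ ≤ T0 * (1 + 1 / 8) := by
    have h1 : ((idx p : ℝ) + 1 / 8) / t ≤ ((idx p : ℝ) + 1 / 2) / t := by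
      gcongr
      norm_num
    have h2 : δ0 * (((idx p : ℝ) + 1 / 8) / t) ≤ 1 / 8 * 1 :=
      mul_le_mul hI.hδ0 (h1.trans (hidx1 p)) (by positivity) (by norm_num)
    rw [hτdef]
    exact mul_le_mul_of_nonneg_left (by linarith) hT0pos.le
  set B : ℕ := ⌈τ / Pi⌉₊ with hBdef
  have hB : 0 < B := Nat.ceil_pos.2 (div_pos hτpos hPi0R)
  have hB1 : τ ≤ B * Pi := by
    have := Nat.le_ceil (τ / Pi)
    rwa [div_le_iff₀ hPi0R] at this
  have hB2 : (B : ℝ) ≤ τ / Pi + 1 := (Nat.ceil_lt_add_one (div_pos hτpos hPi0R).le).le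
  set U : ℕ := B + Q * (Z + 1) with hUdef
  have hPiU : (Pi : ℝ) * (Q * (Z + 1) + 1) ≤ δ0 / (16 * t) * T0 := by
    refine le_trans ?_ hI.hT0
    have h1 : (Pi : ℝ) ≤ (N : ℝ) ^ (k ^ 2) := by exact_mod_cast hPiN
    have h2 : (0 : ℝ) ≤ (Q : ℝ) * (Z + 1) + 1 := by positivity
    have h3 : ((Q : ℕ) : ℝ) = (W : ℝ) ^ (2 * S + 3) := by rw [hQdef]; push_cast; rfl
    rw [h3] at h2 ⊢
    exact mul_le_mul_of_nonneg_right h1 h2
  have hUPi : (U : ℝ) * Pi ≤ τ + δ0 / (16 * t) * T0 := by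
    have h1 : (U : ℝ) = B + Q * (Z + 1) := by rw [hUdef]; push_cast; rfl
    rw [h1]
    calc ((B : ℝ) + Q * (Z + 1)) * Pi ≤ (τ / Pi + 1 + Q * (Z + 1)) * Pi :=
          mul_le_mul_of_nonneg_right (by linarith) hPi0R.le
      _ = τ + Pi * (Q * (Z + 1) + 1) := by
          field_simp
          ring
      _ ≤ _ := by linarith
  have hδ16 : δ0 / (16 * t) * T0 ≤ 1 / 8 * T0 := by
    refine mul_le_mul_of_nonneg_right ?_ hT0pos.le
    rw [div_le_iff₀ (by positivity)]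
    have h1 : (1 : ℝ) ≤ t := by exact_mod_cast hI.ht
    have := hI.hδ0
    nlinarith
  have hUPi2 : (U : ℝ) * Pi ≤ 2 * T0 := by linarith
  have hU2 : U ≤ 2 * T0 := by
    have h1 : (U : ℝ) * 1 ≤ U * Pi := mul_le_mul_of_nonneg_left hPi1R (Nat.cast_nonneg _)
    have h2 : (U : ℝ) ≤ ((2 * T0 : ℕ) : ℝ) := by push_cast; linarith
    exact_mod_cast h2
  have hcle : ∀ h, (c h : ℝ) ≤ 2 * Pi := by
    intro h
    obtain ⟨_, _, _, _, h5, _⟩ := hc h
    have h6 := (abs_le.1 h5).2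
    have h7 : 2 * (k : ℝ) ^ 2 * η * Pi ≤ 1 * Pi := by
      refine mul_le_mul_of_nonneg_right ?_ hPi0R.le
      have := hI.hη1
      linarith
    linarith
  have hcU : ∀ h, U * c h ≤ 4 * T0 := by
    intro h
    have h1 : (U : ℝ) * c h ≤ U * (2 * Pi) :=
      mul_le_mul_of_nonneg_left (hcle h) (Nat.cast_nonneg _)
    have h2 : ((U * c h : ℕ) : ℝ) ≤ ((4 * T0 : ℕ) : ℝ) := by push_cast; linarith
    exact_mod_cast h2
  -- the sets E and F
  set E : Finset ℕ := ((s.filter fun p' => idx p' ≠ idx p) ×ˢ (univ : Finset H)).image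
    (fun x => T x.1 x.2) with hEdef
  set F : Finset (ℕ × ℤ) := (((s ×ˢ (univ : Finset H)) ×ˢ (s ×ˢ (univ : Finset H))).filter
    (fun x => idx x.1.1 ≠ idx p ∧ idx x.2.1 ≠ idx p ∧ idx x.1.1 ≠ idx x.2.1)).image
    (fun x => (T x.1.1 x.1.2, (T x.1.1 x.1.2 : ℤ) - T x.2.1 x.2.2)) with hFdef
  have memE : ∀ e ∈ E, ∃ p' ∈ s, ∃ h' : H, idx p' ≠ idx p ∧ T p' h' = e := by
    intro e he
    rw [hEdef, Finset.mem_image] at he
    obtain ⟨x, hx, rfl⟩ := he
    rw [Finset.mem_product, Finset.mem_filter] at hx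
    exact ⟨x.1, hx.1.1, x.2, hx.1.2, rfl⟩
  have memE' : ∀ p' ∈ s, ∀ h' : H, idx p' ≠ idx p → T p' h' ∈ E := by
    intro p' hp' h' hne
    rw [hEdef, Finset.mem_image]
    exact ⟨(p', h'), by simp [hp', hne], rfl⟩
  have memF : ∀ x ∈ F, ∃ p' ∈ s, ∃ p'' ∈ s, ∃ h' h'' : H, idx p' ≠ idx p ∧ idx p'' ≠ idx p ∧
      idx p' ≠ idx p'' ∧ (T p' h', (T p' h' : ℤ) - T p'' h'') = x := by
    intro e he
    rw [hFdef, Finset.mem_image] at he
    obtain ⟨x, hx, rfl⟩ := he
    rw [Finset.mem_filter, Finset.mem_product, Finset.mem_product, Finset.mem_product] at hx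
    exact ⟨x.1.1, hx.1.1.1, x.2.1, hx.1.2.1, x.1.2, x.2.2, hx.2.1, hx.2.2.1, hx.2.2.2, rfl⟩
  have memF' : ∀ p' ∈ s, ∀ p'' ∈ s, ∀ h' h'' : H, idx p' ≠ idx p → idx p'' ≠ idx p →
      idx p' ≠ idx p'' → (T p' h', (T p' h' : ℤ) - T p'' h'') ∈ F := by
    intro p' hp' p'' hp'' h' h'' h1 h2 h3
    rw [hFdef, Finset.mem_image]
    exact ⟨((p', h'), (p'', h'')), by simp [hp', hp'', h1, h2, h3], rfl⟩
  have cardE : (E.card : ℝ) ≤ (nP : ℝ) * k := by
    have h1 : E.card ≤ s.card * Fintype.card H := by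
      calc E.card ≤ ((s.filter fun p' => idx p' ≠ idx p) ×ˢ (univ : Finset H)).card :=
            Finset.card_image_le
        _ = (s.filter fun p' => idx p' ≠ idx p).card * Fintype.card H := by
            rw [Finset.card_product, Finset.card_univ]
        _ ≤ s.card * Fintype.card H := Nat.mul_le_mul_right _ (Finset.card_filter_le _ _)
    have h2 : (E.card : ℝ) ≤ (s.card : ℝ) * Fintype.card H := by exact_mod_cast h1
    linarith
  have cardF : (F.card : ℝ) ≤ ((nP : ℝ) * k) ^ 2 := by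
    have h1 : F.card ≤ (s.card * Fintype.card H) ^ 2 := by
      calc F.card ≤ (((s ×ˢ (univ : Finset H)) ×ˢ (s ×ˢ (univ : Finset H))).filter
              (fun x => idx x.1.1 ≠ idx p ∧ idx x.2.1 ≠ idx p ∧ idx x.1.1 ≠ idx x.2.1)).card :=
            Finset.card_image_le
        _ ≤ ((s ×ˢ (univ : Finset H)) ×ˢ (s ×ˢ (univ : Finset H))).card :=
            Finset.card_filter_le _ _
        _ = (s.card * Fintype.card H) ^ 2 := by
            rw [Finset.card_product, Finset.card_product, Finset.card_univ, sq]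
    have h2 : (F.card : ℝ) ≤ ((s.card : ℝ) * Fintype.card H) ^ 2 := by exact_mod_cast h1
    refine h2.trans (pow_le_pow_left₀ (by positivity) hcardsH 2)
  -- congruences
  have ha0W : 1 + W ^ S * idx p ≡ 1 [MOD W] := by
    have h1 : W ∣ W ^ S * idx p := Dvd.dvd.mul_right (dvd_pow_self W (by have := hI.hS; omega)) _
    have h2 : W ^ S * idx p ≡ 0 [MOD W] := (Nat.modEq_zero_iff_dvd).2 h1
    simpa using (Nat.ModEq.refl 1).add h2
  have copW : ∀ a : ℕ, a ≡ 1 [MOD W] → a.Coprime Q := by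
    intro a ha
    apply Nat.Coprime.pow_right
    have h1 : Nat.gcd a W = Nat.gcd 1 W := ha.gcd_eq
    rw [Nat.coprime_iff_gcd_eq_one, h1, Nat.gcd_one_left]
  have hQy : ∀ ℓ : ℕ, ℓ.Prime → (ℓ ∣ Q ↔ ℓ ≤ y) := by
    intro ℓ hℓ
    rw [← hI.hWy ℓ hℓ, hQdef]
    exact ⟨fun h => hℓ.dvd_of_dvd_pow h, fun h => dvd_pow h (by omega)⟩
  have hTne : ∀ p' ∈ s, ∀ p'' ∈ s, ∀ h' h'' : H, idx p' ≠ idx p'' → T p' h' ≠ T p'' h'' := by
    intro p' hp' p'' hp'' h' h'' hne heq
    apply hne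
    have h1 := hT.cong p' hp' h'
    have h2 := hT.cong p'' hp'' h''
    rw [heq] at h1
    exact a9_ne hW2 hI.htW (hidx p') (hidx p'') (h1.symm.trans h2)
  have hkR : (Fintype.card H : ℝ) ≤ k := by exact_mod_cast hcardH
  obtain ⟨Y, hBY, hYU, hYa, hfY, hsY, hYD, hYE, hYF⟩ := stepY (f := f) (H := H) c Pi
    (1 + W ^ S * idx p) y W Q D L Z N' B εg ε8 ε10 ρ c1 E F hI.hrare hI.hy hQy hQ hWQ hεg hI.hε10
    (copW Pi hPiW) hPiW (copW _ ha0W) ha0W (fun h => ⟨(hc h).1, (hc h).2.2.2.1⟩) hB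
    (by
      intro e he h
      obtain ⟨p', hp', h', _, rfl⟩ := memE e he
      exact Nat.Coprime.coprime_dvd_left (hTD p' hp' h') (hc h).2.1.symm)
    (by
      intro e he hcon
      obtain ⟨p', hp', h', hne, rfl⟩ := memE e he
      exact hne (a9_ne hW2 hI.htW (hidx p') (hidx p) ((hT.cong p' hp' h').symm.trans hcon)))
    (by
      intro e he
      obtain ⟨p', hp', h', hne, rfl⟩ := memE e he
      have := hThi p' hp' h'
      omega)
    (fun h => lt_of_le_of_lt (hcU h) h4T)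
    (by omega)
    (by
      intro x hx
      obtain ⟨p', hp', p'', hp'', h', h'', h1, h2, h3, rfl⟩ := memF x hx
      refine ⟨memE' p' hp' h' h1, ?_, ?_, ?_⟩
      · intro h4
        have h5 : (T p' h' : ℤ) = T p'' h'' := by
          have : (T p' h' : ℤ) - T p'' h'' = 0 := h4
          linarith
        exact hTne p' hp' p'' hp'' h' h'' h3 (by exact_mod_cast h5)
      · have h4 := hThi p' hp' h'
        have h5 := hThi p'' hp'' h''
        show ((T p' h' : ℤ) - T p'' h'').natAbs < 2 ^ L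
        omega
      · exact hT.sgd p' hp' p'' hp'' h3 h' h'')
    (by
      have := hI.hTN
      omega)
    hD hDL hsD
    (by
      refine lt_of_le_of_lt ?_ hI.hnum
      have n1 : 0 ≤ ((Z : ℝ) / y + L) / ε10 := by
        have := hI.hε10
        positivity
      have n2 : 0 ≤ (Z : ℝ) * ε10 + L := by
        have := hI.hε10
        positivity
      have b1 : (Fintype.card H : ℝ) * (E.card : ℝ) ≤ k * ((nP : ℝ) * k) :=
        mul_le_mul hkR cardE (Nat.cast_nonneg _) (Nat.cast_nonneg _)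
      have b2 : (Fintype.card H : ℝ) * (F.card : ℝ) ≤ k * ((nP : ℝ) * k) ^ 2 :=
        mul_le_mul hkR cardF (Nat.cast_nonneg _) (Nat.cast_nonneg _)
      have b3 := mul_le_mul_of_nonneg_right b1 n1
      have b4 := mul_le_mul_of_nonneg_right b2 n2
      linarith)
  -- bounds for the new moduli
  have hY0 : 0 < Y := lt_of_lt_of_le hB hBY
  have hYPi1 : τ ≤ (Y : ℝ) * Pi := by
    refine hB1.trans (mul_le_mul_of_nonneg_right ?_ hPi0R.le)
    exact_mod_cast hBY
  have hYPi2 : (Y : ℝ) * Pi ≤ τ + δ0 / (16 * t) * T0 := by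
    refine le_trans (mul_le_mul_of_nonneg_right ?_ hPi0R.le) hUPi
    exact_mod_cast hYU
  have hYPi3 : (Y : ℝ) * Pi ≤ 2 * T0 := by linarith
  have hnear : ∀ h, |(Y : ℝ) * c h - Y * Pi| ≤ δ / 2 * T0 := by
    intro h
    obtain ⟨_, _, _, _, h5, _⟩ := hc h
    rw [← mul_sub, abs_mul, abs_of_nonneg (Nat.cast_nonneg Y : (0 : ℝ) ≤ Y)]
    calc (Y : ℝ) * |(c h : ℝ) - Pi| ≤ Y * (2 * k ^ 2 * η * Pi) :=
          mul_le_mul_of_nonneg_left h5 (Nat.cast_nonneg _)
      _ = 2 * k ^ 2 * η * (Y * Pi) := by ring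
      _ ≤ 2 * k ^ 2 * η * (2 * T0) := mul_le_mul_of_nonneg_left hYPi3 (by positivity)
      _ = (8 * k ^ 2 * η) / 2 * T0 := by ring
      _ ≤ δ / 2 * T0 := by
          refine mul_le_mul_of_nonneg_right ?_ hT0pos.le
          have := hI.hηδ
          linarith
  have hδ2 : δ / 2 * T0 ≤ δ0 / (16 * t) * T0 := by
    refine mul_le_mul_of_nonneg_right ?_ hT0pos.le
    have h1 := hI.hδ
    have h2 : δ0 / (16 * t) = δ0 / (8 * t) / 2 := by
      field_simp
      ring
    rw [h2]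
    linarith
  have hτ1 : τ = T0 * (1 + δ0 * ((idx p : ℝ) / t)) + 2 * (δ0 / (16 * t) * T0) := by
    rw [hτdef]
    field_simp
    ring
  have hτ2 : T0 * (1 + δ0 * (((idx p : ℝ) + 1 / 2) / t)) =
      T0 * (1 + δ0 * ((idx p : ℝ) / t)) + 8 * (δ0 / (16 * t) * T0) := by
    field_simp
    ring
  have hδ16n : 0 ≤ δ0 / (16 * t) * T0 := by positivity
  have nlo : ∀ h, (T0 : ℝ) * (1 + δ0 * ((idx p : ℝ) / t)) ≤ (Y : ℝ) * c h := by
    intro h
    have h1 := (abs_le.1 (hnear h)).1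
    linarith
  have nhi : ∀ h, (Y : ℝ) * c h ≤ T0 * (1 + δ0 * (((idx p : ℝ) + 1 / 2) / t)) := by
    intro h
    have h1 := (abs_le.1 (hnear h)).2
    linarith
  have ntight : ∀ h h', |(Y : ℝ) * c h - Y * c h'| ≤ δ * T0 := by
    intro h h'
    have h1 := hnear h
    have h2 := hnear h'
    rw [abs_le] at h1 h2 ⊢
    constructor <;> linarith
  have ncong : ∀ h, Y * c h ≡ 1 + W ^ S * idx p [MOD W ^ (2 * S + 3)] := fun h =>
    ((Nat.ModEq.refl Y).mul (hc h).2.2.2.1).trans hYa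
  have ncop : ∀ p' ∈ s, ∀ h h', (Y * c h).Coprime (T p' h') := by
    intro p' hp' h h'
    have h1 : (Y * c h).Coprime D := Nat.Coprime.mul_left hYD (hc h).2.1
    exact Nat.Coprime.coprime_dvd_right (hTD p' hp' h') h1
  have nsgd : ∀ p' ∈ s, idx p' ≠ idx p → ∀ h h',
      sg y (((Y * c h : ℕ) : ℤ) - T p' h').natAbs ≤ ε10 := by
    intro p' hp' hne h h'
    have h1 := hYE h (T p' h') (memE' p' hp' h' hne)
    push_cast
    exact h1
  have ntri : ∀ p' ∈ s, ∀ p'' ∈ s, idx p' ≠ idx p → idx p'' ≠ idx p → idx p' ≠ idx p'' →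
      ∀ h h' h'', ∀ q : ℕ, q.Prime → y < q → (q : ℤ) ∣ (T p' h' : ℤ) - T p'' h'' →
      (q : ℤ) ∣ ((Y * c h : ℕ) : ℤ) - T p' h' → False := by
    intro p' hp' p'' hp'' h1 h2 h3 h h' h'' q hq hyq hd1 hd2
    have h4 := hYF h _ (memF' p' hp' p'' hp'' h' h'' h1 h2 h3) q hq hyq hd1
    apply h4
    push_cast at hd2
    exact hd2
  refine ⟨Function.update T p (fun h => Y * c h), ?_⟩
  have hup : Function.update T p (fun h => Y * c h) p = fun h => Y * c h :=
    Function.update_self _ _ _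
  have hold : ∀ p' ∈ s, Function.update T p (fun h => Y * c h) p' = T p' := by
    intro p' hp'
    exact Function.update_of_ne (by rintro rfl; exact hp hp') _ _
  constructor
  · intro p' hp' h
    rcases Finset.mem_insert.1 hp' with rfl | hp'
    · rw [hup]
      push_cast
      exact nlo h
    · rw [hold p' hp']
      exact hT.lo p' hp' h
  · intro p' hp' h
    rcases Finset.mem_insert.1 hp' with rfl | hp'
    · rw [hup]
      push_cast
      exact nhi h
    · rw [hold p' hp']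
      exact hT.hi p' hp' h
  · intro p' hp' h h'
    rcases Finset.mem_insert.1 hp' with rfl | hp'
    · rw [hup]
      push_cast
      exact ntight h h'
    · rw [hold p' hp']
      exact hT.tight p' hp' h h'
  · intro p' hp' h
    rcases Finset.mem_insert.1 hp' with rfl | hp'
    · rw [hup]
      exact ncong h
    · rw [hold p' hp']
      exact hT.cong p' hp' h
  · intro p' hp'
    rcases Finset.mem_insert.1 hp' with rfl | hp'
    · rw [hup]
      refine ⟨f Y, hfY, fun h => ?_⟩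
      show f (Y * c h) = _
      rw [hI.hf Y (c h) hY0 (hc h).1, (hc h).2.2.1]
    · rw [hold p' hp']
      exact hT.col p' hp'
  · intro p' hp' h
    rcases Finset.mem_insert.1 hp' with rfl | hp'
    · rw [hup]
      show sg y (Y * c h) ≤ _
      have h1 := sg_mul_le y Y (c h) hY0 (hc h).1
      have h2 := (hc h).2.2.2.2.2
      linarith
    · rw [hold p' hp']
      exact hT.sgT p' hp' h
  · intro p1 hp1 p2 hp2 hne h h'
    rcases Finset.mem_insert.1 hp1 with rfl | m1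
    · rcases Finset.mem_insert.1 hp2 with rfl | m2
      · exact absurd rfl hne
      · rw [hup, hold p2 m2]
        exact ncop p2 m2 h h'
    · rcases Finset.mem_insert.1 hp2 with rfl | m2
      · rw [hup, hold p1 m1]
        exact (ncop p1 m1 h' h).symm
      · rw [hold p1 m1, hold p2 m2]
        exact hT.cop p1 m1 p2 m2 hne h h'
  · intro p1 hp1 p2 hp2 hne h h'
    rcases Finset.mem_insert.1 hp1 with rfl | m1
    · rcases Finset.mem_insert.1 hp2 with rfl | m2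
      · exact absurd rfl hne
      · rw [hup, hold p2 m2]
        exact nsgd p2 m2 (Ne.symm hne) h h'
    · rcases Finset.mem_insert.1 hp2 with rfl | m2
      · rw [hup, hold p1 m1]
        have h1 := nsgd p1 m1 hne h' h
        have h2 : ((T p1 h : ℤ) - ((Y * c h' : ℕ) : ℤ)).natAbs =
            (((Y * c h' : ℕ) : ℤ) - T p1 h).natAbs := by omega
        show sg y ((T p1 h : ℤ) - ((Y * c h' : ℕ) : ℤ)).natAbs ≤ ε10
        rw [h2]
        exact h1
      · rw [hold p1 m1, hold p2 m2]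
        exact hT.sgd p1 m1 p2 m2 hne h h'
  · intro p1 hp1 p2 hp2 p3 hp3 h12 h23 h13 h h' h'' q hq hyq
    rintro ⟨hd1, hd2⟩
    rcases Finset.mem_insert.1 hp1 with rfl | m1
    · rcases Finset.mem_insert.1 hp2 with rfl | m2
      · exact absurd rfl h12
      rcases Finset.mem_insert.1 hp3 with rfl | m3
      · exact absurd rfl h13
      rw [hup, hold p2 m2] at hd1
      rw [hold p2 m2, hold p3 m3] at hd2
      exact ntri p2 m2 p3 m3 (Ne.symm h12) (Ne.symm h13) h23 h h' h'' q hq hyq hd2 hd1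
    · rcases Finset.mem_insert.1 hp2 with rfl | m2
      · rcases Finset.mem_insert.1 hp3 with rfl | m3
        · exact absurd rfl h23
        rw [hup, hold p1 m1] at hd1
        rw [hup, hold p3 m3] at hd2
        refine ntri p1 m1 p3 m3 h12 (Ne.symm h23) h13 h' h h'' q hq hyq ?_ ?_
        · have h4 := dvd_add hd1 hd2
          have h5 : (T p1 h : ℤ) - ((Y * c h' : ℕ) : ℤ) + (((Y * c h' : ℕ) : ℤ) - T p3 h'') =
              T p1 h - T p3 h'' := by ring
          rwa [h5] at h4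
        · have h4 := (dvd_neg (a := (q : ℤ))).2 hd1
          have h5 : -((T p1 h : ℤ) - ((Y * c h' : ℕ) : ℤ)) = ((Y * c h' : ℕ) : ℤ) - T p1 h := by
            ring
          rwa [h5] at h4
      · rcases Finset.mem_insert.1 hp3 with rfl | m3
        · rw [hold p1 m1, hold p2 m2] at hd1
          rw [hup, hold p2 m2] at hd2
          refine ntri p2 m2 p1 m1 h23 h13 (Ne.symm h12) h'' h' h q hq hyq ?_ ?_
          · have h4 := (dvd_neg (a := (q : ℤ))).2 hd1
            have h5 : -((T p1 h : ℤ) - T p2 h') = T p2 h' - T p1 h := by ring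
            rwa [h5] at h4
          · have h4 := (dvd_neg (a := (q : ℤ))).2 hd2
            have h5 : -((T p2 h' : ℤ) - ((Y * c h'' : ℕ) : ℤ)) =
                ((Y * c h'' : ℕ) : ℤ) - T p2 h' := by ring
            rwa [h5] at h4
        · rw [hold p1 m1, hold p2 m2] at hd1
          rw [hold p2 m2, hold p3 m3] at hd2
          exact hT.tri p1 m1 p2 m2 p3 m3 h12 h23 h13 h h' h'' q hq hyq ⟨hd1, hd2⟩

theorem pool_exists {G : Type*} [AddCommGroup G] [Finite G] {f : ℕ → G} {H : AddSubgroup G}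
    {k y W S t L Λ N N' Z T0 nP : ℕ} {εg ε8 ε10 η δ δ0 ρ c1 : ℝ}
    (hI : HypI f H k y W S t L Λ N N' Z T0 nP εg ε8 ε10 η δ δ0 ρ c1)
    {P : Type*} [DecidableEq P] (idx : P → ℕ) (hidx : ∀ p, idx p < t) (s : Finset P)
    (hs : s.card ≤ nP) :
    ∃ T : P → H → ℕ, IsPool f H idx y W S T0 t δ δ0 ((k ^ 2 + 1) * εg) ε10 s T := by
  induction s using Finset.induction_on with
  | empty =>
    exact ⟨fun _ _ => 1, ⟨by simp, by simp, by simp, by simp, by simp, by simp, by simp, by simp,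
      by simp⟩⟩
  | insert a s ha ih =>
    rw [Finset.card_insert_of_notMem ha] at hs
    obtain ⟨T, hT⟩ := ih (by omega)
    exact pool_step hI idx hidx s (by omega) T hT a ha

end Pool.Agent.Lib.MP_fed790_nt.QP
end
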