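import Pool.Agent.Lib.MP_fed790_nt.QP.C1
import Pool.Agent.Lib.MP_fed790_nt.QP.Num3r

section

/-!
# QP B2: the abstract orthogonality inequality

Write `a i = ‖a_i(z)‖² ∈ [0,1]`, `β = ‖b(z)‖²` (values at the roots of unity). Then
`x = ∑_i av(a_i β) = av((∑ a_i) β)`, so by `av_cs` (with `u = β`, `φ = ∑ a_i`)
`x² ≤ av(β) av(β (∑_i a_i)²) = av(β) ∑_{i,i'} av(a_i a_{i'} β)`, and for `i = i'` we use
`a_i² ≤ a_i`.
-/

open Finset

namespace Pool.Agent.Lib.MP_fed790_nt.QP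

theorem orth_abs {ι : Type*} [DecidableEq ι] (s : Finset ι) (N : ℕ) (a : ι → ℂ → ℂ)
    (b : ℂ → ℂ) (ha : ∀ i ∈ s, ∀ k, ‖a i (rt N k)‖ ≤ 1) :
    (∑ i ∈ s, av N (fun z => ‖a i z‖ ^ 2 * ‖b z‖ ^ 2)) ^ 2 ≤
      av N (fun z => ‖b z‖ ^ 2) * (∑ i ∈ s, av N (fun z => ‖a i z‖ ^ 2 * ‖b z‖ ^ 2) +
        ∑ i ∈ s, ∑ i' ∈ s.erase i, av N (fun z => ‖a i z * a i' z * b z‖ ^ 2)) := by
  have h1 : ∑ i ∈ s, av N (fun z => ‖a i z‖ ^ 2 * ‖b z‖ ^ 2) =
      av N (fun z => ‖b z‖ ^ 2 * ∑ i ∈ s, ‖a i z‖ ^ 2) := by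
    rw [← av_sum]
    congr 1
    funext z
    rw [mul_sum]
    exact sum_congr rfl fun i _ => mul_comm _ _
  have h2 := av_cs N (fun z => ‖b z‖ ^ 2) (fun z => ∑ i ∈ s, ‖a i z‖ ^ 2) (fun k => sq_nonneg _)
  have h3 : av N (fun z => ‖b z‖ ^ 2 * (∑ i ∈ s, ‖a i z‖ ^ 2) ^ 2) ≤
      ∑ i ∈ s, av N (fun z => ‖a i z‖ ^ 2 * ‖b z‖ ^ 2) +
        ∑ i ∈ s, ∑ i' ∈ s.erase i, av N (fun z => ‖a i z * a i' z * b z‖ ^ 2) := by
    have h4 : ∑ i ∈ s, av N (fun z => ‖a i z‖ ^ 2 * ‖b z‖ ^ 2) +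
        ∑ i ∈ s, ∑ i' ∈ s.erase i, av N (fun z => ‖a i z * a i' z * b z‖ ^ 2) =
        av N (fun z => ∑ i ∈ s, (‖a i z‖ ^ 2 * ‖b z‖ ^ 2 +
          ∑ i' ∈ s.erase i, ‖a i z * a i' z * b z‖ ^ 2)) := by
      rw [av_sum, ← sum_add_distrib]
      refine sum_congr rfl fun i _ => ?_
      rw [av_add, av_sum]
    rw [h4]
    apply av_mono
    intro k
    rw [sq (∑ i ∈ s, ‖a i (rt N k)‖ ^ 2), sum_mul_sum, mul_sum]
    refine sum_le_sum fun i hi => ?_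
    rw [← add_sum_erase s _ hi, mul_add]
    refine add_le_add ?_ (le_of_eq ?_)
    · have h5 : ‖a i (rt N k)‖ ^ 2 ≤ 1 := by
        have := ha i hi k
        have h0 := norm_nonneg (a i (rt N k))
        nlinarith
      have h6 : 0 ≤ ‖a i (rt N k)‖ ^ 2 := sq_nonneg _
      have h7 : 0 ≤ ‖b (rt N k)‖ ^ 2 := sq_nonneg _
      calc ‖b (rt N k)‖ ^ 2 * (‖a i (rt N k)‖ ^ 2 * ‖a i (rt N k)‖ ^ 2)
          ≤ ‖b (rt N k)‖ ^ 2 * (‖a i (rt N k)‖ ^ 2 * 1) :=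
            mul_le_mul_of_nonneg_left (mul_le_mul_of_nonneg_left h5 h6) h7
        _ = ‖a i (rt N k)‖ ^ 2 * ‖b (rt N k)‖ ^ 2 := by ring
    · rw [mul_sum]
      refine sum_congr rfl fun i' _ => ?_
      rw [norm_mul, norm_mul]
      ring
  refine le_trans (le_of_eq (congrArg (fun x => x ^ 2) h1))
    (le_trans h2 (mul_le_mul_of_nonneg_left h3 ?_))
  exact av_nonneg N _ fun k => sq_nonneg _

end Pool.Agent.Lib.MP_fed790_nt.QP
end

section

/-!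
# QP B3r: representations by `d j + d' j'`

Let `ρ c = #{(j,j') ∈ [0,J)² : d j + d' j' = c}`. Since `gcd(d,d') = 1`, a number `j`
occurs in a solution iff `j ≡ j0(c) mod d'` (where `d j0 ≡ c mod d'`), `0 ≤ j < J` and
`0 ≤ c - d j < J d'`, i.e. `⌊(c - J d')/d⌋ < j ≤ ⌊c/d⌋` (`j'` is then determined). So `ρ c` is the
number of `j` in the class `j0(c)` mod `d'` in the interval `[lo, hi)`,
`lo = max 0 (⌊(c - J d')/d⌋ + 1)`, `hi = min J (⌊c/d⌋ + 1)`. By `card_class`,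
`|ρ c - (hi - lo)⁺/d'| ≤ 1`, where `x⁺ = max x 0`. If `c ≤ c'`, then `lo ≤ lo' ≤ lo + (c'-c)/d + 1`
and the same for `hi`, hence `|(hi - lo)⁺ - (hi' - lo')⁺| ≤ (c' - c)/d + 1`. So
`|ρ c - ρ c'| ≤ 2 + ((c'-c)/d + 1)/d' ≤ 3 + (c' - c)/(d d')`.
-/

open Finset

namespace Pool.Agent.Lib.MP_fed790_nt.QP

private theorem b3r_count (d d' J : ℕ) (hd : 0 < d) (hd' : 0 < d') (hcop : d.Coprime d') (c : ℤ) :
    ∃ lo hi : ℤ, lo = max 0 ((c - J * d') / d + 1) ∧ hi = max lo (min J (c / d + 1)) ∧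
    |(((range J ×ˢ range J).filter (fun p => (d : ℤ) * p.1 + d' * p.2 = c)).card : ℝ) -
      ((hi : ℝ) - lo) / d'| ≤ 1 := by
  classical
  have hdZ : (0 : ℤ) < d := by exact_mod_cast hd
  have hdZ' : (0 : ℤ) < d' := by exact_mod_cast hd'
  set lo : ℤ := max 0 ((c - J * d') / d + 1) with hlo
  set hi : ℤ := max lo (min J (c / d + 1)) with hhi
  refine ⟨lo, hi, rfl, rfl, ?_⟩
  have hbez : (d : ℤ) * Nat.gcdA d d' + d' * Nat.gcdB d d' = 1 := by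
    have := Nat.gcd_eq_gcd_ab d d'
    rw [hcop] at this
    push_cast at this
    linarith
  set u : ℤ := Nat.gcdA d d' with hu
  set v : ℤ := Nat.gcdB d d' with hv
  have hcard : ((range J ×ˢ range J).filter (fun p => (d : ℤ) * p.1 + d' * p.2 = c)).card
      = ((Ico lo hi).filter (fun n => (d' : ℤ) ∣ n - c * u)).card := by
    apply Finset.card_bij (fun p _ => ((p.1 : ℕ) : ℤ))
    · rintro ⟨j, j'⟩ hp
      simp only [Finset.mem_filter, Finset.mem_product, Finset.mem_range] at hp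
      obtain ⟨⟨hj, hj'⟩, he⟩ := hp
      simp only [Finset.mem_filter, Finset.mem_Ico]
      have hjZ : (j : ℤ) < J := by exact_mod_cast hj
      have hjZ' : (j' : ℤ) < J := by exact_mod_cast hj'
      have hj0 : (0 : ℤ) ≤ j := by positivity
      have hj0' : (0 : ℤ) ≤ j' := by positivity
      refine ⟨⟨?_, ?_⟩, ?_⟩
      · rw [hlo, max_le_iff]
        refine ⟨hj0, ?_⟩
        have : (c - J * d') / d < j := by
          rw [Int.ediv_lt_iff_lt_mul hdZ]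
          have : (j' : ℤ) * d' < J * d' := mul_lt_mul_of_pos_right hjZ' hdZ'
          nlinarith
        omega
      · rw [hhi, lt_max_iff]
        right
        rw [lt_min_iff]
        refine ⟨hjZ, ?_⟩
        have : (j : ℤ) ≤ c / d := by
          rw [Int.le_ediv_iff_mul_le hdZ]
          have : 0 ≤ (d' : ℤ) * j' := by positivity
          linarith
        omega
      · have h1 : (j : ℤ) - c * u = d' * (j * v - j' * u) := by
          have h2 : (j : ℤ) * (d * u + d' * v) = j := by rw [hbez]; ring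
          rw [← he]
          linear_combination (-(1 : ℤ)) * h2
        exact ⟨_, h1⟩
    · rintro ⟨j, j'⟩ hp ⟨i, i'⟩ hp' heq
      simp only [Finset.mem_filter, Finset.mem_product, Finset.mem_range] at hp hp'
      have hji : j = i := by exact_mod_cast heq
      subst hji
      have : (d' : ℤ) * j' = d' * i' := by linarith [hp.2, hp'.2]
      have h3 : (j' : ℤ) = i' := mul_left_cancel₀ hdZ'.ne' this
      have : j' = i' := by exact_mod_cast h3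
      rw [this]
    · intro n hn
      simp only [Finset.mem_filter, Finset.mem_Ico] at hn
      obtain ⟨⟨hn1, hn2⟩, m, hm⟩ := hn
      have hn0 : 0 ≤ n := le_trans (le_max_left _ _) hn1
      have hn3 : (c - J * d') / d < n := by
        have := le_trans (le_max_right 0 ((c - J * d') / d + 1)) hn1
        omega
      have hn4 : n < min (J : ℤ) (c / d + 1) := by
        rw [hhi, lt_max_iff] at hn2
        rcases hn2 with h | h
        · omega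
        · exact h
      rw [lt_min_iff] at hn4
      have hn5 : n ≤ c / d := by omega
      rw [Int.le_ediv_iff_mul_le hdZ] at hn5
      rw [Int.ediv_lt_iff_lt_mul hdZ] at hn3
      -- the second coordinate
      have hkey : c - n * d = d' * (c * v - d * m) := by
        have h2 : c * (d * u + d' * v) = c := by rw [hbez]; ring
        have h3 : n = c * u + d' * m := by linarith
        rw [h3]
        linear_combination (-(1 : ℤ)) * h2
      set w : ℤ := c * v - d * m with hw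
      have hw0 : 0 ≤ w := by
        by_contra hcon
        push Not at hcon
        have : (d' : ℤ) * w < 0 := mul_neg_of_pos_of_neg hdZ' hcon
        linarith
      have hwJ : w < J := by
        by_contra hcon
        push Not at hcon
        have : (d' : ℤ) * J ≤ d' * w := mul_le_mul_of_nonneg_left hcon hdZ'.le
        linarith
      refine ⟨(n.toNat, w.toNat), ?_, ?_⟩
      · simp only [Finset.mem_filter, Finset.mem_product, Finset.mem_range]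
        refine ⟨⟨by omega, by omega⟩, ?_⟩
        rw [Int.toNat_of_nonneg hn0, Int.toNat_of_nonneg hw0]
        linarith
      · simp only [Int.toNat_of_nonneg hn0]
  rw [hcard]
  exact card_class d' hd' (c * u) lo hi (le_max_left _ _)

private theorem b3r_aux (d d' J : ℕ) (hd : 0 < d) (hd' : 0 < d') (hcop : d.Coprime d') (c c' : ℤ)
    (hcc : c ≤ c') :
    |(((range J ×ˢ range J).filter (fun p => (d : ℤ) * p.1 + d' * p.2 = c)).card : ℝ) -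
      ((range J ×ˢ range J).filter (fun p => (d : ℤ) * p.1 + d' * p.2 = c')).card| ≤
      3 + |(c : ℝ) - c'| / (d * d') := by
  have hdZ : (0 : ℤ) < d := by exact_mod_cast hd
  have hdR : (0 : ℝ) < d := by exact_mod_cast hd
  have hdR' : (1 : ℝ) ≤ d' := by exact_mod_cast hd'
  obtain ⟨lo, hi, hlo, hhi, h1⟩ := b3r_count d d' J hd hd' hcop c
  obtain ⟨lo', hi', hlo', hhi', h2⟩ := b3r_count d d' J hd hd' hcop c'
  have hfl : ∀ x y : ℤ, x ≤ y → x / d ≤ y / d ∧ y / d ≤ x / d + (y - x) / d + 1 := by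
    intro x y hxy
    refine ⟨Int.ediv_le_ediv hdZ hxy, ?_⟩
    have h3 : y / d < x / d + (y - x) / d + 2 := by
      rw [Int.ediv_lt_iff_lt_mul hdZ]
      have h4 := Int.lt_ediv_add_one_mul_self x hdZ
      have h5 := Int.lt_ediv_add_one_mul_self (y - x) hdZ
      nlinarith
    omega
  have ha := hfl (c - J * d') (c' - J * d') (by linarith)
  have hb := hfl c c' hcc
  have he : c' - J * d' - (c - J * d') = c' - c := by ring
  rw [he] at ha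
  set E : ℤ := (c' - c) / d + 1 with hE
  have hE0 : 0 ≤ (c' - c) / (d : ℤ) := Int.ediv_nonneg (by linarith) hdZ.le
  have hF : |(hi - lo) - (hi' - lo')| ≤ E := by
    rw [hlo, hhi, hlo', hhi', abs_le]
    constructor <;> omega
  have hER : (E : ℝ) ≤ (c' - c) / d + 1 := by
    rw [hE]
    push_cast
    have h6 : (((c' - c) / (d : ℤ) : ℤ) : ℝ) ≤ ((c' : ℝ) - c) / d := by
      rw [le_div_iff₀ hdR]
      have := Int.ediv_mul_le (c' - c) hdZ.ne'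
      exact_mod_cast this
    linarith
  have hFR : |((hi : ℝ) - lo) - ((hi' : ℝ) - lo')| ≤ (c' - c) / d + 1 := by
    have : |((hi : ℝ) - lo) - ((hi' : ℝ) - lo')| ≤ E := by exact_mod_cast hF
    linarith
  have hdiv : |((hi : ℝ) - lo) / d' - ((hi' : ℝ) - lo') / d'| ≤ (c' - c) / (d * d') + 1 := by
    rw [← sub_div, abs_div, abs_of_pos (by linarith : (0 : ℝ) < d'), div_le_iff₀ (by linarith)]
    have h7 : ((c' : ℝ) - c) / (d * d') * d' = (c' - c) / d := by field_simp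
    nlinarith
  have hcR : |(c : ℝ) - c'| = c' - c := by
    rw [abs_sub_comm, abs_of_nonneg]
    have : (c : ℝ) ≤ c' := by exact_mod_cast hcc
    linarith
  rw [hcR]
  rw [abs_le] at h1 h2 hdiv ⊢
  constructor <;> linarith [h1.1, h1.2, h2.1, h2.2, hdiv.1, hdiv.2]

theorem rho_lip (d d' J : ℕ) (hd : 0 < d) (hd' : 0 < d') (hcop : d.Coprime d') (c c' : ℤ) :
    |(((range J ×ˢ range J).filter (fun p => (d : ℤ) * p.1 + d' * p.2 = c)).card : ℝ) -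
      ((range J ×ˢ range J).filter (fun p => (d : ℤ) * p.1 + d' * p.2 = c')).card| ≤
      3 + |(c : ℝ) - c'| / (d * d') := by
  rcases le_total c c' with h | h
  · exact b3r_aux d d' J hd hd' hcop c c' h
  · have := b3r_aux d d' J hd hd' hcop c' c h
    rw [abs_sub_comm] at this
    rwa [abs_sub_comm (c : ℝ) c']

end Pool.Agent.Lib.MP_fed790_nt.QP
end

section

/-!
# QP B4: the sup bound

Put `M = r w`, `I = [n0, n0 + M)`, `g0 = gcd(D,D')`, which divides `q0`, which divides `w`.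

1. We may assume `D, D' > 0`: replacing `j` by `J - 1 - j` changes `D` to `-D` and `g` to
   `g - D (J-1)` (`Finset.sum_range_reflect`). Write `D = g0 d`, `D' = g0 d'`, `gcd(d,d') = 1`.
2. `∑_{j,j' < J} b (g - D j - D' j') = ∑_{n ∈ I} b n ρ' n`, where
   `ρ' n = #{(j,j') : D j + D' j' = g - n}` (`b` vanishes outside `I`). If `g0 ∤ g - n`, then
   `ρ' n = 0`; otherwise `ρ' n = ρ((g - n)/g0)` with `ρ` of `rho_lip`.
3. Partition `I` into the windows `[n0 + i w, n0 + (i+1) w)`, `i < r`, and each window into its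
   classes mod `q0`. Since `g0 ∣ q0`, either all or no elements `n` of a cell satisfy
   `g0 ∣ g - n`. On a nonempty cell `𝒞`, with `n* ∈ 𝒞`, by `CellZero`,
   `|∑_{n ∈ 𝒞} b n ρ' n| = |∑_{n ∈ 𝒞} b n (ρ' n - ρ' n*)| ≤ 2 ∑_{n ∈ 𝒞, g0 ∣ g - n} K`, where
   `K = 3 + (w/g0)/(d d')`, by `rho_lip` (`|(n - n*)/g0| ≤ w/g0`).
4. Sum: `2 K #{n ∈ I : g0 ∣ g - n} = 2 K r w / g0 = 6 M/g0 + 2 M w/(g0² d d')
   ≤ 8 M + 2 M w/(|D| |D'|)`.
-/

open Finset

namespace Pool.Agent.Lib.MP_fed790_nt.QP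

private theorem b4_window {M : Type*} [AddCommMonoid M] (G : ℤ → M) (u v : ℤ) (q0 : ℕ)
    (hq0 : 0 < q0) :
    ∑ a ∈ range q0, ∑ n ∈ (Ico u v).filter (fun n => (q0 : ℤ) ∣ n - (a : ℕ)), G n =
      ∑ n ∈ Ico u v, G n := by
  have hqZ : (0 : ℤ) < q0 := by exact_mod_cast hq0
  rw [← Finset.sum_fiberwise_of_maps_to (s := Ico u v) (t := range q0)
    (g := fun n : ℤ => (n % (q0 : ℤ)).toNat) ?_ G]
  · refine Finset.sum_congr rfl (fun a ha => ?_)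
    refine Finset.sum_congr ?_ (fun _ _ => rfl)
    refine Finset.filter_congr (fun n _ => ?_)
    have ha' : a < q0 := Finset.mem_range.1 ha
    have h1 := Int.emod_nonneg n hqZ.ne'
    have h2 := Int.emod_lt_of_pos n hqZ
    have h3 : (a : ℤ) % q0 = a := Int.emod_eq_of_lt (by positivity) (by exact_mod_cast ha')
    constructor
    · intro h
      have h4 := Int.emod_eq_emod_iff_emod_sub_eq_zero.2 (Int.emod_eq_zero_of_dvd h)
      rw [h3] at h4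
      rw [h4]
      simp
    · intro h
      have h4 : n % q0 = a := by
        have : ((n % (q0 : ℤ)).toNat : ℤ) = a := by exact_mod_cast h
        rwa [Int.toNat_of_nonneg h1] at this
      apply Int.dvd_of_emod_eq_zero
      apply Int.emod_eq_emod_iff_emod_sub_eq_zero.1
      rw [h4, h3]
  · intro n _
    have h1 := Int.emod_nonneg n hqZ.ne'
    have h2 := Int.emod_lt_of_pos n hqZ
    rw [Finset.mem_range]
    omega

private theorem b4_cells {M : Type*} [AddCommMonoid M] (G : ℤ → M) (n0 : ℤ) (w r q0 : ℕ)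
    (hq0 : 0 < q0) :
    ∑ n ∈ Ico n0 (n0 + r * w), G n = ∑ i ∈ range r, ∑ a ∈ range q0,
      ∑ n ∈ (Ico (n0 + (i : ℕ) * w) (n0 + ((i : ℕ) + 1) * w)).filter
        (fun n => (q0 : ℤ) ∣ n - (a : ℕ)), G n := by
  simp_rw [b4_window _ _ _ _ hq0]
  induction r with
  | zero => simp
  | succ r ih =>
    rw [Finset.sum_range_succ, ← ih, ← Finset.Ico_union_Ico_eq_Ico (b := n0 + r * w),
      Finset.sum_union]
    · push_cast
      rfl
    · rw [Finset.disjoint_left]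
      intro x hx hx'
      rw [Finset.mem_Ico] at hx hx'
      omega
    · have : (0 : ℤ) ≤ r * w := by positivity
      linarith
    · push_cast
      have : (0 : ℤ) ≤ w := by positivity
      linarith

private theorem b4_count (n0 g : ℤ) (m g0 : ℕ) (hg0 : 0 < g0) :
    ((Ico n0 (n0 + m * g0)).filter (fun n => (g0 : ℤ) ∣ g - n)).card = m := by
  have hgZ : (0 : ℤ) < g0 := by exact_mod_cast hg0
  have h1 : (Ico n0 (n0 + m * g0)).filter (fun n => (g0 : ℤ) ∣ g - n) =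
      (Ico n0 (n0 + m * g0)).filter (fun n => n ≡ g [ZMOD g0]) := by
    refine Finset.filter_congr (fun n _ => ?_)
    rw [Int.modEq_iff_dvd]
  have h2 := Int.Ico_filter_modEq_card n0 (n0 + m * g0) hgZ g
  rw [h1]
  have h3 : ((n0 + m * g0 : ℤ) : ℚ) - g = ((n0 : ℚ) - g) + m * g0 := by push_cast; ring
  have h4 : (((n0 + m * g0 : ℤ) : ℚ) - g) / ((g0 : ℤ) : ℚ) = ((n0 : ℚ) - g) / ((g0 : ℤ) : ℚ) + (m : ℤ) := by
    rw [h3]
    have : ((g0 : ℤ) : ℚ) ≠ 0 := by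
      exact_mod_cast hg0.ne'
    field_simp
    push_cast
    ring
  rw [h4, Int.ceil_add_intCast] at h2
  have h5 : max (⌈((n0 : ℚ) - g) / ((g0 : ℤ) : ℚ)⌉ + (m : ℤ) - ⌈((n0 : ℚ) - g) / ((g0 : ℤ) : ℚ)⌉) 0
      = (m : ℤ) := by
    rw [max_eq_left] <;> [ring; (ring_nf; positivity)]
  rw [h5] at h2
  exact_mod_cast h2

private theorem b4_pos (b : ℤ → ℂ) (n0 : ℤ) (w r q0 J : ℕ) (hw : 0 < w) (hq : q0 ∣ w)
    (hb0 : ∀ n, n ∉ Ico n0 (n0 + r * w) → b n = 0) (hb : ∀ n, ‖b n‖ ≤ 2)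
    (hcell : CellZero n0 w r q0 b) (d d' g0 : ℕ) (hd : 0 < d) (hd' : 0 < d')
    (hcop : d.Coprime d') (hg0 : 0 < g0) (hg : g0 ∣ q0) (g : ℤ) :
    ‖∑ j ∈ range J, ∑ j' ∈ range J, b (g - (g0 * d : ℕ) * j - (g0 * d' : ℕ) * j')‖ ≤
      8 * (r * w) + 2 * (r * w) * w / ((g0 * d : ℕ) * (g0 * d' : ℕ)) := by
  classical
  have hq0 : 0 < q0 := Nat.pos_of_dvd_of_pos hq hw
  obtain ⟨w', hw'⟩ : g0 ∣ w := hg.trans hq
  have hgZ : (0 : ℤ) < g0 := by exact_mod_cast hg0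
  have hgR : (1 : ℝ) ≤ g0 := by exact_mod_cast hg0
  have hdR : (1 : ℝ) ≤ d := by exact_mod_cast hd
  have hdR' : (1 : ℝ) ≤ d' := by exact_mod_cast hd'
  have hwR : (w : ℝ) = g0 * w' := by exact_mod_cast hw'
  have hwZ : (w : ℤ) = g0 * w' := by exact_mod_cast hw'
  set K : ℝ := 3 + w' / (d * d') with hK
  have hK0 : 0 ≤ K := by positivity
  -- the counting function
  set ρ : ℤ → ℕ := fun n => ((range J ×ˢ range J).filter
    (fun p => g - (g0 * d : ℕ) * (p.1 : ℤ) - (g0 * d' : ℕ) * (p.2 : ℤ) = n)).card with hρ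
  have hsum : ∑ j ∈ range J, ∑ j' ∈ range J, b (g - (g0 * d : ℕ) * j - (g0 * d' : ℕ) * j') =
      ∑ n ∈ Ico n0 (n0 + r * w), (ρ n : ℂ) * b n := by
    rw [← Finset.sum_product' (range J) (range J)
      (fun j j' => b (g - (g0 * d : ℕ) * (j : ℤ) - (g0 * d' : ℕ) * (j' : ℤ)))]
    have h1 : ∀ n, (ρ n : ℂ) * b n = ∑ p ∈ range J ×ˢ range J,
        if g - (g0 * d : ℕ) * (p.1 : ℤ) - (g0 * d' : ℕ) * (p.2 : ℤ) = n then b n else 0 := by
      intro n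
      rw [← Finset.sum_filter, Finset.sum_const, nsmul_eq_mul]
    simp_rw [h1]
    rw [Finset.sum_comm]
    refine Finset.sum_congr rfl (fun p _ => ?_)
    rw [Finset.sum_ite_eq]
    split_ifs with h
    · rfl
    · exact hb0 _ h
  have hρ0 : ∀ n, ¬ ((g0 : ℤ) ∣ g - n) → ρ n = 0 := by
    intro n hn
    rw [hρ]
    simp only [Finset.card_eq_zero]
    rw [Finset.filter_eq_empty_iff]
    intro p _ hp
    apply hn
    refine ⟨d * p.1 + d' * p.2, ?_⟩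
    rw [← hp]
    push_cast
    ring
  have hρc : ∀ n c, g - n = g0 * c → ρ n = ((range J ×ˢ range J).filter
      (fun p => (d : ℤ) * p.1 + d' * p.2 = c)).card := by
    intro n c hc
    rw [hρ]
    simp only
    congr 1
    refine Finset.filter_congr (fun p _ => ?_)
    constructor
    · intro h
      have h2 : (g0 : ℤ) * (d * p.1 + d' * p.2) = g0 * c := by
        rw [← hc, ← h]
        push_cast
        ring
      exact mul_left_cancel₀ hgZ.ne' h2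
    · intro h
      have h2 : n = g - g0 * c := by linarith
      rw [h2, ← h]
      push_cast
      ring
  have hlip : ∀ n n' : ℤ, (g0 : ℤ) ∣ n - n' → |n - n'| ≤ w →
      |(ρ n : ℝ) - ρ n'| ≤ if (g0 : ℤ) ∣ g - n then K else 0 := by
    intro n n' hnn hle
    split_ifs with h
    · obtain ⟨c, hc⟩ := h
      obtain ⟨e, he⟩ := hnn
      have hc' : g - n' = g0 * (c + e) := by rw [mul_add, ← hc, ← he]; ring
      rw [hρc n c hc, hρc n' (c + e) hc']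
      refine le_trans (rho_lip d d' J hd hd' hcop c (c + e)) ?_
      rw [hK]
      have h5 : |(c : ℝ) - ((c + e : ℤ) : ℝ)| ≤ w' := by
        have h6 : |(c : ℤ) - (c + e)| ≤ w' := by
          rw [he, abs_mul, hwZ, abs_of_pos hgZ] at hle
          have := le_of_mul_le_mul_left hle hgZ
          rwa [show c - (c + e) = -e by ring, abs_neg]
        exact_mod_cast h6
      gcongr
    · have h' : ¬ ((g0 : ℤ) ∣ g - n') := by
        intro h2
        apply h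
        have := dvd_sub h2 hnn
        rwa [show g - n' - (n - n') = g - n by ring] at this
      rw [hρ0 n h, hρ0 n' h']
      simp
  -- the bound on a cell
  have hcb : ∀ i < r, ∀ a : ℤ, ‖∑ n ∈ (Ico (n0 + i * w) (n0 + (i + 1) * w)).filter
      (fun n => (q0 : ℤ) ∣ n - a), (ρ n : ℂ) * b n‖ ≤
      ∑ n ∈ (Ico (n0 + i * w) (n0 + (i + 1) * w)).filter
      (fun n => (q0 : ℤ) ∣ n - a), 2 * (if (g0 : ℤ) ∣ g - n then K else 0) := by
    intro i hi a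
    rcases Finset.eq_empty_or_nonempty ((Ico (n0 + i * w) (n0 + (i + 1) * w)).filter
      (fun n => (q0 : ℤ) ∣ n - a)) with hE | ⟨m, hm⟩
    · rw [hE]
      simp
    · have h1 : ∑ n ∈ (Ico (n0 + i * w) (n0 + (i + 1) * w)).filter
          (fun n => (q0 : ℤ) ∣ n - a), (ρ n : ℂ) * b n =
          ∑ n ∈ (Ico (n0 + i * w) (n0 + (i + 1) * w)).filter
          (fun n => (q0 : ℤ) ∣ n - a), ((ρ n : ℂ) - ρ m) * b n := by
        simp_rw [sub_mul]
        rw [Finset.sum_sub_distrib, ← Finset.mul_sum, hcell i hi a, mul_zero, sub_zero]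
      rw [h1]
      refine le_trans (norm_sum_le _ _) (Finset.sum_le_sum (fun n hn => ?_))
      rw [norm_mul, mul_comm]
      rw [Finset.mem_filter, Finset.mem_Ico] at hm hn
      have h2 : ‖(ρ n : ℂ) - ρ m‖ = |(ρ n : ℝ) - ρ m| := by
        rw [← Complex.ofReal_natCast, ← Complex.ofReal_natCast, ← Complex.ofReal_sub,
          Complex.norm_real, Real.norm_eq_abs]
      rw [h2]
      have h3 : (q0 : ℤ) ∣ n - m := by
        have := dvd_sub hn.2 hm.2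
        rwa [show n - a - (m - a) = n - m by ring] at this
      have h4 : (g0 : ℤ) ∣ n - m := (Int.natCast_dvd_natCast.2 hg).trans h3
      have h5 : |n - m| ≤ w := by
        rw [abs_le]
        constructor <;> nlinarith [hn.1.1, hn.1.2, hm.1.1, hm.1.2]
      have h6 := hlip n m h4 h5
      have h7 : 0 ≤ (if (g0 : ℤ) ∣ g - n then K else 0) := by split_ifs <;> [exact hK0; exact le_rfl]
      exact mul_le_mul (hb n) h6 (abs_nonneg _) (by norm_num)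
  rw [hsum, b4_cells _ n0 w r q0 hq0]
  have h1 : ‖∑ i ∈ range r, ∑ a ∈ range q0,
      ∑ n ∈ (Ico (n0 + (i : ℕ) * w) (n0 + ((i : ℕ) + 1) * w)).filter
        (fun n => (q0 : ℤ) ∣ n - (a : ℕ)), (ρ n : ℂ) * b n‖ ≤
      ∑ i ∈ range r, ∑ a ∈ range q0,
      ∑ n ∈ (Ico (n0 + (i : ℕ) * w) (n0 + ((i : ℕ) + 1) * w)).filter
        (fun n => (q0 : ℤ) ∣ n - (a : ℕ)), 2 * (if (g0 : ℤ) ∣ g - n then K else 0) := by
    refine le_trans (norm_sum_le _ _) (Finset.sum_le_sum (fun i hi => ?_))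
    refine le_trans (norm_sum_le _ _) (Finset.sum_le_sum (fun a _ => ?_))
    exact hcb i (Finset.mem_range.1 hi) a
  refine le_trans h1 ?_
  rw [← b4_cells _ n0 w r q0 hq0, ← Finset.mul_sum, ← Finset.sum_filter, Finset.sum_const,
    nsmul_eq_mul]
  have h2 : ((r : ℤ) * w) = ((r * w' : ℕ) : ℤ) * g0 := by
    rw [hwZ]
    push_cast
    ring
  rw [h2, b4_count n0 g (r * w') g0 hg0, hK, hwR]
  push_cast
  have h3 : 2 * ((r : ℝ) * w' * (3 + w' / (d * d'))) = 6 * (r * w') +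
      2 * (r * (g0 * w')) * (g0 * w') / (g0 * d * (g0 * d')) := by
    have : (g0 : ℝ) ≠ 0 := by positivity
    have : (d : ℝ) ≠ 0 := by positivity
    have : (d' : ℝ) ≠ 0 := by positivity
    field_simp
    ring
  rw [h3]
  have h4 : 6 * ((r : ℝ) * w') ≤ 8 * (r * (g0 * w')) := by
    have h5 : (r : ℝ) * w' ≤ r * (g0 * w') := by
      have : (w' : ℝ) ≤ g0 * w' := le_mul_of_one_le_left (by positivity) hgR
      gcongr
    have h6 : 0 ≤ (r : ℝ) * (g0 * w') := by positivity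
    linarith
  linarith

private theorem b4_reflect {M : Type*} [AddCommMonoid M] (φ : ℤ → M) (J : ℕ) (D g : ℤ) :
    ∑ j ∈ range J, φ (g - D * j) = ∑ j ∈ range J, φ (g - D * (J - 1) - (-D) * j) := by
  rw [← Finset.sum_range_reflect]
  refine Finset.sum_congr rfl (fun j hj => ?_)
  have hj' : j < J := Finset.mem_range.1 hj
  congr 1
  have : ((J - 1 - j : ℕ) : ℤ) = (J : ℤ) - 1 - j := by omega
  rw [this]
  ring

theorem supbound (b : ℤ → ℂ) (n0 : ℤ) (w r q0 J : ℕ) (hw : 0 < w) (hq : q0 ∣ w)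
    (hb0 : ∀ n, n ∉ Ico n0 (n0 + r * w) → b n = 0) (hb : ∀ n, ‖b n‖ ≤ 2)
    (hcell : CellZero n0 w r q0 b) (D D' : ℤ) (hD : D ≠ 0) (hD' : D' ≠ 0)
    (hg : Int.gcd D D' ∣ q0) (g : ℤ) :
    ‖∑ j ∈ range J, ∑ j' ∈ range J, b (g - D * j - D' * j')‖ ≤
      8 * (r * w) + 2 * (r * w) * w / (|(D : ℝ)| * |(D' : ℝ)|) := by
  obtain ⟨d, d', hcop, h1, h2⟩ := Nat.exists_coprime D.natAbs D'.natAbs
  set g0 : ℕ := Nat.gcd D.natAbs D'.natAbs with hg0
  have hg' : g0 ∣ q0 := by rwa [Int.gcd_eq_natAbs_gcd_natAbs] at hg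
  have hm : 0 < D.natAbs := Int.natAbs_pos.2 hD
  have hm' : 0 < D'.natAbs := Int.natAbs_pos.2 hD'
  have hg0p : 0 < g0 := Nat.gcd_pos_of_pos_left _ hm
  have hd : 0 < d := by
    rcases Nat.eq_zero_or_pos d with h | h
    · rw [h, zero_mul] at h1
      omega
    · exact h
  have hd' : 0 < d' := by
    rcases Nat.eq_zero_or_pos d' with h | h
    · rw [h, zero_mul] at h2
      omega
    · exact h
  have hpos := b4_pos b n0 w r q0 J hw hq hb0 hb hcell d d' g0 hd hd' hcop hg0p hg'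
  rw [mul_comm g0 d, mul_comm g0 d', ← h1, ← h2] at hpos
  have hR : (D.natAbs : ℝ) = |(D : ℝ)| := by
    rw [Nat.cast_natAbs, Int.cast_abs]
  have hR' : (D'.natAbs : ℝ) = |(D' : ℝ)| := by
    rw [Nat.cast_natAbs, Int.cast_abs]
  rw [hR, hR'] at hpos
  -- signs
  have hD1 : ∀ g : ℤ, ‖∑ j ∈ range J, ∑ j' ∈ range J, b (g - (D.natAbs : ℤ) * j - D' * j')‖ ≤
      8 * (r * w) + 2 * (r * w) * w / (|(D : ℝ)| * |(D' : ℝ)|) := by
    intro g
    rcases Int.natAbs_eq D' with h | h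
    · rw [h, ← h]
      have := hpos g
      rwa [← h] at this
    · have h3 : ∀ j : ℕ, ∑ j' ∈ range J, b (g - (D.natAbs : ℤ) * j - D' * j') =
          ∑ j' ∈ range J, b (g - D' * (J - 1) - (D.natAbs : ℤ) * j - (D'.natAbs : ℤ) * j') := by
        intro j
        rw [b4_reflect b J D' (g - (D.natAbs : ℤ) * j)]
        refine Finset.sum_congr rfl (fun j' _ => ?_)
        congr 1
        have : (D'.natAbs : ℤ) = -D' := by omega
        rw [this]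
        ring
      simp_rw [h3]
      exact hpos _
  rcases Int.natAbs_eq D with h | h
  · have := hD1 g
    rwa [← h] at this
  · have h3 := b4_reflect (fun x => ∑ j' ∈ range J, b (x - D' * j')) J D g
    rw [h3]
    have : -D = (D.natAbs : ℤ) := by omega
    rw [this]
    exact hD1 _

end Pool.Agent.Lib.MP_fed790_nt.QP
end

section

/-!
# QP B6: the Fejér kernel

**`norm_AJ_le`.** Triangle inequality (`J = 0` gives `0`).

**`fejer`.** For `|z| = 1`: expand `‖∑_{j<J} z^(Dj)‖² = ∑_{j,j' < J} z^(D(j-j'))` (`conj z = z⁻¹`) and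
group by `d = j - j'`; there are `J - |d|` pairs with difference `d`. Divide by `J`
(`J ‖AJ‖² = ‖∑ z^(Dj)‖²/J`). (Alternative: induction on `J`.)
-/

open Finset

namespace Pool.Agent.Lib.MP_fed790_nt.QP

theorem norm_AJ_le (J : ℕ) (D : ℤ) (z : ℂ) (hz : ‖z‖ = 1) : ‖AJ J D z‖ ≤ 1 := by
  unfold AJ
  rcases Nat.eq_zero_or_pos J with rfl | hJ
  · simp
  · rw [norm_div, Complex.norm_natCast]
    have hJ' : (0 : ℝ) < J := by exact_mod_cast hJ
    rw [div_le_one hJ']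
    calc ‖∑ j ∈ range J, z ^ (D * j)‖ ≤ ∑ j ∈ range J, ‖z ^ (D * (j : ℤ))‖ := norm_sum_le _ _
      _ = J := by
        simp [norm_zpow, hz]

private theorem b6_pos (g : ℤ → ℂ) (J : ℕ) :
    ∑ d ∈ Ioc (0 : ℤ) J, g d = ∑ j ∈ range J, g ((J : ℤ) - j) := by
  refine Finset.sum_nbij' (fun d => ((J : ℤ) - d).toNat) (fun j => (J : ℤ) - j) ?_ ?_ ?_ ?_ ?_
  · intro d hd
    simp only [mem_Ioc] at hd
    simp only [mem_range]
    omega
  · intro j hj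
    simp only [mem_range] at hj
    simp only [mem_Ioc]
    omega
  · intro d hd
    simp only [mem_Ioc] at hd
    omega
  · intro j hj
    simp only [mem_range] at hj
    omega
  · intro d hd
    simp only [mem_Ioc] at hd
    congr 1
    omega

private theorem b6_neg (g : ℤ → ℂ) (J : ℕ) :
    ∑ d ∈ Icc (-(J : ℤ)) 0, g d = ∑ j ∈ range (J + 1), g ((j : ℤ) - J) := by
  refine Finset.sum_nbij' (fun d => (d + (J : ℤ)).toNat) (fun j => (j : ℤ) - J) ?_ ?_ ?_ ?_ ?_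
  · intro d hd
    simp only [mem_Icc] at hd
    simp only [mem_range]
    omega
  · intro j hj
    simp only [mem_range] at hj
    simp only [mem_Icc]
    omega
  · intro d hd
    simp only [mem_Icc] at hd
    omega
  · intro j hj
    simp only [mem_range] at hj
    omega
  · intro d hd
    simp only [mem_Icc] at hd
    congr 1
    omega

private theorem b6_sum (g : ℤ → ℂ) (J : ℕ) :
    ∑ j ∈ range J, ∑ j' ∈ range J, g ((j : ℤ) - j') =
      ∑ d ∈ Ioo (-(J : ℤ)) J, ((J : ℂ) - ((|(d : ℝ)| : ℝ) : ℂ)) * g d := by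
  induction J with
  | zero => simp
  | succ J ih =>
    have hl : ∑ j ∈ range (J + 1), ∑ j' ∈ range (J + 1), g ((j : ℤ) - j') =
        (∑ j ∈ range J, ∑ j' ∈ range J, g ((j : ℤ) - j')) +
          (∑ j' ∈ range J, g ((J : ℤ) - j')) + ∑ j ∈ range (J + 1), g ((j : ℤ) - J) := by
      have e1 : ∀ j : ℕ, ∑ j' ∈ range (J + 1), g ((j : ℤ) - (j' : ℕ)) =
          (∑ j' ∈ range J, g ((j : ℤ) - (j' : ℕ))) + g ((j : ℤ) - J) := fun j =>
        Finset.sum_range_succ (fun j' : ℕ => g ((j : ℤ) - (j' : ℤ))) J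
      rw [Finset.sum_congr (rfl : range (J + 1) = range (J + 1)) (fun j _ => e1 j),
        Finset.sum_add_distrib,
        Finset.sum_range_succ (fun j : ℕ => ∑ j' ∈ range J, g ((j : ℤ) - (j' : ℕ)))]
    have hI : Ioo (-((J + 1 : ℕ) : ℤ)) ((J + 1 : ℕ) : ℤ) = Icc (-(J : ℤ)) J := by
      ext d
      simp only [mem_Ioo, mem_Icc]
      omega
    have hr1 : ∑ d ∈ Icc (-(J : ℤ)) J, ((J : ℂ) - ((|(d : ℝ)| : ℝ) : ℂ)) * g d =
        ∑ d ∈ Ioo (-(J : ℤ)) J, ((J : ℂ) - ((|(d : ℝ)| : ℝ) : ℂ)) * g d := by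
      symm
      apply Finset.sum_subset
      · intro d hd
        simp only [mem_Ioo] at hd
        simp only [mem_Icc]
        omega
      · intro d hd hd'
        simp only [mem_Icc] at hd
        simp only [mem_Ioo, not_and, not_lt] at hd'
        have h1 : |d| = (J : ℤ) := by
          rcases le_or_gt d (-(J : ℤ)) with h2 | h2
          · have : d = -(J : ℤ) := by omega
            rw [this, abs_neg]
            exact abs_of_nonneg (by omega)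
          · have h3 := hd' h2
            have : d = (J : ℤ) := by omega
            rw [this]
            exact abs_of_nonneg (by omega)
        have h2 : |(d : ℝ)| = (J : ℝ) := by
          rw [← Int.cast_abs, h1]
          simp
        rw [h2]
        simp
    have hr2 : ∑ d ∈ Icc (-(J : ℤ)) J, g d =
        (∑ j' ∈ range J, g ((J : ℤ) - j')) + ∑ j ∈ range (J + 1), g ((j : ℤ) - J) := by
      rw [← b6_pos, ← b6_neg, add_comm]
      rw [← Finset.sum_union]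
      · congr 1
        ext d
        simp only [mem_Icc, mem_union, mem_Ioc]
        omega
      · rw [Finset.disjoint_left]
        intro d hd hd'
        simp only [mem_Icc] at hd
        simp only [mem_Ioc] at hd'
        omega
    rw [hl, ih, hI]
    have hs : ∑ d ∈ Icc (-(J : ℤ)) J, (((J + 1 : ℕ) : ℂ) - ((|(d : ℝ)| : ℝ) : ℂ)) * g d =
        ∑ d ∈ Icc (-(J : ℤ)) J, ((J : ℂ) - ((|(d : ℝ)| : ℝ) : ℂ)) * g d +
          ∑ d ∈ Icc (-(J : ℤ)) J, g d := by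
      rw [← Finset.sum_add_distrib]
      apply Finset.sum_congr rfl
      intro d _
      push_cast
      ring
    rw [hs, hr1, hr2]
    ring

theorem fejer (J : ℕ) (hJ : 0 < J) (D : ℤ) (z : ℂ) (hz : ‖z‖ = 1) :
    (((J : ℝ) * ‖AJ J D z‖ ^ 2 : ℝ) : ℂ) =
      ∑ j ∈ Ioo (-(J : ℤ)) J, (((1 - |(j : ℝ)| / J : ℝ)) : ℂ) * z ^ (D * j) := by
  have hJ' : (J : ℂ) ≠ 0 := by exact_mod_cast hJ.ne'
  have hz0 : z ≠ 0 := by
    intro h
    rw [h, norm_zero] at hz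
    exact zero_ne_one hz
  have hw : ‖z ^ D‖ = 1 := by rw [norm_zpow, hz, one_zpow]
  have hw0 : z ^ D ≠ 0 := zpow_ne_zero _ hz0
  have hS : ∑ j ∈ range J, z ^ (D * (j : ℤ)) = ∑ j ∈ range J, (z ^ D) ^ (j : ℤ) :=
    Finset.sum_congr rfl (fun j _ => zpow_mul z D j)
  have h1 : ((‖∑ j ∈ range J, (z ^ D) ^ (j : ℤ)‖ ^ 2 : ℝ) : ℂ) =
      ∑ j ∈ range J, ∑ j' ∈ range J, (z ^ D) ^ ((j : ℤ) - j') := by
    push_cast
    rw [← Complex.mul_conj', map_sum, Finset.sum_mul_sum]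
    apply Finset.sum_congr rfl
    intro j _
    apply Finset.sum_congr rfl
    intro j' _
    rw [map_zpow₀, ← Complex.inv_eq_conj hw, zpow_sub₀ hw0, inv_zpow, div_eq_mul_inv]
  have h2 : (((J : ℝ) * ‖AJ J D z‖ ^ 2 : ℝ) : ℂ) =
      ((‖∑ j ∈ range J, (z ^ D) ^ (j : ℤ)‖ ^ 2 : ℝ) : ℂ) / J := by
    unfold AJ
    rw [hS, norm_div, Complex.norm_natCast]
    push_cast
    field_simp
  rw [h2, h1, b6_sum (fun d => (z ^ D) ^ d) J, Finset.sum_div]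
  apply Finset.sum_congr rfl
  intro d _
  rw [zpow_mul]
  push_cast
  field_simp

end Pool.Agent.Lib.MP_fed790_nt.QP
end

section

/-!
# QP B6q: the mean square of `Q_j`

Notation: `q = Fintype.card η`, `I1 = [n1, n1+M)`, `b̂ = tp I1 b`, `Rb = Rr I1 b`, `J = 2M/T0`,
`𝒥 = {j : ℤ | 2 |j| < J}`; `Q_j = ∑_{u,h} T² Rb(T j)`.

1. `Q_j = avC(|b̂|² K_j)`, `K_j(z) = ∑_{u,h} T² z^(-T j)` by `avC_Rr` (`|T j| + M ≤ N`: as
   `2|j| < J`, `|j| T0 < M`, `T ≤ 2 T0`, so `|T j| ≤ 2M`, and `N ≥ 8 T0 M`).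
2. `|Q_j| ≤ av(|b̂|² |K_j|)`, so by `av_cs` (`u = |b̂|²`, `φ = |K_j|`)
   `|Q_j|² ≤ av(|b̂|²) av(|b̂|² |K_j|²) ≤ 4M av(|b̂|² |K_j|²)`; `av |b̂|² = ∑_{n ∈ I1} |b n|² ≤ 4 M`
   by `gp` (`s = B = I1`, `m = id`, `M ≤ N`).
3. Pointwise on the unit circle: `|K_j(z)|² = ∑_{(u',h'),(u'',h'')} T'² T''² z^((T''-T') j)`, so by
   `fejer` (and `1 - |j|/J ≥ 1/2` for `2|j| ≤ J`, all terms `|K_j|² ≥ 0`)
   `∑_{j ∈ 𝒥} |K_j|² ≤ 2 ∑_{|j|<J} (1 - |j|/J) |K_j|² = 2 J ∑_{(u',h'),(u'',h'')} T'² T''²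
   |AJ J (T''-T') z|² ≤ 8 J T0⁴ ∑_{(u',h'),(u'',h'')} |AJ J (T'' - T') z|²`.
4. `av(|b̂|² ∑_{(u',h'),(u'',h'')} |AJ|²) ≤ ∑_{u',h',h''} (4 M + 6 M) = 10 t q² M`
   (`u'' = u'`: `|AJ| ≤ 1`, `av |b̂|² ≤ 4M`; `u'' ≠ u'`: `hO`).
5. So `∑_{j∈𝒥} |Q_j|² ≤ 4M * 8 J T0⁴ * 10 t q² M = 320 J T0⁴ t q² M²`.
-/

open Finset

namespace Pool.Agent.Lib.MP_fed790_nt.QP


private theorem b6q_avC_sum {σ : Type*} (N : ℕ) (s : Finset σ) (φ : σ → ℂ → ℂ) :
    avC N (fun z => ∑ i ∈ s, φ i z) = ∑ i ∈ s, avC N (φ i) := by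
  unfold avC
  rw [sum_comm, sum_div]

private theorem b6q_avC_const_mul (N : ℕ) (c : ℂ) (φ : ℂ → ℂ) :
    avC N (fun z => c * φ z) = c * avC N φ := by
  unfold avC
  rw [← mul_sum, mul_div_assoc]

private theorem b6q_norm_avC_le (N : ℕ) (φ : ℂ → ℂ) : ‖avC N φ‖ ≤ av N (fun z => ‖φ z‖) := by
  unfold avC av
  rw [norm_div, Complex.norm_natCast]
  apply div_le_div_of_nonneg_right (norm_sum_le _ _) (Nat.cast_nonneg _)

private theorem b6q_Ksq {P : Type*} [Fintype P] (τ : P → ℕ) (j : ℤ) (z : ℂ) (hz : ‖z‖ = 1) :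
    ((‖∑ p, (τ p : ℂ) ^ 2 * z ^ (-((τ p : ℤ) * j))‖ ^ 2 : ℝ) : ℂ) =
      ∑ p, ∑ p', ((τ p : ℂ) ^ 2 * (τ p' : ℂ) ^ 2) * z ^ (((τ p' : ℤ) - τ p) * j) := by
  have hz0 : z ≠ 0 := by
    rintro rfl
    simp at hz
  rw [Complex.ofReal_pow, ← Complex.mul_conj', map_sum, sum_mul_sum]
  apply sum_congr rfl
  intro p _
  apply sum_congr rfl
  intro p' _
  rw [map_mul, map_pow, Complex.conj_natCast, map_zpow₀, ← Complex.inv_eq_conj hz, inv_zpow',
    neg_neg]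
  have : z ^ (((τ p' : ℤ) - τ p) * j) = z ^ (-((τ p : ℤ) * j)) * z ^ ((τ p' : ℤ) * j) := by
    rw [← zpow_add₀ hz0]
    congr 1
    ring
  rw [this]
  ring

private theorem b6q_point {P : Type*} [Fintype P] (τ : P → ℕ) (T0 J : ℕ) (hJ : 0 < J)
    (hτ : ∀ p, (τ p) ^ 2 ≤ 2 * T0 ^ 2) (𝒥 : Finset ℤ) (h𝒥 : ∀ j ∈ 𝒥, 2 * |j| < J)
    (z : ℂ) (hz : ‖z‖ = 1) :
    ∑ j ∈ 𝒥, ‖∑ p, (τ p : ℂ) ^ 2 * z ^ (-((τ p : ℤ) * j))‖ ^ 2 ≤
      8 * J * (T0 : ℝ) ^ 4 * ∑ p, ∑ p', ‖AJ J ((τ p' : ℤ) - τ p) z‖ ^ 2 := by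
  have hJr : (0 : ℝ) < J := Nat.cast_pos.2 hJ
  set K : ℤ → ℝ := fun j => ‖∑ p, (τ p : ℂ) ^ 2 * z ^ (-((τ p : ℤ) * j))‖ ^ 2 with hK
  have hK0 : ∀ j, 0 ≤ K j := fun j => by positivity
  -- the exact identity
  have hid : ∑ j ∈ Ioo (-(J : ℤ)) J, (1 - |(j : ℝ)| / J) * K j =
      ∑ p, ∑ p', ((τ p : ℝ) ^ 2 * (τ p' : ℝ) ^ 2) * (J * ‖AJ J ((τ p' : ℤ) - τ p) z‖ ^ 2) := by
    apply Complex.ofReal_injective
    have e1 : ((∑ j ∈ Ioo (-(J : ℤ)) J, (1 - |(j : ℝ)| / J) * K j : ℝ) : ℂ) =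
        ∑ j ∈ Ioo (-(J : ℤ)) J, (((1 - |(j : ℝ)| / J : ℝ)) : ℂ) *
          ∑ p, ∑ p', ((τ p : ℂ) ^ 2 * (τ p' : ℂ) ^ 2) * z ^ (((τ p' : ℤ) - τ p) * j) := by
      rw [Complex.ofReal_sum]
      apply sum_congr rfl
      intro j _
      rw [Complex.ofReal_mul, ← b6q_Ksq τ j z hz]
    have e2 : ((∑ p, ∑ p', ((τ p : ℝ) ^ 2 * (τ p' : ℝ) ^ 2) *
        (J * ‖AJ J ((τ p' : ℤ) - τ p) z‖ ^ 2) : ℝ) : ℂ) =
        ∑ p, ∑ p', ((τ p : ℂ) ^ 2 * (τ p' : ℂ) ^ 2) *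
          ∑ j ∈ Ioo (-(J : ℤ)) J, (((1 - |(j : ℝ)| / J : ℝ)) : ℂ) *
            z ^ (((τ p' : ℤ) - τ p) * j) := by
      rw [Complex.ofReal_sum]
      apply sum_congr rfl
      intro p _
      rw [Complex.ofReal_sum]
      apply sum_congr rfl
      intro p' _
      rw [Complex.ofReal_mul, fejer J hJ ((τ p' : ℤ) - τ p) z hz]
      push_cast
      rfl
    rw [e1, e2]
    simp only [mul_sum]
    rw [sum_comm]
    apply sum_congr rfl
    intro p _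
    rw [sum_comm]
    apply sum_congr rfl
    intro p' _
    apply sum_congr rfl
    intro j _
    ring
  have h1 : ∑ j ∈ 𝒥, K j ≤ ∑ j ∈ Ioo (-(J : ℤ)) J, 2 * ((1 - |(j : ℝ)| / J) * K j) := by
    have hsub : 𝒥 ⊆ Ioo (-(J : ℤ)) J := by
      intro j hj
      have := h𝒥 j hj
      rw [mem_Ioo, ← abs_lt]
      have h0 := abs_nonneg j
      linarith
    calc ∑ j ∈ 𝒥, K j ≤ ∑ j ∈ 𝒥, 2 * ((1 - |(j : ℝ)| / J) * K j) := by
          apply sum_le_sum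
          intro j hj
          have h2 : (2 : ℝ) * |(j : ℝ)| < J := by
            have := h𝒥 j hj
            exact_mod_cast this
          have h3 : |(j : ℝ)| / J ≤ 1 / 2 := by
            rw [div_le_div_iff₀ hJr (by norm_num)]
            linarith
          have h4 : 1 ≤ 2 * (1 - |(j : ℝ)| / J) := by linarith
          calc K j = 1 * K j := (one_mul _).symm
            _ ≤ 2 * (1 - |(j : ℝ)| / J) * K j := mul_le_mul_of_nonneg_right h4 (hK0 j)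
            _ = 2 * ((1 - |(j : ℝ)| / J) * K j) := by ring
      _ ≤ ∑ j ∈ Ioo (-(J : ℤ)) J, 2 * ((1 - |(j : ℝ)| / J) * K j) := by
          apply sum_le_sum_of_subset_of_nonneg hsub
          intro j hj _
          rw [mem_Ioo, ← abs_lt] at hj
          have h2 : |(j : ℝ)| < J := by exact_mod_cast hj
          have h3 : |(j : ℝ)| / J ≤ 1 := by
            rw [div_le_one hJr]
            exact h2.le
          have h4 : 0 ≤ 1 - |(j : ℝ)| / J := by linarith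
          exact mul_nonneg (by norm_num) (mul_nonneg h4 (hK0 j))
  rw [← mul_sum, hid] at h1
  refine h1.trans ?_
  have h5 : ∀ p, (τ p : ℝ) ^ 2 ≤ 2 * (T0 : ℝ) ^ 2 := by
    intro p
    exact_mod_cast hτ p
  have h6 : ∑ p, ∑ p', ((τ p : ℝ) ^ 2 * (τ p' : ℝ) ^ 2) *
      (J * ‖AJ J ((τ p' : ℤ) - τ p) z‖ ^ 2) ≤
      ∑ p, ∑ p', (4 * (T0 : ℝ) ^ 4 * J) * ‖AJ J ((τ p' : ℤ) - τ p) z‖ ^ 2 := by
    apply sum_le_sum
    intro p _
    apply sum_le_sum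
    intro p' _
    have h7 : (τ p : ℝ) ^ 2 * (τ p' : ℝ) ^ 2 ≤ (2 * (T0 : ℝ) ^ 2) * (2 * (T0 : ℝ) ^ 2) :=
      mul_le_mul (h5 p) (h5 p') (by positivity) (by positivity)
    calc ((τ p : ℝ) ^ 2 * (τ p' : ℝ) ^ 2) * (J * ‖AJ J ((τ p' : ℤ) - τ p) z‖ ^ 2)
        ≤ ((2 * (T0 : ℝ) ^ 2) * (2 * (T0 : ℝ) ^ 2)) * (J * ‖AJ J ((τ p' : ℤ) - τ p) z‖ ^ 2) :=
          mul_le_mul_of_nonneg_right h7 (by positivity)
      _ = (4 * (T0 : ℝ) ^ 4 * J) * ‖AJ J ((τ p' : ℤ) - τ p) z‖ ^ 2 := by ring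
  have h8 : ∑ p, ∑ p', (4 * (T0 : ℝ) ^ 4 * J) * ‖AJ J ((τ p' : ℤ) - τ p) z‖ ^ 2 =
      (4 * (T0 : ℝ) ^ 4 * J) * ∑ p, ∑ p', ‖AJ J ((τ p' : ℤ) - τ p) z‖ ^ 2 := by
    rw [mul_sum]
    apply sum_congr rfl
    intro p _
    rw [mul_sum]
  rw [h8] at h6
  calc 2 * ∑ p, ∑ p', ((τ p : ℝ) ^ 2 * (τ p' : ℝ) ^ 2) * (J * ‖AJ J ((τ p' : ℤ) - τ p) z‖ ^ 2)
      ≤ 2 * ((4 * (T0 : ℝ) ^ 4 * J) * ∑ p, ∑ p', ‖AJ J ((τ p' : ℤ) - τ p) z‖ ^ 2) :=
        mul_le_mul_of_nonneg_left h6 (by norm_num)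
    _ = 8 * J * (T0 : ℝ) ^ 4 * ∑ p, ∑ p', ‖AJ J ((τ p' : ℤ) - τ p) z‖ ^ 2 := by ring

private theorem b6q_av_b (b : ℤ → ℂ) (n1 : ℤ) (M N : ℕ) (hN0 : 0 < N) (hMN : M ≤ N)
    (hb : ∀ n, ‖b n‖ ≤ 2) :
    av N (fun z => ‖tp (Ico n1 (n1 + M)) b z‖ ^ 2) ≤ 4 * M := by
  have h := gp (Ico n1 (n1 + M)) b (fun n => n) (Ico n1 (n1 + M)) N hN0 n1 (by
    intro g hg
    rw [mem_Ico] at hg
    refine ⟨hg.1, hg.2.trans_le ?_⟩
    have : (M : ℤ) ≤ N := by exact_mod_cast hMN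
    linarith) (fun i hi => hi)
  have h2 : av N (fun z => ‖tp (Ico n1 (n1 + M)) b z‖ ^ 2) =
      ∑ g ∈ Ico n1 (n1 + M), ‖∑ i ∈ (Ico n1 (n1 + M)).filter (fun i => i = g), b i‖ ^ 2 := h
  rw [h2]
  calc ∑ g ∈ Ico n1 (n1 + M), ‖∑ i ∈ (Ico n1 (n1 + M)).filter (fun i => i = g), b i‖ ^ 2
      ≤ ∑ g ∈ Ico n1 (n1 + (M : ℤ)), (4 : ℝ) := by
        apply sum_le_sum
        intro g hg
        rw [filter_eq' (Ico n1 (n1 + (M : ℤ))) g, if_pos hg, sum_singleton]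
        have := hb g
        nlinarith [norm_nonneg (b g)]
    _ = 4 * M := by
        rw [sum_const, Int.card_Ico, nsmul_eq_mul]
        have : (n1 + (M : ℤ) - n1).toNat = M := by
          rw [add_sub_cancel_left]
          exact Int.toNat_natCast M
        rw [this]
        ring

theorem Q_bound {ι η : Type*} [Fintype ι] [DecidableEq ι] [Fintype η]
    (T : ι → η → ℕ) (b : ℤ → ℂ) (n1 : ℤ) (T0 M J N t : ℕ) (ht : Fintype.card ι = t)
    (hT0 : 0 < T0) (hJ : J * T0 = 2 * M) (hM : 0 < M)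
    (hT1 : ∀ u h, T0 ≤ T u h) (hT2 : ∀ u h, (T u h) ^ 2 ≤ 2 * T0 ^ 2)
    (hb : ∀ n, ‖b n‖ ≤ 2)
    (hO : ∀ u h h', ∑ u' ∈ univ.erase u, av N (fun z => ‖AJ J ((T u' h' : ℤ) - T u h) z‖ ^ 2 *
      ‖tp (Ico n1 (n1 + M)) b z‖ ^ 2) ≤ 6 * M)
    (hN : 8 * T0 * M ≤ N) (𝒥 : Finset ℤ) (h𝒥 : ∀ j ∈ 𝒥, 2 * |j| < J) :
    ∑ j ∈ 𝒥, ‖∑ u, ∑ h, (T u h : ℂ) ^ 2 * Rr (Ico n1 (n1 + M)) b (T u h * j)‖ ^ 2 ≤
      320 * J * (T0 : ℝ) ^ 4 * t * (Fintype.card η : ℝ) ^ 2 * M ^ 2 := by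
  have hJ0 : 0 < J := by
    rcases Nat.eq_zero_or_pos J with h | h
    · rw [h, zero_mul] at hJ
      omega
    · exact h
  have hMN : M ≤ N := by
    refine le_trans ?_ hN
    nlinarith
  have hN0 : 0 < N := lt_of_lt_of_le hM hMN
  have hT3 : ∀ u h, T u h ≤ 2 * T0 := by
    intro u h
    have h1 := hT2 u h
    by_contra hc
    rw [not_le] at hc
    nlinarith
  set I1 : Finset ℤ := Ico n1 (n1 + M) with hI1
  set τ : ι × η → ℕ := fun p => T p.1 p.2 with hτ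
  set K : ℤ → ℂ → ℂ := fun j z => ∑ p, (τ p : ℂ) ^ 2 * z ^ (-((τ p : ℤ) * j)) with hK
  set u0 : ℂ → ℝ := fun z => ‖tp I1 b z‖ ^ 2 with hu0
  have hu00 : ∀ z, 0 ≤ u0 z := fun z => by positivity
  have hav : av N u0 ≤ 4 * M := b6q_av_b b n1 M N hN0 hMN hb
  -- step 1
  have h1 : ∀ j ∈ 𝒥, ∑ u, ∑ h, (T u h : ℂ) ^ 2 * Rr I1 b (T u h * j) =
      avC N (fun z => ((u0 z : ℝ) : ℂ) * K j z) := by
    intro j hj
    have e1 : avC N (fun z => ((u0 z : ℝ) : ℂ) * K j z) =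
        ∑ p, (τ p : ℂ) ^ 2 * Rr I1 b (τ p * j) := by
      have e2 : (fun z => ((u0 z : ℝ) : ℂ) * K j z) = fun z => ∑ p, (τ p : ℂ) ^ 2 *
          (((‖tp I1 b z‖ ^ 2 : ℝ) : ℂ) * z ^ (-((τ p : ℤ) * j))) := by
        funext z
        rw [hK]
        simp only [hu0, mul_sum]
        apply sum_congr rfl
        intro p _
        ring
      rw [e2, b6q_avC_sum]
      apply sum_congr rfl
      intro p _
      rw [b6q_avC_const_mul]
      congr 1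
      apply avC_Rr N hN0 I1 b n1 M (le_of_eq hI1)
      rw [abs_mul, Nat.abs_cast]
      have h2 := h𝒥 j hj
      have h3 : (τ p : ℤ) ≤ 2 * T0 := by exact_mod_cast hT3 p.1 p.2
      have h4 : (τ p : ℤ) * |j| ≤ 2 * T0 * |j| := mul_le_mul_of_nonneg_right h3 (abs_nonneg j)
      have h5 : (T0 : ℤ) * (2 * |j|) ≤ T0 * J :=
        mul_le_mul_of_nonneg_left h2.le (Int.natCast_nonneg _)
      have h6 : (J : ℤ) * T0 = 2 * M := by exact_mod_cast hJ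
      have h7 : (8 : ℤ) * T0 * M ≤ N := by exact_mod_cast hN
      have h8 : (1 : ℤ) ≤ T0 := by exact_mod_cast hT0
      have h9 : (0 : ℤ) ≤ M := Int.natCast_nonneg _
      nlinarith
    rw [e1, Fintype.sum_prod_type]
  -- step 2
  have h2 : ∀ j ∈ 𝒥, ‖∑ u, ∑ h, (T u h : ℂ) ^ 2 * Rr I1 b (T u h * j)‖ ^ 2 ≤
      4 * M * av N (fun z => u0 z * ‖K j z‖ ^ 2) := by
    intro j hj
    rw [h1 j hj]
    have e1 : ‖avC N (fun z => ((u0 z : ℝ) : ℂ) * K j z)‖ ≤ av N (fun z => u0 z * ‖K j z‖) := by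
      refine (b6q_norm_avC_le N _).trans (le_of_eq ?_)
      congr 1
      funext z
      rw [norm_mul, Complex.norm_real, Real.norm_of_nonneg (hu00 z)]
    have e2 := av_cs N u0 (fun z => ‖K j z‖) (fun k => hu00 _)
    have e3 : 0 ≤ av N (fun z => u0 z * ‖K j z‖ ^ 2) :=
      av_nonneg N _ (fun k => mul_nonneg (hu00 _) (by positivity))
    calc ‖avC N (fun z => ((u0 z : ℝ) : ℂ) * K j z)‖ ^ 2
        ≤ (av N (fun z => u0 z * ‖K j z‖)) ^ 2 := pow_le_pow_left₀ (norm_nonneg _) e1 2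
      _ ≤ av N u0 * av N (fun z => u0 z * ‖K j z‖ ^ 2) := e2
      _ ≤ 4 * M * av N (fun z => u0 z * ‖K j z‖ ^ 2) := mul_le_mul_of_nonneg_right hav e3
  -- step 3
  have h3 : ∑ j ∈ 𝒥, ‖∑ u, ∑ h, (T u h : ℂ) ^ 2 * Rr I1 b (T u h * j)‖ ^ 2 ≤
      4 * M * av N (fun z => u0 z * (8 * J * (T0 : ℝ) ^ 4 *
        ∑ p, ∑ p', ‖AJ J ((τ p' : ℤ) - τ p) z‖ ^ 2)) := by
    refine (sum_le_sum h2).trans ?_
    rw [← mul_sum, ← av_sum]
    apply mul_le_mul_of_nonneg_left _ (by positivity)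
    apply av_mono
    intro k
    rw [← mul_sum]
    apply mul_le_mul_of_nonneg_left _ (hu00 _)
    exact b6q_point τ T0 J hJ0 (fun p => hT2 p.1 p.2) 𝒥 h𝒥 (rt N k) (norm_rt N k)
  -- step 4
  have h4 : av N (fun z => u0 z * (8 * J * (T0 : ℝ) ^ 4 *
      ∑ p, ∑ p', ‖AJ J ((τ p' : ℤ) - τ p) z‖ ^ 2)) =
      8 * J * (T0 : ℝ) ^ 4 * ∑ p, ∑ p', av N (fun z => ‖AJ J ((τ p' : ℤ) - τ p) z‖ ^ 2 * u0 z) := by
    have e1 : (fun z => u0 z * (8 * J * (T0 : ℝ) ^ 4 *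
        ∑ p, ∑ p', ‖AJ J ((τ p' : ℤ) - τ p) z‖ ^ 2)) = fun z => 8 * J * (T0 : ℝ) ^ 4 *
        ∑ p, ∑ p', ‖AJ J ((τ p' : ℤ) - τ p) z‖ ^ 2 * u0 z := by
      funext z
      have : ∑ p, ∑ p', ‖AJ J ((τ p' : ℤ) - τ p) z‖ ^ 2 * u0 z =
          (∑ p, ∑ p', ‖AJ J ((τ p' : ℤ) - τ p) z‖ ^ 2) * u0 z := by
        rw [sum_mul]
        apply sum_congr rfl
        intro p _
        rw [sum_mul]
      rw [this]
      ring
    rw [e1, av_const_mul, av_sum]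
    congr 1
    apply sum_congr rfl
    intro p _
    rw [av_sum]
  have h5 : ∑ p, ∑ p', av N (fun z => ‖AJ J ((τ p' : ℤ) - τ p) z‖ ^ 2 * u0 z) ≤
      10 * t * (Fintype.card η : ℝ) ^ 2 * M := by
    have e1 : ∑ p, ∑ p', av N (fun z => ‖AJ J ((τ p' : ℤ) - τ p) z‖ ^ 2 * u0 z) =
        ∑ u, ∑ h, ∑ h', ∑ u', av N (fun z => ‖AJ J ((T u' h' : ℤ) - T u h) z‖ ^ 2 * u0 z) := by
      rw [Fintype.sum_prod_type]
      apply sum_congr rfl
      intro u _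
      apply sum_congr rfl
      intro h _
      rw [Fintype.sum_prod_type, sum_comm]
    rw [e1]
    have e2 : ∀ u h h', ∑ u', av N (fun z => ‖AJ J ((T u' h' : ℤ) - T u h) z‖ ^ 2 * u0 z) ≤
        10 * M := by
      intro u h h'
      rw [← add_sum_erase univ _ (mem_univ u)]
      have e3 : av N (fun z => ‖AJ J ((T u h' : ℤ) - T u h) z‖ ^ 2 * u0 z) ≤ 4 * M := by
        refine le_trans ?_ hav
        apply av_mono
        intro k
        have e4 := norm_AJ_le J ((T u h' : ℤ) - T u h) (rt N k) (norm_rt N k)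
        have e5 : ‖AJ J ((T u h' : ℤ) - T u h) (rt N k)‖ ^ 2 ≤ 1 :=
          pow_le_one₀ (norm_nonneg _) e4
        calc ‖AJ J ((T u h' : ℤ) - T u h) (rt N k)‖ ^ 2 * u0 (rt N k) ≤ 1 * u0 (rt N k) :=
              mul_le_mul_of_nonneg_right e5 (hu00 _)
          _ = u0 (rt N k) := one_mul _
      have e6 := hO u h h'
      calc _ ≤ 4 * (M : ℝ) + 6 * M := add_le_add e3 e6
        _ = 10 * M := by ring
    calc ∑ u, ∑ h, ∑ h', ∑ u', av N (fun z => ‖AJ J ((T u' h' : ℤ) - T u h) z‖ ^ 2 * u0 z)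
        ≤ ∑ _u : ι, ∑ _h : η, ∑ _h' : η, (10 * (M : ℝ)) :=
          sum_le_sum fun u _ => sum_le_sum fun h _ => sum_le_sum fun h' _ => e2 u h h'
      _ = 10 * t * (Fintype.card η : ℝ) ^ 2 * M := by
          simp only [sum_const, card_univ, nsmul_eq_mul, ht]
          ring
  rw [h4] at h3
  refine h3.trans ?_
  calc 4 * (M : ℝ) * (8 * J * (T0 : ℝ) ^ 4 *
      ∑ p, ∑ p', av N (fun z => ‖AJ J ((τ p' : ℤ) - τ p) z‖ ^ 2 * u0 z))
      ≤ 4 * (M : ℝ) * (8 * J * (T0 : ℝ) ^ 4 * (10 * t * (Fintype.card η : ℝ) ^ 2 * M)) := by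
        apply mul_le_mul_of_nonneg_left _ (by positivity)
        exact mul_le_mul_of_nonneg_left h5 (by positivity)
    _ = 320 * J * (T0 : ℝ) ^ 4 * t * (Fintype.card η : ℝ) ^ 2 * M ^ 2 := by ring

end Pool.Agent.Lib.MP_fed790_nt.QP
end

section

/-!
# QP B5: almost orthogonality of the averages `A_D b`

Let `b̂ = tp I b`, `I = [n0, n0+M)`, `x = ∑_i av(|AJ_i|² |b̂|²)`. `|AJ J D z| ≤ 1` for `|z| = 1`.
`av |b̂|² = ∑_{n ∈ I} |b n|² ≤ 4 M` (`gp`).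

For `i ≠ i'`: `AJ J D z * AJ J D' z * b̂(z) = J⁻² ∑_{(j,j',m) ∈ [0,J)² × I} b m z^(D j + D' j' + m)`.
`J |D| ≤ J T0/8 = M/4` (`8 |D| ≤ T0`, `J T0 = 2M`), so all exponents lie in
`B = [n0 - M, n0 + 2M)`, `#B = 3M ≤ N`. By `gp` the average of the square is
`∑_{g ∈ B} |J⁻² ∑_{j,j'} b (g - D j - D' j')|²` (`b` vanishes outside `I`), and by `supbound`
each term is at most `(J⁻² (8 M + 2 M w/(|D||D'|)))²`. `J = 2M/T0` gives
`8 M/J² = 2 T0²/M ≤ 1/(2t)` (`hMt`) and `2 M w/(|D||D'| J²) ≤ w/(2 δ1² M) = 1/(2 δ1² r) ≤ 1/(2t)`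
(`hrt`). So the sum is `≤ 3 M/t²`, and the sum over all `i ≠ i'` is `≤ 3 M`.

`orth_abs`: `x² ≤ 4 M (x + 3 M)`, i.e. `(x - 6M)(x + 2M) ≤ 0`, so `x ≤ 6 M`.
-/

open Finset

namespace Pool.Agent.Lib.MP_fed790_nt.QP

private theorem b5_norm_AJ (J : ℕ) (D : ℤ) (z : ℂ) (hz : ‖z‖ = 1) : ‖AJ J D z‖ ≤ 1 := by
  unfold AJ
  rw [norm_div, Complex.norm_natCast]
  apply div_le_one_of_le₀ _ (Nat.cast_nonneg _)
  calc ‖∑ j ∈ range J, z ^ (D * (j : ℤ))‖ ≤ ∑ j ∈ range J, ‖z ^ (D * (j : ℤ))‖ := norm_sum_le _ _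
    _ = ∑ j ∈ range J, (1 : ℝ) := by
        apply sum_congr rfl
        intro j _
        rw [norm_zpow, hz, one_zpow]
    _ = J := by simp
    _ ≤ J := le_rfl

private theorem b5_expand (J : ℕ) (D D' : ℤ) (I : Finset ℤ) (b : ℤ → ℂ) (z : ℂ) (hz : z ≠ 0) :
    AJ J D z * AJ J D' z * tp I b z =
      ∑ x ∈ (range J ×ˢ range J) ×ˢ I,
        (b x.2 / (J : ℂ) ^ 2) * z ^ (D * x.1.1 + D' * x.1.2 + x.2) := by
  have h1 : AJ J D z * AJ J D' z * tp I b z =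
      ((∑ j ∈ range J, z ^ (D * (j : ℤ))) * (∑ j ∈ range J, z ^ (D' * (j : ℤ)))) *
        (∑ m ∈ I, b m * z ^ m) * ((J : ℂ) ^ 2)⁻¹ := by
    unfold AJ tp
    rw [div_eq_mul_inv, div_eq_mul_inv, sq, mul_inv]
    ring
  rw [h1, Finset.sum_mul_sum, ← Finset.sum_product', Finset.sum_mul_sum, ← Finset.sum_product',
    Finset.sum_mul]
  apply sum_congr rfl
  intro x _
  rw [zpow_add₀ hz, zpow_add₀ hz, div_eq_mul_inv]
  ring

private theorem b5_inner (J : ℕ) (D D' : ℤ) (I : Finset ℤ) (b : ℤ → ℂ)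
    (hb : ∀ n, n ∉ I → b n = 0) (g : ℤ) :
    ∑ x ∈ ((range J ×ˢ range J) ×ˢ I).filter
        (fun x => D * (x.1.1 : ℤ) + D' * (x.1.2 : ℤ) + x.2 = g), b x.2 / (J : ℂ) ^ 2 =
      (∑ j ∈ range J, ∑ j' ∈ range J, b (g - D * j - D' * j')) / (J : ℂ) ^ 2 := by
  rw [Finset.sum_filter, Finset.sum_product, Finset.sum_product, Finset.sum_div]
  apply sum_congr rfl
  intro j _
  rw [sum_div]
  apply sum_congr rfl
  intro j' _
  rw [Finset.sum_eq_single (g - D * j - D' * j')]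
  · rw [if_pos (by ring)]
  · intro m _ hm
    rw [if_neg]
    intro h
    apply hm
    simp only at h
    linarith
  · intro h
    rw [hb _ h]
    simp

private theorem b5_pair (D D' : ℤ) (b : ℤ → ℂ) (n0 : ℤ)
    (w r q0 M J N T0 t : ℕ) (δ1 : ℝ) (hM : M = r * w) (hw : 0 < w) (hr : 0 < r) (hq : q0 ∣ w)
    (hb0 : ∀ n, n ∉ Ico n0 (n0 + M) → b n = 0) (hb : ∀ n, ‖b n‖ ≤ 2)
    (hcell : CellZero n0 w r q0 b) (hJ : J * T0 = 2 * M) (hT0 : 0 < T0) (ht : 0 < t)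
    (hδ1 : 0 < δ1) (hD1 : δ1 * T0 ≤ |(D : ℝ)|) (hD1' : δ1 * T0 ≤ |(D' : ℝ)|)
    (hD2 : 8 * |D| ≤ T0) (hD2' : 8 * |D'| ≤ T0)
    (hgcd : Int.gcd D D' ∣ q0)
    (hMt : 4 * t * T0 ^ 2 ≤ M) (hrt : (t : ℝ) ≤ δ1 ^ 2 * r) (hN : 4 * M ≤ N) :
    av N (fun z => ‖AJ J D z * AJ J D' z * tp (Ico n0 (n0 + M)) b z‖ ^ 2) ≤
      3 * M * (1 / (t : ℝ) ^ 2) := by
  have hMpos : 0 < M := by rw [hM]; positivity
  have hJpos : 0 < J := by
    rcases Nat.eq_zero_or_pos J with h | h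
    · rw [h] at hJ; omega
    · exact h
  have hMr : (0 : ℝ) < M := by exact_mod_cast hMpos
  have hJr : (0 : ℝ) < J := by exact_mod_cast hJpos
  have hTr : (0 : ℝ) < T0 := by exact_mod_cast hT0
  have htr : (0 : ℝ) < t := by exact_mod_cast ht
  have hwr : (0 : ℝ) < w := by exact_mod_cast hw
  have hJT : (J : ℝ) * T0 = 2 * M := by exact_mod_cast hJ
  have hMe : (M : ℝ) = r * w := by exact_mod_cast hM
  have hDpos : (0 : ℝ) < |(D : ℝ)| := lt_of_lt_of_le (by positivity) hD1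
  have hDpos' : (0 : ℝ) < |(D' : ℝ)| := lt_of_lt_of_le (by positivity) hD1'
  have hDne : D ≠ 0 := by
    intro h; rw [h] at hDpos; simp at hDpos
  have hDne' : D' ≠ 0 := by
    intro h; rw [h] at hDpos'; simp at hDpos'
  have e1 : av N (fun z => ‖AJ J D z * AJ J D' z * tp (Ico n0 (n0 + M)) b z‖ ^ 2) =
      av N (fun z => ‖∑ x ∈ (range J ×ˢ range J) ×ˢ (Ico n0 (n0 + (M : ℤ))),
        (b x.2 / (J : ℂ) ^ 2) * z ^ (D * (x.1.1 : ℤ) + D' * (x.1.2 : ℤ) + x.2)‖ ^ 2) := by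
    unfold av
    congr 1
    apply sum_congr rfl
    intro k _
    simp only
    rw [b5_expand J D D' _ b (rt N k) (rt_ne_zero N k)]
  have hexp : ∀ (E : ℤ), 8 * |E| ≤ T0 → ∀ j : ℕ, j < J → 4 * |E * (j : ℤ)| ≤ M := by
    intro E hE j hj
    have h1 : |E * (j : ℤ)| = |E| * j := by rw [abs_mul, Nat.abs_cast]
    have h2 : |E| * (j : ℤ) ≤ |E| * J := mul_le_mul_of_nonneg_left (by exact_mod_cast hj.le) (abs_nonneg _)
    have h3 : 8 * |E| * (J : ℤ) ≤ T0 * J := mul_le_mul_of_nonneg_right hE (by positivity)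
    have h4 : (J : ℤ) * T0 = 2 * M := by exact_mod_cast hJ
    rw [h1]
    nlinarith
  have e2 := gp ((range J ×ˢ range J) ×ˢ (Ico n0 (n0 + (M : ℤ)))) (fun x => b x.2 / (J : ℂ) ^ 2)
    (fun x => D * (x.1.1 : ℤ) + D' * (x.1.2 : ℤ) + x.2) (Ico (n0 - M) (n0 + 2 * M)) N (by omega)
    (n0 - M) (by
      intro g hg
      rw [Finset.mem_Ico] at hg
      refine ⟨hg.1, ?_⟩
      have : (4 : ℤ) * M ≤ N := by exact_mod_cast hN
      have h0 : (0 : ℤ) < M := by exact_mod_cast hMpos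
      linarith [hg.2]) (by
      intro x hx
      simp only [Finset.mem_product, Finset.mem_range, Finset.mem_Ico] at hx
      obtain ⟨⟨hx1, hx2⟩, hx3, hx4⟩ := hx
      have f1 := hexp D hD2 x.1.1 hx1
      have f2 := hexp D' hD2' x.1.2 hx2
      have h0 : (0 : ℤ) < M := by exact_mod_cast hMpos
      rw [Finset.mem_Ico]
      have g1 := abs_le.1 (le_refl |D * (x.1.1 : ℤ)|)
      have g2 := abs_le.1 (le_refl |D' * (x.1.2 : ℤ)|)
      constructor <;> linarith [g1.1, g1.2, g2.1, g2.2])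
  rw [e1, e2]
  have hterm : ∀ g ∈ Ico (n0 - (M : ℤ)) (n0 + 2 * M),
      ‖∑ x ∈ ((range J ×ˢ range J) ×ˢ (Ico n0 (n0 + (M : ℤ)))).filter
        (fun x => D * (x.1.1 : ℤ) + D' * (x.1.2 : ℤ) + x.2 = g), b x.2 / (J : ℂ) ^ 2‖ ^ 2 ≤
        1 / (t : ℝ) ^ 2 := by
    intro g _
    rw [b5_inner J D D' _ b hb0 g, norm_div, norm_pow, Complex.norm_natCast]
    have hs := supbound b n0 w r q0 J hw hq (by
      intro n hn
      apply hb0
      intro h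
      apply hn
      rw [hM] at h
      push_cast at h
      exact h) hb hcell D D' hDne hDne' hgcd g
    have hnum : (8 * ((r : ℝ) * w) + 2 * (r * w) * w / (|(D : ℝ)| * |(D' : ℝ)|)) / (J : ℝ) ^ 2 ≤
        1 / t := by
      rw [← hMe]
      have hMt' : 4 * (t : ℝ) * T0 ^ 2 ≤ M := by exact_mod_cast hMt
      have hJ2 : (J : ℝ) ^ 2 * T0 ^ 2 = 4 * M ^ 2 := by
        have : (J : ℝ) ^ 2 * T0 ^ 2 = (J * T0) ^ 2 := by ring
        rw [this, hJT]; ring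
      have a1 : 8 * (M : ℝ) / (J : ℝ) ^ 2 ≤ 1 / (2 * t) := by
        rw [div_le_div_iff₀ (by positivity) (by positivity)]
        have h1 : (8 * (M : ℝ) * (2 * t)) * T0 ^ 2 ≤ (1 * (J : ℝ) ^ 2) * T0 ^ 2 := by
          rw [one_mul, hJ2]
          nlinarith
        exact le_of_mul_le_mul_right h1 (by positivity)
      have a2 : 2 * (M : ℝ) * w / (|(D : ℝ)| * |(D' : ℝ)|) / (J : ℝ) ^ 2 ≤ 1 / (2 * t) := by
        rw [div_div, div_le_div_iff₀ (by positivity) (by positivity)]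
        have h1 : δ1 * T0 * (δ1 * T0) ≤ |(D : ℝ)| * |(D' : ℝ)| :=
          mul_le_mul hD1 hD1' (by positivity) (by positivity)
        have h2 : (δ1 * T0 * (δ1 * T0)) * (J : ℝ) ^ 2 ≤ |(D : ℝ)| * |(D' : ℝ)| * (J : ℝ) ^ 2 :=
          mul_le_mul_of_nonneg_right h1 (by positivity)
        have h3 : (δ1 * T0 * (δ1 * T0)) * (J : ℝ) ^ 2 = δ1 ^ 2 * (4 * M ^ 2) := by
          rw [← hJ2]; ring
        have h4 : 4 * (M : ℝ) * w * t ≤ 4 * M * w * (δ1 ^ 2 * r) :=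
          mul_le_mul_of_nonneg_left hrt (by positivity)
        have h5 : 4 * (M : ℝ) * w * (δ1 ^ 2 * r) = δ1 ^ 2 * (4 * M ^ 2) := by
          rw [hMe]; ring
        linarith
      have a3 : (1 : ℝ) / (2 * t) + 1 / (2 * t) = 1 / t := by
        field_simp
        ring
      rw [add_div]
      linarith
    have hle : ‖∑ j ∈ range J, ∑ j' ∈ range J, b (g - D * j - D' * j')‖ / (J : ℝ) ^ 2 ≤ 1 / t :=
      (div_le_div_of_nonneg_right hs (by positivity)).trans hnum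
    have := pow_le_pow_left₀ (by positivity) hle 2
    rw [one_div_pow] at this
    exact this
  calc _ ≤ ∑ g ∈ Ico (n0 - (M : ℤ)) (n0 + 2 * M), 1 / (t : ℝ) ^ 2 := Finset.sum_le_sum hterm
    _ = 3 * M * (1 / (t : ℝ) ^ 2) := by
      rw [Finset.sum_const, Int.card_Ico, nsmul_eq_mul]
      congr 1
      have : (n0 + 2 * (M : ℤ) - (n0 - M)).toNat = 3 * M := by omega
      rw [this]
      push_cast
      ring

theorem O_bound {ι : Type*} [DecidableEq ι] (s : Finset ι) (D : ι → ℤ) (b : ℤ → ℂ) (n0 : ℤ)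
    (w r q0 M J N T0 t : ℕ) (δ1 : ℝ) (hM : M = r * w) (hw : 0 < w) (hr : 0 < r) (hq : q0 ∣ w)
    (hb0 : ∀ n, n ∉ Ico n0 (n0 + M) → b n = 0) (hb : ∀ n, ‖b n‖ ≤ 2)
    (hcell : CellZero n0 w r q0 b) (hJ : J * T0 = 2 * M) (hT0 : 0 < T0) (ht : 0 < t)
    (hδ1 : 0 < δ1) (hD1 : ∀ i ∈ s, δ1 * T0 ≤ |(D i : ℝ)|) (hD2 : ∀ i ∈ s, 8 * |D i| ≤ T0)
    (hgcd : ∀ i ∈ s, ∀ i' ∈ s, i ≠ i' → Int.gcd (D i) (D i') ∣ q0) (hst : s.card ≤ t)
    (hMt : 4 * t * T0 ^ 2 ≤ M) (hrt : (t : ℝ) ≤ δ1 ^ 2 * r) (hN : 4 * M ≤ N) :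
    ∑ i ∈ s, av N (fun z => ‖AJ J (D i) z‖ ^ 2 * ‖tp (Ico n0 (n0 + M)) b z‖ ^ 2) ≤ 6 * M := by
  have hMpos : 0 < M := by rw [hM]; positivity
  have hMr : (0 : ℝ) < M := by exact_mod_cast hMpos
  have htr : (0 : ℝ) < t := by exact_mod_cast ht
  have h1 := orth_abs s N (fun i z => AJ J (D i) z) (fun z => tp (Ico n0 (n0 + M)) b z)
    (fun i _ k => b5_norm_AJ J (D i) (rt N k) (norm_rt N k))
  set x := ∑ i ∈ s, av N (fun z => ‖AJ J (D i) z‖ ^ 2 * ‖tp (Ico n0 (n0 + M)) b z‖ ^ 2) with hx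
  have hx0 : 0 ≤ x := by
    rw [hx]
    apply Finset.sum_nonneg
    intro i _
    apply av_nonneg
    intro k
    positivity
  have h2 : av N (fun z => ‖tp (Ico n0 (n0 + M)) b z‖ ^ 2) ≤ 4 * M := by
    have g0 := gp (Ico n0 (n0 + (M : ℤ))) b (fun n => n) (Ico n0 (n0 + (M : ℤ))) N (by omega) n0
      (by
        intro g hg
        rw [Finset.mem_Ico] at hg
        refine ⟨hg.1, ?_⟩
        have : (4 : ℤ) * M ≤ N := by exact_mod_cast hN
        have h0 : (0 : ℤ) < M := by exact_mod_cast hMpos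
        linarith [hg.2]) (fun i hi => hi)
    unfold tp
    rw [g0]
    calc _ ≤ ∑ g ∈ Ico n0 (n0 + (M : ℤ)), (4 : ℝ) := by
          apply Finset.sum_le_sum
          intro g hg
          have : (Ico n0 (n0 + (M : ℤ))).filter (fun i => i = g) = {g} := by
            ext i
            simp only [Finset.mem_filter, Finset.mem_singleton]
            constructor
            · exact fun h => h.2
            · rintro rfl
              exact ⟨hg, rfl⟩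
          rw [this, Finset.sum_singleton]
          have h3 := pow_le_pow_left₀ (norm_nonneg _) (hb g) 2
          linarith
      _ = 4 * M := by
        rw [Finset.sum_const, Int.card_Ico, nsmul_eq_mul]
        have : (n0 + (M : ℤ) - n0).toNat = M := by omega
        rw [this]
        ring
  have h3 : ∑ i ∈ s, ∑ i' ∈ s.erase i, av N (fun z => ‖AJ J (D i) z * AJ J (D i') z *
      tp (Ico n0 (n0 + M)) b z‖ ^ 2) ≤ 3 * M := by
    calc _ ≤ ∑ i ∈ s, ∑ i' ∈ s.erase i, 3 * M * (1 / (t : ℝ) ^ 2) := by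
          apply Finset.sum_le_sum
          intro i hi
          apply Finset.sum_le_sum
          intro i' hi'
          have hi2 := Finset.mem_of_mem_erase hi'
          have hne := Finset.ne_of_mem_erase hi'
          exact b5_pair (D i) (D i') b n0 w r q0 M J N T0 t δ1 hM hw hr hq hb0 hb hcell hJ hT0 ht
            hδ1 (hD1 i hi) (hD1 i' hi2) (hD2 i hi) (hD2 i' hi2) (hgcd i hi i' hi2 hne.symm)
            hMt hrt hN
      _ ≤ ∑ i ∈ s, ∑ i' ∈ s, 3 * M * (1 / (t : ℝ) ^ 2) := by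
          apply Finset.sum_le_sum
          intro i _
          apply Finset.sum_le_sum_of_subset_of_nonneg (Finset.erase_subset _ _)
          intro _ _ _
          positivity
      _ = (s.card : ℝ) ^ 2 * (3 * M * (1 / (t : ℝ) ^ 2)) := by
          rw [Finset.sum_const, Finset.sum_const, nsmul_eq_mul, nsmul_eq_mul]
          ring
      _ ≤ (t : ℝ) ^ 2 * (3 * M * (1 / (t : ℝ) ^ 2)) := by
          apply mul_le_mul_of_nonneg_right _ (by positivity)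
          exact pow_le_pow_left₀ (Nat.cast_nonneg _) (by exact_mod_cast hst) 2
      _ = 3 * M := by
          field_simp
  have h4 : x ^ 2 ≤ 4 * M * (x + 3 * M) := by
    refine h1.trans ?_
    refine mul_le_mul h2 (by linarith) ?_ (by positivity)
    apply add_nonneg hx0
    apply Finset.sum_nonneg
    intro i _
    apply Finset.sum_nonneg
    intro i' _
    apply av_nonneg
    intro k
    positivity
  by_contra hcon
  push Not at hcon
  nlinarith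

end Pool.Agent.Lib.MP_fed790_nt.QP
end

section

/-!
# QP B6s: the terms with a cell-mean-zero factor

Notation: `q = Fintype.card η`, `I1 = [n1, n1+M)`, `I2 = [n2, n2+M)`, `Rb = Rr I1 b`,
`Ra = Rr I2 α`, `𝒥 = {j : ℤ | 2 |j| < J}` (at most `J` elements), `J = 2M/T0`.

1. By `av_corr` (`T = T u h`, `T' = T u' h'`, coprime for `u ≠ u'`, `ℓ = ℓ' = M`, and `𝒥`: if
   `|j| T < M` then `|j| T0 < M`, `2|j| T0 < 2M = J T0`, so `2|j| < J`), the left side is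
   `∑_{j ∈ 𝒥} ∑_{u ≠ u'} ∑_{h,h'} T² T'² Rb(T' j) Ra(-T j) = ∑_{j ∈ 𝒥} (P_j Q_j - diag_j)` with
   `P_j = ∑_{u,h} T² Ra(-T j)`, `Q_j = ∑_{u',h'} T'² Rb(T' j)` and
   `diag_j = ∑_u (∑_h T² Ra(-T j)) (∑_{h'} T'² Rb(T' j))`.
2. `|Ra| ≤ M`, `|Rb| ≤ 4M` (`norm_Rr_le`), `T² ≤ 2 T0²`, so `|P_j| ≤ 2 t q T0² M`,
   `|diag_j| ≤ t (2 q T0² M)(8 q T0² M) = 16 t q² T0⁴ M²` and
   `∑_j |diag_j| ≤ J * 16 t q² T0⁴ M² = 32 t q² T0³ M³`.
3. By `Q_bound` and Cauchy-Schwarz (`#𝒥 ≤ J`)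
   `∑_{j∈𝒥} |Q_j| ≤ J T0² q M √(320 t) ≤ 18 J T0² q M √t = 36 T0 q M² √t`, so
   `|∑ P_j Q_j| ≤ 2 t q T0² M * 36 T0 q M² √t = 72 q² t √t T0³ M³`.
4. Total `≤ (72 √t + 32) t q² (T0 M)³ ≤ 110 q² t √t (T0 M)³`.
-/

open Finset

namespace Pool.Agent.Lib.MP_fed790_nt.QP

private theorem b6s_card (J : ℕ) (hJ : 0 < J) :
    (Icc (-(((J - 1) / 2 : ℕ) : ℤ)) (((J - 1) / 2 : ℕ) : ℤ)).card ≤ J := by
  rw [Int.card_Icc]
  omega

private theorem b6s_mem (J : ℕ) (hJ : 0 < J) (j : ℤ) :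
    j ∈ Icc (-(((J - 1) / 2 : ℕ) : ℤ)) (((J - 1) / 2 : ℕ) : ℤ) ↔ 2 * |j| < J := by
  rw [mem_Icc, ← abs_le]
  omega

theorem S3_bound {ι η : Type*} [Fintype ι] [DecidableEq ι] [Fintype η] [Nonempty η]
    (T : ι → η → ℕ) (b α : ℤ → ℂ) (n1 n2 : ℤ) (T0 M J N t : ℕ) (ht : Fintype.card ι = t)
    (ht0 : 0 < t) (hT0 : 0 < T0) (hJ : J * T0 = 2 * M) (hM : 0 < M)
    (hT1 : ∀ u h, T0 ≤ T u h) (hT2 : ∀ u h, (T u h) ^ 2 ≤ 2 * T0 ^ 2)
    (hcop : ∀ u u', u ≠ u' → ∀ h h', (T u h).Coprime (T u' h'))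
    (hb : ∀ n, ‖b n‖ ≤ 2) (hα : ∀ n, ‖α n‖ ≤ 1)
    (hO : ∀ u h h', ∑ u' ∈ univ.erase u, av N (fun z => ‖AJ J ((T u' h' : ℤ) - T u h) z‖ ^ 2 *
      ‖tp (Ico n1 (n1 + M)) b z‖ ^ 2) ≤ 6 * M)
    (hN : 8 * T0 * M ≤ N) :
    ∑ u, ∑ u' ∈ univ.erase u, ∑ h, ∑ h', ((T u h : ℝ) ^ 2 * (T u' h' : ℝ) ^ 2 *
      av N (fun z => ‖tp (Ico n1 (n1 + M)) b (z ^ (T u h))‖ ^ 2 *
        ‖tp (Ico n2 (n2 + M)) α (z ^ (T u' h'))‖ ^ 2)) ≤
      110 * (Fintype.card η : ℝ) ^ 2 * (t * Real.sqrt t) * (T0 * M) ^ 3 := by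
  classical
  have hJ0 : 0 < J := by
    rcases Nat.eq_zero_or_pos J with h | h
    · rw [h, zero_mul] at hJ
      omega
    · exact h
  have hT3 : ∀ u h, T u h ≤ 2 * T0 := by
    intro u h
    have h1 := hT2 u h
    by_contra hc
    rw [not_le] at hc
    nlinarith
  have hN0 : 0 < N := by
    refine lt_of_lt_of_le ?_ hN
    positivity
  set I1 : Finset ℤ := Ico n1 (n1 + M) with hI1
  set I2 : Finset ℤ := Ico n2 (n2 + M) with hI2
  set q : ℝ := (Fintype.card η : ℝ) with hq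
  have hq0 : 0 ≤ q := Nat.cast_nonneg _
  set 𝒥 : Finset ℤ := Icc (-(((J - 1) / 2 : ℕ) : ℤ)) (((J - 1) / 2 : ℕ) : ℤ) with h𝒥def
  have h𝒥 : ∀ j ∈ 𝒥, 2 * |j| < J := fun j hj => (b6s_mem J hJ0 j).1 hj
  have hcard : (𝒥.card : ℝ) ≤ J := by exact_mod_cast b6s_card J hJ0
  have hJr : (J : ℝ) * T0 = 2 * M := by exact_mod_cast hJ
  have hT0r : (0 : ℝ) < T0 := by exact_mod_cast hT0
  have hMr : (0 : ℝ) < M := by exact_mod_cast hM
  have htr : (1 : ℝ) ≤ t := by exact_mod_cast ht0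
  -- step 1
  set pp : ι → ℤ → ℂ := fun u j => ∑ h, (T u h : ℂ) ^ 2 * Rr I2 α (-(T u h * j)) with hpp
  set qq : ι → ℤ → ℂ := fun u j => ∑ h, (T u h : ℂ) ^ 2 * Rr I1 b (T u h * j) with hqq
  have h1 : ∀ u, ∀ u' ∈ univ.erase u, ∀ h h',
      ((av N (fun z => ‖tp I1 b (z ^ (T u h))‖ ^ 2 * ‖tp I2 α (z ^ (T u' h'))‖ ^ 2) : ℝ) : ℂ) =
        ∑ j ∈ 𝒥, Rr I1 b (T u' h' * j) * Rr I2 α (-(T u h * j)) := by
    intro u u' hu' h h'
    have hne : u ≠ u' := fun e => (mem_erase.1 hu').1 e.symm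
    refine av_corr N (T u h) (T u' h') hN0 (lt_of_lt_of_le hT0 (hT1 u h))
      (lt_of_lt_of_le hT0 (hT1 u' h')) (hcop u u' hne h h') I1 I2 b α n1 n2 M M
      (le_of_eq hI1) (le_of_eq hI2) ?_ 𝒥 ?_
    · have e1 := hT3 u h
      have e2 := hT3 u' h'
      calc T u h * M + T u' h' * M ≤ (2 * T0) * M + (2 * T0) * M :=
            Nat.add_le_add (Nat.mul_le_mul_right _ e1) (Nat.mul_le_mul_right _ e2)
        _ = 4 * (T0 * M) := by ring
        _ ≤ 8 * (T0 * M) := by omega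
        _ = 8 * T0 * M := by ring
        _ ≤ N := hN
    · intro j hj1 hj2
      rw [h𝒥def, b6s_mem J hJ0]
      have e1 : (T0 : ℤ) ≤ T u h := by exact_mod_cast hT1 u h
      have e2 : |j| * (T0 : ℤ) ≤ |j| * T u h := mul_le_mul_of_nonneg_left e1 (abs_nonneg j)
      have e3 : (J : ℤ) * T0 = 2 * M := by exact_mod_cast hJ
      have e4 : (0 : ℤ) < T0 := by exact_mod_cast hT0
      have e5 : (2 * |j|) * (T0 : ℤ) < J * T0 := by linarith
      exact lt_of_mul_lt_mul_right e5 e4.le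
  have h2 : ((∑ u, ∑ u' ∈ univ.erase u, ∑ h, ∑ h', ((T u h : ℝ) ^ 2 * (T u' h' : ℝ) ^ 2 *
      av N (fun z => ‖tp I1 b (z ^ (T u h))‖ ^ 2 * ‖tp I2 α (z ^ (T u' h'))‖ ^ 2)) : ℝ) : ℂ) =
      ∑ j ∈ 𝒥, ((∑ u, pp u j) * (∑ u, qq u j) - ∑ u, pp u j * qq u j) := by
    have e1 : ∀ u, ∀ u' ∈ univ.erase u, ∑ h, ∑ h', (((T u h : ℝ) ^ 2 * (T u' h' : ℝ) ^ 2 *
        av N (fun z => ‖tp I1 b (z ^ (T u h))‖ ^ 2 * ‖tp I2 α (z ^ (T u' h'))‖ ^ 2) : ℝ) : ℂ) =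
        ∑ j ∈ 𝒥, pp u j * qq u' j := by
      intro u u' hu'
      have e2 : ∀ h h', (((T u h : ℝ) ^ 2 * (T u' h' : ℝ) ^ 2 *
          av N (fun z => ‖tp I1 b (z ^ (T u h))‖ ^ 2 * ‖tp I2 α (z ^ (T u' h'))‖ ^ 2) : ℝ) : ℂ) =
          ∑ j ∈ 𝒥, ((T u h : ℂ) ^ 2 * Rr I2 α (-(T u h * j))) *
            ((T u' h' : ℂ) ^ 2 * Rr I1 b (T u' h' * j)) := by
        intro h h'
        rw [Complex.ofReal_mul, h1 u u' hu' h h', mul_sum]
        apply sum_congr rfl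
        intro j _
        push_cast
        ring
      rw [sum_congr rfl fun h _ => sum_congr rfl fun h' _ => e2 h h']
      rw [sum_congr rfl fun h _ => (sum_comm (s := univ) (t := 𝒥)
        (f := fun h' j => ((T u h : ℂ) ^ 2 * Rr I2 α (-(T u h * j))) *
            ((T u' h' : ℂ) ^ 2 * Rr I1 b (T u' h' * j)))), sum_comm]
      apply sum_congr rfl
      intro j _
      rw [hpp, hqq]
      simp only
      rw [sum_mul_sum]
    push_cast
    have e3 : ∀ u, ∑ u' ∈ univ.erase u, ∑ h, ∑ h', ((T u h : ℂ) ^ 2 * (T u' h' : ℂ) ^ 2 *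
        ((av N (fun z => ‖tp I1 b (z ^ (T u h))‖ ^ 2 * ‖tp I2 α (z ^ (T u' h'))‖ ^ 2) : ℝ) : ℂ)) =
        ∑ j ∈ 𝒥, ∑ u' ∈ univ.erase u, pp u j * qq u' j := by
      intro u
      rw [sum_comm (s := 𝒥)]
      apply sum_congr rfl
      intro u' hu'
      rw [← e1 u u' hu']
      apply sum_congr rfl
      intro h _
      apply sum_congr rfl
      intro h' _
      push_cast
      ring
    rw [sum_congr rfl fun u _ => e3 u, sum_comm]
    apply sum_congr rfl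
    intro j _
    rw [sum_mul_sum, ← sum_sub_distrib]
    apply sum_congr rfl
    intro u _
    rw [← add_sum_erase univ (fun u' => pp u j * qq u' j) (mem_univ u)]
    ring
  -- bounds
  have hT2r : ∀ u h, (T u h : ℝ) ^ 2 ≤ 2 * (T0 : ℝ) ^ 2 := by
    intro u h
    exact_mod_cast hT2 u h
  have hI1c : (I1.card : ℝ) = M := by
    rw [hI1, Int.card_Ico]
    simp
  have hI2c : (I2.card : ℝ) = M := by
    rw [hI2, Int.card_Ico]
    simp
  have hRa : ∀ d, ‖Rr I2 α d‖ ≤ M := by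
    intro d
    have := norm_Rr_le I2 α 1 (fun n _ => hα n) d
    rw [hI2c] at this
    linarith
  have hRb : ∀ d, ‖Rr I1 b d‖ ≤ 4 * M := by
    intro d
    have := norm_Rr_le I1 b 2 (fun n _ => hb n) d
    rw [hI1c] at this
    linarith
  have hp1 : ∀ u j, ‖pp u j‖ ≤ 2 * q * (T0 : ℝ) ^ 2 * M := by
    intro u j
    calc ‖pp u j‖ ≤ ∑ h : η, ‖(T u h : ℂ) ^ 2 * Rr I2 α (-(T u h * j))‖ := norm_sum_le _ _
      _ ≤ ∑ _h : η, (2 * (T0 : ℝ) ^ 2) * M := by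
          apply sum_le_sum
          intro h _
          rw [norm_mul, norm_pow, Complex.norm_natCast]
          exact mul_le_mul (hT2r u h) (hRa _) (norm_nonneg _) (by positivity)
      _ = 2 * q * (T0 : ℝ) ^ 2 * M := by
          rw [sum_const, card_univ, nsmul_eq_mul]
          ring
  have hq1 : ∀ u j, ‖qq u j‖ ≤ 8 * q * (T0 : ℝ) ^ 2 * M := by
    intro u j
    calc ‖qq u j‖ ≤ ∑ h : η, ‖(T u h : ℂ) ^ 2 * Rr I1 b (T u h * j)‖ := norm_sum_le _ _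
      _ ≤ ∑ _h : η, (2 * (T0 : ℝ) ^ 2) * (4 * M) := by
          apply sum_le_sum
          intro h _
          rw [norm_mul, norm_pow, Complex.norm_natCast]
          exact mul_le_mul (hT2r u h) (hRb _) (norm_nonneg _) (by positivity)
      _ = 8 * q * (T0 : ℝ) ^ 2 * M := by
          rw [sum_const, card_univ, nsmul_eq_mul]
          ring
  have hP : ∀ j, ‖∑ u, pp u j‖ ≤ 2 * t * q * (T0 : ℝ) ^ 2 * M := by
    intro j
    calc ‖∑ u, pp u j‖ ≤ ∑ u, ‖pp u j‖ := norm_sum_le _ _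
      _ ≤ ∑ _u : ι, 2 * q * (T0 : ℝ) ^ 2 * M := sum_le_sum fun u _ => hp1 u j
      _ = 2 * t * q * (T0 : ℝ) ^ 2 * M := by
          rw [sum_const, card_univ, nsmul_eq_mul, ht]
          ring
  have hdiag : ∑ j ∈ 𝒥, ‖∑ u, pp u j * qq u j‖ ≤ 32 * t * q ^ 2 * (T0 * M : ℝ) ^ 3 := by
    have e1 : ∀ j, ‖∑ u, pp u j * qq u j‖ ≤ 16 * t * q ^ 2 * (T0 : ℝ) ^ 4 * M ^ 2 := by
      intro j
      calc ‖∑ u, pp u j * qq u j‖ ≤ ∑ u, ‖pp u j * qq u j‖ := norm_sum_le _ _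
        _ ≤ ∑ _u : ι, (2 * q * (T0 : ℝ) ^ 2 * M) * (8 * q * (T0 : ℝ) ^ 2 * M) := by
            apply sum_le_sum
            intro u _
            rw [norm_mul]
            exact mul_le_mul (hp1 u j) (hq1 u j) (norm_nonneg _) (by positivity)
        _ = 16 * t * q ^ 2 * (T0 : ℝ) ^ 4 * M ^ 2 := by
            rw [sum_const, card_univ, nsmul_eq_mul, ht]
            ring
    calc ∑ j ∈ 𝒥, ‖∑ u, pp u j * qq u j‖ ≤ ∑ _j ∈ 𝒥, 16 * t * q ^ 2 * (T0 : ℝ) ^ 4 * M ^ 2 :=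
          sum_le_sum fun j _ => e1 j
      _ = 𝒥.card * (16 * t * q ^ 2 * (T0 : ℝ) ^ 4 * M ^ 2) := by
          rw [sum_const, nsmul_eq_mul]
      _ ≤ J * (16 * t * q ^ 2 * (T0 : ℝ) ^ 4 * M ^ 2) :=
          mul_le_mul_of_nonneg_right hcard (by positivity)
      _ = (J * T0) * (16 * t * q ^ 2 * (T0 : ℝ) ^ 3 * M ^ 2) := by ring
      _ = 32 * t * q ^ 2 * (T0 * M : ℝ) ^ 3 := by
          rw [hJr]
          ring
  have hQ : ∑ j ∈ 𝒥, ‖∑ u, qq u j‖ ≤ 36 * T0 * q * M ^ 2 * Real.sqrt t := by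
    have e1 := Q_bound T b n1 T0 M J N t ht hT0 hJ hM hT1 hT2 hb hO hN 𝒥 h𝒥
    have e2 : (∑ j ∈ 𝒥, ‖∑ u, qq u j‖) ^ 2 ≤ (𝒥.card : ℝ) * ∑ j ∈ 𝒥, ‖∑ u, qq u j‖ ^ 2 :=
      sq_sum_le_card_mul_sum_sq
    have e3 : (∑ j ∈ 𝒥, ‖∑ u, qq u j‖) ^ 2 ≤ (36 * T0 * q * M ^ 2 * Real.sqrt t) ^ 2 := by
      calc (∑ j ∈ 𝒥, ‖∑ u, qq u j‖) ^ 2 ≤ (𝒥.card : ℝ) * ∑ j ∈ 𝒥, ‖∑ u, qq u j‖ ^ 2 := e2
        _ ≤ J * (320 * J * (T0 : ℝ) ^ 4 * t * q ^ 2 * M ^ 2) :=
            mul_le_mul hcard e1 (sum_nonneg fun _ _ => by positivity) (Nat.cast_nonneg _)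
        _ = (J * T0) ^ 2 * (320 * (T0 : ℝ) ^ 2 * t * q ^ 2 * M ^ 2) := by ring
        _ = 1280 * ((T0 : ℝ) ^ 2 * t * q ^ 2 * M ^ 4) := by
            rw [hJr]
            ring
        _ ≤ 1296 * ((T0 : ℝ) ^ 2 * t * q ^ 2 * M ^ 4) :=
            mul_le_mul_of_nonneg_right (by norm_num) (by positivity)
        _ = (36 * T0 * q * M ^ 2) ^ 2 * (t : ℝ) := by ring
        _ = (36 * T0 * q * M ^ 2 * Real.sqrt t) ^ 2 := by
            rw [mul_pow _ (Real.sqrt t), Real.sq_sqrt (Nat.cast_nonneg _)]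
    exact le_of_abs_le (abs_le_of_sq_le_sq e3 (by positivity))
  have hPQ : ∑ j ∈ 𝒥, ‖(∑ u, pp u j) * (∑ u, qq u j)‖ ≤
      72 * q ^ 2 * (t * Real.sqrt t) * (T0 * M : ℝ) ^ 3 := by
    calc ∑ j ∈ 𝒥, ‖(∑ u, pp u j) * (∑ u, qq u j)‖
        ≤ ∑ j ∈ 𝒥, (2 * t * q * (T0 : ℝ) ^ 2 * M) * ‖∑ u, qq u j‖ := by
          apply sum_le_sum
          intro j _
          rw [norm_mul]
          exact mul_le_mul_of_nonneg_right (hP j) (norm_nonneg _)
      _ = (2 * t * q * (T0 : ℝ) ^ 2 * M) * ∑ j ∈ 𝒥, ‖∑ u, qq u j‖ := by rw [mul_sum]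
      _ ≤ (2 * t * q * (T0 : ℝ) ^ 2 * M) * (36 * T0 * q * M ^ 2 * Real.sqrt t) :=
          mul_le_mul_of_nonneg_left hQ (by positivity)
      _ = 72 * q ^ 2 * (t * Real.sqrt t) * (T0 * M : ℝ) ^ 3 := by ring
  set S : ℝ := ∑ u, ∑ u' ∈ univ.erase u, ∑ h, ∑ h', ((T u h : ℝ) ^ 2 * (T u' h' : ℝ) ^ 2 *
      av N (fun z => ‖tp I1 b (z ^ (T u h))‖ ^ 2 * ‖tp I2 α (z ^ (T u' h'))‖ ^ 2)) with hS
  have hfin : S ≤ 72 * q ^ 2 * (t * Real.sqrt t) * (T0 * M : ℝ) ^ 3 +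
      32 * t * q ^ 2 * (T0 * M : ℝ) ^ 3 := by
    calc S ≤ |S| := le_abs_self _
      _ = ‖(S : ℂ)‖ := (Complex.norm_real S).symm
      _ = ‖∑ j ∈ 𝒥, ((∑ u, pp u j) * (∑ u, qq u j) - ∑ u, pp u j * qq u j)‖ := by rw [h2]
      _ ≤ ∑ j ∈ 𝒥, ‖(∑ u, pp u j) * (∑ u, qq u j) - ∑ u, pp u j * qq u j‖ := norm_sum_le _ _
      _ ≤ ∑ j ∈ 𝒥, (‖(∑ u, pp u j) * (∑ u, qq u j)‖ + ‖∑ u, pp u j * qq u j‖) :=
          sum_le_sum fun j _ => norm_sub_le _ _
      _ = _ := sum_add_distrib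
      _ ≤ _ := add_le_add hPQ hdiag
  have hsq : (1 : ℝ) ≤ Real.sqrt t := by
    rw [Real.one_le_sqrt]
    exact htr
  have hlast : 32 * t * q ^ 2 * (T0 * M : ℝ) ^ 3 ≤
      32 * q ^ 2 * (t * Real.sqrt t) * (T0 * M : ℝ) ^ 3 := by
    have e1 : (32 * t * q ^ 2 * (T0 * M : ℝ) ^ 3) * 1 ≤
        (32 * t * q ^ 2 * (T0 * M : ℝ) ^ 3) * Real.sqrt t :=
      mul_le_mul_of_nonneg_left hsq (by positivity)
    calc 32 * t * q ^ 2 * (T0 * M : ℝ) ^ 3 = (32 * t * q ^ 2 * (T0 * M : ℝ) ^ 3) * 1 := by ring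
      _ ≤ _ := e1
      _ = _ := by ring
  have hpos : 0 ≤ q ^ 2 * (t * Real.sqrt t) * (T0 * M : ℝ) ^ 3 := by positivity
  calc S ≤ _ := hfin
    _ ≤ 72 * q ^ 2 * (t * Real.sqrt t) * (T0 * M : ℝ) ^ 3 +
        32 * q ^ 2 * (t * Real.sqrt t) * (T0 * M : ℝ) ^ 3 := by linarith
    _ = 104 * (q ^ 2 * (t * Real.sqrt t) * (T0 * M : ℝ) ^ 3) := by ring
    _ ≤ 110 * (q ^ 2 * (t * Real.sqrt t) * (T0 * M : ℝ) ^ 3) :=
        mul_le_mul_of_nonneg_right (by norm_num) hpos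
    _ = 110 * q ^ 2 * (t * Real.sqrt t) * (T0 * M) ^ 3 := by ring

end Pool.Agent.Lib.MP_fed790_nt.QP
end
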