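import Pool.Agent.Lib.MP_fed790_nt.QP.C1
import Pool.Agent.Lib.MP_fed790_nt.QP.Num3r
import Pool.Agent.Lib.MP_fed790_nt.QP.A9

section

/-!
# QP B7: counting solutions of `T n - T' n' = G` in cells

**`cell_count`.** Let `m = q0 T'`. Choose `c` with `c ≡ a mod q0` and `T c ≡ G mod T'`
(`gcd(q0,T') = gcd(T,T') = 1`). The pairs `(n,n')` counted are in bijection (`n' = (T n - G)/T'`)
with the integers `n` with `n ≡ c mod m`, `n1 ≤ n < n1 + w` and `T' n2 + G ≤ T n < T' (n2+w) + G`: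
if `(n,n')` is counted then `T' ∣ T n - G`, so `n ≡ c mod T'`, and `n ≡ a ≡ c mod q0`; conversely
`n' = (T n - G)/T'` is an integer in `[n2, n2+w)` and `T' n' = T n - G ≡ T a - G ≡ T' a' mod q0`
(`hcong`), so `n' ≡ a' mod q0`. So `n` runs over the integers `≡ c mod m` in the real interval
`[lo, hi)`, `lo = max(n1, (T' n2 + G)/T)`, `hi = min(n1+w, (T'(n2+w) + G)/T)` (empty if
`hi < lo`). By `card_class_real` the count differs from `(hi-lo)⁺/m` by at most `1`. Multiply by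
`q0 T T' = T m`.

**`cell_count_zero`.** `T a - T' a' ≡ T n - T' n' = G mod q0`.
-/

open Finset

namespace Pool.Agent.Lib.MP_fed790_nt.QP

/-- The number of solutions of `T n - T' n' = G` in a pair of cells. -/
noncomputable def cellN (T T' q0 w : ℕ) (a a' n1 n2 G : ℤ) : ℕ :=
  ((Ico n1 (n1 + w) ×ˢ Ico n2 (n2 + w)).filter (fun p =>
    (q0 : ℤ) ∣ p.1 - a ∧ (q0 : ℤ) ∣ p.2 - a' ∧ (T : ℤ) * p.1 - T' * p.2 = G)).card

/-- The length of the intersection of the two intervals. -/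
noncomputable def lenI (T T' w : ℕ) (n1 n2 G : ℤ) : ℝ :=
  max 0 (min ((T : ℝ) * (n1 + w)) (T' * (n2 + w) + G) - max ((T : ℝ) * n1) (T' * n2 + G))

private lemma exists_c (T T' q0 : ℕ) (hTT' : T.Coprime T') (hT'q : T'.Coprime q0) (a G : ℤ) :
    ∃ c : ℤ, (q0 : ℤ) ∣ c - a ∧ (T' : ℤ) ∣ T * c - G := by
  obtain ⟨u, v, huv⟩ := Nat.isCoprime_iff_coprime.mpr hTT'
  obtain ⟨x, y, hxy⟩ := Nat.isCoprime_iff_coprime.mpr hT'q
  refine ⟨a + q0 * y * (u * G - a), ⟨y * (u * G - a), by ring⟩, ?_⟩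
  have h1 : (T : ℤ) * (a + q0 * y * (u * G - a)) - G
      = T' * (-(v * G) - T * x * (u * G - a)) := by
    linear_combination (T * (u * G - a)) * hxy + G * huv
  exact ⟨_, h1⟩

theorem cell_count (T T' q0 w : ℕ) (hT : 0 < T) (hT' : 0 < T') (hq0 : 0 < q0)
    (hTT' : T.Coprime T') (hT'q : T'.Coprime q0) (a a' n1 n2 G : ℤ)
    (hcong : (q0 : ℤ) ∣ T * a - T' * a' - G) :
    |(q0 : ℝ) * T * T' * cellN T T' q0 w a a' n1 n2 G - lenI T T' w n1 n2 G| ≤ q0 * T * T' := by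
  classical
  have hTR : (0 : ℝ) < T := by exact_mod_cast hT
  have hT'R : (0 : ℝ) < T' := by exact_mod_cast hT'
  have hq0R : (0 : ℝ) < q0 := by exact_mod_cast hq0
  have hTZ : (0 : ℤ) < T := by exact_mod_cast hT
  have hT'Z : (0 : ℤ) < T' := by exact_mod_cast hT'
  obtain ⟨c, hc1, hc2⟩ := exists_c T T' q0 hTT' hT'q a G
  have hcop1 : IsCoprime (T' : ℤ) (T : ℤ) := (Nat.isCoprime_iff_coprime.mpr hTT').symm
  have hcop2 : IsCoprime (q0 : ℤ) (T' : ℤ) := (Nat.isCoprime_iff_coprime.mpr hT'q).symm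
  set m : ℕ := q0 * T' with hm
  have hmpos : 0 < m := Nat.mul_pos hq0 hT'
  set F := (Ico n1 (n1 + w) ×ˢ Ico n2 (n2 + w)).filter (fun p =>
    (q0 : ℤ) ∣ p.1 - a ∧ (q0 : ℤ) ∣ p.2 - a' ∧ (T : ℤ) * p.1 - T' * p.2 = G) with hF
  set s : Finset ℤ := F.image Prod.fst with hs
  have hcard : s.card = cellN T T' q0 w a a' n1 n2 G := by
    rw [hs, card_image_of_injOn]
    · rfl
    · rintro ⟨x1, x2⟩ hx ⟨y1, y2⟩ hy hxy
      rw [hF, mem_coe, mem_filter] at hx hy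
      obtain ⟨-, -, -, e1⟩ := hx
      obtain ⟨-, -, -, e2⟩ := hy
      simp only at hxy e1 e2
      subst hxy
      have : (T' : ℤ) * x2 = T' * y2 := by linarith
      have := mul_left_cancel₀ hT'Z.ne' this
      rw [this]
  set lo : ℝ := max (n1 : ℝ) (((T' : ℝ) * n2 + G) / T) with hlo
  set hi : ℝ := min ((n1 : ℝ) + w) (((T' : ℝ) * (n2 + w) + G) / T) with hhi
  have hmem : ∀ n : ℤ, n ∈ s ↔ lo ≤ n ∧ (n : ℝ) < hi ∧ (m : ℤ) ∣ n - c := by
    intro n
    have hdv : (m : ℤ) ∣ n - c ↔ (q0 : ℤ) ∣ n - a ∧ (T' : ℤ) ∣ T * n - G := by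
      rw [hm]
      push_cast
      constructor
      · intro h
        have h1 : (q0 : ℤ) ∣ n - c := dvd_trans (dvd_mul_right _ _) h
        have h2 : (T' : ℤ) ∣ n - c := dvd_trans (dvd_mul_left _ _) h
        refine ⟨?_, ?_⟩
        · have := dvd_add h1 hc1
          simpa using this
        · have := dvd_add (dvd_mul_of_dvd_right h2 (T : ℤ)) hc2
          have e : (T : ℤ) * (n - c) + (T * c - G) = T * n - G := by ring
          rwa [e] at this
      · rintro ⟨h1, h2⟩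
        apply hcop2.mul_dvd
        · have := dvd_sub h1 hc1
          simpa using this
        · have := dvd_sub h2 hc2
          have e : (T : ℤ) * n - G - (T * c - G) = T * (n - c) := by ring
          rw [e] at this
          exact hcop1.dvd_of_dvd_mul_left this
    have hlo' : lo ≤ (n : ℝ) ↔ n1 ≤ n ∧ (T' : ℤ) * n2 + G ≤ T * n := by
      rw [hlo, max_le_iff, div_le_iff₀ hTR]
      constructor
      · rintro ⟨h1, h2⟩
        refine ⟨by exact_mod_cast h1, ?_⟩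
        have : (T' : ℝ) * n2 + G ≤ T * n := by linarith [mul_comm (n : ℝ) (T : ℝ)]
        exact_mod_cast this
      · rintro ⟨h1, h2⟩
        refine ⟨by exact_mod_cast h1, ?_⟩
        have : (T' : ℝ) * n2 + G ≤ T * n := by exact_mod_cast h2
        linarith [mul_comm (n : ℝ) (T : ℝ)]
    have hhi' : (n : ℝ) < hi ↔ n < n1 + w ∧ (T : ℤ) * n < T' * (n2 + w) + G := by
      rw [hhi, lt_min_iff, lt_div_iff₀ hTR]
      constructor
      · rintro ⟨h1, h2⟩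
        refine ⟨by exact_mod_cast h1, ?_⟩
        have : (T : ℝ) * n < T' * (n2 + w) + G := by linarith [mul_comm (n : ℝ) (T : ℝ)]
        exact_mod_cast this
      · rintro ⟨h1, h2⟩
        refine ⟨by exact_mod_cast h1, ?_⟩
        have : (T : ℝ) * n < T' * (n2 + w) + G := by exact_mod_cast h2
        linarith [mul_comm (n : ℝ) (T : ℝ)]
    rw [hlo', hhi', hdv, hs, mem_image]
    constructor
    · rintro ⟨⟨x1, x2⟩, hx, rfl⟩
      rw [hF, mem_filter, mem_product, mem_Ico, mem_Ico] at hx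
      obtain ⟨⟨⟨h1, h2⟩, h3, h4⟩, h5, h6, h7⟩ := hx
      simp only at h1 h2 h3 h4 h5 h6 h7 ⊢
      have h8 : (T : ℤ) * x1 = T' * x2 + G := by linarith
      refine ⟨⟨h1, ?_⟩, ⟨h2, ?_⟩, h5, ?_⟩
      · rw [h8]
        have := mul_le_mul_of_nonneg_left h3 hT'Z.le
        linarith
      · rw [h8]
        have := mul_lt_mul_of_pos_left h4 hT'Z
        linarith
      · exact ⟨x2, by linarith⟩
    · rintro ⟨⟨h1, h2⟩, ⟨h3, h4⟩, h5, k, hk⟩
      refine ⟨(n, k), ?_, rfl⟩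
      rw [hF, mem_filter, mem_product, mem_Ico, mem_Ico]
      simp only
      have h8 : (T : ℤ) * n = T' * k + G := by linarith
      refine ⟨⟨⟨h1, h3⟩, ?_, ?_⟩, h5, ?_, by linarith⟩
      · rw [h8] at h2
        have : (T' : ℤ) * n2 ≤ T' * k := by linarith
        exact le_of_mul_le_mul_left this hT'Z
      · rw [h8] at h4
        have : (T' : ℤ) * k < T' * (n2 + w) := by linarith
        exact lt_of_mul_lt_mul_left this hT'Z.le
      · have e1 : (T' : ℤ) * (k - a') = T * (n - a) + (T * a - T' * a' - G) := by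
          linear_combination -h8
        have : (q0 : ℤ) ∣ T' * (k - a') := by
          rw [e1]
          exact dvd_add (dvd_mul_of_dvd_right h5 _) hcong
        exact hcop2.dvd_of_dvd_mul_left this
  have hminT : (T : ℝ) * hi = min ((T : ℝ) * (n1 + w)) (T' * (n2 + w) + G) := by
    rw [hhi, mul_min_of_nonneg _ _ hTR.le, mul_div_cancel₀ _ hTR.ne']
  have hmaxT : (T : ℝ) * lo = max ((T : ℝ) * n1) (T' * n2 + G) := by
    rw [hlo, mul_max_of_nonneg _ _ hTR.le, mul_div_cancel₀ _ hTR.ne']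
  have hlen : lenI T T' w n1 n2 G = max 0 (T * hi - T * lo) := by
    rw [hminT, hmaxT, lenI]
  rcases le_total lo hi with hle | hle
  · have key := card_class_real m hmpos c lo hi hle s hmem
    have hl2 : lenI T T' w n1 n2 G = T * (hi - lo) := by
      rw [hlen, max_eq_right]
      · ring
      · have := mul_le_mul_of_nonneg_left hle hTR.le
        linarith
    rw [← hcard, hl2]
    have hmR : ((m : ℕ) : ℝ) = q0 * T' := by rw [hm]; push_cast; ring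
    rw [hmR] at key
    have e2 : (q0 : ℝ) * T * T' * (s.card : ℝ) - T * (hi - lo)
        = (q0 * T * T') * ((s.card : ℝ) - (hi - lo) / (q0 * T')) := by
      field_simp
    rw [e2, abs_mul, abs_of_pos (by positivity)]
    calc (q0 : ℝ) * T * T' * |(s.card : ℝ) - (hi - lo) / (q0 * T')|
        ≤ q0 * T * T' * 1 := by gcongr
      _ = _ := by ring
  · have hl2 : lenI T T' w n1 n2 G = 0 := by
      rw [hlen, max_eq_left]
      have := mul_le_mul_of_nonneg_left hle hTR.le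
      linarith
    have hs0 : s = ∅ := by
      rw [eq_empty_iff_forall_notMem]
      intro n hn
      have := (hmem n).1 hn
      linarith [this.1, this.2.1]
    rw [← hcard, hl2, hs0]
    simp only [card_empty, Nat.cast_zero, mul_zero, sub_zero, abs_zero]
    positivity

theorem cell_count_zero (T T' q0 w : ℕ) (a a' n1 n2 G : ℤ)
    (hcong : ¬ (q0 : ℤ) ∣ T * a - T' * a' - G) : cellN T T' q0 w a a' n1 n2 G = 0 := by
  rw [cellN, card_eq_zero, filter_eq_empty_iff]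
  rintro ⟨x1, x2⟩ - ⟨h1, h2, h3⟩
  simp only at h1 h2 h3
  apply hcong
  have e : (T : ℤ) * a - T' * a' - G = T' * (x2 - a') - T * (x1 - a) := by
    linear_combination h3
  rw [e]
  exact dvd_sub (dvd_mul_of_dvd_right h2 _) (dvd_mul_of_dvd_right h1 _)

/-- `lenI` is Lipschitz. -/
theorem lenI_lip (T1 T2 T' w : ℕ) (n1 n2 G1 G2 : ℤ) (Δ : ℝ) (K : ℝ)
    (hT : |(T1 : ℝ) - T2| ≤ Δ) (hG : |(G1 : ℝ) - G2| ≤ Δ) (h1 : |(n1 : ℝ)| ≤ K)
    (h2 : |(n1 : ℝ) + w| ≤ K) :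
    |lenI T1 T' w n1 n2 G1 - lenI T2 T' w n1 n2 G2| ≤ 2 * K * Δ + 2 * Δ := by
  have hΔ : 0 ≤ Δ := (abs_nonneg _).trans hT
  have hK : 0 ≤ K := (abs_nonneg _).trans h1
  have hA : |(T1 : ℝ) * (n1 + w) - T2 * (n1 + w)| ≤ K * Δ := by
    rw [← sub_mul, abs_mul, mul_comm]
    exact mul_le_mul h2 hT (abs_nonneg _) hK
  have hC : |(T1 : ℝ) * n1 - T2 * n1| ≤ K * Δ := by
    rw [← sub_mul, abs_mul, mul_comm]
    exact mul_le_mul h1 hT (abs_nonneg _) hK
  have hB : |((T' : ℝ) * (n2 + w) + G1) - (T' * (n2 + w) + G2)| ≤ Δ := by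
    have e : ((T' : ℝ) * (n2 + w) + G1) - (T' * (n2 + w) + G2) = G1 - G2 := by ring
    rw [e]; exact hG
  have hD : |((T' : ℝ) * n2 + G1) - (T' * n2 + G2)| ≤ Δ := by
    have e : ((T' : ℝ) * n2 + G1) - (T' * n2 + G2) = G1 - G2 := by ring
    rw [e]; exact hG
  have hKΔ : 0 ≤ K * Δ := mul_nonneg hK hΔ
  have m1 := abs_min_sub_min_le_max ((T1 : ℝ) * (n1 + w)) (T' * (n2 + w) + G1)
    ((T2 : ℝ) * (n1 + w)) (T' * (n2 + w) + G2)
  have m2 := abs_max_sub_max_le_max ((T1 : ℝ) * n1) (T' * n2 + G1)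
    ((T2 : ℝ) * n1) (T' * n2 + G2)
  have m3 : max |(T1 : ℝ) * (n1 + w) - T2 * (n1 + w)|
      |((T' : ℝ) * (n2 + w) + G1) - (T' * (n2 + w) + G2)| ≤ K * Δ + Δ :=
    max_le (by linarith) (by linarith)
  have m4 : max |(T1 : ℝ) * n1 - T2 * n1|
      |((T' : ℝ) * n2 + G1) - (T' * n2 + G2)| ≤ K * Δ + Δ :=
    max_le (by linarith) (by linarith)
  rw [lenI, lenI]
  set X1 := min ((T1 : ℝ) * (n1 + w)) (T' * (n2 + w) + G1)
  set X2 := min ((T2 : ℝ) * (n1 + w)) (T' * (n2 + w) + G2)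
  set Y1 := max ((T1 : ℝ) * n1) (T' * n2 + G1)
  set Y2 := max ((T2 : ℝ) * n1) (T' * n2 + G2)
  have m5 := abs_max_sub_max_le_max 0 (X1 - Y1) 0 (X2 - Y2)
  have m6 : |(X1 - Y1) - (X2 - Y2)| ≤ |X1 - X2| + |Y1 - Y2| := by
    have e : (X1 - Y1) - (X2 - Y2) = (X1 - X2) - (Y1 - Y2) := by ring
    rw [e]
    exact abs_sub _ _
  have m7 : max |(0 : ℝ) - 0| |X1 - Y1 - (X2 - Y2)| = |X1 - Y1 - (X2 - Y2)| := by
    rw [sub_zero, abs_zero]
    exact max_eq_right (abs_nonneg _)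
  rw [m7] at m5
  linarith

end Pool.Agent.Lib.MP_fed790_nt.QP
end

section

/-!
# QP C6: the sum over one vertex

**`vertex_sum`.** All `p ∈ Q` contain the vertex `z`. Expand the product of the averages
(`Finset.prod_univ_sum` / `Finset.prod_sum`): with `x' = update x z s`,
`∏_{p ∈ Q} ww_p(x') = (q^|Q|)⁻¹ ∑_{h : Q → H} ∏_p [T p (h p) ∣ …] T p (h p)`. For fixed `h` the
conditions are `T p (h p) ∣ s - c_p` (`c_p` as in C2), and with the condition `ℓ ∣ s - c` we get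
pairwise coprime moduli (`ℓ` a prime not dividing any `T p h`), so by `crt_count_le` the number of
`s` is at most `X/(ℓ ∏_p T p (h p)) + 1`, and the sum over `s` is at most
`X/ℓ + ∏_p T p (h p) ≤ X/ℓ + B` (`hB`).
-/

open Finset

namespace Pool.Agent.Lib.MP_fed790_nt.QP

theorem vertex_sum {V η : Type*} [Fintype V] [DecidableEq V] [Fintype η] [Nonempty η]
    (T : V × V → η → ℕ) (κ : V × V → η → ℤ) (lo : ℤ) (X : ℕ) (Q : Finset (V × V)) (z : V)
    (hT : ∀ p ∈ Q, ∀ h, 0 < T p h) (hQ : ∀ p ∈ Q, p.1 ≠ p.2 ∧ (p.1 = z ∨ p.2 = z))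
    (hcop : ∀ p ∈ Q, ∀ p' ∈ Q, p ≠ p' → ∀ h h', (T p h).Coprime (T p' h'))
    (B : ℝ) (hB : (∏ p ∈ Q, ∏ h, (T p h : ℝ)) ≤ B) (x : V → ℤ) (ℓ : ℕ) (hℓ : ℓ.Prime)
    (hℓT : ∀ p ∈ Q, ∀ h, ¬ ℓ ∣ T p h) (c : ℤ) :
    ∑ s ∈ Ico lo (lo + X), (if (ℓ : ℤ) ∣ s - c then (1 : ℝ) else 0) *
      ∏ p ∈ Q, ww T κ p (Function.update x z s) ≤ X / ℓ + B := by
  classical
  set q : ℝ := (Fintype.card η : ℝ) with hq
  have hq0 : 0 < q := by rw [hq]; exact_mod_cast Fintype.card_pos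
  -- the indicator factor
  let ind : (V × V) → η → ℤ → ℝ := fun p h s =>
    if (T p h : ℤ) ∣ Function.update x z s p.2 - Function.update x z s p.1 - κ p h then
      (T p h : ℝ) else 0
  have hexp : ∀ s : ℤ, ∏ p ∈ Q, ww T κ p (Function.update x z s) =
      (q ^ Q.card)⁻¹ * ∑ g : (Q → η), ∏ p : Q, ind p.1 (g p) s := by
    intro s
    have h1 : ∏ p ∈ Q, ww T κ p (Function.update x z s) =
        ∏ p ∈ Q, ((∑ h, ind p h s) / q) := by
      refine Finset.prod_congr rfl (fun p _ => ?_)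
      rfl
    rw [h1, Finset.prod_div_distrib, Finset.prod_const, div_eq_inv_mul,
      ← Finset.prod_coe_sort Q (fun p => ∑ h, ind p h s), Finset.prod_univ_sum,
      Fintype.piFinset_univ]
  have hkey : ∀ g : (Q → η), ∑ s ∈ Ico lo (lo + X),
      (if (ℓ : ℤ) ∣ s - c then (1 : ℝ) else 0) * ∏ p : Q, ind p.1 (g p) s ≤ X / ℓ + B := by
    intro g
    set PT : ℝ := ∏ p : Q, (T p.1 (g p) : ℝ) with hPT
    have hTpos : ∀ p : Q, (0 : ℝ) < T p.1 (g p) := fun p => by exact_mod_cast hT p.1 p.2 (g p)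
    have hPT0 : 0 < PT := Finset.prod_pos (fun p _ => hTpos p)
    have hPTB : PT ≤ B := by
      refine le_trans ?_ hB
      rw [hPT, ← Finset.prod_coe_sort Q (fun p => ∏ h, (T p h : ℝ))]
      refine Finset.prod_le_prod (fun p _ => (hTpos p).le) (fun p _ => ?_)
      rw [← Finset.mul_prod_erase univ _ (Finset.mem_univ (g p))]
      refine le_mul_of_one_le_right (hTpos p).le ?_
      calc (1 : ℝ) = ∏ h ∈ univ.erase (g p), (1 : ℝ) := by rw [Finset.prod_const_one]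
        _ ≤ ∏ h ∈ univ.erase (g p), (T p.1 h : ℝ) :=
          Finset.prod_le_prod (fun _ _ => zero_le_one)
            (fun h _ => by exact_mod_cast hT p.1 p.2 h)
    let cc : Option Q → ℤ := fun o => match o with
      | none => c
      | some p => if p.1.2 = z then x p.1.1 + κ p.1 (g p) else x p.1.2 - κ p.1 (g p)
    let mm : Option Q → ℕ := fun o => match o with
      | none => ℓ
      | some p => T p.1 (g p)
    have hdv : ∀ (p : Q) (s : ℤ), ((T p.1 (g p) : ℤ) ∣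
        Function.update x z s p.1.2 - Function.update x z s p.1.1 - κ p.1 (g p)) ↔
        ((mm (some p) : ℕ) : ℤ) ∣ s - cc (some p) := by
      intro p s
      obtain ⟨hne, hz⟩ := hQ p.1 p.2
      show _ ↔ ((T p.1 (g p) : ℕ) : ℤ) ∣ s - (if p.1.2 = z then x p.1.1 + κ p.1 (g p)
        else x p.1.2 - κ p.1 (g p))
      by_cases h2 : p.1.2 = z
      · have h1 : p.1.1 ≠ z := fun h => hne (h.trans h2.symm)
        rw [if_pos h2, h2, Function.update_self, Function.update_of_ne h1]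
        rw [sub_sub]
      · have h1 : p.1.1 = z := hz.resolve_right h2
        rw [if_neg h2, h1, Function.update_self, Function.update_of_ne h2]
        rw [← dvd_neg]
        have : -(x p.1.2 - s - κ p.1 (g p)) = s - (x p.1.2 - κ p.1 (g p)) := by ring
        rw [this]
    set A : Finset ℤ := (Ico lo (lo + X)).filter (fun s => ∀ o : Option Q, ((mm o : ℕ) : ℤ) ∣ s - cc o)
      with hA
    have hsumA : ∑ s ∈ Ico lo (lo + X),
        (if (ℓ : ℤ) ∣ s - c then (1 : ℝ) else 0) * ∏ p : Q, ind p.1 (g p) s = A.card * PT := by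
      rw [hA, Finset.card_filter, Nat.cast_sum, Finset.sum_mul]
      refine Finset.sum_congr rfl (fun s _ => ?_)
      by_cases hall : ∀ o : Option Q, ((mm o : ℕ) : ℤ) ∣ s - cc o
      · rw [if_pos hall, if_pos (hall none)]
        have : ∏ p : Q, ind p.1 (g p) s = PT := by
          refine Finset.prod_congr rfl (fun p _ => ?_)
          show (if _ then _ else _) = _
          rw [if_pos ((hdv p s).2 (hall (some p)))]
        rw [this]; push_cast; ring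
      · rw [if_neg hall]
        push Not at hall
        obtain ⟨o, ho⟩ := hall
        cases o with
        | none =>
          have ho' : ¬ (ℓ : ℤ) ∣ s - c := ho
          rw [if_neg ho']; simp
        | some p =>
          have : ∏ p : Q, ind p.1 (g p) s = 0 := by
            refine Finset.prod_eq_zero (Finset.mem_univ p) ?_
            show (if _ then _ else _) = _
            rw [if_neg (fun h => ho ((hdv p s).1 h))]
          rw [this]; simp
    have hℓ0 : (0 : ℝ) < ℓ := by exact_mod_cast hℓ.pos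
    have hcnt := crt_count_le (univ : Finset (Option Q)) mm cc (by
      intro o _
      cases o with
      | none => exact hℓ.pos
      | some p => exact hT p.1 p.2 (g p)) (by
      intro o _ o' _ hoo
      cases o with
      | none =>
        cases o' with
        | none => exact absurd rfl hoo
        | some p' => exact (Nat.Prime.coprime_iff_not_dvd hℓ).2 (hℓT p'.1 p'.2 (g p'))
      | some p =>
        cases o' with
        | none => exact ((Nat.Prime.coprime_iff_not_dvd hℓ).2 (hℓT p.1 p.2 (g p))).symm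
        | some p' =>
          refine hcop p.1 p.2 p'.1 p'.2 (fun h => hoo ?_) _ _
          rw [Subtype.ext h]) lo X A (by
      intro s hs
      rw [hA, Finset.mem_filter, Finset.mem_Ico] at hs
      exact ⟨hs.1.1, hs.1.2, fun o _ => hs.2 o⟩)
    have hprod : ∏ o : Option Q, ((mm o : ℕ) : ℝ) = ℓ * PT := by
      rw [Fintype.prod_option]
    rw [hprod] at hcnt
    rw [hsumA]
    calc (A.card : ℝ) * PT ≤ (X / (ℓ * PT) + 1) * PT := mul_le_mul_of_nonneg_right hcnt hPT0.le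
      _ = X / ℓ + PT := by field_simp
      _ ≤ X / ℓ + B := by linarith
  calc ∑ s ∈ Ico lo (lo + X), (if (ℓ : ℤ) ∣ s - c then (1 : ℝ) else 0) *
        ∏ p ∈ Q, ww T κ p (Function.update x z s)
      = (q ^ Q.card)⁻¹ * ∑ g : (Q → η), ∑ s ∈ Ico lo (lo + X),
        (if (ℓ : ℤ) ∣ s - c then (1 : ℝ) else 0) * ∏ p : Q, ind p.1 (g p) s := by
        rw [Finset.sum_comm, Finset.mul_sum]
        refine Finset.sum_congr rfl (fun s _ => ?_)
        rw [hexp s, Finset.mul_sum, Finset.mul_sum, Finset.mul_sum]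
        refine Finset.sum_congr rfl (fun g _ => ?_)
        ring
    _ ≤ (q ^ Q.card)⁻¹ * ∑ g : (Q → η), (X / ℓ + B) := by
        refine mul_le_mul_of_nonneg_left (Finset.sum_le_sum (fun g _ => hkey g)) ?_
        positivity
    _ = X / ℓ + B := by
        rw [Finset.sum_const, Finset.card_univ, Fintype.card_fun, Fintype.card_coe, nsmul_eq_mul]
        push_cast
        rw [← hq, ← mul_assoc, inv_mul_cancel₀ (by positivity), one_mul]

end Pool.Agent.Lib.MP_fed790_nt.QP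
end

section

/-!
# QP C8: localisation

**`corr_sub`.** For finite windows `A, A'` of `ℤ` and a finite set `𝒢`:
`∑_{g ∈ 𝒢} |∑_{y ∈ A, y - g ∈ A'} F y conj(F' (y - g))|² ≤ av(‖tp A F‖² ‖tp A' F'‖²)`: for
`|z| = 1`, `tp A F z * conj (tp A' F' z) = ∑_{(y,y') ∈ A × A'} F y conj(F' y') z^(y - y')`; by `gp`
the average of the square is `∑_{g ∈ B} |∑_{(y,y'), y - y' = g} F y conj(F' y')|²` with
`B = [c - c' - Y, c - c' + Y)`, `2Y ≤ N`, containing all differences. The terms with `g ∉ B` vanish,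
so drop them; all terms are nonnegative.
-/

open Finset

namespace Pool.Agent.Lib.MP_fed790_nt.QP

theorem corr_sub (F F' : ℤ → ℂ) (c c' : ℤ) (Y N : ℕ) (hN : 2 * Y ≤ N) (hN0 : 0 < N)
    (𝒢 : Finset ℤ) :
    ∑ g ∈ 𝒢, ‖∑ y ∈ (Ico c (c + Y)).filter (fun y => y - g ∈ Ico c' (c' + Y)),
      F y * starRingEnd ℂ (F' (y - g))‖ ^ 2 ≤
      av N (fun z => ‖tp (Ico c (c + Y)) F z‖ ^ 2 * ‖tp (Ico c' (c' + Y)) F' z‖ ^ 2) := by
  have hkey : ∀ g : ℤ, ∑ y ∈ (Ico c (c + Y)).filter (fun y => y - g ∈ Ico c' (c' + Y)),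
      F y * starRingEnd ℂ (F' (y - g)) =
      ∑ i ∈ (Ico c (c + Y) ×ˢ Ico c' (c' + Y)).filter (fun i => i.1 - i.2 = g),
        F i.1 * starRingEnd ℂ (F' i.2) := by
    intro g
    refine Finset.sum_nbij' (fun y => (y, y - g)) (fun i => i.1) ?_ ?_ ?_ ?_ ?_
    · intro y hy
      rw [mem_filter] at hy ⊢
      exact ⟨mem_product.2 ⟨hy.1, hy.2⟩, sub_sub_cancel y g⟩
    · intro i hi
      rw [mem_filter, mem_product] at hi
      rw [mem_filter]
      refine ⟨hi.1.1, ?_⟩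
      have h : i.1 - g = i.2 := by rw [← hi.2]; ring
      rw [h]
      exact hi.1.2
    · intro y _
      rfl
    · intro i hi
      rw [mem_filter] at hi
      have h : i.1 - g = i.2 := by rw [← hi.2]; ring
      exact Prod.ext rfl h
    · intro y _
      rfl
  have hav : av N (fun z => ‖tp (Ico c (c + Y)) F z‖ ^ 2 * ‖tp (Ico c' (c' + Y)) F' z‖ ^ 2) =
      av N (fun z => ‖∑ i ∈ Ico c (c + (Y : ℤ)) ×ˢ Ico c' (c' + (Y : ℤ)),
        F i.1 * starRingEnd ℂ (F' i.2) * z ^ (i.1 - i.2)‖ ^ 2) := by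
    unfold av
    congr 1
    refine Finset.sum_congr rfl fun k _ => ?_
    have hz0 := rt_ne_zero N k
    have hz1 := norm_rt N k
    have hconj : starRingEnd ℂ (rt N k) = (rt N k)⁻¹ := by
      rw [Complex.inv_def, Complex.normSq_eq_norm_sq, hz1]
      simp
    have h1 : ∑ i ∈ Ico c (c + (Y : ℤ)) ×ˢ Ico c' (c' + (Y : ℤ)),
        F i.1 * starRingEnd ℂ (F' i.2) * rt N k ^ (i.1 - i.2) =
        tp (Ico c (c + Y)) F (rt N k) * starRingEnd ℂ (tp (Ico c' (c' + Y)) F' (rt N k)) := by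
      unfold tp
      rw [map_sum, Finset.sum_mul_sum, Finset.sum_product]
      refine Finset.sum_congr rfl fun y _ => Finset.sum_congr rfl fun y' _ => ?_
      rw [map_mul, map_zpow₀, hconj, inv_zpow, zpow_sub₀ hz0, div_eq_mul_inv]
      ring
    beta_reduce
    rw [h1, norm_mul, RCLike.norm_conj, mul_pow]
  have hgp : av N (fun z => ‖∑ i ∈ Ico c (c + (Y : ℤ)) ×ˢ Ico c' (c' + (Y : ℤ)),
        F i.1 * starRingEnd ℂ (F' i.2) * z ^ (i.1 - i.2)‖ ^ 2) =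
      ∑ g ∈ Ico (c - c' - (Y : ℤ)) (c - c' + (Y : ℤ)),
        ‖∑ i ∈ (Ico c (c + (Y : ℤ)) ×ˢ Ico c' (c' + (Y : ℤ))).filter (fun i => i.1 - i.2 = g),
          F i.1 * starRingEnd ℂ (F' i.2)‖ ^ 2 := by
    refine gp (Ico c (c + (Y : ℤ)) ×ˢ Ico c' (c' + (Y : ℤ)))
      (fun i => F i.1 * starRingEnd ℂ (F' i.2)) (fun i => i.1 - i.2)
      (Ico (c - c' - (Y : ℤ)) (c - c' + (Y : ℤ))) N hN0 (c - c' - (Y : ℤ)) ?_ ?_
    · intro g hg
      rw [mem_Ico] at hg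
      omega
    · intro i hi
      rw [mem_product, mem_Ico, mem_Ico] at hi
      rw [mem_Ico]
      omega
  rw [hav, hgp]
  simp only [hkey]
  have hne : ∀ g ∈ 𝒢, ‖∑ i ∈ (Ico c (c + (Y : ℤ)) ×ˢ Ico c' (c' + (Y : ℤ))).filter
      (fun i => i.1 - i.2 = g), F i.1 * starRingEnd ℂ (F' i.2)‖ ^ 2 ≠ 0 →
      g ∈ Ico (c - c' - (Y : ℤ)) (c - c' + (Y : ℤ)) := by
    intro g _ hg
    by_contra hB
    apply hg
    have hempty : (Ico c (c + (Y : ℤ)) ×ˢ Ico c' (c' + (Y : ℤ))).filter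
        (fun i => i.1 - i.2 = g) = ∅ := by
      rw [Finset.filter_eq_empty_iff]
      intro i hi hig
      rw [mem_product, mem_Ico, mem_Ico] at hi
      apply hB
      rw [mem_Ico]
      omega
    rw [hempty, Finset.sum_empty, norm_zero]
    norm_num
  rw [← Finset.sum_filter_of_ne hne]
  refine Finset.sum_le_sum_of_subset_of_nonneg ?_ (fun g _ _ => by positivity)
  intro g hg
  exact (mem_filter.1 hg).2

end Pool.Agent.Lib.MP_fed790_nt.QP
end

section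

/-!
# QP B8: correlations of nice functions are stable

`CC T κ T' κ' α α' I I' g = T T' ∑_{(n,n') ∈ I × I', T n + κ - T' n' - κ' = g} α n conj(α' n')`.

Partition `I = [n1, n1 + r w)` into the windows `i < r` and the classes
`a ∈ [0, q0)` mod `q0`; on such a cell `α` is a constant `α_{i,a}` with `|α_{i,a}| ≤ 1` (take `0` if
the cell is empty); the same for `I'`, `α'`. So, with `G = g - κ + κ'`,
`CC = ∑_{i,i' < r} ∑_{a,a' < q0} α_{i,a} conj(α'_{i',a'}) T T' N`,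
`N = cellN T T' q0 w a a' (n1 + i w) (n2 + i' w) G`. By `cell_count_zero` only the `a'` with
`T' a' ≡ T a - G mod q0` contribute (exactly one `a' ∈ [0,q0)` for each `a`, as `gcd(T',q0) = 1`),
and since `T1 ≡ T2`, `κ1 ≡ κ2 mod q0` it is the same `a'` for `(T1, κ1)` and `(T2, κ2)`. For it, by
`cell_count`, `|T T' N - len/q0| ≤ T T'`, so
`|T1 T' N1 - T2 T' N2| ≤ |len1 - len2|/q0 + T1 T' + T2 T'`, and
`|len1 - len2| ≤ 2 K Δ + 2 Δ` by `lenI_lip`. There are `r² q0` triples `(i,i',a)`.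
-/

open Finset

namespace Pool.Agent.Lib.MP_fed790_nt.QP

noncomputable def CC (T : ℕ) (κ : ℤ) (T' : ℕ) (κ' : ℤ) (α α' : ℤ → ℂ) (I I' : Finset ℤ)
    (g : ℤ) : ℂ :=
  T * T' * ∑ p ∈ (I ×ˢ I').filter (fun p => (T : ℤ) * p.1 + κ - T' * p.2 - κ' = g),
    α p.1 * starRingEnd ℂ (α' p.2)

private theorem b8_uniq {q0 a b : ℕ} (ha : a < q0) (hb : b < q0) (h : (q0 : ℤ) ∣ (a : ℤ) - b) :
    a = b := by
  have h1 : (b : ℤ) ≡ a [ZMOD q0] := Int.modEq_iff_dvd.2 h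
  exact (Nat.ModEq.eq_of_lt_of_lt (Int.natCast_modEq_iff.1 h1) hb ha).symm

private theorem b8_windows (r w : ℕ) (n1 : ℤ) (F : ℤ → ℂ) :
    ∑ n ∈ Ico n1 (n1 + r * w), F n =
      ∑ i ∈ range r, ∑ n ∈ Ico (n1 + i * w) (n1 + i * w + w), F n := by
  induction r with
  | zero => simp
  | succ r ih =>
    rw [Finset.sum_range_succ, ← ih]
    have h1 : n1 ≤ n1 + (r : ℤ) * w := by
      have : (0 : ℤ) ≤ (r : ℤ) * w := by positivity
      linarith
    have h2 : n1 + (r : ℤ) * w ≤ n1 + r * w + w := by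
      have : (0 : ℤ) ≤ (w : ℤ) := by positivity
      linarith
    have h3 : n1 + ((r + 1 : ℕ) : ℤ) * w = n1 + r * w + w := by push_cast; ring
    rw [h3, ← Finset.Ico_union_Ico_eq_Ico h1 h2,
      Finset.sum_union (Finset.Ico_disjoint_Ico_consecutive _ _ _)]

private theorem b8_classes (q0 : ℕ) (hq0 : 0 < q0) (s : Finset ℤ) (F : ℤ → ℂ) :
    ∑ n ∈ s, F n = ∑ a ∈ range q0, ∑ n ∈ s.filter (fun n => (q0 : ℤ) ∣ n - (a : ℤ)), F n := by
  have h1 : ∀ a ∈ range q0, ∑ n ∈ s.filter (fun n => (q0 : ℤ) ∣ n - (a : ℤ)), F n =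
      ∑ n ∈ s, if (q0 : ℤ) ∣ n - (a : ℤ) then F n else 0 := fun a _ => Finset.sum_filter _ _
  rw [Finset.sum_congr rfl h1, Finset.sum_comm]
  refine Finset.sum_congr rfl fun n _ => ?_
  have hq : (0 : ℤ) < q0 := by exact_mod_cast hq0
  have h2 : 0 ≤ n % q0 := Int.emod_nonneg _ hq.ne'
  have h3 : n % q0 < q0 := Int.emod_lt_of_pos _ hq
  have h4 : (((n % q0).toNat : ℕ) : ℤ) = n % q0 := Int.toNat_of_nonneg h2
  have h5 : (q0 : ℤ) ∣ n - ((n % q0).toNat : ℕ) := by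
    rw [h4]
    exact Int.dvd_self_sub_emod
  rw [Finset.sum_eq_single_of_mem ((n % q0).toNat) (by rw [Finset.mem_range]; omega)]
  · rw [if_pos h5]
  · intro b hb hne
    rw [if_neg]
    intro h6
    apply hne
    refine b8_uniq (q0 := q0) (Finset.mem_range.1 hb) (by omega) ?_
    have h7 := dvd_sub h5 h6
    have h8 : n - ((n % q0).toNat : ℕ) - (n - (b : ℤ)) = (b : ℤ) - ((n % q0).toNat : ℕ) := by ring
    rwa [h8] at h7

private theorem b8_cell (T T' q0 w : ℕ) (a a' m1 m2 G : ℤ) (f f' : ℤ → ℂ) (c c' : ℂ)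
    (hf : ∀ n ∈ Ico m1 (m1 + w), (q0 : ℤ) ∣ n - a → f n = c)
    (hf' : ∀ n ∈ Ico m2 (m2 + w), (q0 : ℤ) ∣ n - a' → f' n = c') :
    ∑ n ∈ (Ico m1 (m1 + w)).filter (fun n => (q0 : ℤ) ∣ n - a),
      ∑ n' ∈ (Ico m2 (m2 + w)).filter (fun n => (q0 : ℤ) ∣ n - a'),
        (if (T : ℤ) * n - T' * n' = G then f n * f' n' else 0) =
      c * c' * (cellN T T' q0 w a a' m1 m2 G : ℂ) := by
  unfold cellN
  rw [Finset.card_filter, Nat.cast_sum, Finset.sum_product, Finset.mul_sum, Finset.sum_filter]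
  refine Finset.sum_congr rfl fun n hn => ?_
  rw [Finset.mul_sum]
  split_ifs with h1
  · rw [Finset.sum_filter]
    refine Finset.sum_congr rfl fun n' hn' => ?_
    by_cases h2 : (q0 : ℤ) ∣ n' - a'
    · by_cases h3 : (T : ℤ) * n - T' * n' = G
      · rw [if_pos h2, if_pos h3, if_pos ⟨h1, h2, h3⟩, hf n hn h1, hf' n' hn' h2, Nat.cast_one,
          mul_one]
      · rw [if_pos h2, if_neg h3, if_neg (fun h => h3 h.2.2), Nat.cast_zero, mul_zero]
    · rw [if_neg h2, if_neg (fun h => h2 h.2.1), Nat.cast_zero, mul_zero]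
  · refine (Finset.sum_eq_zero fun n' _ => ?_).symm
    rw [if_neg (fun h => h1 h.1), Nat.cast_zero, mul_zero]

private theorem b8_formula (T T' q0 w r : ℕ) (hq0 : 0 < q0) (κ κ' n1 n2 g : ℤ) (α α' : ℤ → ℂ)
    (A A' : ℕ → ℕ → ℂ)
    (hA : ∀ i < r, ∀ a : ℕ, ∀ n ∈ Ico (n1 + i * w) (n1 + i * w + w),
      (q0 : ℤ) ∣ n - (a : ℤ) → α n = A i a)
    (hA' : ∀ i < r, ∀ a : ℕ, ∀ n ∈ Ico (n2 + i * w) (n2 + i * w + w),
      (q0 : ℤ) ∣ n - (a : ℤ) → α' n = A' i a) :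
    CC T κ T' κ' α α' (Ico n1 (n1 + r * w)) (Ico n2 (n2 + r * w)) g =
      ∑ i ∈ range r, ∑ a ∈ range q0, ∑ j ∈ range r, ∑ b ∈ range q0,
        A i a * starRingEnd ℂ (A' j b) *
          ((T : ℂ) * T' * (cellN T T' q0 w a b (n1 + i * w) (n2 + j * w) (g - κ + κ') : ℂ)) := by
  have h0 : ∀ n n' : ℤ, ((T : ℤ) * n + κ - T' * n' - κ' = g) ↔
      ((T : ℤ) * n - T' * n' = g - κ + κ') := fun n n' => by
    constructor <;> intro h <;> linarith
  unfold CC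
  rw [Finset.sum_filter, Finset.sum_product]
  have h1 : ∀ n : ℤ, ∑ n' ∈ Ico n2 (n2 + r * w),
      (if (T : ℤ) * n + κ - T' * n' - κ' = g then α n * starRingEnd ℂ (α' n') else 0) =
      ∑ j ∈ range r, ∑ b ∈ range q0,
        ∑ n' ∈ (Ico (n2 + j * w) (n2 + j * w + w)).filter (fun n => (q0 : ℤ) ∣ n - (b : ℤ)),
        (if (T : ℤ) * n - T' * n' = g - κ + κ' then α n * starRingEnd ℂ (α' n') else 0) := by
    intro n
    rw [b8_windows]
    refine Finset.sum_congr rfl fun j _ => ?_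
    rw [b8_classes q0 hq0]
    refine Finset.sum_congr rfl fun b _ => Finset.sum_congr rfl fun n' _ => ?_
    exact if_congr (h0 n n') rfl rfl
  simp only [h1]
  rw [b8_windows, Finset.mul_sum]
  refine Finset.sum_congr rfl fun i hi => ?_
  rw [b8_classes q0 hq0, Finset.mul_sum]
  refine Finset.sum_congr rfl fun a _ => ?_
  rw [Finset.sum_comm, Finset.mul_sum]
  refine Finset.sum_congr rfl fun j hj => ?_
  rw [Finset.sum_comm, Finset.mul_sum]
  refine Finset.sum_congr rfl fun b _ => ?_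
  rw [b8_cell T T' q0 w a b (n1 + i * w) (n2 + j * w) (g - κ + κ') α
    (fun n => starRingEnd ℂ (α' n)) (A i a) (starRingEnd ℂ (A' j b))
    (hA i (Finset.mem_range.1 hi) a)
    (fun n hn hd => by rw [hA' j (Finset.mem_range.1 hj) b n hn hd])]
  ring

private theorem b8_rep {q0 w r : ℕ} (hq0 : 0 < q0) (hq : q0 ∣ w) {n1 : ℤ} {α : ℤ → ℂ}
    (hn : Nice n1 w r q0 α) : ∀ i < r, ∀ a : ℕ, ∀ n ∈ Ico (n1 + i * w) (n1 + i * w + w),
      (q0 : ℤ) ∣ n - (a : ℤ) → α n = α (n1 + i * w + ((a : ℤ) - (n1 + i * w)) % q0) := by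
  intro i hi a n hn1 hd
  have hqz : (0 : ℤ) < q0 := by exact_mod_cast hq0
  have h2 : 0 ≤ ((a : ℤ) - (n1 + i * w)) % q0 := Int.emod_nonneg _ hqz.ne'
  have h3 : ((a : ℤ) - (n1 + i * w)) % q0 < q0 := Int.emod_lt_of_pos _ hqz
  rw [Finset.mem_Ico] at hn1
  have hw : 0 < w := by
    have : (0 : ℤ) < w := by linarith [hn1.1, hn1.2]
    exact_mod_cast this
  have hqw : (q0 : ℤ) ≤ w := by exact_mod_cast Nat.le_of_dvd hw hq
  have he : n1 + ((i : ℤ) + 1) * w = n1 + i * w + w := by ring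
  refine hn i hi n ?_ _ ?_ ?_
  · rw [he, Finset.mem_Ico]; exact hn1
  · rw [he, Finset.mem_Ico]; constructor <;> linarith
  · have h4 : (q0 : ℤ) ∣ ((a : ℤ) - (n1 + i * w)) - ((a : ℤ) - (n1 + i * w)) % q0 :=
      Int.dvd_self_sub_emod
    have h5 := dvd_add hd h4
    have h6 : n - (a : ℤ) + (((a : ℤ) - (n1 + i * w)) - ((a : ℤ) - (n1 + i * w)) % q0) =
      n - (n1 + i * w + ((a : ℤ) - (n1 + i * w)) % q0) := by ring
    rwa [h6] at h5

theorem CC_diff (T1 T2 T' q0 w r : ℕ) (κ1 κ2 κ' n1 n2 : ℤ) (α α' : ℤ → ℂ) (Δ K : ℝ)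
    (hT1 : 0 < T1) (hT2 : 0 < T2) (hT' : 0 < T') (hq0 : 0 < q0) (hq : q0 ∣ w)
    (h1 : T1.Coprime T') (h2 : T2.Coprime T') (hT'q : T'.Coprime q0)
    (hTT : (q0 : ℤ) ∣ (T1 : ℤ) - T2) (hκκ : (q0 : ℤ) ∣ κ1 - κ2)
    (hT : |(T1 : ℝ) - T2| ≤ Δ) (hκ : |(κ1 : ℝ) - κ2| ≤ Δ)
    (hK : |(n1 : ℝ)| + r * w ≤ K) (hα : ∀ n, ‖α n‖ ≤ 1) (hα' : ∀ n, ‖α' n‖ ≤ 1)
    (hn : Nice n1 w r q0 α) (hn' : Nice n2 w r q0 α') (g : ℤ) :
    ‖CC T1 κ1 T' κ' α α' (Ico n1 (n1 + r * w)) (Ico n2 (n2 + r * w)) g -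
      CC T2 κ2 T' κ' α α' (Ico n1 (n1 + r * w)) (Ico n2 (n2 + r * w)) g‖ ≤
      r ^ 2 * (2 * K * Δ + 2 * Δ) + r ^ 2 * q0 * (T1 * T' + T2 * T') := by
  have hΔ : 0 ≤ Δ := (abs_nonneg _).trans hT
  have hq0' : (0 : ℝ) < q0 := by exact_mod_cast hq0
  have hK0 : 0 ≤ K := by
    have : (0 : ℝ) ≤ |(n1 : ℝ)| + r * w := by positivity
    linarith
  obtain ⟨B, hB⟩ : ∃ B : ℝ, B = (2 * K * Δ + 2 * Δ) / q0 + (T1 * T' + T2 * T') := ⟨_, rfl⟩
  have hB0 : 0 ≤ B := by rw [hB]; positivity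
  -- the bound for one pair of cells
  have hcell : ∀ i < r, ∀ j : ℕ, ∀ a b : ℕ,
      |(T1 : ℝ) * T' * cellN T1 T' q0 w a b (n1 + i * w) (n2 + j * w) (g - κ1 + κ') -
        (T2 : ℝ) * T' * cellN T2 T' q0 w a b (n1 + i * w) (n2 + j * w) (g - κ2 + κ')| ≤
      if (q0 : ℤ) ∣ T1 * (a : ℤ) - T' * (b : ℤ) - (g - κ1 + κ') then B else 0 := by
    intro i hi j a b
    have hdiff : (q0 : ℤ) ∣ (T1 * (a : ℤ) - T' * (b : ℤ) - (g - κ1 + κ')) -
        (T2 * (a : ℤ) - T' * (b : ℤ) - (g - κ2 + κ')) := by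
      have h3 : (T1 * (a : ℤ) - T' * (b : ℤ) - (g - κ1 + κ')) -
        (T2 * (a : ℤ) - T' * (b : ℤ) - (g - κ2 + κ')) =
        ((T1 : ℤ) - T2) * a + (κ1 - κ2) := by ring
      rw [h3]
      exact dvd_add (Dvd.dvd.mul_right hTT _) hκκ
    split_ifs with hd
    · have hd2 : (q0 : ℤ) ∣ T2 * (a : ℤ) - T' * (b : ℤ) - (g - κ2 + κ') := by
        have h4 := dvd_sub hd hdiff
        rwa [sub_sub_cancel] at h4
      have e1 := cell_count T1 T' q0 w hT1 hT' hq0 h1 hT'q a b (n1 + i * w) (n2 + j * w)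
        (g - κ1 + κ') hd
      have e2 := cell_count T2 T' q0 w hT2 hT' hq0 h2 hT'q a b (n1 + i * w) (n2 + j * w)
        (g - κ2 + κ') hd2
      have hir : ((i : ℝ) + 1) * w ≤ r * w := by
        have : (i : ℝ) + 1 ≤ r := by exact_mod_cast hi
        exact mul_le_mul_of_nonneg_right this (Nat.cast_nonneg w)
      have hiw : (0 : ℝ) ≤ (i : ℝ) * w := by positivity
      have hw0 : (0 : ℝ) ≤ (w : ℝ) := Nat.cast_nonneg w
      have e3 := lenI_lip T1 T2 T' w (n1 + i * w) (n2 + j * w) (g - κ1 + κ') (g - κ2 + κ') Δ K hT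
        (by
          push_cast
          have : (g : ℝ) - κ1 + κ' - (g - κ2 + κ') = -((κ1 : ℝ) - κ2) := by ring
          rw [this, abs_neg]
          exact hκ)
        (by
          push_cast
          have h5 := abs_add_le (n1 : ℝ) ((i : ℝ) * w)
          rw [abs_of_nonneg hiw] at h5
          linarith)
        (by
          push_cast
          have h5 := abs_add_le (n1 : ℝ) ((i : ℝ) * w + w)
          rw [abs_of_nonneg (by positivity : (0 : ℝ) ≤ (i : ℝ) * w + w), ← add_assoc] at h5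
          linarith)
      set N1 : ℝ := (cellN T1 T' q0 w a b (n1 + i * w) (n2 + j * w) (g - κ1 + κ') : ℝ)
      set N2 : ℝ := (cellN T2 T' q0 w a b (n1 + i * w) (n2 + j * w) (g - κ2 + κ') : ℝ)
      set l1 := lenI T1 T' w (n1 + i * w) (n2 + j * w) (g - κ1 + κ')
      set l2 := lenI T2 T' w (n1 + i * w) (n2 + j * w) (g - κ2 + κ')
      have e4 : |(q0 : ℝ) * (T1 * T' * N1 - T2 * T' * N2)| ≤
          (2 * K * Δ + 2 * Δ) + q0 * (T1 * T' + T2 * T') := by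
        have h6 : (q0 : ℝ) * (T1 * T' * N1 - T2 * T' * N2) =
          ((q0 : ℝ) * T1 * T' * N1 - l1) + ((l1 - l2) - ((q0 : ℝ) * T2 * T' * N2 - l2)) := by ring
        rw [h6]
        have h7 := abs_add_le ((q0 : ℝ) * T1 * T' * N1 - l1)
          ((l1 - l2) - ((q0 : ℝ) * T2 * T' * N2 - l2))
        have h8 := abs_sub (l1 - l2) ((q0 : ℝ) * T2 * T' * N2 - l2)
        linarith
      rw [abs_mul, abs_of_pos hq0'] at e4
      have e5 : (q0 : ℝ) * B = (2 * K * Δ + 2 * Δ) + q0 * (T1 * T' + T2 * T') := by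
        rw [hB]
        field_simp
      rw [← e5] at e4
      exact le_of_mul_le_mul_left e4 hq0'
    · have hd2 : ¬ (q0 : ℤ) ∣ T2 * (a : ℤ) - T' * (b : ℤ) - (g - κ2 + κ') := by
        intro h4
        apply hd
        have h5 := dvd_add hdiff h4
        rwa [sub_add_cancel] at h5
      rw [cell_count_zero T1 T' q0 w a b _ _ _ hd, cell_count_zero T2 T' q0 w a b _ _ _ hd2]
      simp
  have hrow : ∀ a : ℕ, ∑ b ∈ range q0,
      (if (q0 : ℤ) ∣ T1 * (a : ℤ) - T' * (b : ℤ) - (g - κ1 + κ') then B else 0) ≤ B := by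
    intro a
    rw [← Finset.sum_filter, Finset.sum_const, nsmul_eq_mul]
    have hc : ((range q0).filter (fun b : ℕ =>
        (q0 : ℤ) ∣ T1 * (a : ℤ) - T' * (b : ℤ) - (g - κ1 + κ'))).card ≤ 1 := by
      rw [Finset.card_le_one]
      intro b hb b' hb'
      rw [Finset.mem_filter, Finset.mem_range] at hb hb'
      refine b8_uniq hb.1 hb'.1 ?_
      have h4 := dvd_sub hb'.2 hb.2
      have h5 : T1 * (a : ℤ) - T' * (b' : ℤ) - (g - κ1 + κ') -
        (T1 * (a : ℤ) - T' * (b : ℤ) - (g - κ1 + κ')) = (T' : ℤ) * ((b : ℤ) - b') := by ring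
      rw [h5] at h4
      exact IsCoprime.dvd_of_dvd_mul_left
        (Nat.isCoprime_iff_coprime.2 hT'q.symm) h4
    have hc' : (((range q0).filter (fun b : ℕ =>
        (q0 : ℤ) ∣ T1 * (a : ℤ) - T' * (b : ℤ) - (g - κ1 + κ'))).card : ℝ) ≤ 1 := by
      exact_mod_cast hc
    calc _ ≤ 1 * B := mul_le_mul_of_nonneg_right hc' hB0
      _ = B := one_mul B
  rw [b8_formula T1 T' q0 w r hq0 κ1 κ' n1 n2 g α α' _ _ (b8_rep hq0 hq hn) (b8_rep hq0 hq hn'),
    b8_formula T2 T' q0 w r hq0 κ2 κ' n1 n2 g α α' _ _ (b8_rep hq0 hq hn) (b8_rep hq0 hq hn')]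
  simp only [← Finset.sum_sub_distrib, ← mul_sub]
  have hfin : ∑ i ∈ range r, ∑ a ∈ range q0, ∑ j ∈ range r, B =
      r ^ 2 * (2 * K * Δ + 2 * Δ) + r ^ 2 * q0 * (T1 * T' + T2 * T') := by
    simp only [Finset.sum_const, Finset.card_range, nsmul_eq_mul]
    rw [hB]
    field_simp
  rw [← hfin]
  refine (norm_sum_le _ _).trans (Finset.sum_le_sum fun i hi => ?_)
  refine (norm_sum_le _ _).trans (Finset.sum_le_sum fun a _ => ?_)
  refine (norm_sum_le _ _).trans (Finset.sum_le_sum fun j _ => ?_)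
  refine ((norm_sum_le _ _).trans (Finset.sum_le_sum fun b _ => ?_)).trans (hrow a)
  refine le_trans ?_ (hcell i (Finset.mem_range.1 hi) j a b)
  rw [norm_mul, norm_mul, RCLike.norm_conj]
  have h9 : ((T1 : ℂ) * T' * (cellN T1 T' q0 w a b (n1 + i * w) (n2 + j * w) (g - κ1 + κ') : ℂ) -
        (T2 : ℂ) * T' * (cellN T2 T' q0 w a b (n1 + i * w) (n2 + j * w) (g - κ2 + κ') : ℂ)) =
      (((T1 : ℝ) * T' * cellN T1 T' q0 w a b (n1 + i * w) (n2 + j * w) (g - κ1 + κ') -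
        (T2 : ℝ) * T' * cellN T2 T' q0 w a b (n1 + i * w) (n2 + j * w) (g - κ2 + κ') : ℝ) : ℂ) := by
    push_cast
    ring
  rw [h9, Complex.norm_real, Real.norm_eq_abs]
  have h10 := hα (n1 + i * w + ((a : ℤ) - (n1 + i * w)) % q0)
  have h11 := hα' (n2 + j * w + ((b : ℤ) - (n2 + j * w)) % q0)
  exact mul_le_of_le_one_left (abs_nonneg _) (mul_le_one₀ h10 (norm_nonneg _) h11)

end Pool.Agent.Lib.MP_fed790_nt.QP
end

section

/-!
# QP B8s: the nice-nice term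

For `|z| = 1`,
`(∑_h ψ h T h z^(κ h) tp I α (z^(T h))) * conj(∑_{h'} ψ' h' T' h' z^(κ' h') tp I' α' (z^(T' h')))`
is the trigonometric polynomial with index set `η × η × I × I'`, exponents
`T h n + κ h - T' h' n' - κ' h'` and coefficients `ψ h conj(ψ' h') T T' α n conj(α' n')`. All
exponents lie in `B = Ico lo (lo + Bn)`, `Bn ≤ N` (`hexp`), so by `gp` the average of
the square of the absolute value is `∑_{g ∈ B} |∑_{h,h'} ψ h conj(ψ' h') C_{h,h'}(g)|²`,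
`C_{h,h'}(g) = CC …`. Fix `h0`. As `∑_h ψ h = 0`,
`∑_{h,h'} ψ h conj(ψ' h') C_{h,h'} = ∑_{h,h'} ψ h conj(ψ' h') (C_{h,h'} - C_{h0,h'})`, which is at
most `q² E0` in absolute value.
-/

open Finset

namespace Pool.Agent.Lib.MP_fed790_nt.QP

theorem b8s_expand {η : Type*} [Fintype η] (T : η → ℕ) (κ : η → ℤ) (ψ : η → ℂ) (α : ℤ → ℂ)
    (I : Finset ℤ) (z : ℂ) (hz : z ≠ 0) :
    ∑ h, ψ h * T h * z ^ (κ h) * tp I α (z ^ (T h)) =
      ∑ h, ∑ n ∈ I, ψ h * T h * α n * z ^ ((T h : ℤ) * n + κ h) := by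
  refine Finset.sum_congr rfl fun h _ => ?_
  unfold tp
  rw [Finset.mul_sum]
  refine Finset.sum_congr rfl fun n _ => ?_
  rw [zpow_add₀ hz, zpow_mul, zpow_natCast]
  ring

theorem b8s_prod {η : Type*} [Fintype η] (T T' : η → ℕ) (κ κ' : η → ℤ)
    (ψ ψ' : η → ℂ) (α α' : ℤ → ℂ) (I I' : Finset ℤ) (z : ℂ) (hz : ‖z‖ = 1) :
    ‖∑ h, ψ h * T h * z ^ (κ h) * tp I α (z ^ (T h))‖ ^ 2 *
      ‖∑ h, ψ' h * T' h * z ^ (κ' h) * tp I' α' (z ^ (T' h))‖ ^ 2 =
    ‖∑ i ∈ (univ : Finset (η × η)) ×ˢ (I ×ˢ I'),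
      (ψ i.1.1 * starRingEnd ℂ (ψ' i.1.2) * (T i.1.1 * T' i.1.2 *
        (α i.2.1 * starRingEnd ℂ (α' i.2.2)))) *
      z ^ ((T i.1.1 : ℤ) * i.2.1 + κ i.1.1 - T' i.1.2 * i.2.2 - κ' i.1.2)‖ ^ 2 := by
  have hz0 : z ≠ 0 := by
    intro h
    rw [h, norm_zero] at hz
    exact zero_ne_one hz
  have hconj : starRingEnd ℂ z = z⁻¹ := by
    rw [Complex.inv_def, Complex.normSq_eq_norm_sq, hz]
    simp
  rw [b8s_expand T κ ψ α I z hz0, b8s_expand T' κ' ψ' α' I' z hz0, ← mul_pow]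
  congr 1
  have e2 : ‖∑ h, ∑ n ∈ I', ψ' h * T' h * α' n * z ^ ((T' h : ℤ) * n + κ' h)‖
      = ‖starRingEnd ℂ (∑ h, ∑ n ∈ I', ψ' h * T' h * α' n * z ^ ((T' h : ℤ) * n + κ' h))‖ :=
    (RCLike.norm_conj _).symm
  rw [e2, ← norm_mul]
  congr 1
  rw [map_sum, Finset.sum_mul_sum, Finset.sum_product, Finset.univ_product_univ.symm,
    Finset.sum_product]
  refine Finset.sum_congr rfl fun h _ => Finset.sum_congr rfl fun h' _ => ?_
  rw [map_sum, Finset.sum_mul_sum, Finset.sum_product]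
  refine Finset.sum_congr rfl fun n _ => Finset.sum_congr rfl fun n' _ => ?_
  simp only
  have h3 : (T h : ℤ) * n + κ h - T' h' * n' - κ' h'
      = ((T h : ℤ) * n + κ h) + (-((T' h' : ℤ) * n' + κ' h')) := by ring
  have h4 : z ^ (((T h : ℤ) * n + κ h) + (-((T' h' : ℤ) * n' + κ' h')))
      = z ^ ((T h : ℤ) * n + κ h) * (z ^ ((T' h' : ℤ) * n' + κ' h'))⁻¹ := by
    rw [zpow_add₀ hz0 ((T h : ℤ) * n + κ h), zpow_neg]
  rw [h3, h4]
  simp only [map_mul, map_zpow₀, hconj, map_natCast]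
  rw [inv_zpow]
  ring

theorem b8s_filter {η : Type*} [Fintype η] (T T' : η → ℕ) (κ κ' : η → ℤ)
    (ψ ψ' : η → ℂ) (α α' : ℤ → ℂ) (I I' : Finset ℤ) (g : ℤ) :
    ∑ i ∈ ((univ : Finset (η × η)) ×ˢ (I ×ˢ I')).filter
      (fun i => (T i.1.1 : ℤ) * i.2.1 + κ i.1.1 - T' i.1.2 * i.2.2 - κ' i.1.2 = g),
      (ψ i.1.1 * starRingEnd ℂ (ψ' i.1.2) * (T i.1.1 * T' i.1.2 *
        (α i.2.1 * starRingEnd ℂ (α' i.2.2)))) =
    ∑ h, ∑ h', ψ h * starRingEnd ℂ (ψ' h') *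
      CC (T h) (κ h) (T' h') (κ' h') α α' I I' g := by
  rw [Finset.sum_filter, Finset.sum_product, Finset.univ_product_univ.symm, Finset.sum_product]
  refine Finset.sum_congr rfl fun h _ => Finset.sum_congr rfl fun h' _ => ?_
  unfold CC
  rw [Finset.sum_filter, Finset.mul_sum, Finset.mul_sum]
  refine Finset.sum_congr rfl fun p _ => ?_
  simp only
  split_ifs <;> simp

theorem S5_bound {η : Type*} [Fintype η] [Nonempty η] (T T' : η → ℕ) (κ κ' : η → ℤ)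
    (ψ ψ' : η → ℂ) (α α' : ℤ → ℂ) (I I' : Finset ℤ) (N Bn : ℕ) (lo : ℤ) (E0 : ℝ) (hN : 0 < N)
    (hψ : ∀ h, ‖ψ h‖ ≤ 1) (hψ' : ∀ h, ‖ψ' h‖ ≤ 1) (hψ0 : ∑ h, ψ h = 0) (hBn : Bn ≤ N)
    (hexp : ∀ h h', ∀ n ∈ I, ∀ n' ∈ I', (T h : ℤ) * n + κ h - T' h' * n' - κ' h' ∈
      Ico lo (lo + Bn)) (hE0 : 0 ≤ E0)
    (hC : ∀ h1 h2 h' g, ‖CC (T h1) (κ h1) (T' h') (κ' h') α α' I I' g -
      CC (T h2) (κ h2) (T' h') (κ' h') α α' I I' g‖ ≤ E0) :
    av N (fun z => ‖∑ h, ψ h * T h * z ^ (κ h) * tp I α (z ^ (T h))‖ ^ 2 *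
      ‖∑ h, ψ' h * T' h * z ^ (κ' h) * tp I' α' (z ^ (T' h))‖ ^ 2) ≤
      Bn * ((Fintype.card η : ℝ) ^ 2 * E0) ^ 2 := by
  classical
  have h1 : av N (fun z => ‖∑ h, ψ h * T h * z ^ (κ h) * tp I α (z ^ (T h))‖ ^ 2 *
      ‖∑ h, ψ' h * T' h * z ^ (κ' h) * tp I' α' (z ^ (T' h))‖ ^ 2)
      = av N (fun z => ‖∑ i ∈ (univ : Finset (η × η)) ×ˢ (I ×ˢ I'),
      (ψ i.1.1 * starRingEnd ℂ (ψ' i.1.2) * (T i.1.1 * T' i.1.2 *
        (α i.2.1 * starRingEnd ℂ (α' i.2.2)))) *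
      z ^ ((T i.1.1 : ℤ) * i.2.1 + κ i.1.1 - T' i.1.2 * i.2.2 - κ' i.1.2)‖ ^ 2) := by
    unfold av
    congr 1
    refine Finset.sum_congr rfl fun k _ => ?_
    exact b8s_prod T T' κ κ' ψ ψ' α α' I I' (rt N k) (norm_rt N k)
  rw [h1, gp ((univ : Finset (η × η)) ×ˢ (I ×ˢ I')) _ _ (Ico lo (lo + Bn)) N hN lo]
  · have h2 : ∀ g ∈ Ico lo (lo + Bn),
        ‖∑ i ∈ ((univ : Finset (η × η)) ×ˢ (I ×ˢ I')).filter
      (fun i => (T i.1.1 : ℤ) * i.2.1 + κ i.1.1 - T' i.1.2 * i.2.2 - κ' i.1.2 = g),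
      (ψ i.1.1 * starRingEnd ℂ (ψ' i.1.2) * (T i.1.1 * T' i.1.2 *
        (α i.2.1 * starRingEnd ℂ (α' i.2.2))))‖ ^ 2 ≤ ((Fintype.card η : ℝ) ^ 2 * E0) ^ 2 := by
      intro g _
      rw [b8s_filter]
      refine pow_le_pow_left₀ (norm_nonneg _) ?_ 2
      obtain ⟨h0⟩ := (inferInstance : Nonempty η)
      have h3 : ∑ h, ∑ h', ψ h * starRingEnd ℂ (ψ' h') *
          CC (T h) (κ h) (T' h') (κ' h') α α' I I' g
          = ∑ h, ∑ h', ψ h * starRingEnd ℂ (ψ' h') *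
            (CC (T h) (κ h) (T' h') (κ' h') α α' I I' g -
              CC (T h0) (κ h0) (T' h') (κ' h') α α' I I' g) := by
        have h4 : ∑ h, ∑ h', ψ h * starRingEnd ℂ (ψ' h') *
              CC (T h0) (κ h0) (T' h') (κ' h') α α' I I' g = 0 := by
          rw [Finset.sum_comm]
          refine Finset.sum_eq_zero fun h' _ => ?_
          simp_rw [mul_assoc]
          rw [← Finset.sum_mul, hψ0, zero_mul]
        simp_rw [mul_sub, Finset.sum_sub_distrib]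
        rw [h4, sub_zero]
      rw [h3]
      calc ‖∑ h, ∑ h', ψ h * starRingEnd ℂ (ψ' h') *
            (CC (T h) (κ h) (T' h') (κ' h') α α' I I' g -
              CC (T h0) (κ h0) (T' h') (κ' h') α α' I I' g)‖
          ≤ ∑ h : η, ∑ h' : η, E0 := by
            refine (norm_sum_le _ _).trans (Finset.sum_le_sum fun h _ => ?_)
            refine (norm_sum_le _ _).trans (Finset.sum_le_sum fun h' _ => ?_)
            rw [norm_mul, norm_mul, RCLike.norm_conj]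
            calc ‖ψ h‖ * ‖ψ' h'‖ * ‖CC (T h) (κ h) (T' h') (κ' h') α α' I I' g -
                CC (T h0) (κ h0) (T' h') (κ' h') α α' I I' g‖ ≤ 1 * 1 * E0 := by
                  refine mul_le_mul ?_ (hC h h0 h' g) (norm_nonneg _) (by norm_num)
                  exact mul_le_mul (hψ h) (hψ' h') (norm_nonneg _) (by norm_num)
              _ = E0 := by ring
        _ = (Fintype.card η : ℝ) ^ 2 * E0 := by
            simp only [Finset.sum_const, Finset.card_univ, nsmul_eq_mul]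
            ring
    refine (Finset.sum_le_sum h2).trans ?_
    rw [Finset.sum_const, Int.card_Ico, nsmul_eq_mul]
    have : (lo + (Bn : ℤ) - lo).toNat = Bn := by omega
    rw [this]
  · intro g hg
    rw [Finset.mem_Ico] at hg
    omega
  · intro i hi
    rw [Finset.mem_product, Finset.mem_product] at hi
    exact hexp i.1.1 i.1.2 i.2.1 hi.2.1 i.2.2 hi.2.2

end Pool.Agent.Lib.MP_fed790_nt.QP
end

section

/-!
# QP C4: single edge sums

All three statements use `edge_param` (with `A`, `B = W^(j+1)`, `Z = X/T`, `T Z = X`):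
the sum is `T ∑_{ν < Z} Φ(T (A + B ν))`, and `T (A + B Z) ≤ W^(j+1) (A0 + T + X)`, so
`A + B Z ≤ N'` and `T (A + B Z) < 2^L` by `hN`/`hL`.

**`rare_edge`.** `f (T m) = f T + f m`, `f T ∈ H`, so `f (T m) ∉ H ↔ f m ∉ H` and `RareAP` applies:
`T (ρ Z + c1) ≤ ρ X + 2 T0 c1` (`c1 ≥ 0`).

**`cop_edge`.** If `q > y` is prime, `q ∣ D` and `q ∣ T m`, then `q ∤ T` (`T`, `D` coprime), so
`q ∣ m = A + B ν`; by `card_gcd_le` (`α = A`, `β = B`, coprime) the number of such `ν` is at most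
`Z sg y D + L`.

**`sg_edge`.** `sg y (T m) ≤ sg y T + sg y m` and `∑_ν sg y (A + B ν) ≤ Z/y + L` (`sum_sg_le`).
-/

open Finset

namespace Pool.Agent.Lib.MP_fed790_nt.QP

private theorem c4_TZ (T X : ℕ) (hT0 : 0 < T) (hTX : T ∣ X) :
    (T : ℝ) * ((X / T : ℕ) : ℝ) = X := by
  obtain ⟨Z, rfl⟩ := hTX
  rw [Nat.mul_div_cancel_left _ hT0]
  push_cast
  ring

private theorem c4_cop (A B q : ℕ) (hcop : A.Coprime B) (hq : q.Prime) (h : (q : ℤ) ∣ (B : ℤ)) :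
    ¬ (q : ℤ) ∣ (A : ℤ) := by
  intro h'
  have h1 : q ∣ B := by exact_mod_cast h
  have h2 : q ∣ A := by exact_mod_cast h'
  have h3 : q ∣ Nat.gcd A B := Nat.dvd_gcd h2 h1
  rw [hcop] at h3
  exact hq.one_lt.ne' (Nat.dvd_one.mp h3)

open Classical in
theorem rare_edge {G : Type*} [AddCommGroup G] {f : ℕ → G} (hf : CAdd f) {H : AddSubgroup G}
    (W i j T X N' T0 : ℕ) (ρ c1 : ℝ) (A0 : ℤ) (hW : 2 ≤ W) (hij : i < j) (hT0 : 0 < T)
    (hT : T ≡ 1 [MOD W ^ (j + 1)]) (hTX : T ∣ X) (hA0 : 1 ≤ A0)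
    (hrare : RareAP f H W ρ c1 N') (hfT : f T ∈ H) (hc1 : 0 ≤ c1) (hT2 : T ≤ 2 * T0)
    (hN : (W : ℤ) ^ (j + 1) * (A0 + T + X) ≤ N') :
    ∑ y ∈ Ico A0 (A0 + X), (if (T : ℤ) ∣ y - kk W i j T then
        T * (if f (1 - (W : ℤ) ^ (j - i) + (W : ℤ) ^ (j + 1) * y).natAbs ∉ H then (1 : ℝ) else 0)
        else 0) ≤ ρ * X + 2 * T0 * c1 := by
  obtain ⟨A, hA, hA1, hcop, hbd, hsum⟩ := edge_param W i j T X A0 hW hij hT0 hT hTX hA0
  have h1 := hsum (fun m => if f m ∉ H then (1 : ℝ) else 0)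
  rw [h1]
  have hB : 0 < W ^ (j + 1) := by positivity
  have h2 : ∑ ν ∈ range (X / T), (if f (T * (A + W ^ (j + 1) * ν)) ∉ H then (1 : ℝ) else 0) =
      (((range (X / T)).filter (fun ν => f (A + W ^ (j + 1) * ν) ∉ H)).card : ℝ) := by
    rw [Finset.sum_boole]
    congr 2
    apply Finset.filter_congr
    intro ν _
    rw [hf T (A + W ^ (j + 1) * ν) hT0 (by positivity), H.add_mem_cancel_left hfT]
  rw [h2]
  have h3 : A + W ^ (j + 1) * (X / T) ≤ N' := by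
    have h4 : ((T * (A + W ^ (j + 1) * (X / T)) : ℕ) : ℤ) ≤ N' := le_trans hbd hN
    have h5 : T * (A + W ^ (j + 1) * (X / T)) ≤ N' := by exact_mod_cast h4
    exact le_trans (Nat.le_mul_of_pos_left _ hT0) h5
  have h6 := hrare A (W ^ (j + 1)) (X / T) hB hcop (dvd_pow_self W (by omega)) hA1 h3
  have hTR : (0 : ℝ) < T := by exact_mod_cast hT0
  have hTT : (T : ℝ) ≤ 2 * T0 := by exact_mod_cast hT2
  calc (T : ℝ) * (((range (X / T)).filter (fun ν => f (A + W ^ (j + 1) * ν) ∉ H)).card : ℝ)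
      ≤ T * (ρ * ((X / T : ℕ) : ℝ) + c1) := mul_le_mul_of_nonneg_left h6 hTR.le
    _ = ρ * (T * ((X / T : ℕ) : ℝ)) + T * c1 := by ring
    _ = ρ * X + T * c1 := by rw [c4_TZ T X hT0 hTX]
    _ ≤ ρ * X + 2 * T0 * c1 := by
        have := mul_le_mul_of_nonneg_right hTT hc1
        linarith

open Classical in
theorem cop_edge (W i j T X y L D T0 : ℕ) (A0 : ℤ) (hW : 2 ≤ W) (hij : i < j) (hT0 : 0 < T)
    (hT : T ≡ 1 [MOD W ^ (j + 1)]) (hTX : T ∣ X) (hA0 : 1 ≤ A0) (hT2 : T ≤ 2 * T0) (hD : 0 < D)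
    (hDL : D < 2 ^ L) (hTD : T.Coprime D) :
    ∑ y' ∈ Ico A0 (A0 + X), (if (T : ℤ) ∣ y' - kk W i j T then
        T * (if ∃ q : ℕ, q.Prime ∧ y < q ∧ q ∣ D ∧
          q ∣ (1 - (W : ℤ) ^ (j - i) + (W : ℤ) ^ (j + 1) * y').natAbs then (1 : ℝ) else 0)
        else 0) ≤ sg y D * X + 2 * T0 * L := by
  obtain ⟨A, hA, hA1, hcop, hbd, hsum⟩ := edge_param W i j T X A0 hW hij hT0 hT hTX hA0
  have h1 := hsum (fun m => if ∃ q : ℕ, q.Prime ∧ y < q ∧ q ∣ D ∧ q ∣ m then (1 : ℝ) else 0)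
  rw [h1, Finset.sum_boole]
  have h2 : (range (X / T)).filter (fun ν => ∃ q : ℕ, q.Prime ∧ y < q ∧ q ∣ D ∧
        q ∣ T * (A + W ^ (j + 1) * ν)) ⊆
      (range (X / T)).filter (fun ν : ℕ => ∃ q : ℕ, q.Prime ∧ y < q ∧ q ∣ D ∧
        (q : ℤ) ∣ (A : ℤ) + ((W ^ (j + 1) : ℕ) : ℤ) * ν) := by
    intro ν hν
    rw [Finset.mem_filter] at hν ⊢
    obtain ⟨hν1, q, hq, hyq, hqD, hqm⟩ := hν
    refine ⟨hν1, q, hq, hyq, hqD, ?_⟩
    have h3 : ¬ q ∣ T := by
      intro h4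
      have h5 : q ∣ Nat.gcd T D := Nat.dvd_gcd h4 hqD
      rw [hTD] at h5
      exact hq.one_lt.ne' (Nat.dvd_one.mp h5)
    have h6 : q ∣ A + W ^ (j + 1) * ν := (hq.dvd_mul.mp hqm).resolve_left h3
    exact_mod_cast h6
  have h7 := card_gcd_le y (A : ℤ) ((W ^ (j + 1) : ℕ) : ℤ) (X / T) D L hD hDL
    (fun q hq _ hqβ => c4_cop A (W ^ (j + 1)) q hcop hq hqβ)
  have h8 : (((range (X / T)).filter (fun ν => ∃ q : ℕ, q.Prime ∧ y < q ∧ q ∣ D ∧
        q ∣ T * (A + W ^ (j + 1) * ν))).card : ℝ) ≤ ((X / T : ℕ) : ℝ) * sg y D + L :=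
    le_trans (by exact_mod_cast Finset.card_le_card h2) h7
  have hTR : (0 : ℝ) < T := by exact_mod_cast hT0
  have hTT : (T : ℝ) ≤ 2 * T0 := by exact_mod_cast hT2
  have hL0 : (0 : ℝ) ≤ L := Nat.cast_nonneg L
  calc (T : ℝ) * (((range (X / T)).filter (fun ν => ∃ q : ℕ, q.Prime ∧ y < q ∧ q ∣ D ∧
        q ∣ T * (A + W ^ (j + 1) * ν))).card : ℝ)
      ≤ T * (((X / T : ℕ) : ℝ) * sg y D + L) := mul_le_mul_of_nonneg_left h8 hTR.le
    _ = sg y D * (T * ((X / T : ℕ) : ℝ)) + T * L := by ring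
    _ = sg y D * X + T * L := by rw [c4_TZ T X hT0 hTX]
    _ ≤ sg y D * X + 2 * T0 * L := by
        have := mul_le_mul_of_nonneg_right hTT hL0
        linarith

theorem sg_edge (W i j T X y L T0 : ℕ) (A0 : ℤ) (hW : 2 ≤ W) (hij : i < j) (hT0 : 0 < T)
    (hT : T ≡ 1 [MOD W ^ (j + 1)]) (hTX : T ∣ X) (hA0 : 1 ≤ A0) (hT2 : T ≤ 2 * T0) (hy : 1 ≤ y)
    (hL : (W : ℤ) ^ (j + 1) * (A0 + T + X) < 2 ^ L) :
    ∑ y' ∈ Ico A0 (A0 + X), (if (T : ℤ) ∣ y' - kk W i j T then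
        T * sg y (1 - (W : ℤ) ^ (j - i) + (W : ℤ) ^ (j + 1) * y').natAbs
        else 0) ≤ (sg y T + 1 / y) * X + 2 * T0 * L := by
  obtain ⟨A, hA, hA1, hcop, hbd, hsum⟩ := edge_param W i j T X A0 hW hij hT0 hT hTX hA0
  have h1 := hsum (fun m => sg y m)
  rw [h1]
  have hlt : T * (A + W ^ (j + 1) * (X / T)) < 2 ^ L := by
    have h4 : ((T * (A + W ^ (j + 1) * (X / T)) : ℕ) : ℤ) < 2 ^ L := lt_of_le_of_lt hbd hL
    exact_mod_cast h4
  have hB : 0 < W ^ (j + 1) := by positivity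
  have h2 : ∀ ν ∈ range (X / T), sg y (T * (A + W ^ (j + 1) * ν)) ≤
      sg y T + sg y ((A : ℤ) + ((W ^ (j + 1) : ℕ) : ℤ) * ν).natAbs := by
    intro ν _
    have h3 : ((A : ℤ) + ((W ^ (j + 1) : ℕ) : ℤ) * ν).natAbs = A + W ^ (j + 1) * ν := by
      have : (A : ℤ) + ((W ^ (j + 1) : ℕ) : ℤ) * ν = ((A + W ^ (j + 1) * ν : ℕ) : ℤ) := by
        push_cast; ring
      rw [this, Int.natAbs_natCast]
    rw [h3]
    exact sg_mul_le y T (A + W ^ (j + 1) * ν) hT0 (by positivity)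
  have h5 := sum_sg_le y L hy (A : ℤ) ((W ^ (j + 1) : ℕ) : ℤ) (X / T)
    (fun q hq _ hqβ => c4_cop A (W ^ (j + 1)) q hcop hq hqβ)
    (fun ν _ => by
      have : (0 : ℤ) < (A : ℤ) + ((W ^ (j + 1) : ℕ) : ℤ) * ν := by positivity
      exact this.ne')
    (fun ν hν => by
      have h3 : ((A : ℤ) + ((W ^ (j + 1) : ℕ) : ℤ) * ν).natAbs = A + W ^ (j + 1) * ν := by
        have : (A : ℤ) + ((W ^ (j + 1) : ℕ) : ℤ) * ν = ((A + W ^ (j + 1) * ν : ℕ) : ℤ) := by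
          push_cast; ring
        rw [this, Int.natAbs_natCast]
      rw [h3]
      calc A + W ^ (j + 1) * ν ≤ A + W ^ (j + 1) * (X / T) := by gcongr
        _ ≤ T * (A + W ^ (j + 1) * (X / T)) := Nat.le_mul_of_pos_left _ hT0
        _ < 2 ^ L := hlt)
  have hTR : (0 : ℝ) < T := by exact_mod_cast hT0
  have hTT : (T : ℝ) ≤ 2 * T0 := by exact_mod_cast hT2
  have hL0 : (0 : ℝ) ≤ L := Nat.cast_nonneg L
  have h6 : ∑ ν ∈ range (X / T), sg y (T * (A + W ^ (j + 1) * ν)) ≤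
      ((X / T : ℕ) : ℝ) * sg y T + (((X / T : ℕ) : ℝ) / y + L) := by
    refine le_trans (Finset.sum_le_sum h2) ?_
    rw [Finset.sum_add_distrib, Finset.sum_const, Finset.card_range, nsmul_eq_mul]
    linarith [h5]
  calc (T : ℝ) * ∑ ν ∈ range (X / T), sg y (T * (A + W ^ (j + 1) * ν))
      ≤ T * (((X / T : ℕ) : ℝ) * sg y T + (((X / T : ℕ) : ℝ) / y + L)) :=
        mul_le_mul_of_nonneg_left h6 hTR.le
    _ = (sg y T + 1 / y) * (T * ((X / T : ℕ) : ℝ)) + T * L := by ring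
    _ = (sg y T + 1 / y) * X + T * L := by rw [c4_TZ T X hT0 hTX]
    _ ≤ (sg y T + 1 / y) * X + 2 * T0 * L := by
        have := mul_le_mul_of_nonneg_right hTT hL0
        linarith

end Pool.Agent.Lib.MP_fed790_nt.QP
end

section

/-!
# QP C5e: the single edge estimates

**`E1`.** `edge_exp` and `rare_edge` (`A0 ≥ 1`, `A0 ≤ 3SX - 3X` by `start_mem`,
`W^(j+1) (A0 + T + X) ≤ W^S (4SX) ≤ N'`, `T ≤ 2T0 ≤ X`). `B = ρ X + 2 T0 c1`.

**`F1`.** `edge_exp` and `cop_edge` with `D = T p'' h''` (coprime to all `T p h` as `p'' ≠ p`;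
`D ≤ 2 T0 ≤ X < 2^L`), `sg y D ≤ εT`. `B = εT X + 2 T0 L`.

**`SG`.** `edge_exp` and `sg_edge`; `B = (εT + 1/y) X + 2 T0 L`. Here `U`, `Q` are general: `Q` is a
subset of `Pr` containing `p`.
-/

open Finset

namespace Pool.Agent.Lib.MP_fed790_nt.QP

variable {G : Type*} [AddCommGroup G] {f : ℕ → G} {H : AddSubgroup G} [Fintype H]
  {k y W S t L N' T0 X : ℕ} {δ δ0 εT ε10 ρ c1 : ℝ} {T : Ve S t × Ve S t → H → ℕ}

private theorem c5e_lt {S t : ℕ} {p : Ve S t × Ve S t} (hp : p ∈ Pr S t) :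
    (p.1.1 : ℕ) < (p.2.1 : ℕ) := by
  have h := (mem_filter.mp hp).2
  exact h

private theorem c5e_bound {S t X W T T0 : ℕ} (hW : 2 ≤ W) (hX : 0 < X)
    (hT2 : T ≤ 2 * T0) (hTX : 2 * T0 ≤ X) {p : Ve S t × Ve S t} (hp : p ∈ Pr S t) (a : ℤ)
    (ha : a ∈ Ico (loB S t X p.1) (loB S t X p.1 + X)) :
    (W : ℤ) ^ ((p.2.1 : ℕ) + 1) * ((loB S t X p.2 - a) + T + X) ≤
      ((W ^ S * (4 * S * X) : ℕ) : ℤ) := by
  obtain ⟨h1, h2⟩ := start_mem hX hp a ha
  have hj : (p.2.1 : ℕ) + 1 ≤ S := p.2.1.2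
  have hS : 1 ≤ S := by omega
  have hWZ : (1 : ℤ) ≤ W := by exact_mod_cast (by omega : 1 ≤ W)
  have h3 : (W : ℤ) ^ ((p.2.1 : ℕ) + 1) ≤ (W : ℤ) ^ S := pow_le_pow_right₀ hWZ hj
  have h4 : (T : ℤ) ≤ X := by exact_mod_cast hT2.trans hTX
  have h5 : (0 : ℤ) ≤ (loB S t X p.2 - a) + T + X := by positivity
  have hSX : (X : ℤ) ≤ S * X := by
    have : X ≤ S * X := Nat.le_mul_of_pos_left _ hS
    exact_mod_cast this
  have hX' : (0 : ℤ) ≤ X := by positivity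
  have h6 : (loB S t X p.2 - a) + T + X ≤ 4 * S * X := by
    have : (4 : ℤ) * S * X = 3 * S * X + S * X := by ring
    rw [this]
    linarith
  have h7 : (0 : ℤ) ≤ (W : ℤ) ^ S := by positivity
  push_cast
  calc (W : ℤ) ^ ((p.2.1 : ℕ) + 1) * ((loB S t X p.2 - a) + T + X)
      ≤ (W : ℤ) ^ S * ((loB S t X p.2 - a) + T + X) := mul_le_mul_of_nonneg_right h3 h5
    _ ≤ (W : ℤ) ^ S * (4 * S * X) := mul_le_mul_of_nonneg_left h6 h7

private theorem c5e_Tpos (h : HypIII f H k y W S t L N' T0 X δ δ0 εT ε10 ρ c1 T)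
    {p : Ve S t × Ve S t} (hp : p ∈ Pr S t) (g : H) : 0 < T p g :=
  lt_of_lt_of_le h.hT0 (h.T_ge hp g)

private theorem c5e_div (X : ℕ) (hX : 0 < X) (a b : ℝ) : (a * X + b) / X = a + b / X := by
  have : (X : ℝ) ≠ 0 := by exact_mod_cast hX.ne'
  field_simp

open Classical in
theorem E1 (h : HypIII f H k y W S t L N' T0 X δ δ0 εT ε10 ρ c1 T)
    {p : Ve S t × Ve S t} (hp : p ∈ Pr S t) :
    ∑ x ∈ bx (loB S t X) X, (if f (ee W p x).natAbs ∉ H then (1 : ℝ) else 0) *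
      ∏ p' ∈ Pr S t, ww T (kB W T) p' x ≤ (bx (loB S t X) X).card * (ρ + 2 * T0 * c1 / X) := by
  have h1 := edge_exp h hp (Pr S t) (Finset.Subset.refl _) hp
    (fun m => if f m ∉ H then (1 : ℝ) else 0) (ρ * X + 2 * T0 * c1) ?_
  · rw [c5e_div X h.hX0] at h1
    exact h1
  · intro g a ha
    refine rare_edge h.hf W p.1.1 p.2.1 (T p g) X N' T0 ρ c1 (loB S t X p.2 - a) h.hW
      (c5e_lt hp) (c5e_Tpos h hp g) (h.T_cong hp g) (h.T_dvd hp g) (start_mem h.hX0 hp a ha).1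
      h.hrare (h.fT_mem hp g) h.hc1 (h.T_le2 hp g) ?_
    refine (c5e_bound h.hW h.hX0 (h.T_le2 hp g) h.hTX hp a ha).trans ?_
    exact_mod_cast h.hXN

open Classical in
theorem F1 (h : HypIII f H k y W S t L N' T0 X δ δ0 εT ε10 ρ c1 T)
    {p p'' : Ve S t × Ve S t} (hp : p ∈ Pr S t) (hp'' : p'' ∈ Pr S t) (hne : p ≠ p'') (g : H) :
    ∑ x ∈ bx (loB S t X) X, (if ∃ q : ℕ, q.Prime ∧ y < q ∧ q ∣ T p'' g ∧
        q ∣ (ee W p x).natAbs then (1 : ℝ) else 0) *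
      ∏ p' ∈ Pr S t, ww T (kB W T) p' x ≤ (bx (loB S t X) X).card * (εT + 2 * T0 * L / X) := by
  have h1 := edge_exp h hp (Pr S t) (Finset.Subset.refl _) hp
    (fun m => if ∃ q : ℕ, q.Prime ∧ y < q ∧ q ∣ T p'' g ∧ q ∣ m then (1 : ℝ) else 0)
    (εT * X + 2 * T0 * L) ?_
  · rw [c5e_div X h.hX0] at h1
    exact h1
  · intro g' a ha
    have hS : 1 ≤ S := by
      have := p.2.1.2
      omega
    have hD : 0 < T p'' g := c5e_Tpos h hp'' g
    have hDL : T p'' g < 2 ^ L := by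
      calc T p'' g ≤ 2 * T0 := h.T_le2 hp'' g
        _ ≤ X := h.hTX
        _ ≤ W ^ S * (4 * S * X) := by
            have h2 : 1 ≤ W ^ S := Nat.one_le_pow _ _ (by have := h.hW; omega)
            have h3 : X ≤ 4 * S * X := Nat.le_mul_of_pos_left _ (by omega)
            calc X ≤ 4 * S * X := h3
              _ ≤ W ^ S * (4 * S * X) := Nat.le_mul_of_pos_left _ h2
        _ < 2 ^ L := h.hXL
    have h2 := cop_edge W p.1.1 p.2.1 (T p g') X y L (T p'' g) T0 (loB S t X p.2 - a) h.hW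
      (c5e_lt hp) (c5e_Tpos h hp g') (h.T_cong hp g') (h.T_dvd hp g') (start_mem h.hX0 hp a ha).1
      (h.T_le2 hp g') hD hDL (h.hpool.cop p hp p'' hp'' hne g' g)
    refine h2.trans ?_
    have h3 := h.hpool.sgT p'' hp'' g
    have h4 : (0 : ℝ) ≤ X := Nat.cast_nonneg X
    have := mul_le_mul_of_nonneg_right h3 h4
    linarith

theorem SG (h : HypIII f H k y W S t L N' T0 X δ δ0 εT ε10 ρ c1 T)
    {p : Ve S t × Ve S t} (hp : p ∈ Pr S t) (Q : Finset (Ve S t × Ve S t)) (hQ : Q ⊆ Pr S t)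
    (hpQ : p ∈ Q) :
    ∑ x ∈ bx (loB S t X) X, sg y (ee W p x).natAbs * ∏ p' ∈ Q, ww T (kB W T) p' x ≤
      (bx (loB S t X) X).card * (εT + 1 / y + 2 * T0 * L / X) := by
  have h1 := edge_exp h hp Q hQ hpQ (fun m => sg y m) ((εT + 1 / y) * X + 2 * T0 * L) ?_
  · rw [c5e_div X h.hX0] at h1
    exact h1
  · intro g a ha
    have hL : (W : ℤ) ^ ((p.2.1 : ℕ) + 1) * ((loB S t X p.2 - a) + T p g + X) < 2 ^ L := by
      refine (c5e_bound h.hW h.hX0 (h.T_le2 hp g) h.hTX hp a ha).trans_lt ?_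
      exact_mod_cast h.hXL
    have h2 := sg_edge W p.1.1 p.2.1 (T p g) X y L T0 (loB S t X p.2 - a) h.hW
      (c5e_lt hp) (c5e_Tpos h hp g) (h.T_cong hp g) (h.T_dvd hp g) (start_mem h.hX0 hp a ha).1
      (h.T_le2 hp g) h.hy hL
    refine h2.trans ?_
    have h3 := h.hpool.sgT p hp g
    have h4 : (0 : ℝ) ≤ X := Nat.cast_nonneg X
    have := mul_le_mul_of_nonneg_right (add_le_add_left h3 (1 / (y : ℝ))) h4
    linarith

end Pool.Agent.Lib.MP_fed790_nt.QP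
end

section

/-!
# QP C6s: common prime factors of two different edges

**`F2`.** Let `p ≠ p'` in `Pr`. There is an end point `z` of `p'` which is not an end point of `p`
(otherwise `p' = p`, as levels increase). Let `Φ(x) = 1` if there is a prime `ℓ > y` with
`ℓ ∣ e_p(x)`, `ℓ ∣ e_{p'}(x)`, `ℓ ∤ T p'' h''` for all `p'' ∈ Pr`, `h''`. By `sum_update_real`
`X ∑_x Φ(x) ∏_{Pr} ww = ∑_x ∑_s Φ(x') ∏_{Pr} ww(x')`, `x' = update x z s`. `e_p(x') = e_p(x)`. Split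
`Pr = Q₁ ∪ Q₂`, `Q₁` the pairs containing `z`; `∏_{Q₂} ww(x') = ∏_{Q₂} ww(x)`. `Φ(x') ≤ ∑_ℓ
[ℓ ∣ e_{p'}(x')]` over the primes `ℓ ∣ e_p(x)`, `ℓ > y`, `ℓ ∤` all `T`. For such `ℓ`, `ℓ ∤ W` and
`ℓ ∣ e_{p'}(x') = E + W^(j'+1)(x'_{v'} - x'_{u'})` is a condition `ℓ ∣ s - c_ℓ`. By `vertex_sum` the
sum over `s` is at most `X/ℓ + 𝒯`, `𝒯 = ∏_{p'' ∈ Pr} ∏_h T p'' h` (all `T ≥ 1`, so a product over
a subset with one `h` for each pair is at most `𝒯`). Sum over `ℓ`: at most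
`X sg y (e_p x) + L 𝒯` (at most `L` primes since `e_p(x) < 2^L`, `ee_le`, `hXL`). So
`∑_x Φ ∏_{Pr} ww ≤ ∑_x (sg y (e_p x) + L 𝒯/X) ∏_{Q₂} ww(x)`; `p ∈ Q₂`. `SG` (with `Q = Q₂`) and
`∑_x ∏_{Q₂} ww = #bx` (`sum_out_real`, `Φ = 1`, `U = ∅`).
-/

open Finset

namespace Pool.Agent.Lib.MP_fed790_nt.QP

variable {G : Type*} [AddCommGroup G] {f : ℕ → G} {H : AddSubgroup G} [Fintype H]
  {k y W S t L N' T0 X : ℕ} {δ δ0 εT ε10 ρ c1 : ℝ} {T : Ve S t × Ve S t → H → ℕ}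

private theorem c6s_card (D L : ℕ) (hD : 0 < D) (hDL : D < 2 ^ L) : D.primeFactors.card ≤ L := by
  have h6 : 2 ^ D.primeFactors.card ≤ ∏ q ∈ D.primeFactors, q := by
    rw [← Finset.prod_const]
    exact Finset.prod_le_prod' (fun q hq => (Nat.prime_of_mem_primeFactors hq).two_le)
  have h7 : ∏ q ∈ D.primeFactors, q ≤ D := Nat.le_of_dvd hD (Nat.prod_primeFactors_dvd D)
  have h8 : 2 ^ D.primeFactors.card < 2 ^ L := (h6.trans h7).trans_lt hDL
  exact ((Nat.pow_lt_pow_iff_right (by norm_num)).1 h8).le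

/-- An end point of `p'` which is not an end point of `p`. -/
private theorem c6s_endpoint {p p' : Ve S t × Ve S t} (hp : p ∈ Pr S t) (hp' : p' ∈ Pr S t)
    (hne : p ≠ p') : ∃ z, (p'.1 = z ∨ p'.2 = z) ∧ p.1 ≠ z ∧ p.2 ≠ z := by
  by_contra hcon
  push Not at hcon
  have h1 := hcon p'.1 (Or.inl rfl)
  have h2 := hcon p'.2 (Or.inr rfl)
  have hl : p.1.1 < p.2.1 := (Finset.mem_filter.1 hp).2
  have hl' : p'.1.1 < p'.2.1 := (Finset.mem_filter.1 hp').2
  by_cases ha : p.1 = p'.1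
  · by_cases hb : p.1 = p'.2
    · rw [← ha, ← hb] at hl'
      exact lt_irrefl _ hl'
    · exact hne (Prod.ext ha (h2 hb))
  · have h3 := h1 ha
    by_cases hb : p.1 = p'.2
    · rw [h3, hb] at hl
      exact lt_asymm hl hl'
    · have h4 := h2 hb
      rw [← h3, ← h4] at hl'
      exact lt_irrefl _ hl'

/-- The condition on the coordinate `z`. -/
private theorem c6s_cond {p' : Ve S t × Ve S t} (hp' : p' ∈ Pr S t) {z : Ve S t}
    (hz : p'.1 = z ∨ p'.2 = z) (x : Ve S t → ℤ) {ℓ : ℕ} (hℓ : ℓ.Prime) (hW : ¬ ℓ ∣ W) :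
    ∃ c : ℤ, ∀ s : ℤ, ℓ ∣ (ee W p' (Function.update x z s)).natAbs → (ℓ : ℤ) ∣ s - c := by
  have hne : p'.1 ≠ p'.2 := pair_ne hp'
  have hcop : IsCoprime ((W : ℤ) ^ ((p'.2.1 : ℕ) + 1)) (ℓ : ℤ) := by
    apply IsCoprime.pow_left
    rw [Nat.isCoprime_iff_coprime]
    exact ((Nat.Prime.coprime_iff_not_dvd hℓ).2 hW).symm
  obtain ⟨a, b, hab⟩ := hcop
  set w : ℤ := (W : ℤ) ^ ((p'.2.1 : ℕ) + 1) with hw
  set E : ℤ := 1 - (W : ℤ) ^ ((p'.2.1 : ℕ) - p'.1.1) with hE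
  rcases hz with hz | hz
  · refine ⟨x p'.2 + a * E, fun s hs => ?_⟩
    have h1 : (ℓ : ℤ) ∣ ee W p' (Function.update x z s) := Int.natCast_dvd.2 hs
    have h2 : ee W p' (Function.update x z s) = E + w * (x p'.2 - s) := by
      unfold ee
      rw [hz, Function.update_self, Function.update_of_ne (by rw [← hz]; exact hne.symm), ← hz]
    rw [h2] at h1
    obtain ⟨d, hd⟩ := h1
    refine ⟨-(a * d + b * (x p'.2 - s)), ?_⟩
    linear_combination (-a) * hd + (x p'.2 - s) * hab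
  · refine ⟨x p'.1 - a * E, fun s hs => ?_⟩
    have h1 : (ℓ : ℤ) ∣ ee W p' (Function.update x z s) := Int.natCast_dvd.2 hs
    have h2 : ee W p' (Function.update x z s) = E + w * (s - x p'.1) := by
      unfold ee
      rw [hz, Function.update_self, Function.update_of_ne (by rw [← hz]; exact hne), ← hz]
    rw [h2] at h1
    obtain ⟨d, hd⟩ := h1
    refine ⟨a * d + b * (s - x p'.1), ?_⟩
    linear_combination a * hd - (s - x p'.1) * hab

private theorem c6s_ww {V η : Type*} [DecidableEq V] [Fintype η] (T : V × V → η → ℕ)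
    (κ : V × V → η → ℤ) (p : V × V) (z : V) (h1 : p.1 ≠ z) (h2 : p.2 ≠ z) (x : V → ℤ) (s : ℤ) :
    ww T κ p (Function.update x z s) = ww T κ p x := by
  unfold ww
  rw [Function.update_of_ne h1, Function.update_of_ne h2]

open Classical in
theorem F2 (h : HypIII f H k y W S t L N' T0 X δ δ0 εT ε10 ρ c1 T)
    {p p' : Ve S t × Ve S t} (hp : p ∈ Pr S t) (hp' : p' ∈ Pr S t) (hne : p ≠ p') :
    ∑ x ∈ bx (loB S t X) X, (if ∃ ℓ : ℕ, ℓ.Prime ∧ y < ℓ ∧ (∀ p'' ∈ Pr S t, ∀ g, ¬ ℓ ∣ T p'' g) ∧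
        ℓ ∣ (ee W p x).natAbs ∧ ℓ ∣ (ee W p' x).natAbs then (1 : ℝ) else 0) *
      ∏ p'' ∈ Pr S t, ww T (kB W T) p'' x ≤
      (bx (loB S t X) X).card * (εT + 1 / y + 2 * T0 * L / X +
        L * (∏ p'' ∈ Pr S t, ∏ g, (T p'' g : ℝ)) / X) := by
  obtain ⟨z, hz, hz1, hz2⟩ := c6s_endpoint hp hp' hne
  have hW1 : 1 ≤ W := by have := h.hW; omega
  have hX0 : (0 : ℝ) < X := by exact_mod_cast h.hX0
  have hTpos : ∀ q ∈ Pr S t, ∀ g, 0 < T q g := fun q hq g =>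
    lt_of_lt_of_le h.hT0 (h.T_ge hq g)
  set Q1 := (Pr S t).filter (fun q => q.1 = z ∨ q.2 = z) with hQ1
  set Q2 := (Pr S t).filter (fun q => ¬ (q.1 = z ∨ q.2 = z)) with hQ2
  set TT : ℝ := ∏ q ∈ Pr S t, ∏ g, (T q g : ℝ) with hTT
  have hTT1 : ∀ q ∈ Pr S t, (1 : ℝ) ≤ ∏ g, (T q g : ℝ) := by
    intro q hq
    have h1 : 1 ≤ ∏ g, T q g := Nat.one_le_iff_ne_zero.2 (Finset.prod_ne_zero_iff.2
      (fun g _ => (hTpos q hq g).ne'))
    exact_mod_cast h1
  have hTT0 : 0 ≤ TT := Finset.prod_nonneg (fun q hq => zero_le_one.trans (hTT1 q hq))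
  have hB : (∏ q ∈ Q1, ∏ g, (T q g : ℝ)) ≤ TT := by
    have h1 : TT = (∏ q ∈ Q1, ∏ g, (T q g : ℝ)) * ∏ q ∈ Q2, ∏ g, (T q g : ℝ) := by
      rw [hTT, hQ1, hQ2]
      exact (Finset.prod_filter_mul_prod_filter_not _ _ _).symm
    rw [h1]
    refine le_mul_of_one_le_right ?_ ?_
    · exact Finset.prod_nonneg (fun q hq =>
        zero_le_one.trans (hTT1 q (Finset.mem_filter.1 hq).1))
    · calc (1 : ℝ) = ∏ q ∈ Q2, (1 : ℝ) := by rw [Finset.prod_const_one]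
        _ ≤ ∏ q ∈ Q2, ∏ g, (T q g : ℝ) := Finset.prod_le_prod (fun _ _ => zero_le_one)
            (fun q hq => hTT1 q (Finset.mem_filter.1 hq).1)
  set Φ : (Ve S t → ℤ) → ℝ := fun x => if ∃ ℓ : ℕ, ℓ.Prime ∧ y < ℓ ∧
      (∀ p'' ∈ Pr S t, ∀ g, ¬ ℓ ∣ T p'' g) ∧
      ℓ ∣ (ee W p x).natAbs ∧ ℓ ∣ (ee W p' x).natAbs then (1 : ℝ) else 0 with hΦ
  have hee : ∀ (x : Ve S t → ℤ) (s : ℤ), ee W p (Function.update x z s) = ee W p x := by
    intro x s
    unfold ee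
    rw [Function.update_of_ne hz1, Function.update_of_ne hz2]
  have hkey : ∀ x ∈ bx (loB S t X) X,
      ∑ s ∈ Ico (loB S t X z) (loB S t X z + X), Φ (Function.update x z s) *
        ∏ q ∈ Pr S t, ww T (kB W T) q (Function.update x z s) ≤
      (X * sg y (ee W p x).natAbs + L * TT) * ∏ q ∈ Q2, ww T (kB W T) q x := by
    intro x hx
    set n : ℕ := (ee W p x).natAbs with hn
    have hpos : 0 < ee W p x := ee_pos h.hX0 hW1 hp hx
    have hnpos : 0 < n := Int.natAbs_pos.2 hpos.ne'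
    have hnL : n < 2 ^ L := by
      have h1 : ee W p x ≤ W ^ S * (3 * S * X) := ee_le h.hX0 hW1 hp hx
      have h2 : (n : ℤ) = ee W p x := Int.natAbs_of_nonneg hpos.le
      have h3 : (n : ℤ) ≤ ((W ^ S * (3 * S * X) : ℕ) : ℤ) := by
        rw [h2]
        push_cast
        exact h1
      have h4 : n ≤ W ^ S * (3 * S * X) := by exact_mod_cast h3
      have h5 : W ^ S * (3 * S * X) ≤ W ^ S * (4 * S * X) := by gcongr; norm_num
      exact lt_of_le_of_lt (h4.trans h5) h.hXL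
    set LL : Finset ℕ := (n.primeFactors.filter (fun ℓ => y < ℓ)).filter
      (fun ℓ => ∀ p'' ∈ Pr S t, ∀ g, ¬ ℓ ∣ T p'' g) with hLL
    have hLLp : ∀ ℓ ∈ LL, ℓ.Prime ∧ y < ℓ ∧ (∀ p'' ∈ Pr S t, ∀ g, ¬ ℓ ∣ T p'' g) ∧ ℓ ∣ n := by
      intro ℓ hℓ
      rw [hLL, Finset.mem_filter, Finset.mem_filter] at hℓ
      exact ⟨Nat.prime_of_mem_primeFactors hℓ.1.1, hℓ.1.2, hℓ.2,
        Nat.dvd_of_mem_primeFactors hℓ.1.1⟩
    have hc : ∀ ℓ : ℕ, ∃ c : ℤ, ℓ ∈ LL → ∀ s : ℤ,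
        ℓ ∣ (ee W p' (Function.update x z s)).natAbs → (ℓ : ℤ) ∣ s - c := by
      intro ℓ
      by_cases hℓ : ℓ ∈ LL
      · obtain ⟨h1, h2, _, _⟩ := hLLp ℓ hℓ
        obtain ⟨c, hc⟩ := c6s_cond (W := W) hp' hz x h1
          (fun h3 => absurd ((h.hWy ℓ h1).1 h3) (not_le.2 h2))
        exact ⟨c, fun _ => hc⟩
      · exact ⟨0, fun h1 => absurd h1 hℓ⟩
    choose c hc using hc
    have hΦle : ∀ s : ℤ, Φ (Function.update x z s) ≤
        ∑ ℓ ∈ LL, (if (ℓ : ℤ) ∣ s - c ℓ then (1 : ℝ) else 0) := by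
      intro s
      simp only [hΦ]
      split_ifs with h1
      · obtain ⟨ℓ, hℓ1, hℓ2, hℓ3, hℓ4, hℓ5⟩ := h1
        rw [hee x s] at hℓ4
        have hmem : ℓ ∈ LL := by
          rw [hLL, Finset.mem_filter, Finset.mem_filter, Nat.mem_primeFactors]
          exact ⟨⟨⟨hℓ1, hℓ4, hnpos.ne'⟩, hℓ2⟩, hℓ3⟩
        have h2 : (if (ℓ : ℤ) ∣ s - c ℓ then (1 : ℝ) else 0) = 1 := if_pos (hc ℓ hmem s hℓ5)
        exact h2.symm.le.trans
          (Finset.single_le_sum (f := fun ℓ : ℕ => (if (ℓ : ℤ) ∣ s - c ℓ then (1 : ℝ) else 0))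
            (fun i _ => by positivity) hmem)
      · exact Finset.sum_nonneg (fun i _ => by positivity)
    have hsplit : ∀ s : ℤ, ∏ q ∈ Pr S t, ww T (kB W T) q (Function.update x z s) =
        (∏ q ∈ Q1, ww T (kB W T) q (Function.update x z s)) * ∏ q ∈ Q2, ww T (kB W T) q x := by
      intro s
      rw [← Finset.prod_filter_mul_prod_filter_not (Pr S t) (fun q => q.1 = z ∨ q.2 = z)]
      congr 1
      refine Finset.prod_congr rfl (fun q hq => ?_)
      have h1 := (Finset.mem_filter.1 hq).2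
      push Not at h1
      exact c6s_ww T (kB W T) q z h1.1 h1.2 x s
    have hP2 : 0 ≤ ∏ q ∈ Q2, ww T (kB W T) q x :=
      Finset.prod_nonneg (fun q _ => ww_nonneg T (kB W T) q x)
    have hsum1 : ∑ s ∈ Ico (loB S t X z) (loB S t X z + X), Φ (Function.update x z s) *
        ∏ q ∈ Q1, ww T (kB W T) q (Function.update x z s) ≤
        X * sg y n + L * TT := by
      calc ∑ s ∈ Ico (loB S t X z) (loB S t X z + X), Φ (Function.update x z s) *
            ∏ q ∈ Q1, ww T (kB W T) q (Function.update x z s)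
          ≤ ∑ s ∈ Ico (loB S t X z) (loB S t X z + X),
            (∑ ℓ ∈ LL, (if (ℓ : ℤ) ∣ s - c ℓ then (1 : ℝ) else 0)) *
            ∏ q ∈ Q1, ww T (kB W T) q (Function.update x z s) := by
            refine Finset.sum_le_sum (fun s _ => ?_)
            exact mul_le_mul_of_nonneg_right (hΦle s)
              (Finset.prod_nonneg (fun q _ => ww_nonneg T (kB W T) q _))
        _ = ∑ ℓ ∈ LL, ∑ s ∈ Ico (loB S t X z) (loB S t X z + X),
            (if (ℓ : ℤ) ∣ s - c ℓ then (1 : ℝ) else 0) *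
            ∏ q ∈ Q1, ww T (kB W T) q (Function.update x z s) := by
            rw [Finset.sum_comm]
            refine Finset.sum_congr rfl (fun s _ => ?_)
            rw [Finset.sum_mul]
        _ ≤ ∑ ℓ ∈ LL, ((X : ℝ) / ℓ + TT) := by
            refine Finset.sum_le_sum (fun ℓ hℓ => ?_)
            obtain ⟨h1, h2, h3, h4⟩ := hLLp ℓ hℓ
            exact vertex_sum T (kB W T) (loB S t X z) X Q1 z
              (fun q hq g => hTpos q (Finset.mem_filter.1 hq).1 g)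
              (fun q hq => ⟨pair_ne (Finset.mem_filter.1 hq).1, (Finset.mem_filter.1 hq).2⟩)
              (fun q hq q' hq' hqq g g' => h.hpool.cop q (Finset.mem_filter.1 hq).1 q'
                (Finset.mem_filter.1 hq').1 hqq g g')
              TT hB x ℓ h1 (fun q hq g => h3 q (Finset.mem_filter.1 hq).1 g) (c ℓ)
        _ = X * (∑ ℓ ∈ LL, (1 : ℝ) / ℓ) + LL.card * TT := by
            rw [Finset.sum_add_distrib, Finset.sum_const, nsmul_eq_mul, Finset.mul_sum]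
            congr 1
            refine Finset.sum_congr rfl (fun ℓ _ => ?_)
            ring
        _ ≤ X * sg y n + L * TT := by
            have h1 : ∑ ℓ ∈ LL, (1 : ℝ) / ℓ ≤ sg y n := by
              unfold sg
              exact Finset.sum_le_sum_of_subset_of_nonneg (Finset.filter_subset _ _)
                (fun i _ _ => by positivity)
            have h2 : LL.card ≤ L := by
              refine le_trans (Finset.card_le_card ?_) (c6s_card n L hnpos hnL)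
              exact (Finset.filter_subset _ _).trans (Finset.filter_subset _ _)
            have h3 : (LL.card : ℝ) ≤ L := by exact_mod_cast h2
            have h4 := mul_le_mul_of_nonneg_left h1 hX0.le
            have h5 := mul_le_mul_of_nonneg_right h3 hTT0
            linarith
    calc ∑ s ∈ Ico (loB S t X z) (loB S t X z + X), Φ (Function.update x z s) *
          ∏ q ∈ Pr S t, ww T (kB W T) q (Function.update x z s)
        = (∑ s ∈ Ico (loB S t X z) (loB S t X z + X), Φ (Function.update x z s) *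
          ∏ q ∈ Q1, ww T (kB W T) q (Function.update x z s)) *
          ∏ q ∈ Q2, ww T (kB W T) q x := by
          rw [Finset.sum_mul]
          refine Finset.sum_congr rfl (fun s _ => ?_)
          rw [hsplit s]
          ring
      _ ≤ _ := mul_le_mul_of_nonneg_right hsum1 hP2
  have hupd := sum_update_real (loB S t X) X z
    (fun x => Φ x * ∏ q ∈ Pr S t, ww T (kB W T) q x)
  have hmain : X * ∑ x ∈ bx (loB S t X) X, Φ x * ∏ q ∈ Pr S t, ww T (kB W T) q x ≤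
      ∑ x ∈ bx (loB S t X) X,
        (X * sg y (ee W p x).natAbs + L * TT) * ∏ q ∈ Q2, ww T (kB W T) q x := by
    rw [← hupd]
    exact Finset.sum_le_sum hkey
  have hpQ2 : p ∈ Q2 := by
    rw [hQ2, Finset.mem_filter]
    refine ⟨hp, ?_⟩
    push Not
    exact ⟨hz1, hz2⟩
  have hsg := SG h hp Q2 (Finset.filter_subset _ _) hpQ2
  have hnonempty : Nonempty H := ⟨0⟩
  have hone : ∑ x ∈ bx (loB S t X) X, ∏ q ∈ Q2, ww T (kB W T) q x =
      ((bx (loB S t X) X).card : ℝ) := by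
    have h1 := sum_out_real T (kB W T) (loB S t X) X Q2 ∅
      (fun q hq g => hTpos q (Finset.mem_filter.1 hq).1 g)
      (fun q hq => ⟨pair_ne (Finset.mem_filter.1 hq).1, Or.inl (Finset.notMem_empty _)⟩)
      (fun q hq q' hq' hqq g g' => h.hpool.cop q (Finset.mem_filter.1 hq).1 q'
        (Finset.mem_filter.1 hq').1 hqq g g')
      (by
        refine dvd_trans (Finset.prod_dvd_prod_of_subset Q2 (Pr S t) _
          (Finset.filter_subset _ _)) h.hX)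
      (fun _ => 1) (fun _ _ _ => rfl)
    simp only [one_mul, Finset.sum_const, nsmul_eq_mul, mul_one] at h1
    exact h1
  have hexp : ∑ x ∈ bx (loB S t X) X,
        (X * sg y (ee W p x).natAbs + L * TT) * ∏ q ∈ Q2, ww T (kB W T) q x =
      X * (∑ x ∈ bx (loB S t X) X, sg y (ee W p x).natAbs * ∏ q ∈ Q2, ww T (kB W T) q x) +
      L * TT * ∑ x ∈ bx (loB S t X) X, ∏ q ∈ Q2, ww T (kB W T) q x := by
    rw [Finset.mul_sum, Finset.mul_sum, ← Finset.sum_add_distrib]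
    refine Finset.sum_congr rfl (fun x _ => ?_)
    ring
  rw [hexp, hone] at hmain
  have h2 := mul_le_mul_of_nonneg_left hsg hX0.le
  have h3 : X * ∑ x ∈ bx (loB S t X) X, Φ x * ∏ q ∈ Pr S t, ww T (kB W T) q x ≤
      X * ((bx (loB S t X) X).card * (εT + 1 / y + 2 * T0 * L / X + L * TT / X)) := by
    have h4 : (X : ℝ) * ((bx (loB S t X) X).card * (εT + 1 / y + 2 * T0 * L / X + L * TT / X)) =
        X * ((bx (loB S t X) X).card * (εT + 1 / y + 2 * T0 * L / X)) +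
        L * TT * (bx (loB S t X) X).card := by
      field_simp
    rw [h4]
    linarith
  exact le_of_mul_le_mul_left h3 hX0

end Pool.Agent.Lib.MP_fed790_nt.QP
end

section

/-!
# QP C8s: localisation

**`loc`.** Notation: `I_c = [α + c Z', α + (c+1) Z')`, `c < K²`, `J_b = [γ + b Y, γ + (b+1) Y)`,
`b < K`, `X = K Y = K² Z'`, `win b c = [γ + bY - α - cZ', … + Y)`.
For `a ∈ I_c`, `a' ∈ I_c'` put `C = ∑_{s ∈ [γ,γ+X)} Φ(s-a) conj Φ'(s-a') = ∑_b C_b`, so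
`|C|² ≤ K ∑_b |C_b|²`. Let `main_b = ∑_s [s - a ∈ win b c] [s - a' ∈ win b c'] Φ(s-a) conj Φ'(s-a')`
(sum over all integers `s`). With `σ = a - α - cZ'`, `σ' = a' - α - c'Z'`, `0 ≤ σ, σ' < Z'`, `main_b`
is the sum over `s ∈ [γ+bY + max(σ,σ'), γ+bY+Y + min(σ,σ'))`, which differs from `J_b` by two
intervals with less than `Z'` elements, so `|C_b - main_b| ≤ 4 Z'` by `hbd`, and
`|C_b|² ≤ 2 |main_b|² + 32 Z'²`. For fixed `a`, `∑_{a' ∈ I_c'} |main_b|² ≤ av(…)` by `corr_sub`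
(`s - a = y`, `s - a' = y - (a' - a)`, `g = a' - a` are different for different `a'`). Sum over
`a ∈ I_c` (`Z'` values), over `c, c'`, `b`:
`∑_{a,a'} |C|² ≤ K (2 Z' ∑_{b,c,c'} av(…) + X² K 32 Z'²) = 2 K Z' ∑ av + 32 X² Y²` (`K Z' = Y`).
-/

open Finset

namespace Pool.Agent.Lib.MP_fed790_nt.QP

private lemma loc_split {M : Type*} [AddCommMonoid M] (f : ℤ → M) {a b c : ℤ} (hab : a ≤ b)
    (hbc : b ≤ c) : ∑ x ∈ Ico a c, f x = ∑ x ∈ Ico a b, f x + ∑ x ∈ Ico b c, f x := by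
  rw [← Finset.sum_union]
  · congr 1
    ext x
    simp only [mem_Ico, mem_union]
    omega
  · rw [Finset.disjoint_left]
    intro x
    simp only [mem_Ico]
    omega

private lemma loc_blocks {M : Type*} [AddCommMonoid M] (f : ℤ → M) (a : ℤ) (m n : ℕ) :
    ∑ x ∈ Ico a (a + ((m * n : ℕ) : ℤ)), f x =
      ∑ c ∈ range m, ∑ x ∈ Ico (a + c * n) (a + c * n + n), f x := by
  induction m with
  | zero => simp
  | succ m ih =>
    have h1 : (((m + 1) * n : ℕ) : ℤ) = m * n + n := by push_cast; ring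
    have h2 : ((m * n : ℕ) : ℤ) = m * n := by push_cast; ring
    have h3 : (0 : ℤ) ≤ m * n := by positivity
    rw [Finset.sum_range_succ, ← ih, h1, h2, ← add_assoc]
    exact loc_split f (by linarith) (by linarith [Int.natCast_nonneg n])

private lemma loc_pair (Φ Φ' : ℤ → ℂ) (p w w' a a' : ℤ) (Y Z' : ℕ) (hYZ : Z' ≤ Y)
    (h1 : p ≤ w + a) (h2 : w + a < p + Z') (h1' : p ≤ w' + a') (h2' : w' + a' < p + Z')
    (hbd : ∀ c : ℤ, ∀ ℓ : ℕ,
      ‖∑ s ∈ Ico c (c + ℓ), Φ (s - a) * starRingEnd ℂ (Φ' (s - a'))‖ ≤ ℓ + Z') :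
    ‖∑ s ∈ Ico p (p + Y), Φ (s - a) * starRingEnd ℂ (Φ' (s - a'))‖ ^ 2 ≤
      2 * ‖∑ y ∈ (Ico w (w + Y)).filter (fun y => y - (a' - a) ∈ Ico w' (w' + Y)),
        Φ y * starRingEnd ℂ (Φ' (y - (a' - a)))‖ ^ 2 + 32 * (Z' : ℝ) ^ 2 := by
  obtain ⟨σ, hσ⟩ := Int.eq_ofNat_of_zero_le (a := w + a - p) (by linarith)
  obtain ⟨σ', hσ'⟩ := Int.eq_ofNat_of_zero_le (a := w' + a' - p) (by linarith)
  have hσZ : σ < Z' := by omega
  have hσZ' : σ' < Z' := by omega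
  set m := max σ σ' with hm
  set n := min σ σ' with hn
  have hmZ : m < Z' := max_lt hσZ hσZ'
  have hnZ : n < Z' := lt_of_le_of_lt (min_le_left _ _) hσZ
  have hmain : ∑ y ∈ (Ico w (w + Y)).filter (fun y => y - (a' - a) ∈ Ico w' (w' + Y)),
        Φ y * starRingEnd ℂ (Φ' (y - (a' - a))) =
      ∑ s ∈ Ico (p + m) (p + Y + n), Φ (s - a) * starRingEnd ℂ (Φ' (s - a')) := by
    refine Finset.sum_nbij' (fun y => y + a) (fun s => s - a) ?_ ?_ ?_ ?_ ?_
    · intro y hy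
      simp only [mem_filter, mem_Ico] at hy
      simp only [mem_Ico]
      omega
    · intro s hs
      simp only [mem_Ico] at hs
      simp only [mem_filter, mem_Ico]
      omega
    · intro y _
      ring
    · intro s _
      ring
    · intro y _
      have e1 : y + a - a = y := by ring
      have e2 : y + a - a' = y - (a' - a) := by ring
      rw [e1, e2]
  rw [hmain]
  have hs1 := loc_split (fun s => Φ (s - a) * starRingEnd ℂ (Φ' (s - a'))) (a := p) (b := p + m)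
    (c := p + Y) (by linarith [Int.natCast_nonneg m]) (by have : m ≤ Y := by omega
                                                          have : (m : ℤ) ≤ Y := by exact_mod_cast this
                                                          linarith)
  have hs2 := loc_split (fun s => Φ (s - a) * starRingEnd ℂ (Φ' (s - a'))) (a := p + m)
    (b := p + Y) (c := p + Y + n) (by have : m ≤ Y := by omega
                                      have : (m : ℤ) ≤ Y := by exact_mod_cast this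
                                      linarith) (by linarith [Int.natCast_nonneg n])
  rw [hs1, hs2]
  have b1 := hbd p m
  have b2 := hbd (p + Y) n
  set A := ∑ s ∈ Ico p (p + m), Φ (s - a) * starRingEnd ℂ (Φ' (s - a'))
  set B := ∑ s ∈ Ico (p + m) (p + Y), Φ (s - a) * starRingEnd ℂ (Φ' (s - a'))
  set E := ∑ s ∈ Ico (p + Y) (p + Y + n), Φ (s - a) * starRingEnd ℂ (Φ' (s - a'))
  have hmr : (m : ℝ) ≤ Z' := by exact_mod_cast hmZ.le
  have hnr : (n : ℝ) ≤ Z' := by exact_mod_cast hnZ.le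
  have h3 : ‖A + B‖ ≤ ‖B + E‖ + 4 * Z' := by
    calc ‖A + B‖ = ‖(B + E) + (A - E)‖ := by congr 1; ring
      _ ≤ ‖B + E‖ + ‖A - E‖ := norm_add_le _ _
      _ ≤ ‖B + E‖ + (‖A‖ + ‖E‖) := by gcongr; exact norm_sub_le _ _
      _ ≤ _ := by linarith
  have h4 : 0 ≤ ‖A + B‖ := norm_nonneg _
  have h5 : (0 : ℝ) ≤ Z' := by positivity
  nlinarith [norm_nonneg (B + E), sq_nonneg (‖B + E‖ - 4 * Z'), mul_self_le_mul_self h4 h3]

theorem loc (Φ Φ' : ℤ → ℂ) (γ α : ℤ) (X Y Z' K N : ℕ) (hX : X = K * Y) (hY : Y = K * Z')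
    (hK : 0 < K) (hZ' : 0 < Z') (hN : 4 * Y ≤ N)
    (hbd : ∀ a a' c : ℤ, ∀ ℓ : ℕ,
      ‖∑ s ∈ Ico c (c + ℓ), Φ (s - a) * starRingEnd ℂ (Φ' (s - a'))‖ ≤ ℓ + Z') :
    ∑ a ∈ Ico α (α + X), ∑ a' ∈ Ico α (α + X),
      ‖∑ s ∈ Ico γ (γ + X), Φ (s - a) * starRingEnd ℂ (Φ' (s - a'))‖ ^ 2 ≤
    32 * (X : ℝ) ^ 2 * (Y : ℝ) ^ 2 + 2 * K * Z' * ∑ b ∈ range K, ∑ c ∈ range (K ^ 2),
      ∑ c' ∈ range (K ^ 2), av N (fun z =>
        ‖tp (Ico (γ + b * Y - α - c * Z') (γ + b * Y - α - c * Z' + Y)) Φ z‖ ^ 2 *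
        ‖tp (Ico (γ + b * Y - α - c' * Z') (γ + b * Y - α - c' * Z' + Y)) Φ' z‖ ^ 2) := by
  have hYpos : 0 < Y := by rw [hY]; exact Nat.mul_pos hK hZ'
  have hZY : Z' ≤ Y := by rw [hY]; exact Nat.le_mul_of_pos_left _ hK
  have hXe : X = K ^ 2 * Z' := by rw [hX, hY]; ring
  -- the average
  set avv : ℕ → ℕ → ℕ → ℝ := fun b c c' => av N (fun z =>
        ‖tp (Ico (γ + b * Y - α - c * Z') (γ + b * Y - α - c * Z' + Y)) Φ z‖ ^ 2 *
        ‖tp (Ico (γ + b * Y - α - c' * Z') (γ + b * Y - α - c' * Z' + Y)) Φ' z‖ ^ 2) with havv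
  -- one row
  have row : ∀ c ∈ range (K ^ 2), ∀ a ∈ Ico (α + c * Z') (α + c * Z' + Z'), ∀ c' ∈ range (K ^ 2),
      ∑ a' ∈ Ico (α + c' * Z') (α + c' * Z' + Z'),
        ‖∑ s ∈ Ico γ (γ + X), Φ (s - a) * starRingEnd ℂ (Φ' (s - a'))‖ ^ 2 ≤
      ∑ b ∈ range K, K * (2 * avv b c c' + 32 * (Z' : ℝ) ^ 3) := by
    intro c _ a ha c' _
    rw [mem_Ico] at ha
    have h1 : ∀ a' ∈ Ico (α + c' * Z') (α + c' * Z' + Z'),
        ‖∑ s ∈ Ico γ (γ + X), Φ (s - a) * starRingEnd ℂ (Φ' (s - a'))‖ ^ 2 ≤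
        ∑ b ∈ range K, K * (2 * ‖∑ y ∈ (Ico (γ + b * Y - α - c * Z')
          (γ + b * Y - α - c * Z' + Y)).filter (fun y => y - (a' - a) ∈
            Ico (γ + b * Y - α - c' * Z') (γ + b * Y - α - c' * Z' + Y)),
            Φ y * starRingEnd ℂ (Φ' (y - (a' - a)))‖ ^ 2 + 32 * (Z' : ℝ) ^ 2) := by
      intro a' ha'
      rw [mem_Ico] at ha'
      have e1 : ∑ s ∈ Ico γ (γ + X), Φ (s - a) * starRingEnd ℂ (Φ' (s - a')) =
          ∑ b ∈ range K, ∑ s ∈ Ico (γ + b * Y) (γ + b * Y + Y),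
            Φ (s - a) * starRingEnd ℂ (Φ' (s - a')) := by
        rw [hX]
        exact loc_blocks _ _ _ _
      rw [e1]
      have e2 : ‖∑ b ∈ range K, ∑ s ∈ Ico (γ + b * Y) (γ + b * Y + Y),
            Φ (s - a) * starRingEnd ℂ (Φ' (s - a'))‖ ^ 2 ≤
          K * ∑ b ∈ range K, ‖∑ s ∈ Ico (γ + b * Y) (γ + b * Y + Y),
            Φ (s - a) * starRingEnd ℂ (Φ' (s - a'))‖ ^ 2 := by
        calc _ ≤ (∑ b ∈ range K, ‖∑ s ∈ Ico (γ + b * Y) (γ + b * Y + Y),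
            Φ (s - a) * starRingEnd ℂ (Φ' (s - a'))‖) ^ 2 := by
              gcongr
              exact norm_sum_le _ _
          _ ≤ _ := by
              have := sq_sum_le_card_mul_sum_sq (s := range K)
                (f := fun b : ℕ => ‖∑ s ∈ Ico (γ + b * Y) (γ + b * Y + Y),
                  Φ (s - a) * starRingEnd ℂ (Φ' (s - a'))‖)
              simpa using this
      refine e2.trans ?_
      rw [Finset.mul_sum]
      apply Finset.sum_le_sum
      intro b _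
      gcongr
      exact loc_pair Φ Φ' (γ + b * Y) _ _ a a' Y Z' hZY (by linarith) (by linarith)
        (by linarith) (by linarith) (fun c ℓ => hbd a a' c ℓ)
    refine (Finset.sum_le_sum h1).trans ?_
    rw [Finset.sum_comm]
    apply Finset.sum_le_sum
    intro b _
    rw [← Finset.mul_sum]
    gcongr
    rw [Finset.sum_add_distrib, ← Finset.mul_sum]
    have h2 : ∑ a' ∈ Ico (α + c' * Z') (α + c' * Z' + Z'), ‖∑ y ∈ (Ico (γ + b * Y - α - c * Z')
          (γ + b * Y - α - c * Z' + Y)).filter (fun y => y - (a' - a) ∈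
            Ico (γ + b * Y - α - c' * Z') (γ + b * Y - α - c' * Z' + Y)),
            Φ y * starRingEnd ℂ (Φ' (y - (a' - a)))‖ ^ 2 ≤ avv b c c' := by
      have h3 := corr_sub Φ Φ' (γ + b * Y - α - c * Z') (γ + b * Y - α - c' * Z') Y N (by omega)
        (by omega) ((Ico (α + c' * Z') (α + c' * Z' + Z')).image (fun a' => a' - a))
      rw [Finset.sum_image (by intro x _ y _ hxy; simpa using hxy)] at h3
      exact h3
    have h4 : ∑ a' ∈ Ico (α + c' * (Z' : ℤ)) (α + c' * Z' + Z'), 32 * (Z' : ℝ) ^ 2 =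
        32 * (Z' : ℝ) ^ 3 := by
      rw [Finset.sum_const, Int.card_Ico]
      have : (α + c' * (Z' : ℤ) + Z' - (α + c' * Z')).toNat = Z' := by
        rw [show α + c' * (Z' : ℤ) + Z' - (α + c' * Z') = Z' by ring]
        simp
      rw [this, nsmul_eq_mul]
      ring
    rw [h4]
    linarith
  have e0 : ∀ f : ℤ → ℝ, ∑ a ∈ Ico α (α + X), f a =
      ∑ c ∈ range (K ^ 2), ∑ a ∈ Ico (α + c * Z') (α + c * Z' + Z'), f a := by
    intro f
    rw [hXe]
    exact loc_blocks _ _ _ _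
  rw [e0]
  have h5 : ∀ c ∈ range (K ^ 2), ∑ a ∈ Ico (α + c * Z') (α + c * Z' + Z'),
      ∑ a' ∈ Ico α (α + X),
        ‖∑ s ∈ Ico γ (γ + X), Φ (s - a) * starRingEnd ℂ (Φ' (s - a'))‖ ^ 2 ≤
      Z' * ∑ c' ∈ range (K ^ 2), ∑ b ∈ range K, K * (2 * avv b c c' + 32 * (Z' : ℝ) ^ 3) := by
    intro c hc
    have h6 : ∀ a ∈ Ico (α + c * Z') (α + c * Z' + Z'), ∑ a' ∈ Ico α (α + X),
        ‖∑ s ∈ Ico γ (γ + X), Φ (s - a) * starRingEnd ℂ (Φ' (s - a'))‖ ^ 2 ≤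
        ∑ c' ∈ range (K ^ 2), ∑ b ∈ range K, K * (2 * avv b c c' + 32 * (Z' : ℝ) ^ 3) := by
      intro a ha
      rw [e0]
      exact Finset.sum_le_sum (fun c' hc' => row c hc a ha c' hc')
    refine (Finset.sum_le_sum h6).trans (le_of_eq ?_)
    rw [Finset.sum_const, Int.card_Ico]
    have : (α + c * (Z' : ℤ) + Z' - (α + c * Z')).toNat = Z' := by
      rw [show α + c * (Z' : ℤ) + Z' - (α + c * Z') = Z' by ring]
      simp
    rw [this, nsmul_eq_mul]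
  refine (Finset.sum_le_sum h5).trans (le_of_eq ?_)
  have h7 : ∑ b ∈ range K, ∑ c ∈ range (K ^ 2), ∑ c' ∈ range (K ^ 2), avv b c c' =
      ∑ c ∈ range (K ^ 2), ∑ c' ∈ range (K ^ 2), ∑ b ∈ range K, avv b c c' := by
    rw [Finset.sum_comm]
    apply Finset.sum_congr rfl
    intro c _
    rw [Finset.sum_comm]
  rw [h7]
  have h8 : ∀ c ∈ range (K ^ 2), (Z' : ℝ) * ∑ c' ∈ range (K ^ 2), ∑ b ∈ range K,
      K * (2 * avv b c c' + 32 * (Z' : ℝ) ^ 3) =
      2 * K * Z' * ∑ c' ∈ range (K ^ 2), ∑ b ∈ range K, avv b c c' +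
        32 * (K : ℝ) ^ 4 * (Z' : ℝ) ^ 4 := by
    intro c _
    have h9 : ∀ c' ∈ range (K ^ 2), ∑ b ∈ range K, (K : ℝ) * (2 * avv b c c' + 32 * (Z' : ℝ) ^ 3) =
        2 * K * ∑ b ∈ range K, avv b c c' + 32 * (K : ℝ) ^ 2 * (Z' : ℝ) ^ 3 := by
      intro c' _
      rw [← Finset.mul_sum, Finset.sum_add_distrib, ← Finset.mul_sum, Finset.sum_const, card_range,
        nsmul_eq_mul]
      ring
    rw [Finset.sum_congr rfl h9, Finset.sum_add_distrib, ← Finset.mul_sum, Finset.sum_const,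
      card_range, nsmul_eq_mul]
    push_cast
    ring
  rw [Finset.sum_congr rfl h8, Finset.sum_add_distrib, ← Finset.mul_sum, Finset.sum_const,
    card_range, nsmul_eq_mul, hXe, hY]
  push_cast
  ring

end Pool.Agent.Lib.MP_fed790_nt.QP
end
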