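import Mathlib

/-!
# MP_fed790_nt, program QP: definitions

Quasi-polynomial upper bound for `log Λ(k,2)`.
-/

open Finset

namespace Pool.Agent.Lib.MP_fed790_nt.QP

/-- `f` is completely additive on the positive integers. -/
def CAdd {G : Type*} [AddCommGroup G] (f : ℕ → G) : Prop :=
  ∀ m n : ℕ, 0 < m → 0 < n → f (m * n) = f m + f n

/-- The sum of the reciprocals of the prime factors of `m` which are larger than `y`. -/
noncomputable def sg (y m : ℕ) : ℝ := ∑ q ∈ m.primeFactors.filter (fun q => y < q), (1 : ℝ) / q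

open Classical in
/-- Colours outside `H` are rare in the progressions `A + B ν` (`ν < Z`, `gcd(A,B) = 1`, `W ∣ B`,
`A ≡ 1 mod W`) up to `N`. -/
def RareAP {G : Type*} [AddCommGroup G] (f : ℕ → G) (H : AddSubgroup G) (W : ℕ) (ρ c : ℝ)
    (N : ℕ) : Prop :=
  ∀ A B Z : ℕ, 0 < B → A.Coprime B → W ∣ B → A ≡ 1 [MOD W] → A + B * Z ≤ N →
    (((range Z).filter (fun ν => f (A + B * ν) ∉ H)).card : ℝ) ≤ ρ * Z + c

/-- The colour `γ` is available at the bound `N`. -/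
def Avail {G : Type*} [AddCommGroup G] (f : ℕ → G) (y W Λ L : ℕ) (εg ε8 : ℝ) (N : ℕ) (γ : G) :
    Prop :=
  ∀ D : ℕ, 0 < D → D < 2 ^ L → sg y D ≤ ε8 →
    ∃ m : ℕ, Λ ≤ m ∧ m ≤ N ∧ m ≡ 1 [MOD W] ∧ sg y m ≤ εg ∧ m.Coprime D ∧ f m = γ

/-- The pool of moduli `T p h` (`p ∈ s`, `h ∈ H`). -/
structure IsPool {G : Type*} [AddCommGroup G] (f : ℕ → G) (H : AddSubgroup G) {P : Type*}
    (idx : P → ℕ) (y W S T0 t : ℕ) (δ δ0 εT ε10 : ℝ) (s : Finset P) (T : P → H → ℕ) : Prop where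
  lo : ∀ p ∈ s, ∀ h, (T0 : ℝ) * (1 + δ0 * (idx p / t)) ≤ T p h
  hi : ∀ p ∈ s, ∀ h, (T p h : ℝ) ≤ T0 * (1 + δ0 * ((idx p + 1 / 2) / t))
  tight : ∀ p ∈ s, ∀ h h', |(T p h : ℝ) - T p h'| ≤ δ * T0
  cong : ∀ p ∈ s, ∀ h, T p h ≡ 1 + W ^ S * idx p [MOD W ^ (2 * S + 3)]
  col : ∀ p ∈ s, ∃ g ∈ H, ∀ h : H, f (T p h) = g + h
  sgT : ∀ p ∈ s, ∀ h, sg y (T p h) ≤ εT
  cop : ∀ p ∈ s, ∀ p' ∈ s, p ≠ p' → ∀ h h', (T p h).Coprime (T p' h')
  sgd : ∀ p ∈ s, ∀ p' ∈ s, idx p ≠ idx p' → ∀ h h',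
    sg y ((T p h : ℤ) - T p' h').natAbs ≤ ε10
  tri : ∀ p ∈ s, ∀ p' ∈ s, ∀ p'' ∈ s, idx p ≠ idx p' → idx p' ≠ idx p'' → idx p ≠ idx p'' →
    ∀ h h' h'', ∀ q : ℕ, q.Prime → y < q →
      ¬ ((q : ℤ) ∣ (T p h : ℤ) - T p' h' ∧ (q : ℤ) ∣ (T p' h' : ℤ) - T p'' h'')

/-! ### Part II: trigonometric polynomials on the `N`-th roots of unity -/

/-- The `N`-th roots of unity. -/
noncomputable def rt (N k : ℕ) : ℂ := Complex.exp (2 * Real.pi * Complex.I * k / N)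

/-- The average of a real function over the `N`-th roots of unity. -/
noncomputable def av (N : ℕ) (φ : ℂ → ℝ) : ℝ := (∑ k ∈ range N, φ (rt N k)) / N

/-- The average of a complex function over the `N`-th roots of unity. -/
noncomputable def avC (N : ℕ) (φ : ℂ → ℂ) : ℂ := (∑ k ∈ range N, φ (rt N k)) / N

/-- The trigonometric polynomial with coefficients `α n` (`n ∈ A`). -/
noncomputable def tp (A : Finset ℤ) (α : ℤ → ℂ) (z : ℂ) : ℂ := ∑ n ∈ A, α n * z ^ n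

/-- The autocorrelation of `α` restricted to `A`. -/
noncomputable def Rr (A : Finset ℤ) (α : ℤ → ℂ) (d : ℤ) : ℂ :=
  ∑ p ∈ (A ×ˢ A).filter (fun p => p.1 - p.2 = d), α p.1 * starRingEnd ℂ (α p.2)

/-- The Fejér factor. -/
noncomputable def AJ (J : ℕ) (D : ℤ) (z : ℂ) : ℂ := (∑ j ∈ range J, z ^ (D * j)) / J

/-- The edge function. -/
noncomputable def Ft {η : Type*} [Fintype η] (T : η → ℕ) (κ : η → ℤ) (ψ : η → ℂ) (β : ℤ → ℂ)
    (y : ℤ) : ℂ :=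
  (∑ h, if (T h : ℤ) ∣ y - κ h then ψ h * T h * β ((y - κ h) / T h) else 0) / Fintype.card η

/-- `α` is constant on the cells (classes mod `q0` in the windows of length `w`). -/
def Nice (n0 : ℤ) (w r q0 : ℕ) (α : ℤ → ℂ) : Prop :=
  ∀ i < r, ∀ n ∈ Ico (n0 + i * w) (n0 + (i + 1) * w), ∀ n' ∈ Ico (n0 + i * w) (n0 + (i + 1) * w),
    (q0 : ℤ) ∣ n - n' → α n = α n'

/-- The sums of `b` over the cells vanish. -/
def CellZero (n0 : ℤ) (w r q0 : ℕ) (b : ℤ → ℂ) : Prop :=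
  ∀ i < r, ∀ a : ℤ,
    ∑ n ∈ (Ico (n0 + i * w) (n0 + (i + 1) * w)).filter (fun n => (q0 : ℤ) ∣ n - a), b n = 0

/-! ### Part III: the random structure -/

/-- The vertices: `S` levels with `t` vertices each. -/
abbrev Ve (S t : ℕ) : Type := Fin S × Fin t

/-- The edges: pairs of vertices on different levels, the lower level first. -/
def Pr (S t : ℕ) : Finset (Ve S t × Ve S t) := univ.filter (fun p => p.1.1 < p.2.1)

/-- The edge number `e_p`. -/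
def ee {S t : ℕ} (W : ℕ) (p : Ve S t × Ve S t) (x : Ve S t → ℤ) : ℤ :=
  1 - (W : ℤ) ^ ((p.2.1 : ℕ) - p.1.1) + (W : ℤ) ^ ((p.2.1 : ℕ) + 1) * (x p.2 - x p.1)

/-- The shift `κ`. -/
def kk (W i j T : ℕ) : ℤ := ((T : ℤ) - 1) * (1 - (W : ℤ) ^ (j - i)) / (W : ℤ) ^ (j + 1)

/-- The weight of the edge `p`. -/
noncomputable def ww {V η : Type*} [Fintype η] (T : V × V → η → ℕ) (κ : V × V → η → ℤ) (p : V × V)
    (x : V → ℤ) : ℝ :=
  (∑ h, if (T p h : ℤ) ∣ x p.2 - x p.1 - κ p h then (T p h : ℝ) else 0) / Fintype.card η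

/-- The box. -/
noncomputable def bx {V : Type*} [Fintype V] [DecidableEq V] (lo : V → ℤ) (X : ℕ) :
    Finset (V → ℤ) :=
  Fintype.piFinset (fun u => Ico (lo u) (lo u + X))

/-- The number of 4-cycles, twisted by the character `ψ`. -/
noncomputable def C4 {G : Type*} [AddCommGroup G] (f : ℕ → G) {S t : ℕ} (W : ℕ)
    (ψ : AddChar G ℂ) (i j : Fin S) (x : Ve S t → ℤ) : ℝ :=
  ∑ a : Fin t, ∑ a' : Fin t, ‖∑ b : Fin t, ψ (f (ee W ((i, a), (j, b)) x).natAbs) *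
    starRingEnd ℂ (ψ (f (ee W ((i, a'), (j, b)) x).natAbs))‖ ^ 2

end Pool.Agent.Lib.MP_fed790_nt.QP
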