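import Pool.Agent.Lib.MP_fed790_nt.QP.B6s
import Pool.Agent.Lib.MP_fed790_nt.QP.C8s
import Pool.Agent.Lib.MP_fed790_nt.QP.A3
import Pool.Agent.Lib.MP_fed790_nt.QP.A9
import Pool.Agent.Lib.MP_fed790_nt.QP.D3
import Pool.Agent.Lib.MP_fed790_nt.QP.Num3r
import Pool.Agent.Lib.MP_fed790_nt.K6

section

/-!
# QP B11: Lemma C

Notation: `I1 = [n1, n1+M)`, `I2 = [n2, n2+M)`, `q = Fintype.card η`, `s = 2 δ0 K + 4`. By `sum_Ft`
(`c = T0 n1`, `ℓ = T0 M`), `F_u := tp … (Ft …) = HH (Iw …) T κ ψ β`. By `trunc_diff`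
`F_u = D_u + C_u`, `D_u = HH I1 … β`, `C_u = HH (symmDiff (Iw …) I1) … β̃`; by `split` (window `I1`)
`D_u = A_u + B_u` with `A_u = HH I1 … βn`, `B_u = HH I1 … βe`. In the same way
`F'_{u'} = D'_{u'} + C'_{u'}`, `D'_{u'} = A'_{u'} + B'_{u'}` with the window `I2`. Pointwise
`F F' = C F' + D C' + B D' + A B' + A A'`, so `|F F'|² ≤ 5 (|C F'|² + |D C'|² + |B D'|² + |A B'|²
+ |A A'|²)`. Sum the averages over `u ≠ u'` (`T² ≤ 2 T0²` follows from `h1'`, `hδ0'`):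

* `∑ av |C_u F'_{u'}|² ≤ t² 12 T0³ M² s` by `S12_bound` (`card_symmDiff_le`; the symmetric
  difference is contained in an interval with `3M` elements as `δ0 K + 2 ≤ M`; `card_Iw_le`);
* `∑ av |D_u C'_{u'}|² ≤ t² 12 T0³ M² s` in the same way (commute the factors);
* `∑ av |B_u D'_{u'}|² ≤ 110 t √t (T0 M)³` by `jensen_av` and `S3_bound` (`b = βe`, `α = β`);
  `hO` follows from `O_bound` with `s = univ.erase u`, `D u' = T u' h' - T u h`: by `h3`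
  `δ1 T0 ≤ |D|`, by `h1, h1'` `8|D| ≤ T0`, and by `h5` (with `(u,h)` as the common element)
  `gcd(D u', D u'') ∣ q0`; `J = 2M/T0`;
* `∑ av |A_u B'_{u'}|² ≤ 110 t √t (T0 M)³`: the same with the roles of the two windows exchanged
  (`b = βe` for `I2`, `α = βn` for `I1`; exchange the sums over `u`, `u'`);
* `av |A_u A'_{u'}|² ≤ 16 T0 M E0²`, `E0 = r² (2K+2) δ T0 + 4 r² q0 T0²` by `S5_bound`
  (divide by `q⁴`; `Bn = 16 T0 M`, `lo = T0 (n1 - n2) - 8 T0 M`: for `n ∈ I1`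
  `|T n + κ - T0 n1| ≤ δ0 T0 K + T0 M + 2 T0 < 4 T0 M`) and `CC_diff` (`Δ = δ T0`,
  `T1 T' + T2 T' ≤ 4 T0²`).

The sum is `≤ 5 (24 s/M + 220/√t + 16 (E0/(T0 M))²) t² (T0 M)³`.
-/

open Finset

namespace Pool.Agent.Lib.MP_fed790_nt.QP

private theorem b11_five (a b c d e : ℂ) :
    ‖a + b + c + d + e‖ ^ 2 ≤ 5 * (‖a‖ ^ 2 + ‖b‖ ^ 2 + ‖c‖ ^ 2 + ‖d‖ ^ 2 + ‖e‖ ^ 2) := by
  have h1 : ‖a + b + c + d + e‖ ≤ ‖a‖ + ‖b‖ + ‖c‖ + ‖d‖ + ‖e‖ := by
    refine (norm_add_le _ _).trans (add_le_add ?_ le_rfl)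
    refine (norm_add_le _ _).trans (add_le_add ?_ le_rfl)
    refine (norm_add_le _ _).trans (add_le_add ?_ le_rfl)
    exact norm_add_le _ _
  refine (pow_le_pow_left₀ (norm_nonneg _) h1 2).trans ?_
  nlinarith [sq_nonneg (‖a‖ - ‖b‖), sq_nonneg (‖a‖ - ‖c‖), sq_nonneg (‖a‖ - ‖d‖),
    sq_nonneg (‖a‖ - ‖e‖), sq_nonneg (‖b‖ - ‖c‖), sq_nonneg (‖b‖ - ‖d‖), sq_nonneg (‖b‖ - ‖e‖),
    sq_nonneg (‖c‖ - ‖d‖), sq_nonneg (‖c‖ - ‖e‖), sq_nonneg (‖d‖ - ‖e‖)]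

private theorem b11_T2 {T0 T : ℕ} {δ0 : ℝ} (hδ0' : δ0 ≤ 1 / 8)
    (h : (T : ℝ) ≤ (1 + δ0) * T0) : T ^ 2 ≤ 2 * T0 ^ 2 := by
  have h1 : (T : ℝ) ≤ 9 / 8 * T0 := by
    refine h.trans ?_
    exact mul_le_mul_of_nonneg_right (by linarith) (Nat.cast_nonneg _)
  have h2 : (T : ℝ) ^ 2 ≤ (9 / 8 * T0) ^ 2 := pow_le_pow_left₀ (Nat.cast_nonneg _) h1 2
  have h3 : ((9 : ℝ) / 8 * T0) ^ 2 ≤ 2 * (T0 : ℝ) ^ 2 := by
    have : (0 : ℝ) ≤ (T0 : ℝ) ^ 2 := sq_nonneg _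
    nlinarith
  have h4 : ((T ^ 2 : ℕ) : ℝ) ≤ ((2 * T0 ^ 2 : ℕ) : ℝ) := by
    push_cast
    exact h2.trans h3
  exact_mod_cast h4

/-- `HH` is additive in `α` for a common window. -/
private theorem b11_add {η : Type*} [Fintype η] (I : Finset ℤ) (T : η → ℕ) (κ : η → ℤ)
    (ψ : η → ℂ) (β βn βe : ℤ → ℂ) (h : ∀ n ∈ I, β n = βn n + βe n) (z : ℂ) :
    HH (fun _ => I) T κ ψ (fun _ => β) z =
      HH (fun _ => I) T κ ψ (fun _ => βn) z + HH (fun _ => I) T κ ψ (fun _ => βe) z := by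
  unfold HH tp
  rw [← add_div, ← Finset.sum_add_distrib]
  congr 1
  refine sum_congr rfl fun x _ => ?_
  rw [← mul_add, ← Finset.sum_add_distrib]
  congr 1
  refine sum_congr rfl fun n hn => ?_
  show β n * _ = βn n * _ + βe n * _
  rw [h n hn]
  ring

private theorem b11_window (T0 M T : ℕ) (hT0 : 0 < T0) (hT : T0 ≤ T) (n1 κ : ℤ) (δ0 K : ℝ)
    (hT1 : (T : ℝ) ≤ (1 + δ0) * T0) (hκ : |κ| ≤ T) (hK : |(n1 : ℝ)| + M ≤ K)
    (hδK : δ0 * K + 2 ≤ M) :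
    symmDiff (Iw (T0 * n1) (T0 * M) T κ) (Ico n1 (n1 + M)) ⊆
      Ico (n1 - M) (n1 - M + 3 * M) := by
  have h1 := B10_iw_hi T0 M T hT0 hT n1 κ
  have h2 := B10_lo T0 T hT0 hT n1 κ δ0 K hT1 hκ (by
    have : (0 : ℝ) ≤ M := Nat.cast_nonneg _
    linarith)
  have h3 : |((-((κ - T0 * n1) / (T : ℤ)) : ℤ) : ℝ) - n1| ≤ M := h2.trans hδK
  have h4 : |(-((κ - T0 * n1) / (T : ℤ)) : ℤ) - n1| ≤ (M : ℤ) := by
    have : ((|(-((κ - T0 * n1) / (T : ℤ)) : ℤ) - n1| : ℤ) : ℝ) ≤ ((M : ℤ) : ℝ) := by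
      push_cast
      push_cast at h3
      exact h3
    exact_mod_cast this
  rw [abs_le] at h4
  intro n hn
  rw [Finset.mem_symmDiff] at hn
  unfold Iw at hn
  rw [mem_Ico, mem_Ico] at hn
  rw [mem_Ico]
  push_cast at h1 hn ⊢
  rcases hn with ⟨hn, _⟩ | ⟨hn, _⟩
  · constructor
    · omega
    · omega
  · constructor <;> omega

/-- The pair terms with a truncation error (first factor), window `n1`; the second factor has
windows `I'`. -/
private theorem b11_C {η : Type*} [Fintype η] [Nonempty η] (N T0 M : ℕ)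
    (I' : η → Finset ℤ) (T T' : η → ℕ) (κ κ' : η → ℤ) (ψ ψ' : η → ℂ) (β : ℤ → ℂ)
    (n1 : ℤ) (δ0 K : ℝ)
    (hN : 64 * T0 * M ≤ N) (hT0 : 0 < T0) (hM : T0 ≤ M)
    (hψ : ∀ h, ‖ψ h‖ ≤ 1) (hψ' : ∀ h, ‖ψ' h‖ ≤ 1) (hβ : ∀ n, ‖β n‖ ≤ 1)
    (hT1 : ∀ h, T0 ≤ T h) (hT2 : ∀ h, (T h : ℝ) ≤ (1 + δ0) * T0)
    (hT1' : ∀ h, T0 ≤ T' h) (hT2' : ∀ h, (T' h : ℝ) ≤ (1 + δ0) * T0)
    (hδ0' : δ0 ≤ 1 / 8) (hκ : ∀ h, |κ h| ≤ T h)
    (hcop : ∀ h h', (T h).Coprime (T' h'))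
    (hI' : ∀ h, (I' h).card ≤ M ∧ ∃ a : ℤ, I' h ⊆ Ico a (a + M))
    (hK : |(n1 : ℝ)| + M ≤ K) (hδK : δ0 * K + 2 ≤ M) :
    av N (fun z => ‖HH (fun h => symmDiff (Iw (T0 * n1) (T0 * M) (T h) (κ h)) (Ico n1 (n1 + M)))
        T κ ψ (fun h n => if n ∈ Iw (T0 * n1) (T0 * M) (T h) (κ h) then β n else -β n) z‖ ^ 2 *
      ‖HH I' T' κ' ψ' (fun _ => β) z‖ ^ 2) ≤
      12 * (T0 : ℝ) ^ 3 * M ^ 2 * (2 * δ0 * K + 4) := by
  refine S12_bound N T0 M (2 * δ0 * K + 4) I' _ T T' κ κ' ψ ψ' _ _ ?_ hT0 hM hψ hψ' ?_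
    (fun _ n => hβ n) hT1 (fun h => b11_T2 hδ0' (hT2 h)) hT1' (fun h => b11_T2 hδ0' (hT2' h))
    hcop hI' ?_ ?_
  · calc 16 * T0 * M ≤ 64 * T0 * M := by
          rw [mul_assoc, mul_assoc]
          exact Nat.mul_le_mul_right _ (by norm_num)
      _ ≤ N := hN
  · intro h n
    show ‖if n ∈ Iw (T0 * n1) (T0 * M) (T h) (κ h) then β n else -β n‖ ≤ 1
    split_ifs
    · exact hβ n
    · rw [norm_neg]
      exact hβ n
  · intro h
    exact card_symmDiff_le T0 M (T h) hT0 (hT1 h) n1 (κ h) δ0 K (hT2 h) (hκ h) hK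
  · intro h
    exact ⟨n1 - M, b11_window T0 M (T h) hT0 (hT1 h) n1 (κ h) δ0 K (hT2 h) (hκ h) hK hδK⟩

/-- Sum over pairs of the terms with one `CellZero` factor. -/
private theorem b11_B {ι η : Type*} [Fintype ι] [DecidableEq ι] [Fintype η] [Nonempty η]
    (T : ι → η → ℕ) (κ : ι → η → ℤ) (ψ : ι → η → ℂ) (b α : ℤ → ℂ) (T0 M w r q0 N t : ℕ)
    (n1 n2 : ℤ) (δ0 δ1 : ℝ) (hψ : ∀ u h, ‖ψ u h‖ ≤ 1)
    (h1 : ∀ u h, T0 ≤ T u h) (h1' : ∀ u h, (T u h : ℝ) ≤ (1 + δ0) * T0)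
    (h3 : ∀ u u', u ≠ u' → ∀ h h', δ1 * T0 ≤ |(T u h : ℝ) - T u' h'|)
    (h4 : ∀ u u', u ≠ u' → ∀ h h', (T u h).Coprime (T u' h'))
    (h5 : ∀ u u' u'', u ≠ u' → u' ≠ u'' → u ≠ u'' → ∀ h h' h'',
      Int.gcd ((T u h : ℤ) - T u' h') ((T u h : ℤ) - T u'' h'') ∣ q0)
    (ht : Fintype.card ι = t) (ht0 : 0 < t) (hT0 : 0 < T0) (hM : M = r * w) (hw : 0 < w)
    (hr : 0 < r) (hq : q0 ∣ w) (hT0M : T0 ∣ M) (hδ0' : δ0 ≤ 1 / 8)
    (hδ1 : 0 < δ1) (hMt : 4 * t * T0 ^ 2 ≤ M) (hrt : (t : ℝ) ≤ δ1 ^ 2 * r)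
    (hN : 64 * T0 * M ≤ N)
    (hb0 : ∀ n, n ∉ Ico n1 (n1 + r * w) → b n = 0) (hb : ∀ n, ‖b n‖ ≤ 2)
    (hcell : CellZero n1 w r q0 b) (hα : ∀ n, ‖α n‖ ≤ 1) :
    ∑ u, ∑ u' ∈ univ.erase u, av N (fun z =>
      ‖HH (fun _ => Ico n1 (n1 + M)) (T u) (κ u) (ψ u) (fun _ => b) z‖ ^ 2 *
      ‖HH (fun _ => Ico n2 (n2 + M)) (T u') (κ u') (ψ u') (fun _ => α) z‖ ^ 2) ≤
      110 * (t * Real.sqrt t) * (T0 * M) ^ 3 := by
  have hMpos : 0 < M := by rw [hM]; exact Nat.mul_pos hr hw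
  have hMc : ((M : ℕ) : ℤ) = r * w := by rw [hM]; push_cast; ring
  obtain ⟨c, hc⟩ := hT0M
  have hJ : (2 * c) * T0 = 2 * M := by rw [hc]; ring
  have hq2 : (0 : ℝ) < (Fintype.card η : ℝ) ^ 2 := by
    have : (0 : ℝ) < Fintype.card η := by exact_mod_cast Fintype.card_pos
    positivity
  have hO : ∀ u h h', ∑ u' ∈ univ.erase u, av N (fun z => ‖AJ (2 * c) ((T u' h' : ℤ) - T u h) z‖ ^ 2 *
      ‖tp (Ico n1 (n1 + M)) b z‖ ^ 2) ≤ 6 * M := by
    intro u h h'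
    refine O_bound (univ.erase u) (fun u' => (T u' h' : ℤ) - T u h) b n1 w r q0 M (2 * c) N T0 t δ1
      hM hw hr hq ?_ hb hcell hJ hT0 ht0 hδ1 ?_ ?_ ?_ ?_ hMt hrt ?_
    · intro n hn
      rw [hMc] at hn
      exact hb0 n hn
    · intro u' hu'
      have hne : u' ≠ u := (mem_erase.mp hu').1
      have := h3 u' u hne h' h
      push_cast
      exact this
    · intro u' hu'
      have a1 : (T0 : ℝ) ≤ T u' h' := by exact_mod_cast h1 u' h'
      have a2 : (T0 : ℝ) ≤ T u h := by exact_mod_cast h1 u h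
      have a3 : (T u' h' : ℝ) ≤ T0 + 1 / 8 * T0 := by
        refine (h1' u' h').trans ?_
        have : (0 : ℝ) ≤ T0 := Nat.cast_nonneg _
        nlinarith
      have a4 : (T u h : ℝ) ≤ T0 + 1 / 8 * T0 := by
        refine (h1' u h).trans ?_
        have : (0 : ℝ) ≤ T0 := Nat.cast_nonneg _
        nlinarith
      have a5 : (8 : ℝ) * |(T u' h' : ℝ) - T u h| ≤ T0 := by
        have : |(T u' h' : ℝ) - T u h| ≤ 1 / 8 * T0 := by
          rw [abs_le]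
          constructor <;> linarith
        linarith
      have a6 : ((8 * |(T u' h' : ℤ) - T u h| : ℤ) : ℝ) ≤ ((T0 : ℤ) : ℝ) := by
        push_cast
        exact a5
      exact_mod_cast a6
    · intro u' hu' u'' hu'' hne
      have hne1 : u' ≠ u := (mem_erase.mp hu').1
      have hne2 : u'' ≠ u := (mem_erase.mp hu'').1
      have := h5 u u' u'' hne1.symm hne hne2.symm h h' h'
      have e1 : (T u' h' : ℤ) - T u h = -((T u h : ℤ) - T u' h') := by ring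
      have e2 : (T u'' h' : ℤ) - T u h = -((T u h : ℤ) - T u'' h') := by ring
      show Int.gcd ((T u' h' : ℤ) - T u h) ((T u'' h' : ℤ) - T u h) ∣ q0
      rw [e1, e2, Int.neg_gcd, Int.gcd_neg]
      exact this
    · rw [card_erase_of_mem (mem_univ _), card_univ, ht]
      omega
    · calc 4 * M ≤ 64 * T0 * M := Nat.mul_le_mul_right _ (by omega)
        _ ≤ N := hN
  have hS := S3_bound T b α n1 n2 T0 M (2 * c) N t ht ht0 hT0 hJ hMpos h1
    (fun u h => b11_T2 hδ0' (h1' u h)) h4 hb hα hO (by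
      calc 8 * T0 * M ≤ 64 * T0 * M := by
            rw [mul_assoc, mul_assoc]
            exact Nat.mul_le_mul_right _ (by norm_num)
        _ ≤ N := hN)
  calc ∑ u, ∑ u' ∈ univ.erase u, av N (fun z =>
      ‖HH (fun _ => Ico n1 (n1 + M)) (T u) (κ u) (ψ u) (fun _ => b) z‖ ^ 2 *
      ‖HH (fun _ => Ico n2 (n2 + M)) (T u') (κ u') (ψ u') (fun _ => α) z‖ ^ 2)
      ≤ ∑ u, ∑ u' ∈ univ.erase u, (∑ h, ∑ h', ((T u h : ℝ) ^ 2 * (T u' h' : ℝ) ^ 2 *
          av N (fun z => ‖tp (Ico n1 (n1 + M)) b (z ^ (T u h))‖ ^ 2 *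
            ‖tp (Ico n2 (n2 + M)) α (z ^ (T u' h'))‖ ^ 2))) / (Fintype.card η : ℝ) ^ 2 := by
        refine sum_le_sum fun u _ => sum_le_sum fun u' _ => ?_
        exact jensen_av N _ _ (T u) (T u') (κ u) (κ u') (ψ u) (ψ u') _ _ (hψ u) (hψ u')
    _ = (∑ u, ∑ u' ∈ univ.erase u, ∑ h, ∑ h', ((T u h : ℝ) ^ 2 * (T u' h' : ℝ) ^ 2 *
          av N (fun z => ‖tp (Ico n1 (n1 + M)) b (z ^ (T u h))‖ ^ 2 *
            ‖tp (Ico n2 (n2 + M)) α (z ^ (T u' h'))‖ ^ 2))) / (Fintype.card η : ℝ) ^ 2 := by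
        rw [Finset.sum_div]
        refine sum_congr rfl fun u _ => ?_
        rw [Finset.sum_div]
    _ ≤ 110 * (t * Real.sqrt t) * (T0 * M) ^ 3 := by
        rw [div_le_iff₀ hq2]
        refine hS.trans (le_of_eq ?_)
        ring

/-- The pair terms with two `Nice` factors. -/
private theorem b11_A {η : Type*} [Fintype η] [Nonempty η]
    (T T' : η → ℕ) (κ κ' : η → ℤ) (ψ ψ' : η → ℂ) (α α' : ℤ → ℂ) (T0 M w r q0 N : ℕ)
    (n1 n2 : ℤ) (δ δ0 K : ℝ) (hψ : ∀ h, ‖ψ h‖ ≤ 1) (hψ' : ∀ h, ‖ψ' h‖ ≤ 1) (hψ0 : ∑ h, ψ h = 0)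
    (h1 : ∀ h, T0 ≤ T h) (h1' : ∀ h, (T h : ℝ) ≤ (1 + δ0) * T0)
    (g1 : ∀ h, T0 ≤ T' h) (g1' : ∀ h, (T' h : ℝ) ≤ (1 + δ0) * T0)
    (hκ : ∀ h, |κ h| ≤ T h) (hκ' : ∀ h, |κ' h| ≤ T' h)
    (h2 : ∀ h h', |(T h : ℝ) - T h'| ≤ δ * T0)
    (h2' : ∀ h h', |(κ h : ℝ) - κ h'| ≤ δ * T0)
    (h4 : ∀ h h', (T h).Coprime (T' h')) (h4' : ∀ h, (T' h).Coprime q0)
    (h6 : ∀ h h', (q0 : ℤ) ∣ (T h : ℤ) - T h') (h6' : ∀ h h', (q0 : ℤ) ∣ κ h - κ h')
    (hT0 : 0 < T0) (hM : M = r * w) (hMpos : 0 < M) (hq0 : 0 < q0) (hq : q0 ∣ w)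
    (hδ0 : 0 ≤ δ0) (hδ0' : δ0 ≤ 1 / 8) (hδ : 0 ≤ δ)
    (hK1 : |(n1 : ℝ)| + M ≤ K) (hK2 : |(n2 : ℝ)| + M ≤ K) (hδK : δ0 * K + 2 ≤ M)
    (hN : 64 * T0 * M ≤ N) (hα : ∀ n, ‖α n‖ ≤ 1) (hα' : ∀ n, ‖α' n‖ ≤ 1)
    (hn : Nice n1 w r q0 α) (hn' : Nice n2 w r q0 α') :
    av N (fun z =>
      ‖HH (fun _ => Ico n1 (n1 + M)) T κ ψ (fun _ => α) z‖ ^ 2 *
      ‖HH (fun _ => Ico n2 (n2 + M)) T' κ' ψ' (fun _ => α') z‖ ^ 2) ≤
      16 * T0 * M * (r ^ 2 * (2 * K + 2) * δ * T0 + 4 * r ^ 2 * q0 * T0 ^ 2) ^ 2 := by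
  have hMc : ((M : ℕ) : ℤ) = r * w := by rw [hM]; push_cast; ring
  have hMr : (M : ℝ) = r * w := by rw [hM]; push_cast; ring
  have hq2 : (0 : ℝ) < Fintype.card η := by exact_mod_cast Fintype.card_pos
  have hT0r : (0 : ℝ) < T0 := by exact_mod_cast hT0
  have hM1 : (1 : ℝ) ≤ M := by exact_mod_cast hMpos
  have hK0 : 0 ≤ K := by
    have := abs_nonneg (n1 : ℝ)
    linarith
  set E0 : ℝ := r ^ 2 * (2 * K + 2) * δ * T0 + 4 * r ^ 2 * q0 * T0 ^ 2 with hE0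
  have hE0pos : 0 ≤ E0 := by rw [hE0]; positivity
  -- position of `T n + κ`
  have key : ∀ (T : ℕ) (κ : ℤ) (m n : ℤ), T0 ≤ T → (T : ℝ) ≤ (1 + δ0) * T0 → |κ| ≤ T →
      |(m : ℝ)| + M ≤ K → n ∈ Ico m (m + M) → |(T : ℝ) * n + κ - T0 * m| ≤ 2 * (T0 * M) := by
    intro T κ m n hT hT' hκ hK hn
    rw [mem_Ico] at hn
    have b1 : (m : ℝ) ≤ n := by exact_mod_cast hn.1
    have b2 : (n : ℝ) ≤ m + M := by exact_mod_cast hn.2.le
    have b3 : |(n : ℝ)| ≤ K := by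
      have := abs_le.mp (le_refl |(m : ℝ)|)
      rw [abs_le]
      constructor <;> linarith
    have b4 : (T0 : ℝ) ≤ T := by exact_mod_cast hT
    have b5 : |(T : ℝ) - T0| ≤ δ0 * T0 := by
      rw [abs_le]
      constructor
      · have : 0 ≤ δ0 * T0 := by positivity
        linarith
      · linarith
    have b6 : |(κ : ℝ)| ≤ 2 * T0 := by
      have : |(κ : ℝ)| ≤ T := by exact_mod_cast hκ
      refine this.trans (hT'.trans ?_)
      nlinarith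
    have b7 : |((T : ℝ) - T0) * n| ≤ δ0 * T0 * K := by
      rw [abs_mul]
      exact mul_le_mul b5 b3 (abs_nonneg _) (by positivity)
    have b8 : |(T0 : ℝ) * (n - m)| ≤ T0 * M := by
      rw [abs_mul, abs_of_pos hT0r]
      refine mul_le_mul_of_nonneg_left ?_ hT0r.le
      rw [abs_le]
      constructor <;> linarith
    have b9 : (T : ℝ) * n + κ - T0 * m = ((T : ℝ) - T0) * n + T0 * (n - m) + κ := by ring
    have b10 : T0 * (δ0 * K + 2) ≤ T0 * M := mul_le_mul_of_nonneg_left hδK hT0r.le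
    rw [b9]
    have b11 := abs_add_le (((T : ℝ) - T0) * n + T0 * (n - m)) κ
    have b12 := abs_add_le (((T : ℝ) - T0) * n) (T0 * (n - m))
    nlinarith
  have hS := S5_bound T T' κ κ' ψ ψ' α α' (Ico n1 (n1 + M)) (Ico n2 (n2 + M)) N (16 * T0 * M)
    (T0 * (n1 - n2) - 8 * (T0 * M)) E0
    (by
      have : 0 < 64 * T0 * M := by positivity
      omega) hψ hψ' hψ0
    (by
      calc 16 * T0 * M ≤ 64 * T0 * M := by
            rw [mul_assoc, mul_assoc]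
            exact Nat.mul_le_mul_right _ (by norm_num)
        _ ≤ N := hN)
    (by
      intro h h' n hn n' hn'
      have c1 := key (T h) (κ h) n1 n (h1 h) (h1' h) (hκ h) hK1 hn
      have c2 := key (T' h') (κ' h') n2 n' (g1 h') (g1' h') (hκ' h') hK2 hn'
      rw [abs_le] at c1 c2
      have hTM : (0 : ℝ) < T0 * M := by positivity
      rw [mem_Ico]
      constructor
      · have : ((T0 * (n1 - n2) - 8 * (T0 * M) : ℤ) : ℝ) ≤
            (((T h : ℤ) * n + κ h - T' h' * n' - κ' h' : ℤ) : ℝ) := by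
          push_cast
          nlinarith
        exact_mod_cast this
      · have : (((T h : ℤ) * n + κ h - T' h' * n' - κ' h' : ℤ) : ℝ) <
            ((T0 * (n1 - n2) - 8 * (T0 * M) + (16 * T0 * M : ℕ) : ℤ) : ℝ) := by
          push_cast
          nlinarith
        exact_mod_cast this)
    hE0pos
    (by
      intro a b h' g
      have hcd := CC_diff (T a) (T b) (T' h') q0 w r (κ a) (κ b) (κ' h') n1 n2 α α' (δ * T0) K
        (hT0.trans_le (h1 a)) (hT0.trans_le (h1 b)) (hT0.trans_le (g1 h')) hq0 hq (h4 a h') (h4 b h')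
        (h4' h') (h6 a b) (h6' a b) (h2 a b) (h2' a b) (by rw [← hMr]; exact hK1) hα hα' hn hn' g
      rw [hMc]
      refine hcd.trans ?_
      have d1 : (T a : ℝ) ≤ 9 / 8 * T0 := (h1' a).trans
        (mul_le_mul_of_nonneg_right (by linarith) hT0r.le)
      have d2 : (T b : ℝ) ≤ 9 / 8 * T0 := (h1' b).trans
        (mul_le_mul_of_nonneg_right (by linarith) hT0r.le)
      have d3 : (T' h' : ℝ) ≤ 9 / 8 * T0 := (g1' h').trans
        (mul_le_mul_of_nonneg_right (by linarith) hT0r.le)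
      have d4 : (T a : ℝ) * T' h' ≤ 9 / 8 * T0 * (9 / 8 * T0) :=
        mul_le_mul d1 d3 (Nat.cast_nonneg _) (by positivity)
      have d5 : (T b : ℝ) * T' h' ≤ 9 / 8 * T0 * (9 / 8 * T0) :=
        mul_le_mul d2 d3 (Nat.cast_nonneg _) (by positivity)
      have d6 : (T a : ℝ) * T' h' + T b * T' h' ≤ 4 * T0 ^ 2 := by nlinarith [sq_nonneg (T0 : ℝ)]
      have d7 : (r : ℝ) ^ 2 * q0 * (T a * T' h' + T b * T' h') ≤ r ^ 2 * q0 * (4 * T0 ^ 2) :=
        mul_le_mul_of_nonneg_left d6 (by positivity)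
      rw [hE0]
      nlinarith)
  have hav : av N (fun z =>
      ‖HH (fun _ => Ico n1 (n1 + M)) T κ ψ (fun _ => α) z‖ ^ 2 *
      ‖HH (fun _ => Ico n2 (n2 + M)) T' κ' ψ' (fun _ => α') z‖ ^ 2) =
      (1 / (Fintype.card η : ℝ) ^ 4) * av N (fun z =>
        ‖∑ h, ψ h * T h * z ^ (κ h) * tp (Ico n1 (n1 + M)) α (z ^ (T h))‖ ^ 2 *
        ‖∑ h, ψ' h * T' h * z ^ (κ' h) * tp (Ico n2 (n2 + M)) α' (z ^ (T' h))‖ ^ 2) := by
    rw [← av_const_mul]
    congr 1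
    funext z
    unfold HH
    rw [norm_div, norm_div, Complex.norm_natCast, div_pow, div_pow]
    field_simp
  rw [hav]
  have e1 : (1 / (Fintype.card η : ℝ) ^ 4) * (((16 * T0 * M : ℕ) : ℝ) *
      ((Fintype.card η : ℝ) ^ 2 * E0) ^ 2) = 16 * T0 * M * E0 ^ 2 := by
    push_cast
    field_simp
  rw [← e1]
  exact mul_le_mul_of_nonneg_left hS (by positivity)

private theorem b11_swap {ι : Type*} [Fintype ι] [DecidableEq ι] (f : ι → ι → ℝ) :
    ∑ u, ∑ u' ∈ univ.erase u, f u u' = ∑ u', ∑ u ∈ univ.erase u', f u u' := by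
  refine Finset.sum_comm' ?_
  intro x y
  simp only [mem_univ, mem_erase, true_and, and_true]
  exact ne_comm

private theorem b11_const {ι : Type*} [Fintype ι] [DecidableEq ι] (f : ι → ι → ℝ) (t : ℕ) (c : ℝ)
    (ht : Fintype.card ι = t) (hc : 0 ≤ c) (h : ∀ u u', u ≠ u' → f u u' ≤ c) :
    ∑ u, ∑ u' ∈ univ.erase u, f u u' ≤ t ^ 2 * c := by
  calc ∑ u, ∑ u' ∈ univ.erase u, f u u' ≤ ∑ _u : ι, (t : ℝ) * c := by
        refine sum_le_sum fun u _ => ?_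
        calc ∑ u' ∈ univ.erase u, f u u' ≤ ∑ _u' ∈ univ.erase u, c :=
              sum_le_sum fun u' hu' => h u u' (mem_erase.mp hu').1.symm
          _ = ((univ.erase u).card : ℝ) * c := by rw [sum_const, nsmul_eq_mul]
          _ ≤ (t : ℝ) * c := by
              refine mul_le_mul_of_nonneg_right ?_ hc
              rw [card_erase_of_mem (mem_univ _), card_univ, ht]
              exact_mod_cast Nat.sub_le _ _
    _ = t ^ 2 * c := by
        rw [sum_const, card_univ, ht, nsmul_eq_mul]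
        ring

theorem lemmaC {ι η : Type*} [Fintype ι] [DecidableEq ι] [Fintype η] [Nonempty η]
    (T : ι → η → ℕ) (κ : ι → η → ℤ) (ψ : ι → η → ℂ) (β : ℤ → ℂ) (T0 M w r q0 N t : ℕ)
    (n1 n2 : ℤ) (δ δ0 δ1 K : ℝ) (hψ : ∀ u h, ‖ψ u h‖ ≤ 1) (hψ0 : ∀ u, ∑ h, ψ u h = 0)
    (hβ : ∀ n, ‖β n‖ ≤ 1) (h1 : ∀ u h, T0 ≤ T u h) (h1' : ∀ u h, (T u h : ℝ) ≤ (1 + δ0) * T0)
    (hκ : ∀ u h, |κ u h| ≤ T u h) (h2 : ∀ u h h', |(T u h : ℝ) - T u h'| ≤ δ * T0)
    (h2' : ∀ u h h', |(κ u h : ℝ) - κ u h'| ≤ δ * T0)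
    (h3 : ∀ u u', u ≠ u' → ∀ h h', δ1 * T0 ≤ |(T u h : ℝ) - T u' h'|)
    (h4 : ∀ u u', u ≠ u' → ∀ h h', (T u h).Coprime (T u' h'))
    (h4' : ∀ u h, (T u h).Coprime q0)
    (h5 : ∀ u u' u'', u ≠ u' → u' ≠ u'' → u ≠ u'' → ∀ h h' h'',
      Int.gcd ((T u h : ℤ) - T u' h') ((T u h : ℤ) - T u'' h'') ∣ q0)
    (h6 : ∀ u h h', (q0 : ℤ) ∣ (T u h : ℤ) - T u h') (h6' : ∀ u h h', (q0 : ℤ) ∣ κ u h - κ u h')
    (ht : Fintype.card ι = t) (ht0 : 0 < t) (hT0 : 0 < T0) (hM : M = r * w) (hw : 0 < w)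
    (hr : 0 < r) (hq : q0 ∣ w) (hT0M : T0 ∣ M) (hδ0 : 0 ≤ δ0) (hδ0' : δ0 ≤ 1 / 8) (hδ : 0 ≤ δ)
    (hδ1 : 0 < δ1) (hMt : 4 * t * T0 ^ 2 ≤ M) (hrt : (t : ℝ) ≤ δ1 ^ 2 * r)
    (hK1 : |(n1 : ℝ)| + M ≤ K) (hK2 : |(n2 : ℝ)| + M ≤ K) (hδK : δ0 * K + 2 ≤ M)
    (hN : 64 * T0 * M ≤ N) :
    ∑ u, ∑ u' ∈ univ.erase u, av N (fun z =>
      ‖tp (Ico (T0 * n1) (T0 * n1 + (T0 * M : ℕ))) (Ft (T u) (κ u) (ψ u) β) z‖ ^ 2 *
      ‖tp (Ico (T0 * n2) (T0 * n2 + (T0 * M : ℕ))) (Ft (T u') (κ u') (ψ u') β) z‖ ^ 2) ≤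
      5 * (24 * (2 * δ0 * K + 4) / M + 220 / Real.sqrt t +
        16 * (r ^ 2 * (2 * K + 2) * δ / M + 4 * r ^ 2 * q0 * T0 / M) ^ 2) * t ^ 2 *
        (T0 * M) ^ 3 := by
  classical
  have hMpos : 0 < M := by rw [hM]; exact Nat.mul_pos hr hw
  have hMc : ((M : ℕ) : ℤ) = r * w := by rw [hM]; push_cast; ring
  have hT0M' : T0 ≤ M := Nat.le_of_dvd hMpos hT0M
  have hq0 : 0 < q0 := Nat.pos_of_ne_zero fun h => by
    rw [h] at hq
    have := Nat.eq_zero_of_zero_dvd hq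
    omega
  have hM1 : (1 : ℝ) ≤ M := by exact_mod_cast hMpos
  have hT0r : (0 : ℝ) < T0 := by exact_mod_cast hT0
  have htr : (0 : ℝ) < t := by exact_mod_cast ht0
  have hK0 : 0 ≤ K := by
    have := abs_nonneg (n1 : ℝ)
    linarith
  obtain ⟨βn1, βe1, hs1, hz1, hn1, he1, hNice1, hCell1⟩ := split β hβ n1 w r q0 hw hq
  obtain ⟨βn2, βe2, hs2, hz2, hn2, he2, hNice2, hCell2⟩ := split β hβ n2 w r q0 hw hq
  rw [← hMc] at hs1 hs2
  -- the functions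
  let W1 : ι → η → Finset ℤ := fun u h => Iw (T0 * n1) (T0 * M) (T u h) (κ u h)
  let W2 : ι → η → Finset ℤ := fun u h => Iw (T0 * n2) (T0 * M) (T u h) (κ u h)
  let F1 : ι → ℂ → ℂ := fun u z => HH (W1 u) (T u) (κ u) (ψ u) (fun _ => β) z
  let F2 : ι → ℂ → ℂ := fun u z => HH (W2 u) (T u) (κ u) (ψ u) (fun _ => β) z
  let C1 : ι → ℂ → ℂ := fun u z => HH (fun h => symmDiff (W1 u h) (Ico n1 (n1 + M)))
    (T u) (κ u) (ψ u) (fun h n => if n ∈ W1 u h then β n else -β n) z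
  let C2 : ι → ℂ → ℂ := fun u z => HH (fun h => symmDiff (W2 u h) (Ico n2 (n2 + M)))
    (T u) (κ u) (ψ u) (fun h n => if n ∈ W2 u h then β n else -β n) z
  let D1 : ι → ℂ → ℂ := fun u z =>
    HH (fun _ => Ico n1 (n1 + M)) (T u) (κ u) (ψ u) (fun _ => β) z
  let D2 : ι → ℂ → ℂ := fun u z =>
    HH (fun _ => Ico n2 (n2 + M)) (T u) (κ u) (ψ u) (fun _ => β) z
  let A1 : ι → ℂ → ℂ := fun u z =>
    HH (fun _ => Ico n1 (n1 + M)) (T u) (κ u) (ψ u) (fun _ => βn1) z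
  let A2 : ι → ℂ → ℂ := fun u z =>
    HH (fun _ => Ico n2 (n2 + M)) (T u) (κ u) (ψ u) (fun _ => βn2) z
  let B1 : ι → ℂ → ℂ := fun u z =>
    HH (fun _ => Ico n1 (n1 + M)) (T u) (κ u) (ψ u) (fun _ => βe1) z
  let B2 : ι → ℂ → ℂ := fun u z =>
    HH (fun _ => Ico n2 (n2 + M)) (T u) (κ u) (ψ u) (fun _ => βe2) z
  have hF1 : ∀ u z, F1 u z = D1 u z + C1 u z := fun u z =>
    trunc_diff (W1 u) (Ico n1 (n1 + M)) (T u) (κ u) (ψ u) β z
  have hF2 : ∀ u z, F2 u z = D2 u z + C2 u z := fun u z =>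
    trunc_diff (W2 u) (Ico n2 (n2 + M)) (T u) (κ u) (ψ u) β z
  have hD1 : ∀ u z, D1 u z = A1 u z + B1 u z := fun u z =>
    b11_add (Ico n1 (n1 + M)) (T u) (κ u) (ψ u) β βn1 βe1 hs1 z
  have hD2 : ∀ u z, D2 u z = A2 u z + B2 u z := fun u z =>
    b11_add (Ico n2 (n2 + M)) (T u) (κ u) (ψ u) β βn2 βe2 hs2 z
  have hTpos : ∀ u h, 0 < T u h := fun u h => hT0.trans_le (h1 u h)
  -- the pointwise inequality
  have hpt : ∀ u u', av N (fun z =>
      ‖tp (Ico (T0 * n1) (T0 * n1 + (T0 * M : ℕ))) (Ft (T u) (κ u) (ψ u) β) z‖ ^ 2 *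
      ‖tp (Ico (T0 * n2) (T0 * n2 + (T0 * M : ℕ))) (Ft (T u') (κ u') (ψ u') β) z‖ ^ 2) ≤
      5 * (av N (fun z => ‖C1 u z‖ ^ 2 * ‖F2 u' z‖ ^ 2) +
        av N (fun z => ‖C2 u' z‖ ^ 2 * ‖D1 u z‖ ^ 2) +
        av N (fun z => ‖B1 u z‖ ^ 2 * ‖D2 u' z‖ ^ 2) +
        av N (fun z => ‖B2 u' z‖ ^ 2 * ‖A1 u z‖ ^ 2) +
        av N (fun z => ‖A1 u z‖ ^ 2 * ‖A2 u' z‖ ^ 2)) := by
    intro u u'
    rw [← av_add, ← av_add, ← av_add, ← av_add, ← av_const_mul]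
    refine av_mono _ _ _ fun k => ?_
    have hz := rt_ne_zero N k
    rw [sum_Ft (T u) (hTpos u) (κ u) (ψ u) β (T0 * n1) (T0 * M) _ hz,
      sum_Ft (T u') (hTpos u') (κ u') (ψ u') β (T0 * n2) (T0 * M) _ hz]
    have e1 : HH (fun h => Iw (T0 * n1) (T0 * M) (T u h) (κ u h)) (T u) (κ u) (ψ u) (fun _ => β)
        (rt N k) = F1 u (rt N k) := rfl
    have e2 : HH (fun h => Iw (T0 * n2) (T0 * M) (T u' h) (κ u' h)) (T u') (κ u') (ψ u')
        (fun _ => β) (rt N k) = F2 u' (rt N k) := rfl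
    rw [e1, e2]
    have e3 : F1 u (rt N k) * F2 u' (rt N k) = C1 u (rt N k) * F2 u' (rt N k) +
        C2 u' (rt N k) * D1 u (rt N k) + B1 u (rt N k) * D2 u' (rt N k) +
        B2 u' (rt N k) * A1 u (rt N k) + A1 u (rt N k) * A2 u' (rt N k) := by
      rw [hF1 u]
      have := hF2 u' (rt N k)
      have h7 := hD1 u (rt N k)
      have h8 := hD2 u' (rt N k)
      rw [this]
      have h9 : (D1 u (rt N k) + C1 u (rt N k)) * (D2 u' (rt N k) + C2 u' (rt N k)) =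
        C1 u (rt N k) * (D2 u' (rt N k) + C2 u' (rt N k)) + C2 u' (rt N k) * D1 u (rt N k) +
        D1 u (rt N k) * D2 u' (rt N k) := by ring
      rw [h9]
      have h10 : D1 u (rt N k) * D2 u' (rt N k) = B1 u (rt N k) * D2 u' (rt N k) +
        B2 u' (rt N k) * A1 u (rt N k) + A1 u (rt N k) * A2 u' (rt N k) := by
        rw [h7, h8]; ring
      rw [h10]
      ring
    have e4 : ‖F1 u (rt N k)‖ ^ 2 * ‖F2 u' (rt N k)‖ ^ 2 =
        ‖F1 u (rt N k) * F2 u' (rt N k)‖ ^ 2 := by rw [norm_mul, mul_pow]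
    rw [e4, e3]
    refine (b11_five _ _ _ _ _).trans (le_of_eq ?_)
    simp only [norm_mul, mul_pow]
  -- the five sums
  have S1 : ∑ u, ∑ u' ∈ univ.erase u, av N (fun z => ‖C1 u z‖ ^ 2 * ‖F2 u' z‖ ^ 2) ≤
      t ^ 2 * (12 * (T0 : ℝ) ^ 3 * M ^ 2 * (2 * δ0 * K + 4)) := by
    refine b11_const _ t _ ht (by positivity) fun u u' hne => ?_
    exact b11_C N T0 M (W2 u') (T u) (T u') (κ u) (κ u') (ψ u) (ψ u') β n1 δ0 K hN hT0 hT0M'
      (hψ u) (hψ u') hβ (h1 u) (h1' u) (h1 u') (h1' u') hδ0' (hκ u) (fun h h' => h4 u u' hne h h')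
      (fun h => card_Iw_le T0 M (T u' h) hT0 (h1 u' h) n2 (κ u' h)) hK1 hδK
  have S2 : ∑ u, ∑ u' ∈ univ.erase u, av N (fun z => ‖C2 u' z‖ ^ 2 * ‖D1 u z‖ ^ 2) ≤
      t ^ 2 * (12 * (T0 : ℝ) ^ 3 * M ^ 2 * (2 * δ0 * K + 4)) := by
    refine b11_const _ t _ ht (by positivity) fun u u' hne => ?_
    exact b11_C N T0 M (fun _ => Ico n1 (n1 + M)) (T u') (T u) (κ u') (κ u) (ψ u') (ψ u) β n2 δ0 K
      hN hT0 hT0M' (hψ u') (hψ u) hβ (h1 u') (h1' u') (h1 u) (h1' u) hδ0' (hκ u')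
      (fun h h' => (h4 u' u hne.symm h h'))
      (fun h => ⟨by rw [Int.card_Ico]; simp, n1, Finset.Subset.refl _⟩) hK2 hδK
  have S3 : ∑ u, ∑ u' ∈ univ.erase u, av N (fun z => ‖B1 u z‖ ^ 2 * ‖D2 u' z‖ ^ 2) ≤
      110 * (t * Real.sqrt t) * (T0 * M) ^ 3 :=
    b11_B T κ ψ βe1 β T0 M w r q0 N t n1 n2 δ0 δ1 hψ h1 h1' h3 h4 h5 ht ht0 hT0 hM hw hr hq hT0M
      hδ0' hδ1 hMt hrt hN (fun n hn => (hz1 n hn).2) he1 hCell1 hβ
  have S4 : ∑ u, ∑ u' ∈ univ.erase u, av N (fun z => ‖B2 u' z‖ ^ 2 * ‖A1 u z‖ ^ 2) ≤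
      110 * (t * Real.sqrt t) * (T0 * M) ^ 3 := by
    rw [b11_swap]
    exact b11_B T κ ψ βe2 βn1 T0 M w r q0 N t n2 n1 δ0 δ1 hψ h1 h1' h3 h4 h5 ht ht0 hT0 hM hw hr hq
      hT0M hδ0' hδ1 hMt hrt hN (fun n hn => (hz2 n hn).2) he2 hCell2 hn1
  have S5 : ∑ u, ∑ u' ∈ univ.erase u, av N (fun z => ‖A1 u z‖ ^ 2 * ‖A2 u' z‖ ^ 2) ≤
      t ^ 2 * (16 * T0 * M * (r ^ 2 * (2 * K + 2) * δ * T0 + 4 * r ^ 2 * q0 * T0 ^ 2) ^ 2) := by
    refine b11_const _ t _ ht (by positivity) fun u u' hne => ?_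
    exact b11_A (T u) (T u') (κ u) (κ u') (ψ u) (ψ u') βn1 βn2 T0 M w r q0 N n1 n2 δ δ0 K
      (hψ u) (hψ u') (hψ0 u) (h1 u) (h1' u) (h1 u') (h1' u') (hκ u) (hκ u') (h2 u) (h2' u)
      (fun h h' => h4 u u' hne h h') (h4' u') (h6 u) (h6' u) hT0 hM hMpos hq0 hq hδ0 hδ0' hδ
      hK1 hK2 hδK hN hn1 hn2 hNice1 hNice2
  -- conclusion
  have hsum := sum_le_sum fun u (_ : u ∈ (univ : Finset ι)) =>
    sum_le_sum fun u' (_ : u' ∈ univ.erase u) => hpt u u'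
  refine hsum.trans ?_
  have hexp : ∑ u, ∑ u' ∈ univ.erase u,
      5 * (av N (fun z => ‖C1 u z‖ ^ 2 * ‖F2 u' z‖ ^ 2) +
        av N (fun z => ‖C2 u' z‖ ^ 2 * ‖D1 u z‖ ^ 2) +
        av N (fun z => ‖B1 u z‖ ^ 2 * ‖D2 u' z‖ ^ 2) +
        av N (fun z => ‖B2 u' z‖ ^ 2 * ‖A1 u z‖ ^ 2) +
        av N (fun z => ‖A1 u z‖ ^ 2 * ‖A2 u' z‖ ^ 2)) =
      5 * (∑ u, ∑ u' ∈ univ.erase u, av N (fun z => ‖C1 u z‖ ^ 2 * ‖F2 u' z‖ ^ 2) +
        ∑ u, ∑ u' ∈ univ.erase u, av N (fun z => ‖C2 u' z‖ ^ 2 * ‖D1 u z‖ ^ 2) +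
        ∑ u, ∑ u' ∈ univ.erase u, av N (fun z => ‖B1 u z‖ ^ 2 * ‖D2 u' z‖ ^ 2) +
        ∑ u, ∑ u' ∈ univ.erase u, av N (fun z => ‖B2 u' z‖ ^ 2 * ‖A1 u z‖ ^ 2) +
        ∑ u, ∑ u' ∈ univ.erase u, av N (fun z => ‖A1 u z‖ ^ 2 * ‖A2 u' z‖ ^ 2)) := by
    simp only [← Finset.mul_sum, Finset.sum_add_distrib]
  rw [hexp]
  have hsqrt : Real.sqrt t * Real.sqrt t = t := Real.mul_self_sqrt htr.le
  have hsqrt0 : 0 < Real.sqrt t := Real.sqrt_pos.mpr htr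
  have hM0 : (0 : ℝ) < M := by linarith
  have f1 : 24 * (2 * δ0 * K + 4) / M * t ^ 2 * (T0 * M) ^ 3 =
      2 * (t ^ 2 * (12 * (T0 : ℝ) ^ 3 * M ^ 2 * (2 * δ0 * K + 4))) := by
    field_simp
    ring
  have f2 : 220 / Real.sqrt t * t ^ 2 * (T0 * M) ^ 3 =
      2 * (110 * (t * Real.sqrt t) * (T0 * M) ^ 3) := by
    have : (t : ℝ) ^ 2 = t * (Real.sqrt t * Real.sqrt t) := by rw [hsqrt]; ring
    rw [this]
    field_simp
    ring
  have f3 : 16 * (r ^ 2 * (2 * K + 2) * δ / M + 4 * r ^ 2 * q0 * T0 / M) ^ 2 * t ^ 2 *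
      (T0 * M) ^ 3 =
      t ^ 2 * (16 * T0 * M * (r ^ 2 * (2 * K + 2) * δ * T0 + 4 * r ^ 2 * q0 * T0 ^ 2) ^ 2) := by
    field_simp
  have f4 : 5 * (24 * (2 * δ0 * K + 4) / M + 220 / Real.sqrt t +
        16 * (r ^ 2 * (2 * K + 2) * δ / M + 4 * r ^ 2 * q0 * T0 / M) ^ 2) * t ^ 2 *
        (T0 * M) ^ 3 =
      5 * (24 * (2 * δ0 * K + 4) / M * t ^ 2 * (T0 * M) ^ 3 +
        220 / Real.sqrt t * t ^ 2 * (T0 * M) ^ 3 +
        16 * (r ^ 2 * (2 * K + 2) * δ / M + 4 * r ^ 2 * q0 * T0 / M) ^ 2 * t ^ 2 *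
          (T0 * M) ^ 3) := by ring
  rw [f4, f1, f2, f3]
  linarith

end Pool.Agent.Lib.MP_fed790_nt.QP
end

section

/-!
# QP C9s: the second moment bound

**`second_moment`.** Fix `i < j`, `v = (j,b)`. For `a ≠ a'` (`Fin t`) apply `loc` with
`Φ = Fe (u,v)`, `Φ' = Fe (u',v)`, `γ = lo v`, `α = lo u = lo u'`. Sum over `a ≠ a'` and exchange the
sums: for each `(b', c, c')` apply `lemmaC` with `ι = Fin t`, `η = H`, `T a h = T ((i,a),v) h`,
`κ = kB`, `ψ a h = ψ (f (T ((i,a),v) h))`, `β = βf …`, `q0 = W^(S+1)`, `δ1 = δ0/(2t)`,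
`n1 = (γ + b' Y - α - c Z')/T0`, `n2` with `c'` (exact division since `T0 ∣ Z'`), `K = 4 S Kl M`:
`|γ + b'Y - α - cZ'| ≤ (3S-2) X`, `X = Kl T0 M`, so `|n1| + M ≤ (3S-2) Kl M + M ≤ 4 S Kl M`.
Hypotheses of `lemmaC`: `∑_h ψ (f (T h)) = ψ(g) ∑_{h ∈ H} ψ h = 0` since `ψ` is not trivial on `H`;
`h1`-`h4` from the pool (`lo`, `hi`, `tight`, `cop`, `kk_abs_le`, `kk_sub_abs_le`): for
`idx p < idx p'`, `T p' - T p ≥ T0 δ0 (idx p' - idx p - 1/2)/t ≥ δ0/(2t) T0`; `h4'`: `T ≡ 1 mod W`;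
`h5`: `gcd_dvd`; `h6`: `cong`; `h6'`: `kk_sub_dvd`.
Each is `≤ εc t² Y³`, so the total is at most
`t² 32 X² Y² + 2 Kl Z' Kl⁵ εc t² Y³ = X⁴ t² (32/Kl² + 2 Kl εc)`.
-/

open Finset

namespace Pool.Agent.Lib.MP_fed790_nt.QP

variable {G : Type*} [AddCommGroup G] {f : ℕ → G} {H : AddSubgroup G} [Fintype H]
  {k y W S t L N' T0 X : ℕ} {δ δ0 εT ε10 ρ c1 : ℝ} {T : Ve S t × Ve S t → H → ℕ}

/-- The edge over `(i, a)` and `(j, b)` belongs to `Pr`. -/
private lemma c9s_mem {i j : Fin S} (hij : i < j) (a b : Fin t) :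
    ((((i, a) : Ve S t), ((j, b) : Ve S t)) : Ve S t × Ve S t) ∈ Pr S t := by
  unfold Pr
  rw [Finset.mem_filter]
  exact ⟨Finset.mem_univ _, hij⟩

private lemma c9s_sum_zero [Finite G] (h : HypIII f H k y W S t L N' T0 X δ δ0 εT ε10 ρ c1 T)
    (ψ : AddChar G ℂ) (hψ : ∃ g ∈ H, ψ g ≠ 1) {p : Ve S t × Ve S t} (hp : p ∈ Pr S t) :
    ∑ g : H, ψ (f (T p g)) = 0 := by
  obtain ⟨g0, hg0, h1⟩ := h.hpool.col p hp
  have h2 : ∀ g : H, ψ (f (T p g)) = ψ g0 * ψ g := by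
    intro g
    rw [h1 g, AddChar.map_add_eq_mul]
  rw [Finset.sum_congr rfl fun g _ => h2 g, ← Finset.mul_sum]
  have h3 : ∑ g : H, ψ g = 0 := by
    have h4 : ∑ g : H, (ψ.compAddMonoidHom H.subtype) g = 0 := by
      rw [AddChar.sum_eq_zero_iff_ne_zero]
      intro h0
      obtain ⟨g, hg, hne⟩ := hψ
      apply hne
      have h5 := DFunLike.congr_fun h0 (⟨g, hg⟩ : H)
      simpa using h5
    simpa using h4
  rw [h3, mul_zero]

private lemma c9s_gap (h : HypIII f H k y W S t L N' T0 X δ δ0 εT ε10 ρ c1 T)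
    {p p' : Ve S t × Ve S t} (hp : p ∈ Pr S t) (hp' : p' ∈ Pr S t)
    (hlt : (p.1.2 : ℕ) < (p'.1.2 : ℕ)) (g g' : H) :
    δ0 / (2 * t) * T0 ≤ (T p' g' : ℝ) - T p g := by
  have h1 := h.hpool.hi p hp g
  have h2 := h.hpool.lo p' hp' g'
  have ht : (0 : ℝ) < t := by exact_mod_cast h.ht
  have h3 : (((p.1.2 : ℕ) : ℝ)) + 1 ≤ ((p'.1.2 : ℕ) : ℝ) := by exact_mod_cast hlt
  have hT0 : (0 : ℝ) ≤ T0 := Nat.cast_nonneg _
  have h4 : δ0 / (2 * t) * T0 ≤ (T0 : ℝ) * (1 + δ0 * (((p'.1.2 : ℕ) : ℝ) / t)) -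
      T0 * (1 + δ0 * ((((p.1.2 : ℕ) : ℝ) + 1 / 2) / t)) := by
    have h5 : (T0 : ℝ) * (1 + δ0 * (((p'.1.2 : ℕ) : ℝ) / t)) -
      T0 * (1 + δ0 * ((((p.1.2 : ℕ) : ℝ) + 1 / 2) / t)) =
      T0 * δ0 / t * (((p'.1.2 : ℕ) : ℝ) - ((p.1.2 : ℕ) : ℝ) - 1 / 2) := by
      field_simp
      ring
    have h6 : δ0 / (2 * t) * T0 = T0 * δ0 / t * (1 / 2) := by
      field_simp
    rw [h5, h6]
    have h7 : 0 ≤ T0 * δ0 / t := div_nonneg (mul_nonneg hT0 h.hδ0.le) ht.le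
    exact mul_le_mul_of_nonneg_left (by linarith) h7
  linarith

private lemma c9s_cong (h : HypIII f H k y W S t L N' T0 X δ δ0 εT ε10 ρ c1 T)
    {p : Ve S t × Ve S t} (hp : p ∈ Pr S t) (g g' : H) :
    (W : ℤ) ^ (2 * S + 3) ∣ (T p g : ℤ) - T p g' := by
  have h1 := (h.hpool.cong p hp g').trans (h.hpool.cong p hp g).symm
  have h2 := Nat.modEq_iff_dvd.1 h1
  push_cast at h2
  exact h2

private lemma c9s_cop (h : HypIII f H k y W S t L N' T0 X δ δ0 εT ε10 ρ c1 T)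
    {p : Ve S t × Ve S t} (hp : p ∈ Pr S t) (g : H) : (T p g).Coprime (W ^ (S + 1)) := by
  refine Nat.Coprime.pow_right _ ?_
  have h1 : T p g ≡ 1 [MOD W] := (h.T_cong hp g).of_dvd (dvd_pow_self W (by omega))
  have h2 := h1.gcd_eq
  rw [Nat.gcd_one_left] at h2
  exact h2

private lemma c9s_n (X Kl Y Z' M T0 S : ℕ) (i j : ℕ) (hij : i < j) (hj : j + 1 ≤ S)
    (hXY : X = Kl * Y) (hYZ : Y = Kl * Z') (hYM : Y = T0 * M) (hKl : 0 < Kl) (hT0 : 0 < T0)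
    (hTZ : T0 ∣ Z') {b c : ℕ} (hb : b < Kl) (hc : c < Kl ^ 2) :
    ∃ n : ℤ, 3 * (j : ℤ) * X + b * Y - 3 * (i : ℤ) * X - c * Z' = T0 * n ∧
      |(n : ℝ)| + M ≤ 4 * S * Kl * M := by
  obtain ⟨z, hz⟩ := hTZ
  have hXZ : X = Kl ^ 2 * Z' := by rw [hXY, hYZ]; ring
  refine ⟨3 * (j : ℤ) * (Kl ^ 2 * z) + b * (Kl * z) - 3 * (i : ℤ) * (Kl ^ 2 * z) - c * z, ?_, ?_⟩
  · rw [hXZ, hYZ, hz]
    push_cast
    ring
  · set n : ℤ := 3 * (j : ℤ) * (Kl ^ 2 * z) + b * (Kl * z) - 3 * (i : ℤ) * (Kl ^ 2 * z) - c * z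
      with hn
    have hMz : M = Kl * z := by
      have h1 : T0 * M = T0 * (Kl * z) := by rw [← hYM, hYZ, hz]; ring
      exact Nat.eq_of_mul_eq_mul_left hT0 h1
    have hn1 : n = 3 * ((j : ℤ) - i) * (Kl * M) + b * M - c * z := by
      rw [hn, hMz]
      push_cast
      ring
    have hcz : (c : ℤ) * z ≤ Kl * M := by
      have h1 : c * z ≤ Kl ^ 2 * z := Nat.mul_le_mul_right _ hc.le
      have h2 : Kl ^ 2 * z = Kl * M := by rw [hMz]; ring
      rw [h2] at h1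
      exact_mod_cast h1
    have hbM : (b : ℤ) * M ≤ Kl * M := by
      have h1 : b * M ≤ Kl * M := Nat.mul_le_mul_right _ hb.le
      exact_mod_cast h1
    have hM : (M : ℤ) ≤ Kl * M := by
      have h1 : M ≤ Kl * M := Nat.le_mul_of_pos_left _ hKl
      exact_mod_cast h1
    have h0 : (0 : ℤ) ≤ (Kl : ℤ) * M := by positivity
    have hb0 : (0 : ℤ) ≤ (b : ℤ) * M := by positivity
    have hc0 : (0 : ℤ) ≤ (c : ℤ) * z := by positivity
    have hij1 : (1 : ℤ) ≤ (j : ℤ) - i := by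
      have : (i : ℤ) + 1 ≤ j := by exact_mod_cast hij
      linarith
    have hij2 : (j : ℤ) - i ≤ S - 1 := by
      have h1 : (j : ℤ) + 1 ≤ S := by exact_mod_cast hj
      have h2 : (0 : ℤ) ≤ i := Int.natCast_nonneg _
      linarith
    have hn0 : 0 ≤ n := by
      rw [hn1]
      have := mul_le_mul_of_nonneg_right hij1 h0
      nlinarith
    have hn2 : n + M ≤ 4 * S * Kl * M := by
      rw [hn1]
      have h1 := mul_le_mul_of_nonneg_right hij2 h0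
      have hS : (1 : ℤ) ≤ S := by
        have : 1 ≤ S := by omega
        exact_mod_cast this
      have h2 := mul_le_mul_of_nonneg_right hS h0
      nlinarith
    have h3 : |(n : ℝ)| = (n : ℝ) := abs_of_nonneg (by exact_mod_cast hn0)
    rw [h3]
    exact_mod_cast hn2

theorem second_moment [Finite G] (h : HypIII f H k y W S t L N' T0 X δ δ0 εT ε10 ρ c1 T)
    {Kl Y Z' M w r : ℕ} {εc : ℝ} (hl : HypLoc W S t T0 X Kl Y Z' M w r δ δ0 εc)
    (ψ : AddChar G ℂ) (hψ : ∃ g ∈ H, ψ g ≠ 1) (i j : Fin S) (hij : i < j) (b : Fin t) :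
    ∑ a : Fin t, ∑ a' ∈ univ.erase a,
      ∑ α ∈ Ico (loB S t X (i, a)) (loB S t X (i, a) + X),
      ∑ α' ∈ Ico (loB S t X (i, a')) (loB S t X (i, a') + X),
        ‖Cv f W X T ψ (i, a) (i, a') (j, b) α α'‖ ^ 2 ≤
      (X : ℝ) ^ 4 * t ^ 2 * (32 / Kl ^ 2 + 2 * Kl * εc) := by
  have hj : (j : ℕ) + 1 ≤ S := j.2
  have hijN : (i : ℕ) < (j : ℕ) := hij
  have hW1 : 1 ≤ W := by have := h.hW; omega
  have hT0 : 0 < T0 := h.hT0
  have htpos : 0 < t := h.ht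
  have htR : (0 : ℝ) < t := by exact_mod_cast htpos
  have hY0 : 0 < Y := by
    have h1 := h.hX0
    rw [hl.hXY] at h1
    exact Nat.pos_of_mul_pos_left h1
  have hM0 : 0 < M := by
    rw [hl.hYM] at hY0
    exact Nat.pos_of_mul_pos_left hY0
  set v : Ve S t := (j, b) with hv
  set u : Fin t → Ve S t := fun a => (i, a) with hu
  have hpu : ∀ a, (u a, v) ∈ Pr S t := fun a => c9s_mem hij a b
  set N : ℕ := 64 * T0 * M with hN
  set γ : ℤ := loB S t X v with hγ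
  set α : ℤ := loB S t X (i, b) with hα
  set avv : ℕ → ℕ → ℕ → Fin t → Fin t → ℝ := fun b' c c' a a' => av N (fun z =>
        ‖tp (Ico (γ + b' * Y - α - c * Z') (γ + b' * Y - α - c * Z' + Y))
          (Fe f W T ψ (u a, v)) z‖ ^ 2 *
        ‖tp (Ico (γ + b' * Y - α - c' * Z') (γ + b' * Y - α - c' * Z' + Y))
          (Fe f W T ψ (u a', v)) z‖ ^ 2) with havv
  -- localisation
  have hloc : ∀ a : Fin t, ∀ a' ∈ univ.erase a,
      ∑ x ∈ Ico (loB S t X (i, a)) (loB S t X (i, a) + X),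
      ∑ x' ∈ Ico (loB S t X (i, a')) (loB S t X (i, a') + X),
        ‖Cv f W X T ψ (i, a) (i, a') (j, b) x x'‖ ^ 2 ≤
      32 * (X : ℝ) ^ 2 * (Y : ℝ) ^ 2 + 2 * Kl * Z' * ∑ b' ∈ range Kl, ∑ c ∈ range (Kl ^ 2),
        ∑ c' ∈ range (Kl ^ 2), avv b' c c' a a' := by
    intro a a' ha'
    have hne : u a ≠ u a' := by
      intro h1
      have h2 : a = a' := congrArg Prod.snd h1
      exact (Finset.mem_erase.1 ha').1 h2.symm
    refine loc (Fe f W T ψ (u a, v)) (Fe f W T ψ (u a', v)) γ α X Y Z' Kl N hl.hXY hl.hYZ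
      hl.hKl hl.hZ' ?_ ?_
    · rw [hN, hl.hYM]
      nlinarith [Nat.zero_le (T0 * M)]
    · intro x x' c ℓ
      refine (corr_bd h ψ (u a) (u a') v (hpu a) (hpu a') hne x x' c ℓ).trans ?_
      have h1 : (4 : ℝ) * T0 ^ 2 ≤ Z' := by exact_mod_cast hl.hZT
      linarith
  -- Lemma C
  have hC : ∀ b' ∈ range Kl, ∀ c ∈ range (Kl ^ 2), ∀ c' ∈ range (Kl ^ 2),
      ∑ a : Fin t, ∑ a' ∈ univ.erase a, avv b' c c' a a' ≤ εc * t ^ 2 * (Y : ℝ) ^ 3 := by
    intro b' hb' c hc c' hc'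
    rw [Finset.mem_range] at hb' hc hc'
    obtain ⟨n1, hn1, hn1'⟩ := c9s_n X Kl Y Z' M T0 S i j hijN hj hl.hXY hl.hYZ hl.hYM hl.hKl hT0
      hl.hTZ hb' hc
    obtain ⟨n2, hn2, hn2'⟩ := c9s_n X Kl Y Z' M T0 S i j hijN hj hl.hXY hl.hYZ hl.hYM hl.hKl hT0
      hl.hTZ hb' hc'
    have e1 : γ + b' * Y - α - c * Z' = T0 * n1 := by
      rw [← hn1]
      rfl
    have e2 : γ + b' * Y - α - c' * Z' = T0 * n2 := by
      rw [← hn2]
      rfl
    have eY : ((Y : ℕ) : ℤ) = ((T0 * M : ℕ) : ℤ) := by rw [hl.hYM]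
    have key := lemmaC (ι := Fin t) (η := H) (fun a g => T (u a, v) g)
      (fun a g => kB W T (u a, v) g) (fun a g => ψ (f (T (u a, v) g))) (βf f W ψ i j) T0 M w r
      (W ^ (S + 1)) N t n1 n2 δ δ0 (δ0 / (2 * t)) (4 * S * Kl * M)
      (fun a g => (AddChar.norm_apply ψ _).le) (fun a => c9s_sum_zero h ψ hψ (hpu a))
      (fun n => (AddChar.norm_apply ψ _).le) (fun a g => h.T_ge (hpu a) g)
      (fun a g => h.T_le (hpu a) g)
      (fun a g => kk_abs_le W i j _ hW1 (h.hT0.trans (h.T_ge (hpu a) g)) (h.T_cong (hpu a) g))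
      (fun a g g' => h.hpool.tight _ (hpu a) g g') ?_ ?_ ?_
      (fun a g => c9s_cop h (hpu a) g) ?_ ?_ ?_ (Fintype.card_fin t) htpos hT0 hl.hM hl.hw hl.hr
      hl.hq hl.hTM h.hδ0.le h.hδ0' h.hδ (div_pos h.hδ0 (by positivity)) hl.hMt hl.hrt hn1' hn2'
      hl.hδK le_rfl
    · have h1 : ∑ a : Fin t, ∑ a' ∈ univ.erase a, avv b' c c' a a' =
          ∑ a : Fin t, ∑ a' ∈ univ.erase a, av N (fun z =>
          ‖tp (Ico (T0 * n1) (T0 * n1 + (T0 * M : ℕ))) (Ft (fun g => T (u a, v) g)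
            (fun g => kB W T (u a, v) g) (fun g => ψ (f (T (u a, v) g))) (βf f W ψ i j)) z‖ ^ 2 *
          ‖tp (Ico (T0 * n2) (T0 * n2 + (T0 * M : ℕ))) (Ft (fun g => T (u a', v) g)
            (fun g => kB W T (u a', v) g) (fun g => ψ (f (T (u a', v) g))) (βf f W ψ i j)) z‖ ^ 2) := by
        refine Finset.sum_congr rfl fun a _ => Finset.sum_congr rfl fun a' _ => ?_
        simp only [havv]
        rw [e1, e2, eY]
        rfl
      rw [h1]
      refine key.trans ?_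
      have h2 : ((T0 : ℝ) * M) = (Y : ℝ) := by
        rw [hl.hYM]
        push_cast
        rfl
      rw [h2]
      have h3 := hl.hεc
      have h4 : (0 : ℝ) ≤ (t : ℝ) ^ 2 * (Y : ℝ) ^ 3 := by positivity
      have h5 := mul_le_mul_of_nonneg_right h3 h4
      push_cast
      push_cast at h5
      calc _ = (5 * (24 * (2 * δ0 * (4 * S * Kl * M) + 4) / M + 220 / Real.sqrt t +
        16 * (r ^ 2 * (2 * (4 * S * Kl * M) + 2) * δ / M + 4 * r ^ 2 * W ^ (S + 1) * T0 / M) ^ 2)) *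
        ((t : ℝ) ^ 2 * (Y : ℝ) ^ 3) := by ring
        _ ≤ εc * ((t : ℝ) ^ 2 * (Y : ℝ) ^ 3) := h5
        _ = εc * t ^ 2 * (Y : ℝ) ^ 3 := by ring
    · intro a g g'
      have h1 := kk_sub_abs_le W i j (T (u a, v) g) (T (u a, v) g') hW1 (h.T_cong (hpu a) g)
        (h.T_cong (hpu a) g')
      have h2 : |((kk W i j (T (u a, v) g) : ℤ) : ℝ) - ((kk W i j (T (u a, v) g') : ℤ) : ℝ)| ≤
          |(T (u a, v) g : ℝ) - T (u a, v) g'| := by exact_mod_cast h1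
      exact h2.trans (h.hpool.tight _ (hpu a) g g')
    · intro a a' hne g g'
      have hne' : (a : ℕ) ≠ (a' : ℕ) := fun h1 => hne (Fin.ext h1)
      rcases Nat.lt_or_gt_of_ne hne' with h1 | h1
      · have h2 := c9s_gap h (hpu a) (hpu a') h1 g g'
        rw [abs_sub_comm]
        exact h2.trans (le_abs_self _)
      · have h2 := c9s_gap h (hpu a') (hpu a) h1 g' g
        exact h2.trans (le_abs_self _)
    · intro a a' hne g g'
      refine h.hpool.cop _ (hpu a) _ (hpu a') ?_ g g'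
      intro h1
      apply hne
      have h2 : u a = u a' := congrArg Prod.fst h1
      exact congrArg Prod.snd h2
    · intro a a' a'' h1 h2 h3 g g' g''
      refine gcd_dvd h.hpool (fun p => p.1.2.2) (by omega) h.hWt (hpu a) (hpu a') (hpu a'') ?_ ?_ ?_
        g g' g''
      · exact fun h4 => h1 (Fin.ext h4)
      · exact fun h4 => h2 (Fin.ext h4)
      · exact fun h4 => h3 (Fin.ext h4)
    · intro a g g'
      have h1 := c9s_cong h (hpu a) g g'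
      push_cast
      exact (pow_dvd_pow _ (by omega)).trans h1
    · intro a g g'
      have h1 := kk_sub_dvd W i j S (T (u a, v) g) (T (u a, v) g') hW1 hj (h.T_cong (hpu a) g)
        (c9s_cong h (hpu a) g g')
      push_cast
      exact h1
  -- summation
  have hsum : ∑ a : Fin t, ∑ a' ∈ univ.erase a,
      (32 * (X : ℝ) ^ 2 * (Y : ℝ) ^ 2 + 2 * Kl * Z' * ∑ b' ∈ range Kl, ∑ c ∈ range (Kl ^ 2),
        ∑ c' ∈ range (Kl ^ 2), avv b' c c' a a') =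
      ∑ a : Fin t, ∑ a' ∈ univ.erase a, (32 * (X : ℝ) ^ 2 * (Y : ℝ) ^ 2) +
      2 * Kl * Z' * ∑ b' ∈ range Kl, ∑ c ∈ range (Kl ^ 2), ∑ c' ∈ range (Kl ^ 2),
        ∑ a : Fin t, ∑ a' ∈ univ.erase a, avv b' c c' a a' := by
    simp only [Finset.sum_add_distrib, ← Finset.mul_sum]
    congr 1
    congr 1
    have s1 : ∀ a : Fin t, ∑ a' ∈ univ.erase a, ∑ b' ∈ range Kl, ∑ c ∈ range (Kl ^ 2),
        ∑ c' ∈ range (Kl ^ 2), avv b' c c' a a' = ∑ b' ∈ range Kl, ∑ c ∈ range (Kl ^ 2),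
        ∑ c' ∈ range (Kl ^ 2), ∑ a' ∈ univ.erase a, avv b' c c' a a' := by
      intro a
      rw [Finset.sum_comm]
      refine Finset.sum_congr rfl fun b' _ => ?_
      rw [Finset.sum_comm]
      refine Finset.sum_congr rfl fun c _ => ?_
      rw [Finset.sum_comm]
    rw [Finset.sum_congr rfl fun a _ => s1 a, Finset.sum_comm]
    refine Finset.sum_congr rfl fun b' _ => ?_
    rw [Finset.sum_comm]
    refine Finset.sum_congr rfl fun c _ => ?_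
    rw [Finset.sum_comm]
  have hc1 : ∑ a : Fin t, ∑ a' ∈ univ.erase a, (32 * (X : ℝ) ^ 2 * (Y : ℝ) ^ 2) ≤
      (t : ℝ) ^ 2 * (32 * (X : ℝ) ^ 2 * (Y : ℝ) ^ 2) := by
    have h0 : (0 : ℝ) ≤ 32 * (X : ℝ) ^ 2 * (Y : ℝ) ^ 2 := by positivity
    calc ∑ a : Fin t, ∑ a' ∈ univ.erase a, (32 * (X : ℝ) ^ 2 * (Y : ℝ) ^ 2)
        ≤ ∑ _a : Fin t, ∑ _a' : Fin t, (32 * (X : ℝ) ^ 2 * (Y : ℝ) ^ 2) := by
          refine Finset.sum_le_sum fun a _ => ?_
          exact Finset.sum_le_sum_of_subset_of_nonneg (Finset.erase_subset _ _)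
            fun _ _ _ => h0
      _ = (t : ℝ) ^ 2 * (32 * (X : ℝ) ^ 2 * (Y : ℝ) ^ 2) := by
          simp only [Finset.sum_const, Finset.card_univ, Fintype.card_fin, nsmul_eq_mul]
          ring
  have hc2 : ∑ b' ∈ range Kl, ∑ c ∈ range (Kl ^ 2), ∑ c' ∈ range (Kl ^ 2),
      ∑ a : Fin t, ∑ a' ∈ univ.erase a, avv b' c c' a a' ≤
      (Kl : ℝ) ^ 5 * (εc * t ^ 2 * (Y : ℝ) ^ 3) := by
    calc ∑ b' ∈ range Kl, ∑ c ∈ range (Kl ^ 2), ∑ c' ∈ range (Kl ^ 2),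
          ∑ a : Fin t, ∑ a' ∈ univ.erase a, avv b' c c' a a'
        ≤ ∑ _b' ∈ range Kl, ∑ _c ∈ range (Kl ^ 2), ∑ _c' ∈ range (Kl ^ 2),
          (εc * t ^ 2 * (Y : ℝ) ^ 3) :=
          Finset.sum_le_sum fun b' hb' => Finset.sum_le_sum fun c hc =>
            Finset.sum_le_sum fun c' hc' => hC b' hb' c hc c' hc'
      _ = (Kl : ℝ) ^ 5 * (εc * t ^ 2 * (Y : ℝ) ^ 3) := by
          simp only [Finset.sum_const, Finset.card_range, nsmul_eq_mul]
          push_cast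
          ring
  calc _ ≤ ∑ a : Fin t, ∑ a' ∈ univ.erase a,
      (32 * (X : ℝ) ^ 2 * (Y : ℝ) ^ 2 + 2 * Kl * Z' * ∑ b' ∈ range Kl, ∑ c ∈ range (Kl ^ 2),
        ∑ c' ∈ range (Kl ^ 2), avv b' c c' a a') :=
        Finset.sum_le_sum fun a _ => Finset.sum_le_sum fun a' ha' => hloc a a' ha'
    _ ≤ (t : ℝ) ^ 2 * (32 * (X : ℝ) ^ 2 * (Y : ℝ) ^ 2) +
      2 * Kl * Z' * ((Kl : ℝ) ^ 5 * (εc * t ^ 2 * (Y : ℝ) ^ 3)) := by
        rw [hsum]
        exact add_le_add hc1 (mul_le_mul_of_nonneg_left hc2 (by positivity))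
    _ = (X : ℝ) ^ 4 * t ^ 2 * (32 / Kl ^ 2 + 2 * Kl * εc) := by
        have hK : (Kl : ℝ) ≠ 0 := by
          have := hl.hKl
          positivity
        have hX1 : (X : ℝ) = Kl * Y := by rw [hl.hXY]; push_cast; rfl
        have hY1 : (Y : ℝ) = Kl * Z' := by rw [hl.hYZ]; push_cast; rfl
        rw [hX1, hY1]
        field_simp

end Pool.Agent.Lib.MP_fed790_nt.QP
end

section

/-!
# QP C10: the expectation of C4

**`E3`.** `C4 = ∑_{a,a'} ∑_{b,b'} ψ(ab) conj ψ(a'b) conj(ψ(ab') conj ψ(a'b'))` (expand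
`‖∑_b …‖²`). Multiply with the weight and sum over `x`. The terms with `a = a'` or `b = b'` are at
most `#bx` each in absolute value (`mass`, `|ψ| = 1`, `ww ≥ 0`), and there are at most `2 t³` of
them. For `a ≠ a'`, `b ≠ b'` use `four_exp`; summing over `b ≠ b'` each `Cv (j,b)` occurs at most
`2 t/2 = t` times, so with `second_moment` the total is at most
`#bx X⁻⁴ t ∑_b X⁴ t² (32/Kl² + 2 Kl εc) = #bx t⁴ (32/Kl² + 2 Kl εc)`.
-/

open Finset

namespace Pool.Agent.Lib.MP_fed790_nt.QP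

variable {G : Type*} [AddCommGroup G] {f : ℕ → G} {H : AddSubgroup G} [Fintype H]
  {k y W S t L N' T0 X : ℕ} {δ δ0 εT ε10 ρ c1 : ℝ} {T : Ve S t × Ve S t → H → ℕ}

private theorem c10_avg {t : ℕ} (F : Fin t → ℝ) :
    ∑ b : Fin t, ∑ b' : Fin t, (F b + F b') / 2 = t * ∑ b : Fin t, F b := by
  have h1 : ∀ b : Fin t, ∑ b' : Fin t, (F b + F b') / 2 =
      (t * F b + ∑ b' : Fin t, F b') / 2 := by
    intro b
    rw [← Finset.sum_div, Finset.sum_add_distrib, Finset.sum_const, Finset.card_univ,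
      Fintype.card_fin, nsmul_eq_mul]
  simp_rw [h1]
  rw [← Finset.sum_div, Finset.sum_add_distrib, ← Finset.mul_sum, Finset.sum_const,
    Finset.card_univ, Fintype.card_fin, nsmul_eq_mul]
  ring

private theorem c10_expand {t : ℕ} (z : Fin t → Fin t → ℂ) :
    ((∑ a : Fin t, ∑ a' : Fin t,
      ‖∑ b : Fin t, z a b * starRingEnd ℂ (z a' b)‖ ^ 2 : ℝ) : ℂ) =
    ∑ a : Fin t, ∑ a' : Fin t, ∑ b : Fin t, ∑ b' : Fin t,
      z a b * starRingEnd ℂ (z a' b) * starRingEnd ℂ (z a b' * starRingEnd ℂ (z a' b')) := by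
  rw [Complex.ofReal_sum]
  refine Finset.sum_congr rfl (fun a _ => ?_)
  rw [Complex.ofReal_sum]
  refine Finset.sum_congr rfl (fun a' _ => ?_)
  rw [Complex.ofReal_pow, ← Complex.mul_conj', map_sum, Finset.sum_mul_sum]

/-- The combinatorial bound for the sum over `a, a', b, b'`. -/
private theorem c10_comb {t : ℕ} (n c : ℝ) (hn : 0 ≤ n) (hc : 0 ≤ c)
    (E : Fin t → Fin t → Fin t → Fin t → ℝ) (R : Fin t → Fin t → Fin t → ℝ)
    (hR : ∀ a a' b, 0 ≤ R a a' b)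
    (h1 : ∀ a a' b b', E a a' b b' ≤ n)
    (h2 : ∀ a a' b b', a ≠ a' → b ≠ b' → E a a' b b' ≤ c * ((R a a' b + R a a' b') / 2))
    (B : ℝ) (h3 : ∀ b, ∑ a : Fin t, ∑ a' ∈ univ.erase a, R a a' b ≤ B) :
    ∑ a : Fin t, ∑ a' : Fin t, ∑ b : Fin t, ∑ b' : Fin t, E a a' b b' ≤
      2 * (t : ℝ) ^ 3 * n + c * ((t : ℝ) ^ 2 * B) := by
  classical
  have hE : ∀ a a' b b', E a a' b b' ≤ (if a = a' then n else 0) + (if b = b' then n else 0) +
      (if a' ∈ univ.erase a then c * ((R a a' b + R a a' b') / 2) else 0) := by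
    intro a a' b b'
    have hpos : 0 ≤ c * ((R a a' b + R a a' b') / 2) := by
      have := hR a a' b
      have := hR a a' b'
      positivity
    by_cases ha : a = a'
    · have h4 : ¬ (a' ∈ univ.erase a) := by simp [ha]
      rw [if_pos ha, if_neg h4]
      have := h1 a a' b b'
      split_ifs <;> linarith
    · have h4 : a' ∈ univ.erase a := by simp [Ne.symm ha]
      rw [if_neg ha, if_pos h4]
      by_cases hb : b = b'
      · rw [if_pos hb]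
        have := h1 a a' b b'
        linarith
      · rw [if_neg hb]
        have := h2 a a' b b' ha hb
        linarith
  have hS : ∑ a : Fin t, ∑ a' : Fin t, ∑ b : Fin t, ∑ b' : Fin t, E a a' b b' ≤
      ∑ a : Fin t, ∑ a' : Fin t, ∑ b : Fin t, ∑ b' : Fin t,
        ((if a = a' then n else 0) + (if b = b' then n else 0) +
        (if a' ∈ univ.erase a then c * ((R a a' b + R a a' b') / 2) else 0)) :=
    Finset.sum_le_sum fun a _ => Finset.sum_le_sum fun a' _ => Finset.sum_le_sum fun b _ =>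
      Finset.sum_le_sum fun b' _ => hE a a' b b'
  refine hS.trans ?_
  simp_rw [Finset.sum_add_distrib]
  have e1 : ∑ a : Fin t, ∑ a' : Fin t, ∑ _b : Fin t, ∑ _b' : Fin t,
      (if a = a' then n else 0) = (t : ℝ) ^ 3 * n := by
    simp only [Finset.sum_const, Finset.card_univ, Fintype.card_fin, nsmul_eq_mul,
      ← Finset.mul_sum, Finset.sum_ite_eq, Finset.mem_univ, if_true]
    ring
  have e2 : ∑ _a : Fin t, ∑ _a' : Fin t, ∑ b : Fin t, ∑ b' : Fin t,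
      (if b = b' then n else 0) = (t : ℝ) ^ 3 * n := by
    simp only [Finset.sum_const, Finset.card_univ, Fintype.card_fin, nsmul_eq_mul,
      Finset.sum_ite_eq, Finset.mem_univ, if_true]
    ring
  have e3 : ∑ a : Fin t, ∑ a' : Fin t, ∑ b : Fin t, ∑ b' : Fin t,
      (if a' ∈ univ.erase a then c * ((R a a' b + R a a' b') / 2) else 0) ≤
      c * ((t : ℝ) ^ 2 * B) := by
    have e4 : ∀ a a' : Fin t, ∑ b : Fin t, ∑ b' : Fin t,
        (if a' ∈ univ.erase a then c * ((R a a' b + R a a' b') / 2) else 0) =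
        if a' ∈ univ.erase a then c * (t * ∑ b : Fin t, R a a' b) else 0 := by
      intro a a'
      split_ifs with ha
      · simp_rw [← Finset.mul_sum]
        rw [c10_avg]
      · simp
    simp_rw [e4]
    have e5 : ∀ a : Fin t, ∑ a' : Fin t,
        (if a' ∈ univ.erase a then c * (t * ∑ b : Fin t, R a a' b) else 0) =
        c * (t * ∑ b : Fin t, ∑ a' ∈ univ.erase a, R a a' b) := by
      intro a
      rw [← Finset.sum_filter, Finset.filter_mem_eq_inter, Finset.univ_inter, Finset.sum_comm,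
        Finset.mul_sum, Finset.mul_sum]
    simp_rw [e5]
    rw [← Finset.mul_sum, ← Finset.mul_sum, Finset.sum_comm]
    have e6 : ∑ b : Fin t, ∑ a : Fin t, ∑ a' ∈ univ.erase a, R a a' b ≤ t * B := by
      refine (Finset.sum_le_sum (fun b _ => h3 b)).trans (le_of_eq ?_)
      rw [Finset.sum_const, Finset.card_univ, Fintype.card_fin, nsmul_eq_mul]
    have e7 : c * (t * ∑ b : Fin t, ∑ a : Fin t, ∑ a' ∈ univ.erase a, R a a' b) ≤
        c * (t * (t * B)) := by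
      gcongr
    refine e7.trans (le_of_eq ?_)
    ring
  rw [e1, e2]
  linarith

theorem E3 [Finite G] (h : HypIII f H k y W S t L N' T0 X δ δ0 εT ε10 ρ c1 T)
    {Kl Y Z' M w r : ℕ} {εc : ℝ} (hl : HypLoc W S t T0 X Kl Y Z' M w r δ δ0 εc)
    (ψ : AddChar G ℂ) (hψ : ∃ g ∈ H, ψ g ≠ 1) (i j : Fin S) (hij : i < j) :
    ∑ x ∈ bx (loB S t X) X, C4 f W ψ i j x * ∏ p ∈ Pr S t, ww T (kB W T) p x ≤
      (bx (loB S t X) X).card * (2 * (t : ℝ) ^ 3 + t ^ 4 * (32 / Kl ^ 2 + 2 * Kl * εc)) := by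
  classical
  set n : ℝ := ((bx (loB S t X) X).card : ℝ) with hn
  have hn0 : 0 ≤ n := Nat.cast_nonneg _
  have hX0 : (0 : ℝ) < X := by exact_mod_cast h.hX0
  set P : (Ve S t → ℤ) → ℝ := fun x => ∏ p ∈ Pr S t, ww T (kB W T) p x with hP
  have hP0 : ∀ x, 0 ≤ P x := fun x => Finset.prod_nonneg fun p _ => ww_nonneg _ _ _ _
  have hmass : ∑ x ∈ bx (loB S t X) X, P x = n := mass h
  set z : (Ve S t → ℤ) → Fin t → Fin t → ℂ := fun x a b =>
    ψ (f (ee W ((i, a), (j, b)) x).natAbs) with hz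
  have hz1 : ∀ x a b, ‖z x a b‖ = 1 := fun x a b => AddChar.norm_apply _ _
  set q : (Ve S t → ℤ) → Fin t → Fin t → Fin t → Fin t → ℂ := fun x a a' b b' =>
    z x a b * starRingEnd ℂ (z x a' b) * starRingEnd ℂ (z x a b' * starRingEnd ℂ (z x a' b'))
    with hq
  have hq1 : ∀ x a a' b b', ‖q x a a' b b'‖ = 1 := by
    intro x a a' b b'
    rw [hq]
    simp only [norm_mul, RCLike.norm_conj, hz1, mul_one]
  set E : Fin t → Fin t → Fin t → Fin t → ℂ := fun a a' b b' =>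
    ∑ x ∈ bx (loB S t X) X, ((P x : ℝ) : ℂ) * q x a a' b b' with hE
  -- the left side as a complex number
  have hL : ((∑ x ∈ bx (loB S t X) X, C4 f W ψ i j x * P x : ℝ) : ℂ) =
      ∑ a : Fin t, ∑ a' : Fin t, ∑ b : Fin t, ∑ b' : Fin t, E a a' b b' := by
    rw [Complex.ofReal_sum]
    have h1 : ∀ x ∈ bx (loB S t X) X, ((C4 f W ψ i j x * P x : ℝ) : ℂ) =
        ∑ a : Fin t, ∑ a' : Fin t, ∑ b : Fin t, ∑ b' : Fin t,
          ((P x : ℝ) : ℂ) * q x a a' b b' := by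
      intro x _
      have h2 : ((C4 f W ψ i j x : ℝ) : ℂ) =
          ∑ a : Fin t, ∑ a' : Fin t, ∑ b : Fin t, ∑ b' : Fin t, q x a a' b b' :=
        c10_expand (z x)
      rw [Complex.ofReal_mul, h2, mul_comm]
      simp_rw [Finset.mul_sum]
    rw [Finset.sum_congr rfl h1, Finset.sum_comm]
    refine Finset.sum_congr rfl (fun a _ => ?_)
    rw [Finset.sum_comm]
    refine Finset.sum_congr rfl (fun a' _ => ?_)
    rw [Finset.sum_comm]
    refine Finset.sum_congr rfl (fun b _ => ?_)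
    rw [Finset.sum_comm]
  have hL0 : 0 ≤ ∑ x ∈ bx (loB S t X) X, C4 f W ψ i j x * P x := by
    refine Finset.sum_nonneg (fun x _ => mul_nonneg ?_ (hP0 x))
    unfold C4
    positivity
  have hL1 : ∑ x ∈ bx (loB S t X) X, C4 f W ψ i j x * P x ≤
      ∑ a : Fin t, ∑ a' : Fin t, ∑ b : Fin t, ∑ b' : Fin t, ‖E a a' b b'‖ := by
    have h1 : ∑ x ∈ bx (loB S t X) X, C4 f W ψ i j x * P x =
        ‖((∑ x ∈ bx (loB S t X) X, C4 f W ψ i j x * P x : ℝ) : ℂ)‖ := by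
      rw [Complex.norm_real, Real.norm_of_nonneg hL0]
    rw [h1, hL]
    refine (norm_sum_le _ _).trans (Finset.sum_le_sum fun a _ => ?_)
    refine (norm_sum_le _ _).trans (Finset.sum_le_sum fun a' _ => ?_)
    refine (norm_sum_le _ _).trans (Finset.sum_le_sum fun b _ => ?_)
    exact norm_sum_le _ _
  have hb1 : ∀ a a' b b', ‖E a a' b b'‖ ≤ n := by
    intro a a' b b'
    rw [← hmass]
    refine (norm_sum_le _ _).trans (Finset.sum_le_sum fun x _ => ?_)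
    rw [norm_mul, hq1, mul_one, Complex.norm_real, Real.norm_of_nonneg (hP0 x)]
  set R : Fin t → Fin t → Fin t → ℝ := fun a a' b =>
    ∑ α ∈ Ico (loB S t X (i, a)) (loB S t X (i, a) + X),
      ∑ α' ∈ Ico (loB S t X (i, a')) (loB S t X (i, a') + X),
        ‖Cv f W X T ψ (i, a) (i, a') (j, b) α α'‖ ^ 2 with hR
  have hR0 : ∀ a a' b, 0 ≤ R a a' b := by
    intro a a' b
    rw [hR]
    positivity
  have hb2 : ∀ a a' b b', a ≠ a' → b ≠ b' →
      ‖E a a' b b'‖ ≤ n / (X : ℝ) ^ 4 * ((R a a' b + R a a' b') / 2) := by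
    intro a a' b b' ha hb
    exact four_exp h ψ i j hij a a' b b' ha hb
  have hcomb := c10_comb n (n / (X : ℝ) ^ 4) hn0 (by positivity)
    (fun a a' b b' => ‖E a a' b b'‖) R hR0 hb1 hb2
    ((X : ℝ) ^ 4 * t ^ 2 * (32 / Kl ^ 2 + 2 * Kl * εc))
    (fun b => second_moment h hl ψ hψ i j hij b)
  refine hL1.trans (hcomb.trans (le_of_eq ?_))
  field_simp

end Pool.Agent.Lib.MP_fed790_nt.QP
end

section

/-!
# QP C10s: selection

**`selection`.** Let `Bad x = ∑_{p ∈ Pr} [f |e_p| ∉ H] + ∑_{p ≠ p''} ∑_g [∃ prime ℓ > y, ℓ ∣ T p'' g,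
ℓ ∣ e_p] + ∑_{p ≠ p'} [F2 event] + ∑_{i<j} ∑_ψ C4/(ε4 t⁴)`, the last sum over the characters `ψ`
not trivial on `H` (there are `card (AddChar G ℂ) = card G ≤ k` characters). By `E1`, `F1`, `F2`,
`E3`, `∑_x Bad x ∏ ww ≤ #bx * (sum of hnum) < #bx = ∑_x ∏ ww` (`mass`), so some `x ∈ bx` has
`∏ ww > 0` and `Bad x < 1`; all terms are `≥ 0`, so no event happens and `C4 < ε4 t⁴`.
Coprimality: a common prime factor `ℓ` of `e_p`, `e_{p'}` (`p ≠ p'`) is `> y` since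
`e_p ≡ 1 mod W` (`ee_cong`, `hWy`). If `ℓ ∣ T p'' g` for some `p'' ∈ Pr`, then `p'' ≠ p` or
`p'' ≠ p'`, and an event of the second kind happens for `(p, p'')` or `(p', p'')`; otherwise the `F2`
event happens.
-/

open Finset

namespace Pool.Agent.Lib.MP_fed790_nt.QP

variable {G : Type*} [AddCommGroup G] {f : ℕ → G} {H : AddSubgroup G} [Fintype H]
  {k y W S t L N' T0 X : ℕ} {δ δ0 εT ε10 ρ c1 : ℝ} {T : Ve S t × Ve S t → H → ℕ}

private theorem c10s_exists {Ω : Type*} (B : Finset Ω) (wt : Ω → ℝ) (hwt : ∀ x ∈ B, 0 ≤ wt x)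
    (hmass : ∑ x ∈ B, wt x = B.card) (hB : 0 < B.card) (A : Ω → ℝ) (c : ℝ)
    (hA : ∑ x ∈ B, A x * wt x ≤ B.card * c) (hc : c < 1) : ∃ x ∈ B, A x < 1 := by
  by_contra hcon
  push Not at hcon
  have h1 : ∑ x ∈ B, wt x ≤ ∑ x ∈ B, A x * wt x := by
    refine Finset.sum_le_sum fun x hx => ?_
    have h2 := mul_le_mul_of_nonneg_right (hcon x hx) (hwt x hx)
    linarith
  have h3 : (0 : ℝ) < B.card := by exact_mod_cast hB
  rw [hmass] at h1
  nlinarith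

private theorem c10s_sum {Ω ι : Type*} (B : Finset Ω) (wt : Ω → ℝ) (I : Finset ι)
    (F : ι → Ω → ℝ) (c M : ℝ) (hE : ∀ i ∈ I, ∑ x ∈ B, F i x * wt x ≤ B.card * c)
    (hM : (I.card : ℝ) ≤ M) (hc : 0 ≤ c) :
    ∑ x ∈ B, (∑ i ∈ I, F i x) * wt x ≤ B.card * (M * c) := by
  have h1 : ∑ x ∈ B, (∑ i ∈ I, F i x) * wt x = ∑ i ∈ I, ∑ x ∈ B, F i x * wt x := by
    rw [Finset.sum_comm]
    refine Finset.sum_congr rfl fun x _ => ?_
    rw [Finset.sum_mul]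
  rw [h1]
  refine (Finset.sum_le_sum hE).trans ?_
  rw [Finset.sum_const, nsmul_eq_mul]
  have h2 : (I.card : ℝ) * c ≤ M * c := mul_le_mul_of_nonneg_right hM hc
  have h3 : (0 : ℝ) ≤ B.card := Nat.cast_nonneg _
  calc (I.card : ℝ) * (B.card * c) = B.card * (I.card * c) := by ring
    _ ≤ B.card * (M * c) := mul_le_mul_of_nonneg_left h2 h3

private theorem c10s_lt_one {ι : Type*} (I : Finset ι) (F : ι → ℝ) (h0 : ∀ i ∈ I, 0 ≤ F i)
    (h1 : ∑ i ∈ I, F i < 1) (i : ι) (hi : i ∈ I) : F i < 1 :=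
  (Finset.single_le_sum h0 hi).trans_lt h1

private theorem c10s_C4_nonneg {S t : ℕ} (W : ℕ) (ψ : AddChar G ℂ) (i j : Fin S)
    (x : Ve S t → ℤ) : 0 ≤ C4 f W ψ i j x := by
  unfold C4
  exact Finset.sum_nonneg fun a _ => Finset.sum_nonneg fun a' _ => by positivity

theorem selection [Finite G] (h : HypIII f H k y W S t L N' T0 X δ δ0 εT ε10 ρ c1 T)
    {Kl Y Z' M w r nP : ℕ} {εc ε4 : ℝ} (hl : HypLoc W S t T0 X Kl Y Z' M w r δ δ0 εc)
    (hε4 : 0 < ε4) (hnP : (Pr S t).card ≤ nP)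
    (hnum : (nP : ℝ) * (ρ + 2 * T0 * c1 / X) + (nP : ℝ) ^ 2 * k * (εT + 2 * T0 * L / X) +
      (nP : ℝ) ^ 2 * (εT + 1 / y + 2 * T0 * L / X +
        L * (∏ p'' ∈ Pr S t, ∏ g, (T p'' g : ℝ)) / X) +
      (S : ℝ) ^ 2 * k * ((2 * (t : ℝ) ^ 3 + t ^ 4 * (32 / Kl ^ 2 + 2 * Kl * εc)) /
        (ε4 * t ^ 4)) < 1) :
    ∃ x ∈ bx (loB S t X) X, (∀ p ∈ Pr S t, f (ee W p x).natAbs ∈ H) ∧
      (∀ p ∈ Pr S t, ∀ p' ∈ Pr S t, p ≠ p' →
        (ee W p x).natAbs.Coprime (ee W p' x).natAbs) ∧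
      ∀ i j : Fin S, i < j → ∀ ψ : AddChar G ℂ, (∃ g ∈ H, ψ g ≠ 1) →
        C4 f W ψ i j x ≤ ε4 * t ^ 4 := by
  classical
  have := Fintype.ofFinite G
  set B := bx (loB S t X) X with hBdef
  set wt : (Ve S t → ℤ) → ℝ := fun x => ∏ p ∈ Pr S t, ww T (kB W T) p x with hwtdef
  have hX0 : 0 < X := h.hX0
  have hXr : (0 : ℝ) < X := by exact_mod_cast hX0
  have hBpos : 0 < B.card := by
    rw [Finset.card_pos]
    refine ⟨fun u => loB S t X u, ?_⟩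
    rw [hBdef]
    unfold bx
    rw [Fintype.mem_piFinset]
    intro u
    rw [Finset.mem_Ico]
    constructor
    · exact le_rfl
    · have : (0 : ℤ) < X := by exact_mod_cast hX0
      linarith
  have hwt : ∀ x ∈ B, 0 ≤ wt x := fun x _ =>
    Finset.prod_nonneg fun p _ => ww_nonneg T (kB W T) p x
  have hmass : ∑ x ∈ B, wt x = B.card := mass h
  have ht0 : (0 : ℝ) < t := by exact_mod_cast h.ht
  have hnP' : ((Pr S t).card : ℝ) ≤ nP := by exact_mod_cast hnP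
  have hnP0 : (0 : ℝ) ≤ nP := Nat.cast_nonneg _
  have hkH : (Fintype.card H : ℝ) ≤ k := by
    have h1 : Nat.card H ≤ Nat.card G := Nat.card_le_card_of_injective _ Subtype.val_injective
    have h2 : Fintype.card H ≤ k := by
      rw [← Nat.card_eq_fintype_card]
      exact h1.trans h.hG
    exact_mod_cast h2
  have hkC : (Fintype.card (AddChar G ℂ) : ℝ) ≤ k := by
    have h1 : Fintype.card (AddChar G ℂ) = Fintype.card G := AddChar.card_eq
    have h2 : Fintype.card (AddChar G ℂ) ≤ k := by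
      rw [h1, ← Nat.card_eq_fintype_card]
      exact h.hG
    exact_mod_cast h2
  have hk0 : (0 : ℝ) ≤ k := Nat.cast_nonneg _
  have hεT := h.hεT
  have hρ := h.hρ
  have hc1 := h.hc1
  have hδ := h.hδ
  have hδ0 := h.hδ0
  have hεc : 0 ≤ εc := by
    refine le_trans ?_ hl.hεc
    positivity
  -- the four families of events
  set F1' : (Ve S t × Ve S t) → (Ve S t → ℤ) → ℝ := fun p x =>
    if f (ee W p x).natAbs ∉ H then (1 : ℝ) else 0 with hF1'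
  set F2' : ((Ve S t × Ve S t) × (Ve S t × Ve S t)) × H → (Ve S t → ℤ) → ℝ := fun q x =>
    if ∃ ℓ : ℕ, ℓ.Prime ∧ y < ℓ ∧ ℓ ∣ T q.1.2 q.2 ∧ ℓ ∣ (ee W q.1.1 x).natAbs
      then (1 : ℝ) else 0 with hF2'
  set F3' : ((Ve S t × Ve S t) × (Ve S t × Ve S t)) → (Ve S t → ℤ) → ℝ := fun q x =>
    if ∃ ℓ : ℕ, ℓ.Prime ∧ y < ℓ ∧ (∀ p'' ∈ Pr S t, ∀ g, ¬ ℓ ∣ T p'' g) ∧
        ℓ ∣ (ee W q.1 x).natAbs ∧ ℓ ∣ (ee W q.2 x).natAbs then (1 : ℝ) else 0 with hF3'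
  set F4' : (Fin S × Fin S) × AddChar G ℂ → (Ve S t → ℤ) → ℝ := fun q x =>
    C4 f W q.2 q.1.1 q.1.2 x / (ε4 * t ^ 4) with hF4'
  set I2 : Finset (((Ve S t × Ve S t) × (Ve S t × Ve S t)) × H) :=
    ((Pr S t ×ˢ Pr S t).filter (fun q => q.1 ≠ q.2)) ×ˢ univ with hI2
  set I3 : Finset ((Ve S t × Ve S t) × (Ve S t × Ve S t)) :=
    (Pr S t ×ˢ Pr S t).filter (fun q => q.1 ≠ q.2) with hI3
  set I4 : Finset ((Fin S × Fin S) × AddChar G ℂ) :=
    univ.filter (fun q => q.1.1 < q.1.2 ∧ ∃ g ∈ H, q.2 g ≠ 1) with hI4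
  have hI3c : (I3.card : ℝ) ≤ (nP : ℝ) ^ 2 := by
    have h1 : I3.card ≤ (Pr S t).card * (Pr S t).card := by
      rw [← Finset.card_product]
      exact Finset.card_filter_le _ _
    have h2 : (I3.card : ℝ) ≤ (Pr S t).card * (Pr S t).card := by exact_mod_cast h1
    have h3 : ((Pr S t).card : ℝ) * (Pr S t).card ≤ nP * nP :=
      mul_le_mul hnP' hnP' (Nat.cast_nonneg _) hnP0
    nlinarith
  have hI2c : (I2.card : ℝ) ≤ (nP : ℝ) ^ 2 * k := by
    have h1 : I2.card = I3.card * Fintype.card H := by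
      rw [hI2, Finset.card_product, Finset.card_univ]
    rw [h1]
    push_cast
    exact mul_le_mul hI3c hkH (Nat.cast_nonneg _) (by positivity)
  have hI4c : (I4.card : ℝ) ≤ (S : ℝ) ^ 2 * k := by
    have h1 : I4.card ≤ Fintype.card ((Fin S × Fin S) × AddChar G ℂ) := by
      rw [← Finset.card_univ]
      exact Finset.card_filter_le _ _
    have h2 : Fintype.card ((Fin S × Fin S) × AddChar G ℂ) =
        S * S * Fintype.card (AddChar G ℂ) := by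
      rw [Fintype.card_prod, Fintype.card_prod, Fintype.card_fin]
    rw [h2] at h1
    have h3 : (I4.card : ℝ) ≤ S * S * Fintype.card (AddChar G ℂ) := by exact_mod_cast h1
    have h4 : (S : ℝ) * S * Fintype.card (AddChar G ℂ) ≤ S * S * k :=
      mul_le_mul_of_nonneg_left hkC (by positivity)
    nlinarith
  have b1 := c10s_sum B wt (Pr S t) F1' (ρ + 2 * T0 * c1 / X) nP
    (fun p hp => E1 h hp) hnP' (by positivity)
  have b2 := c10s_sum B wt I2 F2' (εT + 2 * T0 * L / X) ((nP : ℝ) ^ 2 * k)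
    (fun q hq => by
      rw [hI2, Finset.mem_product, Finset.mem_filter, Finset.mem_product] at hq
      exact F1 h hq.1.1.1 hq.1.1.2 hq.1.2 q.2) hI2c (by positivity)
  have b3 := c10s_sum B wt I3 F3' (εT + 1 / y + 2 * T0 * L / X +
        L * (∏ p'' ∈ Pr S t, ∏ g, (T p'' g : ℝ)) / X) ((nP : ℝ) ^ 2)
    (fun q hq => by
      rw [hI3, Finset.mem_filter, Finset.mem_product] at hq
      exact F2 h hq.1.1 hq.1.2 hq.2) hI3c (by positivity)
  have b4 := c10s_sum B wt I4 F4' ((2 * (t : ℝ) ^ 3 + t ^ 4 * (32 / Kl ^ 2 + 2 * Kl * εc)) /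
        (ε4 * t ^ 4)) ((S : ℝ) ^ 2 * k)
    (fun q hq => by
      rw [hI4, Finset.mem_filter] at hq
      have h1 := E3 h hl q.2 hq.2.2 q.1.1 q.1.2 hq.2.1
      have h2 : ∑ x ∈ B, F4' q x * wt x =
          (∑ x ∈ bx (loB S t X) X, C4 f W q.2 q.1.1 q.1.2 x *
            ∏ p ∈ Pr S t, ww T (kB W T) p x) / (ε4 * t ^ 4) := by
        rw [Finset.sum_div]
        refine Finset.sum_congr rfl fun x _ => ?_
        simp only [hF4', hwtdef]
        ring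
      rw [h2, ← mul_div_assoc]
      exact div_le_div_of_nonneg_right h1 (by positivity)) hI4c (by positivity)
  obtain ⟨x, hx, hx1⟩ := c10s_exists B wt hwt hmass hBpos
    (fun x => ∑ p ∈ Pr S t, F1' p x + ∑ q ∈ I2, F2' q x + ∑ q ∈ I3, F3' q x + ∑ q ∈ I4, F4' q x)
    _ (by
      have h1 : ∑ x ∈ B, (∑ p ∈ Pr S t, F1' p x + ∑ q ∈ I2, F2' q x + ∑ q ∈ I3, F3' q x +
          ∑ q ∈ I4, F4' q x) * wt x = ∑ x ∈ B, (∑ p ∈ Pr S t, F1' p x) * wt x +
          ∑ x ∈ B, (∑ q ∈ I2, F2' q x) * wt x + ∑ x ∈ B, (∑ q ∈ I3, F3' q x) * wt x +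
          ∑ x ∈ B, (∑ q ∈ I4, F4' q x) * wt x := by
        rw [← Finset.sum_add_distrib, ← Finset.sum_add_distrib, ← Finset.sum_add_distrib]
        refine Finset.sum_congr rfl fun x _ => ?_
        ring
      rw [h1]
      refine (add_le_add (add_le_add (add_le_add b1 b2) b3) b4).trans (le_of_eq ?_)
      ring) hnum
  have n1 : ∀ p ∈ Pr S t, 0 ≤ F1' p x := fun p _ => by
    simp only [hF1']
    split_ifs <;> norm_num
  have n2 : ∀ q ∈ I2, 0 ≤ F2' q x := fun q _ => by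
    simp only [hF2']
    split_ifs <;> norm_num
  have n3 : ∀ q ∈ I3, 0 ≤ F3' q x := fun q _ => by
    simp only [hF3']
    split_ifs <;> norm_num
  have n4 : ∀ q ∈ I4, 0 ≤ F4' q x := fun q _ =>
    div_nonneg (c10s_C4_nonneg W q.2 q.1.1 q.1.2 x) (by positivity)
  have s1 := Finset.sum_nonneg n1
  have s2 := Finset.sum_nonneg n2
  have s3 := Finset.sum_nonneg n3
  have s4 := Finset.sum_nonneg n4
  have hx1' : ∑ p ∈ Pr S t, F1' p x + ∑ q ∈ I2, F2' q x + ∑ q ∈ I3, F3' q x +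
    ∑ q ∈ I4, F4' q x < 1 := hx1
  have l1 := c10s_lt_one (Pr S t) (fun p => F1' p x) n1 (by linarith)
  have l2 := c10s_lt_one I2 (fun q => F2' q x) n2 (by linarith)
  have l3 := c10s_lt_one I3 (fun q => F3' q x) n3 (by linarith)
  have l4 := c10s_lt_one I4 (fun q => F4' q x) n4 (by linarith)
  refine ⟨x, hx, ?_, ?_, ?_⟩
  · intro p hp
    by_contra hcon
    have h1 := l1 p hp
    simp only [hF1'] at h1
    rw [if_pos hcon] at h1
    exact lt_irrefl _ h1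
  · intro p hp p' hp' hne
    by_contra hcon
    obtain ⟨ℓ, hℓ, hd, hd'⟩ := Nat.Prime.not_coprime_iff_dvd.1 hcon
    have hyℓ : y < ℓ := by
      by_contra hle
      have hW : ℓ ∣ W := (h.hWy ℓ hℓ).2 (by omega)
      have h1 : (ℓ : ℤ) ∣ ee W p x - 1 := (Int.natCast_dvd_natCast.2 hW).trans (ee_cong hp x)
      have h2 : (ℓ : ℤ) ∣ ee W p x := Int.natCast_dvd.2 hd
      have h3 : (ℓ : ℤ) ∣ 1 := by
        have := dvd_sub h2 h1
        simpa using this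
      have h4 : ℓ ∣ 1 := by exact_mod_cast h3
      exact hℓ.one_lt.ne' (Nat.dvd_one.1 h4)
    by_cases hT : ∃ p'' ∈ Pr S t, ∃ g, ℓ ∣ T p'' g
    · obtain ⟨p'', hp'', g, hg⟩ := hT
      by_cases hpp : p = p''
      · have hpp' : p' ≠ p'' := fun h5 => hne (hpp.trans h5.symm)
        have hmem : (((p', p''), g) : ((Ve S t × Ve S t) × (Ve S t × Ve S t)) × H) ∈ I2 := by
          rw [hI2, Finset.mem_product, Finset.mem_filter, Finset.mem_product]
          exact ⟨⟨⟨hp', hp''⟩, hpp'⟩, Finset.mem_univ _⟩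
        have h1 := l2 _ hmem
        simp only [hF2'] at h1
        rw [if_pos ⟨ℓ, hℓ, hyℓ, hg, hd'⟩] at h1
        exact lt_irrefl _ h1
      · have hmem : (((p, p''), g) : ((Ve S t × Ve S t) × (Ve S t × Ve S t)) × H) ∈ I2 := by
          rw [hI2, Finset.mem_product, Finset.mem_filter, Finset.mem_product]
          exact ⟨⟨⟨hp, hp''⟩, hpp⟩, Finset.mem_univ _⟩
        have h1 := l2 _ hmem
        simp only [hF2'] at h1
        rw [if_pos ⟨ℓ, hℓ, hyℓ, hg, hd⟩] at h1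
        exact lt_irrefl _ h1
    · push Not at hT
      have hmem : ((p, p') : (Ve S t × Ve S t) × (Ve S t × Ve S t)) ∈ I3 := by
        rw [hI3, Finset.mem_filter, Finset.mem_product]
        exact ⟨⟨hp, hp'⟩, hne⟩
      have h1 := l3 _ hmem
      simp only [hF3'] at h1
      rw [if_pos ⟨ℓ, hℓ, hyℓ, hT, hd, hd'⟩] at h1
      exact lt_irrefl _ h1
  · intro i j hij ψ hψ
    have hmem : (((i, j), ψ) : (Fin S × Fin S) × AddChar G ℂ) ∈ I4 := by
      rw [hI4, Finset.mem_filter]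
      exact ⟨Finset.mem_univ _, hij, hψ⟩
    have h1 := l4 _ hmem
    simp only [hF4'] at h1
    rw [div_lt_one (by positivity)] at h1
    exact h1.le

end Pool.Agent.Lib.MP_fed790_nt.QP
end

section

/-!
# QP E: the main theorem
-/

open Finset

namespace Pool.Agent.Lib.MP_fed790_nt.QP

section main

variable {G : Type*} [AddCommGroup G] [Finite G]

/-- The group of the colours available at the stage `r`. -/
noncomputable def HN (f : ℕ → G) (k r : ℕ) : AddSubgroup G :=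
  AddSubgroup.closure {γ | Avail f (yN k) (WN k) (ΛN k) (LN k) (εgN k) (ε8N k) (NN k r) γ}

theorem NN_mono (k : ℕ) (hk : 2 ≤ k) : Monotone (NN k) := by
  intro r s hrs
  unfold NN lN
  refine Nat.pow_le_pow_right (by norm_num) (Nat.pow_le_pow_right ?_ (by omega))
  have := aN_ge hk
  omega

theorem HN_mono (f : ℕ → G) (k : ℕ) (hk : 2 ≤ k) : Monotone (HN f k) := by
  intro r s hrs
  unfold HN
  refine AddSubgroup.closure_mono ?_
  intro γ hγ
  exact avail_mono (NN_mono k hk hrs) hγ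

/-- Lemma Z at the stage `r`. -/
theorem hZN (k r : ℕ) (hk : 2 ≤ k) (hr : r ≤ om k) (m D : ℕ) (h1 : ΛN k ≤ m) (h2 : m ≤ NN k r)
    (h3 : m ≡ 1 [MOD WN k]) (hD : 0 < D) (hDL : D < 2 ^ LN k) (hsD : sg (yN k) D ≤ ε8N k) :
    ∃ x : ℕ, 0 < x ∧ x ^ k ≡ m [MOD WN k ^ (2 * SN k + 3)] ∧ |(x : ℝ) ^ k - m| ≤ ηN k * m ∧
        sg (yN k) x ≤ εgN k ∧ x.Coprime D := by
  have hW := WN_ge k hk
  have ha := aN_ge hk
  have hroot := root_mod k (RN k) (WN k) (WN k ^ (2 * SN k + 3))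
    (k * tN k * (2 * SN k + 3)) m (by omega) (RN_pos k) (WN_sq k hk)
    (by unfold WN; rw [← pow_mul]) h3
  refine lemmaZ k (yN k) (WN k ^ (2 * SN k + 3)) D (LN k) (Z1N k) m (bN k) (ηN k) (εgN k)
    (ε8N k) (by omega) (pos_yN hk) ?_ (by positivity) hroot (pos_ηN hk) ?_
    (pos_εgN hk) hD hDL hsD ?_ ?_ (by rw [← ΛN_eq]; exact h1) (lemmaZ_num2 k hk)
  · intro ℓ hℓ hy
    exact dvd_pow ((WN_prime k hk ℓ hℓ).mpr hy) (by omega)
  · unfold ηN
    rw [div_le_one (by positivity)]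
    exact one_le_pow₀ (by exact_mod_cast (by omega : 1 ≤ aN k))
  · exact lt_of_le_of_lt (Nat.mul_le_mul_left 2 h2) (two_NN_lt k r hk hr)
  · exact_mod_cast lemmaZ_num k hk

/-- The colour `0` is available. -/
theorem h0N {f : ℕ → G} (hf : CAdd f) (k r : ℕ) (hk : 2 ≤ k) (hkG : ∀ g : G, k • g = 0)
    (hr : r ≤ om k) :
    Avail f (yN k) (WN k) (ΛN k) (LN k) (εgN k) (ε8N k) (NN k r) 0 := by
  intro D hD hDL hsD
  have hz := zero_num k r hk
  have hW := WN_ge k hk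
  have hΛ := pos_ΛN k
  set m := 1 + WN k * (2 * ΛN k) with hm
  have hm1 : 2 * ΛN k ≤ m := by nlinarith
  have hm2 : m ≡ 1 [MOD WN k] := by
    rw [hm]
    have : 1 + WN k * (2 * ΛN k) ≡ 1 + 0 [MOD WN k] :=
      Nat.ModEq.add_left 1 ((Nat.modEq_zero_iff_dvd).mpr (Dvd.intro _ rfl))
    simpa using this
  obtain ⟨x, hx0, hx1, hx2, hx3, hx4⟩ := hZN k r hk hr m D (by omega) (by omega) hm2 hD hDL hsD
  have hη : ηN k ≤ 1 / 2 := by
    unfold ηN
    have ha := aN_ge hk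
    have h2 : (2 : ℝ) ≤ (aN k : ℝ) ^ 903 := by
      calc (2 : ℝ) ≤ (aN k : ℝ) := by exact_mod_cast (by omega : 2 ≤ aN k)
        _ = (aN k : ℝ) ^ 1 := by ring
        _ ≤ (aN k : ℝ) ^ 903 := pow_le_pow_right₀ (by exact_mod_cast (by omega : 1 ≤ aN k))
            (by norm_num)
    exact one_div_le_one_div_of_le (by norm_num) h2
  rw [abs_le] at hx2
  have hmR : (2 : ℝ) * ΛN k ≤ m := by exact_mod_cast hm1
  have hzR : (2 : ℝ) * m ≤ NN k r := by exact_mod_cast hz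
  have hmpos : (0 : ℝ) ≤ m := by positivity
  refine ⟨x ^ k, ?_, ?_, ?_, ?_, ?_, ?_⟩
  · have : (ΛN k : ℝ) ≤ (x : ℝ) ^ k := by nlinarith
    exact_mod_cast this
  · have : (x : ℝ) ^ k ≤ NN k r := by nlinarith
    exact_mod_cast this
  · have h5 : x ^ k ≡ m [MOD WN k] := hx1.of_dvd (dvd_pow_self _ (by omega))
    exact h5.trans hm2
  · rw [sg_pow _ _ _ (by omega)]; exact hx3
  · exact Nat.Coprime.pow_left k hx4
  · rw [cadd_pow hf _ _ hx0, hkG]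

/-- **Main theorem.** -/
theorem main_alg (k : ℕ) (hk : 2 ≤ k) (hG : Nat.card G ∣ k) (f : ℕ → G) (hf : CAdd f) :
    ∃ n : ℕ, 0 < n ∧ n < 2 ^ ((2 * k) ^ (1320 * (ArithmeticFunction.cardFactors k + 1))) ∧
      f n = 0 ∧ f (n + 1) = 0 := by
  classical
  have hk0 : 0 < k := by omega
  have hGk : Nat.card G ≤ k := Nat.le_of_dvd hk0 hG
  have hkG : ∀ g : G, k • g = 0 := by
    intro g
    obtain ⟨c, hc⟩ := hG
    rw [hc, mul_comm, mul_nsmul, card_nsmul_eq_zero']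
    
  obtain ⟨r, hr, hHr⟩ := chain k hk0 hG (HN f k) (HN_mono f k hk)
  have hr' : r ≤ om k := by rw [om_eq]; exact hr
  set H := HN f k r with hH
  have hW := WN_ge k hk
  have hWp := WN_prime k hk
  have hrare : RareAP f H (WN k) (ρN k) (c1N k) (NN k (r + 1)) := by
    rw [hHr, ρN_eq, c1N_eq]
    exact rareAP_of_closure (pos_yN hk) hW (fun ℓ hℓ h => (hWp ℓ hℓ).mpr h) (pos_εgN hk)
      (pos_ε8N hk).le (NN_lt k (r + 1) hk (by omega)) k hGk
  obtain ⟨hs1, hs2, hs3, hs4, hs5⟩ := small_num k hk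
  have hT0N : 1 ≤ T0N k r := pos_T0N k r
  have ht : 1 ≤ tN k := pos_tN hk
  have hI : HypI f H k (yN k) (WN k) (SN k) (tN k) (LN k) (ΛN k) (NN k r) (NN k (r + 1))
      (Z2N k) (T0N k r) (nPN k) (εgN k) (ε8N k) (ε10N k) (ηN k) (δN k) (δ0N k) (ρN k)
      (c1N k) :=
    { hf := hf
      hk := by omega
      hG := hGk
      hkG := hkG
      hy := pos_yN hk
      hW2 := hW
      hWy := hWp
      htW := tN_le k hk
      ht := ht
      hS := by unfold SN; omega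
      hΛ := pos_ΛN k
      hH := rfl
      h0 := h0N hf k r hk hkG hr'
      hZ := fun m D h1 h2 h3 h4 h5 h6 => hZN k r hk hr' m D h1 h2 h3 h4 h5 h6
      hrare := hrare
      hεg := pos_εgN hk
      hε10 := pos_ε10N hk
      hη := (pos_ηN hk).le
      hη1 := hs1
      hηδ := hs2
      hδ := hs3
      hδ0 := hs4
      hT1 := hT0N
      hT0 := hT0_num k r hk
      hTL := hTL_num k r hk hr'
      hTN := hTN_num k r hk
      hsD := by have := hsD_num k hk; rwa [εTN_eq] at this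
      hnum := hnumI k hk }
  obtain ⟨T, hT⟩ := pool_exists hI (fun p : Ve (SN k) (tN k) × Ve (SN k) (tN k) => (p.1.2 : ℕ))
    (fun p => p.1.2.2) (Pr (SN k) (tN k)) (card_Pr_le k hk)
  have : Fintype H := Fintype.ofFinite H
  set Pa : ℕ := ∏ p ∈ Pr (SN k) (tN k), ∏ h, T p h with hPa
  have haN := aN_ge hk
  have ha0 : 0 < aN k := by omega
  have hW0 : 0 < WN k := by omega
  have hr0 : 0 < rN k := pos_rN hk
  have hK0 : 0 < KN k := pos_KN hk
  have hS0 : 2 ≤ SN k := by unfold SN; omega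
  have hδ0pos : 0 < δ0N k := pos_δ0N hk
  -- elementary bounds for the moduli
  have hTge : ∀ p ∈ Pr (SN k) (tN k), ∀ h, T0N k r ≤ T p h := by
    intro p hp h
    have h1 := hT.lo p hp h
    have h2 : (T0N k r : ℝ) ≤ T0N k r * (1 + δ0N k * (((p.1.2 : ℕ) : ℝ) / (tN k : ℝ))) := by
      have : 0 ≤ δ0N k * (((p.1.2 : ℕ) : ℝ) / (tN k : ℝ)) := by positivity
      nlinarith [(by positivity : (0 : ℝ) ≤ T0N k r)]
    exact_mod_cast h2.trans h1
  have hTle : ∀ p ∈ Pr (SN k) (tN k), ∀ h, T p h ≤ 2 * T0N k r := by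
    intro p hp h
    have h1 := hT.hi p hp h
    have h2 : (((p.1.2 : ℕ) : ℝ) + 1 / 2) / (tN k : ℝ) ≤ 1 := by
      rw [div_le_one (by exact_mod_cast ht)]
      have : ((p.1.2 : ℕ) : ℝ) + 1 ≤ (tN k : ℝ) := by exact_mod_cast p.1.2.2
      linarith
    have h3 : (T0N k r : ℝ) * (1 + δ0N k * ((((p.1.2 : ℕ) : ℝ) + 1 / 2) / (tN k : ℝ))) ≤
        2 * T0N k r := by
      have h4 : δ0N k * ((((p.1.2 : ℕ) : ℝ) + 1 / 2) / (tN k : ℝ)) ≤ 1 := by
        calc δ0N k * ((((p.1.2 : ℕ) : ℝ) + 1 / 2) / (tN k : ℝ)) ≤ (1 / 8) * 1 :=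
              mul_le_mul hs4 h2 (by positivity) (by norm_num)
          _ ≤ 1 := by norm_num
      nlinarith [(by positivity : (0 : ℝ) ≤ T0N k r)]
    exact_mod_cast h1.trans h3
  have hcardH : Fintype.card H ≤ k := by
    rw [← Nat.card_eq_fintype_card]
    exact (Nat.card_le_card_of_injective _ (Subtype.val_injective)).trans hGk
  have hPale : Pa ≤ (2 * T0N k r) ^ (nPN k * k) := by
    rw [hPa]
    calc ∏ p ∈ Pr (SN k) (tN k), ∏ h, T p h
        ≤ ∏ p ∈ Pr (SN k) (tN k), ∏ _h : H, (2 * T0N k r) :=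
          Finset.prod_le_prod' fun p hp => Finset.prod_le_prod' fun h _ => hTle p hp h
      _ = (2 * T0N k r) ^ (Fintype.card H * (Pr (SN k) (tN k)).card) := by
          rw [Finset.prod_const, Finset.prod_const, ← pow_mul, Finset.card_univ]
      _ ≤ (2 * T0N k r) ^ (nPN k * k) := by
          refine Nat.pow_le_pow_right (by omega) ?_
          rw [mul_comm (nPN k)]
          exact Nat.mul_le_mul hcardH (card_Pr_le k hk)
  have hPage : T0N k r ≤ Pa := by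
    have h0S : 0 < SN k := by omega
    have h1S : 1 < SN k := by omega
    have h0t : 0 < tN k := by omega
    set p0 : Ve (SN k) (tN k) × Ve (SN k) (tN k) :=
      ((⟨0, h0S⟩, ⟨0, h0t⟩), (⟨1, h1S⟩, ⟨0, h0t⟩)) with hp0
    have hp0P : p0 ∈ Pr (SN k) (tN k) := by
      unfold Pr
      rw [Finset.mem_filter]
      exact ⟨Finset.mem_univ _, by rw [hp0]; simp [Fin.lt_def]⟩
    have h1 : ∀ p ∈ Pr (SN k) (tN k), ∀ h, 1 ≤ T p h := fun p hp h => hT0N.trans (hTge p hp h)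
    calc T0N k r ≤ T p0 0 := hTge p0 hp0P 0
      _ ≤ ∏ h, T p0 h := Finset.single_le_prod' (f := fun h => T p0 h)
          (fun h _ => h1 p0 hp0P h) (Finset.mem_univ 0)
      _ ≤ Pa := Finset.single_le_prod' (f := fun p => ∏ h, T p h)
          (fun p hp => Finset.one_le_prod' fun h _ => h1 p hp h) hp0P
  have hPa0 : 0 < Pa := by omega
  have hT00 : 0 < T0N k r := by omega
  have hX0 : 0 < XxN k r Pa := by
    unfold XxN YyN ZzN; positivity
  have hXN := XN_num k r Pa hk hPale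
  have hIII : HypIII f H k (yN k) (WN k) (SN k) (tN k) (LN k) (NN k (r + 1)) (T0N k r)
      (XxN k r Pa) (δN k) (δ0N k) (εTN k) (ε10N k) (ρN k) (c1N k) T :=
    { hf := hf
      hG := hGk
      hy := pos_yN hk
      hW := hW
      hWy := hWp
      hWt := WN_pow k hk
      ht := ht
      hrare := hrare
      hρ := by
        unfold ρN
        have := pos_εgN hk
        have := pos_ε8N hk
        positivity
      hc1 := by
        unfold c1N
        have := pos_εgN hk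
        positivity
      hεT := by
        unfold εTN
        have := pos_εgN hk
        positivity
      hpool := by rw [εTN_eq]; exact hT
      hT0 := hT0N
      hδ := (pos_δN hk).le
      hδ0 := hδ0pos
      hδ0' := hs4
      hX0 := hX0
      hX := by
        refine ⟨KN k * (KN k * (rN k * WN k ^ (SN k + 1) * T0N k r ^ 2)), ?_⟩
        unfold XxN YyN ZzN
        rw [hPa]
        ring
      hTX := by
        unfold XxN YyN ZzN
        have h2 : 2 ≤ KN k := by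
          unfold KN
          calc 2 ≤ aN k := by omega
            _ = aN k ^ 1 := (pow_one _).symm
            _ ≤ aN k ^ 12 := Nat.pow_le_pow_right ha0 (by norm_num)
        have h3 : 1 ≤ KN k * (rN k * WN k ^ (SN k + 1) * T0N k r * Pa) :=
          Nat.one_le_iff_ne_zero.mpr (by positivity)
        calc 2 * T0N k r = 2 * T0N k r * 1 := by ring
          _ ≤ KN k * T0N k r * (KN k * (rN k * WN k ^ (SN k + 1) * T0N k r * Pa)) :=
              Nat.mul_le_mul (Nat.mul_le_mul_right _ h2) h3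
          _ = KN k * (KN k * (rN k * WN k ^ (SN k + 1) * T0N k r ^ 2 * Pa)) := by ring
      hXN := hXN
      hXL := lt_of_le_of_lt hXN (NN_lt k (r + 1) hk (by omega)) }
  have hloc : HypLoc (WN k) (SN k) (tN k) (T0N k r) (XxN k r Pa) (KN k) (YyN k r Pa)
      (ZzN k r Pa) (MmN k r Pa) (wwN k r Pa) (rN k) (δN k) (δ0N k) (εcN k) :=
    { hXY := rfl
      hYZ := rfl
      hYM := by unfold YyN ZzN MmN wwN; ring
      hM := rfl
      hKl := hK0
      hZ' := by unfold ZzN; positivity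
      hw := by unfold wwN; positivity
      hr := hr0
      hq := by
        unfold wwN
        exact ⟨KN k * T0N k r * Pa, by ring⟩
      hTM := by
        unfold MmN wwN
        exact ⟨rN k * (KN k * WN k ^ (SN k + 1) * Pa), by ring⟩
      hTZ := by
        unfold ZzN
        exact ⟨rN k * WN k ^ (SN k + 1) * T0N k r * Pa, by ring⟩
      hZT := by
        unfold ZzN
        have h4 : 4 ≤ rN k := by
          unfold rN
          calc 4 ≤ aN k := haN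
            _ = aN k ^ 1 := (pow_one _).symm
            _ ≤ aN k ^ 430 := Nat.pow_le_pow_right ha0 (by norm_num)
        have h3 : 1 ≤ WN k ^ (SN k + 1) * Pa := Nat.one_le_iff_ne_zero.mpr (by positivity)
        calc 4 * T0N k r ^ 2 = 4 * T0N k r ^ 2 * 1 := by ring
          _ ≤ rN k * T0N k r ^ 2 * (WN k ^ (SN k + 1) * Pa) :=
              Nat.mul_le_mul (Nat.mul_le_mul_right _ h4) h3
          _ = rN k * WN k ^ (SN k + 1) * T0N k r ^ 2 * Pa := by ring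
      hMt := hMt_num k r Pa hk hPage
      hrt := hrt_num k hk
      hδK := hδK_num k r Pa hk hPage
      hεc := hεc_num k r Pa hk hPage }
  have hε4pos : 0 < ε4N k := pos_ε4N hk
  have hsel := sel_num k r Pa hk hPage
  rw [hPa] at hsel
  push_cast at hsel
  obtain ⟨x, hxb, hx1, hx2, hx3⟩ := selection hIII hloc hε4pos (card_Pr_le k hk) (by
    rw [hPa] at *
    push_cast
    exact hsel)
  have hx0 : ∀ u, 0 ≤ x u := by
    intro u
    unfold bx at hxb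
    rw [Fintype.mem_piFinset] at hxb
    have h1 := (Finset.mem_Ico.mp (hxb u)).1
    refine le_trans ?_ h1
    unfold loB
    positivity
  have hxpos : ∀ p ∈ Pr (SN k) (tN k), 0 < ee (WN k) p x := fun p hp =>
    ee_pos hX0 (by omega) hp hxb
  have hxle : ∀ p ∈ Pr (SN k) (tN k), (ee (WN k) p x).natAbs ≤
      WN k ^ SN k * (3 * SN k * XxN k r Pa) := by
    intro p hp
    have h1 := ee_le hX0 (by omega) hp hxb (W := WN k)
    have h2 := hxpos p hp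
    zify
    rw [abs_of_pos h2]
    exact_mod_cast h1
  obtain ⟨n, hn0, hn1, hn2, hn3⟩ := partIV (S := SN k) (Z := Z2N k) hf hGk hk0 (SN_eq k) ht hW (by
      unfold WN
      rw [mul_comm, pow_mul, cadd_pow hf _ _ (by have := RN_pos k; positivity), hkG])
    hrare x hx0 hxpos hx1 hx2 hs5 hx3 (pos_Z2N k) (IV_num k hk) (by
      intro u
      have h1 := IV_num2 k r Pa hk hPale
      have hu : x u ≤ 3 * SN k * XxN k r Pa := by
        unfold bx at hxb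
        rw [Fintype.mem_piFinset] at hxb
        have h1 := (Finset.mem_Ico.mp (hxb u)).2
        have h2 : ((u.1 : ℕ) : ℤ) + 1 ≤ SN k := by exact_mod_cast u.1.2
        have h3 : (0 : ℤ) < XxN k r Pa := by exact_mod_cast hX0
        unfold loB at h1
        nlinarith
      have h2 : aV (WN k) x u ≤ WN k ^ SN k + WN k ^ SN k * (3 * SN k * XxN k r Pa) := by
        unfold aV
        have h3 : ((WN k : ℕ) : ℤ) ^ (SN k - 1 - (u.1 : ℕ)) ≤ (WN k : ℤ) ^ SN k :=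
          pow_le_pow_right₀ (by exact_mod_cast (by omega : 1 ≤ WN k)) (by omega)
        have h4 : ((WN k : ℕ) : ℤ) ^ SN k * x u ≤
            (WN k : ℤ) ^ SN k * (3 * SN k * XxN k r Pa) :=
          mul_le_mul_of_nonneg_left hu (by positivity)
        linarith
      have h3 : ∏ p ∈ Pr (SN k) (tN k), (ee (WN k) p x).natAbs ≤
          (WN k ^ SN k * (3 * SN k * XxN k r Pa)) ^ nPN k := by
        calc ∏ p ∈ Pr (SN k) (tN k), (ee (WN k) p x).natAbs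
            ≤ ∏ _p ∈ Pr (SN k) (tN k), (WN k ^ SN k * (3 * SN k * XxN k r Pa)) :=
              Finset.prod_le_prod' fun p hp => hxle p hp
          _ = (WN k ^ SN k * (3 * SN k * XxN k r Pa)) ^ (Pr (SN k) (tN k)).card := by
              rw [Finset.prod_const]
          _ ≤ _ := Nat.pow_le_pow_right (Nat.one_le_iff_ne_zero.mpr (by positivity))
              (card_Pr_le k hk)
      have h4 : ((WN k ^ SN k * ∏ p ∈ Pr (SN k) (tN k), (ee (WN k) p x).natAbs : ℕ) : ℤ) *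
          (Z2N k + 1) ≤ ((WN k ^ SN k * (WN k ^ SN k * (3 * SN k * XxN k r Pa)) ^ nPN k *
            (Z2N k + 1) : ℕ) : ℤ) := by
        push_cast
        have h5 : ((∏ p ∈ Pr (SN k) (tN k), (ee (WN k) p x).natAbs : ℕ) : ℤ) ≤
          (((WN k ^ SN k * (3 * SN k * XxN k r Pa)) ^ nPN k : ℕ) : ℤ) := by exact_mod_cast h3
        push_cast at h5
        gcongr
      have h6 : ((WN k ^ SN k + WN k ^ SN k * (3 * SN k * XxN k r Pa) +
          WN k ^ SN k * (WN k ^ SN k * (3 * SN k * XxN k r Pa)) ^ nPN k * (Z2N k + 1) : ℕ) : ℤ)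
          ≤ (NN k (r + 1) : ℤ) := by exact_mod_cast h1
      push_cast at h6 h4 ⊢
      linarith)
  refine ⟨n, hn0, hn1.trans_le ?_, hn2, hn3⟩
  have := final_num k r hk hr'
  rwa [om_eq] at this

end main

end Pool.Agent.Lib.MP_fed790_nt.QP
end

section

/-!
# QP F: from completely additive functions to power residues
-/

open Finset

namespace Pool.Agent.Lib.MP_fed790_nt.QP

/-- The bound. -/
noncomputable def bnd (k : ℕ) : ℕ := 2 ^ ((2 * k) ^ (1320 * (ArithmeticFunction.cardFactors k + 1)))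

/-- The completely additive extension of a function on the primes. -/
noncomputable def addExt {G : Type*} [AddCommGroup G] (c : ℕ → G) (n : ℕ) : G :=
  n.factorization.sum fun q e => e • c q

theorem addExt_cadd {G : Type*} [AddCommGroup G] (c : ℕ → G) : CAdd (addExt c) := by
  intro m n hm hn
  unfold addExt
  rw [Nat.factorization_mul hm.ne' hn.ne']
  exact Finsupp.sum_add_index' (fun _ => zero_smul _ _) (fun _ _ _ => add_smul _ _ _)

theorem isPowRes_of_mem_range {k p n : ℕ} [Fact p.Prime] (u : (ZMod p)ˣ) (hu : (u : ZMod p) = n)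
    (h : u ∈ (powMonoidHom k : (ZMod p)ˣ →* (ZMod p)ˣ).range) : IsPowRes k p n := by
  obtain ⟨v, hv⟩ := h
  refine ⟨?_, ((v : ZMod p)).val, ?_⟩
  · intro hd
    have h0 : (n : ZMod p) = 0 := (ZMod.natCast_eq_zero_iff n p).mpr hd
    rw [← hu] at h0
    exact u.ne_zero h0
  · rw [← ZMod.natCast_eq_natCast_iff, Nat.cast_pow, ZMod.natCast_val, ZMod.cast_id', id, ← hu, ← hv]
    simp [powMonoidHom_apply]

/-- If `c q` is the class of `q` for all primes `q ≠ p`, then `addExt c n` is the class of `n`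
for all `0 < n < p`. -/
theorem addExt_eq {p : ℕ} [Fact p.Prime] (H : Subgroup (ZMod p)ˣ) (g : ℕ → (ZMod p)ˣ)
    (hg : ∀ n : ℕ, (n : ZMod p) ≠ 0 → ((g n : (ZMod p)ˣ) : ZMod p) = n) (n : ℕ) (hn : 0 < n)
    (hnp : n < p) :
    addExt (fun q => Additive.ofMul (QuotientGroup.mk (g q) : (ZMod p)ˣ ⧸ H)) n =
      Additive.ofMul (QuotientGroup.mk (g n) : (ZMod p)ˣ ⧸ H) := by
  have hne : ∀ m : ℕ, 0 < m → m < p → (m : ZMod p) ≠ 0 := by
    intro m h1 h2 h0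
    have := Nat.le_of_dvd h1 ((ZMod.natCast_eq_zero_iff m p).mp h0)
    omega
  induction n using Nat.strong_induction_on with
  | _ n ih =>
    rcases Nat.lt_or_ge n 2 with h | h
    · have h1 : n = 1 := by omega
      subst h1
      have hg1 : g 1 = 1 := by
        apply Units.ext
        rw [hg 1 (by simp), Nat.cast_one, Units.val_one]
      rw [hg1]
      unfold addExt
      simp
    · obtain ⟨q, hq, hqn⟩ := Nat.exists_prime_and_dvd (by omega : n ≠ 1)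
      obtain ⟨m, rfl⟩ := hqn
      have hm : 0 < m := by
        rcases Nat.eq_zero_or_pos m with h0 | h0
        · rw [h0, Nat.mul_zero] at hn; omega
        · exact h0
      have hmlt : m < q * m := by
        have := hq.two_le
        nlinarith
      have hq1 : q < p := by
        have : q ≤ q * m := Nat.le_mul_of_pos_right q hm
        omega
      have hqe : addExt (fun q => Additive.ofMul (QuotientGroup.mk (g q) : (ZMod p)ˣ ⧸ H)) q =
          Additive.ofMul (QuotientGroup.mk (g q) : (ZMod p)ˣ ⧸ H) := by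
        unfold addExt
        rw [hq.factorization, Finsupp.sum_single_index (by simp)]
        simp
      rw [addExt_cadd _ q m hq.pos hm, hqe, ih m hmlt hm (by omega), ← ofMul_mul,
        ← QuotientGroup.mk_mul]
      congr 2
      apply Units.ext
      rw [Units.val_mul, hg q (hne q hq.pos hq1), hg m (hne m hm (by omega)),
        hg (q * m) (hne _ hn hnp), Nat.cast_mul]

/-- For every prime `p > bnd k` there are two consecutive nonzero `k`th power residues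
modulo `p` in `[1, bnd k]`. -/
theorem r_lt {k p : ℕ} (hk : 2 ≤ k) (hp : p.Prime) (hpN : bnd k < p) :
    r k 2 p < (bnd k : ℕ∞) := by
  classical
  have : Fact p.Prime := ⟨hp⟩
  set H : Subgroup (ZMod p)ˣ := (powMonoidHom k : (ZMod p)ˣ →* (ZMod p)ˣ).range with hH
  have hcard : Nat.card (Additive ((ZMod p)ˣ ⧸ H)) ∣ k := by
    have h1 := IsCyclic.index_powMonoidHom_range (G := (ZMod p)ˣ) k
    rw [← hH, Subgroup.index] at h1
    have h2 : Nat.card (Additive ((ZMod p)ˣ ⧸ H)) = Nat.card ((ZMod p)ˣ ⧸ H) := rfl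
    rw [h2, h1]
    exact Nat.gcd_dvd_right _ _
  set g : ℕ → (ZMod p)ˣ := fun n => if h : (n : ZMod p) ≠ 0 then Units.mk0 _ h else 1 with hg
  have hgv : ∀ n : ℕ, (n : ZMod p) ≠ 0 → ((g n : (ZMod p)ˣ) : ZMod p) = n := by
    intro n h
    rw [hg]
    simp only [dif_pos h, Units.val_mk0]
  have hne : ∀ m : ℕ, 0 < m → m < p → (m : ZMod p) ≠ 0 := by
    intro m h1 h2 h0
    have := Nat.le_of_dvd h1 ((ZMod.natCast_eq_zero_iff m p).mp h0)
    omega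
  obtain ⟨n, hn1, hnN, hf1, hf2⟩ := main_alg k hk hcard
    (addExt (fun q => Additive.ofMul (QuotientGroup.mk (g q) : (ZMod p)ˣ ⧸ H)))
    (addExt_cadd _)
  have hnN' : n < bnd k := hnN
  rw [addExt_eq H g hgv n hn1 (by omega)] at hf1
  rw [addExt_eq H g hgv (n + 1) (by omega) (by omega)] at hf2
  have hres : ∀ i < 2, IsPowRes k p (n + i) := by
    intro i hi
    have hi' : i = 0 ∨ i = 1 := by omega
    rcases hi' with rfl | rfl
    · exact isPowRes_of_mem_range (g n) (hgv n (hne n hn1 (by omega)))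
        ((QuotientGroup.eq_one_iff _).mp hf1)
    · exact isPowRes_of_mem_range (g (n + 1)) (hgv (n + 1) (hne _ (by omega) (by omega)))
        ((QuotientGroup.eq_one_iff _).mp hf2)
  calc r k 2 p ≤ (n : ℕ∞) := sInf_le ⟨n, rfl, hn1, hres⟩
    _ < (bnd k : ℕ∞) := by exact_mod_cast hnN'

theorem Lam_lt {k : ℕ} (hk : 2 ≤ k) : Lam k 2 < (bnd k : ℕ∞) := by
  have hN1 : 1 ≤ bnd k := Nat.one_le_two_pow
  have hle : Lam k 2 ≤ ((bnd k - 1 : ℕ) : ℕ∞) := by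
    refine Filter.limsup_le_of_le (by isBoundedDefault) ?_
    rw [Filter.eventually_inf_principal]
    filter_upwards [Filter.eventually_gt_atTop (bnd k)] with p hpN hp
    have h := r_lt (k := k) hk hp hpN
    have h2 : r k 2 p + 1 ≤ (bnd k : ℕ∞) := Order.add_one_le_of_lt h
    have h3 : (bnd k : ℕ∞) = ((bnd k - 1 : ℕ) : ℕ∞) + 1 := by
      exact_mod_cast (Nat.sub_add_cancel hN1).symm
    rw [h3] at h2
    exact (ENat.add_le_add_iff_right (by simp)).mp h2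
  refine lt_of_le_of_lt hle ?_
  exact_mod_cast (by omega : bnd k - 1 < bnd k)

end Pool.Agent.Lib.MP_fed790_nt.QP
end
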